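import Pool.Agent.H546.K2e

set_option autoImplicit false

/-!
# Apery polynomials at CM points: statements of the lemmas

`R p` is `ZMod (p ^ 2)`.  `lg n z` is the Legendre polynomial `P_n(1 - 2 z)`, `lg n z = ∑ dl n k z^k`,
over any commutative ring (`Pool.Agent.H546.Leg`), in particular `lg n (X : A[X])`.
-/

namespace Pool.Agent.H546.AP

open Polynomial Finset
open Pool.Agent.Q267.CDE (R)

/-- `b(z) = ∑ C(e,2m) C(2m,m) 2^(e-2m) (1-z)^m` -/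
noncomputable def bq (A : Type*) [CommRing A] (e : ℕ) : A[X] :=
  ∑ m ∈ range (e / 2 + 1), C ((e.choose (2 * m) * (2 * m).choose m * 2 ^ (e - 2 * m) : ℕ) : A) * (1 - X) ^ m

/-- `T = 3 P_{[p/4]} + P_{[3p/4]}` -/
noncomputable def tq (p : ℕ) : (R p)[X] := 3 * lg (p / 4) (X : (R p)[X]) + lg (3 * p / 4) (X : (R p)[X])

/-- the sums `∑ C(n+k,2k)²` -/
noncomputable def fs (p k : ℕ) : R p := ∑ n ∈ range p, (((n + k).choose (2 * k) : ℕ) : R p) ^ 2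

/-- **AP1.**  `f_e = 1` for `e = (p-1)/2` and the recurrence of `f_k`.

Proof.  `f_e`: the term `n = e` is `C(2e,2e)=1`; for `n = e+i`, `1 ≤ i ≤ e`, `C(n+e,2e) = C(p-1+i,i)` (as `2e=p-1`) and
`i C(p-1+i,i) = p C(p-1+i,i-1)`, so `p` divides it and its square is `0` in `ZMod (p^2)`; for `n<e` the term is `0`.
Recurrence: let `F(n)=C(n+k,2k)` (naturals), so in `ℤ`
(i) `(2k+1)(2k+2) C(n+k+1,2k+2) = F(n) (n+k+1)(n-k)` and (ii) `F(n+1)(n+1-k) = F(n)(n+k+1)` (both also for `n<k`).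
Put `H(n) = F(n)^2 (n-k)^2 n ((4k+3)n^2 - (8k+5)(k+1)^2)`.  Then by `ring` from (i), (ii)
`(2k+1)^2 (k+1)^2 (4(4k+5)(4k+3) C(n+k+1,2k+2)^2 - (2k+2)(2k+1) F(n)^2) = H(n+1) - H(n)`
(use `H(n+1) = F(n)^2 (n+k+1)^2 (n+1)((4k+3)(n+1)^2 - (8k+5)(k+1)^2)`).
Sum over `n<p`: `H(0)=0` and `H(p)=0 mod p^2` (if `k=0` because of `(p-0)^2`; if `k≥1` because `p ∣ C(p+k,2k)` for
`1 ≤ k < e`: `C(p+k,2k)(2k)! = (p+k)…(p-k+1)` contains `p` and `p ∤ (2k)!`).  Finally `2k+1` and `k+1` are units mod `p^2`. -/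
def S_F : Prop := ∀ (p : ℕ) [Fact p.Prime], p ≠ 2 → fs p ((p - 1) / 2) = 1 ∧
  ∀ k : ℕ, k < (p - 1) / 2 → (2 * k + 2) * (2 * k + 1) * fs p k = 4 * (4 * k + 5) * (4 * k + 3) * fs p (k + 1)

/-- **AP2.**  The sum of the Apery polynomials.

Proof.  `C(n,k) C(n+k,k) = C(n+k,2k) C(2k,k)` for `k ≤ n` (and `C(n+k,2k) = 0` for `k>n`), exchange the sums over
`n<p` and `k<p`, and for `(p+1)/2 ≤ k < p` the prime `p` divides `C(2k,k)`, so `C(2k,k)^2 = 0` in `ZMod (p^2)`. -/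
def S_L : Prop := ∀ (p : ℕ) [Fact p.Prime], p ≠ 2 → ∀ x : R p,
  ∑ n ∈ range p, ∑ k ∈ range (n + 1), (((n.choose k) ^ 2 * ((n + k).choose k) ^ 2 : ℕ) : R p) * x ^ k =
    ∑ k ∈ range ((p - 1) / 2 + 1), ((k.centralBinom : ℕ) : R p) ^ 2 * fs p k * x ^ k

/-- **AP3.**  The differential equation of `b`, over any commutative ring.

Proof.  In `u = 1 - X` the polynomial `∑ a_m u^m`, `a_m = C(e,2m)C(2m,m)2^(e-2m)`, has
`4 (m+1)^2 a_{m+1} = (e-2m)(e-2m-1) a_m` (in `ℕ`/`ℤ`), i.e. it is `2^e 2F1(-e/2,(1-e)/2;1;u)`.  Compare coefficients of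
`(1-X)^m`: with `X = 1 - u`, `X(1-X) = u(1-u)`, `1-2X = 2u-1`, `derivative ((1-X)^m) = -m (1-X)^(m-1)`, the claim is
`16 (u - u^2) y'' - 16 (2u - 1) y' ... ` (`'` = d/du, so `d/dX = -d/du`), and with `p = 2e+1` the coefficient of `u^m` is
`16(m+1)m a_{m+1} - 16 m(m-1) a_m + 16 (m+1) a_{m+1} - 32 m a_m - 3 a_m + 8 p m a_m + 4 p a_m - p^2 a_m = 0`. -/
def S_bode : Prop := ∀ (A : Type) [CommRing A] (p e : ℕ), p = 2 * e + 1 →
  16 * X * (1 - X) * derivative (derivative (bq A e)) + 16 * (1 - 2 * X) * derivative (bq A e) - 3 * bq A e =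
    8 * (p : A[X]) * (1 - X) * derivative (bq A e) - 4 * (p : A[X]) * bq A e + (p : A[X]) ^ 2 * bq A e

/-- **AP4.**  `b(z)` is the coefficient of `X^(2e)` of `(1 - 4X^2 + 4zX^4)^(-1/2)`.

Proof.  `1 - 4X^2 + 4zX^4 = (1-2X^2)^2 - 4(1-z)X^4`.  Put `c0 = ∑_m C(2m,m) (1-z)^m X^(4m) (1-2X^2)^(-2m-1)`; then
`c0^2 (1 - 4X^2 + 4zX^4) = 1` (because `(∑ C(2m,m) t^m)^2 (1-4t) = 1`), `c0(0)=1`, and the coefficient of `X^(2e)` is
`∑_m C(2m,m)(1-z)^m C(e,2m) 2^(e-2m)`.  Uniqueness: `(c-c0)(c+c0) F = 0`, `c+c0` has constant term `2 ≠ 0`, domain.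
(Any other proof is fine, e.g. the 3-term recurrence in `e`: with `y = c`, `F y' = -(1/2) F' y` gives
`(e+1) b_{e+1} = 2(2e+1) b_e - 4 z e b_{e-1}`, also satisfied by the closed form.) -/
def S_cser : Prop := ∀ (A : Type) [CommRing A] [IsDomain A], (2 : A) ≠ 0 → ∀ (z : A) (c : PowerSeries A),
  c ^ 2 * (1 - 4 * PowerSeries.X ^ 2 + PowerSeries.C (4 * z) * PowerSeries.X ^ 4) = 1 →
  PowerSeries.constantCoeff c = 1 → ∀ e : ℕ, PowerSeries.coeff (2 * e) c = (bq A e).eval z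

/-- **AP5.**  The differential equation of `T` and its symmetry, modulo `p^2`.

Proof.  `lg n X` satisfies `X(1-X) y'' + (1-2X) y' + n(n+1) y = 0` (from `dl_succ`:
`dl n (k+1) (k+1)^2 = - (n-k)(n+k+1) dl n k`, see `Pool.Agent.Q267.Seven.dl_succ`), by `idx4` (file QFin)
`16 n(n+1) = -3 + 2 e p`, `16 m(m+1) = -3 - 6 e p` for `n = p/4`, `m = 3p/4`, and `p lg n X = p lg m X` (`u4_leg`, second
part, coefficientwise).  Symmetry: `lg_neg` (file Hasse) and `n ≡ m mod 2`. -/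
def S_tode : Prop := ∀ (p : ℕ) [Fact p.Prime], p ≠ 2 →
  16 * X * (1 - X) * derivative (derivative (tq p)) + 16 * (1 - 2 * X) * derivative (tq p) - 3 * tq p = 0 ∧
  (tq p).comp (1 - X) = (-1) ^ (p / 4) * tq p

/-- **AP6.**  `b = ± T/4` modulo `p`.

Proof.  The claim is a congruence modulo `p`, i.e. an identity over `ZMod p` (`x ∈ ZMod (p^2)`, `p x = 0` iff the
residue of `x` mod `p` is `0`).  Both sides satisfy over `F_p` the equation `X(1-X)y'' + (1-2X)y' - (3/16) y = 0`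
(AP3, AP5) and have degree `< p`; such a solution is determined by its value at `0`
(`(i+1)^2 y_{i+1} = (i+1/4)(i+3/4) y_i`), and `b(0) = C(2e,e) = (-1)^e mod p`
(`b(0)` = coefficient of `X^(2e)` in `(1-4X^2)^(-1/2)`), `T(0)/4 = 1`.  Alternatively use `sqrt_h4`, `h4_cs`, `lg_34`
over the field `FractionRing (ZMod p)[X]` with AP4. -/
def S_bT : Prop := ∀ (p : ℕ) [Fact p.Prime], p ≠ 2 →
  (p : (R p)[X]) * (4 * bq (R p) ((p - 1) / 2)) = (p : (R p)[X]) * ((-1) ^ ((p - 1) / 2) * tq p)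

/-- **AP7 (identity J).**  Assume AP3, AP5, AP6.

Proof.  Write `b = (-1)^e bq`, `χ = (-1)^(p/4)`, `b1 = b(1-X)`, `P = (4X)^p`, `Q = (4(1-X))^p`,
`W = T(4-P-Q) + 4 (P(4b-T) + Q(4χb1-T))` and `L y = 16X(1-X)y'' + 16(1-2X)y' - 3y` on `(R p)[X]`.
`L T = 0`, `L b = 8p(1-X)b' - 4pb` (`p^2=0`), `L b1 = -8pX b1' - 4p b1` (compose with `1-X`), `p·4b = pT`, `p·4χb1 = pT`
(compose AP6 with `1-X` and use the symmetry of `T`), `P' = 4p (4X)^(p-1)`, `Q' = -4p (4(1-X))^(p-1)`, `p` times the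
derivatives of `P`, `Q` vanish, and `P''`, `Q''` are `4p(p-1)·4 (4X)^(p-2)` etc.  A computation gives `L W = 0`.
(`X(1-X)(4-P-Q)' = ` …, everything is linear in `T, T'` after replacing `4b, 4χb1` by `T` where multiplied by `p`.)
`W` has degree `< 2p`, `W(0) = 0` (`T(0)=4`, `P(0)=0`, `Q(0)=4^p`, `4χ b1(0) = 4χ b(1) = 4χ(-1)^e 2^e`; one needs
`4(4-4^p) + 4·4^p(4χ(-1)^e2^e - 4) = 0` in `ZMod(p^2)`, i.e. with `δ = χ(-1)^e 2^e = 1 + pη` (`δ^2=2^(p-1)`, `δ ≡ 1` mod `p` by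
`(2/p)`; or from AP6 at `X=1`), `4^p = 4 δ^4`, `16(1-δ^4) + 64 δ^4 (δ-1) = 16(-4pη) + 64 pη = 0`).
From `L W = 0`, `(i+1)^2 w_{i+1}·16 = (4i+1)(4i+3) w_i`, so `w_i = 0` for `i < p`: `X^p ∣ W`.  `W(1-X) = χ W(X)`, so `(1-X)^p ∣ W`;
`X^p` and `(1-X)^p` are coprime, so their product, a polynomial of degree `2p` with unit leading coefficient,
divides `W`; hence `W = 0`. -/
def S_J : Prop := S_bode → S_tode → S_bT → ∀ (p : ℕ) [Fact p.Prime], 3 < p →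
  tq p * (4 - (4 * X) ^ p - (4 * (1 - X)) ^ p) +
    4 * ((4 * X) ^ p * (4 * ((-1) ^ ((p - 1) / 2) * bq (R p) ((p - 1) / 2)) - tq p) +
      (4 * (1 - X)) ^ p * (4 * ((-1) ^ (p / 4) * ((-1) ^ ((p - 1) / 2) * (bq (R p) ((p - 1) / 2)).comp (1 - X))) - tq p)) = 0

/-- **AP8 (identity I).**  `b(z) b(1-z)` as a polynomial in `4z(1-z)`.

Proof.  Put `π = p/4` in `R p` (`π^2 = 0`), `δ = X(1-X)`, `δ' = 1-2X`, `B = b·b1`, `b1 = b(1-X)`.  By AP3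
`δ b'' = -δ' b' + (3/16) b + π(2(1-X)b' - b)` and `δ b1'' = -δ' b1' + (3/16) b1 - π(2X b1' + b1)`.
Then `B` satisfies
`M(B) := δ^2 B''' + 3(1-π)δδ' B'' + (δ'^2 - (11/4)δ + π(6δ - 3δ'^2)) B' + (-(3/8) + (11/4)π) δ' B = 0`
(differentiate the two equations once, substitute; `π^2=0`).  For every `j`:
`M(δ^j) = δ' ( (j-π)^3 δ^(j-1) - 4 (j-π+1/4)(j-π+1/2)(j-π+3/4) δ^j )` (use `δ'^2 = 1-4δ`, `δ''=-2`).
Hence `∑_{j≤e} h_j (4δ)^j` satisfies the same equation (the recurrence of `h`; the last term `j=e` does not matter because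
`h_j = 0` for `j > e/2`: the factor `4j+1-p` or `4j+3-p` vanishes at `j = [e/2]`).  The difference `W` of both sides has
degree `≤ e < p`, value `0` at `X=0` (`b(0) b(1) = C(2e,e) 2^e`), and the lowest nonzero coefficient `w_i`, `1 ≤ i < p`, would give
`(i-π)^3 w_i = 0`, impossible since `i-π` is a unit. (`b(0) = C(2e,e)`: `∑_m C(e,2m)C(2m,m)2^(e-2m) = C(2e,e)`.) -/
def S_I : Prop := S_bode → ∀ (p : ℕ) [Fact p.Prime], 3 < p → ∀ h : ℕ → R p,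
  h 0 = 2 ^ ((p - 1) / 2) * ((((p - 1) / 2).centralBinom : ℕ) : R p) →
  (∀ j : ℕ, j < (p - 1) / 2 → (4 * ((j : R p) + 1) - p) ^ 3 * h (j + 1) =
    (4 * (j : R p) + 1 - p) * (4 * (j : R p) + 2 - p) * (4 * (j : R p) + 3 - p) * h j) →
  bq (R p) ((p - 1) / 2) * (bq (R p) ((p - 1) / 2)).comp (1 - X) =
    ∑ j ∈ range ((p - 1) / 2 + 1), C (h j) * (4 * X * (1 - X)) ^ j

/-- **AP9.**  Linearity in the parameter.

Proof.  Show by induction on `j ≤ e` that there are `α β : R p` (the same for all three sequences) with `c0 j = α`,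
`h j = h 0 (α - (p/4) β)`, `g j = g 0 (α - (p/2) β)` (`1/4`, `1/2` in `R p`): all three satisfy
`(j+1+s)^3 c_{j+1} = (j+1/4+s)(j+1/2+s)(j+3/4+s) c_j` with `s = 0, -p/4, -p/2`, `s^2 = 0`; `j+1+s` is a unit for `j<e`. -/
def S_lin : Prop := ∀ (p : ℕ) [Fact p.Prime], 3 < p → ∀ c h g : ℕ → R p, c 0 = 1 →
  (∀ j : ℕ, j < (p - 1) / 2 → (4 * ((j : R p) + 1)) ^ 3 * c (j + 1) =
    (4 * (j : R p) + 1) * (4 * (j : R p) + 2) * (4 * (j : R p) + 3) * c j) →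
  (∀ j : ℕ, j < (p - 1) / 2 → (4 * ((j : R p) + 1) - p) ^ 3 * h (j + 1) =
    (4 * (j : R p) + 1 - p) * (4 * (j : R p) + 2 - p) * (4 * (j : R p) + 3 - p) * h j) →
  (∀ j : ℕ, j < (p - 1) / 2 → 4 * (2 * ((j : R p) + 1) - p) ^ 3 * g (j + 1) =
    (4 * (j : R p) + 1 - 2 * p) * (2 * (j : R p) + 1 - p) * (4 * (j : R p) + 3 - 2 * p) * g j) →
  ∀ j : ℕ, j ≤ (p - 1) / 2 → h 0 * g j - 2 * g 0 * h j + g 0 * h 0 * c j = 0

/-- **AP10.**  Reduction of binary quadratic forms of discriminant `-4N`.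

Proof.  If `p ∣ t^2 + N` then the form `(p, t, (t^2+N)/p)` (`a x^2 + 2b x y + c y^2`) has `ac - b^2 = N` and represents `p`.
Reduce: among the positive forms equivalent to it choose one with least `a` (strong induction on `a`): replace `b` by
`b + k a` to get `2|b| ≤ a`; if `c < a` swap.  Keep track of the substitution (an integer matrix of determinant `1`). -/
def S_form : Prop := ∀ (N p : ℕ), 0 < N → 0 < p → ∀ t : ℤ, (p : ℤ) ∣ t ^ 2 + N →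
  ∃ a b c r s : ℤ, a * c - b ^ 2 = N ∧ 0 < a ∧ 2 * |b| ≤ a ∧ a ≤ c ∧ (p : ℤ) = a * r ^ 2 + 2 * b * r * s + c * s ^ 2

/-- **AP11.**  Morley's congruence modulo `p^2` (weak form).

Proof.  Library: `Pool/Graph/R_seed8/H213R3/MC/Morley.lean` or `R_pool_sql_team_seeded_620a6dc7/helper484_domb_/Morley.lean`
(adapt the statement), or elementary. -/
def S_mor : Prop := ∀ (p : ℕ) [Fact p.Prime], 3 < p →
  ((((p - 1) / 2).centralBinom : ℕ) : R p) = (-1) ^ ((p - 1) / 2) * 4 ^ (p - 1)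

end Pool.Agent.H546.AP
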