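import Pool.Agent.H546.Lin

set_option autoImplicit false

/-!
# Small tools over a general discrete valuation structure
-/

namespace Pool.Agent.H546

variable {O K k : Type*} [CommRing O] [IsDomain O] [Field K] [Algebra O K] [Field k]
  (S : DV O K k) {p : ℕ} [hp : Fact p.Prime] [CharP k p]

theorem DV.int_ne {n : ℤ} (h : ¬ (p : ℤ) ∣ n) : S.red (n : O) ≠ 0 := by
  rw [map_intCast]
  intro h0
  exact h ((CharP.intCast_eq_zero_iff k p n).mp h0)

theorem DV.ne_mul {x y : O} {n : ℤ} (h : x * y = (n : O)) (hn : ¬ (p : ℤ) ∣ n) : S.red x ≠ 0 := by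
  intro h0
  have h1 := congrArg S.red h
  rw [map_mul, h0, zero_mul] at h1
  exact S.int_ne hn h1.symm

/-- the Frobenius of the reduction of a square root of an integer -/
theorem DV.frob_sq (hp2 : p ≠ 2) {d : ℤ} {y : O} (hy : y ^ 2 = (d : O)) :
    S.red y ^ p = (legendreSym p d : k) * S.red y := by
  refine frob_sqrt hp2 (d := d) ?_
  rw [← map_pow, hy, map_intCast]

/-- the Frobenius of the reduction of an inverse of an integer -/
theorem DV.frob_inv {n : ℤ} {v : O} (hv : (n : O) * v = 1) (hn : ¬ (p : ℤ) ∣ n) : S.red v ^ p = S.red v := by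
  have h1 : (n : k) * S.red v = 1 := by
    have := congrArg S.red hv
    rwa [map_mul, map_intCast, map_one] at this
  have h2 := congrArg (frobenius k p) h1
  rw [map_mul, map_intCast, map_one] at h2
  have hn0 : (n : k) ≠ 0 := fun h0 => hn ((CharP.intCast_eq_zero_iff k p n).mp h0)
  apply mul_left_cancel₀ hn0
  rw [h1]; exact h2

theorem DV.two_ne (hp2 : p ≠ 2) : S.red 2 ≠ 0 := by
  have := S.int_ne (p := p) (n := 2) (by
    have := ndvd_of_primes p (n := 2) (l := [2]) (by simp; norm_num) (by norm_num) (by simpa using hp2)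
    exact_mod_cast this)
  exact_mod_cast this

theorem DV.three_ne (hp3 : p ≠ 3) : S.red 3 ≠ 0 := by
  have := S.int_ne (p := p) (n := 3) (by
    have := ndvd_of_primes p (n := 3) (l := [3]) (by simp; norm_num) (by norm_num) (by simpa using hp3)
    exact_mod_cast this)
  exact_mod_cast this

/-- the linear combination over a diagonal form -/
theorem lin3_diag [IsAlgClosed k] (hp11 : 10 < p) (hq : S.q = (p : O))
    {z z' : O} (hz : S.red z ≠ 0) (hz1 : S.red (1 - z) ≠ 0) (hz' : S.red z' = S.red z ^ p)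
    (ha0 : S.red (ca (4 * z)) ≠ 0) (hb0 : S.red (cb (4 * z)) ≠ 0) {m1 m2 : O} {l1 l2 : ℕ} {κ : ℤ}
    (hm1 : m1 ≠ 0) (hm2 : m2 ≠ 0) (hκ : κ = 1 ∨ κ = -1)
    (d1 : DatT S (4 * z) (4 * z') m1 l1 κ) (d2 : DatK S (4 * z) (4 * z') m2 l2)
    (x y ε : ℤ) (hε : ε = 1 ∨ ε = -1) (h3x : (3 : ℤ) ∣ x - ε)
    (hform : (p : ℤ) = l1 * x ^ 2 + l2 * y ^ 2)
    (hl1 : ¬ (p : ℤ) ∣ l1) (hl2 : ¬ (p : ℤ) ∣ l2)
    (hbig : 16 * (l1 * l2) < p ^ 2) {c : ℤ} (hc : c ^ 2 = 1)
    (h1 : m1 ^ 2 = c * l1) (h2 : m2 ^ 2 = -(c * l2)) :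
    (p : O) ^ 2 ∣ (2 * x * m1) * (2 * lg (p / 3) z + lg (2 * p / 3) z) -
      3 * ((ε * κ : ℤ) : O) * (4 * l1 * x ^ 2 - p) ∧
    (p : O) ^ 2 ∣ (2 * x * m1) * (5 * lg (4 * p / 3) z + 4 * lg (5 * p / 3) z) -
      9 * (1 - 2 * z') * ((ε * κ : ℤ) : O) * (4 * l1 * x ^ 2 - p) := by
  have hcO : (c : O) ^ 2 = 1 := by
    rw [← Int.cast_pow, hc, Int.cast_one]
  have hfO : (p : O) = l1 * x ^ 2 + l2 * y ^ 2 := by
    have := congrArg (Int.cast : ℤ → O) hform
    push_cast at this; exact this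
  have hsq : (c : O) * (2 * x * m1) ^ 2 - p = 4 * l1 * x ^ 2 - p := by
    linear_combination (4 * (c : O) * x ^ 2) * h1 + (4 * (l1 : O) * x ^ 2) * hcO
  rw [← hsq]
  have key : ∀ y : ℤ, (p : ℤ) = l1 * x ^ 2 + l2 * y ^ 2 → (p : O) = l1 * x ^ 2 + l2 * y ^ 2 →
      S.red ((x : O) * m1 + (y : O) * m2) = 0 →
      (p : O) ^ 2 ∣ (2 * x * m1) * (2 * lg (p / 3) z + lg (2 * p / 3) z) -
      3 * ((ε * κ : ℤ) : O) * (c * (2 * x * m1) ^ 2 - p) ∧
      (p : O) ^ 2 ∣ (2 * x * m1) * (5 * lg (4 * p / 3) z + 4 * lg (5 * p / 3) z) -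
      9 * (1 - 2 * z') * ((ε * κ : ℤ) : O) * (c * (2 * x * m1) ^ 2 - p) := by
    intro y hform hfO hr
    refine lin3 S hp11 hq hz hz1 hz' ha0 hb0 hm1 hm2 hκ d1 d2 x y 0 ε hε h3x (by rw [hform]; ring) hl1 hl2
      (by positivity) hbig (al := (x : O) * m1 + (y : O) * m2) (τ := 2 * x * m1) rfl hr hc ?_
    linear_combination (x : O) ^ 2 * h1 - (y : O) ^ 2 * h2 - (c : O) * hfO
  have h0 : S.red ((x : O) * m1 + (y : O) * m2) * S.red ((x : O) * m1 - (y : O) * m2) = 0 := by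
    rw [← map_mul]
    have : ((x : O) * m1 + (y : O) * m2) * ((x : O) * m1 - (y : O) * m2) = S.q * c := by
      rw [hq]; linear_combination (x : O) ^ 2 * h1 - (y : O) ^ 2 * h2 - (c : O) * hfO
    rw [this, map_mul, S.red_q, zero_mul]
  rcases mul_eq_zero.mp h0 with h | h
  · exact key y hform hfO h
  · refine key (-y) (by rw [hform]; ring) (by rw [hfO]; push_cast; ring) ?_
    rw [← h]; congr 1; push_cast; ring

end Pool.Agent.H546
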