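import Pool.Agent.H546.QLift
import Pool.Agent.H546.UtilG

set_option autoImplicit false

/-!
# The sums of the quartic family modulo `p²`
-/

namespace Pool.Agent.H546

open Finset
open Pool.Agent.Q267.Seven (dl dl_succ)
open Pool.Agent.Q267.MW (dl_vanish clausen_gen)
open Pool.Agent.Q267.CDE (R p_sq isUnit_nat isUnit_of_red)

/-- `C(2k,k) C(4k,2k)` -/
def u4 (k : ℕ) : ℕ := k.centralBinom * (2 * k).centralBinom

theorem u4_succ (k : ℕ) : u4 (k + 1) * (k + 1) ^ 2 = 4 * (4 * k + 1) * (4 * k + 3) * u4 k := by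
  have h1 := Nat.succ_mul_centralBinom_succ k
  have h2 := Nat.succ_mul_centralBinom_succ (2 * k)
  have h3 := Nat.succ_mul_centralBinom_succ (2 * k + 1)
  have e : 2 * (k + 1) = 2 * k + 1 + 1 := by ring
  unfold u4
  rw [e]
  have hk : 0 < 2 * (2 * k + 1) := by omega
  apply Nat.eq_of_mul_eq_mul_right hk
  have c1 : (k + 1).centralBinom * (2 * k + 1 + 1).centralBinom * (k + 1) ^ 2 * (2 * (2 * k + 1)) =
      ((k + 1) * (k + 1).centralBinom) * (((2 * k + 1 + 1) * (2 * k + 1 + 1).centralBinom) * (2 * k + 1)) := by ring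
  rw [c1, h1, h3]
  have c2 : 2 * (2 * k + 1) * k.centralBinom * (2 * (2 * (2 * k + 1) + 1) * (2 * k + 1).centralBinom * (2 * k + 1)) =
      2 * (2 * k + 1) * k.centralBinom * (2 * (2 * (2 * k + 1) + 1) * ((2 * k + 1) * (2 * k + 1).centralBinom)) := by ring
  rw [c2, h2]
  ring

variable (p : ℕ) [hp : Fact p.Prime]

theorem idx4 (hp2 : p ≠ 2) : ∃ e : R p,
    16 * (((p / 4 : ℕ) : R p) * (((p / 4 : ℕ) : R p) + 1)) = -3 + 2 * e * p ∧
    16 * (((3 * p / 4 : ℕ) : R p) * (((3 * p / 4 : ℕ) : R p) + 1)) = -3 - 6 * e * p := by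
  have hpp := p_sq p
  have h4 : p % 4 = 1 ∨ p % 4 = 3 := by
    rcases hp.out.eq_two_or_odd with h | h <;> omega
  rcases h4 with h | h
  · obtain ⟨n, hn⟩ : ∃ n, p = 4 * n + 1 := ⟨p / 4, by omega⟩
    have e1 : p / 4 = n := by omega
    have e2 : 3 * p / 4 = 3 * n := by omega
    have hn' := congrArg (Nat.cast : ℕ → R p) hn
    push_cast at hn'
    refine ⟨1, ?_, ?_⟩
    · rw [e1]
      linear_combination hpp - ((p : R p) + 4 * n + 1 + 2) * hn'
    · rw [e2]
      push_cast
      linear_combination 9 * hpp - (9 * (p : R p) + 9 * (4 * n + 1) - 6) * hn'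
  · obtain ⟨n, hn⟩ : ∃ n, p = 4 * n + 3 := ⟨p / 4, by omega⟩
    have e1 : p / 4 = n := by omega
    have e2 : 3 * p / 4 = 3 * n + 2 := by omega
    have hn' := congrArg (Nat.cast : ℕ → R p) hn
    push_cast at hn'
    refine ⟨-1, ?_, ?_⟩
    · rw [e1]
      linear_combination hpp - ((p : R p) + 4 * n + 3 - 2) * hn'
    · rw [e2]
      push_cast
      linear_combination 9 * hpp - (9 * (p : R p) + 9 * (4 * n + 3) + 6) * hn'

theorem u4_leg (hp2 : p ≠ 2) (k : ℕ) (hk : k < p) :
    4 * ((u4 k : ℕ) : R p) = 64 ^ k * (3 * (dl (p / 4) k : R p) + (dl (3 * p / 4) k : R p)) ∧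
    (p : R p) * (dl (p / 4) k : R p) = p * (dl (3 * p / 4) k : R p) := by
  have hpp := p_sq p
  obtain ⟨e, h1, h2⟩ := idx4 p hp2
  have h2u : IsUnit (2 : R p) := by
    apply isUnit_of_red
    rw [map_ofNat]
    intro h
    have : ((2 : ℕ) : ZMod p) = 0 := by exact_mod_cast h
    rw [ZMod.natCast_eq_zero_iff] at this
    exact hp2 ((Nat.prime_dvd_prime_iff_eq hp.out (by norm_num)).mp this)
  induction k with
  | zero =>
    simp only [pow_zero, one_mul]
    unfold u4 dl
    norm_num
  | succ k ih =>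
    obtain ⟨i1, i2⟩ := ih (by omega)
    have hu : IsUnit (((k : R p) + 1) ^ 2) := by
      have := isUnit_nat p (k + 1) (by omega) (by omega)
      push_cast at this
      exact this.pow 2
    have a1 := congrArg (Int.cast : ℤ → R p) (dl_succ (p / 4) k)
    have a2 := congrArg (Int.cast : ℤ → R p) (dl_succ (3 * p / 4) k)
    have a3 := congrArg (Nat.cast : ℕ → R p) (u4_succ k)
    rw [Int.cast_mul, Int.cast_mul, Int.cast_sub, Int.cast_mul, Int.cast_add, Int.cast_add,
      Int.cast_pow, Int.cast_pow, Int.cast_add, Int.cast_natCast, Int.cast_natCast, Int.cast_one]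
      at a1 a2
    rw [Nat.cast_mul, Nat.cast_mul, Nat.cast_pow, Nat.cast_add, Nat.cast_mul, Nat.cast_mul,
      Nat.cast_add, Nat.cast_add, Nat.cast_mul, Nat.cast_one, Nat.cast_ofNat, Nat.cast_ofNat] at a3
    set N1 : R p := ((p / 4 : ℕ) : R p)
    set N2 : R p := ((3 * p / 4 : ℕ) : R p)
    set A : R p := (dl (p / 4) k : R p)
    set B : R p := (dl (3 * p / 4) k : R p)
    set A' : R p := (dl (p / 4) (k + 1) : R p)
    set B' : R p := (dl (3 * p / 4) (k + 1) : R p)
    set K : R p := (k : R p)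
    set P : R p := (p : R p)
    constructor
    · apply hu.mul_right_cancel
      rw [pow_succ (64 : R p) k]
      linear_combination 4 * a3 + 4 * (16 * K ^ 2 + 16 * K + 3) * i1 -
        64 * 64 ^ k * (3 * a1 + a2) + 64 ^ k * 4 * (3 * A * h1 + B * h2) +
        64 ^ k * 24 * e * i2
    · apply hu.mul_right_cancel
      apply (h2u.pow 4).mul_left_cancel
      linear_combination 16 * P * (a1 - a2) + (16 * K ^ 2 + 16 * K + 3) * i2 -
        P * (A * h1 - B * h2) - (2 * A + 6 * B) * e * hpp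

theorem sum_four (hp2 : p ≠ 2) (w : R p) :
    4 * ∑ k ∈ range p, (k.centralBinom : R p) * ((u4 k : ℕ) : R p) * w ^ k =
      3 * ∑ k ∈ range p, (dl (p / 4) k : R p) * (k.centralBinom : R p) * (64 * w) ^ k +
        ∑ k ∈ range p, (dl (3 * p / 4) k : R p) * (k.centralBinom : R p) * (64 * w) ^ k := by
  rw [mul_sum, mul_sum, ← sum_add_distrib]
  refine sum_congr rfl fun k hk => ?_
  obtain ⟨h1, -⟩ := u4_leg p hp2 k (mem_range.mp hk)
  rw [mul_pow]
  linear_combination (k.centralBinom : R p) * w ^ k * h1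

variable {p}

section sums

variable {O K k : Type*} [CommRing O] [IsDomain O] [Field K] [Algebra O K] [Field k]
  (S : DV O K k) [CharP k p]

/-- sixteen times the sum as a square in the quotient -/
theorem sum_sq4 (hp5 : 5 ≤ p) {A : Type*} [CommRing A] (th : R p →+* A) (z : A) (wi : R p)
    (hz : z * (1 - z) = th (64 * wi)) :
    16 * th (∑ k ∈ range p, (k.centralBinom : R p) * ((u4 k : ℕ) : R p) * wi ^ k) =
      (3 * lg (p / 4) z + lg (3 * p / 4) z) ^ 2 ∧ (p : A) * lg (p / 4) z = p * lg (3 * p / 4) z := by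
  have hp2 : p ≠ 2 := by omega
  have hS := congrArg th (sum_four p hp2 wi)
  have c1 := clausen_gen p (p / 4) (by omega) z _ hz
  have c2 := clausen_gen p (3 * p / 4) (by omega) z _ hz
  rw [lg_ext _ _ (by omega)] at c1 c2
  rw [map_add, map_mul, map_mul, map_sum th _ (range p), map_sum th _ (range p),
    map_sum th _ (range p)] at hS
  have e1 : ∑ x ∈ range p, th ((dl (p / 4) x : R p) * (x.centralBinom : R p) * (64 * wi) ^ x) =
      lg (p / 4) z ^ 2 := by
    rw [c1]
    refine sum_congr rfl fun x _ => ?_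
    rw [map_mul, map_mul, map_intCast, map_natCast, map_pow]
  have e2 : ∑ x ∈ range p, th ((dl (3 * p / 4) x : R p) * (x.centralBinom : R p) * (64 * wi) ^ x) =
      lg (3 * p / 4) z ^ 2 := by
    rw [c2]
    refine sum_congr rfl fun x _ => ?_
    rw [map_mul, map_mul, map_intCast, map_natCast, map_pow]
  rw [e1, e2] at hS
  have hP : (p : A) * lg (p / 4) z = p * lg (3 * p / 4) z := by
    rw [← lg_ext (p / 4) p (by omega), ← lg_ext (3 * p / 4) p (by omega), mul_sum, mul_sum]
    refine sum_congr rfl fun x hx => ?_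
    obtain ⟨-, h2⟩ := u4_leg p hp2 x (mem_range.mp hx)
    have := congrArg th h2
    rw [map_mul, map_mul, map_natCast, map_intCast, map_intCast] at this
    linear_combination z ^ x * this
  refine ⟨?_, hP⟩
  set a := lg (p / 4) z
  set b := lg (3 * p / 4) z
  have hd : (a - b) ^ 2 = 0 := by
    have hcoef : ∀ x ∈ range p, ∃ y : R p, (dl (p / 4) x : R p) - (dl (3 * p / 4) x : R p) = p * y := by
      intro x hx
      obtain ⟨-, h2⟩ := u4_leg p hp2 x (mem_range.mp hx)
      have h4 : (((dl (p / 4) x - dl (3 * p / 4) x) * p : ℤ) : ZMod (p ^ 2)) = 0 := by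
        push_cast
        linear_combination h2
      rw [ZMod.intCast_zmod_eq_zero_iff_dvd] at h4
      obtain ⟨c, hc⟩ := h4
      refine ⟨(c : R p), ?_⟩
      have hp0 : (p : ℤ) ≠ 0 := by exact_mod_cast hp.out.ne_zero
      have h5 : dl (p / 4) x - dl (3 * p / 4) x = p * c := by
        apply mul_right_cancel₀ hp0
        rw [hc]; push_cast; ring
      have := congrArg (Int.cast : ℤ → R p) h5
      push_cast at this
      exact this
    choose! y hy using hcoef
    have hab : a - b = (p : A) * ∑ x ∈ range p, th (y x) * z ^ x := by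
      show lg (p / 4) z - lg (3 * p / 4) z = _
      rw [← lg_ext (p / 4) p (by omega), ← lg_ext (3 * p / 4) p (by omega), ← sum_sub_distrib, mul_sum]
      refine sum_congr rfl fun x hx => ?_
      have := congrArg th (hy x hx)
      rw [map_sub, map_mul, map_natCast, map_intCast, map_intCast] at this
      linear_combination z ^ x * this
    have hpp : (p : A) ^ 2 = 0 := by
      have := congrArg th (Pool.Agent.Q267.CDE.p_sq p)
      rw [map_pow, map_natCast, map_zero] at this
      exact this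
    rw [hab, mul_pow, hpp, zero_mul]
  have h3' : th 3 = 3 := map_ofNat th 3
  have h4' : th 4 = 4 := map_ofNat th 4
  rw [h3', h4', ← map_sum th _ (range p)] at hS
  linear_combination 4 * hS + 3 * hd

theorem unit16 (hp5 : 5 ≤ p) : IsUnit (16 : R p) := by
  have h2 : IsUnit (2 : R p) := by
    apply Pool.Agent.Q267.CDE.isUnit_of_red
    rw [map_ofNat]
    intro h
    have : ((2 : ℕ) : ZMod p) = 0 := by exact_mod_cast h
    rw [ZMod.natCast_eq_zero_iff] at this
    have := Nat.le_of_dvd (by norm_num) this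
    omega
  have : (16 : R p) = 2 ^ 4 := by norm_num
  rw [this]; exact h2.pow 4

include S in
/-- the sum modulo `p²` from the unit root -/
theorem sum_final4 (hp5 : 5 ≤ p) (hq : S.q = (p : O)) {z w : O} {m : ℤ} (hm : ¬ (p : ℤ) ∣ m)
    (hmz : (m : O) * (z * (1 - z)) = 64) {wi : R p} (hwi : (m : R p) * wi = 1) (E : ℤ)
    (hE : (p : O) ^ 2 ∣ (E : O) * w ^ 2 - 1)
    (key : ∃ ε : O, ε ^ 2 = 1 ∧ (p : O) ^ 2 ∣ ε * w * (3 * lg (p / 4) z + lg (3 * p / 4) z) - 4) :
    ∑ k ∈ range p, (k.centralBinom : R p) * ((u4 k : ℕ) : R p) * wi ^ k = (E : R p) := by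
  have := charQ S (p := p) hq
  set th : R p →+* QO O p := ZMod.castHom (dvd_refl _) (QO O p) with hth
  have thinj : Function.Injective th := ZMod.castHom_injective _
  set mk := Ideal.Quotient.mk (Ideal.span {(p : O) ^ 2}) with hmk
  have mkz : ∀ x : O, (p : O) ^ 2 ∣ x → mk x = 0 := by
    intro x hx
    rw [Ideal.Quotient.eq_zero_iff_mem, Ideal.mem_span_singleton]
    exact hx
  have hmu : IsUnit ((m : R p)) := IsUnit.of_mul_eq_one _ hwi
  have hmu' : IsUnit (th (m : R p)) := hmu.map th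
  have hz : mk z * (1 - mk z) = th (64 * wi) := by
    apply hmu'.mul_left_cancel
    rw [← map_mul th]
    have e : (m : R p) * (64 * wi) = 64 := by linear_combination 64 * hwi
    rw [e, map_ofNat, map_intCast]
    have := congrArg mk hmz
    rw [map_mul, map_intCast, map_mul, map_sub, map_one, map_ofNat] at this
    exact this
  obtain ⟨h9, -⟩ := sum_sq4 (p := p) hp5 th (mk z) wi hz
  obtain ⟨ε, hε, hk⟩ := key
  have k1 := mkz _ hk
  rw [map_sub, map_mul, map_mul, map_add, map_mul, map_ofNat, map_ofNat, lg_cast, lg_cast] at k1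
  have k2 := mkz _ hE
  rw [map_sub, map_mul, map_intCast, map_pow, map_one] at k2
  have hε' : mk ε ^ 2 = 1 := by rw [← map_pow, hε, map_one]
  apply thinj
  rw [map_intCast]
  have h9u' : IsUnit (16 : QO O p) := by
    have := (unit16 (p := p) hp5).map th
    rwa [map_ofNat] at this
  apply h9u'.mul_left_cancel
  rw [h9]
  set L := 3 * lg (p / 4) (mk z) + lg (3 * p / 4) (mk z) with hL
  have k3 : mk ε * mk w * L = 4 := by linear_combination k1
  have k4 : mk w ^ 2 * L ^ 2 = 16 := by
    linear_combination (mk ε * mk w * L + 4) * k3 - (mk w ^ 2 * L ^ 2) * hε'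
  linear_combination (E : QO O p) * k4 - L ^ 2 * k2

include S in
/-- the sum modulo `p²` in the supersingular case -/
theorem sum_zero4 (hp5 : 5 ≤ p) (hq : S.q = (p : O)) {z : O} {m : ℤ}
    (hmz : (m : O) * (z * (1 - z)) = 64) {wi : R p} (hwi : (m : R p) * wi = 1)
    (hss : S.red (lg (p / 4) z) = 0) :
    ∑ k ∈ range p, (k.centralBinom : R p) * ((u4 k : ℕ) : R p) * wi ^ k = 0 := by
  have := charQ S (p := p) hq
  set th : R p →+* QO O p := ZMod.castHom (dvd_refl _) (QO O p) with hth
  have thinj : Function.Injective th := ZMod.castHom_injective _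
  set mk := Ideal.Quotient.mk (Ideal.span {(p : O) ^ 2}) with hmk
  have hmu : IsUnit ((m : R p)) := IsUnit.of_mul_eq_one _ hwi
  have hmu' : IsUnit (th (m : R p)) := hmu.map th
  have hz : mk z * (1 - mk z) = th (64 * wi) := by
    apply hmu'.mul_left_cancel
    rw [← map_mul th]
    have e : (m : R p) * (64 * wi) = 64 := by linear_combination 64 * hwi
    rw [e, map_ofNat, map_intCast]
    have := congrArg mk hmz
    rw [map_mul, map_intCast, map_mul, map_sub, map_one, map_ofNat] at this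
    exact this
  obtain ⟨h9, hP⟩ := sum_sq4 (p := p) hp5 th (mk z) wi hz
  have hpp : (mk (p : O)) ^ 2 = 0 := by
    rw [← map_pow, Ideal.Quotient.eq_zero_iff_mem, Ideal.mem_span_singleton]
  obtain ⟨y, hy⟩ := (S.red_iff _).mp hss
  rw [hq] at hy
  have e1 : lg (p / 4) (mk z) = mk (p : O) * mk y := by rw [← lg_cast, hy, map_mul]
  have hP' : mk (p : O) * lg (3 * p / 4) (mk z) = 0 := by
    have h1 : ((p : ℕ) : QO O p) = mk (p : O) := (map_natCast mk p).symm
    rw [h1] at hP
    rw [← hP, e1]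
    linear_combination mk y * hpp
  have hb : ∃ y', lg (3 * p / 4) z = (p : O) * y' := by
    rw [← lg_cast, ← map_mul, Ideal.Quotient.eq_zero_iff_mem, Ideal.mem_span_singleton] at hP'
    obtain ⟨c, hc⟩ := hP'
    refine ⟨c, ?_⟩
    have hp0 : (p : O) ≠ 0 := by rw [← hq]; exact S.q_ne
    apply mul_left_cancel₀ hp0
    rw [hc]; ring
  obtain ⟨y', hy'⟩ := hb
  have e2 : lg (3 * p / 4) (mk z) = mk (p : O) * mk y' := by rw [← lg_cast, hy', map_mul]
  apply thinj
  rw [map_zero]
  have h9u' : IsUnit (16 : QO O p) := by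
    have := (unit16 (p := p) hp5).map th
    rwa [map_ofNat] at this
  apply h9u'.mul_left_cancel
  rw [h9, e1, e2, mul_zero]
  linear_combination (3 * mk y + mk y') ^ 2 * hpp

/-- **The value of the sum from two isogenies.** -/
theorem sum_form4 [IsAlgClosed k] (hp5 : 5 ≤ p) (hq : S.q = (p : O))
    {z z' : O} {M : ℤ} (hM : ¬ (p : ℤ) ∣ M) (hMz : (M : O) * (z * (1 - z)) = 64)
    (hz : S.red z ≠ 0) (hz1 : S.red (1 - z) ≠ 0) (hz' : S.red z' = S.red z ^ p)
    (ha0 : S.red (qa z) ≠ 0) (hb0 : S.red (qb z) ≠ 0) {m1 m2 : O} {l1 l2 : ℕ}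
    (hm1 : m1 ≠ 0) (hm2 : m2 ≠ 0)
    (d1 : Dat S (cub (qa z) (qb z)) (qa z') (qb z') m1 l1)
    (d2 : Dat S (cub (qa z) (qb z)) (qa z') (qb z') m2 l2)
    (r s t0 : ℤ) (hform : (p : ℤ) = r ^ 2 * l1 + r * s * t0 + s ^ 2 * l2)
    (hl1 : ¬ (p : ℤ) ∣ l1) (hl2 : ¬ (p : ℤ) ∣ l2) (ht0 : t0 ^ 2 ≤ 4 * l1 * l2)
    (hbig : 16 * (l1 * l2) < p ^ 2) {al τ : O} {c E : ℤ} (hal : (r : O) * m1 + (s : O) * m2 = al)
    (hred : S.red al = 0) (hc : c ^ 2 = 1) (hprod : al * (τ - al) = c * p)
    (hE : (E : O) = τ ^ 2 - 2 * c * p)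
    {wi : R p} (hwi : (M : R p) * wi = 1) :
    ∑ k ∈ range p, (k.centralBinom : R p) * ((u4 k : ℕ) : R p) * wi ^ k = (E : R p) := by
  have hp0 : (p : O) ≠ 0 := by rw [← hq]; exact S.q_ne
  obtain ⟨w, hw⟩ := (S.red_iff _).mp hred
  rw [hq] at hw
  have hw1 : w * (τ - al) = c := by
    apply mul_left_cancel₀ hp0
    rw [hw] at hprod ⊢
    linear_combination hprod
  have hcO : (c : O) ^ 2 = 1 := by
    rw [← Int.cast_pow, hc, Int.cast_one]
  have hwr : S.red w ≠ 0 := by
    intro h0
    have h1 := congrArg S.red hw1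
    rw [map_mul, h0, zero_mul] at h1
    have h2 := congrArg S.red hcO
    rw [map_pow, ← h1, map_one] at h2
    simp at h2
  obtain ⟨ε, hε, hk⟩ := lift4 S hp5 hq hz hz1 hz' ha0 hb0 hm1 hm2 d1 d2 r s t0 hform
    (form_ndvd hform hl2) (form_ndvd (r := s) (s := r) (t0 := t0) (l1 := l2) (l2 := l1)
      (by rw [hform]; ring) hl1) ht0 hbig (w := w) (by rw [hal, hw]) hwr
  refine sum_final4 S hp5 hq hM hMz hwi E ?_ ⟨ε, by rcases hε with h | h <;> rw [h] <;> ring, hk⟩
  refine ⟨w ^ 4, ?_⟩
  rw [hE]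
  have h3 : w * τ = c + p * w ^ 2 := by rw [hw] at hw1; linear_combination hw1
  linear_combination (w * τ + c + p * w ^ 2) * h3 + hcO

/-- the case of two conjugate isogenies `r m₁ + s m₂`, `r m₁' + s m₂'` -/
theorem sum_form4c [IsAlgClosed k] (hp5 : 5 ≤ p) (hq : S.q = (p : O))
    {z z' : O} {M : ℤ} (hM : ¬ (p : ℤ) ∣ M) (hMz : (M : O) * (z * (1 - z)) = 64)
    (hz : S.red z ≠ 0) (hz1 : S.red (1 - z) ≠ 0) (hz' : S.red z' = S.red z ^ p)
    (ha0 : S.red (qa z) ≠ 0) (hb0 : S.red (qb z) ≠ 0) {m1 m2 m1' m2' : O} {l1 l2 : ℕ}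
    (hm1 : m1 ≠ 0) (hm2 : m2 ≠ 0) (hm1' : m1' ≠ 0) (hm2' : m2' ≠ 0)
    (d1 : Dat S (cub (qa z) (qb z)) (qa z') (qb z') m1 l1)
    (d2 : Dat S (cub (qa z) (qb z)) (qa z') (qb z') m2 l2)
    (d1' : Dat S (cub (qa z) (qb z)) (qa z') (qb z') m1' l1)
    (d2' : Dat S (cub (qa z) (qb z)) (qa z') (qb z') m2' l2)
    (r s t0 : ℤ) (hform : (p : ℤ) = r ^ 2 * l1 + r * s * t0 + s ^ 2 * l2)
    (hl1 : ¬ (p : ℤ) ∣ l1) (hl2 : ¬ (p : ℤ) ∣ l2) (ht0 : t0 ^ 2 ≤ 4 * l1 * l2)
    (hbig : 16 * (l1 * l2) < p ^ 2) {c E : ℤ} (hc : c ^ 2 = 1)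
    (hprod : ((r : O) * m1 + (s : O) * m2) * ((r : O) * m1' + (s : O) * m2') = c * p)
    (hE : (E : O) = ((r : O) * m1 + (s : O) * m2 + ((r : O) * m1' + (s : O) * m2')) ^ 2 - 2 * c * p)
    {wi : R p} (hwi : (M : R p) * wi = 1) :
    ∑ k ∈ range p, (k.centralBinom : R p) * ((u4 k : ℕ) : R p) * wi ^ k = (E : R p) := by
  have h0 : S.red ((r : O) * m1 + (s : O) * m2) * S.red ((r : O) * m1' + (s : O) * m2') = 0 := by
    rw [← map_mul, hprod, map_mul, ← hq, S.red_q, mul_zero]
  rcases mul_eq_zero.mp h0 with h | h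
  · exact sum_form4 S hp5 hq hM hMz hz hz1 hz' ha0 hb0 hm1 hm2 d1 d2 r s t0 hform hl1 hl2 ht0 hbig
      (al := (r : O) * m1 + (s : O) * m2)
      (τ := (r : O) * m1 + (s : O) * m2 + ((r : O) * m1' + (s : O) * m2')) rfl h hc
      (by rw [← hprod]; ring) hE hwi
  · exact sum_form4 S hp5 hq hM hMz hz hz1 hz' ha0 hb0 hm1' hm2' d1' d2' r s t0 hform hl1 hl2 ht0 hbig
      (al := (r : O) * m1' + (s : O) * m2')
      (τ := (r : O) * m1 + (s : O) * m2 + ((r : O) * m1' + (s : O) * m2')) rfl h hc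
      (by rw [← hprod]; ring) hE hwi

end sums

section rev

open Polynomial

/-- the equation in the parameter at infinity -/
theorem rev_ode {R : Type*} [CommRing R] {n : ℕ} (hn : 1 ≤ n) {z z' w : R} {N D M : R[X]}
    (hN : N.natDegree ≤ n) (hD : D.natDegree ≤ n) (hM : M.natDegree ≤ 2 * n - 2)
    (ode : gv z * M ^ 2 = C w ^ 2 * tv z' N D) :
    X * gu z * reflect (2 * n - 2) M ^ 2 = C w ^ 2 * (reflect n D * reflect n N *
      (reflect n N ^ 2 - 4 * reflect n N * reflect n D + C (4 * z') * reflect n D ^ 2)) := by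
  have hgd : (gv z).natDegree ≤ 4 := by
    unfold gv
    have h1 : (X ^ 3 - 4 * X ^ 2 + C (4 * z) * X : R[X]).natDegree ≤ 3 := by compute_degree
    omega
  have hM2 : (M ^ 2).natDegree ≤ (2 * n - 2) + (2 * n - 2) := by
    rw [pow_two]
    exact natDegree_mul_le.trans (by omega)
  have l1 := reflect_mul (gv z) (M ^ 2) hgd hM2
  have l2 := reflect_mul M M hM hM
  rw [← pow_two] at l2
  rw [l2, gv_reflect] at l1
  have r1 := reflect_mul N N hN hN
  have d1 : (N * N).natDegree ≤ n + n := natDegree_mul_le.trans (by omega)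
  have r2 := reflect_mul (N * N) N d1 hN
  have r3 := reflect_mul (N * N) D d1 hD
  have r4 := reflect_mul N D hN hD
  have d2 : (N * D).natDegree ≤ n + n := natDegree_mul_le.trans (by omega)
  have r5 := reflect_mul (N * D) D d2 hD
  have d3 : (N * N * N - C 4 * (N * N * D) + C (4 * z') * (N * D * D)).natDegree ≤ n + n + n := by
    have a1 : (N * N * N).natDegree ≤ n + n + n := natDegree_mul_le.trans (by omega)
    have a2 : (N * N * D).natDegree ≤ n + n + n := natDegree_mul_le.trans (by omega)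
    have a3 : (N * D * D).natDegree ≤ n + n + n := natDegree_mul_le.trans (by omega)
    refine (natDegree_add_le _ _).trans (max_le ((natDegree_sub_le _ _).trans (max_le a1 ?_)) ?_)
    · exact (natDegree_C_mul_le _ _).trans a2
    · exact (natDegree_C_mul_le _ _).trans a3
  have r6 := reflect_mul D _ hD d3
  have r7 : reflect (n + n + n) (N * N * N - C 4 * (N * N * D) + C (4 * z') * (N * D * D)) =
      reflect (n + n + n) (N * N * N) - C 4 * reflect (n + n + n) (N * N * D) +
        C (4 * z') * reflect (n + n + n) (N * D * D) := by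
    rw [← reflect_C_mul, ← reflect_C_mul]
    ext i; simp [coeff_reflect]
  rw [r7, r2, r3, r5, r1, r4] at r6
  have hw2 : (C w ^ 2 : R[X]) = C (w ^ 2) := by rw [C_pow]
  have e1 : gv z * M ^ 2 = C (w ^ 2) * (D * (N * N * N - C 4 * (N * N * D) + C (4 * z') * (N * D * D))) := by
    rw [ode, hw2]
    unfold tv
    have : (C 4 : R[X]) = 4 := map_ofNat C 4
    rw [this]; ring
  rw [e1, reflect_C_mul, show 4 + (2 * n - 2 + (2 * n - 2)) = n + (n + n + n) by omega, r6] at l1
  rw [hw2]
  have : (C 4 : R[X]) = 4 := map_ofNat C 4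
  rw [this] at l1
  unfold gu
  linear_combination -l1

/-- the degree of the denominator of a separable isogeny -/
theorem deg_den {F : Type*} [Field F] {a b a' b' m : F} {n d : F[X]} (hd : d ≠ 0) (h : d.natDegree < n.natDegree)
    (hm : m ≠ 0) (ode : cub a b * wr n d ^ 2 = C m ^ 2 * tgt a' b' n d) : d.natDegree + 1 = n.natDegree := by
  have hn : n ≠ 0 := by rintro rfl; simp at h
  have hcd : (cub a b).natDegree = 3 := by unfold cub; compute_degree!
  have hq : (n ^ 3 + C a' * n * d ^ 2 + C b' * d ^ 3).natDegree = 3 * n.natDegree := by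
    rw [add_assoc, natDegree_add_eq_left_of_natDegree_lt, natDegree_pow]
    rw [natDegree_pow]
    refine lt_of_le_of_lt (natDegree_add_le _ _) (max_lt ?_ ?_)
    · refine lt_of_le_of_lt natDegree_mul_le ?_
      rw [natDegree_pow]
      have := natDegree_C_mul_le a' n
      omega
    · refine lt_of_le_of_lt (natDegree_C_mul_le _ _) ?_
      rw [natDegree_pow]
      omega
  have hq0 : (n ^ 3 + C a' * n * d ^ 2 + C b' * d ^ 3) ≠ 0 := by
    intro h0
    rw [h0, natDegree_zero] at hq
    omega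
  have ht : (tgt a' b' n d).natDegree = d.natDegree + 3 * n.natDegree := by
    unfold tgt
    rw [natDegree_mul hd hq0, hq]
  have ht0 : tgt a' b' n d ≠ 0 := by unfold tgt; exact mul_ne_zero hd hq0
  have hw0 : wr n d ≠ 0 := by
    intro h0
    rw [h0, zero_pow two_ne_zero, mul_zero] at ode
    exact mul_ne_zero (pow_ne_zero 2 (C_ne_zero.mpr hm)) ht0 ode.symm
  have e := congrArg natDegree ode
  rw [natDegree_mul (cub_ne a b) (pow_ne_zero 2 hw0), hcd, natDegree_pow, ← C_pow,
    natDegree_C_mul (pow_ne_zero 2 hm), ht] at e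
  have hwd : (wr n d).natDegree + 1 ≤ n.natDegree + d.natDegree := by
    by_cases hd0 : d.natDegree = 0
    · obtain ⟨c, hc⟩ := natDegree_eq_zero.mp hd0
      have : wr n d = derivative n * d := by rw [wr, ← hc, derivative_C]; ring
      rw [this]
      have h1 := natDegree_mul_le (p := derivative n) (q := d)
      have h2 := natDegree_derivative_lt (p := n) (by omega)
      omega
    · unfold wr
      have h1 := natDegree_mul_le (p := derivative n) (q := d)
      have h2 := natDegree_mul_le (p := n) (q := derivative d)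
      have h3 := natDegree_derivative_lt (p := n) (by omega)
      have h4 := natDegree_derivative_lt (p := d) hd0
      have h5 := natDegree_sub_le (derivative n * d) (n * derivative d)
      omega
  omega

end rev

section ss

open Polynomial

variable {O K k : Type*} [CommRing O] [IsDomain O] [Field K] [Algebra O K] [Field k]
  (S : DV O K k) [CharP k p]

/-- the Hasse relation from an isogeny -/
theorem ssq (hp5 : 5 ≤ p) {z z' m : O} (hm : S.red m ≠ 0) {l : ℕ}
    (dat : Dat S (cub (qa z) (qb z)) (qa z') (qb z') m l) :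
    S.red m * lg (p / 4) (S.red z) = S.red m ^ p * lg (p / 4) (S.red z') := by
  obtain ⟨n, d, ode, hd, hdeg, hnl, copK, copk, hl⟩ := dat
  have h3 : (3 : k) ≠ 0 := by
    have := small_ne (k := k) (p := p) (n := 3) (by norm_num) (by omega)
    exact_mod_cast this
  have h9 : (9 : k) ≠ 0 := by
    have : (9 : k) = 3 * 3 := by norm_num
    rw [this]; exact mul_ne_zero h3 h3
  -- reduce
  have odek := congrArg (Polynomial.map S.red) ode
  rw [Polynomial.map_mul, Polynomial.map_pow, Polynomial.map_mul, Polynomial.map_pow, cub_map, wr_map,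
    tgt_map, qa_map, qb_map, qa_map, qb_map, map_C] at odek
  set nk := n.map S.red with hnk
  set dk := d.map S.red with hdk
  set ζ := S.red z with hζ
  set ζ' := S.red z' with hζ'
  set μ := S.red m with hμ
  have hl0 : 0 < l := by omega
  have hdk0 : dk ≠ 0 := by
    intro h0
    rw [h0, isCoprime_zero_right] at copk
    have := natDegree_eq_zero_of_isUnit copk
    omega
  have hdkd : dk.natDegree < nk.natDegree := by
    rw [hl]
    exact lt_of_le_of_lt natDegree_map_le hdeg
  have hdd := deg_den hdk0 hdkd hm odek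
  rw [hl, hnl] at hdd
  -- the V-model
  set L : k[X] := 9 * X - 12 with hL
  have hLd : L.natDegree = 1 := by
    rw [hL]
    have : (9 * X - 12 : k[X]) = C 9 * X + C (-12) := by simp only [map_neg, map_ofNat]; ring
    rw [this]
    exact natDegree_linear h9
  have h9u : C (9 : k)⁻¹ * 9 = (1 : k[X]) := by
    have : (9 : k[X]) = C 9 := (map_ofNat C 9).symm
    rw [this, ← C_mul, inv_mul_cancel₀ h9, C_1]
  set D := dk.comp L with hD
  set N := C (9 : k)⁻¹ * (nk.comp L + 12 * D) with hN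
  have hDd : D.natDegree = l - 1 := by
    rw [hD, natDegree_comp, hLd, mul_one]; omega
  have hD0 : D ≠ 0 := by
    intro h0
    have : dk.comp L = 0 := h0
    rw [comp_eq_zero_iff] at this
    rcases this with h | h
    · exact hdk0 h
    · have h2 := congrArg natDegree h.2
      rw [hLd, natDegree_C] at h2
      exact one_ne_zero h2
  have hNd : N.natDegree = l := by
    rw [hN, natDegree_C_mul (inv_ne_zero h9), natDegree_add_eq_left_of_natDegree_lt, natDegree_comp, hLd, mul_one, hl, hnl]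
    rw [natDegree_comp, hLd, mul_one, hl, hnl]
    have : (12 : k[X]) * D = C 12 * D := by rw [map_ofNat]
    rw [this]
    have := natDegree_C_mul_le (12 : k) D
    omega
  have hN9 : 9 * N - 12 * D = nk.comp L := by
    rw [hN]; linear_combination (nk.comp L + 12 * D) * h9u
  have hwN : wr N D = (wr nk dk).comp L := by
    have e1 : wr N D = C (9 : k)⁻¹ * wr (nk.comp L) D := by
      rw [hN]
      simp only [wr, derivative_mul, derivative_C, derivative_add, derivative_ofNat]; ring
    rw [e1, hD, hL, wr_compv]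
    linear_combination ((wr nk dk).comp (9 * X - 12)) * h9u
  have odeV : gv ζ * wr N D ^ 2 = C μ ^ 2 * tv ζ' N D := by
    have hcomp := congrArg (fun P => P.comp L) odek
    simp only [mul_comp, pow_comp, C_comp] at hcomp
    rw [hL, cub_compv, ← hL, ← hwN] at hcomp
    have ht : (tgt (qa ζ') (qb ζ') nk dk).comp L = 729 * tv ζ' N D := by
      rw [← tgt_tv, hN9, hD]
      simp only [tgt, mul_comp, add_comp, pow_comp, C_comp]
    rw [ht] at hcomp
    have h729 : (C (9 : k)⁻¹ ^ 3 * 729 : k[X]) = 1 := by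
      linear_combination (C (9 : k)⁻¹ ^ 2 * 81 + C (9 : k)⁻¹ * 9 + 1) * h9u
    linear_combination C (9 : k)⁻¹ ^ 3 * hcomp - (gv ζ * wr N D ^ 2 - C μ ^ 2 * tv ζ' N D) * h729
  -- reverse
  have hwd : (wr N D).natDegree ≤ 2 * l - 2 := by
    rw [wr]
    refine (natDegree_sub_le _ _).trans (max_le ?_ ?_)
    · refine natDegree_mul_le.trans ?_
      have := natDegree_derivative_le N
      omega
    · have := natDegree_derivative_le D
      by_cases h1 : l = 1
      · have h2 : D.natDegree = 0 := by omega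
        obtain ⟨c, hc⟩ := natDegree_eq_zero.mp h2
        rw [← hc, derivative_C, mul_zero, natDegree_zero]
        exact Nat.zero_le _
      · refine natDegree_mul_le.trans ?_
        omega
  have odeU := rev_ode hl0 (hNd.le) (by omega) hwd odeV
  have hwrU := wr_reflect (N := N) (D := D) (M := wr N D) (q := (1 : k)) hl0 hNd.le (by omega) hwd
    (by rw [C_1, one_mul])
  rw [C_1, one_mul] at hwrU
  rw [← hwrU] at odeU
  have key := hasse4 (k := k) (p := p) (by omega) (z := ζ) (z' := ζ') (m := μ) (N := reflect l D) (D := reflect l N)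
    ?_ ?_ ?_ hm ?_
  · obtain ⟨χ, hχ, hlg⟩ := h4_lg (k := k) (p := p) (by omega)
    rw [hlg, hlg] at key
    have hχ2 : (χ : k) * χ = 1 := by rcases hχ with h | h <;> rw [h] <;> simp
    linear_combination (χ : k) * key - (μ * lg (p / 4) ζ - μ ^ p * lg (p / 4) ζ') * hχ2
  · rw [coeff_reflect, revAt_le (Nat.zero_le _), Nat.sub_zero]
    exact coeff_eq_zero_of_natDegree_lt (by omega)
  · rw [coeff_reflect, revAt_le (by omega), ← hDd]
    exact leadingCoeff_ne_zero.mpr hD0
  · rw [coeff_reflect, revAt_le (Nat.zero_le _), Nat.sub_zero]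
    have hN0 : N ≠ 0 := by intro h0; rw [h0, natDegree_zero] at hNd; omega
    have : N.coeff l = N.leadingCoeff := by rw [leadingCoeff, hNd]
    rw [this]
    exact leadingCoeff_ne_zero.mpr hN0
  · rw [odeU]

end ss

end Pool.Agent.H546
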