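import Pool.Agent.H546.K2d
import Pool.Agent.H546.QFin

set_option autoImplicit false

/-!
# The coefficient of the square root series modulo `p²`, from two isogenies
-/

namespace Pool.Agent.H546

open PowerSeries

section charp

variable {k : Type*} [Field k] {p : ℕ} [hp : Fact p.Prime] [CharP k p]

/-- in characteristic `p` the coefficient is the Hasse coefficient -/
theorem sqrt_h4 (hp2 : p ≠ 2) {z : k} {c : k⟦X⟧} (hc2 : c ^ 2 * (1 - 4 * X ^ 2 + C (4 * z) * X ^ 4) = 1)
    (hc0 : constantCoeff c = 1) : coeff (p - 1) c = h4 p z := by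
  obtain ⟨e, he⟩ := hp.out.odd_of_ne_two hp2
  have e1 : (p - 1) / 2 = e := by omega
  set F : k⟦X⟧ := 1 - 4 * X ^ 2 + C (4 * z) * X ^ 4 with hF
  have h1 : c ^ p * F ^ e = c := by
    rw [he, pow_succ, pow_mul]
    calc (c ^ 2) ^ e * c * F ^ e = (c ^ 2 * F) ^ e * c := by rw [mul_pow]; ring
      _ = c := by rw [hc2, one_pow, one_mul]
  have h2 : coeff (p - 1) c = coeff (p - 1) (F ^ e) := by
    conv_lhs => rw [← h1]
    rw [pow_low _ _ hc0, one_pow, one_mul]
  have h3 : F = ((((gu z).comp (Polynomial.X ^ 2) : Polynomial k)) : k⟦X⟧) := by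
    have : (gu z).comp (Polynomial.X ^ 2) = 1 - 4 * Polynomial.X ^ 2 + Polynomial.C (4 * z) * Polynomial.X ^ 4 := by
      simp only [gu, Polynomial.add_comp, Polynomial.sub_comp, Polynomial.mul_comp, Polynomial.one_comp,
        Polynomial.ofNat_comp, Polynomial.X_comp, Polynomial.C_comp, Polynomial.pow_comp]
      ring
    rw [this, hF]
    have h4 : ((4 : Polynomial k) : k⟦X⟧) = 4 := by
      have : (4 : Polynomial k) = Polynomial.C 4 := (map_ofNat _ 4).symm
      rw [this, Polynomial.coe_C, map_ofNat]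
    simp only [Polynomial.coe_add, Polynomial.coe_sub, Polynomial.coe_mul, Polynomial.coe_one, Polynomial.coe_C,
      Polynomial.coe_pow, Polynomial.coe_X, h4]
  rw [h2, h3, ← Polynomial.coe_pow, Polynomial.coeff_coe]
  unfold h4
  rw [e1, mul_pow, ← Polynomial.pow_comp, ← Polynomial.expand_eq_comp_X_pow,
    show p - 1 = e * 2 by omega, Polynomial.coeff_expand_mul (by norm_num), Polynomial.coeff_X_pow_mul',
    if_pos (by omega)]
  congr 1; omega

theorem lg_34 (hp2 : p ≠ 2) (z : k) : (lg (3 * p / 4) z : k) = lg (p / 4) z := by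
  rw [← lg_ext (p / 4) p (by have := hp.out.pos; omega), ← lg_ext (3 * p / 4) p (by have := hp.out.pos; omega)]
  refine Finset.sum_congr rfl fun x hx => ?_
  obtain ⟨-, h2⟩ := u4_leg p hp2 x (Finset.mem_range.mp hx)
  congr 1
  have h4 : (((Pool.Agent.Q267.Seven.dl (3 * p / 4) x - Pool.Agent.Q267.Seven.dl (p / 4) x) * p : ℤ) : ZMod (p ^ 2)) = 0 := by
    push_cast
    linear_combination -h2
  rw [ZMod.intCast_zmod_eq_zero_iff_dvd] at h4
  obtain ⟨c, hc⟩ := h4
  have hp0 : (p : ℤ) ≠ 0 := by exact_mod_cast hp.out.ne_zero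
  have h5 : Pool.Agent.Q267.Seven.dl (3 * p / 4) x - Pool.Agent.Q267.Seven.dl (p / 4) x = p * c := by
    apply mul_right_cancel₀ hp0
    rw [hc]; push_cast; ring
  have h6 := congrArg (Int.cast : ℤ → k) h5
  push_cast at h6
  rw [CharP.cast_eq_zero k p, zero_mul] at h6
  exact sub_eq_zero.mp h6

end charp

variable {O K k : Type*} [CommRing O] [IsDomain O] [Field K] [Algebra O K] [Field k]
  (S : DV O K k)

/-- the sign: in characteristic `p` the second coordinate is `ε` times the Frobenius -/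
theorem v_sign {p : ℕ} [hp : Fact p.Prime] [CharP k p] (hp2 : p ≠ 2) {z z' w : O} (hz' : S.red z' = S.red z ^ p)
    {N D M : Polynomial O} (hN : N.map S.red = Polynomial.X ^ p) (hD : D.map S.red = 1)
    (ode : gv z * M ^ 2 = Polynomial.C w ^ 2 * tv z' N D) :
    ∃ ε : O, (ε = 1 ∨ ε = -1) ∧
      M.map S.red = Polynomial.C (S.red (ε * w)) * gv (S.red z) ^ ((p - 1) / 2) := by
  obtain ⟨e, he⟩ := hp.out.odd_of_ne_two hp2
  have e1 : (p - 1) / 2 = e := by omega
  have h1 := congrArg (Polynomial.map S.red) ode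
  have fr : ∀ m : ℕ, (m : Polynomial k) ^ p = m := by
    intro m
    have h := frobenius_def (R := Polynomial k) p m
    rw [← h, map_natCast]
  have h4p : (4 : Polynomial k) ^ p = 4 := by exact_mod_cast fr 4
  have e2 : (tv z' N D).map S.red = gv (S.red z) ^ p := by
    have h4 : (4 : k) ^ p = 4 := by
      have h := frobenius_def (R := k) p 4
      rw [← h, map_ofNat]
    have hg : gv (S.red z) ^ p = (Polynomial.X ^ p) ^ 3 - 4 * (Polynomial.X ^ p) ^ 2 + Polynomial.C (4 * S.red z') * Polynomial.X ^ p := by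
      unfold gv
      rw [add_pow_char, sub_pow_char, mul_pow, h4p, mul_pow, ← Polynomial.C_pow, mul_pow, ← hz', h4, ← pow_mul,
        ← pow_mul, ← pow_mul, ← pow_mul, mul_comm p 3, mul_comm p 2]
    rw [hg]
    unfold tv
    simp only [Polynomial.map_mul, Polynomial.map_add, Polynomial.map_sub, Polynomial.map_pow, hN, hD, Polynomial.map_C,
      Polynomial.map_ofNat, map_mul, map_ofNat]
    ring
  have e3 : (gv z).map S.red = gv (S.red z) := by
    simp [gv, map_ofNat]
  rw [Polynomial.map_mul, Polynomial.map_mul, Polynomial.map_pow, Polynomial.map_pow, Polynomial.map_C, e2, e3] at h1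
  have hg0 : gv (S.red z) ≠ 0 := by
    intro h0
    have := congrArg (fun Q => Q.coeff 3) h0
    simp [gv, Polynomial.coeff_X] at this
  have h2 : (M.map S.red) ^ 2 = (Polynomial.C (S.red w) * gv (S.red z) ^ e) ^ 2 := by
    apply mul_left_cancel₀ hg0
    rw [h1, he]; ring
  rw [e1]
  rcases sq_eq_sq_iff_eq_or_eq_neg.mp h2 with h | h
  · exact ⟨1, Or.inl rfl, by rw [one_mul, h]⟩
  · exact ⟨-1, Or.inr rfl, by rw [h, map_mul, map_neg, map_one, Polynomial.C_mul, Polynomial.C_neg, Polynomial.C_1]; ring⟩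


/-- **The coefficient of the square root series and the canonical lift, with sign.** -/
theorem key2v {p : ℕ} [hp : Fact p.Prime] [CharP k p] (hp2 : p ≠ 2) (hq : S.q = (p : O))
    {z z' w : O} (hz : S.red z ≠ 0) (hz' : S.red z' = S.red z ^ p) (hw : S.red w ≠ 0)
    {N D M : Polynomial O} (hN : N.map S.red = Polynomial.X ^ p) (hD : D.map S.red = 1)
    (hNd : N.natDegree ≤ p) (hDd : D.natDegree < p) (hwr : wr N D = Polynomial.C S.q * M)
    (ode : gv z * M ^ 2 = Polynomial.C w ^ 2 * tv z' N D)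
    {c : O⟦X⟧} (hc2 : c ^ 2 * (1 - 4 * X ^ 2 + C (4 * z) * X ^ 4) = 1) (hc0 : constantCoeff c = 1) :
    ∃ ε : O, (ε = 1 ∨ ε = -1) ∧
      M.map S.red = Polynomial.C (S.red (ε * w)) * gv (S.red z) ^ ((p - 1) / 2) ∧
      S.q ^ 2 ∣ 16 * (ε * w * coeff (p - 1) c) * z' - 12 * z' - (4 * z) ^ p := by
  obtain ⟨e, he⟩ := hp.out.odd_of_ne_two hp2
  have e1 : (p - 1) / 2 = e := by omega
  have hz'0 : S.red z' ≠ 0 := by rw [hz']; exact pow_ne_zero _ hz
  obtain ⟨u1, u2, u3, u4, u5, u6, u7⟩ := to_uv' S hp2 hz'0 hw hN hD hNd hDd hwr ode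
  obtain ⟨ε, hε, hsg, hk⟩ := key2 S hp2 hq hw u1 u2 u5 u6 u7 hc2 hc0
  refine ⟨ε, hε, ?_, ?_⟩
  · obtain ⟨ε', hε', hs'⟩ := v_sign S hp2 hz' hN hD ode
    have h1 := congrArg (fun P => P.coeff (3 * e)) hs'
    simp only [Polynomial.coeff_map, Polynomial.coeff_C_mul] at h1
    have hm : (gv (S.red z)).Monic := by
      unfold gv
      have : (Polynomial.X ^ 3 - 4 * Polynomial.X ^ 2 + Polynomial.C (4 * S.red z) * Polynomial.X : Polynomial k).natDegree = 3 := by
        compute_degree!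
      unfold Polynomial.Monic
      rw [Polynomial.leadingCoeff, this]
      simp
    have hd : (gv (S.red z)).natDegree = 3 := by
      unfold gv
      compute_degree!
    have h2 : (gv (S.red z) ^ ((p - 1) / 2)).coeff (3 * e) = 1 := by
      have h3 := (hm.pow e)
      have h4 : (gv (S.red z) ^ e).natDegree = 3 * e := by rw [hm.natDegree_pow, hd]; ring
      unfold Polynomial.Monic at h3
      rw [Polynomial.leadingCoeff, h4] at h3
      rw [e1, h3]
    rw [h2, mul_one] at h1
    rw [e1, Polynomial.coeff_reflect, Polynomial.revAt_le (by omega), show 2 * p - 2 - e = 3 * e by omega, h1] at hsg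
    rw [hs', hsg]
  · have hl := lead_sq S hp2 hq hz hz'0 hw hN hD hNd hDd hwr ode
    have a1 : (Polynomial.reflect p D).coeff p = D.coeff 0 := by
      rw [Polynomial.coeff_reflect, Polynomial.revAt_le le_rfl, Nat.sub_self]
    have a2 : (Polynomial.reflect p N).coeff 0 = N.coeff p := by
      rw [Polynomial.coeff_reflect, Polynomial.revAt_le (Nat.zero_le _), Nat.sub_zero]
    rw [a1, a2] at hk
    have b1 : S.red (D.coeff 0 - 1) = 0 := by
      rw [map_sub, ← Polynomial.coeff_map, hD, Polynomial.coeff_one_zero, map_one, sub_self]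
    have b2 : S.red (N.coeff p - 1) = 0 := by
      rw [map_sub, ← Polynomial.coeff_map, hN, Polynomial.coeff_X_pow, if_pos rfl, map_one, sub_self]
    obtain ⟨d, hd⟩ := (S.red_iff _).mp b1
    obtain ⟨n, hn⟩ := (S.red_iff _).mp b2
    have h4p : S.red ((4 * z) ^ p - 4 * z') = 0 := by
      have h4 : (4 : k) ^ p = 4 := by
        have h := frobenius_def (R := k) p 4
        rw [← h, map_ofNat]
      rw [map_sub, map_pow, map_mul, map_mul, map_ofNat, hz', mul_pow, h4, sub_self]
    obtain ⟨f, hf⟩ := (S.red_iff _).mp h4p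
    obtain ⟨g, hg⟩ := hl
    obtain ⟨h, hh⟩ := hk
    have hd' : D.coeff 0 = 1 + S.q * d := by linear_combination hd
    have hn' : N.coeff p = 1 + S.q * n := by linear_combination hn
    have hf' : (4 * z) ^ p = 4 * z' + S.q * f := by linear_combination hf
    rw [hd', hn', hf'] at hg
    rw [hd', hn'] at hh
    rw [hf']
    refine ⟨8 * z' * h + g - 4 * z' * d ^ 2 + 4 * z' * n ^ 2 + 2 * n * f + S.q * n ^ 2 * f, ?_⟩
    linear_combination 8 * z' * hh + hg

/-- the V-model of the isogeny of degree `p` from two isogenies -/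
theorem lift4_data {p : ℕ} [hp : Fact p.Prime] [CharP k p] [IsAlgClosed k] (hp5 : 5 ≤ p) (hq : S.q = (p : O))
    {z z' : O} (hz : S.red z ≠ 0) (hz1 : S.red (1 - z) ≠ 0) (hz' : S.red z' = S.red z ^ p)
    (ha0 : S.red (qa z) ≠ 0) (hb0 : S.red (qb z) ≠ 0) {m1 m2 : O} {l1 l2 : ℕ}
    (hm1 : m1 ≠ 0) (hm2 : m2 ≠ 0)
    (d1 : Dat S (cub (qa z) (qb z)) (qa z') (qb z') m1 l1)
    (d2 : Dat S (cub (qa z) (qb z)) (qa z') (qb z') m2 l2)
    (r s t0 : ℤ) (hform : (p : ℤ) = r ^ 2 * l1 + r * s * t0 + s ^ 2 * l2)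
    (hr : ¬ (p : ℤ) ∣ r) (hs : ¬ (p : ℤ) ∣ s) (ht0 : t0 ^ 2 ≤ 4 * l1 * l2)
    (hbig : 16 * (l1 * l2) < p ^ 2) {w : O} (hc : (r : O) * m1 + (s : O) * m2 = p * w)
    (hw : S.red w ≠ 0) :
    ∃ N D M : Polynomial O, N.map S.red = Polynomial.X ^ p ∧ D.map S.red = 1 ∧ N.natDegree ≤ p ∧ D.natDegree < p ∧
      wr N D = Polynomial.C S.q * M ∧ gv z * M ^ 2 = Polynomial.C w ^ 2 * tv z' N D := by
  classical
  have h2 : (2 : k) ≠ 0 := by
    have := small_ne (k := k) (p := p) (n := 2) (by norm_num) (by omega)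
    exact_mod_cast this
  have h3 : (3 : k) ≠ 0 := by
    have := small_ne (k := k) (p := p) (n := 3) (by norm_num) (by omega)
    exact_mod_cast this
  have frob : ∀ x : k, x ^ p = frobenius k p x := fun x => rfl
  have haa : S.red (qa z') = S.red (qa z) ^ p := by
    rw [qa_map, qa_map, hz', frob, frob]
    simp only [qa, map_sub, map_mul, map_ofNat]
  have hbb : S.red (qb z') = S.red (qb z) ^ p := by
    rw [qb_map, qb_map, hz', frob, frob]
    simp only [qb, map_sub, map_mul, map_ofNat]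
  have hΔ1 : S.red (4 * qa z ^ 3 + 27 * qb z ^ 2) ≠ 0 := by
    rw [discq]
    have : (-136048896 * (z ^ 2 * (1 - z)) : O) = -((2 ^ 8 * 3 ^ 12) * z ^ 2 * (1 - z)) := by ring
    rw [this, map_neg]
    refine neg_ne_zero.mpr ?_
    rw [map_mul, map_mul, map_mul, map_pow, map_pow, map_pow, map_ofNat, map_ofNat]
    exact mul_ne_zero (mul_ne_zero (mul_ne_zero (pow_ne_zero _ h2) (pow_ne_zero _ h3))
      (pow_ne_zero _ hz)) hz1
  have hΔ2 : S.red (4 * qa z' ^ 3 + 27 * qb z' ^ 2) ≠ 0 := by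
    have e : S.red (4 * qa z' ^ 3 + 27 * qb z' ^ 2) =
        S.red (4 * qa z ^ 3 + 27 * qb z ^ 2) ^ p := by
      rw [map_add, map_mul, map_mul, map_pow, map_pow, haa, hbb, frob, frob, frob, map_add, map_mul,
        map_mul, map_pow, map_pow]
      simp only [map_add, map_mul, map_pow, map_ofNat]
    rw [e]
    exact pow_ne_zero _ hΔ1
  have hf0 := cub_ne (qa z) (qb z)
  have hlead : S.red (cub (qa z) (qb z)).leadingCoeff ≠ 0 := by
    have : (cub (qa z) (qb z)).leadingCoeff = 1 := by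
      have hd : (cub (qa z) (qb z)).natDegree = 3 := by
        unfold cub; compute_degree!
      rw [Polynomial.leadingCoeff, hd]
      simp [cub, Polynomial.coeff_X, Polynomial.coeff_C]
    rw [this, map_one]; exact one_ne_zero
  obtain ⟨P1, g1, n1, e1⟩ := d1.point S hf0 h2 hΔ2 hm1
  obtain ⟨P2, g2, n2, e2⟩ := d2.point S hf0 h2 hΔ2 hm2
  have hcr : S.red ((r : O) * m1 + (s : O) * m2) = 0 := by
    rw [hc, ← hq, map_mul, S.red_q, zero_mul]
  obtain ⟨nv, gv', hv⟩ := form_value S (p := p) hlead h2 hΔ2 g1 n1 g2 n2 r s t0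
    (by rw [e1, e2]; exact hform) hr hs (by rw [e1, e2]; exact ht0) (by rw [e1, e2]; exact hbig) hcr
  rw [hc, ← hq] at gv'
  obtain ⟨n, d, M, f1, f2, f3, f4, f5, f6⟩ := frob_struct S (p := p) (by omega) (by omega) haa hbb ha0 hb0 hΔ1
    nv gv' hv hw
  obtain ⟨N, D, M', u1, u2, u3', u4, u5, u6⟩ := to_v S (by omega) f1 f2 f3 f4 f5 f6
  exact ⟨N, D, M', u1, u2, u3', u4, u5, u6⟩

/-- both congruences with the same sign, from the V-model -/
theorem key42v {p : ℕ} [hp : Fact p.Prime] [CharP k p] (hp2 : p ≠ 2) (hq : S.q = (p : O))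
    {z z' w : O} (hz : S.red z ≠ 0) (hz' : S.red z' = S.red z ^ p) (hw : S.red w ≠ 0)
    {N D M : Polynomial O} (hN : N.map S.red = Polynomial.X ^ p) (hD : D.map S.red = 1)
    (hNd : N.natDegree ≤ p) (hDd : D.natDegree < p) (hwr : wr N D = Polynomial.C S.q * M)
    (ode : gv z * M ^ 2 = Polynomial.C w ^ 2 * tv z' N D)
    {c : O⟦X⟧} (hc2 : c ^ 2 * (1 - 4 * X ^ 2 + C (4 * z) * X ^ 4) = 1) (hc0 : constantCoeff c = 1) :
    ∃ ε : O, (ε = 1 ∨ ε = -1) ∧
      M.map S.red = Polynomial.C (S.red (ε * w)) * gv (S.red z) ^ ((p - 1) / 2) ∧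
      (p : O) ^ 2 ∣ ε * w * (3 * coeff (p - 1) (cs4 z) - coeff (3 * p - 1) (cs4 z)) - 4 ∧
      (p : O) ^ 2 ∣ 16 * (ε * w * coeff (p - 1) c) * z' - 12 * z' - (4 * z) ^ p := by
  have hz'0 : S.red z' ≠ 0 := by rw [hz']; exact pow_ne_zero _ hz
  have h2k : (2 : k) ≠ 0 := by
    intro h2
    have : ((2 : ℕ) : k) = 0 := by exact_mod_cast h2
    rw [CharP.cast_eq_zero_iff k p] at this
    exact hp2 ((Nat.prime_dvd_prime_iff_eq hp.out (by norm_num)).mp this)
  have h4k : (4 : k) ≠ 0 := by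
    have : (4 : k) = 2 * 2 := by norm_num
    rw [this]; exact mul_ne_zero h2k h2k
  obtain ⟨v1, v2, v3, v4, v5, v6, v7⟩ := to_uv' S hp2 hz'0 hw hN hD hNd hDd hwr ode
  obtain ⟨ε4, hε4, hk4⟩ := key4 S hp2 hq hz hz' hw v1 v2 v3 v4 v5 v6 v7
  obtain ⟨ε, hε, hsg, hk⟩ := key2v S hp2 hq hz hz' hw hN hD hNd hDd hwr ode hc2 hc0
  have hq0 : ∀ x : O, S.q ^ 2 ∣ x → S.red x = 0 := by
    rintro x ⟨y, rfl⟩
    rw [map_mul, map_pow, S.red_q]; ring
  -- residues
  have r1 := hq0 _ hk
  have hcm : coeff (p - 1) (PowerSeries.map S.red c) = h4 p (S.red z) := by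
    apply sqrt_h4 hp2
    · have := congrArg (PowerSeries.map S.red) hc2
      rw [map_mul, map_pow, map_add, map_sub, map_one, map_mul, map_pow, PowerSeries.map_X, map_ofNat,
        map_mul (PowerSeries.map S.red), map_pow, PowerSeries.map_X, PowerSeries.map_C, map_mul S.red, map_ofNat] at this
      exact this
    · rw [← coeff_zero_eq_constantCoeff_apply, PowerSeries.coeff_map, coeff_zero_eq_constantCoeff_apply, hc0, map_one]
  rw [PowerSeries.coeff_map] at hcm
  have h4p : (4 : k) ^ p = 4 := by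
    have h := frobenius_def (R := k) p 4
    rw [← h, map_ofNat]
  have s1 : S.red ε * S.red w * h4 p (S.red z) = 1 := by
    rw [map_sub, map_sub, map_mul, map_mul, map_mul, map_mul, map_mul S.red 12, map_ofNat, map_ofNat, map_pow, map_mul S.red 4,
      map_ofNat, hcm, mul_pow, h4p, ← hz'] at r1
    have : (16 * S.red z') * (S.red ε * S.red w * h4 p (S.red z)) = (16 * S.red z') * 1 := by
      linear_combination r1
    refine mul_left_cancel₀ (mul_ne_zero ?_ hz'0) this
    have : (16 : k) = 4 * 4 := by norm_num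
    rw [this]; exact mul_ne_zero h4k h4k
  have r2 := hq0 _ hk4
  have cm : ∀ n : ℕ, S.red (coeff n (cs4 z)) = coeff n (cs4 (S.red z)) := by
    intro n
    have e1 : ∀ m : ℕ, S.red (coeff m (ps4 z)) = coeff m (ps4 (S.red z)) := by
      intro m
      rw [ps4_coeff, ps4_coeff]
      split_ifs with h
      · exact lg_cast S.red _ _
      · exact map_zero _
    unfold cs4
    rw [sub_mul, sub_mul, one_mul, one_mul, map_sub, map_sub, map_sub, e1]
    rcases le_or_gt 2 n with h | h
    · obtain ⟨m, rfl⟩ := Nat.exists_eq_add_of_le' h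
      rw [coeff_X_pow_mul, coeff_X_pow_mul, e1]
    · rw [coeff_X_dvd h, coeff_X_dvd h, map_zero]
  have s2 : S.red ε4 * S.red w * h4 p (S.red z) = 1 := by
    have hodd : p % 4 = 1 ∨ p % 4 = 3 := by
      rcases hp.out.eq_two_or_odd with h | h <;> omega
    have hlg : (lg (3 * p / 4) (S.red z) : k) = lg (p / 4) (S.red z) := lg_34 hp2 _
    rw [map_sub, map_mul, map_mul, map_sub, map_mul, map_ofNat, cm, cm, map_ofNat] at r2
    rw [h4_cs hp2]
    rcases hodd with h | h
    · rw [cs4_coeff1 _ p h, cs4_coeff3 _ (3 * p) (by omega), hlg] at r2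
      rw [cs4_coeff1 _ p h]
      apply mul_left_cancel₀ h4k
      linear_combination r2
    · rw [cs4_coeff3 _ p h, cs4_coeff1 _ (3 * p) (by omega), hlg] at r2
      rw [cs4_coeff3 _ p h]
      apply mul_left_cancel₀ h4k
      linear_combination r2
  have heq : ε4 = ε := by
    have h1 : (S.red ε4 - S.red ε) * (S.red w * h4 p (S.red z)) = 0 := by linear_combination s2 - s1
    have h2 : S.red w * h4 p (S.red z) ≠ 0 := by
      intro h0
      rw [mul_assoc, h0, mul_zero] at s1
      exact zero_ne_one s1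
    have h3 := (mul_eq_zero.mp h1).resolve_right h2
    rcases hε4 with rfl | rfl <;> rcases hε with rfl | rfl
    · rfl
    · exfalso; apply h2k; rw [map_neg, map_one] at h3; linear_combination h3
    · exfalso; apply h2k; rw [map_neg, map_one] at h3; linear_combination -h3
    · rfl
  rw [heq, hq] at hk4
  rw [hq] at hk
  exact ⟨ε, hε, hsg, hk4, hk⟩

end Pool.Agent.H546
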