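import Pool.Agent.H546.QCM

set_option autoImplicit false

/-!
# The two types of CM points of the quartic family: the complete statements
-/

namespace Pool.Agent.H546

open Finset
open Pool.Agent.Q267.CDE (R)

variable {O K k : Type*} [CommRing O] [IsDomain O] [Field K] [Algebra O K] [Field k]
  (S : DV O K k) {p : ℕ} [hp : Fact p.Prime] [CharP k p]

theorem qa_ne {z : O} {M : ℤ} (hMz : (M : O) * (z * (1 - z)) = 64) (h : ¬ (p : ℤ) ∣ 46656 * (144 + M)) :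
    S.red (qa z) ≠ 0 := by
  refine S.ne_mul (y := (M : O) * qa (1 - z)) ?_ h
  simp only [qa]; push_cast
  linear_combination 104976 * hMz

theorem qb_ne {z : O} {M : ℤ} (hMz : (M : O) * (z * (1 - z)) = 64) (h : ¬ (p : ℤ) ∣ 1492992 * (648 - M)) :
    S.red (qb z) ≠ 0 := by
  refine S.ne_mul (y := (M : O) * qb (1 - z)) ?_ h
  simp only [qb]; push_cast
  linear_combination 15116544 * hMz

/-- type A -/
theorem typeA [IsAlgClosed k] (hp5 : 5 ≤ p) (hq : S.q = (p : O)) {z τ ρ μ : O} {M n : ℤ} {l : ℕ}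
    (hM : ¬ (p : ℤ) ∣ M) (hMz : (M : O) * (z * (1 - z)) = 64) (hτ : τ ^ 2 = -(n : O)) (hρ : ρ ^ 2 = -2)
    (hμ : 2 * μ = -((1 + τ) * ρ)) (hn : (2 * l : ℤ) = n + 1) (hnodd : n % 2 = 1)
    (d : Dat S (cub (qa z) (qb z)) (qa (1 - z)) (qb (1 - z)) μ l) (hl0 : 0 < l) (hl : ¬ (p : ℤ) ∣ 2 * l)
    {wi : R p} (hwi : (M : R p) * wi = 1) :
    (S.red z = S.red z ^ p → ¬ (p : ℤ) ∣ 46656 * (144 + M) → ¬ (p : ℤ) ∣ 1492992 * (648 - M) →
      32 * l < p ^ 2 → ∀ x y : ℤ, (p : ℤ) = x ^ 2 + n * y ^ 2 →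
      ∑ k ∈ range p, (k.centralBinom : R p) * ((u4 k : ℕ) : R p) * wi ^ k = ((4 * x ^ 2 - 2 * p : ℤ) : R p)) ∧
    (S.red (1 - z) = S.red z ^ p → ¬ (p : ℤ) ∣ 46656 * (144 + M) → ¬ (p : ℤ) ∣ 1492992 * (648 - M) →
      32 * l < p ^ 2 → ∀ x y : ℤ, (2 * p : ℤ) = x ^ 2 + n * y ^ 2 →
      ∑ k ∈ range p, (k.centralBinom : R p) * ((u4 k : ℕ) : R p) * wi ^ k = ((2 * p - 2 * x ^ 2 : ℤ) : R p)) ∧
    (S.red τ ^ p = -S.red τ → ¬ (p : ℤ) ∣ n →
      ∑ k ∈ range p, (k.centralBinom : R p) * ((u4 k : ℕ) : R p) * wi ^ k = 0) := by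
  obtain ⟨hz, hz1⟩ := z_units S (p := p) (by omega) hMz
  have r2 := S.two_ne (p := p) (by omega)
  have r3 := S.three_ne (p := p) (by omega)
  have h2k : (2 : k) ≠ 0 := by rwa [map_ofNat] at r2
  have h3k : (3 : k) ≠ 0 := by rwa [map_ofNat] at r3
  have h2O : (2 : O) ≠ 0 := by intro h0; rw [h0, map_zero] at r2; exact r2 rfl
  have hlO : (n : O) + 1 = 2 * l := by
    have := congrArg (Int.cast : ℤ → O) hn
    push_cast at this; exact this.symm
  have hμρ : μ * ρ = 1 + τ := by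
    apply mul_left_cancel₀ h2O
    linear_combination ρ * hμ - (1 + τ) * hρ
  have dd := Dat.mu S (z := 1 - z) d h2k h3k hz1 hρ
  rw [hμρ, sub_sub_cancel] at dd
  have h1τ : S.red (1 + τ) ≠ 0 := by
    refine S.ne_mul (y := 1 - τ) (n := 2 * l) ?_ hl
    push_cast; linear_combination -hτ + hlO
  have h1τ0 : 1 + τ ≠ 0 := by intro h0; rw [h0, map_zero] at h1τ; exact h1τ rfl
  have hμ0 : μ ≠ 0 := by rintro rfl; rw [zero_mul] at hμρ; exact h1τ0 hμρ.symm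
  have hl' : ¬ (p : ℤ) ∣ l := fun h => hl (h.mul_left 2)
  refine ⟨fun hz' ha hb hbig x y hxy => ?_, fun hz' ha hb hbig x y hxy => ?_, fun hτp hpn => ?_⟩
  · exact qA1 S hp5 hq hM hMz hz' (qa_ne S hMz ha) (qb_ne S hMz hb) hτ (by push_cast; linarith) h1τ0 dd
      (by push_cast; exact hl) (by omega) (by omega) x y hxy hwi
  · exact qA2 S hp5 hq hM hMz hz' (qa_ne S hMz ha) (qb_ne S hMz hb) hτ hρ hμ hn hnodd hμ0 d hl' hl0 hbig
      x y hxy hwi
  · refine qss S hp5 hq hMz h1τ ?_ dd hwi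
    have hτ0 : S.red τ ≠ 0 := by
      refine S.ne_mul (y := -τ) (n := n) ?_ hpn
      linear_combination -hτ
    intro h
    have e1 : S.red (1 + τ) ^ p = 1 + S.red τ ^ p := by
      rw [map_add, map_one, add_pow_char, one_pow]
    rw [e1, hτp, map_add, map_one] at h
    have : (2 : k) * S.red τ = 0 := by linear_combination -h
    exact (mul_ne_zero h2k hτ0) this

/-- type B -/
theorem typeB [IsAlgClosed k] (hp5 : 5 ≤ p) (hq : S.q = (p : O)) {z ρ μ : O} {M : ℤ} {l : ℕ}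
    (hM : ¬ (p : ℤ) ∣ M) (hMz : (M : O) * (z * (1 - z)) = 64) (hρ : ρ ^ 2 = -2)
    (hμ : μ ^ 2 = l)
    (d : Dat S (cub (qa z) (qb z)) (qa (1 - z)) (qb (1 - z)) μ l) (hl : ¬ (p : ℤ) ∣ 2 * l)
    {wi : R p} (hwi : (M : R p) * wi = 1) :
    (S.red z = S.red z ^ p → ¬ (p : ℤ) ∣ 46656 * (144 + M) → ¬ (p : ℤ) ∣ 1492992 * (648 - M) →
      32 * l < p ^ 2 → ∀ x y : ℤ, (p : ℤ) = x ^ 2 + (2 * l) * y ^ 2 →
      ∑ k ∈ range p, (k.centralBinom : R p) * ((u4 k : ℕ) : R p) * wi ^ k = ((4 * x ^ 2 - 2 * p : ℤ) : R p)) ∧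
    (S.red (1 - z) = S.red z ^ p → ¬ (p : ℤ) ∣ 46656 * (144 + M) → ¬ (p : ℤ) ∣ 1492992 * (648 - M) →
      32 * l < p ^ 2 → ∀ x y : ℤ, (p : ℤ) = 2 * x ^ 2 + l * y ^ 2 →
      ∑ k ∈ range p, (k.centralBinom : R p) * ((u4 k : ℕ) : R p) * wi ^ k = ((2 * p - 8 * x ^ 2 : ℤ) : R p)) ∧
    (S.red (μ * ρ) ^ p = -S.red (μ * ρ) →
      ∑ k ∈ range p, (k.centralBinom : R p) * ((u4 k : ℕ) : R p) * wi ^ k = 0) := by
  obtain ⟨hz, hz1⟩ := z_units S (p := p) (by omega) hMz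
  have r2 := S.two_ne (p := p) (by omega)
  have r3 := S.three_ne (p := p) (by omega)
  have h2k : (2 : k) ≠ 0 := by rwa [map_ofNat] at r2
  have h3k : (3 : k) ≠ 0 := by rwa [map_ofNat] at r3
  have dd := Dat.mu S (z := 1 - z) d h2k h3k hz1 hρ
  rw [sub_sub_cancel] at dd
  have hτ : (μ * ρ) ^ 2 = -((2 * l : ℕ) : O) := by
    push_cast
    linear_combination ρ ^ 2 * hμ + (l : O) * hρ
  have hτr : S.red (μ * ρ) ≠ 0 := by
    refine S.ne_mul (y := -(μ * ρ)) (n := 2 * l) ?_ hl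
    push_cast at hτ ⊢; linear_combination -hτ
  have hτ0 : μ * ρ ≠ 0 := by intro h0; rw [h0, map_zero] at hτr; exact hτr rfl
  have hμ0 : μ ≠ 0 := by rintro rfl; rw [zero_mul] at hτ0; exact hτ0 rfl
  have hl' : ¬ (p : ℤ) ∣ l := fun h => hl (h.mul_left 2)
  refine ⟨fun hz' ha hb hbig x y hxy => ?_, fun hz' ha hb hbig x y hxy => ?_, fun hτp => ?_⟩
  · exact qB1 S hp5 hq hM hMz hz' (qa_ne S hMz ha) (qb_ne S hMz hb) hτ hτ0 dd
      (by push_cast; exact hl) (by omega) x y (by push_cast; exact hxy) hwi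
  · exact qB2 S hp5 hq hM hMz hz' (qa_ne S hMz ha) (qb_ne S hMz hb) hρ hμ hμ0 d hl' hbig
      x y hxy hwi
  · refine qss S hp5 hq hMz hτr ?_ dd hwi
    intro h
    rw [hτp] at h
    have : (2 : k) * S.red (μ * ρ) = 0 := by linear_combination -h
    exact (mul_ne_zero h2k hτr) this

/-- Frobenius on the point -/
theorem frob_z (hp2 : p ≠ 2) {z s : O} {N a b d : ℤ} (hN : ¬ (p : ℤ) ∣ N) (h : (N : O) * z = a - b * s)
    (hs : s ^ 2 = (d : O)) (ha : 2 * a = N) :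
    (legendreSym p d = 1 → S.red z = S.red z ^ p) ∧ (legendreSym p d = -1 → S.red (1 - z) = S.red z ^ p) := by
  have hN' : (N : k) ≠ 0 := fun h0 => hN ((CharP.intCast_eq_zero_iff k p N).mp h0)
  have h' : (N : O) * z = a + ((-b : ℤ) : O) * s := by rw [h]; push_cast; ring
  have e := S.frobq hp2 h' hs
  have e0 : (N : k) * S.red z = a - b * S.red s := by
    have := congrArg S.red h
    simpa only [map_mul, map_sub, map_intCast] using this
  have ha' : 2 * (a : k) = N := by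
    have := congrArg (Int.cast : ℤ → k) ha
    push_cast at this; exact this
  constructor
  · intro hl
    rw [hl] at e
    apply mul_left_cancel₀ hN'
    rw [e, e0]; push_cast; ring
  · intro hl
    rw [hl] at e
    apply mul_left_cancel₀ hN'
    rw [e, map_sub, map_one, mul_sub, e0, ← ha']; push_cast; ring

end Pool.Agent.H546
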