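import Pool.Agent.H546.UtilG

set_option autoImplicit false

/-!
# More tools for the linear sums
-/

namespace Pool.Agent.H546

open Finset

theorem hyp_map {A B : Type*} [CommRing A] [CommRing B] (f : A →+* B) (iv : ℕ → A) (N : ℕ) (u v t : A) :
    f (hyp iv N u v t) = hyp (fun n => f (iv n)) N (f u) (f v) (f t) := by
  simp [hyp, pch_map, Jf]

theorem gb_nat (n k : ℕ) : gb (n : ℚ) k = (n.choose k : ℚ) := by
  unfold gb
  rw [div_eq_iff (by exact_mod_cast k.factorial_ne_zero), ← Nat.cast_mul, mul_comm,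
    ← Nat.descFactorial_eq_factorial_mul_choose]
  induction k with
  | zero => simp
  | succ k ih =>
    rw [prod_range_succ, ih, Nat.descFactorial_succ]
    rcases le_or_gt k n with h | h
    · rw [Nat.cast_mul, Nat.cast_sub h]; ring
    · rw [Nat.descFactorial_eq_zero_iff_lt.mpr h]; simp

/-- a rational number given as a fraction -/
theorem cop_of_eq {p : ℕ} {x : ℚ} {n d : ℤ} (h : x = (n : ℚ) / (d : ℚ)) (hd : p.Coprime d.natAbs) :
    p.Coprime x.den := by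
  have h4 : x.den ∣ d.natAbs := by
    have := Rat.den_dvd n d
    rw [Rat.divInt_eq_div, ← h] at this
    exact Int.natCast_dvd.mp this
  exact Nat.Coprime.coprime_dvd_right h4 hd

theorem cop_sub {p : ℕ} {x y : ℚ} (h1 : p.Coprime x.den) (h2 : p.Coprime y.den) : p.Coprime (x - y).den :=
  Nat.Coprime.coprime_dvd_right (Rat.sub_den_dvd _ _) (Nat.Coprime.mul_right h1 h2)

theorem cop_add {p : ℕ} {x y : ℚ} (h1 : p.Coprime x.den) (h2 : p.Coprime y.den) : p.Coprime (x + y).den :=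
  Nat.Coprime.coprime_dvd_right (Rat.add_den_dvd _ _) (Nat.Coprime.mul_right h1 h2)

/-- the character modulo three -/
theorem jac3 (x : ℤ) (h : ¬ (3 : ℤ) ∣ x) :
    (jacobiSym x 3 = 1 ∨ jacobiSym x 3 = -1) ∧ (3 : ℤ) ∣ x - jacobiSym x 3 := by
  have h0 : jacobiSym x 3 = legendreSym 3 x := (jacobiSym.legendreSym.to_jacobiSym 3 x).symm
  rw [h0, legendreSym.mod]
  have hm : x % ((3 : ℕ) : ℤ) = 1 ∨ x % ((3 : ℕ) : ℤ) = 2 := by push_cast; omega
  have e1 : legendreSym 3 1 = 1 := by decide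
  have e2 : legendreSym 3 2 = -1 := by decide
  rcases hm with hm | hm
  · rw [hm, e1]; push_cast at hm; exact ⟨Or.inl rfl, by omega⟩
  · rw [hm, e2]; push_cast at hm; exact ⟨Or.inr rfl, by omega⟩

theorem jac3_p {p : ℕ} [hp : Fact p.Prime] (h3 : p ≠ 3) :
    (p % 3 = 1 ∧ jacobiSym p 3 = 1) ∨ (p % 3 = 2 ∧ jacobiSym p 3 = -1) := by
  have h0 : p % 3 ≠ 0 := by
    intro h0
    have := (Nat.prime_dvd_prime_iff_eq Nat.prime_three hp.out).mp (Nat.dvd_of_mod_eq_zero h0)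
    omega
  have h : jacobiSym p 3 = legendreSym 3 p := (jacobiSym.legendreSym.to_jacobiSym 3 p).symm
  rw [h, legendreSym.mod]
  have hc : ((p : ℤ) % ((3 : ℕ) : ℤ)) = ((p % 3 : ℕ) : ℤ) := by norm_cast
  rw [hc, leg3_aux _ (Nat.mod_lt _ (by norm_num)) h0]
  have : p % 3 = 1 ∨ p % 3 = 2 := by omega
  rcases this with h | h
  · left; rw [if_pos h]; exact ⟨h, rfl⟩
  · right; rw [if_neg (by omega)]; exact ⟨h, rfl⟩

/-- the Legendre symbol of two -/
theorem jac2_p {p : ℕ} [hp : Fact p.Prime] (h2 : p ≠ 2) :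
    jacobiSym 2 p = if p % 8 = 1 ∨ p % 8 = 7 then 1 else -1 := by
  have h : jacobiSym 2 p = legendreSym p 2 := (jacobiSym.legendreSym.to_jacobiSym p 2).symm
  have hodd : p % 2 = 1 := by
    rcases hp.out.eq_two_or_odd with h | h
    · exact absurd h h2
    · exact h
  rw [h, legendreSym.at_two h2, ZMod.χ₈_nat_eq_if_mod_eight, if_neg (by omega)]

theorem jac5_p {p : ℕ} [hp : Fact p.Prime] (h5 : 5 < p) :
    jacobiSym 5 p = if p % 5 = 1 ∨ p % 5 = 4 then 1 else -1 := by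
  rw [← leg5 h5]
  exact (jacobiSym.legendreSym.to_jacobiSym p 5).symm

theorem sq_mod3 (a : ℤ) (h : ¬ (3 : ℤ) ∣ a) : a ^ 2 % 3 = 1 := by
  have h : a % 3 = 1 ∨ a % 3 = 2 := by omega
  rcases h with h | h <;> rw [pow_two, Int.mul_emod, h] <;> rfl

theorem sq_mod5 (a : ℤ) : a ^ 2 % 5 = 0 ∨ a ^ 2 % 5 = 1 ∨ a ^ 2 % 5 = 4 := by
  have h : a % 5 = 0 ∨ a % 5 = 1 ∨ a % 5 = 2 ∨ a % 5 = 3 ∨ a % 5 = 4 := by omega
  rcases h with h | h | h | h | h <;> rw [pow_two, Int.mul_emod, h] <;> norm_num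

theorem sq_mod8 (a : ℤ) : a ^ 2 % 8 = 0 ∨ a ^ 2 % 8 = 1 ∨ a ^ 2 % 8 = 4 := by
  have h : a % 8 = 0 ∨ a % 8 = 1 ∨ a % 8 = 2 ∨ a % 8 = 3 ∨ a % 8 = 4 ∨ a % 8 = 5 ∨ a % 8 = 6 ∨ a % 8 = 7 := by
    omega
  rcases h with h | h | h | h | h | h | h | h <;> rw [pow_two, Int.mul_emod, h] <;> norm_num

/-- a variable of a form with value `p` -/
theorem form_var {p : ℕ} (hp : p.Prime) {a b : ℤ} (ha : 1 ≤ a) (hb : 0 ≤ b) {x y : ℤ}
    (hx0 : x ≠ 0) (h : (p : ℤ) = a * x ^ 2 + b * y ^ 2) : ¬ (p : ℤ) ∣ x := by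
  rintro ⟨c, rfl⟩
  have hc : 1 ≤ c ^ 2 := by
    have : c ≠ 0 := by rintro rfl; exact hx0 (by ring)
    have : c ^ 2 ≠ 0 := pow_ne_zero 2 this
    have := sq_nonneg c
    omega
  have hp1 : (1 : ℤ) < p := by exact_mod_cast hp.one_lt
  have h1 : (p : ℤ) ^ 2 * 1 ≤ (p : ℤ) ^ 2 * c ^ 2 := mul_le_mul_of_nonneg_left hc (sq_nonneg _)
  have h2 : (p : ℤ) < p ^ 2 := by nlinarith
  have h4 : (p : ℤ) ^ 2 * c ^ 2 * 1 ≤ (p : ℤ) ^ 2 * c ^ 2 * a := mul_le_mul_of_nonneg_left ha (by positivity)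
  have h5 : 0 ≤ b * y ^ 2 := mul_nonneg hb (sq_nonneg _)
  have h3' : a * ((p : ℤ) * c) ^ 2 = (p : ℤ) ^ 2 * c ^ 2 * a := by ring
  rw [h3'] at h
  linarith

/-- the data over the Witt vectors -/
theorem wo_data (p : ℕ) [hp : Fact p.Prime] (hp2 : p ≠ 2) (hp3 : p ≠ 3) :
    ∃ (v i6 ρ : WO p) (iv : ℕ → WO p), 2 * v = 1 ∧ 6 * i6 = 1 ∧ ρ ^ 2 = -3 ∧
      (∀ n, n + 1 < p → ((n : WO p) + 1) * iv (n + 1) = 1) := by
  have n3 : ¬ (p : ℤ) ∣ -3 := by
    rw [dvd_neg]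
    have := ndvd_of_primes p (n := 3) (l := [3]) (by simp; norm_num) (by norm_num) (by simp; omega)
    exact_mod_cast this
  have n6 : ¬ (p : ℤ) ∣ 6 := by
    have := ndvd_of_primes p (n := 6) (l := [2, 3]) (by simp; norm_num) (by norm_num) (by simp; omega)
    exact_mod_cast this
  obtain ⟨ρ, hρ⟩ := wo_isqrt p hp2 n3
  obtain ⟨v, hv⟩ := ((SW p).unit_of_red ((SW p).two_ne hp2)).exists_right_inv
  have r6 : (SW p).red 6 ≠ 0 := by
    have := (SW p).int_ne (p := p) n6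
    exact_mod_cast this
  obtain ⟨i6, h6⟩ := ((SW p).unit_of_red r6).exists_right_inv
  obtain ⟨iv, hiv⟩ := iv_exists (SW p) (p := p)
  exact ⟨v, i6, ρ, iv, hv, h6, by exact_mod_cast hρ, hiv⟩

theorem i6_K {p : ℕ} [hp : Fact p.Prime] [CharZero (KO p)] {i6 : WO p} (h6 : 6 * i6 = 1) :
    algebraMap (WO p) (KO p) i6 = 1 / 6 := by
  have h6K : (6 : KO p) * algebraMap (WO p) (KO p) i6 = 1 := by
    have := congrArg (algebraMap (WO p) (KO p)) h6
    rwa [map_mul, map_ofNat, map_one] at this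
  have h60 : (6 : KO p) ≠ 0 := by norm_num
  rw [eq_div_iff h60]; linear_combination h6K

/-- the two rational sums in the field of fractions -/
theorem S_K {p : ℕ} [hp : Fact p.Prime] [CharZero (KO p)] {i6 : WO p} (h6 : 6 * i6 = 1) {iv : ℕ → WO p}
    (hiv : ∀ n, n + 1 < p → ((n : WO p) + 1) * iv (n + 1) = 1) {T : ℚ} {t : WO p}
    (ht : (T : KO p) = algebraMap (WO p) (KO p) t) :
    ((∑ n ∈ range p, gb (-1 / 3) n * gb (-1 / 6) n * T ^ n : ℚ) : KO p) =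
        algebraMap (WO p) (KO p) (hyp iv p (2 * i6) i6 t) ∧
    ((∑ n ∈ range p, gb (-2 / 3) n * gb (-5 / 6) n * T ^ n : ℚ) : KO p) =
        algebraMap (WO p) (KO p) (hyp iv p (4 * i6) (5 * i6) t) := by
  have e6 := i6_K h6
  constructor
  · have := sum_K (K := KO p) (p := p) hiv (a := 1 / 3) (b := 1 / 6) (a' := 2 * i6) (b' := i6)
      (by rw [map_mul, map_ofNat, e6]; push_cast; norm_num) (by rw [e6]; push_cast; rfl) ht
    rw [← this, show (-1 / 3 : ℚ) = -(1 / 3) by ring, show (-1 / 6 : ℚ) = -(1 / 6) by ring]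
  · have := sum_K (K := KO p) (p := p) hiv (a := 2 / 3) (b := 5 / 6) (a' := 4 * i6) (b' := 5 * i6)
      (by rw [map_mul, map_ofNat, e6]; push_cast; norm_num) (by rw [map_mul, map_ofNat, e6]; push_cast; norm_num) ht
    rw [← this, show (-2 / 3 : ℚ) = -(2 / 3) by ring, show (-5 / 6 : ℚ) = -(5 / 6) by ring]

end Pool.Agent.H546
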