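import Pool.Agent.H546.Fin3

set_option autoImplicit false

/-!
# The Witt vectors of an algebraic closure of `ZMod p`
-/

namespace Pool.Agent.H546

open Polynomial

variable (p : ℕ) [hp : Fact p.Prime]

/-- an algebraic closure of `ZMod p` -/
abbrev kb : Type := AlgebraicClosure (ZMod p)

/-- its Witt vectors -/
abbrev WO : Type := WittVector p (kb p)

/-- the field of fractions of the Witt vectors -/
abbrev KO : Type := FractionRing (WO p)

instance : CharP (kb p) p := inferInstance

theorem wo_p : ((p : WO p)).coeff 0 = 0 := (WittVector.mem_span_p_iff_coeff_zero_eq_zero _).mp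
  (Ideal.mem_span_singleton_self _)

/-- the discrete valuation structure -/
noncomputable def SW : DV (WO p) (KO p) (kb p) where
  red := WittVector.constantCoeff
  q := (p : WO p)
  red_iff := by
    intro x
    rw [← Ideal.mem_span_singleton, WittVector.mem_span_p_iff_coeff_zero_eq_zero]
    rfl
  q_ne := WittVector.p_nonzero p (kb p)
  inj := IsFractionRing.injective _ _
  frac := by
    intro x hx
    obtain ⟨a, b, hb, rfl⟩ := IsFractionRing.div_surjective (A := WO p) x
    have hb0 : b ≠ 0 := nonZeroDivisors.ne_zero hb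
    have ha0 : a ≠ 0 := by rintro rfl; simp at hx
    have hirr : Irreducible (p : WO p) := WittVector.irreducible p
    obtain ⟨n, u, rfl⟩ := IsDiscreteValuationRing.eq_unit_mul_pow_irreducible ha0 hirr
    obtain ⟨m, v, rfl⟩ := IsDiscreteValuationRing.eq_unit_mul_pow_irreducible hb0 hirr
    refine ⟨((u * v⁻¹ : (WO p)ˣ) : WO p), (n : ℤ) - m, Units.isUnit _, ?_⟩
    have hp0 : algebraMap (WO p) (KO p) (p : WO p) ≠ 0 := by
      intro h0
      apply WittVector.p_nonzero p (kb p)
      apply IsFractionRing.injective (WO p) (KO p)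
      rw [h0, map_zero]
    have hv0 : algebraMap (WO p) (KO p) (v : WO p) ≠ 0 := by
      intro h0
      apply v.ne_zero
      apply IsFractionRing.injective (WO p) (KO p)
      rw [h0, map_zero]
    have hvi : algebraMap (WO p) (KO p) ((v⁻¹ : (WO p)ˣ) : WO p) * algebraMap (WO p) (KO p) (v : WO p) = 1 := by
      rw [← map_mul, Units.inv_mul, map_one]
    rw [map_mul, map_mul, map_pow, map_pow, Units.val_mul, map_mul, zpow_sub₀ hp0, zpow_natCast,
      zpow_natCast]
    have hvv : algebraMap (WO p) (KO p) ((v⁻¹ : (WO p)ˣ) : WO p) = (algebraMap (WO p) (KO p) (v : WO p))⁻¹ :=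
      eq_inv_of_mul_eq_one_left hvi
    rw [hvv, mul_div_mul_comm, div_eq_mul_inv (algebraMap (WO p) (KO p) (u : WO p))]

theorem SW_q : (SW p).q = (p : WO p) := rfl

theorem SW_red (x : WO p) : (SW p).red x = x.coeff 0 := rfl

/-- square roots of units -/
theorem wo_sqrt (hp2 : p ≠ 2) {x : WO p} {y0 : kb p} (h : y0 ^ 2 = (SW p).red x) (hx : (SW p).red x ≠ 0) :
    ∃ y : WO p, y ^ 2 = x ∧ (SW p).red y = y0 := by
  have hh : HenselianRing (WO p) (Ideal.span {(p : WO p)}) := inferInstance
  set y1 : WO p := WittVector.teichmuller p y0 with hy1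
  have hred1 : (SW p).red y1 = y0 := by rw [SW_red, hy1, WittVector.teichmuller_coeff_zero]
  have hy0 : y0 ≠ 0 := by rintro rfl; apply hx; rw [← h]; simp
  have h2 : (2 : kb p) ≠ 0 := by
    have := small_ne (k := kb p) (p := p) (n := 2) (by norm_num)
      (lt_of_le_of_ne hp.out.two_le (Ne.symm hp2))
    exact_mod_cast this
  have mono : (X ^ 2 - C x : (WO p)[X]).Monic := monic_X_pow_sub_C x two_ne_zero
  obtain ⟨y, h1, h2'⟩ := hh.is_henselian (X ^ 2 - C x) mono y1 (by
      rw [Ideal.mem_span_singleton]
      have : (SW p).red (y1 ^ 2 - x) = 0 := by rw [map_sub, map_pow, hred1, h, sub_self]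
      have h3 := ((SW p).red_iff _).mp this
      rw [SW_q] at h3
      simpa [eval_sub, eval_pow] using h3) (by
      have hu : IsUnit (2 * y1) := by
        apply (SW p).unit_of_red
        rw [map_mul, hred1, map_ofNat]
        exact mul_ne_zero h2 hy0
      have : eval y1 (derivative (X ^ 2 - C x)) = 2 * y1 := by
        rw [derivative_sub, derivative_C, derivative_X_pow]
        simp
      rw [this]
      exact hu.map _)
  refine ⟨y, ?_, ?_⟩
  · have : eval y (X ^ 2 - C x) = 0 := h1
    simp only [eval_sub, eval_pow, eval_X, eval_C] at this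
    linear_combination this
  · rw [Ideal.mem_span_singleton] at h2'
    have := ((SW p).red_iff _).mpr h2'
    rw [map_sub, hred1] at this
    linear_combination this

/-- square roots of integers -/
theorem wo_isqrt (hp2 : p ≠ 2) {d : ℤ} (hd : ¬ (p : ℤ) ∣ d) : ∃ y : WO p, y ^ 2 = (d : WO p) := by
  have hx : (SW p).red (d : WO p) ≠ 0 := by
    rw [map_intCast]
    intro h
    exact hd ((CharP.intCast_eq_zero_iff (kb p) p d).mp h)
  obtain ⟨y0, hy0⟩ := IsAlgClosed.exists_pow_nat_eq ((SW p).red (d : WO p)) (n := 2) (by norm_num)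
  obtain ⟨y, hy, -⟩ := wo_sqrt p hp2 hy0 hx
  exact ⟨y, hy⟩

end Pool.Agent.H546
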