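import Pool.Agent.H546.UModel

set_option autoImplicit false

/-!
# Explicit isogenies as pairs of polynomials
-/

namespace Pool.Agent.H546

open Polynomial

variable {O K k : Type*} [CommRing O] [IsDomain O] [Field K] [Algebra O K] [Field k]
  (S : DV O K k)

/-- an explicit isogeny of degree `l` from `y² = f` to `y² = x³ + a x + b` with multiplier `m` -/
def Dat (f : O[X]) (a b m : O) (l : ℕ) : Prop :=
  ∃ n d : O[X], f * wr n d ^ 2 = C m ^ 2 * tgt a b n d ∧ d ≠ 0 ∧ d.natDegree < n.natDegree ∧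
    n.natDegree = l ∧ IsCoprime (n.map (algebraMap O K)) (d.map (algebraMap O K)) ∧
    IsCoprime (n.map S.red) (d.map S.red) ∧ (n.map S.red).natDegree = n.natDegree

theorem Dat.point {f : O[X]} {a b m : O} {l : ℕ} (h : Dat S f a b m l) (hf : f ≠ 0)
    (h2 : (2 : k) ≠ 0) (hΔ : S.red (4 * a ^ 3 + 27 * b ^ 2) ≠ 0) (hm : m ≠ 0) :
    ∃ v : (TWf (f.map (algebraMap O K)) (algebraMap O K a) (algebraMap O K b)).Point,
      Good (algebraMap O K m) v ∧ Nice S v ∧ hgt v = l := by
  obtain ⟨n, d, ode, hd, hdeg, rfl, copK, copk, hl⟩ := h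
  exact mk_point S hf h2 hΔ ode hm hd hdeg copK copk hl

theorem Dat.id (a b : O) : Dat S (cub a b) a b 1 1 := by
  refine ⟨X, 1, ?_, one_ne_zero, ?_, natDegree_X, ?_, ?_, ?_⟩
  · simp only [wr, derivative_X, derivative_one, tgt, cub, C_1]; ring
  · rw [natDegree_one, natDegree_X]; norm_num
  · rw [Polynomial.map_one]; exact isCoprime_one_right
  · rw [Polynomial.map_one]; exact isCoprime_one_right
  · rw [map_X, natDegree_X, natDegree_X]

/-- numerator and denominator of the composite with the 3-isogeny -/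
noncomputable def nuN {R : Type*} [CommRing R] (A : R) (n d : R[X]) : R[X] :=
  -(n * (n - 3 * d) ^ 2 + 12 * C A * (n - 3 * d) * d ^ 2 + 4 * C A ^ 2 * d ^ 3)

noncomputable def nuD {R : Type*} [CommRing R] (n d : R[X]) : R[X] := 3 * d * (n - 3 * d) ^ 2

theorem nuN_map {R T : Type*} [CommRing R] [CommRing T] (g : R →+* T) (A : R) (n d : R[X]) :
    (nuN A n d).map g = nuN (g A) (n.map g) (d.map g) := by
  simp [nuN]

theorem nuD_map {R T : Type*} [CommRing R] [CommRing T] (g : R →+* T) (n d : R[X]) :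
    (nuD n d).map g = nuD (n.map g) (d.map g) := by
  simp [nuD]

theorem nu_wr {R : Type*} [CommRing R] (A : R) (n d : R[X]) :
    wr (nuN A n d) (nuD n d) = -3 * (n - 3 * d) * wr n d *
      ((n - 3 * d) ^ 3 - 12 * C A * d ^ 2 * (n - 3 * d) - 8 * C A ^ 2 * d ^ 3) := by
  simp only [wr, nuN, nuD, derivative_neg, derivative_add, derivative_mul, derivative_sub,
    derivative_pow, derivative_C, derivative_ofNat]
  push_cast
  simp only [map_ofNat]
  ring

theorem nu_tgt {R : Type*} [CommRing R] (A : R) (n d : R[X]) :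
    tgt (ca (4 - A)) (cb (4 - A)) (nuN A n d) (nuD n d) = -3 * (n - 3 * d) ^ 2 * tgt (ca A) (cb A) n d *
      ((n - 3 * d) ^ 3 - 12 * C A * d ^ 2 * (n - 3 * d) - 8 * C A ^ 2 * d ^ 3) ^ 2 := by
  simp only [tgt, nuN, nuD, ca, cb, C_add, C_sub, C_mul, C_pow, map_ofNat]
  ring

theorem nu_cop {F : Type*} [Field F] {A : F} (h2 : (2 : F) ≠ 0) (h3 : (3 : F) ≠ 0) (hA : A ≠ 0)
    {n d : F[X]} (h : IsCoprime n d) : IsCoprime (nuN A n d) (nuD n d) := by
  have hed : IsCoprime (n - 3 * d) d := by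
    have := h.add_mul_right_left (-3)
    have e : n + -3 * d = n - 3 * d := by ring
    have e' : n + d * (-3) = n - 3 * d := by ring
    first
    | exact e ▸ this
    | exact e' ▸ this
  set e := n - 3 * d with he
  have hN : nuN A n d = -(e ^ 3 + 3 * d * e ^ 2 + 12 * C A * e * d ^ 2 + 4 * C A ^ 2 * d ^ 3) := by
    unfold nuN; rw [← he]
    have : n = e + 3 * d := by rw [he]; ring
    rw [this]; ring
  have h4 : (C (4 * A ^ 2) : F[X]) = 4 * C A ^ 2 := by rw [C_mul, C_pow, map_ofNat]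
  have c1 : IsCoprime (nuN A n d) d := by
    have : nuN A n d = -(e ^ 3) + d * (-(3 * e ^ 2 + 12 * C A * e * d + 4 * C A ^ 2 * d ^ 2)) := by
      rw [hN]; ring
    rw [this]
    exact (hed.pow_left.neg_left).add_mul_left_left _
  have hu : IsUnit (C (-(4 * A ^ 2)) : F[X]) := by
    apply isUnit_C.mpr
    apply isUnit_iff_ne_zero.mpr
    have : (4 : F) = 2 * 2 := by norm_num
    rw [this]
    exact neg_ne_zero.mpr (mul_ne_zero (mul_ne_zero h2 h2) (pow_ne_zero 2 hA))
  have c2 : IsCoprime (nuN A n d) e := by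
    have : nuN A n d = C (-(4 * A ^ 2)) * d ^ 3 + e * (-(e ^ 2 + 3 * d * e + 12 * C A * d ^ 2)) := by
      rw [hN, C_neg, h4]; ring
    rw [this]
    apply IsCoprime.add_mul_left_left
    rw [isCoprime_mul_unit_left_left hu]
    exact hed.symm.pow_left
  unfold nuD
  rw [← he]
  have hu3 : IsUnit (3 : F[X]) := by
    have : (3 : F[X]) = C 3 := (map_ofNat C 3).symm
    rw [this]
    exact isUnit_C.mpr (isUnit_iff_ne_zero.mpr h3)
  refine IsCoprime.mul_right (IsCoprime.mul_right ?_ c1) c2.pow_right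
  exact (isCoprime_one_right.of_isCoprime_of_dvd_right hu3.dvd)

theorem nuN_deg {R : Type*} [CommRing R] [IsDomain R] (A : R) {n d : R[X]} (h : d.natDegree < n.natDegree) :
    (nuN A n d).natDegree = 3 * n.natDegree := by
  have hn : n ≠ 0 := by rintro rfl; simp at h
  have h3d : (3 * d).natDegree < n.natDegree := by
    refine lt_of_le_of_lt ?_ h
    have : (3 : R[X]) * d = C 3 * d := by rw [map_ofNat]
    rw [this]; exact natDegree_C_mul_le _ _
  have he : (n - 3 * d).natDegree = n.natDegree := natDegree_sub_eq_left_of_natDegree_lt h3d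
  have hed : d.natDegree < (n - 3 * d).natDegree := by rw [he]; exact h
  set e := n - 3 * d with hee
  have he0 : e ≠ 0 := by intro h0; rw [h0] at he; simp at he; omega
  have hN : nuN A n d = -(e ^ 3 + (C 3 * d * e ^ 2 + C (12 * A) * e * d ^ 2 + C (4 * A ^ 2) * d ^ 3)) := by
    unfold nuN; rw [← hee]
    have : n = e + 3 * d := by rw [hee]; ring
    rw [this]; simp only [C_mul, C_pow, map_ofNat]; ring
  rw [hN, natDegree_neg, natDegree_add_eq_left_of_natDegree_lt]
  · rw [natDegree_pow, he]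
  · rw [natDegree_pow, he]
    have k1 : (C 3 * d * e ^ 2).natDegree < 3 * n.natDegree := by
      refine lt_of_le_of_lt natDegree_mul_le ?_
      rw [natDegree_pow, he]
      have := natDegree_C_mul_le (3 : R) d
      omega
    have k2 : (C (12 * A) * e * d ^ 2).natDegree < 3 * n.natDegree := by
      refine lt_of_le_of_lt natDegree_mul_le ?_
      rw [natDegree_pow]
      have := natDegree_C_mul_le (12 * A : R) e
      omega
    have k3 : (C (4 * A ^ 2) * d ^ 3).natDegree < 3 * n.natDegree := by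
      refine lt_of_le_of_lt (natDegree_C_mul_le _ _) ?_
      rw [natDegree_pow]
      omega
    exact lt_of_le_of_lt (natDegree_add_le _ _) (max_lt (lt_of_le_of_lt (natDegree_add_le _ _)
      (max_lt k1 k2)) k3)

theorem nuD_ne {R : Type*} [CommRing R] [IsDomain R] (h3 : (3 : R) ≠ 0) {n d : R[X]} (hd : d ≠ 0)
    (h : d.natDegree < n.natDegree) : nuD n d ≠ 0 ∧ (nuD n d).natDegree < 3 * n.natDegree := by
  have h3d : (3 * d).natDegree < n.natDegree := by
    refine lt_of_le_of_lt ?_ h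
    have : (3 : R[X]) * d = C 3 * d := by rw [map_ofNat]
    rw [this]; exact natDegree_C_mul_le _ _
  have he : (n - 3 * d).natDegree = n.natDegree := natDegree_sub_eq_left_of_natDegree_lt h3d
  have he0 : n - 3 * d ≠ 0 := by intro h0; rw [h0] at he; simp at he; omega
  have h3' : (3 : R[X]) ≠ 0 := by
    have : (3 : R[X]) = C 3 := (map_ofNat C 3).symm
    rw [this]; exact C_ne_zero.mpr h3
  refine ⟨mul_ne_zero (mul_ne_zero h3' hd) (pow_ne_zero 2 he0), ?_⟩
  unfold nuD
  have : (3 : R[X]) * d * (n - 3 * d) ^ 2 = C 3 * (d * (n - 3 * d) ^ 2) := by rw [map_ofNat]; ring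
  rw [this]
  refine lt_of_le_of_lt (natDegree_C_mul_le _ _) ?_
  refine lt_of_le_of_lt natDegree_mul_le ?_
  rw [natDegree_pow, he]
  omega

/-- composition with the 3-isogeny -/
theorem Dat.nu {f : O[X]} {A m r : O} {l : ℕ} (h : Dat S f (ca A) (cb A) m l) (h2 : (2 : k) ≠ 0)
    (h3 : (3 : k) ≠ 0) (hA : S.red A ≠ 0) (hr : r ^ 2 = -3) :
    Dat S f (ca (4 - A)) (cb (4 - A)) (m * r) (3 * l) := by
  obtain ⟨n, d, ode, hd, hdeg, hnl, copK, copk, hl⟩ := h
  have h3O : (3 : O) ≠ 0 := by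
    intro h0
    apply h3
    have := congrArg S.red h0
    simpa [map_ofNat] using this
  have hA0 : A ≠ 0 := by rintro rfl; exact hA (map_zero _)
  have h2K := twoK S h2
  have h3K : (3 : K) ≠ 0 := by
    intro h0
    apply h3O
    apply S.inj
    simpa [map_ofNat] using h0
  have hAK : algebraMap O K A ≠ 0 := fun h0 => hA0 (S.inj (by rw [h0, map_zero]))
  refine ⟨nuN A n d, nuD n d, ?_, (nuD_ne h3O hd hdeg).1, ?_, ?_, ?_, ?_, ?_⟩
  · rw [nu_wr, nu_tgt, C_mul]
    have hrC : (C r : O[X]) ^ 2 = -3 := by rw [← C_pow, hr, C_neg, map_ofNat]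
    linear_combination (9 * (n - 3 * d) ^ 2 * ((n - 3 * d) ^ 3 - 12 * C A * d ^ 2 * (n - 3 * d) -
      8 * C A ^ 2 * d ^ 3) ^ 2) * ode + (3 * (n - 3 * d) ^ 2 * C m ^ 2 * tgt (ca A) (cb A) n d *
      ((n - 3 * d) ^ 3 - 12 * C A * d ^ 2 * (n - 3 * d) - 8 * C A ^ 2 * d ^ 3) ^ 2) * hrC
  · rw [nuN_deg A hdeg]; exact (nuD_ne h3O hd hdeg).2
  · rw [nuN_deg A hdeg, hnl]
  · rw [nuN_map, nuD_map]; exact nu_cop h2K h3K hAK copK
  · rw [nuN_map, nuD_map]; exact nu_cop h2 h3 hA copk
  · rw [nuN_map, nuN_deg A hdeg, nuN_deg _ ?_, hl]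
    rw [hl]
    exact lt_of_le_of_lt natDegree_map_le hdeg

/-- an isogeny from a kernel polynomial of odd degree -/
theorem Dat.of_sq {a1 b1 a b m c : O} {n h : O[X]} {l : ℕ}
    (ode : cub a1 b1 * C c * (derivative n * h - 2 * n * derivative h) ^ 2 =
      n ^ 3 + C (a * m ^ 4) * C c ^ 2 * n * h ^ 4 + C (b * m ^ 6) * C c ^ 3 * h ^ 6)
    (hc : S.red c ≠ 0) (hm : S.red m ≠ 0) (hh : h ≠ 0) (hhd : 2 * h.natDegree < n.natDegree)
    (hn : n.natDegree = l) (hnl : S.red n.leadingCoeff ≠ 0) {U V : O[X]} {r : O}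
    (bez : U * n + V * h = C r) (hr : S.red r ≠ 0) :
    Dat S (cub a1 b1) a b m l := by
  have unitC : ∀ {x : O}, S.red x ≠ 0 → ((C (algebraMap O K x) : K[X]) * C (algebraMap O K x)⁻¹ = 1) := by
    intro x hx
    rw [← C_mul, mul_inv_cancel₀, C_1]
    intro h0
    apply hx
    have : x = 0 := S.inj (by rw [h0, map_zero])
    rw [this, map_zero]
  have unitk : ∀ {x : O}, S.red x ≠ 0 → ((C (S.red x) : k[X]) * C (S.red x)⁻¹ = 1) := by
    intro x hx
    rw [← C_mul, mul_inv_cancel₀ hx, C_1]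
  have hmc : S.red (c * m ^ 2) ≠ 0 := by
    rw [map_mul, map_pow]; exact mul_ne_zero hc (pow_ne_zero 2 hm)
  have hmc0 : c * m ^ 2 ≠ 0 := by intro h0; rw [h0, map_zero] at hmc; exact hmc rfl
  refine ⟨n, C (c * m ^ 2) * h ^ 2, ?_, ?_, ?_, hn, ?_, ?_, ?_⟩
  · have e1 : wr n (C (c * m ^ 2) * h ^ 2) = C (c * m ^ 2) * h * (derivative n * h - 2 * n * derivative h) := by
      simp only [wr, derivative_mul, derivative_C, derivative_pow]
      push_cast
      simp only [map_ofNat]
      ring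
    rw [e1]
    simp only [tgt]
    simp only [C_mul, C_pow] at ode ⊢
    linear_combination (C m ^ 4 * C c * h ^ 2) * ode
  · exact mul_ne_zero (C_ne_zero.mpr hmc0) (pow_ne_zero 2 hh)
  · rw [natDegree_C_mul hmc0, natDegree_pow]; exact hhd
  · have h1 : IsCoprime (n.map (algebraMap O K)) (h.map (algebraMap O K)) := by
      refine ⟨C (algebraMap O K r)⁻¹ * U.map (algebraMap O K), C (algebraMap O K r)⁻¹ * V.map (algebraMap O K), ?_⟩
      have := congrArg (Polynomial.map (algebraMap O K)) bez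
      rw [Polynomial.map_add, Polynomial.map_mul, Polynomial.map_mul, map_C] at this
      linear_combination C (algebraMap O K r)⁻¹ * this + unitC hr
    rw [Polynomial.map_mul, Polynomial.map_pow, map_C]
    have hu : IsUnit (C (algebraMap O K (c * m ^ 2)) : K[X]) := IsUnit.of_mul_eq_one _ (unitC hmc)
    rw [isCoprime_mul_unit_left_right hu]
    exact h1.pow_right
  · have h1 : IsCoprime (n.map S.red) (h.map S.red) := by
      refine ⟨C (S.red r)⁻¹ * U.map S.red, C (S.red r)⁻¹ * V.map S.red, ?_⟩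
      have := congrArg (Polynomial.map S.red) bez
      rw [Polynomial.map_add, Polynomial.map_mul, Polynomial.map_mul, map_C] at this
      linear_combination C (S.red r)⁻¹ * this + unitk hr
    rw [Polynomial.map_mul, Polynomial.map_pow, map_C]
    have hu : IsUnit (C (S.red (c * m ^ 2)) : k[X]) := IsUnit.of_mul_eq_one _ (unitk hmc)
    rw [isCoprime_mul_unit_left_right hu]
    exact h1.pow_right
  · exact natDegree_map_of_leadingCoeff_ne_zero _ hnl

end Pool.Agent.H546
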