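import Pool.Agent.H546.Key3
import Pool.Agent.H546.Dat

set_option autoImplicit false

/-!
# Assembly for the cubic family
-/

namespace Pool.Agent.H546

open Finset
open Pool.Agent.Q267.Seven (dl)
open Pool.Agent.Q267.MW (dl_vanish u3 u3_leg sum_three clausen_gen)
open Pool.Agent.Q267.CDE (R)

variable {O K k : Type*} [CommRing O] [IsDomain O] [Field K] [Algebra O K] [Field k]
  (S : DV O K k)

theorem small_ne {p : ℕ} [hp : Fact p.Prime] [CharP k p] {n : ℕ} (h0 : 0 < n) (h : n < p) : (n : k) ≠ 0 := by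
  intro h1
  rw [CharP.cast_eq_zero_iff k p] at h1
  exact absurd (Nat.le_of_dvd h0 h1) (by omega)

/-- **The unit root from two isogenies.** -/
theorem lift3 {p : ℕ} [hp : Fact p.Prime] [CharP k p] [IsAlgClosed k] (hp5 : 5 ≤ p) (hq : S.q = (p : O))
    {z z' : O} (hz : S.red z ≠ 0) (hz1 : S.red (1 - z) ≠ 0) (hz' : S.red z' = S.red z ^ p)
    (ha0 : S.red (ca (4 * z)) ≠ 0) (hb0 : S.red (cb (4 * z)) ≠ 0) {m1 m2 : O} {l1 l2 : ℕ}
    (hm1 : m1 ≠ 0) (hm2 : m2 ≠ 0)
    (d1 : Dat S (cub (ca (4 * z)) (cb (4 * z))) (ca (4 * z')) (cb (4 * z')) m1 l1)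
    (d2 : Dat S (cub (ca (4 * z)) (cb (4 * z))) (ca (4 * z')) (cb (4 * z')) m2 l2)
    (r s t0 : ℤ) (hform : (p : ℤ) = r ^ 2 * l1 + r * s * t0 + s ^ 2 * l2)
    (hr : ¬ (p : ℤ) ∣ r) (hs : ¬ (p : ℤ) ∣ s) (ht0 : t0 ^ 2 ≤ 4 * l1 * l2)
    (hbig : 16 * (l1 * l2) < p ^ 2) {w : O} (hc : (r : O) * m1 + (s : O) * m2 = p * w)
    (hw : S.red w ≠ 0) :
    ∃ ε : O, ε ^ 2 = 1 ∧ (p : O) ^ 2 ∣ ε * w * (2 * lg (p / 3) z + lg (2 * p / 3) z) - 3 := by
  classical
  have h2 : (2 : k) ≠ 0 := by
    have := small_ne (k := k) (p := p) (n := 2) (by norm_num) (by omega)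
    exact_mod_cast this
  have h3 : (3 : k) ≠ 0 := by
    have := small_ne (k := k) (p := p) (n := 3) (by norm_num) (by omega)
    exact_mod_cast this
  have h4 : (4 : k) ≠ 0 := by
    have := small_ne (k := k) (p := p) (n := 4) (by norm_num) (by omega)
    exact_mod_cast this
  have red4 : S.red (4 : O) = 4 := map_ofNat _ 4
  have h4p : (4 : k) ^ p = 4 := by
    have h := frobenius_def (R := k) p 4
    have h' : (frobenius k p) 4 = 4 := map_ofNat _ 4
    rw [← h, h']
  have hA : S.red (4 * z) ≠ 0 := by rw [map_mul, red4]; exact mul_ne_zero h4 hz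
  have hA' : S.red (4 * z') = S.red (4 * z) ^ p := by
    rw [map_mul, map_mul, hz', red4, mul_pow, h4p]
  have frob : ∀ x : k, x ^ p = frobenius k p x := fun x => rfl
  have haa : S.red (ca (4 * z')) = S.red (ca (4 * z)) ^ p := by
    rw [ca_map, ca_map, hA', frob, frob]
    simp only [ca, map_sub, map_mul, map_ofNat]
  have hbb : S.red (cb (4 * z')) = S.red (cb (4 * z)) ^ p := by
    rw [cb_map, cb_map, hA', frob, frob]
    simp only [cb, map_sub, map_add, map_mul, map_pow, map_ofNat]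
  have hΔ1 : S.red (4 * ca (4 * z) ^ 3 + 27 * cb (4 * z) ^ 2) ≠ 0 := by
    rw [disc_ne]
    have : (27 * (4 * z) ^ 3 * (4 * z - 4) : O) = -((3 ^ 3 * 4 ^ 4) * z ^ 3 * (1 - z)) := by ring
    rw [this, map_neg]
    refine neg_ne_zero.mpr ?_
    rw [map_mul, map_mul, map_mul, map_pow, map_pow, map_pow, map_ofNat, map_ofNat]
    exact mul_ne_zero (mul_ne_zero (mul_ne_zero (pow_ne_zero _ h3) (pow_ne_zero _ h4))
      (pow_ne_zero _ hz)) hz1
  have hΔ2 : S.red (4 * ca (4 * z') ^ 3 + 27 * cb (4 * z') ^ 2) ≠ 0 := by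
    have e : S.red (4 * ca (4 * z') ^ 3 + 27 * cb (4 * z') ^ 2) =
        S.red (4 * ca (4 * z) ^ 3 + 27 * cb (4 * z) ^ 2) ^ p := by
      rw [map_add, map_mul, map_mul, map_pow, map_pow, haa, hbb, frob, frob, frob, map_add, map_mul,
        map_mul, map_pow, map_pow]
      simp only [map_add, map_mul, map_pow, map_ofNat]
    rw [e]
    exact pow_ne_zero _ hΔ1
  have hf0 := cub_ne (ca (4 * z)) (cb (4 * z))
  have hlead : S.red (cub (ca (4 * z)) (cb (4 * z))).leadingCoeff ≠ 0 := by
    have : (cub (ca (4 * z)) (cb (4 * z))).leadingCoeff = 1 := by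
      have hd : (cub (ca (4 * z)) (cb (4 * z))).natDegree = 3 := by
        unfold cub; compute_degree!
      rw [Polynomial.leadingCoeff, hd]
      simp [cub, Polynomial.coeff_X, Polynomial.coeff_C]
    rw [this, map_one]; exact one_ne_zero
  obtain ⟨P1, g1, n1, e1⟩ := d1.point S hf0 h2 hΔ2 hm1
  obtain ⟨P2, g2, n2, e2⟩ := d2.point S hf0 h2 hΔ2 hm2
  have hcr : S.red ((r : O) * m1 + (s : O) * m2) = 0 := by
    rw [hc, ← hq, map_mul, S.red_q, zero_mul]
  obtain ⟨nv, gv, hv⟩ := form_value S (p := p) hlead h2 hΔ2 g1 n1 g2 n2 r s t0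
    (by rw [e1, e2]; exact hform) hr hs (by rw [e1, e2]; exact ht0) (by rw [e1, e2]; exact hbig) hcr
  rw [hc, ← hq] at gv
  obtain ⟨n, d, M, f1, f2, f3, f4, f5, f6⟩ := frob_struct S (p := p) (by omega) (by omega) haa hbb ha0 hb0 hΔ1
    nv gv hv hw
  obtain ⟨N, D, M', u1, u2, u3', u4, u5, u6⟩ := to_u S hA hA' f1 f2 f3 f4 f5 f6
  have := key3 S (by omega) (by omega) hq hA hA' hw u1 u2 u3' u4 u5 u6
  rw [hq] at this
  exact this

include S in
theorem nat_dvd {p : ℕ} [hp : Fact p.Prime] [CharP k p] (hq : S.q = (p : O)) (n : ℕ)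
    (h : (p : O) ^ 2 ∣ (n : O)) : p ^ 2 ∣ n := by
  have hp0 : (p : O) ≠ 0 := by rw [← hq]; exact S.q_ne
  have key : ∀ m : ℕ, (p : O) ∣ (m : O) → p ∣ m := by
    intro m hm
    rw [← hq, ← S.red_iff, map_natCast, CharP.cast_eq_zero_iff k p] at hm
    exact hm
  obtain ⟨a, rfl⟩ := key n ((dvd_pow_self _ two_ne_zero).trans h)
  have h2 : (p : O) ∣ (a : O) := by
    rw [Nat.cast_mul, sq] at h
    exact (mul_dvd_mul_iff_left hp0).mp h
  obtain ⟨b, rfl⟩ := key a h2
  exact ⟨b, by ring⟩

/-- the quotient by `p²` -/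
abbrev QO (O : Type*) [CommRing O] (p : ℕ) : Type _ := O ⧸ (Ideal.span {(p : O) ^ 2})

include S in
theorem charQ {p : ℕ} [hp : Fact p.Prime] [CharP k p] (hq : S.q = (p : O)) : CharP (QO O p) (p ^ 2) := by
  refine ⟨fun n => ?_⟩
  rw [← map_natCast (Ideal.Quotient.mk (Ideal.span {(p : O) ^ 2})) n, Ideal.Quotient.eq_zero_iff_mem,
    Ideal.mem_span_singleton]
  constructor
  · exact nat_dvd S hq n
  · intro h
    have := Nat.cast_dvd_cast (α := O) h
    push_cast at this
    exact this

theorem lg_cast {A B : Type*} [CommRing A] [CommRing B] (f : A →+* B) (n : ℕ) (z : A) :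
    f (lg n z) = lg n (f z) := by
  simp [lg]

section sums

variable {p : ℕ} [hp : Fact p.Prime] [CharP k p]

/-- nine times the sum as a square in the quotient -/
theorem sum_sq (hp5 : 5 ≤ p) {A : Type*} [CommRing A] (th : R p →+* A) (z : A) (wi : R p)
    (hz : z * (1 - z) = th (27 * wi)) :
    9 * th (∑ k ∈ range p, (k.centralBinom : R p) * ((u3 k : ℕ) : R p) * wi ^ k) =
      (2 * lg (p / 3) z + lg (2 * p / 3) z) ^ 2 ∧ (p : A) * lg (p / 3) z = p * lg (2 * p / 3) z := by
  have hp3 : p ≠ 3 := by omega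
  have hS := congrArg th (sum_three p hp3 wi)
  have c1 := clausen_gen p (p / 3) (by omega) z _ hz
  have c2 := clausen_gen p (2 * p / 3) (by omega) z _ hz
  rw [lg_ext _ _ (by omega)] at c1 c2
  rw [map_add, map_mul, map_mul, map_sum th _ (range p), map_sum th _ (range p),
    map_sum th _ (range p)] at hS
  have e1 : ∑ x ∈ range p, th ((dl (p / 3) x : R p) * (x.centralBinom : R p) * (27 * wi) ^ x) =
      lg (p / 3) z ^ 2 := by
    rw [c1]
    refine sum_congr rfl fun x _ => ?_
    rw [map_mul, map_mul, map_intCast, map_natCast, map_pow]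
  have e2 : ∑ x ∈ range p, th ((dl (2 * p / 3) x : R p) * (x.centralBinom : R p) * (27 * wi) ^ x) =
      lg (2 * p / 3) z ^ 2 := by
    rw [c2]
    refine sum_congr rfl fun x _ => ?_
    rw [map_mul, map_mul, map_intCast, map_natCast, map_pow]
  rw [e1, e2] at hS
  have hP : (p : A) * lg (p / 3) z = p * lg (2 * p / 3) z := by
    rw [← lg_ext (p / 3) p (by omega), ← lg_ext (2 * p / 3) p (by omega), mul_sum, mul_sum]
    refine sum_congr rfl fun x hx => ?_
    obtain ⟨-, h2⟩ := u3_leg p hp3 x (mem_range.mp hx)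
    have := congrArg th h2
    rw [map_mul, map_mul, map_natCast, map_intCast, map_intCast] at this
    linear_combination z ^ x * this
  refine ⟨?_, hP⟩
  set a := lg (p / 3) z
  set b := lg (2 * p / 3) z
  -- (a - b)^2 = 0 needs more: use the coefficientwise difference
  have hd : (a - b) ^ 2 = 0 := by
    -- each coefficient difference is p times something
    have hcoef : ∀ x ∈ range p, ∃ y : R p, (dl (p / 3) x : R p) - (dl (2 * p / 3) x : R p) = p * y := by
      intro x hx
      obtain ⟨-, h2⟩ := u3_leg p hp3 x (mem_range.mp hx)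
      have h3 : ((dl (p / 3) x : ℤ) : R p) * p = ((dl (2 * p / 3) x : ℤ) : R p) * p := by
        linear_combination h2
      have h4 : (((dl (p / 3) x - dl (2 * p / 3) x) * p : ℤ) : ZMod (p ^ 2)) = 0 := by
        push_cast
        linear_combination h3
      rw [ZMod.intCast_zmod_eq_zero_iff_dvd] at h4
      obtain ⟨c, hc⟩ := h4
      refine ⟨(c : R p), ?_⟩
      have hp0 : (p : ℤ) ≠ 0 := by exact_mod_cast hp.out.ne_zero
      have h5 : dl (p / 3) x - dl (2 * p / 3) x = p * c := by
        apply mul_right_cancel₀ hp0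
        rw [hc]; push_cast; ring
      have := congrArg (Int.cast : ℤ → R p) h5
      push_cast at this
      exact this
    choose! y hy using hcoef
    have hab : a - b = (p : A) * ∑ x ∈ range p, th (y x) * z ^ x := by
      show lg (p / 3) z - lg (2 * p / 3) z = _
      rw [← lg_ext (p / 3) p (by omega), ← lg_ext (2 * p / 3) p (by omega), ← sum_sub_distrib, mul_sum]
      refine sum_congr rfl fun x hx => ?_
      have := congrArg th (hy x hx)
      rw [map_sub, map_mul, map_natCast, map_intCast, map_intCast] at this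
      linear_combination z ^ x * this
    have hpp : (p : A) ^ 2 = 0 := by
      have := congrArg th (Pool.Agent.Q267.CDE.p_sq p)
      rw [map_pow, map_natCast, map_zero] at this
      exact this
    rw [hab, mul_pow, hpp, zero_mul]
  have h3' : th 3 = 3 := map_ofNat th 3
  have h2' : th 2 = 2 := map_ofNat th 2
  rw [h3', h2', ← map_sum th _ (range p)] at hS
  linear_combination 3 * hS + 2 * hd

include S in
/-- the sum modulo `p²` from the unit root -/
theorem sum_final (hp5 : 5 ≤ p) (hq : S.q = (p : O)) {z w : O} {m : ℤ} (hm : ¬ (p : ℤ) ∣ m)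
    (hmz : (m : O) * (z * (1 - z)) = 27) {wi : R p} (hwi : (m : R p) * wi = 1) (E : ℤ)
    (hE : (p : O) ^ 2 ∣ (E : O) * w ^ 2 - 1)
    (key : ∃ ε : O, ε ^ 2 = 1 ∧ (p : O) ^ 2 ∣ ε * w * (2 * lg (p / 3) z + lg (2 * p / 3) z) - 3) :
    ∑ k ∈ range p, (k.centralBinom : R p) * ((u3 k : ℕ) : R p) * wi ^ k = (E : R p) := by
  have := charQ S (p := p) hq
  set th : R p →+* QO O p := ZMod.castHom (dvd_refl _) (QO O p) with hth
  have thinj : Function.Injective th := ZMod.castHom_injective _
  set mk := Ideal.Quotient.mk (Ideal.span {(p : O) ^ 2}) with hmk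
  have mkz : ∀ x : O, (p : O) ^ 2 ∣ x → mk x = 0 := by
    intro x hx
    rw [Ideal.Quotient.eq_zero_iff_mem, Ideal.mem_span_singleton]
    exact hx
  have hmu : IsUnit ((m : R p)) := IsUnit.of_mul_eq_one _ hwi
  have hmu' : IsUnit (th (m : R p)) := hmu.map th
  have hz : mk z * (1 - mk z) = th (27 * wi) := by
    apply hmu'.mul_left_cancel
    rw [← map_mul th]
    have e : (m : R p) * (27 * wi) = 27 := by linear_combination 27 * hwi
    rw [e, map_ofNat, map_intCast]
    have := congrArg mk hmz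
    rw [map_mul, map_intCast, map_mul, map_sub, map_one, map_ofNat] at this
    exact this
  obtain ⟨h9, -⟩ := sum_sq (p := p) hp5 th (mk z) wi hz
  obtain ⟨ε, hε, hk⟩ := key
  have k1 := mkz _ hk
  rw [map_sub, map_mul, map_mul, map_add, map_mul, map_ofNat, map_ofNat, lg_cast, lg_cast] at k1
  have k2 := mkz _ hE
  rw [map_sub, map_mul, map_intCast, map_pow, map_one] at k2
  have hε' : mk ε ^ 2 = 1 := by rw [← map_pow, hε, map_one]
  apply thinj
  rw [map_intCast]
  have h9u : IsUnit (9 : R p) := by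
    have h3 : IsUnit (3 : R p) := by
      apply Pool.Agent.Q267.CDE.isUnit_of_red
      rw [map_ofNat]
      intro h
      have : ((3 : ℕ) : ZMod p) = 0 := by exact_mod_cast h
      rw [ZMod.natCast_eq_zero_iff] at this
      have := Nat.le_of_dvd (by norm_num) this
      omega
    have : (9 : R p) = 3 * 3 := by norm_num
    rw [this]; exact h3.mul h3
  have h9u' : IsUnit (9 : QO O p) := by
    have := h9u.map th
    rwa [map_ofNat] at this
  apply h9u'.mul_left_cancel
  rw [h9]
  set L := 2 * lg (p / 3) (mk z) + lg (2 * p / 3) (mk z) with hL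
  have k3 : mk ε * mk w * L = 3 := by linear_combination k1
  have k4 : mk w ^ 2 * L ^ 2 = 9 := by
    linear_combination (mk ε * mk w * L + 3) * k3 - (mk w ^ 2 * L ^ 2) * hε'
  linear_combination (E : QO O p) * k4 - L ^ 2 * k2

include S in
/-- the sum modulo `p²` in the supersingular case -/
theorem sum_zero (hp5 : 5 ≤ p) (hq : S.q = (p : O)) {z : O} {m : ℤ}
    (hmz : (m : O) * (z * (1 - z)) = 27) {wi : R p} (hwi : (m : R p) * wi = 1)
    (hss : S.red (lg (p / 3) z) = 0) :
    ∑ k ∈ range p, (k.centralBinom : R p) * ((u3 k : ℕ) : R p) * wi ^ k = 0 := by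
  have := charQ S (p := p) hq
  set th : R p →+* QO O p := ZMod.castHom (dvd_refl _) (QO O p) with hth
  have thinj : Function.Injective th := ZMod.castHom_injective _
  set mk := Ideal.Quotient.mk (Ideal.span {(p : O) ^ 2}) with hmk
  have hmu : IsUnit ((m : R p)) := IsUnit.of_mul_eq_one _ hwi
  have hmu' : IsUnit (th (m : R p)) := hmu.map th
  have hz : mk z * (1 - mk z) = th (27 * wi) := by
    apply hmu'.mul_left_cancel
    rw [← map_mul th]
    have e : (m : R p) * (27 * wi) = 27 := by linear_combination 27 * hwi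
    rw [e, map_ofNat, map_intCast]
    have := congrArg mk hmz
    rw [map_mul, map_intCast, map_mul, map_sub, map_one, map_ofNat] at this
    exact this
  obtain ⟨h9, hP⟩ := sum_sq (p := p) hp5 th (mk z) wi hz
  have hpp : (mk (p : O)) ^ 2 = 0 := by
    rw [← map_pow, Ideal.Quotient.eq_zero_iff_mem, Ideal.mem_span_singleton]
  obtain ⟨y, hy⟩ := (S.red_iff _).mp hss
  rw [hq] at hy
  have e1 : lg (p / 3) (mk z) = mk (p : O) * mk y := by rw [← lg_cast, hy, map_mul]
  -- the other polynomial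
  have hP' : mk (p : O) * lg (2 * p / 3) (mk z) = 0 := by
    have h1 : ((p : ℕ) : QO O p) = mk (p : O) := (map_natCast mk p).symm
    rw [h1] at hP
    rw [← hP, e1]
    linear_combination mk y * hpp
  have hb : ∃ y', lg (2 * p / 3) z = (p : O) * y' := by
    rw [← lg_cast, ← map_mul, Ideal.Quotient.eq_zero_iff_mem, Ideal.mem_span_singleton] at hP'
    obtain ⟨c, hc⟩ := hP'
    refine ⟨c, ?_⟩
    have hp0 : (p : O) ≠ 0 := by rw [← hq]; exact S.q_ne
    apply mul_left_cancel₀ hp0
    rw [hc]; ring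
  obtain ⟨y', hy'⟩ := hb
  have e2 : lg (2 * p / 3) (mk z) = mk (p : O) * mk y' := by rw [← lg_cast, hy', map_mul]
  apply thinj
  rw [map_zero]
  have h9u : IsUnit (9 : R p) := by
    have h3 : IsUnit (3 : R p) := by
      apply Pool.Agent.Q267.CDE.isUnit_of_red
      rw [map_ofNat]
      intro h
      have : ((3 : ℕ) : ZMod p) = 0 := by exact_mod_cast h
      rw [ZMod.natCast_eq_zero_iff] at this
      have := Nat.le_of_dvd (by norm_num) this
      omega
    have : (9 : R p) = 3 * 3 := by norm_num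
    rw [this]; exact h3.mul h3
  have h9u' : IsUnit (9 : QO O p) := by
    have := h9u.map th
    rwa [map_ofNat] at this
  apply h9u'.mul_left_cancel
  rw [h9, e1, e2, mul_zero]
  linear_combination (2 * mk y + mk y') ^ 2 * hpp

end sums

end Pool.Agent.H546
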