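import Pool.Agent.H546.WO

set_option autoImplicit false

/-!
# The Hasse invariant of the cubic family and isogenies
-/

namespace Pool.Agent.H546

open PowerSeries

section cart

variable {k : Type*} [Field k] {p : ℕ} [hp : Fact p.Prime] [CharP k p]

theorem pow_low (f : k⟦X⟧) (c : k) (hc : constantCoeff f = c) (H : k⟦X⟧) :
    coeff (p - 1) (f ^ p * H) = c ^ p * coeff (p - 1) H := by
  have hp0 := hp.out.pos
  have : CharP k⟦X⟧ p := by
    refine ⟨fun n => ?_⟩
    rw [← CharP.cast_eq_zero_iff k p n, ← map_natCast (C : k →+* k⟦X⟧)]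
    constructor
    · intro h
      have := congrArg constantCoeff h
      simpa using this
    · intro h; rw [h, map_zero]
  obtain ⟨h, hh⟩ : X ∣ f - C c := by
    rw [X_dvd_iff, map_sub, hc, constantCoeff_C, sub_self]
  have hf : f = C c + X * h := by rw [← hh]; ring
  have h1 : f ^ p = C (c ^ p) + X ^ p * h ^ p := by
    rw [hf, add_pow_char, mul_pow, map_pow]
  rw [h1, add_mul, map_add, coeff_C_mul, mul_assoc, coeff_X_dvd (by omega), add_zero]

theorem cart (u : k⟦X⟧) (hu : constantCoeff u = 0) (j : ℕ) :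
    coeff (p - 1) (u ^ j * d⁄dX k u) = if j = p - 1 then (coeff 1 u) ^ p else 0 := by
  have hp0 := hp.out.pos
  obtain ⟨v, hv⟩ : X ∣ u := by rw [X_dvd_iff, hu]
  split_ifs with h
  · rw [h]
    have hc1 : coeff 1 u = constantCoeff (d⁄dX k u) := by
      rw [← coeff_zero_eq_constantCoeff_apply, coeff_derivative]; simp
    have hc2 : constantCoeff v = coeff 1 u := by
      rw [hv, ← coeff_zero_eq_constantCoeff_apply]
      exact (coeff_succ_X_mul 0 v).symm
    rw [hv, mul_pow, ← hv, mul_assoc, coeff_low, map_mul, map_pow, ← hc1, hc2, ← pow_succ]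
    congr 1
    omega
  · rcases lt_or_gt_of_ne h with h1 | h1
    · have hj : ((j + 1 : ℕ) : k) ≠ 0 := small_ne (by omega) (by omega)
      have e : ((j + 1 : ℕ) : k) * coeff (p - 1) (u ^ j * d⁄dX k u) = 0 := by
        rw [← coeff_C_mul]
        have : C ((j + 1 : ℕ) : k) * (u ^ j * d⁄dX k u) = d⁄dX k (u ^ (j + 1)) := by
          rw [derivative_pow, Nat.add_sub_cancel, map_natCast]; ring
        rw [this, coeff_derivative]
        have : ((p - 1 : ℕ) : k) + 1 = ((p : ℕ) : k) := by
          rw [← Nat.cast_succ]; congr 1; omega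
        rw [this, CharP.cast_eq_zero, mul_zero]
      exact (mul_eq_zero.mp e).resolve_left hj
    · rw [hv, mul_pow, mul_assoc, coeff_X_dvd (by omega)]

theorem cart_poly (u : k⟦X⟧) (hu : constantCoeff u = 0) (P : Polynomial k) :
    coeff (p - 1) (Polynomial.aeval u P * d⁄dX k u) = P.coeff (p - 1) * (coeff 1 u) ^ p := by
  rw [Polynomial.aeval_eq_sum_range' (n := P.natDegree + p + 1) (by omega), Finset.sum_mul, map_sum]
  rw [Finset.sum_eq_single (p - 1)]
  · rw [smul_mul_assoc, coeff_smul, cart u hu, if_pos rfl, smul_eq_mul]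
  · intro j _ hj
    rw [smul_mul_assoc, coeff_smul, cart u hu, if_neg hj, smul_zero]
  · intro h
    exact absurd (Finset.mem_range.mpr (by omega)) h

end cart

/-- the Hasse coefficient -/
noncomputable def hs {k : Type*} [CommRing k] (p : ℕ) (A : k) : k := ((wu A) ^ ((p - 1) / 2)).coeff (p - 1)

section

variable {k : Type*} [Field k] {p : ℕ} [hp : Fact p.Prime] [CharP k p]

theorem hs_lg (hp2 : p ≠ 2) (hp3 : p ≠ 3) (z : k) : hs p (4 * z) = lg (p / 3) z := by
  obtain ⟨e, he⟩ := hp.out.odd_of_ne_two hp2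
  have hp1 : p % 3 ≠ 0 := by
    intro h
    have := (Nat.prime_dvd_prime_iff_eq Nat.prime_three hp.out).mp (Nat.dvd_of_mod_eq_zero h)
    omega
  rw [← cs3_coeff z p hp1]
  have e1 : (p - 1) / 2 = e := by omega
  have h1 := cart_poly (k := k) (p := p) (us k) (us_const) (wu (4 * z) ^ e)
  have hu1 : coeff 1 (us k) = 1 := by
    have := us_der_const (R := k)
    rwa [← coeff_zero_eq_constantCoeff_apply, coeff_derivative, Nat.cast_zero, zero_add, zero_add,
      mul_one] at this
  rw [hu1, one_pow, mul_one] at h1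
  unfold hs
  rw [e1, ← h1, map_pow, fam_alg, us_der]
  have hps := ps3_sq z
  have h2 : (g1 k ^ 3) ^ p * cs3 z = ps3 z ^ p *
      ((g1 k ^ 6 * ((1 - X ^ 3) ^ 2 + 4 * C z * X ^ 3)) ^ e * (g1 k ^ 3 * (1 + X))) := by
    have h3 := congrArg (fun x => x ^ e) hps
    simp only [one_pow] at h3
    unfold cs3
    rw [he]
    rw [mul_pow] at h3
    rw [mul_pow]
    have hh : ps3 z ^ (2 * e + 1) = ps3 z * (ps3 z ^ 2) ^ e := by ring
    have hg : (g1 k ^ 3) ^ (2 * e + 1) = (g1 k ^ 6) ^ e * g1 k ^ 3 := by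
      rw [← pow_mul, ← pow_mul, ← pow_add]; congr 1; ring
    rw [hh, hg]
    linear_combination (-((g1 k ^ 6) ^ e * g1 k ^ 3 * (1 + X) * ps3 z)) * h3
  have h4 := congrArg (coeff (p - 1)) h2
  have hc1 : constantCoeff (g1 k ^ 3) = 1 := by rw [map_pow, g1_const, one_pow]
  have hc2 : constantCoeff (ps3 z) = 1 := by
    rw [← coeff_zero_eq_constantCoeff_apply, ps3_coeff]
    simp [lg_zero]
  rw [pow_low _ _ hc1, pow_low _ _ hc2, one_pow, one_mul, one_mul] at h4
  rw [h4]

/-- **Isogenies and the Hasse coefficient.** -/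
theorem hasse_u (hp2 : p ≠ 2) {A A' m : k} {N D : Polynomial k} (hN : N.coeff 0 = 0)
    (hD : D.coeff 0 ≠ 0) (hm : m ≠ 0) (ode : wu A * wr N D ^ 2 = Polynomial.C m ^ 2 * tu A' N D) :
    m * hs p A = m ^ p * hs p A' := by
  obtain ⟨e, he⟩ := hp.out.odd_of_ne_two hp2
  have e1 : (p - 1) / 2 = e := by omega
  set al : Polynomial k →+* k⟦X⟧ := Polynomial.coeToPowerSeries.ringHom with hal
  have alC : ∀ c : k, al (Polynomial.C c) = C c := fun c => by simp [hal]
  have alX : al Polynomial.X = X := by simp [hal]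
  have alc : ∀ P : Polynomial k, constantCoeff (al P) = P.coeff 0 := fun P => by
    rw [← coeff_zero_eq_constantCoeff_apply]; simp [hal]
  have alD : ∀ P : Polynomial k, d⁄dX k (al P) = al (Polynomial.derivative P) := by
    intro P; simp [hal, derivative_coe]
  have hDu : IsUnit (al D) := by
    rw [PowerSeries.isUnit_iff_constantCoeff, alc]
    exact isUnit_iff_ne_zero.mpr hD
  obtain ⟨iD, hiD⟩ := hDu.exists_left_inv
  set U := al N * iD with hU
  have hiD' : d⁄dX k iD = - iD ^ 2 * (al (Polynomial.derivative D)) := by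
    have h := congrArg (d⁄dX k) hiD
    rw [Derivation.leibniz, derivative_one, smul_eq_mul, smul_eq_mul, alD] at h
    linear_combination iD * h - (d⁄dX k iD) * hiD
  have hdU : d⁄dX k U = al (wr N D) * iD ^ 2 := by
    rw [hU, Derivation.leibniz, smul_eq_mul, smul_eq_mul, alD, hiD', wr, map_sub, map_mul, map_mul]
    linear_combination (-(iD * al (Polynomial.derivative N))) * hiD
  have hU0 : constantCoeff U = 0 := by rw [hU, map_mul, alc, hN, zero_mul]
  have hwU : Polynomial.aeval U (wu A') = C A' * U ^ 3 + (3 * U + 1) ^ 2 := by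
    simp only [wu, map_add, map_mul, map_pow, map_one, Polynomial.aeval_X, Polynomial.aeval_C,
      map_ofNat]
    rfl
  -- the differential equation
  have hode := congrArg al ode
  have hCm : C m * C m⁻¹ = (1 : k⟦X⟧) := by rw [← map_mul, mul_inv_cancel₀ hm, map_one]
  have key : Polynomial.aeval U (wu A') = al (wu A) * (C m⁻¹ * d⁄dX k U) ^ 2 := by
    rw [hwU, hdU]
    simp only [tu, map_mul, map_pow, map_add, alC, map_ofNat] at hode
    rw [hU]
    linear_combination (-(C m⁻¹ ^ 2 * iD ^ 4)) * hode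
      + (-(C m * C m⁻¹ + 1) * (al D * iD ^ 4 * (C A' * al N ^ 3 + (3 * al N + al D) ^ 2 * al D))) * hCm
      + (-(iD ^ 3 * C A' * al N ^ 3) - (1 + al D * iD) * iD ^ 2 * (3 * al N + al D) ^ 2
        - (6 * al N * iD + al D * iD + 1) ) * hiD
  have hke : Polynomial.aeval U (wu A' ^ e) * d⁄dX k U =
      C (m⁻¹ ^ (2 * e)) * ((d⁄dX k U) ^ p * al (wu A ^ e)) := by
    rw [map_pow, key, he, map_pow, map_pow]
    ring
  have h1 := cart_poly (k := k) (p := p) U hU0 (wu A' ^ e)
  have hc1 : constantCoeff (d⁄dX k U) = coeff 1 U := by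
    rw [← coeff_zero_eq_constantCoeff_apply, coeff_derivative]; simp
  rw [hke, coeff_C_mul, pow_low _ _ hc1] at h1
  have hcoe : coeff (p - 1) (al (wu A ^ e)) = (wu A ^ e).coeff (p - 1) := Polynomial.coeff_coe _ _
  rw [hcoe] at h1
  -- the linear coefficient is not zero
  have hne : coeff 1 U ≠ 0 := by
    intro h0
    have h2 := congrArg constantCoeff key
    rw [hwU, map_mul, map_pow, map_mul, hc1, h0, map_add, map_mul, map_pow, hU0, map_pow, map_add,
      map_mul, hU0, map_one] at h2
    simp at h2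
  unfold hs
  rw [e1]
  have h3 : m⁻¹ ^ (2 * e) * (wu A ^ e).coeff (p - 1) = (wu A' ^ e).coeff (p - 1) := by
    apply mul_right_cancel₀ (pow_ne_zero p hne)
    rw [← h1]; ring
  rw [← h3, he]
  have hmm : m ^ (2 * e) * m⁻¹ ^ (2 * e) = 1 := by
    rw [← mul_pow, mul_inv_cancel₀ hm, one_pow]
  rw [pow_succ]
  linear_combination (-(m * (wu A ^ e).coeff (2 * e + 1 - 1))) * hmm

/-- the same in Weierstrass coordinates -/
theorem hasse_w (hp2 : p ≠ 2) {A A' m : k} (hA' : A' ≠ 0) {n d : Polynomial k}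
    (h3 : n.eval 3 = 3 * d.eval 3) (hd : d.eval 3 ≠ 0) (hm : m ≠ 0)
    (ode : cub (ca A) (cb A) * wr n d ^ 2 = Polynomial.C m ^ 2 * tgt (ca A') (cb A') n d) :
    m * hs p A = m ^ p * hs p A' := by
  set L : Polynomial k := Polynomial.C A * Polynomial.X + 3 with hL
  have hCA' : Polynomial.C A'⁻¹ * Polynomial.C A' = (1 : Polynomial k) := by
    rw [← Polynomial.C_mul, inv_mul_cancel₀ hA', Polynomial.C_1]
  have hL3 : L.eval 0 = 3 := by simp [hL]
  refine hasse_u hp2 (N := Polynomial.C A'⁻¹ * (n.comp L - Polynomial.C 3 * d.comp L)) (D := d.comp L)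
    ?_ ?_ hm ?_
  · rw [Polynomial.coeff_zero_eq_eval_zero, Polynomial.eval_mul, Polynomial.eval_sub,
      Polynomial.eval_mul, Polynomial.eval_comp, Polynomial.eval_comp, hL3, Polynomial.eval_C,
      Polynomial.eval_C, h3, sub_self, mul_zero]
  · rw [Polynomial.coeff_zero_eq_eval_zero, Polynomial.eval_comp, hL3]
    exact hd
  · have hcomp := congrArg (fun P => P.comp L) ode
    simp only [Polynomial.mul_comp, Polynomial.pow_comp, Polynomial.C_comp] at hcomp
    rw [hL, cub_comp, ← hL] at hcomp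
    have ht : (tgt (ca A') (cb A') n d).comp L =
        tgt (ca A') (cb A') (Polynomial.C A' * (Polynomial.C A'⁻¹ *
          (n.comp L - Polynomial.C 3 * d.comp L)) + 3 * d.comp L) (d.comp L) := by
      have : Polynomial.C A' * (Polynomial.C A'⁻¹ *
          (n.comp L - Polynomial.C 3 * d.comp L)) + 3 * d.comp L = n.comp L := by
        have h3 : (Polynomial.C 3 : Polynomial k) = 3 := map_ofNat _ 3
        rw [h3]
        linear_combination (n.comp L - 3 * d.comp L) * hCA'
      rw [this]
      simp only [tgt, Polynomial.mul_comp, Polynomial.add_comp, Polynomial.pow_comp, Polynomial.C_comp]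
    rw [ht, tgt_tu] at hcomp
    rw [wr_sub, hL, wr_comp, ← hL]
    linear_combination Polynomial.C A'⁻¹ ^ 2 * hcomp + Polynomial.C m ^ 2 *
      tu A' (Polynomial.C A'⁻¹ * (n.comp L - Polynomial.C 3 * d.comp L)) (d.comp L) *
      (Polynomial.C A'⁻¹ * Polynomial.C A' + 1) * hCA'

end

/-- the reflection of Legendre polynomials -/
theorem lg_neg {R : Type*} [CommRing R] (n : ℕ) (z : R) : lg n (1 - z) = (-1) ^ n * lg n z := by
  have key : ∀ n : ℕ, lg n (1 - (Polynomial.X : Polynomial ℤ)) = (-1) ^ n * lg n Polynomial.X := by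
    intro n
    induction n using Nat.strong_induction_on with
    | _ n ih =>
      rcases n with _ | _ | n
      · simp [lg_zero]
      · rw [lg_one, lg_one]; ring
      · have h1 := lg_rec n (1 - (Polynomial.X : Polynomial ℤ))
        have h2 := lg_rec n (Polynomial.X : Polynomial ℤ)
        have h3 := ih n (by omega)
        have h4 := ih (n + 1) (by omega)
        rw [h3, h4] at h1
        have hne : ((n : Polynomial ℤ) + 2) ≠ 0 := by
          have : ((n : Polynomial ℤ) + 2) = ((n + 2 : ℕ) : Polynomial ℤ) := by push_cast; ring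
          rw [this]
          exact Nat.cast_ne_zero.mpr (by omega)
        apply mul_left_cancel₀ hne
        rw [h1]
        ring_nf
        ring_nf at h2
        linear_combination (-((-1) ^ n)) * h2
  have h := congrArg (Polynomial.aeval z : Polynomial ℤ →ₐ[ℤ] R).toRingHom (key n)
  rw [lg_cast, map_mul, lg_cast] at h
  simpa using h

end Pool.Agent.H546
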