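import Pool.Agent.H546.QMod
import Pool.Agent.H546.Dat

set_option autoImplicit false

/-!
# Composition with the 2-isogeny of the quartic family
-/

namespace Pool.Agent.H546

open Polynomial

variable {O K k : Type*} [CommRing O] [IsDomain O] [Field K] [Algebra O K] [Field k]
  (S : DV O K k)

/-- numerator and denominator of the composite with the 2-isogeny -/
noncomputable def mN {R : Type*} [CommRing R] (z : R) (n d : R[X]) : R[X] :=
  -((n + 12 * d) ^ 2 - 12 * (n + 12 * d) * d + 324 * C z * d ^ 2)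

noncomputable def mD {R : Type*} [CommRing R] (n d : R[X]) : R[X] := 2 * (n + 12 * d) * d

theorem mN_map {R T : Type*} [CommRing R] [CommRing T] (g : R →+* T) (z : R) (n d : R[X]) :
    (mN z n d).map g = mN (g z) (n.map g) (d.map g) := by
  simp [mN]

theorem mD_map {R T : Type*} [CommRing R] [CommRing T] (g : R →+* T) (n d : R[X]) :
    (mD n d).map g = mD (n.map g) (d.map g) := by
  simp [mD]

theorem m_wr {R : Type*} [CommRing R] (z : R) (n d : R[X]) :
    wr (mN z n d) (mD n d) = -2 * ((n + 12 * d) ^ 2 - 324 * C z * d ^ 2) * wr n d := by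
  simp only [wr, mN, mD, derivative_neg, derivative_add, derivative_mul, derivative_sub,
    derivative_pow, derivative_C, derivative_ofNat]
  push_cast
  simp only [map_ofNat]
  ring

theorem m_tgt {R : Type*} [CommRing R] (z : R) (n d : R[X]) :
    tgt (qa (1 - z)) (qb (1 - z)) (mN z n d) (mD n d) =
      -2 * ((n + 12 * d) ^ 2 - 324 * C z * d ^ 2) ^ 2 * tgt (qa z) (qb z) n d := by
  simp only [tgt, mN, mD, qa, qb, C_add, C_sub, C_mul, C_1, map_ofNat]
  ring

theorem m_cop {F : Type*} [Field F] {z : F} (h2 : (2 : F) ≠ 0) (h3 : (3 : F) ≠ 0) (hz : z ≠ 0)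
    {n d : F[X]} (h : IsCoprime n d) : IsCoprime (mN z n d) (mD n d) := by
  have hed : IsCoprime (n + 12 * d) d := by
    obtain ⟨a, b, hab⟩ := h
    exact ⟨a, b - 12 * a, by linear_combination hab⟩
  set e := n + 12 * d with he
  have hN : mN z n d = -(e ^ 2 - 12 * e * d + 324 * C z * d ^ 2) := by
    unfold mN; rw [← he]
  have c1 : IsCoprime (mN z n d) d := by
    have : mN z n d = -(e ^ 2) + d * (12 * e - 324 * C z * d) := by
      rw [hN]; ring
    rw [this]
    exact (hed.pow_left.neg_left).add_mul_left_left _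
  have hu : IsUnit (C (-(324 * z)) : F[X]) := by
    apply isUnit_C.mpr
    apply isUnit_iff_ne_zero.mpr
    have : (324 : F) = 2 * 2 * (3 * 3 * (3 * 3)) := by norm_num
    rw [this]
    exact neg_ne_zero.mpr (mul_ne_zero (mul_ne_zero (mul_ne_zero h2 h2) (mul_ne_zero (mul_ne_zero h3 h3)
      (mul_ne_zero h3 h3))) hz)
  have c2 : IsCoprime (mN z n d) e := by
    have : mN z n d = C (-(324 * z)) * d ^ 2 + e * (-(e - 12 * d)) := by
      rw [hN, C_neg, C_mul, map_ofNat]; ring
    rw [this]
    apply IsCoprime.add_mul_left_left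
    rw [isCoprime_mul_unit_left_left hu]
    exact hed.symm.pow_left
  unfold mD
  rw [← he]
  have hu2 : IsUnit (2 : F[X]) := by
    have : (2 : F[X]) = C 2 := (map_ofNat C 2).symm
    rw [this]
    exact isUnit_C.mpr (isUnit_iff_ne_zero.mpr h2)
  refine IsCoprime.mul_right (IsCoprime.mul_right ?_ c2) c1
  exact (isCoprime_one_right.of_isCoprime_of_dvd_right hu2.dvd)

theorem m_e {R : Type*} [CommRing R] [IsDomain R] {n d : R[X]} (h : d.natDegree < n.natDegree) :
    (n + 12 * d).natDegree = n.natDegree := by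
  apply natDegree_add_eq_left_of_natDegree_lt
  refine lt_of_le_of_lt ?_ h
  have : (12 : R[X]) * d = C 12 * d := by rw [map_ofNat]
  rw [this]; exact natDegree_C_mul_le _ _

theorem mN_deg {R : Type*} [CommRing R] [IsDomain R] (z : R) {n d : R[X]} (h : d.natDegree < n.natDegree) :
    (mN z n d).natDegree = 2 * n.natDegree := by
  have he := m_e h
  set e := n + 12 * d with hee
  have hN : mN z n d = -(e ^ 2 + (C (-12) * e * d + C (324 * z) * d ^ 2)) := by
    unfold mN; rw [← hee]
    simp only [C_mul, map_neg, map_ofNat]; ring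
  rw [hN, natDegree_neg, natDegree_add_eq_left_of_natDegree_lt]
  · rw [natDegree_pow, he]
  · rw [natDegree_pow, he]
    have k2 : (C (-12) * e * d).natDegree < 2 * n.natDegree := by
      refine lt_of_le_of_lt natDegree_mul_le ?_
      have := natDegree_C_mul_le (-12 : R) e
      omega
    have k3 : (C (324 * z) * d ^ 2).natDegree < 2 * n.natDegree := by
      refine lt_of_le_of_lt (natDegree_C_mul_le _ _) ?_
      rw [natDegree_pow]
      omega
    exact lt_of_le_of_lt (natDegree_add_le _ _) (max_lt k2 k3)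

theorem mD_ne {R : Type*} [CommRing R] [IsDomain R] (h2 : (2 : R) ≠ 0) {n d : R[X]} (hd : d ≠ 0)
    (h : d.natDegree < n.natDegree) : mD n d ≠ 0 ∧ (mD n d).natDegree < 2 * n.natDegree := by
  have he := m_e h
  have he0 : n + 12 * d ≠ 0 := by intro h0; rw [h0] at he; simp at he; omega
  have h2' : (2 : R[X]) ≠ 0 := by
    have : (2 : R[X]) = C 2 := (map_ofNat C 2).symm
    rw [this]; exact C_ne_zero.mpr h2
  refine ⟨mul_ne_zero (mul_ne_zero h2' he0) hd, ?_⟩
  unfold mD
  have : (2 : R[X]) * (n + 12 * d) * d = C 2 * ((n + 12 * d) * d) := by rw [map_ofNat]; ring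
  rw [this]
  refine lt_of_le_of_lt (natDegree_C_mul_le _ _) ?_
  refine lt_of_le_of_lt natDegree_mul_le ?_
  rw [he]
  omega

/-- composition with the 2-isogeny -/
theorem Dat.mu {f : O[X]} {z m r : O} {l : ℕ} (h : Dat S f (qa z) (qb z) m l) (h2 : (2 : k) ≠ 0)
    (h3 : (3 : k) ≠ 0) (hz : S.red z ≠ 0) (hr : r ^ 2 = -2) :
    Dat S f (qa (1 - z)) (qb (1 - z)) (m * r) (2 * l) := by
  obtain ⟨n, d, ode, hd, hdeg, hnl, copK, copk, hl⟩ := h
  have h2O : (2 : O) ≠ 0 := by
    intro h0
    apply h2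
    have := congrArg S.red h0
    simpa [map_ofNat] using this
  have h3O : (3 : O) ≠ 0 := by
    intro h0
    apply h3
    have := congrArg S.red h0
    simpa [map_ofNat] using this
  have hz0 : z ≠ 0 := by rintro rfl; exact hz (map_zero _)
  have h2K := twoK S h2
  have h3K : (3 : K) ≠ 0 := by
    intro h0
    apply h3O
    apply S.inj
    simpa [map_ofNat] using h0
  have hzK : algebraMap O K z ≠ 0 := fun h0 => hz0 (S.inj (by rw [h0, map_zero]))
  refine ⟨mN z n d, mD n d, ?_, (mD_ne h2O hd hdeg).1, ?_, ?_, ?_, ?_, ?_⟩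
  · rw [m_wr, m_tgt, C_mul]
    have hrC : (C r : O[X]) ^ 2 = -2 := by rw [← C_pow, hr, C_neg, map_ofNat]
    linear_combination (4 * ((n + 12 * d) ^ 2 - 324 * C z * d ^ 2) ^ 2) * ode +
      (2 * ((n + 12 * d) ^ 2 - 324 * C z * d ^ 2) ^ 2 * C m ^ 2 * tgt (qa z) (qb z) n d) * hrC
  · rw [mN_deg z hdeg]; exact (mD_ne h2O hd hdeg).2
  · rw [mN_deg z hdeg, hnl]
  · rw [mN_map, mD_map]; exact m_cop h2K h3K hzK copK
  · rw [mN_map, mD_map]; exact m_cop h2 h3 hz copk
  · rw [mN_map, mN_deg z hdeg, mN_deg _ ?_, hl]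
    rw [hl]
    exact lt_of_le_of_lt natDegree_map_le hdeg

end Pool.Agent.H546
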