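import Pool.Agent.H546.QKey
import Pool.Agent.H546.QNu
import Pool.Agent.H546.Fin3
import Pool.Agent.H546.Hasse

set_option autoImplicit false

/-!
# The unit root modulo `p²` of the quartic family from two isogenies, and the Hasse invariant
-/

namespace Pool.Agent.H546

variable {O K k : Type*} [CommRing O] [IsDomain O] [Field K] [Algebra O K] [Field k]
  (S : DV O K k)

/-- **The unit root from two isogenies.** -/
theorem lift4 {p : ℕ} [hp : Fact p.Prime] [CharP k p] [IsAlgClosed k] (hp5 : 5 ≤ p) (hq : S.q = (p : O))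
    {z z' : O} (hz : S.red z ≠ 0) (hz1 : S.red (1 - z) ≠ 0) (hz' : S.red z' = S.red z ^ p)
    (ha0 : S.red (qa z) ≠ 0) (hb0 : S.red (qb z) ≠ 0) {m1 m2 : O} {l1 l2 : ℕ}
    (hm1 : m1 ≠ 0) (hm2 : m2 ≠ 0)
    (d1 : Dat S (cub (qa z) (qb z)) (qa z') (qb z') m1 l1)
    (d2 : Dat S (cub (qa z) (qb z)) (qa z') (qb z') m2 l2)
    (r s t0 : ℤ) (hform : (p : ℤ) = r ^ 2 * l1 + r * s * t0 + s ^ 2 * l2)
    (hr : ¬ (p : ℤ) ∣ r) (hs : ¬ (p : ℤ) ∣ s) (ht0 : t0 ^ 2 ≤ 4 * l1 * l2)
    (hbig : 16 * (l1 * l2) < p ^ 2) {w : O} (hc : (r : O) * m1 + (s : O) * m2 = p * w)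
    (hw : S.red w ≠ 0) :
    ∃ ε : O, (ε = 1 ∨ ε = -1) ∧ (p : O) ^ 2 ∣ ε * w * (3 * lg (p / 4) z + lg (3 * p / 4) z) - 4 := by
  classical
  have h2 : (2 : k) ≠ 0 := by
    have := small_ne (k := k) (p := p) (n := 2) (by norm_num) (by omega)
    exact_mod_cast this
  have h3 : (3 : k) ≠ 0 := by
    have := small_ne (k := k) (p := p) (n := 3) (by norm_num) (by omega)
    exact_mod_cast this
  have frob : ∀ x : k, x ^ p = frobenius k p x := fun x => rfl
  have haa : S.red (qa z') = S.red (qa z) ^ p := by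
    rw [qa_map, qa_map, hz', frob, frob]
    simp only [qa, map_sub, map_mul, map_ofNat]
  have hbb : S.red (qb z') = S.red (qb z) ^ p := by
    rw [qb_map, qb_map, hz', frob, frob]
    simp only [qb, map_sub, map_mul, map_ofNat]
  have hz0 : S.red z' ≠ 0 := by rw [hz']; exact pow_ne_zero _ hz
  have hΔ1 : S.red (4 * qa z ^ 3 + 27 * qb z ^ 2) ≠ 0 := by
    rw [discq]
    have : (-136048896 * (z ^ 2 * (1 - z)) : O) = -((2 ^ 8 * 3 ^ 12) * z ^ 2 * (1 - z)) := by ring
    rw [this, map_neg]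
    refine neg_ne_zero.mpr ?_
    rw [map_mul, map_mul, map_mul, map_pow, map_pow, map_pow, map_ofNat, map_ofNat]
    exact mul_ne_zero (mul_ne_zero (mul_ne_zero (pow_ne_zero _ h2) (pow_ne_zero _ h3))
      (pow_ne_zero _ hz)) hz1
  have hΔ2 : S.red (4 * qa z' ^ 3 + 27 * qb z' ^ 2) ≠ 0 := by
    have e : S.red (4 * qa z' ^ 3 + 27 * qb z' ^ 2) =
        S.red (4 * qa z ^ 3 + 27 * qb z ^ 2) ^ p := by
      rw [map_add, map_mul, map_mul, map_pow, map_pow, haa, hbb, frob, frob, frob, map_add, map_mul,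
        map_mul, map_pow, map_pow]
      simp only [map_add, map_mul, map_pow, map_ofNat]
    rw [e]
    exact pow_ne_zero _ hΔ1
  have hf0 := cub_ne (qa z) (qb z)
  have hlead : S.red (cub (qa z) (qb z)).leadingCoeff ≠ 0 := by
    have : (cub (qa z) (qb z)).leadingCoeff = 1 := by
      have hd : (cub (qa z) (qb z)).natDegree = 3 := by
        unfold cub; compute_degree!
      rw [Polynomial.leadingCoeff, hd]
      simp [cub, Polynomial.coeff_X, Polynomial.coeff_C]
    rw [this, map_one]; exact one_ne_zero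
  obtain ⟨P1, g1, n1, e1⟩ := d1.point S hf0 h2 hΔ2 hm1
  obtain ⟨P2, g2, n2, e2⟩ := d2.point S hf0 h2 hΔ2 hm2
  have hcr : S.red ((r : O) * m1 + (s : O) * m2) = 0 := by
    rw [hc, ← hq, map_mul, S.red_q, zero_mul]
  obtain ⟨nv, gv', hv⟩ := form_value S (p := p) hlead h2 hΔ2 g1 n1 g2 n2 r s t0
    (by rw [e1, e2]; exact hform) hr hs (by rw [e1, e2]; exact ht0) (by rw [e1, e2]; exact hbig) hcr
  rw [hc, ← hq] at gv'
  obtain ⟨n, d, M, f1, f2, f3, f4, f5, f6⟩ := frob_struct S (p := p) (by omega) (by omega) haa hbb ha0 hb0 hΔ1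
    nv gv' hv hw
  obtain ⟨N, D, M', u1, u2, u3', u4, u5, u6⟩ := to_v S (by omega) f1 f2 f3 f4 f5 f6
  obtain ⟨N2, D2, M2, v1, v2, v3, v4, v5, v6, v7⟩ := to_uv S (by omega) hz0 hw u1 u2 u3' u4 u5 u6
  obtain ⟨ε, hε, hk⟩ := key4 S (by omega) hq hz hz' hw v1 v2 v3 v4 v5 v6 v7
  rw [hq] at hk
  have hodd : p % 4 = 1 ∨ p % 4 = 3 := by
    rcases hp.out.eq_two_or_odd with h | h <;> omega
  rcases hodd with h | h
  · rw [cs4_coeff1 z p h, cs4_coeff3 z (3 * p) (by omega)] at hk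
    refine ⟨ε, hε, ?_⟩
    have : 3 * lg (p / 4) z + lg (3 * p / 4) z = 3 * lg (p / 4) z - -lg (3 * p / 4) z := by ring
    rw [this]; exact hk
  · rw [cs4_coeff3 z p h, cs4_coeff1 z (3 * p) (by omega)] at hk
    refine ⟨-ε, by rcases hε with h | h <;> rw [h] <;> simp, ?_⟩
    have : -ε * w * (3 * lg (p / 4) z + lg (3 * p / 4) z) = ε * w * (3 * -lg (p / 4) z - lg (3 * p / 4) z) := by ring
    rw [this]; exact hk

section hasse

open PowerSeries

variable {k : Type*} [Field k] {p : ℕ} [hp : Fact p.Prime] [CharP k p]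

/-- the Hasse coefficient -/
noncomputable def h4 {k : Type*} [CommRing k] (p : ℕ) (z : k) : k :=
  ((Polynomial.X * gu z) ^ ((p - 1) / 2)).coeff (p - 1)

theorem h4_cs (hp2 : p ≠ 2) (z : k) : h4 p z = coeff (p - 1) (cs4 z) := by
  obtain ⟨e, he⟩ := hp.out.odd_of_ne_two hp2
  have e1 : (p - 1) / 2 = e := by omega
  have h1 := cart_poly (k := k) (p := p) (ys (-1 : k)) (ys_const _) (((gu z).comp (Polynomial.X ^ 2)) ^ e)
  have hu1 : coeff 1 (ys (-1 : k)) = 1 := by
    have := coeff_ys_pow (-1 : k) 0 0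
    simpa using this
  rw [hu1, one_pow, mul_one] at h1
  have hcoe : (((gu z).comp (Polynomial.X ^ 2)) ^ e).coeff (p - 1) = h4 p z := by
    unfold h4
    rw [e1, mul_pow, ← Polynomial.pow_comp, ← Polynomial.expand_eq_comp_X_pow,
      show p - 1 = e * 2 by omega, Polynomial.coeff_expand_mul (by norm_num), Polynomial.coeff_X_pow_mul',
      if_pos (by omega)]
    congr 1; omega
  rw [hcoe] at h1
  rw [← h1, map_pow]
  have hfam := fam4 z
  have hal : Polynomial.aeval (ys (-1 : k)) ((gu z).comp (Polynomial.X ^ 2)) =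
      gq (-1 : k) 0 ^ 4 * ((1 - X ^ 4) ^ 2 + 4 * C z * X ^ 4) := by
    rw [← hfam, Polynomial.aeval_comp, map_pow, Polynomial.aeval_X]
    simp only [gu, map_add, map_sub, map_mul, map_pow, map_one, map_ofNat, Polynomial.aeval_X, Polynomial.aeval_C]
    rfl
  rw [hal, ys_der]
  have hps := ps4_sq z
  set g := gq (-1 : k) 0 with hg
  have h2 : (g ^ 2) ^ p * cs4 z = ps4 z ^ p *
      ((g ^ 4 * ((1 - X ^ 4) ^ 2 + 4 * C z * X ^ 4)) ^ e * (g ^ 2 * (1 + C (-1 : k) * X ^ 2))) := by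
    have h3 := congrArg (fun x => x ^ e) hps
    simp only [one_pow] at h3
    have hC : (C (-1 : k)) = (-1 : k⟦X⟧) := by simp
    unfold cs4
    rw [he, hC]
    rw [mul_pow] at h3
    rw [mul_pow]
    have hh : ps4 z ^ (2 * e + 1) = ps4 z * (ps4 z ^ 2) ^ e := by ring
    have hgg : (g ^ 2) ^ (2 * e + 1) = (g ^ 4) ^ e * g ^ 2 := by
      rw [← pow_mul, ← pow_mul, ← pow_add]; congr 1; ring
    rw [hh, hgg]
    linear_combination (-((g ^ 4) ^ e * g ^ 2 * (1 - X ^ 2) * ps4 z)) * h3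
  have h4' := congrArg (coeff (p - 1)) h2
  have hc1 : constantCoeff (g ^ 2) = 1 := by rw [map_pow, hg, gq_const, one_pow]
  have hc2 : constantCoeff (ps4 z) = 1 := by
    rw [← coeff_zero_eq_constantCoeff_apply, ps4_coeff]
    simp [lg_zero]
  rw [pow_low _ _ hc1, pow_low _ _ hc2, one_pow, one_mul, one_mul] at h4'
  rw [h4']

/-- the Hasse coefficient as a Legendre polynomial -/
theorem h4_lg (hp2 : p ≠ 2) : ∃ χ : ℤ, (χ = 1 ∨ χ = -1) ∧ ∀ z : k, h4 p z = χ * lg (p / 4) z := by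
  have hodd : p % 4 = 1 ∨ p % 4 = 3 := by
    rcases hp.out.eq_two_or_odd with h | h <;> omega
  rcases hodd with h | h
  · exact ⟨1, Or.inl rfl, fun z => by rw [h4_cs hp2, cs4_coeff1 z p h]; simp⟩
  · exact ⟨-1, Or.inr rfl, fun z => by rw [h4_cs hp2, cs4_coeff3 z p h]; simp⟩

/-- **Isogenies and the Hasse coefficient.** -/
theorem hasse4 (hp2 : p ≠ 2) {z z' m : k} {N D : Polynomial k} (hN : N.coeff 0 = 0) (hN1 : N.coeff 1 ≠ 0)
    (hD : D.coeff 0 ≠ 0) (hm : m ≠ 0) (ode : Polynomial.X * gu z * wr N D ^ 2 = Polynomial.C m ^ 2 *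
      (N * D * (D ^ 2 - 4 * D * N + Polynomial.C (4 * z') * N ^ 2))) :
    m * h4 p z = m ^ p * h4 p z' := by
  obtain ⟨e, he⟩ := hp.out.odd_of_ne_two hp2
  have e1 : (p - 1) / 2 = e := by omega
  set al : Polynomial k →+* k⟦X⟧ := Polynomial.coeToPowerSeries.ringHom with hal
  have alC : ∀ c : k, al (Polynomial.C c) = C c := fun c => by simp [hal]
  have alX : al Polynomial.X = X := by simp [hal]
  have alc : ∀ P : Polynomial k, constantCoeff (al P) = P.coeff 0 := fun P => by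
    rw [← coeff_zero_eq_constantCoeff_apply]; simp [hal]
  have alD : ∀ P : Polynomial k, d⁄dX k (al P) = al (Polynomial.derivative P) := by
    intro P; simp [hal, derivative_coe]
  have hDu : IsUnit (al D) := by
    rw [PowerSeries.isUnit_iff_constantCoeff, alc]
    exact isUnit_iff_ne_zero.mpr hD
  obtain ⟨iD, hiD⟩ := hDu.exists_left_inv
  set U := al N * iD with hU
  have hiD' : d⁄dX k iD = - iD ^ 2 * (al (Polynomial.derivative D)) := by
    have h := congrArg (d⁄dX k) hiD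
    rw [Derivation.leibniz, derivative_one, smul_eq_mul, smul_eq_mul, alD] at h
    linear_combination iD * h - (d⁄dX k iD) * hiD
  have hdU : d⁄dX k U = al (wr N D) * iD ^ 2 := by
    rw [hU, Derivation.leibniz, smul_eq_mul, smul_eq_mul, alD, hiD', wr, map_sub, map_mul, map_mul]
    linear_combination (-(iD * al (Polynomial.derivative N))) * hiD
  have hU0 : constantCoeff U = 0 := by rw [hU, map_mul, alc, hN, zero_mul]
  have hwU : Polynomial.aeval U (Polynomial.X * gu z') = U * (1 - 4 * U + C (4 * z') * U ^ 2) := by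
    simp only [gu, map_add, map_sub, map_mul, map_pow, map_one, Polynomial.aeval_X, Polynomial.aeval_C,
      map_ofNat]
    rfl
  have hode := congrArg al ode
  have hCm : C m * C m⁻¹ = (1 : k⟦X⟧) := by rw [← map_mul, mul_inv_cancel₀ hm, map_one]
  have key : Polynomial.aeval U (Polynomial.X * gu z') = al (Polynomial.X * gu z) * (C m⁻¹ * d⁄dX k U) ^ 2 := by
    rw [hwU, hdU]
    rw [map_mul, map_pow, map_mul al (Polynomial.C m ^ 2), map_pow, alC] at hode
    have hr : al (N * D * (D ^ 2 - 4 * D * N + Polynomial.C (4 * z') * N ^ 2)) =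
        al N * al D * (al D ^ 2 - 4 * al D * al N + C (4 * z') * al N ^ 2) := by
      simp only [map_mul, map_add, map_sub, map_pow, alC, map_ofNat]
    rw [hr] at hode
    have e2 : U * (1 - 4 * U + C (4 * z') * U ^ 2) =
          iD ^ 4 * (al N * al D * (al D ^ 2 - 4 * al D * al N + C (4 * z') * al N ^ 2)) := by
      rw [hU]
      linear_combination (-(al N * iD * (1 + iD * al D + (iD * al D) ^ 2)) +
        4 * al N ^ 2 * iD ^ 2 * (1 + iD * al D) - C (4 * z') * al N ^ 3 * iD ^ 3) * hiD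
    rw [e2]
    linear_combination (-(C m⁻¹ ^ 2 * iD ^ 4)) * hode
      + (-(C m * C m⁻¹ + 1) * (iD ^ 4 * (al N * al D * (al D ^ 2 - 4 * al D * al N + C (4 * z') * al N ^ 2)))) * hCm
  have hke : Polynomial.aeval U ((Polynomial.X * gu z') ^ e) * d⁄dX k U =
      C (m⁻¹ ^ (2 * e)) * ((d⁄dX k U) ^ p * al ((Polynomial.X * gu z) ^ e)) := by
    rw [map_pow, key, he, map_pow, map_pow]
    ring
  have h1 := cart_poly (k := k) (p := p) U hU0 ((Polynomial.X * gu z') ^ e)
  have hc1 : constantCoeff (d⁄dX k U) = coeff 1 U := by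
    rw [← coeff_zero_eq_constantCoeff_apply, coeff_derivative]; simp
  rw [hke, coeff_C_mul, pow_low _ _ hc1] at h1
  have hcoe : coeff (p - 1) (al ((Polynomial.X * gu z) ^ e)) = ((Polynomial.X * gu z) ^ e).coeff (p - 1) :=
    Polynomial.coeff_coe _ _
  rw [hcoe] at h1
  have hne : coeff 1 U ≠ 0 := by
    rw [← hc1, hdU, map_mul, map_pow, alc]
    refine mul_ne_zero ?_ (pow_ne_zero 2 ?_)
    · have : (wr N D).coeff 0 = N.coeff 1 * D.coeff 0 := by
        rw [wr, Polynomial.coeff_sub, Polynomial.mul_coeff_zero, Polynomial.mul_coeff_zero, hN,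
          Polynomial.coeff_derivative]
        simp
      rw [this]
      exact mul_ne_zero hN1 hD
    · intro h0
      have := congrArg constantCoeff hiD
      rw [map_mul, h0, zero_mul, map_one] at this
      exact zero_ne_one this
  unfold h4
  rw [e1]
  have h3 : m⁻¹ ^ (2 * e) * ((Polynomial.X * gu z) ^ e).coeff (p - 1) = ((Polynomial.X * gu z') ^ e).coeff (p - 1) := by
    apply mul_right_cancel₀ (pow_ne_zero p hne)
    rw [← h1]; ring
  rw [← h3, he]
  have hmm : m ^ (2 * e) * m⁻¹ ^ (2 * e) = 1 := by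
    rw [← mul_pow, mul_inv_cancel₀ hm, one_pow]
  rw [pow_succ]
  linear_combination (-(m * ((Polynomial.X * gu z) ^ e).coeff (2 * e + 1 - 1))) * hmm

end hasse

end Pool.Agent.H546
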