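import Pool.Agent.H546.Trans

set_option autoImplicit false

/-!
# Small tools for the Witt vectors
-/

namespace Pool.Agent.H546

open Finset
open Pool.Agent.Q267.CDE (R)
open Pool.Agent.Q267.MW (u3)

section

variable {p : ℕ} [hp : Fact p.Prime]

theorem red_int_ne {n : ℤ} (h : ¬ (p : ℤ) ∣ n) : (SW p).red (n : WO p) ≠ 0 := by
  rw [map_intCast]
  intro h0
  exact h ((CharP.intCast_eq_zero_iff (kb p) p n).mp h0)

theorem red_ne_mul {x y : WO p} {n : ℤ} (h : x * y = (n : WO p)) (hn : ¬ (p : ℤ) ∣ n) :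
    (SW p).red x ≠ 0 := by
  intro h0
  have h1 := congrArg (SW p).red h
  rw [map_mul, h0, zero_mul] at h1
  exact red_int_ne hn h1.symm

local instance fact5 : Fact (Nat.Prime 5) := ⟨by norm_num⟩

theorem leg5_aux : ∀ r : ℕ, r < 5 → r ≠ 0 → legendreSym 5 (r : ℤ) = if r = 1 ∨ r = 4 then 1 else -1 := by
  decide

theorem leg5 (h5 : 5 < p) : legendreSym p 5 = if p % 5 = 1 ∨ p % 5 = 4 then 1 else -1 := by
  have h := legendreSym.quadratic_reciprocity_one_mod_four (p := 5) (q := p) (by norm_num) (by omega)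
  have h' : legendreSym p 5 = legendreSym 5 p := h
  rw [h', legendreSym.mod]
  have hlt : p % 5 < 5 := Nat.mod_lt _ (by norm_num)
  have h0 : p % 5 ≠ 0 := by
    intro h0
    have := (Nat.prime_dvd_prime_iff_eq (by norm_num : Nat.Prime 5) hp.out).mp (Nat.dvd_of_mod_eq_zero h0)
    omega
  have hc : ((p : ℤ) % ((5 : ℕ) : ℤ)) = ((p % 5 : ℕ) : ℤ) := by norm_cast
  rw [hc]
  exact leg5_aux _ hlt h0

local instance fact17 : Fact (Nat.Prime 17) := ⟨by norm_num⟩

theorem leg17_aux : ∀ r : ℕ, r < 17 → r ≠ 0 → legendreSym 17 (r : ℤ) = 1 ∨ legendreSym 17 (r : ℤ) = -1 := by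
  decide

/-- reciprocity for a prime `1 mod 4` -/
theorem leg_rec {q : ℕ} [hq : Fact q.Prime] (h4 : q % 4 = 1) (hp2 : p ≠ 2) :
    legendreSym p q = legendreSym q p :=
  legendreSym.quadratic_reciprocity_one_mod_four (p := q) (q := p) h4 hp2

theorem leg3_aux : ∀ r : ℕ, r < 3 → r ≠ 0 → legendreSym 3 (r : ℤ) = if r = 1 then 1 else -1 := by
  decide

/-- the Legendre symbol of `-3` -/
theorem legm3 (hp2 : p ≠ 2) (hp3 : p ≠ 3) : legendreSym p (-3) = if p % 3 = 1 then 1 else -1 := by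
  have h0 : p % 3 ≠ 0 := by
    intro h0
    have := (Nat.prime_dvd_prime_iff_eq Nat.prime_three hp.out).mp (Nat.dvd_of_mod_eq_zero h0)
    omega
  have h3 : legendreSym 3 p = if p % 3 = 1 then 1 else -1 := by
    rw [legendreSym.mod]
    have hc : ((p : ℤ) % ((3 : ℕ) : ℤ)) = ((p % 3 : ℕ) : ℤ) := by norm_cast
    rw [hc]
    exact leg3_aux _ (Nat.mod_lt _ (by norm_num)) h0
  have hm : legendreSym p (-3) = legendreSym p (-1) * legendreSym p 3 := by
    rw [← legendreSym.mul]; norm_num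
  rw [hm, legendreSym.at_neg_one hp2, ← h3]
  have hodd : p % 2 = 1 := by
    rcases hp.out.eq_two_or_odd with h | h
    · exact absurd h hp2
    · exact h
  have h3' : legendreSym p 3 = legendreSym p ((3 : ℕ) : ℤ) := by norm_cast
  have : p % 4 = 1 ∨ p % 4 = 3 := by omega
  rcases this with h | h
  · rw [ZMod.χ₄_nat_one_mod_four h, one_mul, h3']
    exact (legendreSym.quadratic_reciprocity_one_mod_four h (by norm_num)).symm
  · rw [ZMod.χ₄_nat_three_mod_four h, h3',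
      legendreSym.quadratic_reciprocity_three_mod_four (p := p) (q := 3) h (by norm_num)]
    ring

theorem par3 (h3 : p % 3 = 1 ∨ p % 3 = 2) (h2 : p ≠ 2) : (-1 : kb p) ^ (p / 3) = if p % 3 = 1 then 1 else -1 := by
  have hodd : p % 2 = 1 := by
    rcases hp.out.eq_two_or_odd with h | h
    · exact absurd h h2
    · exact h
  rcases h3 with h | h
  · rw [if_pos h]
    exact Even.neg_one_pow (Nat.even_iff.mpr (by omega))
  · rw [if_neg (by omega)]
    exact Odd.neg_one_pow (Nat.odd_iff.mpr (by omega))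

end

theorem tr3 {p : ℕ} [hp : Fact p.Prime] {M : ℤ} (hM : ¬ (p : ℤ) ∣ M) {wi : R p} (hwi : (M : R p) * wi = 1)
    (E : ℤ) (h : ∑ k ∈ range p, (k.centralBinom : R p) * ((u3 k : ℕ) : R p) * wi ^ k = (E : R p)) :
    p.Coprime (((∑ k ∈ range p, (((2 * k).choose k : ℚ) ^ 2 * ((3 * k).choose k : ℚ)) / (M : ℚ) ^ k) -
      (E : ℚ)) / (p : ℚ) ^ 2).den := by
  have h := den_of_R (p := p) (fun k => ((k.centralBinom * u3 k : ℕ) : ℤ))
    M hM wi hwi E (by rw [← h]; refine sum_congr rfl fun k _ => ?_; push_cast; rfl)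
  rw [Nat.Prime.coprime_iff_not_dvd hp.out]
  have e : ∑ k ∈ range p, (((2 * k).choose k : ℚ) ^ 2 * ((3 * k).choose k : ℚ)) / (M : ℚ) ^ k =
      ∑ k ∈ range p, (((k.centralBinom * u3 k : ℕ) : ℤ) : ℚ) / (M : ℚ) ^ k := by
    refine sum_congr rfl fun k _ => ?_
    rw [Nat.centralBinom, u3]
    push_cast
    ring
  rw [e]
  exact h

theorem inv_exists {p : ℕ} [hp : Fact p.Prime] {M : ℤ} (hM : ¬ (p : ℤ) ∣ M) :
    ∃ wi : R p, (M : R p) * wi = 1 := by
  have hu : IsUnit ((M : ℤ) : ZMod (p ^ 2)) := by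
    rw [ZMod.coe_int_isUnit_iff_isCoprime]
    have h1 : IsCoprime (p : ℤ) M := (Nat.prime_iff_prime_int.mp hp.out).coprime_iff_not_dvd.mpr hM
    push_cast
    exact h1.pow_left
  exact hu.exists_right_inv

section nd

variable (p : ℕ) [hp : Fact p.Prime]

theorem ndvd_of_primes {n : ℕ} {l : List ℕ} (hl : ∀ q ∈ l, q.Prime) (hn : l.prod = n) (h : ∀ q ∈ l, p ≠ q) :
    ¬ (p : ℤ) ∣ (n : ℤ) := by
  intro hd
  have hd' : p ∣ l.prod := by rw [hn]; exact_mod_cast hd
  obtain ⟨q, hq, hpq⟩ := (Prime.dvd_prod_iff hp.out.prime).mp hd'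
  exact h q hq ((Nat.prime_dvd_prime_iff_eq hp.out (hl q hq)).mp hpq)

end nd

end Pool.Agent.H546
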