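import Pool.Agent.H546.QNu

set_option autoImplicit false

/-!
# Isogenies of odd degree of the quartic family
-/

namespace Pool.Agent.H546

open Polynomial

section field

variable {F : Type*} [Field F]

theorem v_cop {κ c9 : F} {u h : F[X]} (hκ : κ ≠ 0) (h9 : (9 : F) ≠ 0) (huh : IsCoprime u h) (h0 : h.coeff 0 ≠ 0) :
    IsCoprime ((9 * (X * u ^ 2) - 12 * (C κ * h ^ 2)).comp (C c9 * (X + 12)))
      ((C κ * h ^ 2).comp (C c9 * (X + 12))) := by
  have hXh : IsCoprime (X : F[X]) h := by
    rw [Irreducible.coprime_iff_not_dvd irreducible_X, X_dvd_iff]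
    exact h0
  have hκu : IsUnit (C κ : F[X]) := isUnit_C.mpr (isUnit_iff_ne_zero.mpr hκ)
  have h9u : IsUnit (9 : F[X]) := by
    have : (9 : F[X]) = C 9 := (map_ofNat C 9).symm
    rw [this]; exact isUnit_C.mpr (isUnit_iff_ne_zero.mpr h9)
  have c1 : IsCoprime (X * u ^ 2) (C κ * h ^ 2) := by
    rw [isCoprime_mul_unit_left_right hκu]
    exact (IsCoprime.mul_left hXh huh.pow_left).pow_right
  have c2 : IsCoprime (9 * (X * u ^ 2) - 12 * (C κ * h ^ 2)) (C κ * h ^ 2) := by
    have e : 9 * (X * u ^ 2) - 12 * (C κ * h ^ 2) = 9 * (X * u ^ 2) + (C κ * h ^ 2) * (-12) := by ring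
    rw [e]
    apply IsCoprime.add_mul_left_left
    rw [isCoprime_mul_unit_left_left h9u]
    exact c1
  exact c2.map (Polynomial.compRingHom (C c9 * (X + 12)))

end field

section maps

variable {O T : Type*} [CommRing O] [CommRing T]

theorem wr_compL (a b L : O[X]) : wr (a.comp L) (b.comp L) = derivative L * (wr a b).comp L := by
  simp only [wr, derivative_comp, sub_comp, mul_comp]; ring

theorem v_mapn (g : O →+* T) (κ c : O) (u h : O[X]) :
    ((9 * (X * u ^ 2) - 12 * (C κ * h ^ 2)).comp (C c * (X + 12))).map g =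
      (9 * (X * (u.map g) ^ 2) - 12 * (C (g κ) * (h.map g) ^ 2)).comp (C (g c) * (X + 12)) := by
  rw [Polynomial.map_comp]; simp

theorem v_mapd (g : O →+* T) (κ c : O) (h : O[X]) :
    ((C κ * h ^ 2).comp (C c * (X + 12))).map g =
      (C (g κ) * (h.map g) ^ 2).comp (C (g c) * (X + 12)) := by
  rw [Polynomial.map_comp]; simp

theorem bez_cop {F : Type*} [Field F] (g : O →+* F) {A B u h : O[X]} {R : O} (bez : A * u + B * h = C R)
    (hg : g R ≠ 0) : IsCoprime (u.map g) (h.map g) := by
  have h1 := congrArg (Polynomial.map g) bez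
  rw [Polynomial.map_add, Polynomial.map_mul, Polynomial.map_mul, map_C] at h1
  have h2 : C (g R)⁻¹ * C (g R) = (1 : F[X]) := by rw [← C_mul, inv_mul_cancel₀ hg, C_1]
  exact ⟨C (g R)⁻¹ * A.map g, C (g R)⁻¹ * B.map g, by linear_combination C (g R)⁻¹ * h1 + h2⟩

end maps

variable {O K k : Type*} [CommRing O] [IsDomain O] [Field K] [Algebra O K] [Field k]
  (S : DV O K k)

/-- an isogeny of odd degree from its kernel polynomial -/
theorem Dat.of_uh {z z' m κ R : O} {u h A B : O[X]} {e : ℕ} (h3 : (3 : k) ≠ 0)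
    (hid : C κ * (X ^ 2 - 4 * X + C (4 * z)) * (u * h + 2 * X * (derivative u * h - u * derivative h)) ^ 2 =
      C m ^ 2 * (X ^ 2 * u ^ 4 - 4 * C κ * X * (u ^ 2 * h ^ 2) + C (4 * z') * C κ ^ 2 * h ^ 4))
    (hu : u.natDegree ≤ e) (hh : h.natDegree ≤ e) (hlc : S.red (u.coeff e) ≠ 0) (hκ : S.red κ ≠ 0)
    (bez : A * u + B * h = C R) (hR : S.red R ≠ 0) (h0 : S.red (h.coeff 0) ≠ 0) :
    Dat S (cub (qa z) (qb z)) (qa z') (qb z') m (2 * e + 1) := by
  have h9 : S.red (9 : O) ≠ 0 := by
    rw [map_ofNat]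
    have : (9 : k) = 3 * 3 := by norm_num
    rw [this]; exact mul_ne_zero h3 h3
  have h9k : (9 : k) ≠ 0 := by rwa [map_ofNat] at h9
  have ne0 : ∀ {x : O}, S.red x ≠ 0 → x ≠ 0 := by rintro x hx rfl; exact hx (map_zero _)
  have ne0K : ∀ {x : O}, S.red x ≠ 0 → algebraMap O K x ≠ 0 := by
    intro x hx h0; exact ne0 hx (S.inj (by rw [h0, map_zero]))
  have h9K : (9 : K) ≠ 0 := by have := ne0K h9; rwa [map_ofNat] at this
  obtain ⟨c, hc⟩ := (S.unit_of_red h9).exists_left_inv
  have hcr : S.red c ≠ 0 := by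
    intro h0
    have := congrArg S.red hc
    rw [map_mul, h0, zero_mul, map_one] at this
    exact zero_ne_one this
  have hc9 : C c * 9 = (1 : O[X]) := by
    have : (9 : O[X]) = C 9 := (map_ofNat C 9).symm
    rw [this, ← C_mul, hc, C_1]
  have ecoef := hlc
  have hud : u.natDegree = e := le_antisymm hu (le_natDegree_of_ne_zero (ne0 hlc))
  have hu0 : u ≠ 0 := by rintro rfl; rw [coeff_zero, map_zero] at hlc; exact hlc rfl
  have hh0 : h ≠ 0 := by rintro rfl; rw [coeff_zero, map_zero] at h0; exact h0 rfl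
  set L : O[X] := C c * (X + 12) with hL
  have hLd : L.natDegree = 1 := by
    rw [hL, natDegree_C_mul (ne0 hcr)]
    have : (X + 12 : O[X]) = X + C 12 := by rw [map_ofNat]
    rw [this, natDegree_X_add_C]
  have hLcomp : (9 * X - 12 : O[X]).comp L = X := by
    simp only [sub_comp, mul_comp, ofNat_comp, X_comp, hL]
    linear_combination (X + 12) * hc9
  set N : O[X] := X * u ^ 2 with hN
  set D : O[X] := C κ * h ^ 2 with hD
  have hD0 : D ≠ 0 := mul_ne_zero (C_ne_zero.mpr (ne0 hκ)) (pow_ne_zero 2 hh0)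
  have hNd : N.natDegree = 2 * e + 1 := by
    rw [hN, natDegree_mul X_ne_zero (pow_ne_zero 2 hu0), natDegree_X, natDegree_pow, hud]; ring
  have hDd : D.natDegree ≤ 2 * e := by
    rw [hD]
    refine (natDegree_C_mul_le _ _).trans ?_
    rw [natDegree_pow]; omega
  have h12D : (12 * D).natDegree ≤ 2 * e := by
    have : (12 : O[X]) * D = C 12 * D := by rw [map_ofNat]
    rw [this]; exact (natDegree_C_mul_le _ _).trans hDd
  have h9O : (9 : O) ≠ 0 := ne0 h9
  have h9N : (9 * N).natDegree = 2 * e + 1 := by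
    have : (9 : O[X]) * N = C 9 * N := by rw [map_ofNat]
    rw [this, natDegree_C_mul h9O, hNd]
  have hnd0 : (9 * N - 12 * D).natDegree = 2 * e + 1 := by
    rw [natDegree_sub_eq_left_of_natDegree_lt, h9N]
    rw [h9N]; omega
  have hwr : wr N D = C κ * (u * h) * (u * h + 2 * X * (derivative u * h - u * derivative h)) := by
    rw [hN, hD]
    simp only [wr, derivative_mul, derivative_X, derivative_C, derivative_pow, Nat.cast_ofNat, map_ofNat]
    push_cast
    ring
  have hode : gv z * wr N D ^ 2 = C m ^ 2 * tv z' N D := by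
    rw [hwr, hN, hD, tv, gv]
    linear_combination (X * C κ * (u * h) ^ 2) * hid
  set n := (9 * N - 12 * D).comp L with hn
  set d := D.comp L with hd
  have hdL : derivative L = C c := by
    rw [hL]; simp [derivative_mul]
  have hwnd : wr n d = (wr N D).comp L := by
    rw [hn, hd, wr_compL, hdL]
    have e2 : wr (9 * N - 12 * D) D = 9 * wr N D := by
      simp only [wr, derivative_sub, derivative_mul, derivative_ofNat]; ring
    rw [e2, mul_comp, ofNat_comp]
    linear_combination ((wr N D).comp L) * hc9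
  have hcub : cub (qa z) (qb z) = 729 * (gv z).comp L := by
    have := congrArg (fun P => P.comp L) (cub_compv z)
    rw [comp_assoc, hLcomp, comp_X, mul_comp, ofNat_comp] at this
    exact this
  have htgt : tgt (qa z') (qb z') n d = 729 * (tv z' N D).comp L := by
    have : (tgt (qa z') (qb z') (9 * N - 12 * D) D).comp L = 729 * (tv z' N D).comp L := by
      rw [tgt_tv, mul_comp, ofNat_comp]; rfl
    rw [← this, hn, hd]
    simp only [tgt, mul_comp, add_comp, pow_comp, C_comp]
  have hndeg : n.natDegree = 2 * e + 1 := by rw [hn, natDegree_comp, hLd, mul_one, hnd0]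
  refine ⟨n, d, ?_, ?_, ?_, hndeg, ?_, ?_, ?_⟩
  · rw [hcub, htgt, hwnd]
    have := congrArg (fun P => P.comp L) hode
    simp only [mul_comp, pow_comp, C_comp] at this
    linear_combination 729 * this
  · intro h1
    rw [hd, comp_eq_zero_iff] at h1
    rcases h1 with h1 | h1
    · exact hD0 h1
    · have h2 := congrArg natDegree h1.2
      rw [hLd, natDegree_C] at h2
      exact one_ne_zero h2
  · rw [hndeg, hd, natDegree_comp, hLd, mul_one]; omega
  · rw [hn, hd, hN, hD, hL, v_mapn, v_mapd]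
    refine v_cop (ne0K hκ) h9K (bez_cop _ bez (ne0K hR)) ?_
    rw [coeff_map]; exact ne0K h0
  · rw [hn, hd, hN, hD, hL, v_mapn, v_mapd]
    refine v_cop hκ h9k (bez_cop _ bez hR) ?_
    rw [coeff_map]; exact h0
  · rw [hndeg, hn, hN, hD, hL, v_mapn]
    have huk : (u.map S.red).natDegree = e := by
      refine le_antisymm (natDegree_map_le.trans hu) (le_natDegree_of_ne_zero ?_)
      rw [coeff_map]; exact hlc
    have huk0 : u.map S.red ≠ 0 := by
      intro h1
      have : (u.map S.red).coeff e = 0 := by rw [h1, coeff_zero]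
      rw [coeff_map] at this
      exact hlc this
    have hLk : (C (S.red c) * (X + 12) : k[X]).natDegree = 1 := by
      rw [natDegree_C_mul hcr]
      have : (X + 12 : k[X]) = X + C 12 := by rw [map_ofNat]
      rw [this, natDegree_X_add_C]
    have hNk : (9 * (X * (u.map S.red) ^ 2)).natDegree = 2 * e + 1 := by
      have : (9 : k[X]) * (X * (u.map S.red) ^ 2) = C 9 * (X * (u.map S.red) ^ 2) := by rw [map_ofNat]
      rw [this, natDegree_C_mul h9k, natDegree_mul X_ne_zero (pow_ne_zero 2 huk0), natDegree_X, natDegree_pow, huk]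
      ring
    have hDk : (12 * (C (S.red κ) * (h.map S.red) ^ 2)).natDegree ≤ 2 * e := by
      have : (12 : k[X]) * (C (S.red κ) * (h.map S.red) ^ 2) = C 12 * (C (S.red κ) * (h.map S.red) ^ 2) := by
        rw [map_ofNat]
      rw [this]
      refine (natDegree_C_mul_le _ _).trans ((natDegree_C_mul_le _ _).trans ?_)
      rw [natDegree_pow]
      have := (natDegree_map_le (f := S.red) (p := h)).trans hh
      omega
    rw [natDegree_comp, hLk, mul_one, natDegree_sub_eq_left_of_natDegree_lt, hNk]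
    rw [hNk]; omega

end Pool.Agent.H546
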