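import Pool.Agent.H546.PL
import Pool.Agent.H546.DatV

set_option autoImplicit false

/-!
# Isogenies from verified lists
-/

namespace Pool.Agent.H546

open Polynomial

def q2 : Q4 := ⟨2, 0, 0, 0⟩
def qm2 : Q4 := ⟨-2, 0, 0, 0⟩

/-- an integer as a quadruple -/
def qi (n : Int) : Q4 := ⟨n, 0, 0, 0⟩

section

variable {O : Type*} [CommRing O] (s r : O)

theorem e4_q2 : e4 s r q2 = 2 := by simp [e4, q2]
theorem e4_qm2 : e4 s r qm2 = -2 := by simp [e4, qm2]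
theorem e4_qi (n : Int) : e4 s r (qi n) = n := by simp [e4, qi]

end

/-- the list data of an isogeny: all the checks -/
structure IsoOk (D E : Int) (κ m2 zl zl' c1 c2 : Q4) (dz R : Int)
    (u u1 h h1 u2 h2 u4 uh2 h4 a0 a1 a2 W W2 T1 S1 T2 A B : List Q4) : Prop where
  k1 : leq (lder u) u1 = true
  k2 : leq (lder h) h1 = true
  k3 : leq (lmul D E u u) u2 = true
  k4 : leq (lmul D E h h) h2 = true
  k5 : leq (lmul D E u2 u2) u4 = true
  k6 : leq (lmul D E u2 h2) uh2 = true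
  k7 : leq (lmul D E h2 h2) h4 = true
  k8 : leq (lmul D E u h) a0 = true
  k9 : leq (lmul D E u1 h) a1 = true
  k10 : leq (lmul D E u h1) a2 = true
  k11 : leq (ladd a0 (Q4.z0 :: ladd (lsm D E q2 a1) (lsm D E qm2 a2))) W = true
  k12 : leq (lmul D E W W) W2 = true
  k13 : leq (lmul D E [zl, qi (-4 * dz), qi dz] W2) T1 = true
  k14 : leq (ladd (ladd (Q4.z0 :: Q4.z0 :: lsm D E (qi dz) u4) (Q4.z0 :: lsm D E c1 uh2)) (lsm D E c2 h4)) S1 = true
  k15 : leq (lsm D E κ T1) T2 = true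
  k16 : leq (lsm D E m2 S1) T2 = true
  k17 : leq (ladd (lmul D E A u) (lmul D E B h)) [qi R] = true
  k18 : c1.beq (Q4.mul D E (qi (-4 * dz)) κ) = true
  k19 : c2.beq (Q4.mul D E zl' (Q4.mul D E κ κ)) = true

variable {O K k : Type*} [CommRing O] [IsDomain O] [Field K] [Algebra O K] [Field k]
  (S : DV O K k)

theorem Dat.of_iso {s r : O} {D E : Int} {κ m2 zl zl' c1 c2 : Q4} {dz R : Int}
    {u u1 h h1 u2 h2 u4 uh2 h4 a0 a1 a2 W W2 T1 S1 T2 A B : List Q4}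
    (ok : IsoOk D E κ m2 zl zl' c1 c2 dz R u u1 h h1 u2 h2 u4 uh2 h4 a0 a1 a2 W W2 T1 S1 T2 A B)
    (hs : s ^ 2 = D) (hr : r ^ 2 = E) {z z' m : O} {e : ℕ} (h3 : (3 : k) ≠ 0)
    (hz : (dz : O) * (4 * z) = e4 s r zl) (hz' : (dz : O) * (4 * z') = e4 s r zl')
    (hm : m ^ 2 = e4 s r m2) (hdz : S.red (dz : O) ≠ 0) (hul : u.length ≤ e + 1) (hhl : h.length ≤ e + 1)
    (hlc : S.red (e4 s r (u.getD e Q4.z0)) ≠ 0) (hκ : S.red (e4 s r κ) ≠ 0)
    (hR : S.red (R : O) ≠ 0) (h0 : S.red (e4 s r (h.getD 0 Q4.z0)) ≠ 0) :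
    Dat S (cub (qa z) (qb z)) (qa z') (qb z') m (2 * e + 1) := by
  have hdz0 : (dz : O) ≠ 0 := by intro h1; rw [h1, map_zero] at hdz; exact hdz rfl
  have e1 := ev_eq s r _ _ ok.k1
  have e2 := ev_eq s r _ _ ok.k2
  have e3 := ev_eq s r _ _ ok.k3
  have e4' := ev_eq s r _ _ ok.k4
  have e5 := ev_eq s r _ _ ok.k5
  have e6 := ev_eq s r _ _ ok.k6
  have e7 := ev_eq s r _ _ ok.k7
  have e8 := ev_eq s r _ _ ok.k8
  have e9 := ev_eq s r _ _ ok.k9
  have e10 := ev_eq s r _ _ ok.k10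
  have e11 := ev_eq s r _ _ ok.k11
  have e12 := ev_eq s r _ _ ok.k12
  have e13 := ev_eq s r _ _ ok.k13
  have e14 := ev_eq s r _ _ ok.k14
  have e15 := ev_eq s r _ _ ok.k15
  have e16 := ev_eq s r _ _ ok.k16
  have e17 := ev_eq s r _ _ ok.k17
  have e18 := congrArg (e4 s r) (Q4.eq_of_beq ok.k18)
  have e19 := congrArg (e4 s r) (Q4.eq_of_beq ok.k19)
  simp only [ev_add, ev_der, ev_mul hs hr, ev_sm hs hr, ev, e4_z0, e4_q2, e4_qm2, e4_qi, C_0,
    zero_add, mul_zero, add_zero] at e1 e2 e3 e4' e5 e6 e7 e8 e9 e10 e11 e12 e13 e14 e15 e16 e17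
  simp only [e4_mul hs hr, e4_qi] at e18 e19
  set U := ev s r u with hU
  set H := ev s r h with hH
  have hzC : C (dz : O) * C (4 * z) = C (e4 s r zl) := by rw [← C_mul, hz]
  have hzC' : C (dz : O) * C (4 * z') = C (e4 s r zl') := by rw [← C_mul, hz']
  have hmC : (C m : O[X]) ^ 2 = C (e4 s r m2) := by rw [← C_pow, hm]
  have h18 : C (e4 s r c1) = -4 * C (dz : O) * C (e4 s r κ) := by
    rw [e18]; push_cast
    simp only [C_mul, C_neg, map_ofNat]
  have h19 : C (e4 s r c2) = C (dz : O) * C (4 * z') * C (e4 s r κ) ^ 2 := by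
    rw [e19, C_mul, C_mul, hzC']; ring
  have hW : ev s r W = U * H + 2 * X * (derivative U * H - U * derivative H) := by
    rw [← e11, ← e8, ← e9, ← e10, ← e1, ← e2]
    simp only [map_ofNat, C_neg]
    ring
  have c4 : C (((-4 * dz : ℤ)) : O) = -4 * C (dz : O) := by
    push_cast; simp only [C_mul, C_neg, map_ofNat]
  refine Dat.of_uh S (κ := e4 s r κ) (R := (R : O)) (u := U) (h := H) (A := ev s r A) (B := ev s r B) h3 ?_
    (ev_deg s r u e hul) (ev_deg s r h e hhl) ?_ hκ ?_ hR ?_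
  · have hdC : (C (dz : O) : O[X]) ≠ 0 := C_ne_zero.mpr hdz0
    apply mul_left_cancel₀ hdC
    rw [hmC, ← hW]
    have t1 : ev s r T1 = (C (dz : O) * (X ^ 2 - 4 * X + C (4 * z))) * ev s r W ^ 2 := by
      rw [← e13, ← e12, c4, ← hzC]; ring
    have s1 : ev s r S1 = C (dz : O) * (X ^ 2 * U ^ 4 - 4 * C (e4 s r κ) * X * (U ^ 2 * H ^ 2) +
        C (4 * z') * C (e4 s r κ) ^ 2 * H ^ 4) := by
      rw [← e14, ← e5, ← e6, ← e7, ← e3, ← e4', h18, h19]; ring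
    have t2 := e15.trans e16.symm
    rw [t1, s1] at t2
    linear_combination t2
  · rw [hU, ev_coeff]; exact hlc
  · exact e17
  · rw [hH, ev_coeff]; exact h0

end Pool.Agent.H546
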