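import Pool.Agent.H546.Hasse

set_option autoImplicit false

/-!
# Transfer to rational numbers; bookkeeping for the final step
-/

namespace Pool.Agent.H546

open Finset
open Pool.Agent.Q267.CDE (R)
open Pool.Agent.Q267.MW (u3)

theorem den_of_R {p : ℕ} [hp : Fact p.Prime] (c : ℕ → ℤ) (m : ℤ) (hm : ¬ (p : ℤ) ∣ m) (wi : R p)
    (hwi : (m : R p) * wi = 1) (E : ℤ) (h : ∑ k ∈ range p, (c k : R p) * wi ^ k = (E : R p)) :
    ¬ p ∣ (((∑ k ∈ range p, (c k : ℚ) / (m : ℚ) ^ k) - (E : ℚ)) / (p : ℚ) ^ 2).den := by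
  have hm0 : (m : ℚ) ≠ 0 := by
    intro h0
    apply hm
    have : m = 0 := by exact_mod_cast h0
    rw [this]; exact dvd_zero _
  have hp0 : (p : ℚ) ≠ 0 := by exact_mod_cast hp.out.ne_zero
  set T : ℤ := ∑ k ∈ range p, c k * m ^ (p - k) - E * m ^ p with hT
  have hTR : ((T : ℤ) : ZMod (p ^ 2)) = 0 := by
    rw [hT]
    push_cast
    have e : ∀ k ∈ range p, (c k : R p) * (m : R p) ^ (p - k) = (m : R p) ^ p * ((c k : R p) * wi ^ k) := by
      intro k hk
      have hk' : p - k + k = p := by have := mem_range.mp hk; omega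
      have h1 : (m : R p) ^ k * wi ^ k = 1 := by rw [← mul_pow, hwi, one_pow]
      have h2 : (m : R p) ^ p = (m : R p) ^ (p - k) * (m : R p) ^ k := by rw [← pow_add, hk']
      rw [h2]
      linear_combination (-((c k : R p) * (m : R p) ^ (p - k))) * h1
    have h2 : ∑ k ∈ range p, (c k : R p) * (m : R p) ^ (p - k) = (m : R p) ^ p * (E : R p) := by
      rw [sum_congr rfl e, ← mul_sum, h]
    linear_combination h2
  rw [ZMod.intCast_zmod_eq_zero_iff_dvd] at hTR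
  obtain ⟨u, hu⟩ := hTR
  have e2 : ((∑ k ∈ range p, (c k : ℚ) / (m : ℚ) ^ k) - (E : ℚ)) / (p : ℚ) ^ 2 =
      ((u : ℤ) : ℚ) / ((m ^ p : ℤ) : ℚ) := by
    rw [div_eq_div_iff (pow_ne_zero 2 hp0) (by push_cast; exact pow_ne_zero p hm0)]
    have h3 := congrArg (Int.cast : ℤ → ℚ) hu
    rw [hT] at h3
    push_cast at h3 ⊢
    rw [sub_mul, sum_mul]
    have e : ∀ k ∈ range p, (c k : ℚ) / (m : ℚ) ^ k * (m : ℚ) ^ p = (c k : ℚ) * (m : ℚ) ^ (p - k) := by
      intro k hk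
      have hk' : p - k + k = p := by have := mem_range.mp hk; omega
      have h2 : (m : ℚ) ^ p = (m : ℚ) ^ (p - k) * (m : ℚ) ^ k := by rw [← pow_add, hk']
      rw [h2]
      have := pow_ne_zero k hm0
      field_simp
    rw [sum_congr rfl e]
    linear_combination h3
  rw [e2]
  intro hdiv
  have h4 : (((u : ℤ) : ℚ) / ((m ^ p : ℤ) : ℚ)).den ∣ (m ^ p).natAbs := by
    have := Rat.den_dvd u (m ^ p)
    rw [Rat.divInt_eq_div] at this
    exact Int.natCast_dvd.mp this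
  have h5 : (p : ℤ) ∣ m ^ p := by
    have := dvd_trans hdiv h4
    exact Int.natCast_dvd.mpr this
  exact hm (Int.Prime.dvd_pow' hp.out h5)

/-- divisibility of the variables of a form with value `p` -/
theorem form_ndvd {p : ℕ} [hp : Fact p.Prime] {r s l1 l2 t0 : ℤ}
    (h : (p : ℤ) = r ^ 2 * l1 + r * s * t0 + s ^ 2 * l2) (h2 : ¬ (p : ℤ) ∣ l2) : ¬ (p : ℤ) ∣ r := by
  intro hr
  have hpz : Prime (p : ℤ) := Nat.prime_iff_prime_int.mp hp.out
  have h1 : (p : ℤ) ∣ s ^ 2 * l2 := by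
    have e : s ^ 2 * l2 = p - r * (r * l1 + s * t0) := by linear_combination -h
    rw [e]; exact dvd_sub dvd_rfl (hr.mul_right _)
  have h3 : (p : ℤ) ∣ s := by
    rcases hpz.dvd_or_dvd h1 with h | h
    · exact hpz.dvd_of_dvd_pow h
    · exact absurd h h2
  obtain ⟨a, rfl⟩ := hr
  obtain ⟨b, rfl⟩ := h3
  have h5 : (p : ℤ) * 1 = p * (p * (a ^ 2 * l1 + a * b * t0 + b ^ 2 * l2)) := by
    linear_combination h
  have h6 := mul_left_cancel₀ hpz.ne_zero h5
  exact hpz.not_unit (IsUnit.of_mul_eq_one _ h6.symm)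

variable {O K k : Type*} [CommRing O] [IsDomain O] [Field K] [Algebra O K] [Field k]
  (S : DV O K k)

/-- **The value of the sum from two isogenies.** -/
theorem sum_form {p : ℕ} [hp : Fact p.Prime] [CharP k p] [IsAlgClosed k] (hp5 : 5 ≤ p) (hq : S.q = (p : O))
    {z z' : O} {M : ℤ} (hM : ¬ (p : ℤ) ∣ M) (hMz : (M : O) * (z * (1 - z)) = 27)
    (hz : S.red z ≠ 0) (hz1 : S.red (1 - z) ≠ 0) (hz' : S.red z' = S.red z ^ p)
    (ha0 : S.red (ca (4 * z)) ≠ 0) (hb0 : S.red (cb (4 * z)) ≠ 0) {m1 m2 : O} {l1 l2 : ℕ}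
    (hm1 : m1 ≠ 0) (hm2 : m2 ≠ 0)
    (d1 : Dat S (cub (ca (4 * z)) (cb (4 * z))) (ca (4 * z')) (cb (4 * z')) m1 l1)
    (d2 : Dat S (cub (ca (4 * z)) (cb (4 * z))) (ca (4 * z')) (cb (4 * z')) m2 l2)
    (r s t0 : ℤ) (hform : (p : ℤ) = r ^ 2 * l1 + r * s * t0 + s ^ 2 * l2)
    (hl1 : ¬ (p : ℤ) ∣ l1) (hl2 : ¬ (p : ℤ) ∣ l2) (ht0 : t0 ^ 2 ≤ 4 * l1 * l2)
    (hbig : 16 * (l1 * l2) < p ^ 2) {al τ : O} {c E : ℤ} (hal : (r : O) * m1 + (s : O) * m2 = al)
    (hred : S.red al = 0) (hc : c ^ 2 = 1) (hprod : al * (τ - al) = c * p)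
    (hE : (E : O) = τ ^ 2 - 2 * c * p)
    {wi : R p} (hwi : (M : R p) * wi = 1) :
    ∑ k ∈ range p, (k.centralBinom : R p) * ((u3 k : ℕ) : R p) * wi ^ k = (E : R p) := by
  have hp0 : (p : O) ≠ 0 := by rw [← hq]; exact S.q_ne
  obtain ⟨w, hw⟩ := (S.red_iff _).mp hred
  rw [hq] at hw
  have hw1 : w * (τ - al) = c := by
    apply mul_left_cancel₀ hp0
    rw [hw] at hprod ⊢
    linear_combination hprod
  have hcO : (c : O) ^ 2 = 1 := by
    rw [← Int.cast_pow, hc, Int.cast_one]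
  have hwr : S.red w ≠ 0 := by
    intro h0
    have h1 := congrArg S.red hw1
    rw [map_mul, h0, zero_mul] at h1
    have h2 := congrArg S.red hcO
    rw [map_pow, ← h1, map_one] at h2
    simp at h2
  refine sum_final S hp5 hq hM hMz hwi E ?_ (lift3 S hp5 hq hz hz1 hz' ha0 hb0 hm1 hm2 d1 d2 r s t0 hform
    (form_ndvd hform hl2) (form_ndvd (r := s) (s := r) (t0 := t0) (l1 := l2) (l2 := l1)
      (by rw [hform]; ring) hl1) ht0 hbig (w := w) (by rw [hal, hw]) hwr)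
  refine ⟨w ^ 4, ?_⟩
  rw [hE]
  have h3 : w * τ = c + p * w ^ 2 := by rw [hw] at hw1; linear_combination hw1
  linear_combination (w * τ + c + p * w ^ 2) * h3 + hcO

/-- the diagonal case -/
theorem sum_form0 {p : ℕ} [hp : Fact p.Prime] [CharP k p] [IsAlgClosed k] (hp5 : 5 ≤ p) (hq : S.q = (p : O))
    {z z' : O} {M : ℤ} (hM : ¬ (p : ℤ) ∣ M) (hMz : (M : O) * (z * (1 - z)) = 27)
    (hz : S.red z ≠ 0) (hz1 : S.red (1 - z) ≠ 0) (hz' : S.red z' = S.red z ^ p)
    (ha0 : S.red (ca (4 * z)) ≠ 0) (hb0 : S.red (cb (4 * z)) ≠ 0) {m1 m2 : O} {l1 l2 : ℕ}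
    (hm1 : m1 ≠ 0) (hm2 : m2 ≠ 0)
    (d1 : Dat S (cub (ca (4 * z)) (cb (4 * z))) (ca (4 * z')) (cb (4 * z')) m1 l1)
    (d2 : Dat S (cub (ca (4 * z)) (cb (4 * z))) (ca (4 * z')) (cb (4 * z')) m2 l2)
    (x y : ℤ) (hform : (p : ℤ) = l1 * x ^ 2 + l2 * y ^ 2)
    (hl1 : ¬ (p : ℤ) ∣ l1) (hl2 : ¬ (p : ℤ) ∣ l2)
    (hbig : 16 * (l1 * l2) < p ^ 2) {c E : ℤ} (hc : c ^ 2 = 1)
    (hprod : (x : O) ^ 2 * m1 ^ 2 - (y : O) ^ 2 * m2 ^ 2 = c * p)
    (hE : (E : O) = 4 * (x : O) ^ 2 * m1 ^ 2 - 2 * c * p)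
    {wi : R p} (hwi : (M : R p) * wi = 1) :
    ∑ k ∈ range p, (k.centralBinom : R p) * ((u3 k : ℕ) : R p) * wi ^ k = (E : R p) := by
  have key : ∀ y : ℤ, (p : ℤ) = l1 * x ^ 2 + l2 * y ^ 2 → (x : O) ^ 2 * m1 ^ 2 - (y : O) ^ 2 * m2 ^ 2 = c * p →
      S.red ((x : O) * m1 + (y : O) * m2) = 0 →
      ∑ k ∈ range p, (k.centralBinom : R p) * ((u3 k : ℕ) : R p) * wi ^ k = (E : R p) := by
    intro y hform hprod hr
    refine sum_form S hp5 hq hM hMz hz hz1 hz' ha0 hb0 hm1 hm2 d1 d2 x y 0 (by rw [hform]; ring) hl1 hl2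
      (by positivity) hbig (al := (x : O) * m1 + (y : O) * m2) (τ := 2 * x * m1) rfl hr hc ?_ ?_ hwi
    · rw [← hprod]; ring
    · rw [hE]; ring
  have h0 : S.red ((x : O) * m1 + (y : O) * m2) * S.red ((x : O) * m1 - (y : O) * m2) = 0 := by
    rw [← map_mul]
    have : ((x : O) * m1 + (y : O) * m2) * ((x : O) * m1 - (y : O) * m2) = S.q * c := by
      rw [hq]; linear_combination hprod
    rw [this, map_mul, S.red_q, zero_mul]
  rcases mul_eq_zero.mp h0 with h | h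
  · exact key y hform hprod h
  · refine key (-y) (by rw [hform]; ring) ?_ ?_
    · push_cast; linear_combination hprod
    · push_cast; rw [neg_mul, ← sub_eq_add_neg]; exact h

/-- the case of an order containing half integers -/
theorem sum_form_half {p : ℕ} [hp : Fact p.Prime] [CharP k p] [IsAlgClosed k] (hp5 : 5 ≤ p) (hq : S.q = (p : O))
    {z z' : O} {M : ℤ} (hM : ¬ (p : ℤ) ∣ M) (hMz : (M : O) * (z * (1 - z)) = 27)
    (hz : S.red z ≠ 0) (hz1 : S.red (1 - z) ≠ 0) (hz' : S.red z' = S.red z ^ p)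
    (ha0 : S.red (ca (4 * z)) ≠ 0) (hb0 : S.red (cb (4 * z)) ≠ 0) {m1 m2 : O} {l1 l2 : ℕ}
    (hm1 : m1 ≠ 0) (hm2 : m2 ≠ 0)
    (d1 : Dat S (cub (ca (4 * z)) (cb (4 * z))) (ca (4 * z')) (cb (4 * z')) m1 l1)
    (d2 : Dat S (cub (ca (4 * z)) (cb (4 * z))) (ca (4 * z')) (cb (4 * z')) m2 l2)
    {κ : O} {e D' c : ℤ} (hc : c ^ 2 = 1) (h1 : m1 ^ 2 = c * l1) (h2 : 2 * m2 = e * m1 + κ)
    (hκ : κ ^ 2 = -(c * D')) (h4 : 4 * (l2 : ℤ) = e ^ 2 * l1 + D')
    (x y r : ℤ) (hform : 4 * (p : ℤ) = l1 * x ^ 2 + D' * y ^ 2) (hx : x = 2 * r + e * y)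
    (hl1 : ¬ (p : ℤ) ∣ l1) (hl2 : ¬ (p : ℤ) ∣ l2) (hD' : 0 ≤ D')
    (hbig : 16 * (l1 * l2) < p ^ 2)
    {wi : R p} (hwi : (M : R p) * wi = 1) :
    ∑ k ∈ range p, (k.centralBinom : R p) * ((u3 k : ℕ) : R p) * wi ^ k = ((c * (l1 * x ^ 2 - 2 * p) : ℤ) : R p) := by
  have r2 : S.red 2 ≠ 0 := by
    have := small_ne (k := k) (p := p) (n := 2) (by norm_num) (by omega)
    rw [map_ofNat]
    exact_mod_cast this
  have r2O : (2 : O) ≠ 0 := by intro h0; rw [h0, map_zero] at r2; exact r2 rfl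
  have h4' : 4 * (l2 : O) = (e : O) ^ 2 * l1 + D' := by
    have := congrArg (Int.cast : ℤ → O) h4
    push_cast at this
    exact this
  have key : ∀ y r : ℤ, 4 * (p : ℤ) = l1 * x ^ 2 + D' * y ^ 2 → x = 2 * r + e * y →
      S.red ((x : O) * m1 + (y : O) * κ) = 0 →
      ∑ k ∈ range p, (k.centralBinom : R p) * ((u3 k : ℕ) : R p) * wi ^ k = ((c * (l1 * x ^ 2 - 2 * p) : ℤ) : R p) := by
    intro y r hform hx hr
    have hxO : (x : O) = 2 * r + e * y := by
      have := congrArg (Int.cast : ℤ → O) hx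
      push_cast at this
      exact this
    have hfO : 4 * (p : O) = l1 * x ^ 2 + D' * y ^ 2 := by
      have := congrArg (Int.cast : ℤ → O) hform
      push_cast at this
      exact this
    have hal2 : 2 * ((r : O) * m1 + (y : O) * m2) = (x : O) * m1 + (y : O) * κ := by
      rw [hxO]; linear_combination (y : O) * h2
    have hform' : (p : ℤ) = r ^ 2 * l1 + r * y * (e * l1) + y ^ 2 * l2 := by
      have : 4 * (p : ℤ) = 4 * (r ^ 2 * l1 + r * y * (e * l1) + y ^ 2 * l2) := by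
        rw [hform, hx]; linear_combination (-(y ^ 2)) * h4
      linarith
    refine sum_form S hp5 hq hM hMz hz hz1 hz' ha0 hb0 hm1 hm2 d1 d2 r y (e * l1) hform' hl1 hl2
      ?_ hbig (al := (r : O) * m1 + (y : O) * m2) (τ := x * m1) (c := c) rfl ?_ hc ?_ ?_ hwi
    · nlinarith [mul_nonneg (Int.natCast_nonneg l1) hD']
    · have h0 := congrArg S.red hal2
      rw [hr, map_mul] at h0
      exact (mul_eq_zero.mp h0).resolve_left r2
    · have h8 : (4 : O) ≠ 0 := by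
        have : (4 : O) = 2 * 2 := by norm_num
        rw [this]; exact mul_ne_zero r2O r2O
      apply mul_left_cancel₀ h8
      linear_combination (2 * (x * m1) - 2 * ((r : O) * m1 + (y : O) * m2) - ((x : O) * m1 + y * κ)) * hal2 +
        (x : O) ^ 2 * h1 - (y : O) ^ 2 * hκ - c * hfO
    · push_cast
      linear_combination (-(x : O) ^ 2) * h1
  have hfO : 4 * (p : O) = l1 * x ^ 2 + D' * y ^ 2 := by
    have := congrArg (Int.cast : ℤ → O) hform
    push_cast at this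
    exact this
  have h0 : S.red ((x : O) * m1 + (y : O) * κ) * S.red ((x : O) * m1 - (y : O) * κ) = 0 := by
    rw [← map_mul]
    have : ((x : O) * m1 + (y : O) * κ) * ((x : O) * m1 - (y : O) * κ) = S.q * (4 * c) := by
      rw [hq]; linear_combination (x : O) ^ 2 * h1 - (y : O) ^ 2 * hκ - c * hfO
    rw [this, map_mul, S.red_q, zero_mul]
  rcases mul_eq_zero.mp h0 with h | h
  · exact key y r hform hx h
  · refine key (-y) (r + e * y) (by rw [hform]; ring) (by rw [hx]; ring) ?_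
    push_cast; rw [neg_mul, ← sub_eq_add_neg]; exact h

/-- the supersingular case from an isogeny to the conjugate -/
theorem sum_form_zero {p : ℕ} [hp : Fact p.Prime] [CharP k p] (hp5 : 5 ≤ p) (hq : S.q = (p : O))
    {z m c : O} {M : ℤ} (hMz : (M : O) * (z * (1 - z)) = 27)
    (hz1 : S.red (1 - z) ≠ 0) {n h : Polynomial O}
    (ode : cub (ca (4 * z)) (cb (4 * z)) * Polynomial.C c *
        (Polynomial.derivative n * h - 2 * n * Polynomial.derivative h) ^ 2 =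
      n ^ 3 + Polynomial.C (ca (4 * (1 - z)) * m ^ 4) * Polynomial.C c ^ 2 * n * h ^ 4 +
        Polynomial.C (cb (4 * (1 - z)) * m ^ 6) * Polynomial.C c ^ 3 * h ^ 6)
    (hm : S.red m ≠ 0) (hc : S.red c ≠ 0) (hh : S.red (h.eval 3) ≠ 0)
    (hn : n.eval 3 = 3 * (c * m ^ 2 * h.eval 3 ^ 2))
    (hne : S.red m ≠ (-1) ^ (p / 3) * S.red m ^ p)
    {wi : R p} (hwi : (M : R p) * wi = 1) :
    ∑ k ∈ range p, (k.centralBinom : R p) * ((u3 k : ℕ) : R p) * wi ^ k = 0 := by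
  refine sum_zero S hp5 hq hMz hwi ?_
  rw [lg_cast]
  have h4 : (4 : k) ≠ 0 := by
    have := small_ne (k := k) (p := p) (n := 4) (by norm_num) (by omega)
    exact_mod_cast this
  have key : S.red m * hs p (S.red (4 * z)) = S.red m ^ p * hs p (S.red (4 * (1 - z))) := by
    refine hasse_w (p := p) (by omega) (n := n.map S.red) (d := (Polynomial.C (c * m ^ 2) * h ^ 2).map S.red)
      ?_ ?_ ?_ hm ?_
    · rw [map_mul, map_ofNat]; exact mul_ne_zero h4 hz1
    · have e3 : (3 : k) = S.red 3 := (map_ofNat S.red 3).symm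
      rw [e3, Polynomial.eval_map_apply, Polynomial.eval_map_apply, hn, Polynomial.eval_mul,
        Polynomial.eval_C, Polynomial.eval_pow, ← map_mul]
    · have e3 : (3 : k) = S.red 3 := (map_ofNat S.red 3).symm
      rw [e3, Polynomial.eval_map_apply, Polynomial.eval_mul, Polynomial.eval_C, Polynomial.eval_pow,
        map_mul, map_mul, map_pow, map_pow]
      exact mul_ne_zero (mul_ne_zero hc (pow_ne_zero _ hm)) (pow_ne_zero _ hh)
    · have e1 : cub (ca (4 * z)) (cb (4 * z)) * wr n (Polynomial.C (c * m ^ 2) * h ^ 2) ^ 2 =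
          Polynomial.C m ^ 2 * tgt (ca (4 * (1 - z))) (cb (4 * (1 - z))) n (Polynomial.C (c * m ^ 2) * h ^ 2) := by
        have e1 : wr n (Polynomial.C (c * m ^ 2) * h ^ 2) = Polynomial.C (c * m ^ 2) * h *
            (Polynomial.derivative n * h - 2 * n * Polynomial.derivative h) := by
          simp only [wr, Polynomial.derivative_mul, Polynomial.derivative_C, Polynomial.derivative_pow]
          push_cast
          simp only [map_ofNat]
          ring
        rw [e1]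
        simp only [tgt]
        simp only [Polynomial.C_mul, Polynomial.C_pow] at ode ⊢
        linear_combination (Polynomial.C m ^ 4 * Polynomial.C c * h ^ 2) * ode
      have e2 := congrArg (Polynomial.map S.red) e1
      rw [Polynomial.map_mul, Polynomial.map_mul, Polynomial.map_pow, Polynomial.map_pow, cub_map, wr_map,
        tgt_map, ca_map, cb_map, ca_map, cb_map, Polynomial.map_C] at e2
      exact e2
  rw [map_mul, map_mul, map_ofNat, map_sub, map_one, hs_lg (by omega) (by omega), hs_lg (by omega) (by omega),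
    lg_neg] at key
  have h5 : (S.red m - (-1) ^ (p / 3) * S.red m ^ p) * lg (p / 3) (S.red z) = 0 := by
    linear_combination key
  exact (mul_eq_zero.mp h5).resolve_left (sub_ne_zero.mpr hne)

/-- the Frobenius on a square root of an integer -/
theorem frob_sqrt {k : Type*} [Field k] {p : ℕ} [hp : Fact p.Prime] [CharP k p] (hp2 : p ≠ 2) {d : ℤ}
    {y : k} (hy : y ^ 2 = (d : k)) : y ^ p = (legendreSym p d : k) * y := by
  obtain ⟨e, he⟩ := hp.out.odd_of_ne_two hp2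
  have h1 : y ^ p = (y ^ 2) ^ (p / 2) * y := by
    rw [← pow_mul, ← pow_succ]; congr 1; omega
  rw [h1, hy]
  congr 1
  have h2 := legendreSym.eq_pow p d
  have h3 := congrArg (ZMod.castHom (dvd_refl p) k) h2
  rw [map_pow, map_intCast, map_intCast] at h3
  exact h3.symm

end Pool.Agent.H546
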