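import Pool.Agent.H546.UtilG
import Pool.Agent.H546.Trans

set_option autoImplicit false

/-!
# The Frobenius on quadratic elements; the sum in the supersingular case
-/

namespace Pool.Agent.H546

open Finset
open Pool.Agent.Q267.CDE (R)
open Pool.Agent.Q267.MW (u3)

variable {O K k : Type*} [CommRing O] [IsDomain O] [Field K] [Algebra O K] [Field k]
  (S : DV O K k) {p : ℕ} [hp : Fact p.Prime] [CharP k p]

/-- the Frobenius on a quadratic element -/
theorem DV.frobq (hp2 : p ≠ 2) {n a b d : ℤ} {z σ : O} (h : (n : O) * z = a + b * σ) (hσ : σ ^ 2 = (d : O)) :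
    (n : k) * S.red z ^ p = a + b * ((legendreSym p d : k) * S.red σ) := by
  have h1 := congrArg (fun t => frobenius k p (S.red t)) h
  simp only [map_mul, map_add, map_intCast] at h1
  rw [frobenius_def, frobenius_def, S.frob_sq hp2 hσ] at h1
  exact h1

/-- the supersingular case from a `T`-isogeny to the conjugate -/
theorem sum_ss (hp5 : 5 ≤ p) (hq : S.q = (p : O))
    {z m : O} {M : ℤ} {l : ℕ} {κ : ℤ} (hMz : (M : O) * (z * (1 - z)) = 27)
    (hz1 : S.red (1 - z) ≠ 0) (hm : S.red m ≠ 0) (d : DatT S (4 * z) (4 * (1 - z)) m l κ)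
    (hne : S.red m ≠ (-1) ^ (p / 3) * S.red m ^ p)
    {wi : R p} (hwi : (M : R p) * wi = 1) :
    ∑ k ∈ range p, (k.centralBinom : R p) * ((u3 k : ℕ) : R p) * wi ^ k = 0 := by
  refine sum_zero S hp5 hq hMz hwi ?_
  rw [lg_cast]
  exact ss3 S hp5 hz1 hm d hne

end Pool.Agent.H546
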