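import Pool.Agent.H546.QFin
import Pool.Agent.H546.UtilH
import Pool.Agent.H546.Iso

set_option autoImplicit false

/-!
# The sums of the quartic family in the two types of CM points
-/

namespace Pool.Agent.H546

open Finset
open Pool.Agent.Q267.CDE (R)

section nd

variable {p : ℕ} [hp : Fact p.Prime]

theorem ndvd_fac (l : List (ℕ × ℕ)) (hl : ∀ q ∈ l, q.1.Prime ∧ p ≠ q.1) {n : ℤ}
    (hn : n.natAbs = (l.map fun q => q.1 ^ q.2).prod) : ¬ (p : ℤ) ∣ n := by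
  intro hd
  have hd' : p ∣ (l.map fun q => q.1 ^ q.2).prod := by
    rw [← hn]; exact Int.natCast_dvd.mp hd
  obtain ⟨a, ha, hpa⟩ := (Prime.dvd_prod_iff hp.out.prime).mp hd'
  obtain ⟨q, hq, rfl⟩ := List.mem_map.mp ha
  have h1 := hp.out.dvd_of_dvd_pow hpa
  exact (hl q hq).2 ((Nat.prime_dvd_prime_iff_eq hp.out (hl q hq).1).mp h1)

end nd

section gen

variable {O K k : Type*} [CommRing O] [IsDomain O] [Field K] [Algebra O K] [Field k]
  (S : DV O K k) {p : ℕ} [hp : Fact p.Prime] [CharP k p]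

/-- an isogeny from the list data, all the conditions being integral -/
theorem Dat.of_isoN {s r : O} {D E : Int} {κ m2 zl zl' c1 c2 κi h0i : Q4} {dz R L Nκ Nh : Int}
    {u u1 h h1 u2 h2 u4 uh2 h4 a0 a1 a2 W W2 T1 S1 T2 A B : List Q4}
    (ok : IsoOk D E κ m2 zl zl' c1 c2 dz R u u1 h h1 u2 h2 u4 uh2 h4 a0 a1 a2 W W2 T1 S1 T2 A B)
    (hs : s ^ 2 = D) (hr : r ^ 2 = E) {z z' m : O} {e : ℕ} (hp3 : p ≠ 3)
    (hz : (dz : O) * (4 * z) = e4 s r zl) (hz' : (dz : O) * (4 * z') = e4 s r zl')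
    (hm : m ^ 2 = e4 s r m2) (hul : u.length ≤ e + 1) (hhl : h.length ≤ e + 1)
    (kL : (u.getD e Q4.z0).beq (qi L) = true) (kκ : (Q4.mul D E κ κi).beq (qi Nκ) = true)
    (kh : (Q4.mul D E (h.getD 0 Q4.z0) h0i).beq (qi Nh) = true)
    (hdz : ¬ (p : ℤ) ∣ dz) (hL : ¬ (p : ℤ) ∣ L) (hκ : ¬ (p : ℤ) ∣ Nκ) (hh : ¬ (p : ℤ) ∣ Nh)
    (hR : ¬ (p : ℤ) ∣ R) :
    Dat S (cub (qa z) (qb z)) (qa z') (qb z') m (2 * e + 1) := by
  have h3 : (3 : k) ≠ 0 := by
    have := S.three_ne (p := p) hp3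
    rwa [map_ofNat] at this
  refine Dat.of_iso S ok hs hr h3 hz hz' hm (S.int_ne hdz) hul hhl ?_ ?_ (S.int_ne hR) ?_
  · rw [Q4.eq_of_beq kL, e4_qi]; exact S.int_ne hL
  · have e1 := congrArg (e4 s r) (Q4.eq_of_beq kκ)
    rw [e4_mul hs hr, e4_qi] at e1
    exact S.ne_mul e1 hκ
  · have e1 := congrArg (e4 s r) (Q4.eq_of_beq kh)
    rw [e4_mul hs hr, e4_qi] at e1
    exact S.ne_mul e1 hh

/-- vanishing from an endomorphism whose multiplier is not fixed by the Frobenius -/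
theorem qss (hp5 : 5 ≤ p) (hq : S.q = (p : O)) {z m : O} {l : ℕ} {M : ℤ}
    (hMz : (M : O) * (z * (1 - z)) = 64) (hm : S.red m ≠ 0) (hne : S.red m ^ p ≠ S.red m)
    (d : Dat S (cub (qa z) (qb z)) (qa z) (qb z) m l) {wi : R p} (hwi : (M : R p) * wi = 1) :
    ∑ k ∈ range p, (k.centralBinom : R p) * ((u4 k : ℕ) : R p) * wi ^ k = 0 := by
  refine sum_zero4 S hp5 hq hMz hwi ?_
  rw [lg_cast]
  have h := ssq S hp5 hm d
  have h1 : (S.red m ^ p - S.red m) * lg (p / 4) (S.red z) = 0 := by linear_combination -h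
  rcases mul_eq_zero.mp h1 with h2 | h2
  · exact absurd (sub_eq_zero.mp h2) hne
  · exact h2

theorem z_units (hp2 : p ≠ 2) {z : O} {M : ℤ} (hMz : (M : O) * (z * (1 - z)) = 64) :
    S.red z ≠ 0 ∧ S.red (1 - z) ≠ 0 := by
  have h64 : ¬ (p : ℤ) ∣ 64 := ndvd_fac [(2, 6)] (by simp; exact ⟨by norm_num, hp2⟩) (by norm_num)
  constructor
  · refine S.ne_mul (y := (M : O) * (1 - z)) (n := 64) ?_ h64
    push_cast; linear_combination hMz
  · refine S.ne_mul (y := (M : O) * z) (n := 64) ?_ h64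
    push_cast; linear_combination hMz

/-- principal form, endomorphism `1 + τ` -/
theorem qA1 [IsAlgClosed k] (hp5 : 5 ≤ p) (hq : S.q = (p : O)) {z : O} {M : ℤ} (hM : ¬ (p : ℤ) ∣ M)
    (hMz : (M : O) * (z * (1 - z)) = 64) (hz' : S.red z = S.red z ^ p)
    (ha0 : S.red (qa z) ≠ 0) (hb0 : S.red (qb z) ≠ 0) {n : ℤ} {l : ℕ} {τ : O} (hτ : τ ^ 2 = -(n : O))
    (hn : (l : ℤ) = n + 1) (h1τ : 1 + τ ≠ 0)
    (d : Dat S (cub (qa z) (qb z)) (qa z) (qb z) (1 + τ) l) (hl : ¬ (p : ℤ) ∣ l) (hl0 : 0 < l)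
    (hbig : 16 * l < p ^ 2) (x y : ℤ) (hxy : (p : ℤ) = x ^ 2 + n * y ^ 2)
    {wi : R p} (hwi : (M : R p) * wi = 1) :
    ∑ k ∈ range p, (k.centralBinom : R p) * ((u4 k : ℕ) : R p) * wi ^ k = ((4 * x ^ 2 - 2 * p : ℤ) : R p) := by
  obtain ⟨hz, hz1⟩ := z_units S (p := p) (by omega) hMz
  have hO : (p : O) = (x : O) ^ 2 + n * (y : O) ^ 2 := by
    have := congrArg (Int.cast : ℤ → O) hxy
    push_cast at this; exact this
  have hln : (n : O) = (l : O) - 1 := by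
    have := congrArg (Int.cast : ℤ → O) hn
    push_cast at this; rw [this]; ring
  have key : ∀ y : ℤ, (p : ℤ) = x ^ 2 + n * y ^ 2 → (p : O) = (x : O) ^ 2 + n * (y : O) ^ 2 →
      S.red ((x : O) + y * τ) = 0 → ∑ k ∈ range p, (k.centralBinom : R p) * ((u4 k : ℕ) : R p) * wi ^ k =
        ((4 * x ^ 2 - 2 * p : ℤ) : R p) := by
    intro y hxy hO hr
    refine sum_form4 S hp5 hq hM hMz hz hz1 hz' ha0 hb0 (m1 := 1) (m2 := 1 + τ) (l1 := 1) (l2 := l)
      one_ne_zero h1τ (Dat.id S _ _) d (x - y) y 2 ?_ ?_ hl ?_ (by omega) (al := (x : O) + y * τ)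
      (τ := 2 * x) (c := 1) (E := 4 * x ^ 2 - 2 * p) ?_ hr (by norm_num) ?_ ?_ hwi
    · have h1 : n = (l : ℤ) - 1 := by omega
      rw [hxy, h1]; push_cast; ring
    · intro h1
      have := Int.le_of_dvd (by norm_num) h1
      push_cast at this
      omega
    · push_cast
      have : (1 : ℤ) ≤ l := by exact_mod_cast hl0
      linarith
    · push_cast; ring
    · push_cast; linear_combination (-(y : O) ^ 2) * hτ - hO
    · push_cast; ring
  have h0 : S.red ((x : O) + y * τ) * S.red ((x : O) + ((-y : ℤ) : O) * τ) = 0 := by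
    rw [← map_mul]
    have : ((x : O) + y * τ) * ((x : O) + ((-y : ℤ) : O) * τ) = S.q := by
      rw [hq]; push_cast; linear_combination (-(y : O) ^ 2) * hτ - hO
    rw [this, S.red_q]
  rcases mul_eq_zero.mp h0 with h | h
  · exact key y hxy hO h
  · exact key (-y) (by rw [hxy]; ring) (by rw [hO]; push_cast; ring) h

/-- principal form, endomorphism `τ` -/
theorem qB1 [IsAlgClosed k] (hp5 : 5 ≤ p) (hq : S.q = (p : O)) {z : O} {M : ℤ} (hM : ¬ (p : ℤ) ∣ M)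
    (hMz : (M : O) * (z * (1 - z)) = 64) (hz' : S.red z = S.red z ^ p)
    (ha0 : S.red (qa z) ≠ 0) (hb0 : S.red (qb z) ≠ 0) {l : ℕ} {τ : O} (hτ : τ ^ 2 = -(l : O)) (h1τ : τ ≠ 0)
    (d : Dat S (cub (qa z) (qb z)) (qa z) (qb z) τ l) (hl : ¬ (p : ℤ) ∣ l)
    (hbig : 16 * l < p ^ 2) (x y : ℤ) (hxy : (p : ℤ) = x ^ 2 + l * y ^ 2)
    {wi : R p} (hwi : (M : R p) * wi = 1) :
    ∑ k ∈ range p, (k.centralBinom : R p) * ((u4 k : ℕ) : R p) * wi ^ k = ((4 * x ^ 2 - 2 * p : ℤ) : R p) := by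
  obtain ⟨hz, hz1⟩ := z_units S (p := p) (by omega) hMz
  have hO : (p : O) = (x : O) ^ 2 + l * (y : O) ^ 2 := by
    have := congrArg (Int.cast : ℤ → O) hxy
    push_cast at this; exact this
  have key : ∀ y : ℤ, (p : ℤ) = x ^ 2 + l * y ^ 2 → (p : O) = (x : O) ^ 2 + l * (y : O) ^ 2 →
      S.red ((x : O) + y * τ) = 0 → ∑ k ∈ range p, (k.centralBinom : R p) * ((u4 k : ℕ) : R p) * wi ^ k =
        ((4 * x ^ 2 - 2 * p : ℤ) : R p) := by
    intro y hxy hO hr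
    refine sum_form4 S hp5 hq hM hMz hz hz1 hz' ha0 hb0 (m1 := 1) (m2 := τ) (l1 := 1) (l2 := l)
      one_ne_zero h1τ (Dat.id S _ _) d x y 0 ?_ ?_ hl ?_ (by omega) (al := (x : O) + y * τ)
      (τ := 2 * x) (c := 1) (E := 4 * x ^ 2 - 2 * p) ?_ hr (by norm_num) ?_ ?_ hwi
    · rw [hxy]; push_cast; ring
    · intro h1
      have := Int.le_of_dvd (by norm_num) h1
      push_cast at this
      omega
    · positivity
    · push_cast; ring
    · push_cast; linear_combination (-(y : O) ^ 2) * hτ - hO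
    · push_cast; ring
  have h0 : S.red ((x : O) + y * τ) * S.red ((x : O) + ((-y : ℤ) : O) * τ) = 0 := by
    rw [← map_mul]
    have : ((x : O) + y * τ) * ((x : O) + ((-y : ℤ) : O) * τ) = S.q := by
      rw [hq]; push_cast; linear_combination (-(y : O) ^ 2) * hτ - hO
    rw [this, S.red_q]
  rcases mul_eq_zero.mp h0 with h | h
  · exact key y hxy hO h
  · exact key (-y) (by rw [hxy]; ring) (by rw [hO]; push_cast; ring) h

/-- second class, type A: `2 p = x² + n y²` -/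
theorem qA2 [IsAlgClosed k] (hp5 : 5 ≤ p) (hq : S.q = (p : O)) {z : O} {M : ℤ} (hM : ¬ (p : ℤ) ∣ M)
    (hMz : (M : O) * (z * (1 - z)) = 64) (hz' : S.red (1 - z) = S.red z ^ p)
    (ha0 : S.red (qa z) ≠ 0) (hb0 : S.red (qb z) ≠ 0) {n : ℤ} {l : ℕ} {τ ρ μ : O} (hτ : τ ^ 2 = -(n : O))
    (hρ : ρ ^ 2 = -2) (hμ : 2 * μ = -((1 + τ) * ρ)) (hn : (2 * l : ℤ) = n + 1) (hnodd : n % 2 = 1)
    (hμ0 : μ ≠ 0) (d : Dat S (cub (qa z) (qb z)) (qa (1 - z)) (qb (1 - z)) μ l) (hl : ¬ (p : ℤ) ∣ l) (hl0 : 0 < l)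
    (hbig : 32 * l < p ^ 2) (x y : ℤ) (hxy : (2 * p : ℤ) = x ^ 2 + n * y ^ 2)
    {wi : R p} (hwi : (M : R p) * wi = 1) :
    ∑ k ∈ range p, (k.centralBinom : R p) * ((u4 k : ℕ) : R p) * wi ^ k = ((2 * p - 2 * x ^ 2 : ℤ) : R p) := by
  obtain ⟨hz, hz1⟩ := z_units S (p := p) (by omega) hMz
  have r2 := S.two_ne (p := p) (by omega)
  have r3 := S.three_ne (p := p) (by omega)
  have h2k : (2 : k) ≠ 0 := by rwa [map_ofNat] at r2
  have h3k : (3 : k) ≠ 0 := by rwa [map_ofNat] at r3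
  have h2O : (2 : O) ≠ 0 := by intro h0; rw [h0, map_zero] at r2; exact r2 rfl
  have hρ0 : ρ ≠ 0 := by
    intro h0; rw [h0] at hρ; apply h2O; linear_combination hρ
  have hpar : (x - y) % 2 = 0 := by
    have h1 : (x ^ 2 + n * y ^ 2) % 2 = 0 := by omega
    obtain ⟨m, rfl⟩ : ∃ m, n = 2 * m + 1 := ⟨n / 2, by omega⟩
    have h2 : (x ^ 2 + y ^ 2) % 2 = 0 := by
      have : x ^ 2 + (2 * m + 1) * y ^ 2 = x ^ 2 + y ^ 2 + 2 * (m * y ^ 2) := by ring
      omega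
    have hx : x % 2 = 0 ∨ x % 2 = 1 := by omega
    have hy : y % 2 = 0 ∨ y % 2 = 1 := by omega
    rcases hx with hx | hx <;> rcases hy with hy | hy
    · omega
    · exfalso; rw [pow_two, pow_two, Int.add_emod, Int.mul_emod, Int.mul_emod y y, hx, hy] at h2; omega
    · exfalso; rw [pow_two, pow_two, Int.add_emod, Int.mul_emod, Int.mul_emod y y, hx, hy] at h2; omega
    · omega
  have hO : 2 * (p : O) = (x : O) ^ 2 + n * (y : O) ^ 2 := by
    have := congrArg (Int.cast : ℤ → O) hxy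
    push_cast at this; exact this
  have dν := Dat.mu S (z := z) (m := 1) (r := ρ) (l := 1) (Dat.id S (qa z) (qb z)) h2k h3k hz hρ
  have key : ∀ y : ℤ, (x - y) % 2 = 0 → (2 * p : ℤ) = x ^ 2 + n * y ^ 2 → 2 * (p : O) = (x : O) ^ 2 + n * (y : O) ^ 2 →
      S.red (ρ * ((x : O) - y * τ)) = 0 → ∑ k ∈ range p, (k.centralBinom : R p) * ((u4 k : ℕ) : R p) * wi ^ k =
        ((2 * p - 2 * x ^ 2 : ℤ) : R p) := by
    intro y hpar hxy hO hr
    obtain ⟨a, ha⟩ : ∃ a, 2 * a = x + y := ⟨(x + y) / 2, by omega⟩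
    have haO : 2 * (a : O) = x + y := by
      have := congrArg (Int.cast : ℤ → O) ha
      push_cast at this; exact this
    have hal : 2 * ((a : O) * (1 * ρ) + (y : O) * μ) = ρ * ((x : O) - y * τ) := by
      linear_combination (y : O) * hμ + ρ * haO
    refine sum_form4 S hp5 hq hM hMz hz hz1 hz' ha0 hb0 (m1 := 1 * ρ) (m2 := μ) (l1 := 2 * 1) (l2 := l)
      (mul_ne_zero one_ne_zero hρ0) hμ0 dν d a y (-2) ?_ ?_ hl ?_ (by omega)
      (al := (a : O) * (1 * ρ) + (y : O) * μ)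
      (τ := ρ * x) (c := -1) (E := 2 * p - 2 * x ^ 2) rfl ?_ (by norm_num) ?_ ?_ hwi
    · have h1 : n = 2 * (l : ℤ) - 1 := by omega
      have h2 : x = 2 * a - y := by omega
      have h3 : 2 * (p : ℤ) = 2 * (a ^ 2 * ((2 * 1 : ℕ) : ℤ) + a * y * (-2) + y ^ 2 * l) := by
        rw [hxy, h1, h2]; push_cast; ring
      omega
    · intro h1
      have h2 : p ∣ 2 := by exact_mod_cast h1
      have := Nat.le_of_dvd (by norm_num) h2
      omega
    · push_cast
      have : (1 : ℤ) ≤ l := by exact_mod_cast hl0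
      linarith
    · have h1 := congrArg S.red hal
      rw [hr, map_mul] at h1
      rcases mul_eq_zero.mp h1 with h2 | h2
      · exact absurd h2 r2
      · exact h2
    · have h4 : (2 * 2 : O) ≠ 0 := mul_ne_zero h2O h2O
      apply mul_left_cancel₀ h4
      push_cast
      linear_combination (2 * ρ * (x : O) - (2 * ((a : O) * (1 * ρ) + (y : O) * μ)) - ρ * ((x : O) - y * τ)) * hal +
        ((x : O) ^ 2 - y ^ 2 * τ ^ 2) * hρ + (2 * (y : O) ^ 2) * hτ + 2 * hO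
    · push_cast
      linear_combination (-(x : O) ^ 2) * hρ
  have h0 : S.red (ρ * ((x : O) - y * τ)) * S.red (ρ * ((x : O) - ((-y : ℤ) : O) * τ)) = 0 := by
    rw [← map_mul]
    have : (ρ * ((x : O) - y * τ)) * (ρ * ((x : O) - ((-y : ℤ) : O) * τ)) = S.q * (-4) := by
      rw [hq]; push_cast
      linear_combination ((x : O) ^ 2 - y ^ 2 * τ ^ 2) * hρ + (2 * (y : O) ^ 2) * hτ + 2 * hO
    rw [this, map_mul, S.red_q, zero_mul]
  rcases mul_eq_zero.mp h0 with h | h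
  · exact key y hpar hxy hO h
  · exact key (-y) (by omega) (by rw [hxy]; ring) (by rw [hO]; push_cast; ring) h

/-- second class, type B: `p = 2 x² + l y²` -/
theorem qB2 [IsAlgClosed k] (hp5 : 5 ≤ p) (hq : S.q = (p : O)) {z : O} {M : ℤ} (hM : ¬ (p : ℤ) ∣ M)
    (hMz : (M : O) * (z * (1 - z)) = 64) (hz' : S.red (1 - z) = S.red z ^ p)
    (ha0 : S.red (qa z) ≠ 0) (hb0 : S.red (qb z) ≠ 0) {l : ℕ} {ρ μ : O}
    (hρ : ρ ^ 2 = -2) (hμ : μ ^ 2 = l)
    (hμ0 : μ ≠ 0) (d : Dat S (cub (qa z) (qb z)) (qa (1 - z)) (qb (1 - z)) μ l) (hl : ¬ (p : ℤ) ∣ l)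
    (hbig : 32 * l < p ^ 2) (x y : ℤ) (hxy : (p : ℤ) = 2 * x ^ 2 + l * y ^ 2)
    {wi : R p} (hwi : (M : R p) * wi = 1) :
    ∑ k ∈ range p, (k.centralBinom : R p) * ((u4 k : ℕ) : R p) * wi ^ k = ((2 * p - 8 * x ^ 2 : ℤ) : R p) := by
  obtain ⟨hz, hz1⟩ := z_units S (p := p) (by omega) hMz
  have r2 := S.two_ne (p := p) (by omega)
  have r3 := S.three_ne (p := p) (by omega)
  have h2k : (2 : k) ≠ 0 := by rwa [map_ofNat] at r2
  have h3k : (3 : k) ≠ 0 := by rwa [map_ofNat] at r3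
  have h2O : (2 : O) ≠ 0 := by intro h0; rw [h0, map_zero] at r2; exact r2 rfl
  have hρ0 : ρ ≠ 0 := by
    intro h0; rw [h0] at hρ; apply h2O; linear_combination hρ
  have hO : (p : O) = 2 * (x : O) ^ 2 + l * (y : O) ^ 2 := by
    have := congrArg (Int.cast : ℤ → O) hxy
    push_cast at this; exact this
  have dν := Dat.mu S (z := z) (m := 1) (r := ρ) (l := 1) (Dat.id S (qa z) (qb z)) h2k h3k hz hρ
  have key : ∀ y : ℤ, (p : ℤ) = 2 * x ^ 2 + l * y ^ 2 → (p : O) = 2 * (x : O) ^ 2 + l * (y : O) ^ 2 →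
      S.red ((x : O) * (1 * ρ) + (y : O) * μ) = 0 →
      ∑ k ∈ range p, (k.centralBinom : R p) * ((u4 k : ℕ) : R p) * wi ^ k =
        ((2 * p - 8 * x ^ 2 : ℤ) : R p) := by
    intro y hxy hO hr
    refine sum_form4 S hp5 hq hM hMz hz hz1 hz' ha0 hb0 (m1 := 1 * ρ) (m2 := μ) (l1 := 2 * 1) (l2 := l)
      (mul_ne_zero one_ne_zero hρ0) hμ0 dν d x y 0 ?_ ?_ hl ?_ (by omega)
      (al := (x : O) * (1 * ρ) + (y : O) * μ)
      (τ := 2 * x * ρ) (c := -1) (E := 2 * p - 8 * x ^ 2) rfl hr (by norm_num) ?_ ?_ hwi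
    · rw [hxy]; push_cast; ring
    · intro h1
      have h2 : p ∣ 2 := by exact_mod_cast h1
      have := Nat.le_of_dvd (by norm_num) h2
      omega
    · positivity
    · push_cast
      linear_combination (x : O) ^ 2 * hρ - (y : O) ^ 2 * hμ + hO
    · push_cast
      linear_combination (-4 * (x : O) ^ 2) * hρ
  have h0 : S.red ((x : O) * (1 * ρ) + (y : O) * μ) * S.red ((x : O) * (1 * ρ) + ((-y : ℤ) : O) * μ) = 0 := by
    rw [← map_mul]
    have : ((x : O) * (1 * ρ) + (y : O) * μ) * ((x : O) * (1 * ρ) + ((-y : ℤ) : O) * μ) = S.q * (-1) := by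
      rw [hq]; push_cast
      linear_combination (x : O) ^ 2 * hρ - (y : O) ^ 2 * hμ + hO
    rw [this, map_mul, S.red_q, zero_mul]
  rcases mul_eq_zero.mp h0 with h | h
  · exact key y hxy hO h
  · exact key (-y) (by rw [hxy]; ring) (by rw [hO]; push_cast; ring) h

end gen

/-- transfer to the rational numbers -/
theorem tr4 {p : ℕ} [hp : Fact p.Prime] {M : ℤ} (hM : ¬ (p : ℤ) ∣ M) {wi : R p} (hwi : (M : R p) * wi = 1)
    (E : ℤ) (h : ∑ k ∈ range p, (k.centralBinom : R p) * ((u4 k : ℕ) : R p) * wi ^ k = (E : R p)) :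
    p.Coprime (((∑ k ∈ range p, (((4 * k).factorial : ℚ) / ((k.factorial : ℚ) ^ 4)) / (M : ℚ) ^ k) -
      (E : ℚ)) / (p : ℚ) ^ 2).den := by
  have h := den_of_R (p := p) (fun k => ((k.centralBinom * u4 k : ℕ) : ℤ))
    M hM wi hwi E (by rw [← h]; refine sum_congr rfl fun k _ => ?_; push_cast; rfl)
  rw [Nat.Prime.coprime_iff_not_dvd hp.out]
  have e : ∑ k ∈ range p, (((4 * k).factorial : ℚ) / ((k.factorial : ℚ) ^ 4)) / (M : ℚ) ^ k =
      ∑ k ∈ range p, (((k.centralBinom * u4 k : ℕ) : ℤ) : ℚ) / (M : ℚ) ^ k := by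
    refine sum_congr rfl fun k _ => ?_
    congr 1
    have hk : (k.factorial : ℚ) ≠ 0 := by exact_mod_cast k.factorial_ne_zero
    have h2k : ((2 * k).factorial : ℚ) ≠ 0 := by exact_mod_cast (2 * k).factorial_ne_zero
    have h1 : k.centralBinom * k.factorial * k.factorial = (2 * k).factorial := by
      have := Nat.choose_mul_factorial_mul_factorial (show k ≤ 2 * k by omega)
      rw [show 2 * k - k = k by omega] at this
      exact this
    have h2 : (2 * k).centralBinom * (2 * k).factorial * (2 * k).factorial = (4 * k).factorial := by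
      have := Nat.choose_mul_factorial_mul_factorial (show 2 * k ≤ 2 * (2 * k) by omega)
      rw [show 2 * (2 * k) - 2 * k = 2 * k by omega] at this
      rw [show 4 * k = 2 * (2 * k) by ring]
      exact this
    have h1' : (k.centralBinom : ℚ) * k.factorial * k.factorial = (2 * k).factorial := by exact_mod_cast h1
    have h2' : ((2 * k).centralBinom : ℚ) * (2 * k).factorial * (2 * k).factorial = (4 * k).factorial := by
      exact_mod_cast h2
    rw [div_eq_iff (pow_ne_zero 4 hk), ← h2', ← h1', u4]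
    push_cast
    ring
  rw [e]
  exact h

end Pool.Agent.H546
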