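import Pool.Agent.H546.Trunc

set_option autoImplicit false
set_option maxHeartbeats 4000000

/-!
# The unit root modulo `p²` for the cubic family, with sign and with more coefficients
-/

namespace Pool.Agent.H546

open PowerSeries

variable {O K k : Type*} [CommRing O] [IsDomain O] [Field K] [Algebra O K] [Field k]
  (S : DV O K k)

/-- **The unit root modulo `p²` for the cubic family, with sign.** -/
theorem key3b {p : ℕ} [hp : Fact p.Prime] [CharP k p] (hp11 : 10 < p) (hq : S.q = (p : O))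
    {z z' w : O} (hz : S.red (4 * z) ≠ 0) (hA' : S.red (4 * z') = S.red (4 * z) ^ p) (hw : S.red w ≠ 0)
    {N D M : Polynomial O} (hN : N.map S.red = Polynomial.X ^ p) (hD : D.map S.red = 1)
    (hNd : N.natDegree ≤ p) (hDd : D.natDegree < p) (hwr : wr N D = Polynomial.C S.q * M)
    (ode : wu (4 * z) * M ^ 2 = Polynomial.C w ^ 2 * tu (4 * z') N D) :
    ∃ ε : O, (ε = 1 ∨ ε = -1) ∧ S.red (M.coeff 0) = S.red ε * S.red w ∧
      S.q ^ 2 ∣ ε * w * (2 * coeff (1 * p - 1) (cs3 z) + coeff (2 * p - 1) (cs3 z)) - 3 ∧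
      S.q ^ 2 ∣ ε * w * (5 * coeff (4 * p - 1) (cs3 z) + 4 * coeff (5 * p - 1) (cs3 z)) - 9 * (1 - 2 * z') := by
  have hp2 : p ≠ 2 := by omega
  have hp0 := hp.out.pos
  have hp2' := hp.out.two_le
  obtain ⟨T, hNT, -, hTc⟩ := corr S hp2 hq hz hA' hw hN hD hNd hDd hwr ode
  set q := S.q with hqd
  have hq0 : q ≠ 0 := S.q_ne
  have hCq : (C q : O⟦X⟧) ≠ 0 := fun h => hq0 (by
    have := congrArg constantCoeff h
    simpa using this)
  -- names
  set al := Polynomial.aeval (R := O) (us O) with hal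
  have alC : ∀ c : O, al (Polynomial.C c) = C c := fun c => by
    rw [hal, Polynomial.aeval_C]; rfl
  have alX : al Polynomial.X = us O := Polynomial.aeval_X _
  have alD : ∀ P : Polynomial O, d⁄dX O (al P) = al (Polynomial.derivative P) * d⁄dX O (us O) := by
    intro P
    induction P using Polynomial.induction_on' with
    | add P Q h1 h2 => rw [map_add, map_add, map_add, map_add, h1, h2]; ring
    | monomial n a =>
      rw [← Polynomial.C_mul_X_pow_eq_monomial, map_mul, map_pow, alC, alX, Derivation.leibniz,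
        derivative_C, derivative_pow, Polynomial.derivative_C_mul, Polynomial.derivative_X_pow,
        map_mul, map_mul, map_pow, alC, alX, smul_eq_mul, smul_eq_mul, map_natCast, map_natCast]
      ring
  obtain ⟨D1, hD1⟩ := S.dvd_of_map (P := D - 1) (by
    rw [Polynomial.map_sub, hD, Polynomial.map_one, sub_self])
  have hDe : al D = 1 + C q * al D1 := by
    have : D = 1 + Polynomial.C q * D1 := by rw [← hD1]; ring
    conv_lhs => rw [this]
    rw [map_add, map_one, map_mul, alC]
  have hDu : IsUnit (al D) := by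
    rw [PowerSeries.isUnit_iff_constantCoeff]
    apply S.unit_of_red
    rw [hDe, map_add, map_mul, map_one, constantCoeff_C, map_add, map_mul, map_one, S.red_q]
    simp
  obtain ⟨iD, hiD⟩ := hDu.exists_left_inv
  set us' := d⁄dX O (us O) with hus'
  have hus'e : us' = g1 O ^ 3 * (1 + X) := us_der O
  set U := al N * iD with hU
  set U1 := al M * us' * iD ^ 2 with hU1
  set v := us O ^ p with hv
  set η := al T * iD with hη
  have hUv : U = v + C q * η := by
    rw [hU, hNT, map_add, map_mul, map_mul, map_pow, alC, alX]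
    linear_combination v * hiD
  -- derivative of U
  have hiD' : d⁄dX O iD = - iD ^ 2 * (al (Polynomial.derivative D) * us') := by
    have h := congrArg (d⁄dX O) hiD
    rw [Derivation.leibniz, derivative_one, smul_eq_mul, smul_eq_mul, alD] at h
    linear_combination iD * h - (d⁄dX O iD) * hiD
  have hdU : d⁄dX O U = C q * U1 := by
    have hw' : al (Polynomial.derivative N) * al D - al N * al (Polynomial.derivative D) = C q * al M := by
      rw [← alC, ← map_mul al (Polynomial.C q), ← hwr, wr, map_sub, map_mul, map_mul]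
    rw [hU, Derivation.leibniz, smul_eq_mul, smul_eq_mul, alD, hiD', hU1]
    linear_combination us' * iD ^ 2 * hw' - us' * iD * al (Polynomial.derivative N) * hiD
  set v1 := us O ^ (p - 1) * us' with hv1
  have hCp : (C q : O⟦X⟧) = (p : O⟦X⟧) := by rw [hq, map_natCast]
  have hdv : d⁄dX O v = C q * v1 := by
    rw [hv, derivative_pow, hCp, hv1]; ring
  have hU1e : U1 = v1 + d⁄dX O η := by
    apply mul_left_cancel₀ hCq
    rw [← hdU, hUv, map_add, hdv, Derivation.leibniz, derivative_C, smul_eq_mul, smul_eq_mul]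
    ring
  -- the differential equation
  have hps := ps3_sq z
  set y2 : O⟦X⟧ := (1 - X ^ 3) ^ 2 + 4 * C z * X ^ 3 with hy2
  have hfam := fam_alg z
  rw [← hal, ← hy2] at hfam
  have hode := congrArg al ode
  rw [map_mul, map_mul, map_pow, map_pow, alC, hfam] at hode
  have htu : al (tu (4 * z') N D) = al D * (C (4 * z') * al N ^ 3 + (3 * al N + al D) ^ 2 * al D) := by
    simp only [tu, map_mul, map_add, map_pow, alC, map_ofNat]
  rw [htu] at hode
  set c := cs3 z with hc
  have hc2 : c ^ 2 * y2 = (1 + X) ^ 2 := by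
    rw [hc, cs3]; linear_combination (1 + X) ^ 2 * hps
  have hde : U1 ^ 2 = C w ^ 2 * c ^ 2 * (C (4 * z') * U ^ 3 + (3 * U + 1) ^ 2) := by
    have e1 : U1 ^ 2 * y2 = C w ^ 2 * (1 + X) ^ 2 * (C (4 * z') * U ^ 3 + (3 * U + 1) ^ 2) := by
      have e2 : C (4 * z') * U ^ 3 + (3 * U + 1) ^ 2 =
          iD ^ 4 * (al D * (C (4 * z') * al N ^ 3 + (3 * al N + al D) ^ 2 * al D)) := by
        rw [hU]
        have h3 : (3 * (al N * iD) + 1) = iD * (3 * al N + al D) := by
          linear_combination -hiD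
        rw [h3]
        linear_combination (-(C (4 * z') * al N ^ 3 * iD ^ 3) - (iD * (3 * al N + al D)) ^ 2 * (iD * al D + 1)) * hiD
      rw [e2, hU1, hus'e]
      linear_combination (1 + X) ^ 2 * iD ^ 4 * hode
    have hps2 := hps
    calc U1 ^ 2 = ps3 z ^ 2 * (U1 ^ 2 * y2) := by linear_combination (-U1 ^ 2) * hps
      _ = _ := by rw [e1, hc, cs3]; ring
  -- modulo the ideal
  set I := idn (5 * p) q with hI
  have hv5 : v ^ 5 ∈ I := by
    have : v ^ 5 = X ^ (5 * p) * (g1 O ^ (2 * p)) ^ 5 := by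
      rw [hv, us_pow_eq]; ring
    rw [this]
    exact I.mul_mem_right _ (X_memn (5 * p) q)
  have hU6 : U ^ 6 ∈ I := by
    have : U ^ 6 = v ^ 5 * (v + 6 * C q * η) + C q ^ 2 * (15 * v ^ 4 * η ^ 2 + 20 * C q * v ^ 3 * η ^ 3 +
        15 * C q ^ 2 * v ^ 2 * η ^ 4 + 6 * C q ^ 3 * v * η ^ 5 + C q ^ 4 * η ^ 6) := by
      rw [hUv]; ring
    rw [this]
    exact I.add_mem (I.mul_mem_right _ hv5) (I.mul_mem_right _ (q2_memn _ q))
  set G := gt (C z') U with hG
  set B := C w * c with hB
  have hC4 : C (4 * z') = 4 * C z' := by rw [map_mul, map_ofNat]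
  have hsq : (G * U1) ^ 2 - B ^ 2 ∈ I := by
    have h1 := gt_sq (C z') U
    rw [← hG] at h1
    rw [hC4] at hde
    have : (G * U1) ^ 2 - B ^ 2 = U ^ 6 * (B ^ 2 * (46656 * U ^ 7 * C z' ^ 3 + 209952 * U ^ 7 * C z' ^ 2 + 236196 * U ^ 7 * C z' - 15552 * U ^ 6 * C z' ^ 3 + 314928 * U ^ 6 * C z' + 531441 * U ^ 6 + 3024 * U ^ 5 * C z' ^ 3 + 73872 * U ^ 5 * C z' ^ 2 + 157464 * U ^ 5 * C z' - 288 * U ^ 4 * C z' ^ 3 - 17820 * U ^ 4 * C z' ^ 2 - 52488 * U ^ 4 * C z' + 16 * U ^ 3 * C z' ^ 3 + 4320 * U ^ 3 * C z' ^ 2 + 17496 * U ^ 3 * C z' - 1080 * U ^ 2 * C z' ^ 2 - 5832 * U ^ 2 * C z' + 144 * U * C z' ^ 2 + 1620 * U * C z' - 12 * C z' ^ 2 - 1080 * C z' - 1458)) := by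
      rw [mul_pow, hde, hB]
      linear_combination (C w ^ 2 * c ^ 2) * h1
    rw [this]
    exact I.mul_mem_right _ hU6
  -- the sign
  have hv0 : constantCoeff v = 0 := by
    rw [hv, map_pow, us_const, zero_pow hp.out.ne_zero]
  have hc0 : constantCoeff c = 1 := by
    have := cs3_coeff z 1 (by norm_num)
    rw [hc, ← coeff_zero_eq_constantCoeff]
    simpa [lg_zero] using this
  have hrq : S.red q = 0 := S.red_q
  have hU0 : S.red (constantCoeff U) = 0 := by
    rw [hUv, map_add, hv0, zero_add, map_mul, constantCoeff_C, map_mul, hrq, zero_mul]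
  have hG0 : S.red (constantCoeff G) = 1 := by
    rw [hG]
    unfold gt
    simp only [map_add, map_sub, map_mul, map_pow, hU0, map_one]
    ring
  have hB0 : S.red (constantCoeff B) = S.red w := by
    rw [hB, map_mul, constantCoeff_C, hc0, mul_one]
  have hs2 : S.red (constantCoeff U1) ^ 2 = S.red w ^ 2 := by
    have h1 := idn_coeff hsq (m := 0) (by omega)
    rw [coeff_zero_eq_constantCoeff] at h1
    have h2 : S.red (constantCoeff ((G * U1) ^ 2 - B ^ 2)) = 0 := by
      rw [S.red_iff]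
      exact (dvd_pow_self _ two_ne_zero).trans h1
    rw [map_sub, map_pow, map_pow, map_sub, map_pow, map_pow, hB0, map_mul, map_mul, hG0, one_mul] at h2
    linear_combination h2
  have hU1M : S.red (constantCoeff U1) = S.red (M.coeff 0) := by
    have h1 : ∀ P : Polynomial O, constantCoeff (al P) = P.coeff 0 := by
      intro P
      rw [hal]
      induction P using Polynomial.induction_on' with
      | add P Q h1 h2 => rw [map_add, map_add, h1, h2, Polynomial.coeff_add]
      | monomial n a =>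
        rw [← Polynomial.C_mul_X_pow_eq_monomial, map_mul, map_pow, Polynomial.aeval_X, Polynomial.aeval_C,
          map_mul, map_pow, us_const, Polynomial.coeff_C_mul, Polynomial.coeff_X_pow]
        have : constantCoeff ((algebraMap O O⟦X⟧) a) = a := by
          rw [show (algebraMap O O⟦X⟧) a = C a from rfl, constantCoeff_C]
        rw [this]
        rcases n with _ | n
        · simp
        · simp
    have hD0 : S.red (D.coeff 0) = 1 := by
      rw [← Polynomial.coeff_map, hD, Polynomial.coeff_one_zero]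
    have hi0 : S.red (constantCoeff iD) = 1 := by
      have := congrArg (fun x => S.red (constantCoeff x)) hiD
      simp only [map_mul, map_one, h1, hD0, mul_one] at this
      exact this
    rw [hU1, map_mul, map_mul, map_mul, map_mul, map_pow, map_pow, hi0, h1, us_der_const, map_one]
    ring
  obtain ⟨ε, hε1, hεs⟩ : ∃ ε : O, (ε = 1 ∨ ε = -1) ∧ S.red (constantCoeff U1) = S.red ε * S.red w := by
    rcases sq_eq_sq_iff_eq_or_eq_neg.mp hs2 with h | h
    · exact ⟨1, Or.inl rfl, by rw [h, map_one, one_mul]⟩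
    · exact ⟨-1, Or.inr rfl, by rw [h, map_neg, map_one]; ring⟩
  have hε : ε ^ 2 = 1 := by rcases hε1 with h | h <;> rw [h] <;> ring
  have h2k : (2 : k) ≠ 0 := by
    intro h2
    have : ((2 : ℕ) : k) = 0 := by exact_mod_cast h2
    rw [CharP.cast_eq_zero_iff k p] at this
    exact hp2 ((Nat.prime_dvd_prime_iff_eq hp.out (by norm_num)).mp this)
  have hεr : S.red ε ≠ 0 := by
    intro h0
    have := congrArg S.red hε
    rw [map_pow, h0, map_one] at this
    simp at this
  have hunit : IsUnit (G * U1 + C ε * B) := by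
    rw [PowerSeries.isUnit_iff_constantCoeff]
    apply S.unit_of_red
    simp only [map_add, map_mul, constantCoeff_C, hB0, hεs, hG0]
    have : 1 * (S.red ε * S.red w) + S.red ε * S.red w = 2 * (S.red ε * S.red w) := by ring
    rw [this]
    exact mul_ne_zero h2k (mul_ne_zero hεr hw)
  have hlin : G * U1 - C ε * B ∈ I := by
    obtain ⟨iu, hiu⟩ := hunit.exists_left_inv
    have hCε : (C ε : O⟦X⟧) ^ 2 = 1 := by rw [← map_pow, hε, map_one]
    have : G * U1 - C ε * B = ((G * U1) ^ 2 - B ^ 2) * iu := by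
      linear_combination (-(G * U1 - C ε * B)) * hiu + (-iu * B ^ 2) * hCε
    rw [this]
    exact I.mul_mem_right _ hsq
  -- expansion of `G`
  set g0 := gt (C z') v with hg0
  set g1' := gt1 (C z') v with hg1'
  set g2' := gt2 (C z') v with hg2'
  have hGe : G - (g0 + C q * η * g1') ∈ I := by
    rw [hG, hUv]
    refine gt_add (C z') v (C q * η) I ?_
    have : (C q * η) ^ 2 = C q ^ 2 * η ^ 2 := by ring
    rw [this]
    exact I.mul_mem_right _ (q2_memn _ q)
  have hdg0 : d⁄dX O g0 = g1' * (C q * v1) := by rw [hg0, gt_der, hdv]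
  have hdg1 : d⁄dX O g1' = g2' * (C q * v1) := by rw [hg1', gt1_der, hdv]
  have hfin : 2 * (C (ε * w) * c) - (2 * (g0 * v1) + 2 * d⁄dX O (g0 * η) + C q * d⁄dX O (g1' * η ^ 2)) ∈ I := by
    have e1 : d⁄dX O (g0 * η) = g0 * d⁄dX O η + η * (g1' * (C q * v1)) := by
      rw [Derivation.leibniz, hdg0, smul_eq_mul, smul_eq_mul]
    have e2 : d⁄dX O (g1' * η ^ 2) = 2 * g1' * η * d⁄dX O η + η ^ 2 * (g2' * (C q * v1)) := by
      rw [Derivation.leibniz, hdg1, derivative_pow, smul_eq_mul, smul_eq_mul]; push_cast; ring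
    have : 2 * (C (ε * w) * c) - (2 * (g0 * v1) + 2 * d⁄dX O (g0 * η) + C q * d⁄dX O (g1' * η ^ 2)) =
        -2 * (G * U1 - C ε * B) + (G - (g0 + C q * η * g1')) * (2 * U1) - C q ^ 2 * (η ^ 2 * g2' * v1) := by
      rw [e1, e2, hB, map_mul, hU1e]; ring
    rw [this]
    exact I.sub_mem (I.add_mem (I.mul_mem_left _ hlin) (I.mul_mem_right _ hGe)) (I.mul_mem_right _ (q2_memn _ q))
  -- coefficients
  have cpN : ∀ N : ℕ, 1 ≤ N → (((N * p - 1 : ℕ) : O) + 1) = N * q := by
    intro N hN
    have h1 : 1 ≤ N * p := Nat.mul_pos hN hp0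
    rw [hq]
    have := Nat.cast_succ (R := O) (N * p - 1)
    rw [show (N * p - 1).succ = N * p by omega] at this
    rw [← this]; push_cast; ring
  have h2u : IsUnit (2 : O) := S.unit_of_red (by rw [map_ofNat]; exact h2k)
  obtain ⟨i2, hi2⟩ := h2u.exists_left_inv
  have cf : ∀ N : ℕ, 1 ≤ N → N ≤ 5 → q ^ 2 ∣ ε * w * coeff (N * p - 1) c -
      (coeff (N * p - 1) (g0 * v1) + N * q * coeff (N * p) (g0 * η)) := by
    intro N hN1 hN5
    have h1 : 1 ≤ N * p := Nat.mul_pos hN1 hp0
    have h2 : N * p ≤ 5 * p := Nat.mul_le_mul_right _ hN5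
    have h3 := idn_coeff hfin (m := N * p - 1) (by omega)
    have e2 : (2 : O⟦X⟧) = C 2 := (map_ofNat C 2).symm
    rw [e2, map_sub, map_add, map_add, coeff_C_mul, coeff_C_mul, coeff_C_mul, coeff_C_mul, coeff_C_mul,
      coeff_derivative, coeff_derivative, cpN N hN1, show N * p - 1 + 1 = N * p by omega] at h3
    obtain ⟨e, he⟩ := h3
    refine ⟨i2 * (e + N * coeff (N * p) (g1' * η ^ 2)), ?_⟩
    linear_combination i2 * he - (ε * w * coeff (N * p - 1) c -
      (coeff (N * p - 1) (g0 * v1) + N * q * coeff (N * p) (g0 * η))) * hi2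
  -- the leading part
  have hv1p : ∀ i : ℕ, v ^ i * v1 = us O ^ ((i + 1) * p - 1) * us' := by
    intro i
    rw [hv, hv1, ← pow_mul, ← mul_assoc, ← pow_add]
    congr 2
    rw [Nat.add_mul]
    have : p * i = i * p := mul_comm _ _
    omega
  have lead : ∀ N : ℕ, coeff (N * p - 1) (g0 * v1) =
      coeff (N * p - 1) (us O ^ (1 * p - 1) * us') - 3 * coeff (N * p - 1) (us O ^ (2 * p - 1) * us') +
      9 * coeff (N * p - 1) (us O ^ (3 * p - 1) * us') +
      (-27 - 2 * z') * coeff (N * p - 1) (us O ^ (4 * p - 1) * us') +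
      (81 + 18 * z') * coeff (N * p - 1) (us O ^ (5 * p - 1) * us') +
      (-243 - 108 * z') * coeff (N * p - 1) (us O ^ (6 * p - 1) * us') := by
    intro N
    have e : g0 * v1 = v ^ 0 * v1 - C 3 * (v ^ 1 * v1) + C 9 * (v ^ 2 * v1) +
        C (-27 - 2 * z') * (v ^ 3 * v1) + C (81 + 18 * z') * (v ^ 4 * v1) +
        C (-243 - 108 * z') * (v ^ 5 * v1) := by
      rw [hg0]; unfold gt
      simp only [map_mul, map_sub, map_add, map_neg, map_ofNat]
      ring
    have w0 : v ^ 0 * v1 = us O ^ (1 * p - 1) * us' := hv1p 0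
    have w1 : v ^ 1 * v1 = us O ^ (2 * p - 1) * us' := hv1p 1
    have w2 : v ^ 2 * v1 = us O ^ (3 * p - 1) * us' := hv1p 2
    have w3 : v ^ 3 * v1 = us O ^ (4 * p - 1) * us' := hv1p 3
    have w4 : v ^ 4 * v1 = us O ^ (5 * p - 1) * us' := hv1p 4
    have w5 : v ^ 5 * v1 = us O ^ (6 * p - 1) * us' := hv1p 5
    rw [e, w0, w1, w2, w3, w4, w5]
    generalize (-27 - 2 * z' : O) = k3
    generalize (81 + 18 * z' : O) = k4
    generalize (-243 - 108 * z' : O) = k5
    simp only [map_add, map_sub, coeff_C_mul]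
  have hzero : ∀ N j : ℕ, N < j → coeff (N * p - 1) (us O ^ (j * p - 1) * us') = 0 := by
    intro N j h
    have h1 : N * p + p ≤ j * p := by
      have : (N + 1) * p ≤ j * p := Nat.mul_le_mul_right _ h
      rwa [Nat.add_mul, one_mul] at this
    rw [us_pow_eq, mul_assoc]
    exact coeff_X_dvd (by omega) _
  have c11 := cNj S hq 1 1 1 (by norm_num) (by norm_num) (by omega) (by decide)
  have c21 := cNj S hq 2 1 4 (by norm_num) (by norm_num) (by omega) (by decide)
  have c22 := cNj S hq 2 2 1 (by norm_num) (by norm_num) (by omega) (by decide)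
  have c41 := cNj S hq 4 1 16 (by norm_num) (by norm_num) (by omega) (by decide)
  have c42 := cNj S hq 4 2 20 (by norm_num) (by norm_num) (by omega) (by decide)
  have c43 := cNj S hq 4 3 8 (by norm_num) (by norm_num) (by omega) (by decide)
  have c44 := cNj S hq 4 4 1 (by norm_num) (by norm_num) (by omega) (by decide)
  have c51 := cNj S hq 5 1 25 (by norm_num) (by norm_num) (by omega) (by decide)
  have c52 := cNj S hq 5 2 50 (by norm_num) (by norm_num) (by omega) (by decide)
  have c53 := cNj S hq 5 3 35 (by norm_num) (by norm_num) (by omega) (by decide)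
  have c54 := cNj S hq 5 4 10 (by norm_num) (by norm_num) (by omega) (by decide)
  have c55 := cNj S hq 5 5 1 (by norm_num) (by norm_num) (by omega) (by decide)
  rw [← hus', ← hqd] at c11 c21 c22 c41 c42 c43 c44 c51 c52 c53 c54 c55
  push_cast at c11 c21 c22 c41 c42 c43 c44 c51 c52 c53 c54 c55
  obtain ⟨d11, c11⟩ := c11
  obtain ⟨d21, c21⟩ := c21
  obtain ⟨d22, c22⟩ := c22
  obtain ⟨d41, c41⟩ := c41
  obtain ⟨d42, c42⟩ := c42
  obtain ⟨d43, c43⟩ := c43
  obtain ⟨d44, c44⟩ := c44
  obtain ⟨d51, c51⟩ := c51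
  obtain ⟨d52, c52⟩ := c52
  obtain ⟨d53, c53⟩ := c53
  obtain ⟨d54, c54⟩ := c54
  obtain ⟨d55, c55⟩ := c55
  -- the residue computation
  set τ := PowerSeries.map S.red (al T) with hτ
  have husb : PowerSeries.map S.red (us O) = us k := by
    unfold us g1
    rw [map_mul, map_pow, PowerSeries.map_X]
    congr 2
    ext n
    simp
  have hmap : PowerSeries.map S.red (g0 * η) = gt (C (S.red z')) (us k ^ p) * τ := by
    have hbq : PowerSeries.map S.red (C q) = 0 := by
      rw [PowerSeries.map_C, hrq, map_zero]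
    have hbD : PowerSeries.map S.red (al D) = 1 := by
      rw [hDe, map_add, map_one, map_mul, hbq, zero_mul, add_zero]
    have hbiD : PowerSeries.map S.red iD = 1 := by
      have := congrArg (PowerSeries.map S.red) hiD
      rw [map_mul, hbD, mul_one, map_one] at this
      exact this
    rw [map_mul, hη, map_mul, hbiD, mul_one, ← hτ, hg0]
    unfold gt
    simp only [map_add, map_sub, map_mul, map_neg, map_pow, map_one, map_ofNat, PowerSeries.map_C, hv, husb]
  have htt : ∀ m, 1 ≤ m → coeff (m * p) τ = m * coeff p τ := by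
    intro m hm
    rw [hτ, PowerSeries.coeff_map, PowerSeries.coeff_map]
    exact corr_coeffm S T hTc m hm
  obtain ⟨s1, s2⟩ := gt_coeffs (S.red z') τ htt
  rw [← hmap, PowerSeries.coeff_map, PowerSeries.coeff_map, ← map_add] at s1
  rw [← hmap, PowerSeries.coeff_map, PowerSeries.coeff_map, ← map_add] at s2
  obtain ⟨e1, he1⟩ := (S.red_iff _).mp s1
  obtain ⟨e2, he2⟩ := (S.red_iff _).mp s2
  rw [← hqd] at he1 he2
  obtain ⟨f1, hf1⟩ := cf 1 (by norm_num) (by norm_num)
  obtain ⟨f2, hf2⟩ := cf 2 (by norm_num) (by norm_num)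
  obtain ⟨f4, hf4⟩ := cf 4 (by norm_num) (by norm_num)
  obtain ⟨f5, hf5⟩ := cf 5 (by norm_num) (by norm_num)
  rw [lead, hzero 1 2 (by norm_num), hzero 1 3 (by norm_num), hzero 1 4 (by norm_num), hzero 1 5 (by norm_num),
    hzero 1 6 (by norm_num)] at hf1
  rw [lead, hzero 2 3 (by norm_num), hzero 2 4 (by norm_num), hzero 2 5 (by norm_num),
    hzero 2 6 (by norm_num)] at hf2
  rw [lead, hzero 4 5 (by norm_num), hzero 4 6 (by norm_num)] at hf4
  rw [lead, hzero 5 6 (by norm_num)] at hf5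
  push_cast at hf1 hf2 hf4 hf5
  refine ⟨ε, hε1, by rw [← hU1M]; exact hεs, ?_, ?_⟩
  · refine ⟨2 * f1 + f2 + 2 * d11 + d21 - 3 * d22 + 2 * e1, ?_⟩
    linear_combination 2 * hf1 + hf2 + 2 * c11 + c21 - 3 * c22 + 2 * q * he1
  · refine ⟨5 * f4 + 4 * f5 + 5 * (d41 - 3 * d42 + 9 * d43 + (-27 - 2 * z') * d44) +
      4 * (d51 - 3 * d52 + 9 * d53 + (-27 - 2 * z') * d54 + (81 + 18 * z') * d55) + 20 * e2, ?_⟩
    linear_combination 5 * hf4 + 4 * hf5 + 5 * (c41 - 3 * c42 + 9 * c43 + (-27 - 2 * z') * c44) +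
      4 * (c51 - 3 * c52 + 9 * c53 + (-27 - 2 * z') * c54 + (81 + 18 * z') * c55) + 20 * q * he2

end Pool.Agent.H546
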