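import Pool.Agent.H546.Sign1
import Pool.Agent.H546.Key3b
import Pool.Agent.H546.Fin3

set_option autoImplicit false

/-!
# The sign: the point of order three
-/

namespace Pool.Agent.H546

open Polynomial WeierstrassCurve WeierstrassCurve.Affine WithZero
open Pool.Agent.Q267.MW (SW io io_inj io_ne)

variable {O K k : Type*} [CommRing O] [IsDomain O] [Field K] [Algebra O K] [Field k]
  (S : DV O K k)

/-- an explicit isogeny, with its polynomials -/
def DatE (f : O[X]) (a b m : O) (l : ℕ) (n d : O[X]) : Prop :=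
  f * wr n d ^ 2 = C m ^ 2 * tgt a b n d ∧ d ≠ 0 ∧ d.natDegree < n.natDegree ∧
    n.natDegree = l ∧ IsCoprime (n.map (algebraMap O K)) (d.map (algebraMap O K)) ∧
    IsCoprime (n.map S.red) (d.map S.red) ∧ (n.map S.red).natDegree = n.natDegree

/-- the isogeny maps the points of order three with abscissa `3` to each other, with sign `κ` -/
def DatT (A A' m : O) (l : ℕ) (κ : ℤ) : Prop :=
  ∃ n d : O[X], DatE S (cub (ca A) (cb A)) (ca A') (cb A') m l n d ∧ S.red (d.eval 3) ≠ 0 ∧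
    n.eval 3 = 3 * d.eval 3 ∧ (wr n d).eval 3 * A = (κ : O) * m * (d.eval 3) ^ 2 * A'

/-- the isogeny kills the point of order three with abscissa `3` -/
def DatK (A A' m : O) (l : ℕ) : Prop :=
  ∃ n d : O[X], DatE S (cub (ca A) (cb A)) (ca A') (cb A') m l n d ∧ d.eval 3 = 0 ∧ n.eval 3 ≠ 0

theorem DatT.dat {A A' m : O} {l : ℕ} {κ : ℤ} (h : DatT S A A' m l κ) :
    Dat S (cub (ca A) (cb A)) (ca A') (cb A') m l := by
  obtain ⟨n, d, h, -⟩ := h
  exact ⟨n, d, h⟩

theorem DatK.dat {A A' m : O} {l : ℕ} (h : DatK S A A' m l) :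
    Dat S (cub (ca A) (cb A)) (ca A') (cb A') m l := by
  obtain ⟨n, d, h, -⟩ := h
  exact ⟨n, d, h⟩

theorem DatT.id (A : O) : DatT S A A 1 1 1 := by
  refine ⟨X, 1, ⟨?_, one_ne_zero, ?_, natDegree_X, ?_, ?_, ?_⟩, ?_, ?_, ?_⟩
  · simp only [wr, derivative_X, derivative_one, tgt, cub, C_1]; ring
  · rw [natDegree_one, natDegree_X]; norm_num
  · rw [Polynomial.map_one]; exact isCoprime_one_right
  · rw [Polynomial.map_one]; exact isCoprime_one_right
  · rw [map_X, natDegree_X, natDegree_X]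
  · simp
  · simp
  · simp [wr]

/-- composition with the 3-isogeny kills the point of order three -/
theorem DatE.nu {A0 A m r : O} {l : ℕ} {n d : O[X]}
    (h : DatE S (cub (ca A0) (cb A0)) (ca A) (cb A) m l n d) (h3 : (3 : k) ≠ 0) (h2 : (2 : k) ≠ 0)
    (hA : S.red A ≠ 0) (hr : r ^ 2 = -3) :
    DatE S (cub (ca A0) (cb A0)) (ca (4 - A)) (cb (4 - A)) (m * r) (3 * l) (nuN A n d) (nuD n d) := by
  obtain ⟨ode, hd, hdeg, hnl, copK, copk, hl⟩ := h
  have h3O : (3 : O) ≠ 0 := by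
    intro h0
    apply h3
    have := congrArg S.red h0
    simpa [map_ofNat] using this
  have hA0 : A ≠ 0 := by rintro rfl; exact hA (map_zero _)
  have h2K := twoK S h2
  have h3K : (3 : K) ≠ 0 := by
    intro h0
    apply h3O
    apply S.inj
    simpa [map_ofNat] using h0
  have hAK : algebraMap O K A ≠ 0 := fun h0 => hA0 (S.inj (by rw [h0, map_zero]))
  refine ⟨?_, (nuD_ne h3O hd hdeg).1, ?_, ?_, ?_, ?_, ?_⟩
  · rw [nu_wr, nu_tgt, C_mul]
    have hrC : (C r : O[X]) ^ 2 = -3 := by rw [← C_pow, hr, C_neg, map_ofNat]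
    linear_combination (9 * (n - 3 * d) ^ 2 * ((n - 3 * d) ^ 3 - 12 * C A * d ^ 2 * (n - 3 * d) -
      8 * C A ^ 2 * d ^ 3) ^ 2) * ode + (3 * (n - 3 * d) ^ 2 * C m ^ 2 * tgt (ca A) (cb A) n d *
      ((n - 3 * d) ^ 3 - 12 * C A * d ^ 2 * (n - 3 * d) - 8 * C A ^ 2 * d ^ 3) ^ 2) * hrC
  · rw [nuN_deg A hdeg]; exact (nuD_ne h3O hd hdeg).2
  · rw [nuN_deg A hdeg, hnl]
  · rw [nuN_map, nuD_map]; exact nu_cop h2K h3K hAK copK
  · rw [nuN_map, nuD_map]; exact nu_cop h2 h3 hA copk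
  · rw [nuN_map, nuN_deg A hdeg, nuN_deg _ ?_, hl]
    rw [hl]
    exact lt_of_le_of_lt natDegree_map_le hdeg

theorem DatT.nu {A0 A m r : O} {l : ℕ} {κ : ℤ} (h : DatT S A0 A m l κ) (h2 : (2 : k) ≠ 0)
    (h3 : (3 : k) ≠ 0) (hA : S.red A ≠ 0) (hr : r ^ 2 = -3) :
    DatK S A0 (4 - A) (m * r) (3 * l) := by
  obtain ⟨n, d, h, hdr, hn, -⟩ := h
  have hd : d.eval 3 ≠ 0 := by intro h0; rw [h0, map_zero] at hdr; exact hdr rfl
  refine ⟨_, _, h.nu S h3 h2 hA hr, ?_, ?_⟩
  · simp only [nuD, eval_mul, eval_pow, eval_sub, eval_ofNat, hn]; ring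
  · have hA0 : A ≠ 0 := by rintro rfl; exact hA (map_zero _)
    have h2O : (2 : O) ≠ 0 := by
      intro h0
      apply h2
      have := congrArg S.red h0
      simpa [map_ofNat] using this
    have : (nuN A n d).eval 3 = -(2 ^ 2 * A ^ 2 * (d.eval 3) ^ 3) := by
      simp only [nuN, eval_neg, eval_add, eval_mul, eval_pow, eval_sub, eval_ofNat, eval_C, hn]; ring
    rw [this]
    exact neg_ne_zero.mpr (mul_ne_zero (mul_ne_zero (pow_ne_zero _ h2O) (pow_ne_zero _ hA0)) (pow_ne_zero _ hd))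

theorem DatE.point {f : O[X]} {a b m : O} {l : ℕ} {n d : O[X]} (h : DatE S f a b m l n d) (hf : f ≠ 0)
    (h2 : (2 : k) ≠ 0) (hΔ : S.red (4 * a ^ 3 + 27 * b ^ 2) ≠ 0) (hm : m ≠ 0) :
    ∃ v : (TWf (f.map (algebraMap O K)) (algebraMap O K a) (algebraMap O K b)).Point,
      Good (algebraMap O K m) v ∧ Nice S v ∧ hgt v = l ∧ v ≠ 0 ∧
      Pt v (io (n.map (algebraMap O K)) / io (d.map (algebraMap O K)))
        (io ((wr n d).map (algebraMap O K)) / io (C (algebraMap O K m) * (d.map (algebraMap O K)) ^ 2)) := by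
  obtain ⟨ode, hd, hdeg, rfl, copK, copk, hl⟩ := h
  obtain ⟨v, g, nv, hv, L, hL, e1, e2⟩ := mk_point2 S hf h2 hΔ ode hm hd hdeg copK copk hl
  have hF : f.map (algebraMap O K) ≠ 0 := fun h => hf (by
    apply Polynomial.map_injective _ S.inj; rw [h, Polynomial.map_zero])
  have hmK : algebraMap O K m ≠ 0 := fun h => hm (S.inj (by rw [h, map_zero]))
  have hv0 : v ≠ 0 := by
    rintro rfl
    rw [hgt_zero] at hv
    omega
  obtain ⟨-, hP⟩ := pt_of_rep hF hmK g hv0 hL e1 e2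
  refine ⟨v, g, nv, hv, hv0, ?_⟩
  rw [wr_map]
  exact hP

omit [IsDomain O] in
theorem evm (P : O[X]) : (P.map (algebraMap O K)).eval 3 = algebraMap O K (P.eval 3) := by
  rw [eval_map_algebraMap, ← map_ofNat (algebraMap O K) 3, aeval_algebraMap_apply, coe_aeval_eq_eval]

/-- **The unit root from two isogenies, with sign.** -/
theorem lift3b {p : ℕ} [hp : Fact p.Prime] [CharP k p] [IsAlgClosed k] (hp11 : 10 < p) (hq : S.q = (p : O))
    {z z' : O} (hz : S.red z ≠ 0) (hz1 : S.red (1 - z) ≠ 0) (hz' : S.red z' = S.red z ^ p)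
    (ha0 : S.red (ca (4 * z)) ≠ 0) (hb0 : S.red (cb (4 * z)) ≠ 0) {m1 m2 : O} {l1 l2 : ℕ} {κ : ℤ}
    (hm1 : m1 ≠ 0) (hm2 : m2 ≠ 0) (hκ : κ = 1 ∨ κ = -1)
    (d1 : DatT S (4 * z) (4 * z') m1 l1 κ) (d2 : DatK S (4 * z) (4 * z') m2 l2)
    (r s t0 ε : ℤ) (hε : ε = 1 ∨ ε = -1) (h3r : (3 : ℤ) ∣ r - ε)
    (hform : (p : ℤ) = r ^ 2 * l1 + r * s * t0 + s ^ 2 * l2)
    (hr : ¬ (p : ℤ) ∣ r) (hs : ¬ (p : ℤ) ∣ s) (ht0 : t0 ^ 2 ≤ 4 * l1 * l2)
    (hbig : 16 * (l1 * l2) < p ^ 2) {w : O} (hc : (r : O) * m1 + (s : O) * m2 = p * w)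
    (hw : S.red w ≠ 0) :
    (p : O) ^ 2 ∣ ((ε * κ : ℤ) : O) * w * (2 * PowerSeries.coeff (1 * p - 1) (cs3 z) +
      PowerSeries.coeff (2 * p - 1) (cs3 z)) - 3 ∧
    (p : O) ^ 2 ∣ ((ε * κ : ℤ) : O) * w * (5 * PowerSeries.coeff (4 * p - 1) (cs3 z) +
      4 * PowerSeries.coeff (5 * p - 1) (cs3 z)) - 9 * (1 - 2 * z') := by
  classical
  have h2 : (2 : k) ≠ 0 := by
    have := small_ne (k := k) (p := p) (n := 2) (by norm_num) (by omega)
    exact_mod_cast this
  have h3 : (3 : k) ≠ 0 := by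
    have := small_ne (k := k) (p := p) (n := 3) (by norm_num) (by omega)
    exact_mod_cast this
  have h4 : (4 : k) ≠ 0 := by
    have := small_ne (k := k) (p := p) (n := 4) (by norm_num) (by omega)
    exact_mod_cast this
  have red4 : S.red (4 : O) = 4 := map_ofNat _ 4
  have h4p : (4 : k) ^ p = 4 := by
    have h := frobenius_def (R := k) p 4
    have h' : (frobenius k p) 4 = 4 := map_ofNat _ 4
    rw [← h, h']
  have hA : S.red (4 * z) ≠ 0 := by rw [map_mul, red4]; exact mul_ne_zero h4 hz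
  have hA' : S.red (4 * z') = S.red (4 * z) ^ p := by
    rw [map_mul, map_mul, hz', red4, mul_pow, h4p]
  have hA'0 : S.red (4 * z') ≠ 0 := by rw [hA']; exact pow_ne_zero _ hA
  have frob : ∀ x : k, x ^ p = frobenius k p x := fun x => rfl
  have haa : S.red (ca (4 * z')) = S.red (ca (4 * z)) ^ p := by
    rw [ca_map, ca_map, hA', frob, frob]
    simp only [ca, map_sub, map_mul, map_ofNat]
  have hbb : S.red (cb (4 * z')) = S.red (cb (4 * z)) ^ p := by
    rw [cb_map, cb_map, hA', frob, frob]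
    simp only [cb, map_sub, map_add, map_mul, map_pow, map_ofNat]
  have hΔ1 : S.red (4 * ca (4 * z) ^ 3 + 27 * cb (4 * z) ^ 2) ≠ 0 := by
    rw [disc_ne]
    have : (27 * (4 * z) ^ 3 * (4 * z - 4) : O) = -((3 ^ 3 * 4 ^ 4) * z ^ 3 * (1 - z)) := by ring
    rw [this, map_neg]
    refine neg_ne_zero.mpr ?_
    rw [map_mul, map_mul, map_mul, map_pow, map_pow, map_pow, map_ofNat, map_ofNat]
    exact mul_ne_zero (mul_ne_zero (mul_ne_zero (pow_ne_zero _ h3) (pow_ne_zero _ h4))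
      (pow_ne_zero _ hz)) hz1
  have hΔ2 : S.red (4 * ca (4 * z') ^ 3 + 27 * cb (4 * z') ^ 2) ≠ 0 := by
    have e : S.red (4 * ca (4 * z') ^ 3 + 27 * cb (4 * z') ^ 2) =
        S.red (4 * ca (4 * z) ^ 3 + 27 * cb (4 * z) ^ 2) ^ p := by
      rw [map_add, map_mul, map_mul, map_pow, map_pow, haa, hbb, frob, frob, frob, map_add, map_mul,
        map_mul, map_pow, map_pow]
      simp only [map_add, map_mul, map_pow, map_ofNat]
    rw [e]
    exact pow_ne_zero _ hΔ1
  have hf0 := cub_ne (ca (4 * z)) (cb (4 * z))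
  have hlead : S.red (cub (ca (4 * z)) (cb (4 * z))).leadingCoeff ≠ 0 := by
    have : (cub (ca (4 * z)) (cb (4 * z))).leadingCoeff = 1 := by
      have hd : (cub (ca (4 * z)) (cb (4 * z))).natDegree = 3 := by
        unfold cub; compute_degree!
      rw [Polynomial.leadingCoeff, hd]
      simp [cub, Polynomial.coeff_X, Polynomial.coeff_C]
    rw [this, map_one]; exact one_ne_zero
  obtain ⟨n1, e1, D1, hd1r, hn1, hw1⟩ := d1
  have hd1 : e1.eval 3 ≠ 0 := by intro h0; rw [h0, map_zero] at hd1r; exact hd1r rfl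
  obtain ⟨n2, e2, D2, hd2, hn2⟩ := d2
  obtain ⟨P1, g1, k1, hh1, hP1, pt1⟩ := D1.point S hf0 h2 hΔ2 hm1
  obtain ⟨P2, g2, k2, hh2, hP2, pt2⟩ := D2.point S hf0 h2 hΔ2 hm2
  have hcr : S.red ((r : O) * m1 + (s : O) * m2) = 0 := by
    rw [hc, ← hq, map_mul, S.red_q, zero_mul]
  obtain ⟨nv, gv, hv⟩ := form_value S (p := p) hlead h2 hΔ2 g1 k1 g2 k2 r s t0
    (by rw [hh1, hh2]; exact hform) hr hs (by rw [hh1, hh2]; exact ht0) (by rw [hh1, hh2]; exact hbig) hcr
  rw [hc, ← hq] at gv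
  obtain ⟨n, d, M, f1, f2, f3, f4, f5, f6, l, hl, f7, f8⟩ := frob_struct2 S (p := p) (by omega) (by omega)
    haa hbb ha0 hb0 hΔ1 nv gv hv hw
  obtain ⟨N, D, M', u1, u2, u3', u4, u5, u6, u7⟩ := to_u2 S hA hA' f1 f2 f3 f4 f5 f6
  -- the point of order three
  have hF0 : (cub (ca (4 * z)) (cb (4 * z))).map (algebraMap O K) ≠ 0 := fun h => hf0 (by
    apply Polynomial.map_injective _ S.inj; rw [h, Polynomial.map_zero])
  have h2K := twoK S h2
  have hz0 : z ≠ 0 := by rintro rfl; exact hz (map_zero _)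
  have hz'0 : z' ≠ 0 := by rintro rfl; rw [mul_zero, map_zero] at hA'0; exact hA'0 rfl
  have h4O : (4 : O) ≠ 0 := by
    intro h0; apply h4; rw [← red4, h0, map_zero]
  have inj0 : ∀ x : O, x ≠ 0 → algebraMap O K x ≠ 0 := fun x hx h => hx (S.inj (by rw [h, map_zero]))
  have hcub3 : (cub (ca (4 * z)) (cb (4 * z))).eval 3 = (4 * z) ^ 2 := by
    simp only [cub, ca, cb, eval_add, eval_mul, eval_pow, eval_X, eval_C]; ring
  have hvF : ve K 3 (io ((cub (ca (4 * z)) (cb (4 * z))).map (algebraMap O K))) = 1 := by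
    apply ve_one
    rw [evm, hcub3]
    exact inj0 _ (pow_ne_zero 2 (mul_ne_zero h4O hz0))
  have hqw : S.q * w ≠ 0 := by
    refine mul_ne_zero S.q_ne ?_
    rintro rfl; exact hw (map_zero _)
  have hV0 : r • P1 + s • P2 ≠ 0 := by
    intro h0
    rw [h0, hgt_zero] at hv
    have := hp.out.pos
    omega
  obtain ⟨hdne, ptV⟩ := pt_of_rep hF0 (inj0 _ hqw) gv hV0 hl f7 f8
  -- evaluations
  have hd3 : S.red (d.eval 3) = 1 := by
    have := congrArg (Polynomial.eval (S.red 3)) f2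
    rw [eval_map_apply, eval_one] at this
    exact this
  have hd3' : d.eval 3 ≠ 0 := by intro h0; rw [h0, map_zero] at hd3; exact zero_ne_one hd3
  have hn3 : S.red (n.eval 3) = 3 := by
    have := congrArg (Polynomial.eval (S.red 3)) f1
    rw [eval_map_apply, eval_pow, eval_X, map_ofNat, frob, map_ofNat] at this
    exact this
  have hM3 : S.red (M.eval 3) ≠ 0 := by
    have := congrArg (Polynomial.eval 3) f6
    rw [eval_mul, hcub3, eval_pow, eval_mul, eval_pow, eval_C] at this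
    have e : eval 3 (tgt (ca (4 * z')) (cb (4 * z')) n d) = d.eval 3 * (n.eval 3 ^ 3 + ca (4 * z') * n.eval 3 *
      d.eval 3 ^ 2 + cb (4 * z') * d.eval 3 ^ 3) := by
      simp only [tgt, eval_add, eval_mul, eval_pow, eval_C]
    rw [e] at this
    intro h0
    have h := congrArg S.red this
    simp only [map_mul, map_pow, map_add, h0, hd3, hn3, ca_map, cb_map] at h
    have e2 : (1 : k) * (3 ^ 3 + ca (S.red 4 * S.red z') * 3 * 1 ^ 2 + cb (S.red 4 * S.red z') * 1 ^ 3) =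
      (S.red 4 * S.red z') ^ 2 := by simp only [ca, cb]; ring
    rw [e2] at h
    have h5 : (S.red w) ^ 2 * (S.red 4 * S.red z') ^ 2 ≠ 0 := by
      rw [← map_mul S.red 4]
      exact mul_ne_zero (pow_ne_zero 2 hw) (pow_ne_zero 2 hA'0)
    apply h5
    rw [← h]; ring
  have hwrV : wr (n.map (algebraMap O K)) (d.map (algebraMap O K)) =
      C (algebraMap O K S.q) * M.map (algebraMap O K) := by
    rw [← wr_map, f5, Polynomial.map_mul, map_C]
  have hqK := S.aq_ne
  have hYV : io (wr (n.map (algebraMap O K)) (d.map (algebraMap O K))) /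
      io (C (algebraMap O K (S.q * w)) * (d.map (algebraMap O K)) ^ 2) =
      io (M.map (algebraMap O K)) / io (C (algebraMap O K w) * (d.map (algebraMap O K)) ^ 2) := by
    rw [hwrV]
    have e1 : io (C (algebraMap O K S.q)) ≠ 0 := io_ne (C_ne_zero.mpr hqK)
    have e2 : io (C (algebraMap O K w)) ≠ 0 := io_ne (C_ne_zero.mpr (inj0 _ (by rintro rfl; exact hw (map_zero _))))
    have e3 := io_ne hdne
    rw [(algebraMap O K).map_mul, C_mul]
    simp only [map_mul io, map_pow io]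
    field_simp
  rw [hYV] at ptV
  have hw0 : w ≠ 0 := by rintro rfl; exact hw (map_zero _)
  have hdV : (C (algebraMap O K w) * (d.map (algebraMap O K)) ^ 2).eval 3 ≠ 0 := by
    rw [eval_mul, eval_C, eval_pow, evm, ← map_pow, ← map_mul]
    exact inj0 _ (mul_ne_zero hw0 (pow_ne_zero 2 hd3'))
  have hd1V : (C (algebraMap O K m1) * (e1.map (algebraMap O K)) ^ 2).eval 3 ≠ 0 := by
    rw [eval_mul, eval_C, eval_pow, evm, ← map_pow, ← map_mul]
    exact inj0 _ (mul_ne_zero hm1 (pow_ne_zero 2 hd1))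
  have hdK3 : (d.map (algebraMap O K)).eval 3 ≠ 0 := by rw [evm]; exact inj0 _ hd3'
  have he1K3 : (e1.map (algebraMap O K)).eval 3 ≠ 0 := by rw [evm]; exact inj0 _ hd1
  have hMK3 : (M.map (algebraMap O K)).eval 3 ≠ 0 := by
    rw [evm]; refine inj0 _ ?_; intro h0; rw [h0, map_zero] at hM3; exact hM3 rfl
  have hκ0 : (κ : O) ≠ 0 := by
    rcases hκ with rfl | rfl
    · simp
    · simp
  have hw13 : (wr n1 e1).eval 3 ≠ 0 := by
    intro h0
    rw [h0, zero_mul] at hw1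
    exact mul_ne_zero (mul_ne_zero (mul_ne_zero hκ0 hm1) (pow_ne_zero 2 hd1)) (mul_ne_zero h4O hz'0) hw1.symm
  have h3io : (3 : RatFunc K) = io (C 3) := by rw [map_ofNat, map_ofNat]
  have hQ : Ker (ve K 3) P2 := by
    refine Or.inr ⟨_, _, pt2, ve_frac_gt ?_ ?_ ?_⟩
    · rw [evm]; exact inj0 _ hn2
    · rw [evm, hd2, map_zero]
    · intro h0
      exact D2.2.1 (Polynomial.map_injective _ S.inj (by rw [h0, Polynomial.map_zero]))
  have hX1 : ve K 3 (io (n1.map (algebraMap O K)) / io (e1.map (algebraMap O K)) - 3) < 1 := by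
    rw [h3io, ve_frac he1K3, evm, evm, hn1, map_mul, map_ofNat]
  have hY1 : ve K 3 (io ((wr n1 e1).map (algebraMap O K)) / io (C (algebraMap O K m1) *
      (e1.map (algebraMap O K)) ^ 2)) = 1 := by
    refine ve_frac_one ?_ hd1V
    rw [evm]; exact inj0 _ hw13
  have hcaK : algebraMap O K (ca (4 * z')) = ca (algebraMap O K (4 * z')) := ca_map _ _
  have hcbK : algebraMap O K (cb (4 * z')) = cb (algebraMap O K (4 * z')) := cb_map _ _
  have key : ∀ (a b : K) (ha : a = ca (algebraMap O K (4 * z'))) (hb : b = cb (algebraMap O K (4 * z')))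
      (P Q : (TWf ((cub (ca (4 * z)) (cb (4 * z))).map (algebraMap O K)) a b).Point) (X Y X' Y' : RatFunc K), Pt P X Y → ve K 3 (X - 3) < 1 → ve K 3 Y = 1 →
      Ker (ve K 3) Q → Pt (r • P + s • Q) X' Y' → ve K 3 X' ≤ 1 → ve K 3 Y' = 1 →
      ve K 3 (Y' - (ε : RatFunc K) * Y) < 1 := by
    rintro a b rfl rfl P Q X Y X' Y' q1 q2 q3 q4 q5 q6 q7
    exact ker_comb (ve K 3) (ve_C K 3) hF0 h2K hvF q1 q2 q3 q4 r s ε hε h3r q5 q6 q7
  have hfin := key _ _ hcaK hcbK P1 P2 _ _ _ _ pt1 hX1 hY1 hQ ptV (ve_frac_le hdK3) (ve_frac_one hMK3 hdV)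
  -- the constants
  have hA0K : algebraMap O K (4 * z) ≠ 0 := inj0 _ (mul_ne_zero h4O hz0)
  have hc1 : ve K 3 (io ((wr n1 e1).map (algebraMap O K)) / io (C (algebraMap O K m1) *
      (e1.map (algebraMap O K)) ^ 2) - io (C (algebraMap O K (κ * (4 * z')) / algebraMap O K (4 * z)))) < 1 := by
    rw [ve_frac hd1V, eval_mul, eval_C, eval_pow, evm, evm]
    have := congrArg (algebraMap O K) hw1
    rw [(algebraMap O K).map_mul ((wr n1 e1).eval 3), (algebraMap O K).map_mul (_ * _) (4 * z'),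
      (algebraMap O K).map_mul _ (eval 3 e1 ^ 2), (algebraMap O K).map_mul _ m1, (algebraMap O K).map_pow] at this
    rw [(algebraMap O K).map_mul _ (4 * z'), div_mul_eq_mul_div, eq_div_iff hA0K, this]
    ring
  have hεio : (ε : RatFunc K) = io (C (ε : K)) := by rw [map_intCast, map_intCast]
  have hc2 : ve K 3 (io (M.map (algebraMap O K)) / io (C (algebraMap O K w) * (d.map (algebraMap O K)) ^ 2) -
      io (C ((ε : K) * (algebraMap O K (κ * (4 * z')) / algebraMap O K (4 * z))))) < 1 := by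
    have e : io (M.map (algebraMap O K)) / io (C (algebraMap O K w) * (d.map (algebraMap O K)) ^ 2) -
      io (C ((ε : K) * (algebraMap O K (κ * (4 * z')) / algebraMap O K (4 * z)))) =
      (io (M.map (algebraMap O K)) / io (C (algebraMap O K w) * (d.map (algebraMap O K)) ^ 2) -
        (ε : RatFunc K) * (io ((wr n1 e1).map (algebraMap O K)) / io (C (algebraMap O K m1) *
      (e1.map (algebraMap O K)) ^ 2))) + (ε : RatFunc K) * (io ((wr n1 e1).map (algebraMap O K)) /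
      io (C (algebraMap O K m1) * (e1.map (algebraMap O K)) ^ 2) -
      io (C (algebraMap O K (κ * (4 * z')) / algebraMap O K (4 * z)))) := by
      have e0 : ∀ c : K, io (C ((ε : K) * c)) = (ε : RatFunc K) * io (C c) := by
        intro c; rw [C_mul, map_mul, hεio]
      rw [e0]; ring
    rw [e]
    refine Valuation.map_add_lt _ hfin ?_
    rw [map_mul, hεio]
    calc ve K 3 (io (C (ε : K))) * _ ≤ 1 * _ := mul_le_mul' (ve_C K 3 _) le_rfl
      _ < 1 := by rw [one_mul]; exact hc1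
  rw [ve_frac hdV, eval_mul, eval_C, eval_pow, evm, evm] at hc2
  have hc3 : M.eval 3 * (4 * z) = ((ε * κ : ℤ) : O) * (4 * z') * (w * d.eval 3 ^ 2) := by
    apply S.inj
    simp only [map_mul, map_intCast, map_pow, Int.cast_mul] at hc2 hA0K ⊢
    rw [hc2]
    have hz4 := left_ne_zero_of_mul hA0K
    have hzz := right_ne_zero_of_mul hA0K
    field_simp
  have hc4 : S.red (M'.coeff 0) = ((ε * κ : ℤ) : k) * S.red w := by
    apply mul_left_cancel₀ hA'0
    have h := congrArg S.red hc3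
    rw [map_mul, map_mul _ _ (w * eval 3 d ^ 2), map_mul _ _ (4 * z'), map_intCast, map_mul _ w, map_pow, hd3] at h
    have h' := congrArg S.red u7
    rw [map_mul, map_mul S.red (4 * z)] at h'
    rw [h']
    linear_combination h
  obtain ⟨ε0, hε0, hs0, hf1, hf2⟩ := key3b S hp11 hq hA hA' hw u1 u2 u3' u4 u5 u6
  have hεeq : ε0 = ((ε * κ : ℤ) : O) := by
    rw [hs0] at hc4
    have h5 := mul_right_cancel₀ hw hc4
    have h2k : (1 : k) ≠ -1 := by
      intro h0
      apply h2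
      linear_combination h0
    have hεκ : ε * κ = 1 ∨ ε * κ = -1 := by
      rcases hε with rfl | rfl <;> rcases hκ with rfl | rfl <;> simp
    rcases hε0 with rfl | rfl <;> rcases hεκ with h | h
    · rw [h]; simp
    · exfalso
      rw [h, map_one] at h5
      exact h2k (h5.trans (by simp))
    · exfalso
      rw [h, map_neg, map_one] at h5
      exact h2k (h5.trans (by simp)).symm
    · rw [h]; simp
  rw [hq, hεeq] at hf1 hf2
  exact ⟨hf1, hf2⟩

end Pool.Agent.H546
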