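import Pool.Agent.H546.Ser2

set_option autoImplicit false
set_option maxHeartbeats 4000000

/-!
# The unit root modulo `p²` for the cubic family, with sign and with more coefficients
-/

namespace Pool.Agent.H546

open PowerSeries

section trunc

variable {R : Type*} [CommRing R]

/-- the inverse square root of `4 z u³ + (3u+1)²` up to order six -/
def gt (z y : R) : R := 1 - 3 * y + 9 * y ^ 2 + (-27 - 2 * z) * y ^ 3 + (81 + 18 * z) * y ^ 4 +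
  (-243 - 108 * z) * y ^ 5

/-- its derivative -/
def gt1 (z y : R) : R := -3 + 18 * y + (-81 - 6 * z) * y ^ 2 + (324 + 72 * z) * y ^ 3 +
  (-1215 - 540 * z) * y ^ 4

/-- its second derivative -/
def gt2 (z y : R) : R := 18 + (-162 - 12 * z) * y + (972 + 216 * z) * y ^ 2 +
  (-4860 - 2160 * z) * y ^ 3

theorem gt_sq (z Y : R) : gt z Y ^ 2 * (4 * z * Y ^ 3 + (3 * Y + 1) ^ 2) = 1 + Y ^ 6 *
    (46656 * Y ^ 7 * z ^ 3 + 209952 * Y ^ 7 * z ^ 2 + 236196 * Y ^ 7 * z - 15552 * Y ^ 6 * z ^ 3 + 314928 * Y ^ 6 * z + 531441 * Y ^ 6 + 3024 * Y ^ 5 * z ^ 3 + 73872 * Y ^ 5 * z ^ 2 + 157464 * Y ^ 5 * z - 288 * Y ^ 4 * z ^ 3 - 17820 * Y ^ 4 * z ^ 2 - 52488 * Y ^ 4 * z + 16 * Y ^ 3 * z ^ 3 + 4320 * Y ^ 3 * z ^ 2 + 17496 * Y ^ 3 * z - 1080 * Y ^ 2 * z ^ 2 - 5832 * Y ^ 2 * z + 144 * Y * z ^ 2 + 1620 * Y * z - 12 * z ^ 2 - 1080 * z - 1458) := by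
  unfold gt; ring

theorem gt_s (z Z : R) : gt z (Z + 2 * Z ^ 2 + 3 * Z ^ 3 + 4 * Z ^ 4 + 5 * Z ^ 5) =
    1 - 3 * Z + 3 * Z ^ 2 + ((1 - 2 * z) - 1) * Z ^ 3 - 3 * (1 - 2 * z) * Z ^ 4 + 3 * (1 - 2 * z) * Z ^ 5 +
    Z ^ 6 * (-337500 * Z ^ 19 * z - 759375 * Z ^ 19 - 1350000 * Z ^ 18 * z - 3037500 * Z ^ 18 - 3172500 * Z ^ 17 * z - 7138125 * Z ^ 17 - 5643000 * Z ^ 16 * z - 12696750 * Z ^ 16 - 8291700 * Z ^ 15 * z - 18656325 * Z ^ 15 - 10380942 * Z ^ 14 * z - 23331807 * Z ^ 14 - 11356920 * Z ^ 13 * z - 25472070 * Z ^ 13 - 11034360 * Z ^ 12 * z - 24669360 * Z ^ 12 - 9603900 * Z ^ 11 * z - 21370635 * Z ^ 11 - 7519932 * Z ^ 10 * z - 16620714 * Z ^ 10 - 5318710 * Z ^ 9 * z - 11652066 * Z ^ 9 - 3398352 * Z ^ 8 * z - 7359174 * Z ^ 8 - 1955550 * Z ^ 7 * z - 4170690 * Z ^ 7 - 1008518 * Z ^ 6 * z - 2108943 * Z ^ 6 - 462924 * Z ^ 5 * z - 944460 * Z ^ 5 - 186192 * Z ^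 4 * z - 367515 * Z ^ 4 - 64134 * Z ^ 3 * z - 121140 * Z ^ 3 - 18288 * Z ^ 2 * z - 32634 * Z ^ 2 - 4032 * Z * z - 6651 * Z - 544 * z - 711) := by
  unfold gt; ring

theorem gt_add (z y e : R) (I : Ideal R) (h : e ^ 2 ∈ I) : gt z (y + e) - (gt z y + e * gt1 z y) ∈ I := by
  have : gt z (y + e) - (gt z y + e * gt1 z y) = e ^ 2 * (9 + (-27 - 2 * z) * (3 * y + e) +
      (81 + 18 * z) * (6 * y ^ 2 + 4 * y * e + e ^ 2) +
      (-243 - 108 * z) * (10 * y ^ 3 + 10 * y ^ 2 * e + 5 * y * e ^ 2 + e ^ 3)) := by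
    unfold gt gt1; ring
  rw [this]
  exact I.mul_mem_right _ h

theorem gt_cong (z y y' : R) (I : Ideal R) (h : y - y' ∈ I) : gt z y - gt z y' ∈ I := by
  have : gt z y - gt z y' = (y - y') * (-3 + 9 * (y + y') + (-27 - 2 * z) * (y ^ 2 + y * y' + y' ^ 2) +
      (81 + 18 * z) * (y ^ 3 + y ^ 2 * y' + y * y' ^ 2 + y' ^ 3) +
      (-243 - 108 * z) * (y ^ 4 + y ^ 3 * y' + y ^ 2 * y' ^ 2 + y * y' ^ 3 + y' ^ 4)) := by
    unfold gt; ring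
  rw [this]
  exact I.mul_mem_right _ h

theorem gt_der (z : R) (y : R⟦X⟧) : d⁄dX R (gt (C z) y) = gt1 (C z) y * d⁄dX R y := by
  have h3 : ∀ n : ℕ, d⁄dX R ((n : R⟦X⟧)) = 0 := by
    intro n
    have : ((n : R⟦X⟧)) = C (n : R) := (map_natCast C n).symm
    rw [this, derivative_C]
  have e : gt (C z) y = 1 - ((3 : ℕ) : R⟦X⟧) * y + ((9 : ℕ) : R⟦X⟧) * y ^ 2 +
      (-((27 : ℕ) : R⟦X⟧) - ((2 : ℕ) : R⟦X⟧) * C z) * y ^ 3 +
      (((81 : ℕ) : R⟦X⟧) + ((18 : ℕ) : R⟦X⟧) * C z) * y ^ 4 +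
      (-((243 : ℕ) : R⟦X⟧) - ((108 : ℕ) : R⟦X⟧) * C z) * y ^ 5 := by
    unfold gt; push_cast; ring
  rw [e]
  simp only [map_add, map_sub, map_neg, Derivation.leibniz, derivative_one, h3, derivative_C, derivative_pow,
    smul_eq_mul]
  unfold gt1
  push_cast
  ring

theorem gt1_der (z : R) (y : R⟦X⟧) : d⁄dX R (gt1 (C z) y) = gt2 (C z) y * d⁄dX R y := by
  have h3 : ∀ n : ℕ, d⁄dX R ((n : R⟦X⟧)) = 0 := by
    intro n
    have : ((n : R⟦X⟧)) = C (n : R) := (map_natCast C n).symm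
    rw [this, derivative_C]
  have e : gt1 (C z) y = -((3 : ℕ) : R⟦X⟧) + ((18 : ℕ) : R⟦X⟧) * y +
      (-((81 : ℕ) : R⟦X⟧) - ((6 : ℕ) : R⟦X⟧) * C z) * y ^ 2 +
      (((324 : ℕ) : R⟦X⟧) + ((72 : ℕ) : R⟦X⟧) * C z) * y ^ 3 +
      (-((1215 : ℕ) : R⟦X⟧) - ((540 : ℕ) : R⟦X⟧) * C z) * y ^ 4 := by
    unfold gt1; push_cast; ring
  rw [e]
  simp only [map_add, map_sub, map_neg, Derivation.leibniz, h3, derivative_C, derivative_pow,
    smul_eq_mul]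
  unfold gt2
  push_cast
  ring

/-- congruence modulo `(q², X^n)` -/
noncomputable def idn (n : ℕ) (q : R) : Ideal (R⟦X⟧) := Ideal.span {C q ^ 2, X ^ n}

theorem idn_coeff {n : ℕ} {q : R} {f : R⟦X⟧} (hf : f ∈ idn n q) {m : ℕ} (hm : m < n) :
    q ^ 2 ∣ coeff m f := by
  unfold idn at hf
  rw [Ideal.mem_span_pair] at hf
  obtain ⟨a, b, rfl⟩ := hf
  rw [map_add, mul_comm b, coeff_X_dvd hm, add_zero, mul_comm, ← map_pow, coeff_C_mul]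
  exact dvd_mul_right _ _

theorem q2_memn (n : ℕ) (q : R) : (C q ^ 2 : R⟦X⟧) ∈ idn n q :=
  Ideal.subset_span (by simp)

theorem X_memn (n : ℕ) (q : R) : (X ^ n : R⟦X⟧) ∈ idn n q :=
  Ideal.subset_span (by simp)

end trunc

/-- the coefficients of the truncated series at multiples of `p`, in characteristic `p` -/
theorem gt_coeffs {k : Type*} [Field k] {p : ℕ} [hp : Fact p.Prime] [CharP k p] (z : k) (τ : k⟦X⟧)
    (hτ : ∀ m, 1 ≤ m → coeff (m * p) τ = m * coeff p τ) :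
    coeff (1 * p) (gt (C z) (us k ^ p) * τ) + coeff (2 * p) (gt (C z) (us k ^ p) * τ) = 0 ∧
    coeff (4 * p) (gt (C z) (us k ^ p) * τ) + coeff (5 * p) (gt (C z) (us k ^ p) * τ) = 0 := by
  have hp0 := hp.out.pos
  have hch : CharP k⟦X⟧ p := by
    refine ⟨fun n => ?_⟩
    rw [← CharP.cast_eq_zero_iff k p n, ← map_natCast (C : k →+* k⟦X⟧)]
    constructor
    · intro h
      have := congrArg constantCoeff h
      simpa using this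
    · intro h; rw [h, map_zero]
  set Z : k⟦X⟧ := X ^ p with hZ
  obtain ⟨r, hr⟩ : X ^ 6 ∣ us k - (X + 2 * X ^ 2 + 3 * X ^ 3 + 4 * X ^ 4 + 5 * X ^ 5) := by
    rw [X_pow_dvd_iff]
    intro m hm
    have e : us k = us k ^ 1 := (pow_one _).symm
    have e2 : (2 : k⟦X⟧) = C 2 := (map_ofNat C 2).symm
    have e3 : (3 : k⟦X⟧) = C 3 := (map_ofNat C 3).symm
    have e4 : (4 : k⟦X⟧) = C 4 := (map_ofNat C 4).symm
    have e5 : (5 : k⟦X⟧) = C 5 := (map_ofNat C 5).symm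
    rw [map_sub, e, coeff_us_pow _ _ _ (le_refl 1), e2, e3, e4, e5]
    simp only [map_add, coeff_C_mul, coeff_X_pow, coeff_X]
    interval_cases m <;> simp
  have hvb : us k ^ p - (Z + 2 * Z ^ 2 + 3 * Z ^ 3 + 4 * Z ^ 4 + 5 * Z ^ 5) ∈ Ideal.span {Z ^ 6} := by
    rw [Ideal.mem_span_singleton]
    refine ⟨r ^ p, ?_⟩
    have h1 : us k = (X + 2 * X ^ 2 + 3 * X ^ 3 + 4 * X ^ 4 + 5 * X ^ 5) + X ^ 6 * r := by
      rw [← hr]; ring
    have fr : ∀ n : ℕ, ((n : k⟦X⟧)) ^ p = (n : k⟦X⟧) := by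
      intro n
      have := frobenius_def (R := k⟦X⟧) p n
      rw [← this, map_natCast]
    have f2 := fr 2
    have f3 := fr 3
    have f4 := fr 4
    have f5 := fr 5
    push_cast at f2 f3 f4 f5
    have h2 : us k ^ p = (Z + 2 * Z ^ 2 + 3 * Z ^ 3 + 4 * Z ^ 4 + 5 * Z ^ 5) + Z ^ 6 * r ^ p := by
      conv_lhs => rw [h1]
      rw [add_pow_char, add_pow_char, add_pow_char, add_pow_char, add_pow_char, mul_pow, mul_pow, mul_pow,
        mul_pow, mul_pow, f2, f3, f4, f5, hZ]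
      simp only [← pow_mul, mul_comm _ p]
    rw [h2]; ring
  have hG := gt_cong (C z) _ _ _ hvb
  rw [gt_s, Ideal.mem_span_singleton] at hG
  obtain ⟨r2, hr2⟩ := hG
  obtain ⟨r3, hr3⟩ : ∃ r3, gt (C z) (us k ^ p) = 1 - 3 * Z + 3 * Z ^ 2 + ((1 - 2 * C z) - 1) * Z ^ 3 -
      3 * (1 - 2 * C z) * Z ^ 4 + 3 * (1 - 2 * C z) * Z ^ 5 + Z ^ 6 * r3 := by
    refine ⟨r2 + (-337500 * Z ^ 19 * C z - 759375 * Z ^ 19 - 1350000 * Z ^ 18 * C z - 3037500 * Z ^ 18 - 3172500 * Z ^ 17 * C z - 7138125 * Z ^ 17 - 5643000 * Z ^ 16 * C z - 12696750 * Z ^ 16 - 8291700 * Z ^ 15 * C z - 18656325 * Z ^ 15 - 10380942 * Z ^ 14 * C z - 23331807 * Z ^ 14 - 11356920 * Z ^ 13 * C z - 25472070 * Z ^ 13 - 11034360 * Z ^ 12 * C z - 24669360 * Z ^ 12 - 9603900 * Z ^ 11 * C z - 21370635 * Z ^ 11 - 7519932 * Z ^ 10 * C z - 16620714 * Z ^ 10 - 5318710 * Z ^ 9 * C z - 11652066 * Z ^ 9 - 3398352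 * Z ^ 8 * C z - 7359174 * Z ^ 8 - 1955550 * Z ^ 7 * C z - 4170690 * Z ^ 7 - 1008518 * Z ^ 6 * C z - 2108943 * Z ^ 6 - 462924 * Z ^ 5 * C z - 944460 * Z ^ 5 - 186192 * Z ^ 4 * C z - 367515 * Z ^ 4 - 64134 * Z ^ 3 * C z - 121140 * Z ^ 3 - 18288 * Z ^ 2 * C z - 32634 * Z ^ 2 - 4032 * Z * C z - 6651 * Z - 544 * C z - 711), ?_⟩
    linear_combination hr2
  have key : gt (C z) (us k ^ p) * τ = τ - C 3 * (X ^ (1 * p) * τ) + C 3 * (X ^ (2 * p) * τ) +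
      C (-2 * z) * (X ^ (3 * p) * τ) - C (3 * (1 - 2 * z)) * (X ^ (4 * p) * τ) +
      C (3 * (1 - 2 * z)) * (X ^ (5 * p) * τ) + X ^ (6 * p) * (r3 * τ) := by
    rw [hr3, hZ]
    simp only [map_mul, map_sub, map_neg, map_one, map_ofNat, ← pow_mul, mul_comm p]
    ring
  have cf : ∀ a b : ℕ, coeff ((a + b) * p) (X ^ (a * p) * τ) = coeff (b * p) τ := by
    intro a b
    rw [Nat.add_mul, add_comm, coeff_X_pow_mul]
  have z1 : ∀ a b : ℕ, b < a → coeff (b * p) (X ^ (a * p) * τ) = 0 := by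
    intro a b h
    exact coeff_X_dvd (Nat.mul_lt_mul_of_pos_right h hp0) _
  have z6 : ∀ b : ℕ, b < 6 → coeff (b * p) (X ^ (6 * p) * (r3 * τ)) = 0 := by
    intro b h
    exact coeff_X_dvd (Nat.mul_lt_mul_of_pos_right h hp0) _
  have t0 : coeff (0 * p) τ = constantCoeff τ := by rw [zero_mul, coeff_zero_eq_constantCoeff]
  have t1 : coeff (1 * p) τ = coeff p τ := by rw [one_mul]
  have t2 := hτ 2 (by norm_num)
  have t3 := hτ 3 (by norm_num)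
  have t4 := hτ 4 (by norm_num)
  have t5 := hτ 5 (by norm_num)
  push_cast at t2 t3 t4 t5
  constructor
  · rw [key]
    simp only [map_add, map_sub, coeff_C_mul]
    rw [z6 1 (by norm_num), z6 2 (by norm_num), z1 2 1 (by norm_num), z1 3 1 (by norm_num), z1 4 1 (by norm_num),
      z1 5 1 (by norm_num), z1 3 2 (by norm_num), z1 4 2 (by norm_num), z1 5 2 (by norm_num),
      cf 1 0, cf 1 1, cf 2 0, t0, t1, t2]
    ring
  · rw [key]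
    simp only [map_add, map_sub, coeff_C_mul]
    rw [z6 4 (by norm_num), z6 5 (by norm_num), z1 5 4 (by norm_num),
      cf 1 3, cf 1 4, cf 2 2, cf 2 3, cf 3 1, cf 3 2, cf 4 0, cf 4 1, cf 5 0, t0, t1, t2, t3, t4, t5]
    ring

end Pool.Agent.H546
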