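import Pool.Agent.H546.QMod
import Pool.Agent.H546.Trunc

set_option autoImplicit false

/-!
# The unit root modulo `p²` for the quartic family
-/

namespace Pool.Agent.H546

section corr

open Polynomial

variable {O K k : Type*} [CommRing O] [IsDomain O] [Field K] [Algebra O K] [Field k]
  (S : DV O K k)

/-- the right hand side in the parameter at the origin -/
noncomputable def gu {R : Type*} [CommRing R] (z : R) : R[X] := 1 - 4 * X + C (4 * z) * X ^ 2

/-- the shape of the correction polynomial -/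
theorem corr4 {p : ℕ} [hp : Fact p.Prime] [CharP k p] (e : ℕ) (he : p = 2 * e + 1) (hq : S.q = (p : O)) {z z' w : O}
    (hz : S.red z ≠ 0) (hz' : S.red z' = S.red z ^ p) (hw : S.red w ≠ 0) {N D M : O[X]}
    (hN : N.map S.red = X ^ p) (hD : D.map S.red = 1) (hNd : N.natDegree ≤ p) (hDd : D.natDegree < p)
    (hN0 : N.coeff 0 = 0) (hwr : wr N D = C S.q * M)
    (ode : X * gu z * M ^ 2 = C w ^ 2 * (N * D * (D ^ 2 - 4 * D * N + C (4 * z') * N ^ 2))) :
    ∃ T : O[X], N = X ^ p * D + C S.q * T ∧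
      ∃ T1 : k[X], T.map S.red = X ^ (e + 1) * T1 ∧ T1.natDegree < p := by
  have hp0 := hp.out.pos
  have hp2 := hp.out.two_le
  have he0 : 0 < e := by
    rcases Nat.eq_zero_or_pos e with h | h
    · omega
    · exact h
  have hqC : (C S.q : O[X]) ≠ 0 := C_ne_zero.mpr S.q_ne
  obtain ⟨T, hT⟩ := S.dvd_of_map (P := N - X ^ p * D) (by
    rw [Polynomial.map_sub, Polynomial.map_mul, Polynomial.map_pow, map_X, hN, hD, mul_one, sub_self])
  have hNT : N = X ^ p * D + C S.q * T := by rw [← hT]; ring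
  have hTd : T.natDegree ≤ 2 * p - 1 := by
    rw [← natDegree_C_mul S.q_ne, ← hT]
    refine (natDegree_sub_le _ _).trans (max_le (by omega) ?_)
    refine natDegree_mul_le.trans ?_
    rw [natDegree_X_pow]
    omega
  have hT0 : T.coeff 0 = 0 := by
    have h := congrArg (fun P => P.coeff 0) hNT
    simp only [coeff_add, mul_coeff_zero, coeff_C_zero, coeff_X_pow, hN0] at h
    rw [if_neg (by omega), zero_mul, zero_add] at h
    exact (mul_eq_zero.mp h.symm).resolve_left S.q_ne
  have hM : M = X ^ (p - 1) * D ^ 2 + wr T D := by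
    apply mul_left_cancel₀ hqC
    rw [← hwr, hNT]
    have : (C S.q : O[X]) = (p : O[X]) := by rw [hq]; simp
    simp only [wr, derivative_add, derivative_mul, derivative_X_pow, derivative_C, zero_mul, zero_add]
    rw [this]
    simp only [map_natCast]
    ring
  refine ⟨T, hNT, ?_⟩
  have h1 := congrArg (Polynomial.map S.red) ode
  have e1 : (gu z).map S.red = gu (S.red z) := by simp [gu, map_ofNat]
  have h2k : (2 : k) ≠ 0 := by
    intro h2
    have : ((2 : ℕ) : k) = 0 := by exact_mod_cast h2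
    rw [CharP.cast_eq_zero_iff k p] at this
    have := (Nat.prime_dvd_prime_iff_eq hp.out (by norm_num)).mp this
    omega
  have h4k : (4 : k) ≠ 0 := by
    have : (4 : k) = 2 * 2 := by norm_num
    rw [this]; exact mul_ne_zero h2k h2k
  set G := X * gu (S.red z) with hG
  have e2 : (N * D * (D ^ 2 - 4 * D * N + C (4 * z') * N ^ 2)).map S.red = G ^ p := by
    have fr : ∀ m : ℕ, (m : k[X]) ^ p = m := by
      intro m
      have h := frobenius_def (R := k[X]) p m
      rw [← h, map_natCast]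
    have h4p : (4 : k[X]) ^ p = 4 := by exact_mod_cast fr 4
    have hgp : gu (S.red z) ^ p = 1 - 4 * X ^ p + C (4 * S.red z') * (X ^ p) ^ 2 := by
      unfold gu
      rw [add_pow_char, sub_pow_char, one_pow, mul_pow, h4p, mul_pow, ← C_pow, mul_pow, ← hz', ← pow_mul, ← pow_mul,
        mul_comm 2 p]
      have : (4 : k) ^ p = 4 := by
        have h := frobenius_def (R := k) p 4
        rw [← h, map_ofNat]
      rw [this]
    rw [hG, mul_pow, hgp]
    simp only [Polynomial.map_mul, Polynomial.map_add, Polynomial.map_sub, Polynomial.map_pow, hN, hD, map_C,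
      Polynomial.map_ofNat, map_mul, map_ofNat]
    ring
  rw [Polynomial.map_mul, Polynomial.map_mul, Polynomial.map_pow, Polynomial.map_mul, Polynomial.map_pow, map_C,
    map_X, e1, ← hG, e2] at h1
  have hg0 : gu (S.red z) ≠ 0 := by
    intro h0
    have := congrArg (fun Q => Q.coeff 0) h0
    simp [gu] at this
  have hG0 : G ≠ 0 := mul_ne_zero X_ne_zero hg0
  have h2 : (M.map S.red) ^ 2 = (C (S.red w) * G ^ e) ^ 2 := by
    apply mul_left_cancel₀ hG0
    rw [h1, he]; ring
  have hGd : G.natDegree ≤ 3 := by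
    rw [hG]
    unfold gu
    compute_degree
  have hlow : ∀ j, j < e → (M.map S.red).coeff j = 0 := by
    intro j hj
    have hz : (C (S.red w) * G ^ e).coeff j = 0 := by
      rw [hG, mul_pow, coeff_C_mul, coeff_X_pow_mul', if_neg (by omega), mul_zero]
    rcases sq_eq_sq_iff_eq_or_eq_neg.mp h2 with h | h
    · rw [h, hz]
    · rw [h, coeff_neg, hz, neg_zero]
  have hhigh : ∀ j, 3 * e < j → (M.map S.red).coeff j = 0 := by
    intro j hj
    have hz : (C (S.red w) * G ^ e).coeff j = 0 := by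
      rw [coeff_C_mul, coeff_eq_zero_of_natDegree_lt, mul_zero]
      refine lt_of_le_of_lt natDegree_pow_le ?_
      calc e * G.natDegree ≤ e * 3 := Nat.mul_le_mul le_rfl hGd
        _ < j := by omega
    rcases sq_eq_sq_iff_eq_or_eq_neg.mp h2 with h | h
    · rw [h, hz]
    · rw [h, coeff_neg, hz, neg_zero]
  have hMr : M.map S.red = X ^ (p - 1) + derivative (T.map S.red) := by
    rw [hM, Polynomial.map_add, Polynomial.map_mul, Polynomial.map_pow, Polynomial.map_pow, map_X, hD,
      wr_map, hD]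
    simp [wr]
  have key : ∀ j, (j < e ∨ 3 * e < j) → (T.map S.red).coeff (j + 1) = 0 := by
    intro j hj
    have hc := congrArg (fun Q => Q.coeff j) hMr
    simp only [coeff_add, coeff_X_pow, coeff_derivative] at hc
    have hz : (M.map S.red).coeff j = 0 := by
      rcases hj with h | h
      · exact hlow j h
      · exact hhigh j h
    rw [hz, if_neg (by omega), zero_add] at hc
    by_cases hj2 : 2 * p ≤ j + 1
    · rw [coeff_map, coeff_eq_zero_of_natDegree_lt (by omega), map_zero]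
    · have hne : ((j : k) + 1) ≠ 0 := by
        intro h0
        have h4 : ((j + 1 : ℕ) : k) = 0 := by push_cast; exact h0
        rw [CharP.cast_eq_zero_iff k p] at h4
        obtain ⟨c, hc'⟩ := h4
        rcases c with _ | _ | c
        · omega
        · omega
        · have : p * (c + 1 + 1) = 2 * p + p * c := by ring
          omega
      exact (mul_eq_zero.mp hc.symm).resolve_right hne
  have hdv : X ^ (e + 1) ∣ T.map S.red := by
    rw [X_pow_dvd_iff]
    intro i hi
    rcases i with _ | i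
    · rw [coeff_map, hT0, map_zero]
    · exact key i (Or.inl (by omega))
  obtain ⟨T1, hT1⟩ := hdv
  refine ⟨T1, hT1, ?_⟩
  rcases eq_or_ne T1 0 with h0 | h0
  · rw [h0, natDegree_zero]; exact hp0
  by_contra hge
  push Not at hge
  have hc : (T.map S.red).coeff (e + 1 + T1.natDegree) = T1.leadingCoeff := by
    rw [hT1, coeff_X_pow_mul', if_pos (by omega), Nat.add_sub_cancel_left]; rfl
  have hz : (T.map S.red).coeff (e + 1 + T1.natDegree) = 0 := by
    rw [show e + 1 + T1.natDegree = (e + T1.natDegree) + 1 by ring]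
    exact key _ (Or.inr (by omega))
  rw [hz] at hc
  exact h0 (leadingCoeff_eq_zero.mp hc.symm)

end corr

open PowerSeries

variable {O K k : Type*} [CommRing O] [IsDomain O] [Field K] [Algebra O K] [Field k]
  (S : DV O K k)

theorem DV.dvd_ps {f : O⟦X⟧} (h : PowerSeries.map S.red f = 0) : ∃ g : O⟦X⟧, f = C S.q * g := by
  have : ∀ n, ∃ c, coeff n f = S.q * c := by
    intro n
    have h1 := congrArg (coeff n) h
    rw [PowerSeries.coeff_map, map_zero] at h1
    exact (S.red_iff _).mp h1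
  choose g hg using this
  refine ⟨PowerSeries.mk g, ?_⟩
  ext n
  rw [coeff_C_mul, coeff_mk, hg]

theorem gq_map {R T : Type*} [CommRing R] [CommRing T] (f : R →+* T) (t : R) (m : ℕ) :
    PowerSeries.map f (gq t m) = gq (f t) m := by
  ext n
  rw [PowerSeries.coeff_map, gq_coeff, gq_coeff]
  split_ifs <;> simp

theorem ys_map {R T : Type*} [CommRing R] [CommRing T] (f : R →+* T) (t : R) :
    PowerSeries.map f (ys t) = ys (f t) := by
  unfold ys
  rw [map_mul, PowerSeries.map_X, gq_map]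

omit [IsDomain O] in
theorem fam4 (z : O) : (1 - 4 * ys (-1 : O) ^ 2 + C (4 * z) * (ys (-1 : O) ^ 2) ^ 2) =
    gq (-1 : O) 0 ^ 4 * ((1 - X ^ 4) ^ 2 + 4 * C z * X ^ 4) := by
  have h := gq_zero (-1 : O)
  have h1 : (1 + X ^ 2) * gq (-1 : O) 0 = 1 := by
    have : (C (-1 : O)) = (-1 : O⟦X⟧) := by simp
    rw [this] at h
    linear_combination h
  have h4 : (C (4 * z) : O⟦X⟧) = 4 * C z := by rw [map_mul, map_ofNat]
  unfold ys
  rw [h4]
  set g := gq (-1 : O) 0
  linear_combination (-(1 + (1 + X ^ 2) * g + ((1 + X ^ 2) * g) ^ 2 + ((1 + X ^ 2) * g) ^ 3) +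
    4 * X ^ 2 * g ^ 2 * (1 + (1 + X ^ 2) * g)) * h1

set_option maxHeartbeats 1000000 in
/-- **The unit root modulo `p²` for the quartic family.** -/
theorem key4 {p : ℕ} [hp : Fact p.Prime] [CharP k p] (hp2 : p ≠ 2) (hq : S.q = (p : O))
    {z z' w : O} (hz : S.red z ≠ 0) (hz' : S.red z' = S.red z ^ p) (hw : S.red w ≠ 0)
    {N D M : Polynomial O} (hN : N.map S.red = Polynomial.X ^ p) (hD : D.map S.red = 1)
    (hNd : N.natDegree ≤ p) (hDd : D.natDegree < p) (hN0 : N.coeff 0 = 0) (hwr : wr N D = Polynomial.C S.q * M)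
    (ode : Polynomial.X * gu z * M ^ 2 =
      Polynomial.C w ^ 2 * (N * D * (D ^ 2 - 4 * D * N + Polynomial.C (4 * z') * N ^ 2))) :
    ∃ ε : O, (ε = 1 ∨ ε = -1) ∧
      S.q ^ 2 ∣ ε * w * (3 * coeff (p - 1) (cs4 z) - coeff (3 * p - 1) (cs4 z)) - 4 := by
  have hp0 := hp.out.pos
  have hp2' := hp.out.two_le
  obtain ⟨e, he⟩ := hp.out.odd_of_ne_two hp2
  obtain ⟨T, hNT, T1, hT1, hT1d⟩ := corr4 S e he hq hz hz' hw hN hD hNd hDd hN0 hwr ode
  set q := S.q with hqd
  have hq0 : q ≠ 0 := S.q_ne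
  have hrq : S.red q = 0 := S.red_q
  have h2k : (2 : k) ≠ 0 := by
    intro h2
    have : ((2 : ℕ) : k) = 0 := by exact_mod_cast h2
    rw [CharP.cast_eq_zero_iff k p] at this
    exact hp2 ((Nat.prime_dvd_prime_iff_eq hp.out (by norm_num)).mp this)
  have h2u : IsUnit (2 : O) := S.unit_of_red (by rw [map_ofNat]; exact h2k)
  have h2O : (2 : O) ≠ 0 := h2u.ne_zero
  have hCq : (C q : O⟦X⟧) ≠ 0 := fun h => hq0 (by
    have := congrArg constantCoeff h
    simpa using this)
  set Y : O⟦X⟧ := ys (-1) with hY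
  set Y1 := d⁄dX O Y with hY1
  have hY1e : Y1 = gq (-1) 0 ^ 2 * (1 - X ^ 2) := by
    rw [hY1, hY, ys_der]
    have : (C (-1 : O)) = (-1 : O⟦X⟧) := by simp
    rw [this]; ring
  -- names
  set al := Polynomial.aeval (R := O) (Y ^ 2) with hal
  have alC : ∀ c : O, al (Polynomial.C c) = C c := fun c => by
    rw [hal, Polynomial.aeval_C]; rfl
  have alX : al Polynomial.X = Y ^ 2 := Polynomial.aeval_X _
  have hY2d : d⁄dX O (Y ^ 2) = 2 * Y * Y1 := by
    rw [derivative_pow, ← hY1]; push_cast; ring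
  have alD : ∀ P : Polynomial O, d⁄dX O (al P) = al (Polynomial.derivative P) * (2 * Y * Y1) := by
    rw [← hY2d, hal]
    generalize Y ^ 2 = Y2
    intro P
    induction P using Polynomial.induction_on' with
    | add P Q h1 h2 => rw [map_add, map_add, map_add, map_add, h1, h2]; ring
    | monomial n a =>
      have aC : ∀ c : O, Polynomial.aeval Y2 (Polynomial.C c) = C c := fun c => by
        rw [Polynomial.aeval_C]; rfl
      rw [← Polynomial.C_mul_X_pow_eq_monomial, map_mul, map_pow, aC, Polynomial.aeval_X, Derivation.leibniz,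
        derivative_C, derivative_pow, Polynomial.derivative_C_mul, Polynomial.derivative_X_pow,
        map_mul, map_mul, map_pow, aC, Polynomial.aeval_X, smul_eq_mul, smul_eq_mul, map_natCast, map_natCast]
      ring
  obtain ⟨D1, hD1⟩ := S.dvd_of_map (P := D - 1) (by
    rw [Polynomial.map_sub, hD, Polynomial.map_one, sub_self])
  have hDe : al D = 1 + C q * al D1 := by
    have : D = 1 + Polynomial.C q * D1 := by rw [← hD1]; ring
    conv_lhs => rw [this]
    rw [map_add, map_one, map_mul, alC]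
  have hDu : IsUnit (al D) := by
    rw [PowerSeries.isUnit_iff_constantCoeff]
    apply S.unit_of_red
    rw [hDe, map_add, map_mul, map_one, constantCoeff_C, map_add, map_mul, map_one, hrq]
    simp
  obtain ⟨iD, hiD⟩ := hDu.exists_left_inv
  set U := al N * iD with hU
  set U1 := al M * (2 * Y * Y1) * iD ^ 2 with hU1
  set v := Y ^ p with hv
  set η := al T * iD with hη
  have hUv : U = v ^ 2 + C q * η := by
    rw [hU, hNT, map_add, map_mul, map_mul, map_pow, alC, alX]
    rw [hv]
    linear_combination (Y ^ 2) ^ p * hiD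
  -- derivative of U
  have hiD' : d⁄dX O iD = - iD ^ 2 * (al (Polynomial.derivative D) * (2 * Y * Y1)) := by
    have h := congrArg (d⁄dX O) hiD
    rw [Derivation.leibniz, derivative_one, smul_eq_mul, smul_eq_mul, alD] at h
    linear_combination iD * h - (d⁄dX O iD) * hiD
  have hdU : d⁄dX O U = C q * U1 := by
    have hw' : al (Polynomial.derivative N) * al D - al N * al (Polynomial.derivative D) = C q * al M := by
      rw [← alC, ← map_mul al (Polynomial.C q), ← hwr, wr, map_sub, map_mul, map_mul]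
    rw [hU, Derivation.leibniz, smul_eq_mul, smul_eq_mul, alD, hiD', hU1]
    linear_combination (2 * Y * Y1) * iD ^ 2 * hw' - (2 * Y * Y1) * iD * al (Polynomial.derivative N) * hiD
  set v1 := Y ^ (p - 1) * Y1 with hv1
  have hCp : (C q : O⟦X⟧) = (p : O⟦X⟧) := by rw [hq, map_natCast]
  have hdv : d⁄dX O v = C q * v1 := by
    rw [hv, derivative_pow, hCp, hv1]; ring
  -- the differential equation
  have hps := ps4_sq z
  set y2 : O⟦X⟧ := (1 - X ^ 4) ^ 2 + 4 * C z * X ^ 4 with hy2
  have hfam := fam4 z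
  rw [← hy2, ← hY] at hfam
  have hgu : al (gu z) = gq (-1 : O) 0 ^ 4 * y2 := by
    rw [← hfam]
    simp only [gu, map_add, map_sub, map_mul, map_pow, map_one, map_ofNat, alC, alX]
  have hode := congrArg al ode
  rw [map_mul, map_mul, map_pow, map_mul, map_pow, alC, hgu, alX] at hode
  have htu : al (N * D * (D ^ 2 - 4 * D * N + Polynomial.C (4 * z') * N ^ 2)) =
      al N * al D * (al D ^ 2 - 4 * al D * al N + C (4 * z') * al N ^ 2) := by
    simp only [map_mul, map_add, map_sub, map_pow, alC, map_ofNat]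
  rw [htu] at hode
  set c := cs4 z with hc
  set g := gq (-1 : O) 0 with hg
  have hgz : (1 + X ^ 2) * g = 1 := by
    have h := gq_zero (-1 : O)
    have : (C (-1 : O)) = (-1 : O⟦X⟧) := by simp
    rw [this] at h
    linear_combination h
  have hc2 : c ^ 2 * y2 = (1 - X ^ 2) ^ 2 := by
    rw [hc, cs4]; linear_combination (1 - X ^ 2) ^ 2 * hps
  have hde : U1 ^ 2 = 4 * C w ^ 2 * c ^ 2 * (U * (1 - 4 * U + C (4 * z') * U ^ 2)) := by
    have e1 : U1 ^ 2 * y2 = 4 * C w ^ 2 * (1 - X ^ 2) ^ 2 * (U * (1 - 4 * U + C (4 * z') * U ^ 2)) := by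
      have e2 : U * (1 - 4 * U + C (4 * z') * U ^ 2) =
          iD ^ 4 * (al N * al D * (al D ^ 2 - 4 * al D * al N + C (4 * z') * al N ^ 2)) := by
        rw [hU]
        linear_combination (-(al N * iD * (1 + iD * al D + (iD * al D) ^ 2)) +
          4 * al N ^ 2 * iD ^ 2 * (1 + iD * al D) - C (4 * z') * al N ^ 3 * iD ^ 3) * hiD
      have hg8 : IsUnit (g ^ 4) := by
        apply IsUnit.pow
        exact IsUnit.of_mul_eq_one _ (by rw [mul_comm]; exact hgz)
      apply hg8.mul_left_cancel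
      rw [e2, hU1, hY1e]
      linear_combination (4 * g ^ 4 * (1 - X ^ 2) ^ 2 * iD ^ 4) * hode
    calc U1 ^ 2 = ps4 z ^ 2 * (U1 ^ 2 * y2) := by linear_combination (-U1 ^ 2) * hps
      _ = _ := by rw [e1, hc, cs4]; ring
  -- constant terms
  have hY0 : constantCoeff Y = 0 := ys_const _
  have hc0 : constantCoeff c = 1 := by
    have := ps4_coeff z 0
    rw [if_pos (dvd_zero _), Nat.zero_div, lg_zero, coeff_zero_eq_constantCoeff_apply] at this
    rw [hc, cs4]; simp [this]
  have hal0 : ∀ P : Polynomial O, constantCoeff (al P) = P.coeff 0 := by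
    intro P
    induction P using Polynomial.induction_on' with
    | add P Q h1 h2 => rw [map_add, map_add, h1, h2, Polynomial.coeff_add]
    | monomial n a =>
      rw [← Polynomial.C_mul_X_pow_eq_monomial, map_mul, map_pow, alC, alX, map_mul, constantCoeff_C,
        map_pow, map_pow, hY0, Polynomial.coeff_C_mul, Polynomial.coeff_X_pow]
      rcases n with _ | n
      · simp
      · simp
  have hU0 : constantCoeff U = 0 := by rw [hU, map_mul, hal0, hN0, zero_mul]
  -- the square root of the last factor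
  set t := U - C z' * U ^ 2 with ht
  obtain ⟨B, hB⟩ := exists_cat t (by rw [ht]; simp [hU0])
  set s := 1 - 2 * t * B with hs
  have h4z : (C (4 * z') : O⟦X⟧) = 4 * C z' := by rw [map_mul, map_ofNat]
  have hs2 : s ^ 2 = 1 - 4 * U + C (4 * z') * U ^ 2 := by
    have : (1 - 4 * U + C (4 * z') * U ^ 2) = 1 - 4 * t := by rw [ht, h4z]; ring
    rw [this, hs]
    linear_combination (-4 * t) * hB
  have hs0 : constantCoeff s = 1 := by
    rw [hs, ht]; simp [hU0]
  have hsu : IsUnit s := by
    rw [PowerSeries.isUnit_iff_constantCoeff, hs0]; exact isUnit_one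
  obtain ⟨is, his⟩ := hsu.exists_left_inv
  have hwcu : IsUnit (2 * C w * c) := by
    rw [PowerSeries.isUnit_iff_constantCoeff]
    apply S.unit_of_red
    simp only [map_mul, constantCoeff_C, hc0, map_ofNat, mul_one]
    exact mul_ne_zero h2k hw
  obtain ⟨iw, hiw⟩ := hwcu.exists_left_inv
  -- the coordinate
  set Z := U1 * iw * is with hZ
  have hZs : 2 * C w * c * (Z * s) = U1 := by
    rw [hZ]
    linear_combination (U1 * is * s) * hiw + U1 * his
  have hZ2 : Z ^ 2 = U := by
    have h1 : (2 * C w * c * (Z * s)) ^ 2 = 4 * C w ^ 2 * c ^ 2 * (U * s ^ 2) := by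
      rw [hZs, hde, hs2]
    have h2 : IsUnit ((2 * C w * c) ^ 2 * s ^ 2) := (hwcu.pow 2).mul (hsu.pow 2)
    apply h2.mul_left_cancel
    linear_combination h1
  -- the sign
  have hch : CharP k⟦X⟧ p := by
    refine ⟨fun n => ?_⟩
    rw [← CharP.cast_eq_zero_iff k p n, ← map_natCast (C : k →+* k⟦X⟧)]
    constructor
    · intro h
      have := congrArg constantCoeff h
      simpa using this
    · intro h; rw [h, map_zero]
  have hbq : PowerSeries.map S.red (C q) = 0 := by
    rw [PowerSeries.map_C, hrq, map_zero]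
  have hZv : (PowerSeries.map S.red Z) ^ 2 = (PowerSeries.map S.red v) ^ 2 := by
    rw [← map_pow, hZ2, hUv, map_add, map_pow, map_mul, hbq, zero_mul, add_zero]
  obtain ⟨ε, hε1, hεs⟩ : ∃ ε : O, (ε = 1 ∨ ε = -1) ∧ PowerSeries.map S.red (Z - C ε * v) = 0 := by
    rcases sq_eq_sq_iff_eq_or_eq_neg.mp hZv with h | h
    · exact ⟨1, Or.inl rfl, by rw [map_one, one_mul, map_sub, h, sub_self]⟩
    · refine ⟨-1, Or.inr rfl, ?_⟩
      have : (C (-1 : O)) = (-1 : O⟦X⟧) := by simp
      rw [this, map_sub, h, map_mul, map_neg, map_one]; ring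
  have hε : ε ^ 2 = 1 := by rcases hε1 with h | h <;> rw [h] <;> ring
  have hCε : (C ε : O⟦X⟧) ^ 2 = 1 := by rw [← map_pow, hε, map_one]
  obtain ⟨ζ0, hζ0⟩ := S.dvd_ps hεs
  rw [← hqd] at hζ0
  set ζ := C ε * ζ0 with hζ
  have hZe : Z = C ε * (v + C q * ζ) := by
    rw [hζ]
    linear_combination hζ0 - (C q * ζ0) * hCε
  clear_value ζ
  refine ⟨ε, hε1, ?_⟩
  -- the derivative of the coordinate
  have hYr : PowerSeries.map S.red Y = ys (-1 : k) := by
    rw [hY, ys_map, map_neg, map_one]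
  have hvr : PowerSeries.map S.red v = ys (-1 : k) ^ p := by rw [hv, map_pow, hYr]
  have hvr0 : ys (-1 : k) ^ p ≠ 0 := by
    intro h0
    have h1 := coeff_ys_pow (-1 : k) (p - 1) 0
    simp only [show p - 1 + 1 = p by omega, mul_zero, add_zero, h0] at h1
    simp at h1
  have hZ0 : Z ≠ 0 := by
    intro h0
    rw [h0, map_zero, zero_pow two_ne_zero] at hZv
    exact pow_ne_zero 2 (by rw [hvr]; exact hvr0) hZv.symm
  have h2ps : (2 : O⟦X⟧) ≠ 0 := by
    have : (2 : O⟦X⟧) = C 2 := (map_ofNat C 2).symm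
    rw [this]
    intro h0
    apply h2O
    have := congrArg constantCoeff h0
    simpa using this
  have hdZ : d⁄dX O Z = C q * (C w * c * s) := by
    have h1 := congrArg (d⁄dX O) hZ2
    rw [hdU, derivative_pow, ← hZs] at h1
    push_cast at h1
    apply mul_left_cancel₀ (mul_ne_zero h2ps hZ0)
    linear_combination h1
  have hex : C (ε * w) * c * s = v1 + d⁄dX O ζ := by
    apply mul_left_cancel₀ hCq
    have h1 := congrArg (d⁄dX O) hZe
    rw [hdZ, Derivation.leibniz, derivative_C, map_add, hdv, Derivation.leibniz, derivative_C] at h1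
    simp only [smul_eq_mul, mul_zero, add_zero] at h1
    rw [map_mul]
    linear_combination (C ε) * h1 + (C q * (v1 + d⁄dX O ζ)) * hCε
  -- modulo the ideal
  set I := idn (3 * p) q with hI
  have hv3 : v ^ 3 ∈ I := by
    have : v ^ 3 = X ^ (3 * p) * (g ^ (3 * p)) := by
      rw [hv, ← pow_mul, mul_comm p 3, hY, ys_pow]
    rw [this]
    exact I.mul_mem_right _ (X_memn (3 * p) q)
  have hUU : U ^ 2 ∈ I := by
    have : U ^ 2 = v ^ 3 * (v + 4 * C q * ζ) + C q ^ 2 * (6 * v ^ 2 * ζ ^ 2 + 4 * C q * v * ζ ^ 3 + C q ^ 2 * ζ ^ 4) := by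
      rw [← hZ2, hZe]
      linear_combination ((v + C q * ζ) ^ 4 * (C ε ^ 2 + 1)) * hCε
    rw [this]
    exact I.add_mem (I.mul_mem_right _ hv3) (I.mul_mem_right _ (q2_memn _ q))
  have hγ : (1 + 2 * U) * s - 1 ∈ I := by
    have : (1 + 2 * U) * s - 1 = U ^ 2 * (-4 + 2 * C z' * (1 + 2 * U) - 2 * (1 + 2 * U) * (1 - C z' * U) ^ 2 * B ^ 2) := by
      rw [hs, ht]
      rw [ht] at hB
      linear_combination (-(1 + 2 * U) * (2 * (U - C z' * U ^ 2))) * hB
    rw [this]
    exact I.mul_mem_right _ hUU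
  have hfin : C (ε * w) * c - ((1 + 2 * v ^ 2) * v1 + d⁄dX O (ζ * (1 + 2 * v ^ 2) + C 2 * (C q * (v * ζ ^ 2)))) ∈ I := by
    have e1 : d⁄dX O (ζ * (1 + 2 * v ^ 2) + C 2 * (C q * (v * ζ ^ 2))) =
        (1 + 2 * v ^ 2) * d⁄dX O ζ + ζ * (4 * v * (C q * v1)) +
        2 * (C q * (2 * v * ζ * d⁄dX O ζ + ζ ^ 2 * (C q * v1))) := by
      have h2 : (2 : O⟦X⟧) = C 2 := (map_ofNat C 2).symm
      rw [map_add, Derivation.leibniz, map_add, derivative_one, h2, Derivation.leibniz, derivative_C, derivative_pow,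
        hdv, Derivation.leibniz, derivative_C, Derivation.leibniz, derivative_C, Derivation.leibniz, derivative_pow, hdv]
      simp only [smul_eq_mul]
      rw [← h2]
      push_cast
      ring
    have hUe : U = v ^ 2 + 2 * C q * v * ζ + C q ^ 2 * ζ ^ 2 := by
      rw [← hZ2, hZe]; linear_combination ((v + C q * ζ) ^ 2) * hCε
    have : C (ε * w) * c - ((1 + 2 * v ^ 2) * v1 + d⁄dX O (ζ * (1 + 2 * v ^ 2) + C 2 * (C q * (v * ζ ^ 2)))) =
        -((1 + 2 * U) * s - 1) * (C (ε * w) * c) + C q ^ 2 * (2 * ζ ^ 2 * (v1 + d⁄dX O ζ) - 2 * ζ ^ 2 * v1) := by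
      rw [e1]
      have h3 : (1 + 2 * U) * s * (C (ε * w) * c) = (1 + 2 * U) * (v1 + d⁄dX O ζ) := by
        rw [← hex]; ring
      have h4 : (1 + 2 * U) * (v1 + d⁄dX O ζ) = (1 + 2 * (v ^ 2 + 2 * C q * v * ζ + C q ^ 2 * ζ ^ 2)) * (v1 + d⁄dX O ζ) := by
        rw [hUe]
      linear_combination h3 + h4
    rw [this]
    exact I.add_mem (I.mul_mem_right _ (I.neg_mem hγ)) (I.mul_mem_right _ (q2_memn _ q))
  -- coefficients
  have cpN : ∀ n : ℕ, 1 ≤ n → (((n * p - 1 : ℕ) : O) + 1) = n * q := by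
    intro n hn
    have h1 : 1 ≤ n * p := Nat.mul_pos hn hp0
    rw [hq]
    have := Nat.cast_succ (R := O) (n * p - 1)
    rw [show (n * p - 1).succ = n * p by omega] at this
    rw [← this]; push_cast; ring
  have cf : ∀ n : ℕ, 1 ≤ n → n ≤ 3 → q ^ 2 ∣ ε * w * coeff (n * p - 1) c -
      (coeff (n * p - 1) ((1 + 2 * v ^ 2) * v1) + n * q * coeff (n * p) (ζ * (1 + 2 * v ^ 2))) := by
    intro n hn1 hn3
    have h1 : 1 ≤ n * p := Nat.mul_pos hn1 hp0
    have h2 : n * p ≤ 3 * p := Nat.mul_le_mul_right _ hn3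
    have h3 := idn_coeff hfin (m := n * p - 1) (by omega)
    rw [map_sub, map_add, coeff_C_mul, coeff_derivative, cpN n hn1, show n * p - 1 + 1 = n * p by omega, map_add,
      coeff_C_mul, coeff_C_mul] at h3
    obtain ⟨d, hd⟩ := h3
    refine ⟨d + 2 * n * coeff (n * p) (v * ζ ^ 2), ?_⟩
    linear_combination hd
  -- the leading part
  have hvv : v ^ 2 * v1 = Y ^ (3 * p - 1) * Y1 := by
    rw [hv, hv1, ← pow_mul, ← mul_assoc, ← pow_add]
    congr 2
    omega
  have c1 : coeff (p - 1) v1 = 1 := by rw [hv1, hY1, hY]; exact coeff_yy _ _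
  have c2 : coeff (p - 1) (v ^ 2 * v1) = 0 := by
    rw [hvv, hY, ys_pow, mul_assoc]
    exact coeff_X_dvd (by omega) _
  have c3 : coeff (3 * p - 1) (v ^ 2 * v1) = 1 := by rw [hvv, hY1, hY]; exact coeff_yy _ _
  have c4 : coeff (3 * p - 1) v1 = -3 * (((2 * p - 1).choose (p - 1) : ℕ) : O) := by
    have h := congrArg (coeff (3 * p - 1)) hdv
    rw [coeff_C_mul, coeff_derivative, show 3 * p - 1 + 1 = 3 * p by omega, cpN 3 (by norm_num)] at h
    have h5 := coeff_ys_pow (-1 : O) (p - 1) p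
    rw [show p - 1 + 1 + 2 * p = 3 * p by omega, show p - 1 + 1 = p by omega, show p - 1 + p = 2 * p - 1 by omega,
      ← hY, ← hv] at h5
    rw [h5, Odd.neg_one_pow ⟨e, he⟩] at h
    apply mul_left_cancel₀ hq0
    push_cast at h
    linear_combination -h
  obtain ⟨W, hW⟩ := (Nat.modEq_iff_dvd.mp (wolst (p := p) hp2).symm)
  have hW' : (((2 * p - 1).choose (p - 1) : ℕ) : O) = 1 + q ^ 2 * W := by
    have := congrArg (Int.cast : ℤ → O) hW
    push_cast at this
    rw [hq]
    linear_combination this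
  have two : ∀ f : O⟦X⟧, ∀ n, coeff n ((1 + 2 * v ^ 2) * f) = coeff n f + 2 * coeff n (v ^ 2 * f) := by
    intro f n
    have : (1 + 2 * v ^ 2) * f = f + C 2 * (v ^ 2 * f) := by rw [map_ofNat]; ring
    rw [this, map_add, coeff_C_mul]
  -- the residue computation
  set ζb := PowerSeries.map S.red ζ with hζb
  set Yb : k⟦X⟧ := ys (-1) with hYb
  have hbD : PowerSeries.map S.red (al D) = 1 := by
    rw [hDe, map_add, map_one, map_mul, hbq, zero_mul, add_zero]
  have hbiD : PowerSeries.map S.red iD = 1 := by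
    have := congrArg (PowerSeries.map S.red) hiD
    rw [map_mul, hbD, mul_one, map_one] at this
    exact this
  have halr : ∀ P : Polynomial O, PowerSeries.map S.red (al P) = Polynomial.aeval (Yb ^ 2) (P.map S.red) := by
    intro P
    induction P using Polynomial.induction_on' with
    | add P Q h1 h2 => rw [map_add, map_add, h1, h2, Polynomial.map_add, map_add]
    | monomial n a =>
      rw [← Polynomial.C_mul_X_pow_eq_monomial, map_mul, map_pow, alC, alX, map_mul, PowerSeries.map_C,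
        map_pow, map_pow, hYr, Polynomial.map_mul, Polynomial.map_pow, Polynomial.map_X, Polynomial.map_C,
        map_mul, map_pow, Polynomial.aeval_X, Polynomial.aeval_C]
      rfl
  have hζη : 2 * v * ζ + C q * ζ ^ 2 = η := by
    apply mul_left_cancel₀ hCq
    have hUe : U = v ^ 2 + 2 * C q * v * ζ + C q ^ 2 * ζ ^ 2 := by
      rw [← hZ2, hZe]; linear_combination ((v + C q * ζ) ^ 2) * hCε
    linear_combination hUv - hUe
  have hζT : 2 * ζb = Yb * Polynomial.aeval (Yb ^ 2) T1 := by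
    have h1 := congrArg (PowerSeries.map S.red) hζη
    rw [map_add, map_mul, map_mul, map_mul, hbq, zero_mul, add_zero, map_ofNat, hvr, hη, map_mul, hbiD, mul_one,
      halr, hT1, map_mul, map_pow, Polynomial.aeval_X, ← hζb] at h1
    apply mul_left_cancel₀ hvr0
    have e1 : (Yb ^ 2) ^ (e + 1) = Yb ^ p * Yb := by
      rw [← pow_mul, ← pow_succ]; congr 1; omega
    rw [e1] at h1
    linear_combination h1
  have hzz : coeff (3 * p) ζb + coeff p ζb = 0 := by
    have h1 : ∀ n, 2 * coeff n ζb = coeff n (Yb * Polynomial.aeval (Yb ^ 2) T1) := by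
      intro n
      rw [← hζT]
      have : (2 : k⟦X⟧) = C 2 := (map_ofNat C 2).symm
      rw [this, coeff_C_mul]
    have h2 : 2 * (coeff (3 * p) ζb + coeff p ζb) = 0 := by
      rw [mul_add, h1, h1, Polynomial.aeval_eq_sum_range' hT1d, Finset.mul_sum, map_sum, map_sum,
        ← Finset.sum_add_distrib]
      refine Finset.sum_eq_zero fun i hi => ?_
      have e1 : Yb * T1.coeff i • (Yb ^ 2) ^ i = T1.coeff i • Yb ^ (2 * i + 1) := by
        rw [mul_smul_comm, ← pow_mul, ← pow_succ']
      rw [e1, coeff_smul, coeff_smul, ← smul_add, ys_rel e he i (Finset.mem_range.mp hi), smul_zero]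
    exact (mul_eq_zero.mp h2).resolve_left h2k
  have hvb2 : ∃ r : k⟦X⟧, PowerSeries.map S.red (v ^ 2) = X ^ (2 * p) + X ^ (4 * p) * r := by
    have hgz' : (1 + X ^ 2) * gq (-1 : k) 0 = 1 := by
      have h := gq_zero (-1 : k)
      have : (C (-1 : k)) = (-1 : k⟦X⟧) := by simp
      rw [this] at h
      linear_combination h
    have h1 := congrArg (fun x => x ^ p) hgz'
    simp only [mul_pow, one_pow, add_pow_char] at h1
    set gp := gq (-1 : k) 0 ^ p with hgp
    refine ⟨-2 * gp + X ^ (2 * p) * gp ^ 2, ?_⟩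
    have e1 : gp = 1 - (X ^ 2) ^ p * gp := by linear_combination h1
    rw [map_pow, hvr, hYb, ys_pow, ← hgp, mul_pow]
    have e2 : (X ^ p * gp) ^ 2 = X ^ (2 * p) * (1 - (X ^ 2) ^ p * gp) ^ 2 := by
      rw [← e1]; ring
    rw [← mul_pow, e2]
    ring
  have hr1 : coeff p (PowerSeries.map S.red (v ^ 2 * ζ)) = 0 := by
    obtain ⟨r, hr⟩ := hvb2
    rw [map_mul, hr, add_mul, map_add, mul_assoc, coeff_X_dvd (by omega), coeff_X_dvd (by omega), add_zero]
  have hr3 : coeff (3 * p) (PowerSeries.map S.red (v ^ 2 * ζ)) = coeff p ζb := by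
    obtain ⟨r, hr⟩ := hvb2
    rw [map_mul, hr, add_mul, map_add, mul_assoc (X ^ (4 * p)), coeff_X_dvd (show 3 * p < 4 * p by omega), add_zero,
      show 3 * p = p + 2 * p by ring, coeff_X_pow_mul]
  rw [PowerSeries.coeff_map] at hr1 hr3
  rw [hζb, PowerSeries.coeff_map] at hzz hr3
  rw [PowerSeries.coeff_map] at hzz
  obtain ⟨x1, hx1⟩ := (S.red_iff _).mp hr1
  obtain ⟨x3, hx3⟩ := (S.red_iff (coeff (3 * p) (v ^ 2 * ζ) - coeff p ζ)).mp (by rw [map_sub, hr3, sub_self])
  obtain ⟨x4, hx4⟩ := (S.red_iff (coeff (3 * p) ζ + coeff p ζ)).mp (by rw [map_add, hzz])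
  rw [← hqd] at hx1 hx3 hx4
  obtain ⟨f1, hf1⟩ := cf 1 (by norm_num) (by norm_num)
  obtain ⟨f3, hf3⟩ := cf 3 (by norm_num) (by norm_num)
  have comm1 : ζ * (1 + 2 * v ^ 2) = (1 + 2 * v ^ 2) * ζ := mul_comm _ _
  rw [comm1, two, two, one_mul, c1, c2] at hf1
  rw [comm1, two, two, c3, c4, hW'] at hf3
  push_cast at hf1 hf3
  refine ⟨3 * f1 - f3 + 3 * W + 6 * x1 - 6 * x3 - 3 * x4, ?_⟩
  linear_combination 3 * hf1 - hf3 + 6 * q * hx1 - 6 * q * hx3 - 3 * q * hx4

end Pool.Agent.H546
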