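import Pool.Agent.H546.Sign3

set_option autoImplicit false

/-!
# Transfer of the linear sums to the rational numbers
-/

namespace Pool.Agent.H546

open Finset

/-- the generalised binomial coefficient -/
def gb (a : ℚ) (k : ℕ) : ℚ := (∏ i ∈ range k, (a - i)) / (k.factorial : ℚ)

theorem gb_neg (a : ℚ) (k : ℕ) : gb (-a) k = (-1) ^ k * pch a k / (k.factorial : ℚ) := by
  unfold gb pch
  have h : ∀ i ∈ range k, (-a - (i : ℚ)) = (-1) * (a + i) := fun i _ => by ring
  rw [prod_congr rfl h, prod_mul_distrib, prod_const, card_range]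

theorem gb_mul (a b : ℚ) (k : ℕ) : gb (-a) k * gb (-b) k = pch a k * pch b k * ((1 / (k.factorial : ℚ))) ^ 2 := by
  rw [gb_neg, gb_neg]
  have h : ((-1 : ℚ) ^ k) * (-1) ^ k = 1 := by rw [← mul_pow]; norm_num
  linear_combination (pch a k * pch b k * ((1 / (k.factorial : ℚ))) ^ 2) * h

variable {O K k : Type*} [CommRing O] [IsDomain O] [Field K] [Algebra O K] [Field k]
  (S : DV O K k) {p : ℕ} [hp : Fact p.Prime] [CharP k p]

include S in
theorem charZero_O (hq : S.q = (p : O)) : CharZero O := by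
  refine charZero_of_inj_zero fun n hn => ?_
  by_contra h0
  have hp0 : (p : O) ≠ 0 := by rw [← hq]; exact S.q_ne
  have key : ∀ a m : ℕ, m ≠ 0 → ¬ p ∣ m → ((p ^ a * m : ℕ) : O) ≠ 0 := by
    intro a m _ hm
    push_cast
    refine mul_ne_zero (pow_ne_zero _ hp0) ?_
    intro h1
    have := congrArg S.red h1
    rw [map_natCast, map_zero, CharP.cast_eq_zero_iff k p] at this
    exact hm this
  obtain ⟨a, m, hm, rfl⟩ := Nat.exists_eq_pow_mul_and_not_dvd h0 p hp.out.ne_one
  refine key a m ?_ hm hn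
  rintro rfl
  exact hm (dvd_zero _)

include S in
theorem charZero_K (hq : S.q = (p : O)) : CharZero K := by
  have := charZero_O S (p := p) hq
  refine charZero_of_inj_zero fun n hn => ?_
  have h : algebraMap O K (n : O) = algebraMap O K 0 := by rw [map_natCast, hn, map_zero]
  exact_mod_cast S.inj h

include S in
theorem den_of_O (hq : S.q = (p : O)) [CharZero K] {y : ℚ} {o : O} (h : (y : K) = algebraMap O K o) :
    ¬ p ∣ y.den := by
  intro hd
  have h1 : (y.num : O) = o * (y.den : O) := by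
    apply S.inj
    rw [map_intCast, map_mul, map_natCast, ← h]
    have := Rat.mul_den_eq_num y
    have h2 := congrArg (fun t : ℚ => (t : K)) this
    push_cast at h2
    exact h2.symm
  have h2 := congrArg S.red h1
  rw [map_intCast, map_mul, map_natCast, (CharP.cast_eq_zero_iff k p _).mpr hd, mul_zero,
    CharP.intCast_eq_zero_iff k p] at h2
  have h3 : p ∣ y.num.natAbs := Int.natCast_dvd.mp h2
  have := Nat.dvd_gcd h3 hd
  rw [y.reduced] at this
  exact hp.out.one_lt.ne' (Nat.dvd_one.mp this)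

include S in
theorem fin_int (hq : S.q = (p : O)) [CharZero K] {SQ : ℚ} {SO : O} (hS : (SQ : K) = algebraMap O K SO)
    {X E0 : ℤ} (hX : ¬ (p : ℤ) ∣ X) (h : (p : O) ^ 2 ∣ (X : O) * SO - E0) {E : ℚ} (hE : E * X = E0) :
    p.Coprime ((SQ - E) / (p : ℚ) ^ 2).den := by
  rw [Nat.Prime.coprime_iff_not_dvd hp.out]
  have hXr : S.red (X : O) ≠ 0 := by
    rw [map_intCast]
    intro h0
    exact hX ((CharP.intCast_eq_zero_iff k p X).mp h0)
  obtain ⟨xi, hxi⟩ := (S.unit_of_red hXr).exists_right_inv
  obtain ⟨o, ho⟩ := h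
  have hp0 : (p : K) ≠ 0 := by exact_mod_cast hp.out.ne_zero
  refine den_of_O S hq (o := xi * o) ?_
  have hX0 : (X : K) ≠ 0 := by
    intro h0
    have : X = 0 := by exact_mod_cast h0
    rw [this] at hX
    exact hX (dvd_zero _)
  have e1 := congrArg (algebraMap O K) ho
  rw [map_sub, map_mul, map_mul, map_pow, map_natCast, map_intCast, map_intCast, ← hS] at e1
  have e2 := congrArg (algebraMap O K) hxi
  rw [map_mul, map_intCast, map_one] at e2
  have e3 : (E : K) * X = E0 := by exact_mod_cast congrArg (fun t : ℚ => (t : K)) hE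
  simp only [Rat.cast_div, Rat.cast_sub, Rat.cast_pow, Rat.cast_natCast]
  rw [div_eq_iff (pow_ne_zero 2 hp0), map_mul]
  linear_combination (algebraMap O K xi) * e1 - ((SQ : K) - E) * e2 - (algebraMap O K xi) * e3

include S in
theorem fin_zero (hq : S.q = (p : O)) [CharZero K] {SQ : ℚ} {SO : O} (hS : (SQ : K) = algebraMap O K SO)
    (h : S.red SO = 0) : p.Coprime (SQ / (p : ℚ)).den := by
  rw [Nat.Prime.coprime_iff_not_dvd hp.out]
  obtain ⟨o, ho⟩ := (S.red_iff _).mp h
  have hp0 : (p : K) ≠ 0 := by exact_mod_cast hp.out.ne_zero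
  refine den_of_O S hq (o := o) ?_
  simp only [Rat.cast_div, Rat.cast_natCast]
  rw [hS, ho, hq, map_mul, map_natCast]
  field_simp

include S in
/-- inverses of the small integers -/
theorem iv_exists : ∃ iv : ℕ → O, ∀ n, n + 1 < p → ((n : O) + 1) * iv (n + 1) = 1 := by
  have : ∀ n, ∃ x : O, n + 1 < p → ((n : O) + 1) * x = 1 := by
    intro n
    by_cases hn : n + 1 < p
    · have hr : S.red ((n : O) + 1) ≠ 0 := by
        have h1 := small_ne (k := k) (p := p) (n := n + 1) (by omega) hn
        rw [map_add, map_natCast, map_one]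
        exact_mod_cast h1
      obtain ⟨x, hx⟩ := (S.unit_of_red hr).exists_right_inv
      exact ⟨x, fun _ => hx⟩
    · exact ⟨0, fun h => absurd h hn⟩
  choose x hx using this
  exact ⟨fun n => x (n - 1), fun n hn => hx n hn⟩

omit [IsDomain O] [Field k] hp in
theorem Jf_K [CharZero K] {iv : ℕ → O} (hiv : ∀ n, n + 1 < p → ((n : O) + 1) * iv (n + 1) = 1) (n : ℕ)
    (hn : n < p) : algebraMap O K (Jf iv n) = ((1 / (n.factorial : ℚ) : ℚ) : K) := by
  induction n with
  | zero => simp [Jf_zero]
  | succ n ih =>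
    rw [Jf_succ, map_mul, ih (by omega)]
    have h1 := congrArg (algebraMap O K) (hiv n hn)
    rw [map_mul, map_add, map_natCast, map_one] at h1
    have h2 : ((n : K) + 1) ≠ 0 := by exact_mod_cast Nat.succ_ne_zero n
    have h3 : (n.factorial : K) ≠ 0 := by exact_mod_cast n.factorial_ne_zero
    have h4 : algebraMap O K (iv (n + 1)) = 1 / ((n : K) + 1) := by
      rw [eq_div_iff h2]; linear_combination h1
    rw [h4, Nat.factorial_succ]
    push_cast
    field_simp

omit [IsDomain O] [Field k] hp in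
/-- the rational sum in the field -/
theorem sum_K [CharZero K] {iv : ℕ → O} (hiv : ∀ n, n + 1 < p → ((n : O) + 1) * iv (n + 1) = 1)
    {a b T : ℚ} {a' b' t : O} (ha : (a : K) = algebraMap O K a') (hb : (b : K) = algebraMap O K b')
    (hT : (T : K) = algebraMap O K t) :
    ((∑ n ∈ range p, gb (-a) n * gb (-b) n * T ^ n : ℚ) : K) = algebraMap O K (hyp iv p a' b' t) := by
  unfold hyp
  rw [Rat.cast_sum, map_sum]
  refine sum_congr rfl fun n hn => ?_
  rw [gb_mul, map_mul, map_mul, map_mul, map_pow, map_pow, Jf_K hiv n (mem_range.mp hn), pch_map, pch_map,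
    ← ha, ← hb, ← hT]
  have e : ∀ u : ℚ, ((pch u n : ℚ) : K) = pch (u : K) n := fun u => pch_map (Rat.castHom K) u n
  push_cast
  rw [e, e]

end Pool.Agent.H546
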