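import Pool.Graph.R_pool_sql_team_seeded_3997aac3.Q267.MW.C3Split

set_option autoImplicit false

/-!
# The generating function of Legendre polynomials
-/

namespace Pool.Agent.H546

open Finset PowerSeries
open Pool.Agent.Q267.Seven (dl dl_succ)
open Pool.Agent.Q267.MW (dl_vanish)

theorem dl_up (m k : ℕ) : ((m : ℤ) + 1 - k) * dl (m + 1) k = ((m : ℤ) + 1 + k) * dl m k := by
  rcases lt_or_ge (m + 1) k with h | h
  · rw [dl_vanish _ _ h, dl_vanish _ _ (by omega), mul_zero, mul_zero]
  · have h1 := Nat.choose_mul_succ_eq m k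
    have h2 := Nat.choose_mul_succ_eq (m + k) k
    have h1' : (m.choose k : ℤ) * (m + 1) = ((m + 1).choose k : ℤ) * ((m : ℤ) + 1 - k) := by
      have := congrArg (Nat.cast : ℕ → ℤ) h1
      push_cast [Nat.cast_sub h] at this
      exact this
    have h2' : ((m + k).choose k : ℤ) * (m + k + 1) = ((m + 1 + k).choose k : ℤ) * ((m : ℤ) + 1) := by
      have e : m + k + 1 - k = m + 1 := by omega
      rw [e] at h2
      have := congrArg (Nat.cast : ℕ → ℤ) h2
      push_cast at this
      rw [show m + 1 + k = m + k + 1 by ring]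
      exact this
    have hm : (m : ℤ) + 1 ≠ 0 := by positivity
    apply mul_left_cancel₀ hm
    unfold dl
    linear_combination (-(-1) ^ k * ((m + 1 + k).choose k : ℤ) * ((m : ℤ) + 1)) * h1' -
      (-1) ^ k * (m.choose k : ℤ) * ((m : ℤ) + 1) * h2'

theorem dl_diag (m k : ℕ) : dl (m + 1) (k + 1) * ((k : ℤ) + 1) ^ 2 =
    -(((m : ℤ) + k + 2) * (m + k + 1)) * dl m k := by
  have h1 := Nat.add_one_mul_choose_eq m k
  have h2 := Nat.add_one_mul_choose_eq (m + k + 1) k
  have h3 := Nat.choose_mul_succ_eq (m + k) k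
  have h1' : ((m : ℤ) + 1) * m.choose k = ((m + 1).choose (k + 1) : ℤ) * (k + 1) := by
    exact_mod_cast h1
  have h2' : ((m : ℤ) + k + 2) * (m + k + 1).choose k = ((m + k + 2).choose (k + 1) : ℤ) * (k + 1) := by
    have := congrArg (Nat.cast : ℕ → ℤ) h2
    push_cast at this
    linear_combination this
  have h3' : ((m + k).choose k : ℤ) * (m + k + 1) = ((m + k + 1).choose k : ℤ) * ((m : ℤ) + 1) := by
    have e : m + k + 1 - k = m + 1 := by omega
    rw [e] at h3
    have := congrArg (Nat.cast : ℕ → ℤ) h3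
    push_cast at this
    exact this
  unfold dl
  rw [show m + 1 + (k + 1) = m + k + 2 by ring, pow_succ]
  linear_combination ((-1) ^ k * ((m + k + 2).choose (k + 1) : ℤ) * ((k : ℤ) + 1)) * h1' +
    ((-1) ^ k * ((m : ℤ) + 1) * (m.choose k : ℤ)) * h2' +
    ((-1) ^ k * (m.choose k : ℤ) * ((m : ℤ) + k + 2)) * h3'

theorem dl_rec (n j : ℕ) : ((n : ℤ) + 2) * dl (n + 2) (j + 1) =
    (2 * (n : ℤ) + 3) * (dl (n + 1) (j + 1) - 2 * dl (n + 1) j) - ((n : ℤ) + 1) * dl n (j + 1) := by
  have h1 := dl_diag (n + 1) j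
  have h2 := dl_succ (n + 1) j
  have h3 := dl_succ n j
  have h4 := dl_up n j
  push_cast at h1 h2 h3 h4
  have hj : ((j : ℤ) + 1) ^ 2 ≠ 0 := by positivity
  apply mul_right_cancel₀ hj
  linear_combination ((n : ℤ) + 2) * h1 - (2 * (n : ℤ) + 3) * h2 + ((n : ℤ) + 1) * h3 +
    ((n : ℤ) + 1) * ((n : ℤ) - j) * h4

section gen

variable {R : Type*} [CommRing R]

/-- the Legendre polynomial `P_n(1-2z)` -/
def lg (n : ℕ) (z : R) : R := ∑ k ∈ range (n + 1), (dl n k : R) * z ^ k

theorem lg_ext (n N : ℕ) (h : n + 1 ≤ N) (z : R) : ∑ k ∈ range N, (dl n k : R) * z ^ k = lg n z := by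
  unfold lg
  symm
  refine sum_subset (fun k hk => ?_) (fun k _ hk => ?_)
  · rw [mem_range] at hk ⊢
    omega
  · rw [mem_range, not_lt] at hk
    rw [dl_vanish n k (by omega)]
    simp

theorem lg_rec (n : ℕ) (z : R) : ((n : R) + 2) * lg (n + 2) z =
    (2 * (n : R) + 3) * (1 - 2 * z) * lg (n + 1) z - ((n : R) + 1) * lg n z := by
  have e2 := lg_ext (n + 2) (n + 3) (by omega) z
  have e1 := lg_ext (n + 1) (n + 3) (by omega) z
  have e1' := lg_ext (n + 1) (n + 2) (by omega) z
  have e0 := lg_ext n (n + 3) (by omega) z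
  rw [sum_range_succ'] at e2 e1 e0
  have h0 : ∀ m, dl m 0 = 1 := by intro m; simp [dl]
  have key : ((n : R) + 2) * ∑ k ∈ range (n + 2), (dl (n + 2) (k + 1) : R) * z ^ (k + 1) =
      (2 * (n : R) + 3) * (∑ k ∈ range (n + 2), (dl (n + 1) (k + 1) : R) * z ^ (k + 1) -
        2 * z * ∑ k ∈ range (n + 2), (dl (n + 1) k : R) * z ^ k) -
      ((n : R) + 1) * ∑ k ∈ range (n + 2), (dl n (k + 1) : R) * z ^ (k + 1) := by
    rw [mul_sum, mul_sum, ← sum_sub_distrib, mul_sum, mul_sum, ← sum_sub_distrib]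
    refine sum_congr rfl fun k _ => ?_
    have h := congrArg (Int.cast : ℤ → R) (dl_rec n k)
    push_cast at h
    rw [pow_succ]
    linear_combination z ^ k * z * h
  rw [h0, Int.cast_one, pow_zero, mul_one] at e2 e1 e0
  linear_combination key - ((n : R) + 2) * e2 + (2 * (n : R) + 3) * e1 -
    (2 * (n : R) + 3) * (2 * z) * e1' - ((n : R) + 1) * e0

theorem lg_zero (z : R) : lg 0 z = 1 := by simp [lg, dl]

theorem lg_one (z : R) : lg 1 z = 1 - 2 * z := by
  simp [lg, dl, sum_range_succ]; ring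

/-- the generating function -/
noncomputable def lgs (z : R) : R⟦X⟧ := PowerSeries.mk fun n => lg n z

theorem lgs_ode (z : R) : (1 - 2 * C (1 - 2 * z) * X + X ^ 2) * d⁄dX R (lgs z) =
    (C (1 - 2 * z) - X) * lgs z := by
  have e : (1 - 2 * C (1 - 2 * z) * X + X ^ 2) * d⁄dX R (lgs z) =
    d⁄dX R (lgs z) - C (2 * (1 - 2 * z)) * (X * d⁄dX R (lgs z)) + X * (X * d⁄dX R (lgs z)) := by
    rw [map_mul, map_ofNat]; ring
  have e' : (C (1 - 2 * z) - X) * lgs z = C (1 - 2 * z) * lgs z - X * lgs z := by ring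
  rw [e, e']
  ext n
  rcases n with _ | _ | n
  · rw [map_add, map_sub, map_sub, coeff_C_mul, coeff_C_mul, coeff_zero_X_mul, coeff_zero_X_mul,
      coeff_zero_X_mul, coeff_derivative]
    simp only [lgs, coeff_mk, zero_add]
    rw [lg_zero, lg_one]
    push_cast
    ring
  · have h := lg_rec 0 z
    simp only [Nat.cast_zero, zero_add, mul_zero] at h
    rw [map_add, map_sub, map_sub, coeff_C_mul, coeff_C_mul, coeff_succ_X_mul, coeff_succ_X_mul,
      coeff_succ_X_mul, coeff_zero_X_mul, coeff_derivative, coeff_derivative]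
    simp only [lgs, coeff_mk]
    push_cast
    simp only [zero_add]
    linear_combination h
  · have h := lg_rec (n + 1) z
    push_cast at h
    rw [map_add, map_sub, map_sub, coeff_C_mul, coeff_C_mul, coeff_succ_X_mul, coeff_succ_X_mul,
      coeff_succ_X_mul, coeff_succ_X_mul, coeff_derivative, coeff_derivative, coeff_derivative]
    simp only [lgs, coeff_mk]
    push_cast
    linear_combination h

theorem lgs_sq_tf [IsAddTorsionFree R] (z : R) : lgs z ^ 2 *
    (1 - 2 * C (1 - 2 * z) * X + X ^ 2) = 1 := by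
  apply derivative.ext
  · have h := lgs_ode z
    have h2 : d⁄dX R (2 : R⟦X⟧) = 0 := by
      have : (2 : R⟦X⟧) = C 2 := (map_ofNat C 2).symm
      rw [this, derivative_C]
    rw [Derivation.leibniz, derivative_one, derivative_pow, map_add, map_sub, derivative_one,
      Derivation.leibniz, Derivation.leibniz, derivative_C, derivative_X, derivative_pow,
      derivative_X, h2]
    simp only [smul_eq_mul]
    push_cast
    linear_combination 2 * lgs z * h
  · simp [lgs, lg_zero]

theorem lgs_map {T : Type*} [CommRing T] (g : R →+* T) (z : R) :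
    PowerSeries.map g (lgs z) = lgs (g z) := by
  ext n
  simp [lgs, lg]

theorem lgs_sq (z : R) : lgs z ^ 2 * (1 - 2 * C (1 - 2 * z) * X + X ^ 2) = 1 := by
  have h := congrArg (PowerSeries.map (Polynomial.aeval z : Polynomial ℤ →ₐ[ℤ] R).toRingHom) (lgs_sq_tf (Polynomial.X : Polynomial ℤ))
  rw [map_mul, map_pow, lgs_map] at h
  simp only [map_add, map_sub, map_mul, map_one, map_pow, map_ofNat, PowerSeries.map_X,
    PowerSeries.map_C] at h
  simpa [map_ofNat] using h

/-- the series for the cubic family -/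
noncomputable def ps3 (z : R) : R⟦X⟧ := PowerSeries.expand 3 (by norm_num) (lgs z)

theorem ps3_sq (z : R) : ps3 z ^ 2 * ((1 - X ^ 3) ^ 2 + 4 * C z * X ^ 3) = 1 := by
  have h := congrArg (PowerSeries.expand 3 (by norm_num : (3:ℕ) ≠ 0)) (lgs_sq z)
  rw [map_mul, map_pow, map_one] at h
  simp only [map_add, map_sub, map_mul, map_one, map_pow, map_ofNat, PowerSeries.expand_X,
    PowerSeries.expand_C] at h
  have : (1 - X ^ 3 : R⟦X⟧) ^ 2 + 4 * C z * X ^ 3 = 1 - 2 * (1 - 2 * C z) * X ^ 3 + (X ^ 3) ^ 2 := by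
    ring
  rw [this]
  exact h

theorem ps3_coeff (z : R) (n : ℕ) : coeff n (ps3 z) = if 3 ∣ n then lg (n / 3) z else 0 := by
  unfold ps3
  rw [coeff_expand]
  simp [lgs]

/-- the differential -/
noncomputable def cs3 (z : R) : R⟦X⟧ := (1 + X) * ps3 z

theorem cs3_coeff (z : R) (p : ℕ) (h1 : p % 3 ≠ 0) :
    coeff (p - 1) (cs3 z) = lg (p / 3) z := by
  obtain ⟨m, rfl⟩ : ∃ m, p = m + 1 := ⟨p - 1, by omega⟩
  rw [Nat.add_sub_cancel]
  unfold cs3
  rw [add_mul, one_mul, map_add, ps3_coeff]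
  rcases m with _ | m
  · simp
  · rw [coeff_succ_X_mul, ps3_coeff]
    have : (m + 1 + 1) % 3 = 1 ∨ (m + 1 + 1) % 3 = 2 := by omega
    rcases this with h | h
    · rw [if_pos (by omega), if_neg (by omega), add_zero]
      congr 1
      omega
    · rw [if_neg (by omega), if_pos (by omega), zero_add]
      congr 1
      omega

end gen

end Pool.Agent.H546
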