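import Pool.Agent.H546.Ser2
import Pool.Agent.H546.Leg

set_option autoImplicit false

/-!
# Series for the expansions at a point of order two
-/

namespace Pool.Agent.H546

open PowerSeries Finset

section gq

variable {R : Type*} [CommRing R]

/-- `1 / (1 - t X²)^(m+1)` -/
noncomputable def gq (t : R) (m : ℕ) : R⟦X⟧ :=
  PowerSeries.mk fun n => if n % 2 = 0 then t ^ (n / 2) * (((m + n / 2).choose m : ℕ) : R) else 0

theorem gq_coeff (t : R) (m n : ℕ) : coeff n (gq t m) =
    if n % 2 = 0 then t ^ (n / 2) * (((m + n / 2).choose m : ℕ) : R) else 0 := by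
  simp [gq]

theorem gq_step (t : R) (f : R⟦X⟧) (n : ℕ) : coeff n ((1 - C t * X ^ 2) * f) =
    coeff n f - t * (if 2 ≤ n then coeff (n - 2) f else 0) := by
  have e : (1 - C t * X ^ 2) * f = f - C t * (X ^ 2 * f) := by ring
  rw [e, map_sub, coeff_C_mul, coeff_X_pow_mul']

theorem gq_zero (t : R) : (1 - C t * X ^ 2) * gq t 0 = 1 := by
  ext n
  rw [gq_step, gq_coeff, coeff_one]
  rcases n with _ | _ | n
  · simp
  · simp
  · rw [if_pos (show 2 ≤ n + 1 + 1 by omega), show n + 1 + 1 - 2 = n by omega, gq_coeff,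
      if_neg (show ¬ n + 1 + 1 = 0 by omega)]
    by_cases h : n % 2 = 0
    · rw [if_pos (by omega), if_pos h, show (n + 1 + 1) / 2 = n / 2 + 1 by omega]
      simp only [Nat.choose_zero_right, Nat.cast_one, mul_one]
      ring
    · rw [if_neg (by omega), if_neg h]; ring

theorem gq_succ (t : R) (m : ℕ) : (1 - C t * X ^ 2) * gq t (m + 1) = gq t m := by
  ext n
  rw [gq_step, gq_coeff t m]
  rcases n with _ | _ | n
  · simp [gq_coeff]
  · simp [gq_coeff]
  · rw [if_pos (show 2 ≤ n + 1 + 1 by omega), show n + 1 + 1 - 2 = n by omega, gq_coeff, gq_coeff]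
    by_cases h : n % 2 = 0
    · rw [if_pos (by omega), if_pos h, if_pos (by omega), show (n + 1 + 1) / 2 = n / 2 + 1 by omega]
      have h1 := Nat.choose_succ_succ (m + (n / 2 + 1)) m
      rw [show (m + (n / 2 + 1)).succ = m + 1 + (n / 2 + 1) by omega, show m.succ = m + 1 by omega] at h1
      rw [h1, show m + (n / 2 + 1) = m + 1 + n / 2 by omega]
      push_cast
      ring
    · rw [if_neg (by omega), if_neg h, if_neg (by omega)]; ring

theorem gq_mul (t : R) (m : ℕ) : gq t m * gq t 0 = gq t (m + 1) := by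
  have h1 := gq_succ t m
  have h2 := gq_zero t
  linear_combination (-gq t 0) * h1 + gq t (m + 1) * h2

theorem gq_pow (t : R) (m : ℕ) : gq t 0 ^ (m + 1) = gq t m := by
  induction m with
  | zero => rw [zero_add, pow_one]
  | succ m ih => rw [pow_succ, ih, gq_mul]

/-- the series `X / (1 - t X²)` -/
noncomputable def ys (t : R) : R⟦X⟧ := X * gq t 0

theorem ys_pow (t : R) (n : ℕ) : ys t ^ n = X ^ n * gq t 0 ^ n := by
  unfold ys; rw [mul_pow]

theorem gq_const (t : R) (m : ℕ) : constantCoeff (gq t m) = 1 := by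
  rw [← coeff_zero_eq_constantCoeff_apply, gq_coeff]
  simp

theorem coeff_ys_pow (t : R) (m a : ℕ) :
    coeff (m + 1 + 2 * a) (ys t ^ (m + 1)) = t ^ a * (((m + a).choose m : ℕ) : R) := by
  rw [ys_pow, gq_pow, add_comm (m + 1), coeff_X_pow_mul, gq_coeff, if_pos (by omega),
    show 2 * a / 2 = a by omega]

theorem coeff_ys_low (t : R) {m n : ℕ} (h : n < m) : coeff n (ys t ^ m) = 0 := by
  rw [ys_pow]
  exact coeff_X_dvd h _

theorem gq_der (t : R) : d⁄dX R (gq t 0) = 2 * C t * X * gq t 0 ^ 2 := by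
  have h := congrArg (d⁄dX R) (gq_zero t)
  rw [Derivation.leibniz, map_sub, derivative_one, Derivation.leibniz, derivative_C, derivative_pow,
    derivative_X, smul_eq_mul, smul_eq_mul, smul_eq_mul, smul_eq_mul] at h
  push_cast at h
  have h2 := gq_zero t
  linear_combination gq t 0 * h - (d⁄dX R (gq t 0)) * h2

theorem ys_der (t : R) : d⁄dX R (ys t) = gq t 0 ^ 2 * (1 + C t * X ^ 2) := by
  unfold ys
  rw [Derivation.leibniz, derivative_X, smul_eq_mul, smul_eq_mul, gq_der]
  have h2 := gq_zero t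
  linear_combination (-gq t 0) * h2

theorem ys_der_const (t : R) : constantCoeff (d⁄dX R (ys t)) = 1 := by
  rw [ys_der]
  simp [gq_const]

theorem ys_const (t : R) : constantCoeff (ys t) = 0 := by
  unfold ys; simp

theorem coeff_yy (t : R) (n : ℕ) : coeff n (ys t ^ n * d⁄dX R (ys t)) = 1 := by
  rw [ys_pow, mul_assoc, coeff_low, map_mul, map_pow, gq_const, ys_der_const]
  simp

end gq

section ps

variable {R : Type*} [CommRing R]

/-- the series for the quartic family -/
noncomputable def ps4 (z : R) : R⟦X⟧ := PowerSeries.expand 4 (by norm_num) (lgs z)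

theorem ps4_sq (z : R) : ps4 z ^ 2 * ((1 - X ^ 4) ^ 2 + 4 * C z * X ^ 4) = 1 := by
  have h := congrArg (PowerSeries.expand 4 (by norm_num : (4:ℕ) ≠ 0)) (lgs_sq z)
  rw [map_mul, map_pow, map_one] at h
  simp only [map_add, map_sub, map_mul, map_one, map_pow, map_ofNat, PowerSeries.expand_X,
    PowerSeries.expand_C] at h
  have : (1 - X ^ 4 : R⟦X⟧) ^ 2 + 4 * C z * X ^ 4 = 1 - 2 * (1 - 2 * C z) * X ^ 4 + (X ^ 4) ^ 2 := by
    ring
  rw [this]
  exact h

theorem ps4_coeff (z : R) (n : ℕ) : coeff n (ps4 z) = if 4 ∣ n then lg (n / 4) z else 0 := by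
  unfold ps4
  rw [coeff_expand]
  simp [lgs]

/-- the differential -/
noncomputable def cs4 (z : R) : R⟦X⟧ := (1 - X ^ 2) * ps4 z

theorem cs4_coeff1 (z : R) (p : ℕ) (h1 : p % 4 = 1) : coeff (p - 1) (cs4 z) = lg (p / 4) z := by
  obtain ⟨m, rfl⟩ : ∃ m, p = m + 1 := ⟨p - 1, by omega⟩
  rw [Nat.add_sub_cancel]
  unfold cs4
  rw [sub_mul, one_mul, map_sub, ps4_coeff, coeff_X_pow_mul', if_pos (by omega)]
  have e : (m + 1) / 4 = m / 4 := by omega
  rw [e]
  split_ifs with h2
  · rw [ps4_coeff, if_neg (by omega), sub_zero]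
  · rw [sub_zero]

theorem cs4_coeff3 (z : R) (p : ℕ) (h1 : p % 4 = 3) : coeff (p - 1) (cs4 z) = -lg (p / 4) z := by
  obtain ⟨m, rfl⟩ : ∃ m, p = m + 3 := ⟨p - 3, by omega⟩
  rw [show m + 3 - 1 = m + 2 by omega]
  unfold cs4
  rw [sub_mul, one_mul, map_sub, ps4_coeff, coeff_X_pow_mul', if_neg (by omega), if_pos (by omega),
    show m + 2 - 2 = m by omega, ps4_coeff, if_pos (by omega), zero_sub]
  congr 2
  omega

end ps

section binom

variable {p : ℕ} [hp : Fact p.Prime]

/-- the binomial coefficient `C(2p-1, p-1)` -/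
theorem wolst (hp2 : p ≠ 2) : (2 * p - 1).choose (p - 1) ≡ 1 [MOD p ^ 2] := by
  have hp0 := hp.out.pos
  have h := choose_pp (p := p) 2 1
  rw [one_mul, Nat.choose_one_right] at h
  obtain ⟨m, hm⟩ : ∃ m, p = m + 1 := ⟨p - 1, by omega⟩
  have e1 : (2 * p).choose p = 2 * (2 * p - 1).choose (p - 1) := by
    have := Nat.add_one_mul_choose_eq (2 * p - 1) (p - 1)
    rw [show 2 * p - 1 + 1 = 2 * p by omega, show p - 1 + 1 = p by omega] at this
    apply Nat.eq_of_mul_eq_mul_right hp0
    rw [← this]; ring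
  rw [e1] at h
  have hcop : Nat.Coprime (p ^ 2) 2 := by
    apply Nat.Coprime.pow_left
    rw [Nat.coprime_primes hp.out (by norm_num)]
    exact hp2
  exact Nat.ModEq.cancel_left_of_coprime (c := 2) (by rw [Nat.Coprime] at hcop; exact hcop)
    (by simpa using h)

end binom

section char

variable {k : Type*} [Field k] {p : ℕ} [hp : Fact p.Prime] [CharP k p]

/-- the relation between two coefficients of the odd powers -/
theorem ys_rel (e : ℕ) (he : p = 2 * e + 1) (i : ℕ) (hi : i < p) :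
    coeff (3 * p) (ys (-1 : k) ^ (2 * i + 1)) + coeff p (ys (-1 : k) ^ (2 * i + 1)) = 0 := by
  have h3 : 3 * p = 2 * i + 1 + 2 * (3 * e + 1 - i) := by omega
  rw [h3, coeff_ys_pow]
  rcases le_or_gt i e with h | h
  · have h1 : p = 2 * i + 1 + 2 * (e - i) := by omega
    have h2 : coeff p (ys (-1 : k) ^ (2 * i + 1)) = (-1) ^ (e - i) * (((2 * i + (e - i)).choose (2 * i) : ℕ) : k) := by
      conv_lhs => rw [h1]
      rw [coeff_ys_pow]
    rw [h2]
    have hl := lucas (p := p) 1 (2 * i + (e - i)) 0 (2 * i) (by omega) (by omega)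
    rw [Nat.choose_zero_right, mul_one, one_mul, zero_mul, zero_add,
      show p + (2 * i + (e - i)) = 2 * i + (3 * e + 1 - i) by omega] at hl
    have hl' : (((2 * i + (3 * e + 1 - i)).choose (2 * i) : ℕ) : k) = (((2 * i + (e - i)).choose (2 * i) : ℕ) : k) := by
      rw [CharP.cast_eq_iff_mod_eq k p]
      exact hl
    rw [hl', show 3 * e + 1 - i = e - i + 2 * e + 1 by omega, pow_succ, pow_add, pow_mul]
    simp
  · rw [coeff_ys_low _ (by omega), add_zero]
    have hl := lucas (p := p) 2 (i - e - 1) 1 (2 * i - p) (by omega) (by omega)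
    rw [Nat.choose_eq_zero_of_lt (show i - e - 1 < 2 * i - p by omega), zero_mul,
      show 2 * p + (i - e - 1) = 2 * i + (3 * e + 1 - i) by omega, show 1 * p + (2 * i - p) = 2 * i by omega] at hl
    have hl' : (((2 * i + (3 * e + 1 - i)).choose (2 * i) : ℕ) : k) = ((0 : ℕ) : k) := by
      rw [CharP.cast_eq_iff_mod_eq k p]
      exact hl
    rw [hl', Nat.cast_zero, mul_zero]

end char

/-- a solution of `B = 1 + t B²` -/
theorem exists_cat {R : Type*} [CommRing R] (t : R⟦X⟧) (ht : constantCoeff t = 0) : ∃ B : R⟦X⟧, B = 1 + t * B ^ 2 := by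
  have hs : PowerSeries.HasSubst t := PowerSeries.HasSubst.of_constantCoeff_zero' ht
  set c : R⟦X⟧ := PowerSeries.map (Nat.castRingHom R) catalanSeries with hc
  have h1 : c ^ 2 * X + 1 = c := by
    have := congrArg (PowerSeries.map (Nat.castRingHom R)) catalanSeries_sq_mul_X_add_one
    simpa using this
  refine ⟨PowerSeries.substAlgHom hs c, ?_⟩
  have h2 := congrArg (PowerSeries.substAlgHom hs) h1
  rw [map_add, map_mul, map_pow, map_one, PowerSeries.substAlgHom_X hs] at h2
  linear_combination -h2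

end Pool.Agent.H546
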