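import Pool.Agent.H546.UModel
import Pool.Agent.H546.QSer

set_option autoImplicit false

/-!
# The quartic family `y² = V³ - 4V² + 4zV` and its model at the origin
-/

namespace Pool.Agent.H546

open Polynomial

section ring

variable {R : Type*} [CommRing R]

/-- coefficients of the short Weierstrass form -/
def qa (z : R) : R := 324 * z - 432
def qb (z : R) : R := 3888 * z - 3456

theorem qa_map {T : Type*} [CommRing T] (g : R →+* T) (z : R) : g (qa z) = qa (g z) := by
  simp [qa, map_ofNat]

theorem qb_map {T : Type*} [CommRing T] (g : R →+* T) (z : R) : g (qb z) = qb (g z) := by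
  simp [qb, map_ofNat]

/-- the right hand side of the `V`-model -/
noncomputable def gv (z : R) : R[X] := X ^ 3 - 4 * X ^ 2 + C (4 * z) * X

/-- the homogenised right hand side -/
noncomputable def tv (z : R) (n d : R[X]) : R[X] := d * (n ^ 3 - 4 * n ^ 2 * d + C (4 * z) * n * d ^ 2)

theorem cub_compv (z : R) : (cub (qa z) (qb z)).comp (9 * X - 12) = 729 * gv z := by
  simp only [cub, qa, qb, gv, add_comp, mul_comp, pow_comp, X_comp, C_comp, C_sub, C_mul,
    map_ofNat, sub_comp, ofNat_comp]
  ring

theorem tgt_tv (z : R) (N D : R[X]) : tgt (qa z) (qb z) (9 * N - 12 * D) D = 729 * tv z N D := by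
  simp only [tgt, qa, qb, tv, C_sub, C_mul, map_ofNat]
  ring

theorem wr_compv (n d : R[X]) :
    wr (n.comp (9 * X - 12)) (d.comp (9 * X - 12)) = 9 * (wr n d).comp (9 * X - 12) := by
  simp only [wr, derivative_comp, sub_comp, mul_comp]
  have : derivative (9 * X - 12 : R[X]) = 9 := by
    simp
  rw [this]
  ring

theorem discq (z : R) : 4 * (qa z) ^ 3 + 27 * (qb z) ^ 2 = -136048896 * (z ^ 2 * (1 - z)) := by
  simp only [qa, qb]; ring

theorem coeff_Xd (f : R[X]) (i : ℕ) : (X * derivative f).coeff i = i * f.coeff i := by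
  rcases i with _ | i
  · simp
  · rw [coeff_X_mul, coeff_derivative]; push_cast; ring

theorem reflect_der {n : ℕ} {f : R[X]} (h : f.natDegree ≤ n) :
    X * derivative (reflect n f) = (n : R[X]) * reflect n f - reflect n (X * derivative f) := by
  ext i
  have hn : ((n : R[X]) * reflect n f).coeff i = n * (reflect n f).coeff i := by
    rw [← C_eq_natCast, coeff_C_mul]
  rw [coeff_sub, coeff_Xd, hn, coeff_reflect, coeff_reflect, coeff_Xd]
  rcases le_or_gt i n with hi | hi
  · rw [revAt_le hi, Nat.cast_sub hi]; ring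
  · rw [revAt_eq_self_of_lt hi, coeff_eq_zero_of_natDegree_lt (lt_of_le_of_lt h hi)]; ring

theorem wr_reflect {n : ℕ} (hn : 1 ≤ n) {N D M : R[X]} {q : R} (hN : N.natDegree ≤ n) (hD : D.natDegree ≤ n)
    (hM : M.natDegree ≤ 2 * n - 2) (h : wr N D = C q * M) :
    wr (reflect n D) (reflect n N) = C q * reflect (2 * n - 2) M := by
  have hXd : ∀ f : R[X], f.natDegree ≤ n → (X * derivative f).natDegree ≤ n := by
    intro f hf
    rw [natDegree_le_iff_coeff_eq_zero]
    intro i hi
    rw [coeff_Xd, coeff_eq_zero_of_natDegree_lt (lt_of_le_of_lt hf hi), mul_zero]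
  have e1 := reflect_der hN
  have e2 := reflect_der hD
  have e3 := reflect_mul D (X * derivative N) hD (hXd N hN)
  have e4 := reflect_mul (X * derivative D) N (hXd D hD) hN
  have e5 : D * (X * derivative N) - X * derivative D * N = X * (C q * M) := by
    rw [← h, wr]; ring
  have e6 : reflect (n + n) (X * (C q * M)) = X * (C q * reflect (2 * n - 2) M) := by
    have hqM : (C q * M).natDegree ≤ 2 * n - 2 := (natDegree_C_mul_le _ _).trans hM
    have := reflect_mul X (C q * M) (F := 2) (G := 2 * n - 2) (natDegree_X_le.trans (by norm_num)) hqM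
    rw [show 2 + (2 * n - 2) = n + n by omega] at this
    rw [this, reflect_C_mul]
    congr 1
    have hX : reflect 2 (X ^ 1 : R[X]) = X ^ (revAt 2 1) := by
      have := reflect_C_mul_X_pow 2 1 (c := (1 : R))
      simpa using this
    rw [pow_one, revAt_le (by norm_num)] at hX
    simpa using hX
  have e7 : X * wr (reflect n D) (reflect n N) = X * (C q * reflect (2 * n - 2) M) := by
    rw [← e6, ← e5]
    have e8 : reflect (n + n) (D * (X * derivative N) - X * derivative D * N) =
        reflect (n + n) (D * (X * derivative N)) - reflect (n + n) (X * derivative D * N) := by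
      ext i; simp [coeff_reflect]
    rw [e8, e3, e4, wr]
    linear_combination (reflect n N) * e2 - (reflect n D) * e1
  have : IsLeftRegular (X : R[X]) := by
    intro a b hab
    exact (Monic.isRegular monic_X).left hab
  exact this e7

theorem gv_reflect (z : R) : reflect 4 (gv z) = X * (1 - 4 * X + C (4 * z) * X ^ 2) := by
  have e : gv z = C 1 * X ^ 3 + (C (-4) * X ^ 2 + C (4 * z) * X ^ 1) := by
    unfold gv; simp only [C_1, map_neg, map_ofNat]; ring
  rw [e, reflect_add, reflect_add, reflect_C_mul_X_pow, reflect_C_mul_X_pow, reflect_C_mul_X_pow,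
    revAt_le (by norm_num), revAt_le (by norm_num), revAt_le (by norm_num)]
  simp only [C_1, map_neg, map_ofNat]
  ring

end ring

variable {O K k : Type*} [CommRing O] [IsDomain O] [Field K] [Algebra O K] [Field k]
  (S : DV O K k)

/-- passage to the `V`-model -/
theorem to_v {p : ℕ} [hp : Fact p.Prime] [CharP k p] (hp3 : p ≠ 3) {z z' w : O}
    {n d M : O[X]} (hn : n.map S.red = X ^ p) (hd : d.map S.red = 1)
    (hnd : n.natDegree ≤ p) (hdd : d.natDegree < p) (hwr : wr n d = C S.q * M)
    (ode : cub (qa z) (qb z) * M ^ 2 = C w ^ 2 * tgt (qa z') (qb z') n d) :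
    ∃ N D M' : O[X], N.map S.red = X ^ p ∧ D.map S.red = 1 ∧ N.natDegree ≤ p ∧ D.natDegree < p ∧
      wr N D = C S.q * M' ∧ gv z * M' ^ 2 = C w ^ 2 * tv z' N D := by
  have hp0 := hp.out.pos
  have h3k : (3 : k) ≠ 0 := by
    intro h3
    have : ((3 : ℕ) : k) = 0 := by exact_mod_cast h3
    rw [CharP.cast_eq_zero_iff k p] at this
    exact hp3 ((Nat.prime_dvd_prime_iff_eq hp.out (by norm_num)).mp this)
  have h9 : S.red (9 : O) ≠ 0 := by
    rw [map_ofNat]
    have : (9 : k) = 3 * 3 := by norm_num
    rw [this]; exact mul_ne_zero h3k h3k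
  obtain ⟨e, he⟩ := (S.unit_of_red h9).exists_left_inv
  have he9 : C e * 9 = (1 : O[X]) := by
    have : (9 : O[X]) = C 9 := (map_ofNat C 9).symm
    rw [this, ← C_mul, he, C_1]
  have hek : C (S.red e) * 9 = (1 : k[X]) := by
    have := congrArg (Polynomial.map S.red) he9
    simpa using this
  have hdl : (9 * X - 12 : O[X]).natDegree ≤ 1 := by compute_degree
  set n1 := n.comp (9 * X - 12) with hn1
  set D := d.comp (9 * X - 12) with hD
  have hn1d : n1.natDegree ≤ p := by
    rw [hn1]
    refine natDegree_comp_le.trans ?_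
    calc n.natDegree * (9 * X - 12 : O[X]).natDegree ≤ p * 1 := Nat.mul_le_mul hnd hdl
      _ = p := mul_one p
  have hDd : D.natDegree < p := by
    rw [hD]
    refine lt_of_le_of_lt natDegree_comp_le ?_
    calc d.natDegree * (9 * X - 12 : O[X]).natDegree ≤ d.natDegree * 1 := Nat.mul_le_mul le_rfl hdl
      _ < p := by rw [mul_one]; exact hdd
  have fr : ∀ m : ℕ, (m : k[X]) ^ p = m := by
    intro m
    have h := frobenius_def (R := k[X]) p m
    rw [← h, map_natCast]
  have hDr : D.map S.red = 1 := by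
    rw [hD, Polynomial.map_comp, hd]; simp
  have hn1r : n1.map S.red = 9 * X ^ p - 12 := by
    have h9p : (9 : k[X]) ^ p = 9 := by exact_mod_cast fr 9
    have h12p : (12 : k[X]) ^ p = 12 := by exact_mod_cast fr 12
    rw [hn1, Polynomial.map_comp, hn, pow_comp, X_comp, Polynomial.map_sub, Polynomial.map_mul,
      map_X, Polynomial.map_ofNat, Polynomial.map_ofNat, sub_pow_char, mul_pow, h9p, h12p]
  refine ⟨C e * (n1 + 12 * D), D, M.comp (9 * X - 12), ?_, hDr, ?_, hDd, ?_, ?_⟩
  · rw [Polynomial.map_mul, Polynomial.map_add, Polynomial.map_mul, map_C, hn1r, hDr, Polynomial.map_ofNat]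
    linear_combination X ^ p * hek
  · refine (natDegree_C_mul_le _ _).trans ?_
    refine (natDegree_add_le _ _).trans (max_le hn1d ?_)
    have : (12 : O[X]) = C 12 := (map_ofNat C 12).symm
    rw [this]
    exact (natDegree_C_mul_le _ _).trans hDd.le
  · have e1 : wr (C e * (n1 + 12 * D)) D = C e * wr n1 D := by
      simp only [wr, derivative_mul, derivative_C, derivative_add, derivative_ofNat]; ring
    rw [e1, hn1, hD, wr_compv, hwr, mul_comp, C_comp]
    linear_combination (C S.q * M.comp (9 * X - 12)) * he9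
  · have hcomp := congrArg (fun P => P.comp (9 * X - 12)) ode
    simp only [mul_comp, pow_comp, C_comp, cub_compv] at hcomp
    have ht : (tgt (qa z') (qb z') n d).comp (9 * X - 12) =
        tgt (qa z') (qb z') (9 * (C e * (n1 + 12 * D)) - 12 * D) D := by
      have : 9 * (C e * (n1 + 12 * D)) - 12 * D = n1 := by
        linear_combination (n1 + 12 * D) * he9
      rw [this, hn1, hD]
      simp only [tgt, mul_comp, add_comp, pow_comp, C_comp]
    rw [ht, tgt_tv] at hcomp
    have h729 : (C e ^ 3 * 729 : O[X]) = 1 := by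
      linear_combination (C e ^ 2 * 81 + C e * 9 + 1) * he9
    linear_combination C e ^ 3 * hcomp - (gv z * M.comp (9 * X - 12) ^ 2 -
      C w ^ 2 * tv z' (C e * (n1 + 12 * D)) D) * h729

/-- the point of order two is preserved -/
theorem v_origin {p : ℕ} [hp : Fact p.Prime] [CharP k p] (hp2 : p ≠ 2) {z z' w : O} (hz' : S.red z' ≠ 0)
    (hw : S.red w ≠ 0) {N D M : O[X]} (hN : N.map S.red = X ^ p) (hD : D.map S.red = 1)
    (ode : gv z * M ^ 2 = C w ^ 2 * tv z' N D) : N.coeff 0 = 0 := by
  have h0 := congrArg (fun P => P.coeff 0) ode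
  have hp0 := hp.out.ne_zero
  have h2k : (2 : k) ≠ 0 := by
    intro h2
    have : ((2 : ℕ) : k) = 0 := by exact_mod_cast h2
    rw [CharP.cast_eq_zero_iff k p] at this
    exact hp2 ((Nat.prime_dvd_prime_iff_eq hp.out (by norm_num)).mp this)
  have hg : (gv z).coeff 0 = 0 := by
    unfold gv
    rw [coeff_zero_eq_eval_zero]; simp
  have ht : (tv z' N D).coeff 0 = N.coeff 0 * (D.coeff 0 * (N.coeff 0 ^ 2 - 4 * N.coeff 0 * D.coeff 0 +
      4 * z' * D.coeff 0 ^ 2)) := by
    unfold tv
    simp only [coeff_zero_eq_eval_zero, eval_mul, eval_add, eval_sub, eval_pow, eval_C, eval_ofNat]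
    ring
  simp only [mul_coeff_zero, hg, zero_mul, ht] at h0
  have hN0 : S.red (N.coeff 0) = 0 := by
    rw [← coeff_map, hN, coeff_X_pow, if_neg (Ne.symm hp0)]
  have hD0 : S.red (D.coeff 0) = 1 := by
    rw [← coeff_map, hD, coeff_one_zero]
  have hu : S.red ((C w ^ 2 : O[X]).coeff 0 * (D.coeff 0 * (N.coeff 0 ^ 2 - 4 * N.coeff 0 * D.coeff 0 +
      4 * z' * D.coeff 0 ^ 2))) ≠ 0 := by
    have e : (C w ^ 2 : O[X]).coeff 0 = w ^ 2 := by rw [← C_pow, coeff_C_zero]
    rw [e]
    simp only [map_mul, map_add, map_sub, map_pow, hN0, hD0, map_ofNat]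
    have : S.red w ^ 2 * (1 * (0 ^ 2 - 4 * 0 * 1 + 4 * S.red z' * 1 ^ 2)) = (2 * S.red w) ^ 2 * S.red z' := by ring
    rw [this]
    exact mul_ne_zero (pow_ne_zero 2 (mul_ne_zero h2k hw)) hz'
  have h1 : N.coeff 0 * ((C w ^ 2 : O[X]).coeff 0 * (D.coeff 0 * (N.coeff 0 ^ 2 - 4 * N.coeff 0 * D.coeff 0 +
      4 * z' * D.coeff 0 ^ 2))) = 0 := by linear_combination -h0
  rcases mul_eq_zero.mp h1 with h | h
  · exact h
  · exfalso; apply hu; rw [h, map_zero]

/-- passage to the parameter `U = 1/V` -/
theorem to_uv {p : ℕ} [hp : Fact p.Prime] [CharP k p] (hp2 : p ≠ 2) {z z' w : O} (hz' : S.red z' ≠ 0)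
    (hw : S.red w ≠ 0) {N D M : O[X]} (hN : N.map S.red = X ^ p) (hD : D.map S.red = 1)
    (hNd : N.natDegree ≤ p) (hDd : D.natDegree < p) (hwr : wr N D = C S.q * M)
    (ode : gv z * M ^ 2 = C w ^ 2 * tv z' N D) :
    ∃ N' D' M' : O[X], N'.map S.red = X ^ p ∧ D'.map S.red = 1 ∧ N'.natDegree ≤ p ∧ D'.natDegree < p ∧
      N'.coeff 0 = 0 ∧ wr N' D' = C S.q * M' ∧
      X * (1 - 4 * X + C (4 * z) * X ^ 2) * M' ^ 2 =
        C w ^ 2 * (N' * D' * (D' ^ 2 - 4 * D' * N' + C (4 * z') * N' ^ 2)) := by
  have hN0 := v_origin S hp2 hz' hw hN hD ode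
  have hp0 := hp.out.pos
  have hp2' := hp.out.two_le
  have hqC : (C S.q : O[X]) ≠ 0 := C_ne_zero.mpr S.q_ne
  have hMd : M.natDegree ≤ 2 * p - 2 := by
    rw [← natDegree_C_mul S.q_ne, ← hwr, wr]
    refine (natDegree_sub_le _ _).trans (max_le ?_ ?_)
    · refine natDegree_mul_le.trans ?_
      have := natDegree_derivative_le N
      omega
    · refine natDegree_mul_le.trans ?_
      have := natDegree_derivative_le D
      omega
  have hm : ∀ (m : ℕ) (P : O[X]), (reflect m P).map S.red = reflect m (P.map S.red) := by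
    intro m P
    ext i; simp [coeff_reflect]
  have hdeg : ∀ P : O[X], P.natDegree ≤ p → (reflect p P).natDegree ≤ p := by
    intro P hP
    rw [natDegree_le_iff_coeff_eq_zero]
    intro i hi
    rw [coeff_reflect, revAt_eq_self_of_lt hi, coeff_eq_zero_of_natDegree_lt (lt_of_le_of_lt hP hi)]
  have hX : reflect p (X ^ p : k[X]) = 1 := by
    have := reflect_C_mul_X_pow p p (c := (1 : k))
    rw [C_1, one_mul, one_mul, revAt_le le_rfl, Nat.sub_self, pow_zero] at this
    exact this
  have h1 : reflect p (1 : k[X]) = X ^ p := by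
    have := reflect_C_mul_X_pow p 0 (c := (1 : k))
    rw [C_1, one_mul, one_mul, pow_zero, revAt_le (Nat.zero_le _), Nat.sub_zero] at this
    exact this
  refine ⟨reflect p D, reflect p N, reflect (2 * p - 2) M, ?_, ?_, hdeg D hDd.le, ?_, ?_, ?_, ?_⟩
  · rw [hm, hD, h1]
  · rw [hm, hN, hX]
  · have h := hdeg N hNd
    have hc : (reflect p N).coeff p = 0 := by
      rw [coeff_reflect, revAt_le le_rfl, Nat.sub_self, hN0]
    rcases h.lt_or_eq with h2 | h2
    · exact h2
    · have h3 : (reflect p N).leadingCoeff = 0 := by rw [leadingCoeff, h2, hc]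
      rw [leadingCoeff_eq_zero] at h3
      rw [h3, natDegree_zero]; exact hp0
  · rw [coeff_reflect, revAt_le (Nat.zero_le _), Nat.sub_zero]
    exact coeff_eq_zero_of_natDegree_lt hDd
  · exact wr_reflect hp0 hNd hDd.le hMd hwr
  · have hgd : (gv z).natDegree ≤ 4 := by
      unfold gv; compute_degree!
    have hM2 : (M ^ 2).natDegree ≤ (2 * p - 2) + (2 * p - 2) := by
      rw [pow_two]
      exact natDegree_mul_le.trans (by omega)
    have l1 := reflect_mul (gv z) (M ^ 2) hgd hM2
    have l2 := reflect_mul M M hMd hMd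
    rw [← pow_two] at l2
    rw [l2, gv_reflect] at l1
    -- the right side
    have hDp : D.natDegree ≤ p := hDd.le
    have r1 := reflect_mul N N hNd hNd
    have d1 : (N * N).natDegree ≤ p + p := natDegree_mul_le.trans (by omega)
    have r2 := reflect_mul (N * N) N d1 hNd
    have r3 := reflect_mul (N * N) D d1 hDp
    have r4 := reflect_mul N D hNd hDp
    have d2 : (N * D).natDegree ≤ p + p := natDegree_mul_le.trans (by omega)
    have r5 := reflect_mul (N * D) D d2 hDp
    have d3 : (N * N * N - C 4 * (N * N * D) + C (4 * z') * (N * D * D)).natDegree ≤ p + p + p := by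
      have a1 : (N * N * N).natDegree ≤ p + p + p := natDegree_mul_le.trans (by omega)
      have a2 : (N * N * D).natDegree ≤ p + p + p := natDegree_mul_le.trans (by omega)
      have a3 : (N * D * D).natDegree ≤ p + p + p := natDegree_mul_le.trans (by omega)
      refine (natDegree_add_le _ _).trans (max_le ((natDegree_sub_le _ _).trans (max_le a1 ?_)) ?_)
      · exact (natDegree_C_mul_le _ _).trans a2
      · exact (natDegree_C_mul_le _ _).trans a3
    have r6 := reflect_mul D _ hDp d3
    have r7 : reflect (p + p + p) (N * N * N - C 4 * (N * N * D) + C (4 * z') * (N * D * D)) =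
        reflect (p + p + p) (N * N * N) - C 4 * reflect (p + p + p) (N * N * D) +
          C (4 * z') * reflect (p + p + p) (N * D * D) := by
      rw [← reflect_C_mul, ← reflect_C_mul]
      ext i; simp [coeff_reflect]
    rw [r7, r2, r3, r5, r1, r4] at r6
    have hw2 : (C w ^ 2 : O[X]) = C (w ^ 2) := by rw [C_pow]
    have e1 : gv z * M ^ 2 = C (w ^ 2) * (D * (N * N * N - C 4 * (N * N * D) + C (4 * z') * (N * D * D))) := by
      rw [ode, hw2]
      unfold tv
      have : (C 4 : O[X]) = 4 := map_ofNat C 4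
      rw [this]; ring
    rw [e1, reflect_C_mul, show 4 + (2 * p - 2 + (2 * p - 2)) = p + (p + p + p) by omega, r6] at l1
    rw [hw2]
    have : (C 4 : O[X]) = 4 := map_ofNat C 4
    rw [this] at l1
    linear_combination -l1

end Pool.Agent.H546
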