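import Pool.Agent.H546.APStm

set_option autoImplicit false

/-!
# Apery polynomials at CM points: the relation between the values
-/

namespace Pool.Agent.H546.AP

open Polynomial Finset
open Pool.Agent.Q267.CDE (R p_sq)

/-- the value of `b` -/
def bv {A : Type*} [CommRing A] (e : ℕ) (z : A) : A :=
  ∑ m ∈ range (e / 2 + 1), ((e.choose (2 * m) * (2 * m).choose m * 2 ^ (e - 2 * m) : ℕ) : A) * (1 - z) ^ m

/-- the value of `T` -/
def TT {A : Type*} [CommRing A] (p : ℕ) (z : A) : A := 3 * lg (p / 4) z + lg (3 * p / 4) z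

theorem bv_map {A B : Type*} [CommRing A] [CommRing B] (f : A →+* B) (e : ℕ) (z : A) : f (bv e z) = bv e (f z) := by
  simp only [bv, map_sum, map_mul, map_pow, map_sub, map_one, map_natCast]

theorem TT_map {A B : Type*} [CommRing A] [CommRing B] (f : A →+* B) (p : ℕ) (z : A) : f (TT p z) = TT p (f z) := by
  simp only [TT, map_add, map_mul, map_ofNat, lg_cast]

theorem bq_bv {A : Type*} [CommRing A] (e : ℕ) (z : A) : (bq A e).eval z = bv e z := by
  simp [bq, bv, eval_finsetSum]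

section ev

variable {A B : Type*} [CommRing A] [CommRing B]

theorem ev_bq (f : A →+* B) (e : ℕ) (z : B) : (bq A e).eval₂ f z = bv e z := by
  simp only [bq, bv, eval₂_finsetSum, eval₂_mul, eval₂_natCast, eval₂_pow, eval₂_sub, eval₂_one, eval₂_X, map_natCast]

theorem ev_comp (f : A →+* B) (q : A[X]) (z : B) : (q.comp (1 - X)).eval₂ f z = q.eval₂ f (1 - z) := by
  rw [eval₂_comp]; simp

theorem ev_tq {p : ℕ} (f : R p →+* B) (z : B) : (tq p).eval₂ f z = TT p z := by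
  have h := TT_map (eval₂RingHom f z) p (X : (R p)[X])
  rw [coe_eval₂RingHom, eval₂_X] at h
  exact h

end ev

section rel

variable {A : Type*} [CommRing A] {p : ℕ} [hp : Fact p.Prime]

theorem Jval (J : S_J) (b : S_bode) (t : S_tode) (bT : S_bT) (hp3 : 3 < p) (th : R p →+* A) (ζ : A) :
    TT p ζ * (4 - (4 * ζ) ^ p - (4 * (1 - ζ)) ^ p) +
    4 * ((4 * ζ) ^ p * (4 * ((-1) ^ ((p - 1) / 2) * bv ((p - 1) / 2) ζ) - TT p ζ) +
      (4 * (1 - ζ)) ^ p * (4 * ((-1) ^ (p / 4) * ((-1) ^ ((p - 1) / 2) * bv ((p - 1) / 2) (1 - ζ))) - TT p ζ)) = 0 := by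
  have h := congrArg (eval₂RingHom th ζ) (J b t bT p hp3)
  simp only [map_add, map_mul, map_sub, map_pow, map_neg, map_one, map_zero, map_ofNat] at h
  simp only [coe_eval₂RingHom, ev_tq, ev_bq, ev_comp, eval₂_X] at h
  exact h

theorem Ival (I : S_I) (b : S_bode) (hp3 : 3 < p) (th : R p →+* A) (ζ : A) (h : ℕ → R p)
    (h0 : h 0 = 2 ^ ((p - 1) / 2) * ((((p - 1) / 2).centralBinom : ℕ) : R p))
    (hrec : ∀ j : ℕ, j < (p - 1) / 2 → (4 * ((j : R p) + 1) - p) ^ 3 * h (j + 1) =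
    (4 * (j : R p) + 1 - p) * (4 * (j : R p) + 2 - p) * (4 * (j : R p) + 3 - p) * h j) :
    bv ((p - 1) / 2) ζ * bv ((p - 1) / 2) (1 - ζ) =
      ∑ j ∈ range ((p - 1) / 2 + 1), th (h j) * (4 * ζ * (1 - ζ)) ^ j := by
  have h := congrArg (eval₂RingHom th ζ) (I b p hp3 h h0 hrec)
  rw [map_mul, map_sum] at h
  simp only [map_mul, map_sub, map_pow, map_one, map_ofNat] at h
  simp only [coe_eval₂RingHom, ev_bq, ev_comp, eval₂_X, eval₂_C] at h
  exact h

theorem bTval (bT : S_bT) (hp2 : p ≠ 2) (th : R p →+* A) (ζ : A) :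
    (p : A) * (4 * bv ((p - 1) / 2) ζ) = (p : A) * ((-1) ^ ((p - 1) / 2) * TT p ζ) := by
  have h := congrArg (eval₂RingHom th ζ) (bT p hp2)
  simp only [map_mul, map_pow, map_neg, map_one, map_natCast, map_ofNat] at h
  simp only [coe_eval₂RingHom, ev_tq, ev_bq] at h
  exact h

theorem symval (t : S_tode) (hp2 : p ≠ 2) (th : R p →+* A) (ζ : A) :
    TT p (1 - ζ) = (-1) ^ (p / 4) * TT p ζ := by
  have h := congrArg (eval₂RingHom th ζ) (t p hp2).2
  simp only [map_mul, map_pow, map_neg, map_one] at h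
  simp only [coe_eval₂RingHom, ev_tq, ev_comp] at h
  exact h

/-- the algebra of the relation -/
theorem rel_alg {ζ ζ' b b1 T P Q s χ Y : A} (hs : s ^ 2 = 1) (hχ : χ ^ 2 = 1)
    (hR : 64 * b * ζ' = s * T * (12 * ζ' + P))
    (J : T * (4 - P - Q) + 4 * (P * (4 * (s * b) - T) + Q * (4 * (χ * (s * b1)) - T)) = 0)
    (ha : (P - 4 * ζ') ^ 2 = 0) (hc : (Q - 4 * (1 - ζ')) ^ 2 = 0) (hac : (P - 4 * ζ') * (Q - 4 * (1 - ζ')) = 0)
    (u1 : IsUnit ζ') (u2 : IsUnit (1 - ζ')) (u : IsUnit (2 : A)) (n : ℕ)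
    (hY : Y = 16 * (ζ' * (1 - ζ'))) (hPQ : P * Q = Y * Y ^ n) :
    64 * χ * (b * b1) = T ^ 2 * (3 + Y ^ n) := by
  set a := P - 4 * ζ' with hadef
  set c := Q - 4 * (1 - ζ') with hcdef
  set v := 4 * (χ * (s * b1)) - T with hv
  have hP : P = 4 * ζ' + a := by rw [hadef]; ring
  have hQ : Q = 4 * (1 - ζ') + c := by rw [hcdef]; ring
  have e1 : 16 * ζ' * (4 * (s * b) - T) = T * a := by
    linear_combination s * hR + T * (12 * ζ' + P) * hs + T * hP
  have u4 : IsUnit (4 * ζ' : A) := by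
    have : (4 : A) = 2 * 2 := by norm_num
    rw [this]; exact (u.mul u).mul u1
  have e2 : 4 * Q * v = T * c := by
    apply u4.mul_left_cancel
    linear_combination 4 * ζ' * J - P * e1 - T * a * hP - T * ha - 4 * ζ' * T * hP - 4 * ζ' * T * hQ
  have u16 : IsUnit (16 * (1 - ζ') : A) := by
    have : (16 : A) = 2 ^ 4 := by norm_num
    rw [this]; exact (u.pow 4).mul u2
  have e3 : v * c = 0 := by
    apply u16.mul_left_cancel
    linear_combination c * e2 - 4 * v * c * hQ - 4 * v * hc + T * hc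
  have e4 : 16 * (1 - ζ') * v = T * c := by
    linear_combination e2 - 4 * v * hQ - 4 * e3
  have uY : IsUnit (4 * Y : A) := by
    have : (4 * Y : A) = (2 ^ 6) * (ζ' * (1 - ζ')) := by rw [hY]; norm_num; ring
    rw [this]; exact (u.pow 6).mul (u1.mul u2)
  apply uY.mul_left_cancel
  have e5 : 4 * (ζ' * c + (1 - ζ') * a) = Y * Y ^ n - Y := by
    linear_combination hPQ - hac - Q * hP - (4 * ζ' + a) * hQ + hY
  -- (T + u)(T + v)
  have e6 : (16 * ζ' * (4 * (s * b))) * (16 * (1 - ζ') * (4 * (χ * (s * b1)))) =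
      T ^ 2 * (16 * ζ' + a) * (16 * (1 - ζ') + c) := by
    have f1 : 16 * ζ' * (4 * (s * b)) = T * (16 * ζ' + a) := by linear_combination e1
    have f2 : 16 * (1 - ζ') * (4 * (χ * (s * b1))) = T * (16 * (1 - ζ') + c) := by
      rw [hv] at e4; linear_combination e4
    rw [f1, f2]; ring
  linear_combination (4 * 64 * χ * (b * b1)) * hY + e6 - 4096 * ζ' * (1 - ζ') * χ * b * b1 * hs + T ^ 2 * hac +
    4 * T ^ 2 * e5 - 12 * T ^ 2 * hY - 4 * T ^ 2 * hY

end rel

end Pool.Agent.H546.AP
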