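import Pool.Agent.H546.APA

set_option autoImplicit false

/-!
# Apery polynomials at CM points: the relation in the two cases
-/

namespace Pool.Agent.H546.AP

open Finset
open Pool.Agent.Q267.CDE (R p_sq)

section sq

open PowerSeries

/-- a square root series -/
theorem sqrt_series {A : Type*} [CommRing A] (z : A) : ∃ c : A⟦X⟧,
    c ^ 2 * (1 - 4 * X ^ 2 + C (4 * z) * X ^ 4) = 1 ∧ constantCoeff c = 1 := by
  obtain ⟨B, hB⟩ := exists_cat (X ^ 2 - C z * X ^ 4 : A⟦X⟧) (by simp)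
  set t : A⟦X⟧ := X ^ 2 - C z * X ^ 4 with ht
  have h1 : (1 - 2 * t * B) ^ 2 = 1 - 4 * t := by linear_combination (-4 * t) * hB
  have hc : constantCoeff (1 - 2 * t * B) = 1 := by simp [ht]
  have hu : IsUnit (1 - 2 * t * B) := by
    rw [PowerSeries.isUnit_iff_constantCoeff, hc]; exact isUnit_one
  obtain ⟨c, hc1⟩ := hu.exists_left_inv
  refine ⟨c, ?_, ?_⟩
  · have e : (1 - 4 * X ^ 2 + C (4 * z) * X ^ 4 : A⟦X⟧) = 1 - 4 * t := by
      rw [ht, map_mul]; rw [map_ofNat]; ring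
    rw [e, ← h1]
    linear_combination (c * (1 - 2 * t * B) + 1) * hc1
  · have := congrArg constantCoeff hc1
    rw [map_mul, hc, mul_one, map_one] at this
    exact this

end sq

variable {O K k : Type} [CommRing O] [IsDomain O] [Field K] [Algebra O K] [Field k]
  (S : DV O K k) {p : ℕ} [hp : Fact p.Prime] [CharP k p]

/-- the relation at a point -/
def RelO {O : Type*} [CommRing O] (p : ℕ) (z : O) : Prop :=
  (p : O) ^ 2 ∣ 64 * (-1) ^ (p / 4) * (bv ((p - 1) / 2) z * bv ((p - 1) / 2) (1 - z)) -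
    TT p z ^ 2 * (3 + (16 * (z * (1 - z))) ^ (p - 1))

include S in
theorem rel_ord (cs : S_cser) (J : S_J) (b : S_bode) (t : S_tode) (bT : S_bT) (hp5 : 5 ≤ p) (hq : S.q = (p : O))
    {z z' w : O} (hz : S.red z ≠ 0) (hz1 : S.red (1 - z) ≠ 0) (hz' : S.red z' = S.red z ^ p)
    (hzz : z' = z ∨ z' = 1 - z) (hw : S.red w ≠ 0)
    {N D M : Polynomial O} (hN : N.map S.red = Polynomial.X ^ p) (hD : D.map S.red = 1)
    (hNd : N.natDegree ≤ p) (hDd : D.natDegree < p) (hwr : wr N D = Polynomial.C S.q * M)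
    (ode : gv z * M ^ 2 = Polynomial.C w ^ 2 * tv z' N D) : RelO p z := by
  have hp2 : p ≠ 2 := by omega
  have := charQ S (p := p) hq
  obtain ⟨c, hc2, hc0⟩ := sqrt_series z
  obtain ⟨ε, hε, -, k1, k2⟩ := key42v S hp2 hq hz hz' hw hN hD hNd hDd hwr ode hc2 hc0
  set e := (p - 1) / 2 with he
  have hpe : p = 2 * e + 1 := by
    have := hp.out.eq_two_or_odd
    omega
  have h2O : (2 : O) ≠ 0 := by
    have r2 := S.two_ne (p := p) hp2
    intro h0; rw [h0, map_zero] at r2; exact r2 rfl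
  have hb : PowerSeries.coeff (p - 1) c = bv e z := by
    rw [show p - 1 = 2 * e by omega, cs O h2O z c hc2 hc0 e, bq_bv]
  rw [hb] at k2
  have hT : (p : O) ^ 2 ∣ ε * w * ((-1) ^ e * TT p z) - 4 := by
    have h4 : p % 4 = 1 ∨ p % 4 = 3 := by omega
    rcases h4 with h | h
    · rw [cs4_coeff1 _ p h, cs4_coeff3 _ (3 * p) (by omega)] at k1
      have e1 : (-1 : O) ^ e = 1 := by
        rw [show e = 2 * (p / 4) by omega, pow_mul]; norm_num
      rw [e1, TT, one_mul]
      rw [sub_neg_eq_add] at k1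
      exact k1
    · rw [cs4_coeff3 _ p h, cs4_coeff1 _ (3 * p) (by omega)] at k1
      have e1 : (-1 : O) ^ e = -1 := by
        rw [show e = 2 * (p / 4) + 1 by omega, pow_succ, pow_mul]; norm_num
      rw [e1, TT]
      have : ε * w * (-1 * (3 * lg (p / 4) z + lg (3 * p / 4) z)) - 4 =
          ε * w * (3 * -lg (p / 4) z - lg (3 * p / 4) z) - 4 := by ring
      rw [this]; exact k1
  set th : R p →+* QO O p := ZMod.castHom (dvd_refl _) (QO O p) with hth
  set mk := Ideal.Quotient.mk (Ideal.span {(p : O) ^ 2}) with hmk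
  have mkz : ∀ x : O, (p : O) ^ 2 ∣ x ↔ mk x = 0 := by
    intro x
    rw [Ideal.Quotient.eq_zero_iff_mem, Ideal.mem_span_singleton]
  have q1 := (mkz _).mp k2
  have q2 := (mkz _).mp hT
  unfold RelO
  rw [← he, mkz]
  simp only [map_mul, map_sub, map_add, map_pow, map_neg, map_one, map_ofNat, bv_map, TT_map] at q1 q2 ⊢
  set ζ := mk z with hζ
  set ζ' := mk z' with hζ'
  have frob4 : (4 : k) ^ p = 4 := by
    have h := frobenius_def (R := k) p 4
    rw [← h, map_ofNat]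
  have frob : ∀ x : k, x ^ p = frobenius k p x := fun x => rfl
  -- `P - 4ζ'` and `Q - 4(1-ζ')`
  obtain ⟨f, hf⟩ : ∃ f, (4 * z) ^ p - 4 * z' = (p : O) * f := by
    have : S.red ((4 * z) ^ p - 4 * z') = 0 := by
      rw [map_sub, map_pow, map_mul, map_mul, map_ofNat, hz', mul_pow, frob4, sub_self]
    obtain ⟨f, hf⟩ := (S.red_iff _).mp this
    exact ⟨f, by rw [hf, hq]⟩
  obtain ⟨g, hg⟩ : ∃ g, (4 * (1 - z)) ^ p - 4 * (1 - z') = (p : O) * g := by
    have : S.red ((4 * (1 - z)) ^ p - 4 * (1 - z')) = 0 := by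
      rw [map_sub, map_pow, map_mul, map_mul, map_ofNat, map_sub, map_sub, hz', map_one, mul_pow, frob4, frob, frob, map_sub, map_one,
        sub_self]
    obtain ⟨f, hf⟩ := (S.red_iff _).mp this
    exact ⟨f, by rw [hf, hq]⟩
  have hpp : (mk (p : O)) ^ 2 = 0 := by
    rw [← map_pow, ← mkz]
  have hf' := congrArg mk hf
  have hg' := congrArg mk hg
  simp only [map_mul, map_sub, map_pow, map_one, map_ofNat] at hf' hg'
  rw [← hζ, ← hζ'] at hf' hg'
  have J' := Jval J b t bT (by omega) th ζ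
  rw [← he] at J'
  have hunit : ∀ x : O, S.red x ≠ 0 → IsUnit (mk x) := fun x hx => (S.unit_of_red hx).map mk
  have hz'0 : S.red z' ≠ 0 := by rw [hz']; exact pow_ne_zero _ hz
  have hz1' : S.red (1 - z') ≠ 0 := by
    rw [map_sub, map_one, hz', frob, ← map_one (frobenius k p), ← map_sub, ← frob]
    rw [map_sub, map_one] at hz1
    exact pow_ne_zero _ hz1
  have hzz' : ζ' * (1 - ζ') = ζ * (1 - ζ) := by
    rw [hζ, hζ']
    rcases hzz with rfl | rfl
    · rfl
    · rw [map_sub, map_one]; ring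
  have u1 := hunit _ hz'0
  have u2 := hunit _ hz1'
  have u := hunit _ (S.two_ne (p := p) hp2)
  rw [map_sub, map_one, ← hζ'] at u2
  rw [← hζ'] at u1
  rw [map_ofNat] at u
  have hs : ((-1 : QO O p) ^ e) ^ 2 = 1 := by rw [← pow_mul, mul_comm, pow_mul]; norm_num
  have hχ : ((-1 : QO O p) ^ (p / 4)) ^ 2 = 1 := by rw [← pow_mul, mul_comm, pow_mul]; norm_num
  have hfin := rel_alg (ζ := ζ) (ζ' := ζ') (b := bv e ζ) (b1 := bv e (1 - ζ)) (T := TT p ζ) (P := (4 * ζ) ^ p)
    (Q := (4 * (1 - ζ)) ^ p) (s := (-1) ^ e) (χ := (-1) ^ (p / 4)) (Y := 16 * (ζ * (1 - ζ))) hs hχ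
    ?_ J' ?_ ?_ ?_ u1 u2 u (p - 1) (by rw [hzz']) ?_
  · linear_combination hfin
  · linear_combination ((-1) ^ e * TT p ζ) * q1 - 16 * bv e ζ * ζ' * q2
  · rw [hf']; linear_combination mk f ^ 2 * hpp
  · rw [hg']; linear_combination mk g ^ 2 * hpp
  · rw [hf', hg']; linear_combination mk f * mk g * hpp
  · rw [← mul_pow, ← pow_succ', show p - 1 + 1 = p by omega]
    congr 1; ring

include S in
theorem rel_ss (t : S_tode) (bT : S_bT) (hp5 : 5 ≤ p) (hq : S.q = (p : O)) {z : O}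
    (hss : S.red (lg (p / 4) z) = 0) : RelO p z := by
  have hp2 : p ≠ 2 := by omega
  have := charQ S (p := p) hq
  set th : R p →+* QO O p := ZMod.castHom (dvd_refl _) (QO O p) with hth
  set mk := Ideal.Quotient.mk (Ideal.span {(p : O) ^ 2}) with hmk
  have mkz : ∀ x : O, (p : O) ^ 2 ∣ x ↔ mk x = 0 := by
    intro x
    rw [Ideal.Quotient.eq_zero_iff_mem, Ideal.mem_span_singleton]
  have hpp : (mk (p : O)) ^ 2 = 0 := by
    rw [← map_pow, ← mkz]
  have hpm : ((p : ℕ) : QO O p) = mk (p : O) := (map_natCast mk p).symm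
  have hp0 : (p : O) ≠ 0 := by rw [← hq]; exact S.q_ne
  have hT : S.red (TT p z) = 0 := by
    rw [lg_cast] at hss
    rw [TT_map, TT, lg_34 hp2, hss]; ring
  obtain ⟨y, hy⟩ := (S.red_iff _).mp hT
  rw [hq] at hy
  have h4k : S.red (4 : O) ≠ 0 := by
    have h2 := S.two_ne (p := p) hp2
    have : (4 : O) = 2 * 2 := by norm_num
    rw [this, map_mul]; exact mul_ne_zero h2 h2
  have hb : ∀ x : O, (mk (p : O)) * TT p (mk x) = 0 → ∃ c, bv ((p - 1) / 2) x = p * c := by
    intro x hx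
    have h1 := bTval bT hp2 th (mk x)
    rw [hpm] at h1
    have h2 : mk ((p : O) * (4 * bv ((p - 1) / 2) x)) = 0 := by
      rw [map_mul, map_mul, map_ofNat, bv_map, h1]
      linear_combination (-1) ^ ((p - 1) / 2) * hx
    rw [← mkz, pow_two] at h2
    have h3 := (mul_dvd_mul_iff_left hp0).mp h2
    have h4 : S.red (4 * bv ((p - 1) / 2) x) = 0 := by
      rw [S.red_iff, hq]; exact h3
    rw [map_mul] at h4
    have h5 := (mul_eq_zero.mp h4).resolve_left h4k
    obtain ⟨c, hc⟩ := (S.red_iff _).mp h5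
    exact ⟨c, by rw [hc, hq]⟩
  have hTz : mk (p : O) * TT p (mk z) = 0 := by
    rw [← TT_map, hy, map_mul]; linear_combination mk y * hpp
  obtain ⟨c1, h1⟩ := hb z hTz
  obtain ⟨c2, h2⟩ := hb (1 - z) (by
    rw [map_sub, map_one, symval t hp2 th]; linear_combination (-1) ^ (p / 4) * hTz)
  unfold RelO
  rw [h1, h2, hy]
  exact ⟨64 * (-1) ^ (p / 4) * (c1 * c2) - y ^ 2 * (3 + (16 * (z * (1 - z))) ^ (p - 1)), by ring⟩

/-- the sum -/
noncomputable def FF (p : ℕ) (wi : R p) : R p :=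
  ∑ k ∈ range p, (k.centralBinom : R p) * ((u4 k : ℕ) : R p) * wi ^ k

/-- the recurrence of the sequence `h` -/
def Hs (p : ℕ) (h : ℕ → R p) : Prop :=
  h 0 = 2 ^ ((p - 1) / 2) * ((((p - 1) / 2).centralBinom : ℕ) : R p) ∧
  (∀ j : ℕ, j < (p - 1) / 2 → (4 * ((j : R p) + 1) - p) ^ 3 * h (j + 1) =
    (4 * (j : R p) + 1 - p) * (4 * (j : R p) + 2 - p) * (4 * (j : R p) + 3 - p) * h j)

/-- the relation in the ring of residues -/
def Rel (p : ℕ) (M : ℤ) : Prop := ∀ wi : R p, (M : R p) * wi = 1 → ∀ h : ℕ → R p, Hs p h →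
  4 * (-1) ^ (p / 4) * ∑ j ∈ range ((p - 1) / 2 + 1), h j * (256 * wi) ^ j =
    FF p wi * (3 + (4 * (256 * wi)) ^ (p - 1))

include S in
theorem rel_R (I : S_I) (b : S_bode) (hp5 : 5 ≤ p) (hq : S.q = (p : O)) {z : O} (rel : RelO p z)
    {M : ℤ} (hMz : (M : O) * (z * (1 - z)) = 64) : Rel p M := by
  intro wi hwi h ⟨h0, hrec⟩
  have := charQ S (p := p) hq
  set th : R p →+* QO O p := ZMod.castHom (dvd_refl _) (QO O p) with hth
  have thinj : Function.Injective th := ZMod.castHom_injective _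
  set mk := Ideal.Quotient.mk (Ideal.span {(p : O) ^ 2}) with hmk
  have mkz : ∀ x : O, (p : O) ^ 2 ∣ x ↔ mk x = 0 := by
    intro x
    rw [Ideal.Quotient.eq_zero_iff_mem, Ideal.mem_span_singleton]
  have hmu : IsUnit ((M : R p)) := IsUnit.of_mul_eq_one _ hwi
  have hmu' : IsUnit (th (M : R p)) := hmu.map th
  have hz : mk z * (1 - mk z) = th (64 * wi) := by
    apply hmu'.mul_left_cancel
    rw [← map_mul th]
    have e : (M : R p) * (64 * wi) = 64 := by linear_combination 64 * hwi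
    rw [e, map_ofNat, map_intCast]
    have := congrArg mk hMz
    rw [map_mul, map_intCast, map_mul, map_sub, map_one, map_ofNat] at this
    exact this
  obtain ⟨h9, -⟩ := sum_sq4 (p := p) hp5 th (mk z) wi hz
  have hI := Ival I b (by omega) th (mk z) h h0 hrec
  unfold RelO at rel
  rw [mkz] at rel
  simp only [map_mul, map_sub, map_add, map_pow, map_neg, map_one, map_ofNat, bv_map, TT_map] at rel
  apply thinj
  have u16 : IsUnit (16 : QO O p) := by
    have := (unit16 (p := p) hp5).map th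
    rwa [map_ofNat] at this
  apply u16.mul_left_cancel
  have e1 : ∀ j, (4 * mk z * (1 - mk z)) ^ j = th ((256 * wi) ^ j) := by
    intro j
    rw [map_pow]; congr 1
    have : th (256 * wi) = 4 * th (64 * wi) := by
      rw [map_mul, map_mul, map_ofNat, map_ofNat]; ring
    rw [this, ← hz]; ring
  rw [hI, hz] at rel
  simp only [e1] at rel
  simp only [map_mul, map_sum, map_add, map_pow, map_neg, map_one, map_ofNat, FF, map_natCast] at rel h9 ⊢
  have h9' : (3 * lg (p / 4) (mk z) + lg (3 * p / 4) (mk z)) ^ 2 = TT p (mk z) ^ 2 := rfl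
  rw [h9'] at h9
  have e2 : (4 * (256 * th wi)) = 16 * (64 * th wi) := by ring
  rw [e2]
  linear_combination rel - (3 + (16 * (64 * th wi)) ^ (p - 1)) * h9

end Pool.Agent.H546.AP
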