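import Pool.Agent.H546.APB

set_option autoImplicit false

/-!
# Apery polynomials at CM points: from the relation to the congruence
-/

namespace Pool.Agent.H546.AP

open Finset
open Pool.Agent.Q267.CDE (R p_sq isUnit_nat red red_int red_eq_of isUnit_of_red)

variable {p : ℕ} [hp : Fact p.Prime]

theorem p_ann {a : R p} (h : (p : R p) * a = 0) : ∃ c : R p, a = p * c := by
  obtain ⟨n, hn⟩ : ∃ n : ℤ, (n : R p) = a := ZMod.intCast_surjective _
  have h1 : (((p : ℤ) * n : ℤ) : R p) = 0 := by push_cast; rw [hn]; exact h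
  rw [ZMod.intCast_zmod_eq_zero_iff_dvd] at h1
  push_cast at h1
  rw [pow_two] at h1
  have hp0 : (p : ℤ) ≠ 0 := by exact_mod_cast hp.out.ne_zero
  obtain ⟨c, hc⟩ := (mul_dvd_mul_iff_left hp0).mp h1
  exact ⟨(c : R p), by rw [← hn, hc]; push_cast; ring⟩

theorem bv_one {A : Type*} [CommRing A] (e : ℕ) : bv e (1 : A) = 2 ^ e := by
  unfold bv
  rw [sum_range_succ', sum_eq_zero]
  · simp
  · intro i _
    rw [sub_self, zero_pow (by omega), mul_zero]

theorem lg_at_zero {A : Type*} [CommRing A] (n : ℕ) : lg n (0 : A) = 1 := by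
  unfold lg
  rw [sum_range_succ', sum_eq_zero]
  · simp [Pool.Agent.Q267.Seven.dl]
  · intro i _
    rw [zero_pow (by omega), mul_zero]

theorem unit2 (hp3 : 3 < p) : IsUnit (2 : R p) := by
  have := isUnit_nat p 2 (by norm_num) (by omega)
  exact_mod_cast this

theorem del (bT : S_bT) (t : S_tode) (hp3 : 3 < p) :
    ∃ d : R p, (-1) ^ ((p - 1) / 2) * (-1) ^ (p / 4) * 2 ^ ((p - 1) / 2) = 1 + (p : R p) * d := by
  have h1 := bTval bT (by omega) (RingHom.id (R p)) 1
  have h2 := symval t (by omega) (RingHom.id (R p)) 0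
  rw [sub_zero] at h2
  have h3 : TT p (0 : R p) = 4 := by unfold TT; rw [lg_at_zero, lg_at_zero]; norm_num
  rw [h3] at h2
  rw [h2, bv_one] at h1
  set s : R p := (-1) ^ ((p - 1) / 2)
  set χ : R p := (-1) ^ (p / 4)
  set y : R p := 2 ^ ((p - 1) / 2)
  have hs : s ^ 2 = 1 := by rw [← pow_mul, mul_comm, pow_mul]; norm_num
  have hχ : χ ^ 2 = 1 := by rw [← pow_mul, mul_comm, pow_mul]; norm_num
  obtain ⟨d, hd⟩ := p_ann (a := s * χ * y - 1) (by
    apply ((unit2 hp3).mul (unit2 hp3)).mul_left_cancel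
    linear_combination s * χ * h1 + 4 * (p : R p) * hs * χ ^ 2 + 4 * (p : R p) * hχ)
  exact ⟨d, by linear_combination hd⟩

/-- the coefficient sequence of the sum -/
noncomputable def cc (p : ℕ) (i : R p) (k : ℕ) : R p := (k.centralBinom : R p) * ((u4 k : ℕ) : R p) * i ^ k

omit hp in
theorem cc_rec {i : R p} (hi : 256 * i = 1) (j : ℕ) : (4 * ((j : R p) + 1)) ^ 3 * cc p i (j + 1) =
    (4 * (j : R p) + 1) * (4 * (j : R p) + 2) * (4 * (j : R p) + 3) * cc p i j := by
  have h1 := congrArg (Nat.cast : ℕ → R p) (Nat.succ_mul_centralBinom_succ j)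
  have h2 := congrArg (Nat.cast : ℕ → R p) (u4_succ j)
  push_cast at h1 h2
  unfold cc
  push_cast
  set a : R p := (j.centralBinom : R p)
  set a' : R p := ((j + 1).centralBinom : R p)
  set b : R p := (u4 j : R p)
  set b' : R p := (u4 (j + 1) : R p)
  set J : R p := (j : R p)
  rw [pow_succ i j]
  linear_combination (64 * (J + 1) * a' * i ^ j * i) * h2 + (64 * i ^ j * i * (4 * (4 * J + 1) * (4 * J + 3) * b)) * h1 +
    ((4 * J + 1) * (4 * J + 2) * (4 * J + 3) * a * b * i ^ j) * hi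

theorem cb_dvd {k : ℕ} (h1 : (p - 1) / 2 < k) (h2 : k < p) : p ∣ k.centralBinom := by
  rw [Nat.centralBinom_eq_two_mul_choose]
  have := hp.out.eq_two_or_odd
  exact hp.out.dvd_choose h2 (by omega) (by omega)

theorem FF_trunc (wi : R p) : FF p wi = ∑ k ∈ range ((p - 1) / 2 + 1), (k.centralBinom : R p) * ((u4 k : ℕ) : R p) * wi ^ k := by
  unfold FF
  symm
  apply sum_subset
  · intro k hk
    have := hp.out.pos
    simp only [mem_range] at hk ⊢
    omega
  · intro k hk hk'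
    simp only [mem_range] at hk hk'
    obtain ⟨c, hc⟩ := cb_dvd (p := p) (k := k) (by omega) hk
    unfold u4
    rw [hc]
    push_cast
    linear_combination ((c : R p) ^ 2 * ((2 * k).centralBinom : R p) * wi ^ k) * p_sq p

theorem Hs_exists (hp3 : 3 < p) : ∃ h : ℕ → R p, Hs p h := by
  refine ⟨fun n => Nat.rec (2 ^ ((p - 1) / 2) * ((((p - 1) / 2).centralBinom : ℕ) : R p)) (fun (j : ℕ) (a : R p) =>
    Ring.inverse ((4 * ((j : R p) + 1) - p) ^ 3) * ((4 * (j : R p) + 1 - p) * (4 * (j : R p) + 2 - p) * (4 * (j : R p) + 3 - p) * a)) n,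
    rfl, ?_⟩
  intro j hj
  have hu : IsUnit ((4 * ((j : R p) + 1) - p) ^ 3) := by
    apply IsUnit.pow
    apply isUnit_of_red
    have h1 := isUnit_nat p (j + 1) (by omega) (by omega)
    have h2 := ((unit2 hp3).mul (unit2 hp3)).mul h1
    have h3 := (h2.map (red p)).ne_zero
    have : red p (4 * ((j : R p) + 1) - p) = red p (2 * 2 * ((j + 1 : ℕ) : R p)) := by
      rw [map_sub, map_natCast, ZMod.natCast_self, sub_zero]; congr 1; push_cast; ring
    rw [this]; exact h3
  show (4 * ((j : R p) + 1) - p) ^ 3 * (Ring.inverse ((4 * ((j : R p) + 1) - p) ^ 3) * _) = _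
  rw [← mul_assoc, Ring.mul_inverse_cancel _ hu, one_mul]

/-- the reversed sequence of the Apery side -/
noncomputable def gg (p : ℕ) (j : ℕ) : R p :=
  ((((p - 1) / 2 - j).centralBinom : ℕ) : R p) ^ 2 * fs p ((p - 1) / 2 - j)

theorem gg_rec (hF : S_F) (hp3 : 3 < p) (j : ℕ) (hj : j < (p - 1) / 2) :
    4 * (2 * ((j : R p) + 1) - p) ^ 3 * gg p (j + 1) =
    (4 * (j : R p) + 1 - 2 * p) * (2 * (j : R p) + 1 - p) * (4 * (j : R p) + 3 - 2 * p) * gg p j := by
  obtain ⟨k, hk⟩ : ∃ k, (p - 1) / 2 = k + 1 + j := ⟨(p - 1) / 2 - 1 - j, by omega⟩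
  have hodd := hp.out.eq_two_or_odd
  have hpk : p = 2 * (k + 1 + j) + 1 := by omega
  have e1 : (p - 1) / 2 - j = k + 1 := by omega
  have e2 : (p - 1) / 2 - (j + 1) = k := by omega
  have h1 := (hF p (by omega)).2 k (by omega)
  have h2 := congrArg (Nat.cast : ℕ → R p) (Nat.succ_mul_centralBinom_succ k)
  have h3 := congrArg (Nat.cast : ℕ → R p) hpk
  unfold gg
  rw [e1, e2]
  push_cast at h2 h3
  set a : R p := (k.centralBinom : R p)
  set a' : R p := ((k + 1).centralBinom : R p)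
  set f : R p := fs p k
  set f' : R p := fs p (k + 1)
  set J : R p := (j : R p)
  set κ : R p := (k : R p)
  set P : R p := (p : R p)
  have h4 : (κ + 1) ^ 2 * a' ^ 2 = 4 * (2 * κ + 1) ^ 2 * a ^ 2 := by
    linear_combination ((κ + 1) * a' + 2 * (2 * κ + 1) * a) * h2
  have h5 : (κ + 1) * (2 * κ + 1) * f = 2 * (4 * κ + 5) * (4 * κ + 3) * f' := by
    apply (unit2 hp3).mul_left_cancel
    linear_combination h1
  have c1 : 2 * (J + 1) - P = -(2 * κ + 1) := by linear_combination -h3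
  have c2 : 4 * J + 1 - 2 * P = -(4 * κ + 5) := by linear_combination -2 * h3
  have c3 : 2 * J + 1 - P = -(2 * (κ + 1)) := by linear_combination -h3
  have c4 : 4 * J + 3 - 2 * P = -(4 * κ + 3) := by linear_combination -2 * h3
  rw [c1, c2, c3, c4]
  linear_combination (2 * κ + 1) * f * h4 - (κ + 1) * a' ^ 2 * h5

/-- the algebra of the last step -/
theorem fin_alg {x X e2 C g0 h0 G H F L s χ d c0 lam P xe W κ : R p}
    (hs : s ^ 2 = 1) (hχ : χ ^ 2 = 1) (hlam : lam ^ 2 = 1) (hP : P ^ 2 = 0)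
    (hδ : s * χ * e2 = 1 + P * d) (hC : C = s * (e2 ^ 2) ^ 2) (hg0 : g0 = C ^ 2) (hh0 : h0 = e2 * C)
    (hlin : h0 * G - 2 * g0 * H + g0 * h0 * F = 0) (hrel : 4 * χ * H = F * (3 + W))
    (hW : W = (e2 ^ 2) ^ 2 * κ) (hxe : lam * xe = 1 + P * c0) (hκ : κ * xe ^ 2 = 1) (hL : L = xe * G)
    (u2 : IsUnit (2 : R p)) (ue : IsUnit e2) : L = lam * F := by
  have hC4 : IsUnit C := by
    rw [hC]
    exact (IsUnit.of_mul_eq_one s (by rw [← pow_two, hs])).mul ((ue.pow 2).pow 2)
  have us : IsUnit s := IsUnit.of_mul_eq_one s (by rw [← pow_two, hs])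
  have uχ : IsUnit χ := IsUnit.of_mul_eq_one χ (by rw [← pow_two, hχ])
  -- cancel C
  have h1 : e2 * G - 2 * C * H + C ^ 2 * e2 * F = 0 := by
    apply hC4.mul_left_cancel
    rw [hg0, hh0] at hlin
    linear_combination hlin
  have h2 : 2 * (χ * e2) * G = C * F * (3 + W) - 2 * C ^ 2 * (χ * e2) * F := by
    linear_combination 2 * χ * h1 + C * hrel
  have hδ' : χ * e2 = s * (1 + P * d) := by linear_combination s * hδ - χ * e2 * hs
  have he4 : (e2 ^ 2) ^ 2 = (1 + P * d) ^ 4 := by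
    rw [← hδ]
    linear_combination (-(e2 ^ 4) * (s ^ 2 * χ ^ 4 + χ ^ 4)) * hs - (e2 ^ 4) * (χ ^ 2 + 1) * hχ
  have he4' : (e2 ^ 2) ^ 2 = 1 + 4 * (P * d) := by
    rw [he4]; linear_combination (6 * d ^ 2 + 4 * P * d ^ 3 + P ^ 2 * d ^ 4) * hP
  have hx2 : xe ^ 2 = 1 + 2 * (P * c0) := by
    have : (lam * xe) ^ 2 = (1 + P * c0) ^ 2 := by rw [hxe]
    linear_combination this - xe ^ 2 * hlam + c0 ^ 2 * hP
  have hκ' : κ = 1 - 2 * (P * c0) := by
    rw [hx2] at hκ
    linear_combination (1 - 2 * (P * c0)) * hκ + 4 * κ * c0 ^ 2 * hP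
  have hW' : W = 1 + 4 * (P * d) - 2 * (P * c0) := by
    rw [hW, he4', hκ']; linear_combination (-8 * d * c0) * hP
  have hC' : C = s * (1 + 4 * (P * d)) := by rw [hC, he4']
  have hG : 2 * (1 + P * d) * G = (1 + 4 * (P * d)) * F * (3 + W) - 2 * (1 + 8 * (P * d)) * (1 + P * d) * F := by
    apply us.mul_left_cancel
    rw [hδ', hC'] at h2
    linear_combination h2 - 2 * s * (1 + P * d) * F * ((1 + 4 * (P * d)) ^ 2) * hs - 2 * s * (1 + P * d) * F * 16 * d ^ 2 * hP
  rw [hW'] at hG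
  have hG2 : G = (1 - P * c0) * F := by
    apply u2.mul_left_cancel
    linear_combination (1 - P * d) * hG + (2 * d ^ 2 * G) * hP +
      (F * (-2 * d ^ 2 - 6 * c0 * d + 8 * P * c0 * d ^ 2)) * hP
  apply (IsUnit.of_mul_eq_one lam (by rw [← pow_two, hlam]) : IsUnit lam).mul_left_cancel
  rw [hL, hG2]
  linear_combination ((1 - P * c0) * F) * hxe - F * hlam - c0 ^ 2 * F * hP

theorem fin (hF : S_F) (hL : S_L) (hlin : S_lin) (hmor : S_mor) (bT : S_bT) (t : S_tode) (hp3 : 3 < p)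
    {M : ℤ} (hM : ¬ (p : ℤ) ∣ M) {x wi : R p} (hx : 256 * x = M) (hwi : (M : R p) * wi = 1) (rel : Rel p M) :
    ∑ n ∈ range p, ∑ k ∈ range (n + 1), (((n.choose k) ^ 2 * ((n + k).choose k) ^ 2 : ℕ) : R p) * x ^ k =
      ((legendreSym p M : ℤ) : R p) * FF p wi := by
  have hp2 : p ≠ 2 := by omega
  have hodd := hp.out.eq_two_or_odd
  set e := (p - 1) / 2 with he
  have hpe : p = 2 * e + 1 := by omega
  rw [hL p hp2 x, ← he]
  obtain ⟨h, hh⟩ := Hs_exists (p := p) hp3
  have u2 := unit2 (p := p) hp3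
  have u256 : IsUnit (256 : R p) := by
    have : (256 : R p) = 2 ^ 8 := by norm_num
    rw [this]; exact u2.pow 8
  obtain ⟨i, hi⟩ := u256.exists_right_inv
  set X : R p := 256 * wi with hX
  have hxX : x * X = 1 := by rw [hX]; linear_combination wi * hx + hwi
  have hrel := rel wi hwi h hh
  rw [← he, ← hX] at hrel
  have hlin' := hlin p hp3 (cc p i) h (gg p) (by simp [cc, u4]) (fun j _ => cc_rec hi j) hh.2
    (fun j hj => gg_rec hF hp3 j hj)
  rw [← he] at hlin'
  obtain ⟨d, hd⟩ := del bT t (p := p) hp3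
  rw [← he] at hd
  set G : R p := ∑ j ∈ range (e + 1), gg p j * X ^ j with hG
  set H : R p := ∑ j ∈ range (e + 1), h j * X ^ j with hH
  have hFF : FF p wi = ∑ j ∈ range (e + 1), cc p i j * X ^ j := by
    rw [FF_trunc, ← he]
    refine sum_congr rfl fun k _ => ?_
    unfold cc
    have : i ^ k * X ^ k = wi ^ k := by
      rw [← mul_pow]; congr 1; rw [hX]; linear_combination wi * hi
    linear_combination -((k.centralBinom : R p) * ((u4 k : ℕ) : R p)) * this
  have hlinS : h 0 * G - 2 * gg p 0 * H + gg p 0 * h 0 * FF p wi = 0 := by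
    rw [hFF, hG, hH, mul_sum, mul_sum, mul_sum, ← sum_sub_distrib, ← sum_add_distrib]
    refine sum_eq_zero fun j hj => ?_
    have := hlin' j (by have := mem_range.mp hj; omega)
    linear_combination X ^ j * this
  have hLG : ∑ k ∈ range (e + 1), ((k.centralBinom : ℕ) : R p) ^ 2 * fs p k * x ^ k = x ^ e * G := by
    rw [hG, mul_sum, ← sum_range_reflect]
    refine sum_congr rfl fun j hj => ?_
    have hj' : j ≤ e := by have := mem_range.mp hj; omega
    have e1 : e + 1 - 1 - j = e - j := by omega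
    rw [e1]
    have e2 : x ^ e * X ^ j = x ^ (e - j) := by
      obtain ⟨i', hi'⟩ : ∃ i', e = i' + j := ⟨e - j, by omega⟩
      rw [hi', Nat.add_sub_cancel, pow_add, mul_assoc, ← mul_pow, hxX, one_pow, mul_one]
    unfold gg
    rw [← he]
    linear_combination -(((e - j).centralBinom : R p) ^ 2 * fs p (e - j)) * e2
  rw [hLG]
  -- the Legendre symbol
  set lam : ℤ := legendreSym p M with hlam
  have hlam1 : lam = 1 ∨ lam = -1 := by
    rw [hlam]
    refine (legendreSym.eq_one_or_neg_one p ?_)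
    rw [Ne, ZMod.intCast_zmod_eq_zero_iff_dvd]
    exact hM
  have hlam2 : (lam : R p) ^ 2 = 1 := by rcases hlam1 with h | h <;> rw [h] <;> norm_num
  obtain ⟨c0, hc0⟩ : ∃ c0 : R p, (lam : R p) * x ^ e = 1 + p * c0 := by
    apply red_eq_of
    have h1 : (lam : ZMod p) = (M : ZMod p) ^ (p / 2) := legendreSym.eq_pow p M
    have h2 : p / 2 = e := by omega
    rw [h2] at h1
    have h3 : (M : ZMod p) = 256 * red p x := by
      have := congrArg (red p) hx
      rw [map_mul, map_ofNat, red_int] at this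
      exact this.symm
    have hx0 : red p x ≠ 0 := by
      intro h0
      have := congrArg (red p) hxX
      rw [map_mul, h0, zero_mul, map_one] at this
      exact zero_ne_one this
    have h16 : (16 : ZMod p) ≠ 0 := by
      have h2' := (u2.map (red p)).ne_zero
      rw [map_ofNat] at h2'
      have : (16 : ZMod p) = 2 ^ 4 := by norm_num
      rw [this]; exact pow_ne_zero _ h2'
    have f1 := ZMod.pow_card_sub_one_eq_one h16
    have f2 := ZMod.pow_card_sub_one_eq_one hx0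
    rw [map_mul, map_one, red_int, map_pow, h1, h3, mul_pow]
    have g1 : (256 : ZMod p) ^ e = 1 := by
      have : (256 : ZMod p) = 16 ^ 2 := by norm_num
      rw [this, ← pow_mul, show 2 * e = p - 1 by omega, f1]
    have g2 : red p x ^ e * red p x ^ e = 1 := by
      rw [← pow_add, show e + e = p - 1 by omega, f2]
    rw [g1, one_mul, g2]
  have hC : ((e.centralBinom : ℕ) : R p) = (-1) ^ e * ((2 ^ e) ^ 2) ^ 2 := by
    have := hmor p hp3
    rw [← he] at this
    rw [this, ← pow_mul, ← pow_mul]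
    have : (4 : R p) = 2 ^ 2 := by norm_num
    rw [this, ← pow_mul]
    congr 2; omega
  have hf1 := (hF p hp2).1
  rw [← he] at hf1
  refine fin_alg (x := x) (X := X) (e2 := 2 ^ e) (C := ((e.centralBinom : ℕ) : R p)) (g0 := gg p 0) (h0 := h 0) (G := G) (H := H)
    (F := FF p wi) (s := (-1) ^ e) (χ := (-1) ^ (p / 4)) (d := d) (c0 := c0) (lam := (lam : R p)) (P := (p : R p))
    (xe := x ^ e) (W := (4 * X) ^ (p - 1)) (κ := X ^ (p - 1))
    ?_ ?_ hlam2 (p_sq p) hd hC ?_ (by rw [hh.1, he]) hlinS hrel ?_ hc0 ?_ rfl u2 (u2.pow e)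
  · rw [← pow_mul, mul_comm, pow_mul]; norm_num
  · rw [← pow_mul, mul_comm, pow_mul]; norm_num
  · unfold gg; rw [Nat.sub_zero, ← he, hf1, mul_one]
  · rw [mul_pow, ← pow_mul, ← pow_mul]
    have : (4 : R p) = 2 ^ 2 := by norm_num
    rw [this, ← pow_mul]
    congr 2; omega
  · rw [← pow_mul, show e * 2 = p - 1 by omega, ← mul_pow, mul_comm X x, hxX, one_pow]

end Pool.Agent.H546.AP
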