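import Pool.Agent.H546.APC
import Pool.Agent.H546.QTy

set_option autoImplicit false

/-!
# Apery polynomials at CM points: the relation at the points of the three types
-/

namespace Pool.Agent.H546.AP

open Finset
open Pool.Agent.Q267.CDE (R p_sq)

/-- the lemmas -/
structure Hyp : Prop where
  J : S_J
  b : S_bode
  t : S_tode
  bT : S_bT
  cs : S_cser
  I : S_I
  F : S_F
  L : S_L
  lin : S_lin
  mor : S_mor
  form : S_form

variable {O K k : Type} [CommRing O] [IsDomain O] [Field K] [Algebra O K] [Field k]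
  (S : DV O K k) {p : ℕ} [hp : Fact p.Prime] [CharP k p]

include S in
/-- **The relation from two isogenies.** -/
theorem rel_form (H : Hyp) [IsAlgClosed k] (hp5 : 5 ≤ p) (hq : S.q = (p : O))
    {z z' : O} (hzz : z' = z ∨ z' = 1 - z)
    (hz : S.red z ≠ 0) (hz1 : S.red (1 - z) ≠ 0) (hz' : S.red z' = S.red z ^ p)
    (ha0 : S.red (qa z) ≠ 0) (hb0 : S.red (qb z) ≠ 0) {m1 m2 : O} {l1 l2 : ℕ}
    (hm1 : m1 ≠ 0) (hm2 : m2 ≠ 0)
    (d1 : Dat S (cub (qa z) (qb z)) (qa z') (qb z') m1 l1)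
    (d2 : Dat S (cub (qa z) (qb z)) (qa z') (qb z') m2 l2)
    (r s t0 : ℤ) (hform : (p : ℤ) = r ^ 2 * l1 + r * s * t0 + s ^ 2 * l2)
    (hl1 : ¬ (p : ℤ) ∣ l1) (hl2 : ¬ (p : ℤ) ∣ l2) (ht0 : t0 ^ 2 ≤ 4 * l1 * l2)
    (hbig : 16 * (l1 * l2) < p ^ 2) {al τ : O} {c : ℤ} (hal : (r : O) * m1 + (s : O) * m2 = al)
    (hred : S.red al = 0) (hc : c ^ 2 = 1) (hprod : al * (τ - al) = c * p) : RelO p z := by
  have hp0 : (p : O) ≠ 0 := by rw [← hq]; exact S.q_ne
  obtain ⟨w, hw⟩ := (S.red_iff _).mp hred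
  rw [hq] at hw
  have hw1 : w * (τ - al) = c := by
    apply mul_left_cancel₀ hp0
    rw [hw] at hprod ⊢
    linear_combination hprod
  have hcO : (c : O) ^ 2 = 1 := by
    rw [← Int.cast_pow, hc, Int.cast_one]
  have hwr : S.red w ≠ 0 := by
    intro h0
    have h1 := congrArg S.red hw1
    rw [map_mul, h0, zero_mul] at h1
    have h2 := congrArg S.red hcO
    rw [map_pow, ← h1, map_one] at h2
    simp at h2
  obtain ⟨N, D, M, v1, v2, v3, v4, v5, v6⟩ := lift4_data S hp5 hq hz hz1 hz' ha0 hb0 hm1 hm2 d1 d2 r s t0 hform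
    (form_ndvd hform hl2) (form_ndvd (r := s) (s := r) (t0 := t0) (l1 := l2) (l2 := l1)
      (by rw [hform]; ring) hl1) ht0 hbig (w := w) (by rw [hal, hw]) hwr
  exact rel_ord S H.cs H.J H.b H.t H.bT hp5 hq hz hz1 hz' hzz hwr v1 v2 v3 v4 v5 v6

include S in
/-- the relation from an endomorphism whose multiplier is not fixed by the Frobenius -/
theorem rss (H : Hyp) (hp5 : 5 ≤ p) (hq : S.q = (p : O)) {z m : O} {l : ℕ}
    (hm : S.red m ≠ 0) (hne : S.red m ^ p ≠ S.red m)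
    (d : Dat S (cub (qa z) (qb z)) (qa z) (qb z) m l) : RelO p z := by
  refine rel_ss S H.t H.bT hp5 hq ?_
  rw [lg_cast]
  have h := ssq S hp5 hm d
  have h1 : (S.red m ^ p - S.red m) * lg (p / 4) (S.red z) = 0 := by linear_combination -h
  rcases mul_eq_zero.mp h1 with h2 | h2
  · exact absurd (sub_eq_zero.mp h2) hne
  · exact h2

include S in
theorem rA1 (H : Hyp) [IsAlgClosed k] (hp5 : 5 ≤ p) (hq : S.q = (p : O)) {z : O} {M : ℤ}
    (hMz : (M : O) * (z * (1 - z)) = 64) (hz' : S.red z = S.red z ^ p)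
    (ha0 : S.red (qa z) ≠ 0) (hb0 : S.red (qb z) ≠ 0) {n : ℤ} {l : ℕ} {τ : O} (hτ : τ ^ 2 = -(n : O))
    (hn : (l : ℤ) = n + 1) (h1τ : 1 + τ ≠ 0)
    (d : Dat S (cub (qa z) (qb z)) (qa z) (qb z) (1 + τ) l) (hl : ¬ (p : ℤ) ∣ l) (hl0 : 0 < l)
    (hbig : 16 * l < p ^ 2) (x y : ℤ) (hxy : (p : ℤ) = x ^ 2 + n * y ^ 2) : RelO p z := by
  obtain ⟨hz, hz1⟩ := z_units S (p := p) (by omega) hMz
  have hO : (p : O) = (x : O) ^ 2 + n * (y : O) ^ 2 := by
    have := congrArg (Int.cast : ℤ → O) hxy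
    push_cast at this; exact this
  have hln : (n : O) = (l : O) - 1 := by
    have := congrArg (Int.cast : ℤ → O) hn
    push_cast at this; rw [this]; ring
  have key : ∀ y : ℤ, (p : ℤ) = x ^ 2 + n * y ^ 2 → (p : O) = (x : O) ^ 2 + n * (y : O) ^ 2 →
      S.red ((x : O) + y * τ) = 0 → RelO p z := by
    intro y hxy hO hr
    refine rel_form S H hp5 hq (Or.inl rfl) hz hz1 hz' ha0 hb0 (m1 := 1) (m2 := 1 + τ) (l1 := 1) (l2 := l)
      one_ne_zero h1τ (Dat.id S _ _) d (x - y) y 2 ?_ ?_ hl ?_ (by omega) (al := (x : O) + y * τ)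
      (τ := 2 * x) (c := 1) ?_ hr (by norm_num) ?_
    · have h1 : n = (l : ℤ) - 1 := by omega
      rw [hxy, h1]; push_cast; ring
    · intro h1
      have := Int.le_of_dvd (by norm_num) h1
      push_cast at this
      omega
    · push_cast
      have : (1 : ℤ) ≤ l := by exact_mod_cast hl0
      linarith
    · push_cast; ring
    · push_cast; linear_combination (-(y : O) ^ 2) * hτ - hO
  have h0 : S.red ((x : O) + y * τ) * S.red ((x : O) + ((-y : ℤ) : O) * τ) = 0 := by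
    rw [← map_mul]
    have : ((x : O) + y * τ) * ((x : O) + ((-y : ℤ) : O) * τ) = S.q := by
      rw [hq]; push_cast; linear_combination (-(y : O) ^ 2) * hτ - hO
    rw [this, S.red_q]
  rcases mul_eq_zero.mp h0 with h | h
  · exact key y hxy hO h
  · exact key (-y) (by rw [hxy]; ring) (by rw [hO]; push_cast; ring) h

include S in
theorem rB1 (H : Hyp) [IsAlgClosed k] (hp5 : 5 ≤ p) (hq : S.q = (p : O)) {z : O} {M : ℤ}
    (hMz : (M : O) * (z * (1 - z)) = 64) (hz' : S.red z = S.red z ^ p)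
    (ha0 : S.red (qa z) ≠ 0) (hb0 : S.red (qb z) ≠ 0) {l : ℕ} {τ : O} (hτ : τ ^ 2 = -(l : O)) (h1τ : τ ≠ 0)
    (d : Dat S (cub (qa z) (qb z)) (qa z) (qb z) τ l) (hl : ¬ (p : ℤ) ∣ l)
    (hbig : 16 * l < p ^ 2) (x y : ℤ) (hxy : (p : ℤ) = x ^ 2 + l * y ^ 2) : RelO p z := by
  obtain ⟨hz, hz1⟩ := z_units S (p := p) (by omega) hMz
  have hO : (p : O) = (x : O) ^ 2 + l * (y : O) ^ 2 := by
    have := congrArg (Int.cast : ℤ → O) hxy
    push_cast at this; exact this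
  have key : ∀ y : ℤ, (p : ℤ) = x ^ 2 + l * y ^ 2 → (p : O) = (x : O) ^ 2 + l * (y : O) ^ 2 →
      S.red ((x : O) + y * τ) = 0 → RelO p z := by
    intro y hxy hO hr
    refine rel_form S H hp5 hq (Or.inl rfl) hz hz1 hz' ha0 hb0 (m1 := 1) (m2 := τ) (l1 := 1) (l2 := l)
      one_ne_zero h1τ (Dat.id S _ _) d x y 0 ?_ ?_ hl ?_ (by omega) (al := (x : O) + y * τ)
      (τ := 2 * x) (c := 1) ?_ hr (by norm_num) ?_
    · rw [hxy]; push_cast; ring
    · intro h1
      have := Int.le_of_dvd (by norm_num) h1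
      push_cast at this
      omega
    · positivity
    · push_cast; ring
    · push_cast; linear_combination (-(y : O) ^ 2) * hτ - hO
  have h0 : S.red ((x : O) + y * τ) * S.red ((x : O) + ((-y : ℤ) : O) * τ) = 0 := by
    rw [← map_mul]
    have : ((x : O) + y * τ) * ((x : O) + ((-y : ℤ) : O) * τ) = S.q := by
      rw [hq]; push_cast; linear_combination (-(y : O) ^ 2) * hτ - hO
    rw [this, S.red_q]
  rcases mul_eq_zero.mp h0 with h | h
  · exact key y hxy hO h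
  · exact key (-y) (by rw [hxy]; ring) (by rw [hO]; push_cast; ring) h

include S in
theorem rA2 (H : Hyp) [IsAlgClosed k] (hp5 : 5 ≤ p) (hq : S.q = (p : O)) {z : O} {M : ℤ}
    (hMz : (M : O) * (z * (1 - z)) = 64) (hz' : S.red (1 - z) = S.red z ^ p)
    (ha0 : S.red (qa z) ≠ 0) (hb0 : S.red (qb z) ≠ 0) {n : ℤ} {l : ℕ} {τ ρ μ : O} (hτ : τ ^ 2 = -(n : O))
    (hρ : ρ ^ 2 = -2) (hμ : 2 * μ = -((1 + τ) * ρ)) (hn : (2 * l : ℤ) = n + 1) (hnodd : n % 2 = 1)
    (hμ0 : μ ≠ 0) (d : Dat S (cub (qa z) (qb z)) (qa (1 - z)) (qb (1 - z)) μ l) (hl : ¬ (p : ℤ) ∣ l) (hl0 : 0 < l)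
    (hbig : 32 * l < p ^ 2) (x y : ℤ) (hxy : (2 * p : ℤ) = x ^ 2 + n * y ^ 2) : RelO p z := by
  obtain ⟨hz, hz1⟩ := z_units S (p := p) (by omega) hMz
  have r2 := S.two_ne (p := p) (by omega)
  have r3 := S.three_ne (p := p) (by omega)
  have h2k : (2 : k) ≠ 0 := by rwa [map_ofNat] at r2
  have h3k : (3 : k) ≠ 0 := by rwa [map_ofNat] at r3
  have h2O : (2 : O) ≠ 0 := by intro h0; rw [h0, map_zero] at r2; exact r2 rfl
  have hρ0 : ρ ≠ 0 := by
    intro h0; rw [h0] at hρ; apply h2O; linear_combination hρ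
  have hpar : (x - y) % 2 = 0 := by
    have h1 : (x ^ 2 + n * y ^ 2) % 2 = 0 := by omega
    obtain ⟨m, rfl⟩ : ∃ m, n = 2 * m + 1 := ⟨n / 2, by omega⟩
    have h2 : (x ^ 2 + y ^ 2) % 2 = 0 := by
      have : x ^ 2 + (2 * m + 1) * y ^ 2 = x ^ 2 + y ^ 2 + 2 * (m * y ^ 2) := by ring
      omega
    have hx : x % 2 = 0 ∨ x % 2 = 1 := by omega
    have hy : y % 2 = 0 ∨ y % 2 = 1 := by omega
    rcases hx with hx | hx <;> rcases hy with hy | hy
    · omega
    · exfalso; rw [pow_two, pow_two, Int.add_emod, Int.mul_emod, Int.mul_emod y y, hx, hy] at h2; omega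
    · exfalso; rw [pow_two, pow_two, Int.add_emod, Int.mul_emod, Int.mul_emod y y, hx, hy] at h2; omega
    · omega
  have hO : 2 * (p : O) = (x : O) ^ 2 + n * (y : O) ^ 2 := by
    have := congrArg (Int.cast : ℤ → O) hxy
    push_cast at this; exact this
  have dν := Dat.mu S (z := z) (m := 1) (r := ρ) (l := 1) (Dat.id S (qa z) (qb z)) h2k h3k hz hρ
  have key : ∀ y : ℤ, (x - y) % 2 = 0 → (2 * p : ℤ) = x ^ 2 + n * y ^ 2 → 2 * (p : O) = (x : O) ^ 2 + n * (y : O) ^ 2 →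
      S.red (ρ * ((x : O) - y * τ)) = 0 → RelO p z := by
    intro y hpar hxy hO hr
    obtain ⟨a, ha⟩ : ∃ a, 2 * a = x + y := ⟨(x + y) / 2, by omega⟩
    have haO : 2 * (a : O) = x + y := by
      have := congrArg (Int.cast : ℤ → O) ha
      push_cast at this; exact this
    have hal : 2 * ((a : O) * (1 * ρ) + (y : O) * μ) = ρ * ((x : O) - y * τ) := by
      linear_combination (y : O) * hμ + ρ * haO
    refine rel_form S H hp5 hq (Or.inr rfl) hz hz1 hz' ha0 hb0 (m1 := 1 * ρ) (m2 := μ) (l1 := 2 * 1) (l2 := l)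
      (mul_ne_zero one_ne_zero hρ0) hμ0 dν d a y (-2) ?_ ?_ hl ?_ (by omega)
      (al := (a : O) * (1 * ρ) + (y : O) * μ)
      (τ := ρ * x) (c := -1) rfl ?_ (by norm_num) ?_
    · have h1 : n = 2 * (l : ℤ) - 1 := by omega
      have h2 : x = 2 * a - y := by omega
      have h3 : 2 * (p : ℤ) = 2 * (a ^ 2 * ((2 * 1 : ℕ) : ℤ) + a * y * (-2) + y ^ 2 * l) := by
        rw [hxy, h1, h2]; push_cast; ring
      omega
    · intro h1
      have h2 : p ∣ 2 := by exact_mod_cast h1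
      have := Nat.le_of_dvd (by norm_num) h2
      omega
    · push_cast
      have : (1 : ℤ) ≤ l := by exact_mod_cast hl0
      linarith
    · have h1 := congrArg S.red hal
      rw [hr, map_mul] at h1
      rcases mul_eq_zero.mp h1 with h2 | h2
      · exact absurd h2 r2
      · exact h2
    · have h4 : (2 * 2 : O) ≠ 0 := mul_ne_zero h2O h2O
      apply mul_left_cancel₀ h4
      push_cast
      linear_combination (2 * ρ * (x : O) - (2 * ((a : O) * (1 * ρ) + (y : O) * μ)) - ρ * ((x : O) - y * τ)) * hal +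
        ((x : O) ^ 2 - y ^ 2 * τ ^ 2) * hρ + (2 * (y : O) ^ 2) * hτ + 2 * hO
  have h0 : S.red (ρ * ((x : O) - y * τ)) * S.red (ρ * ((x : O) - ((-y : ℤ) : O) * τ)) = 0 := by
    rw [← map_mul]
    have : (ρ * ((x : O) - y * τ)) * (ρ * ((x : O) - ((-y : ℤ) : O) * τ)) = S.q * (-4) := by
      rw [hq]; push_cast
      linear_combination ((x : O) ^ 2 - y ^ 2 * τ ^ 2) * hρ + (2 * (y : O) ^ 2) * hτ + 2 * hO
    rw [this, map_mul, S.red_q, zero_mul]
  rcases mul_eq_zero.mp h0 with h | h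
  · exact key y hpar hxy hO h
  · exact key (-y) (by omega) (by rw [hxy]; ring) (by rw [hO]; push_cast; ring) h

include S in
theorem rB2 (H : Hyp) [IsAlgClosed k] (hp5 : 5 ≤ p) (hq : S.q = (p : O)) {z : O} {M : ℤ}
    (hMz : (M : O) * (z * (1 - z)) = 64) (hz' : S.red (1 - z) = S.red z ^ p)
    (ha0 : S.red (qa z) ≠ 0) (hb0 : S.red (qb z) ≠ 0) {l : ℕ} {ρ μ : O}
    (hρ : ρ ^ 2 = -2) (hμ : μ ^ 2 = l)
    (hμ0 : μ ≠ 0) (d : Dat S (cub (qa z) (qb z)) (qa (1 - z)) (qb (1 - z)) μ l) (hl : ¬ (p : ℤ) ∣ l)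
    (hbig : 32 * l < p ^ 2) (x y : ℤ) (hxy : (p : ℤ) = 2 * x ^ 2 + l * y ^ 2) : RelO p z := by
  obtain ⟨hz, hz1⟩ := z_units S (p := p) (by omega) hMz
  have r2 := S.two_ne (p := p) (by omega)
  have r3 := S.three_ne (p := p) (by omega)
  have h2k : (2 : k) ≠ 0 := by rwa [map_ofNat] at r2
  have h3k : (3 : k) ≠ 0 := by rwa [map_ofNat] at r3
  have h2O : (2 : O) ≠ 0 := by intro h0; rw [h0, map_zero] at r2; exact r2 rfl
  have hρ0 : ρ ≠ 0 := by
    intro h0; rw [h0] at hρ; apply h2O; linear_combination hρ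
  have hO : (p : O) = 2 * (x : O) ^ 2 + l * (y : O) ^ 2 := by
    have := congrArg (Int.cast : ℤ → O) hxy
    push_cast at this; exact this
  have dν := Dat.mu S (z := z) (m := 1) (r := ρ) (l := 1) (Dat.id S (qa z) (qb z)) h2k h3k hz hρ
  have key : ∀ y : ℤ, (p : ℤ) = 2 * x ^ 2 + l * y ^ 2 → (p : O) = 2 * (x : O) ^ 2 + l * (y : O) ^ 2 →
      S.red ((x : O) * (1 * ρ) + (y : O) * μ) = 0 →
      RelO p z := by
    intro y hxy hO hr
    refine rel_form S H hp5 hq (Or.inr rfl) hz hz1 hz' ha0 hb0 (m1 := 1 * ρ) (m2 := μ) (l1 := 2 * 1) (l2 := l)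
      (mul_ne_zero one_ne_zero hρ0) hμ0 dν d x y 0 ?_ ?_ hl ?_ (by omega)
      (al := (x : O) * (1 * ρ) + (y : O) * μ)
      (τ := 2 * x * ρ) (c := -1) rfl hr (by norm_num) ?_
    · rw [hxy]; push_cast; ring
    · intro h1
      have h2 : p ∣ 2 := by exact_mod_cast h1
      have := Nat.le_of_dvd (by norm_num) h2
      omega
    · positivity
    · push_cast
      linear_combination (x : O) ^ 2 * hρ - (y : O) ^ 2 * hμ + hO
  have h0 : S.red ((x : O) * (1 * ρ) + (y : O) * μ) * S.red ((x : O) * (1 * ρ) + ((-y : ℤ) : O) * μ) = 0 := by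
    rw [← map_mul]
    have : ((x : O) * (1 * ρ) + (y : O) * μ) * ((x : O) * (1 * ρ) + ((-y : ℤ) : O) * μ) = S.q * (-1) := by
      rw [hq]; push_cast
      linear_combination (x : O) ^ 2 * hρ - (y : O) ^ 2 * hμ + hO
    rw [this, map_mul, S.red_q, zero_mul]
  rcases mul_eq_zero.mp h0 with h | h
  · exact key y hxy hO h
  · exact key (-y) (by rw [hxy]; ring) (by rw [hO]; push_cast; ring) h

end Pool.Agent.H546.AP
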