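import Pool.Agent.H546.APD

set_option autoImplicit false

/-!
# Apery polynomials at CM points: the master statements of the three types
-/

namespace Pool.Agent.H546.AP

open Finset
open Pool.Agent.Q267.CDE (R p_sq)

variable {O K k : Type} [CommRing O] [IsDomain O] [Field K] [Algebra O K] [Field k]
  (S : DV O K k) {p : ℕ} [hp : Fact p.Prime] [CharP k p]

include S in
/-- type A -/
theorem tA (H : Hyp) [IsAlgClosed k] (hp5 : 5 ≤ p) (hq : S.q = (p : O)) {z τ ρ μ : O} {M n : ℤ} {l : ℕ}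
    (hMz : (M : O) * (z * (1 - z)) = 64) (hτ : τ ^ 2 = -(n : O)) (hρ : ρ ^ 2 = -2)
    (hμ : 2 * μ = -((1 + τ) * ρ)) (hn : (2 * l : ℤ) = n + 1) (hnodd : n % 2 = 1)
    (d : Dat S (cub (qa z) (qb z)) (qa (1 - z)) (qb (1 - z)) μ l) (hl0 : 0 < l) (hl : ¬ (p : ℤ) ∣ 2 * l) :
    (S.red z = S.red z ^ p → ¬ (p : ℤ) ∣ 46656 * (144 + M) → ¬ (p : ℤ) ∣ 1492992 * (648 - M) →
      32 * l < p ^ 2 → ∀ x y : ℤ, (p : ℤ) = x ^ 2 + n * y ^ 2 → RelO p z) ∧
    (S.red (1 - z) = S.red z ^ p → ¬ (p : ℤ) ∣ 46656 * (144 + M) → ¬ (p : ℤ) ∣ 1492992 * (648 - M) →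
      32 * l < p ^ 2 → ∀ x y : ℤ, (2 * p : ℤ) = x ^ 2 + n * y ^ 2 → RelO p z) ∧
    (S.red τ ^ p = -S.red τ → ¬ (p : ℤ) ∣ n → RelO p z) := by
  obtain ⟨hz, hz1⟩ := z_units S (p := p) (by omega) hMz
  have r2 := S.two_ne (p := p) (by omega)
  have r3 := S.three_ne (p := p) (by omega)
  have h2k : (2 : k) ≠ 0 := by rwa [map_ofNat] at r2
  have h3k : (3 : k) ≠ 0 := by rwa [map_ofNat] at r3
  have h2O : (2 : O) ≠ 0 := by intro h0; rw [h0, map_zero] at r2; exact r2 rfl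
  have hlO : (n : O) + 1 = 2 * l := by
    have := congrArg (Int.cast : ℤ → O) hn
    push_cast at this; exact this.symm
  have hμρ : μ * ρ = 1 + τ := by
    apply mul_left_cancel₀ h2O
    linear_combination ρ * hμ - (1 + τ) * hρ
  have dd := Dat.mu S (z := 1 - z) d h2k h3k hz1 hρ
  rw [hμρ, sub_sub_cancel] at dd
  have h1τ : S.red (1 + τ) ≠ 0 := by
    refine S.ne_mul (y := 1 - τ) (n := 2 * l) ?_ hl
    push_cast; linear_combination -hτ + hlO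
  have h1τ0 : 1 + τ ≠ 0 := by intro h0; rw [h0, map_zero] at h1τ; exact h1τ rfl
  have hμ0 : μ ≠ 0 := by rintro rfl; rw [zero_mul] at hμρ; exact h1τ0 hμρ.symm
  have hl' : ¬ (p : ℤ) ∣ l := fun h => hl (h.mul_left 2)
  refine ⟨fun hz' ha hb hbig x y hxy => ?_, fun hz' ha hb hbig x y hxy => ?_, fun hτp hpn => ?_⟩
  · exact rA1 S H hp5 hq hMz hz' (qa_ne S hMz ha) (qb_ne S hMz hb) hτ (by push_cast; linarith) h1τ0 dd
      (by push_cast; exact hl) (by omega) (by omega) x y hxy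
  · exact rA2 S H hp5 hq hMz hz' (qa_ne S hMz ha) (qb_ne S hMz hb) hτ hρ hμ hn hnodd hμ0 d hl' hl0 hbig
      x y hxy
  · refine rss S H hp5 hq h1τ ?_ dd
    have hτ0 : S.red τ ≠ 0 := by
      refine S.ne_mul (y := -τ) (n := n) ?_ hpn
      linear_combination -hτ
    intro h
    have e1 : S.red (1 + τ) ^ p = 1 + S.red τ ^ p := by
      rw [map_add, map_one, add_pow_char, one_pow]
    rw [e1, hτp, map_add, map_one] at h
    have : (2 : k) * S.red τ = 0 := by linear_combination -h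
    exact (mul_ne_zero h2k hτ0) this

include S in
/-- type B -/
theorem tB (H : Hyp) [IsAlgClosed k] (hp5 : 5 ≤ p) (hq : S.q = (p : O)) {z ρ μ : O} {M : ℤ} {l : ℕ}
    (hMz : (M : O) * (z * (1 - z)) = 64) (hρ : ρ ^ 2 = -2)
    (hμ : μ ^ 2 = l)
    (d : Dat S (cub (qa z) (qb z)) (qa (1 - z)) (qb (1 - z)) μ l) (hl : ¬ (p : ℤ) ∣ 2 * l) :
    (S.red z = S.red z ^ p → ¬ (p : ℤ) ∣ 46656 * (144 + M) → ¬ (p : ℤ) ∣ 1492992 * (648 - M) →
      32 * l < p ^ 2 → ∀ x y : ℤ, (p : ℤ) = x ^ 2 + (2 * l) * y ^ 2 → RelO p z) ∧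
    (S.red (1 - z) = S.red z ^ p → ¬ (p : ℤ) ∣ 46656 * (144 + M) → ¬ (p : ℤ) ∣ 1492992 * (648 - M) →
      32 * l < p ^ 2 → ∀ x y : ℤ, (p : ℤ) = 2 * x ^ 2 + l * y ^ 2 → RelO p z) ∧
    (S.red (μ * ρ) ^ p = -S.red (μ * ρ) → RelO p z) := by
  obtain ⟨hz, hz1⟩ := z_units S (p := p) (by omega) hMz
  have r2 := S.two_ne (p := p) (by omega)
  have r3 := S.three_ne (p := p) (by omega)
  have h2k : (2 : k) ≠ 0 := by rwa [map_ofNat] at r2
  have h3k : (3 : k) ≠ 0 := by rwa [map_ofNat] at r3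
  have dd := Dat.mu S (z := 1 - z) d h2k h3k hz1 hρ
  rw [sub_sub_cancel] at dd
  have hτ : (μ * ρ) ^ 2 = -((2 * l : ℕ) : O) := by
    push_cast
    linear_combination ρ ^ 2 * hμ + (l : O) * hρ
  have hτr : S.red (μ * ρ) ≠ 0 := by
    refine S.ne_mul (y := -(μ * ρ)) (n := 2 * l) ?_ hl
    push_cast at hτ ⊢; linear_combination -hτ
  have hτ0 : μ * ρ ≠ 0 := by intro h0; rw [h0, map_zero] at hτr; exact hτr rfl
  have hμ0 : μ ≠ 0 := by rintro rfl; rw [zero_mul] at hτ0; exact hτ0 rfl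
  have hl' : ¬ (p : ℤ) ∣ l := fun h => hl (h.mul_left 2)
  refine ⟨fun hz' ha hb hbig x y hxy => ?_, fun hz' ha hb hbig x y hxy => ?_, fun hτp => ?_⟩
  · exact rB1 S H hp5 hq hMz hz' (qa_ne S hMz ha) (qb_ne S hMz hb) hτ hτ0 dd
      (by push_cast; exact hl) (by omega) x y (by push_cast; exact hxy)
  · exact rB2 S H hp5 hq hMz hz' (qa_ne S hMz ha) (qb_ne S hMz hb) hρ hμ hμ0 d hl' hbig
      x y hxy
  · refine rss S H hp5 hq hτr ?_ dd
    intro h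
    rw [hτp] at h
    have : (2 : k) * S.red (μ * ρ) = 0 := by linear_combination -h
    exact (mul_ne_zero h2k hτr) this

include S in
/-- type C -/
theorem tC (H : Hyp) [IsAlgClosed k] (hp5 : 5 ≤ p) (hq : S.q = (p : O)) {z τ : O} {M : ℤ} {l : ℕ}
    (hMz : (M : O) * (z * (1 - z)) = 64) (hτ : τ ^ 2 = -(l : O))
    (d : Dat S (cub (qa z) (qb z)) (qa z) (qb z) τ l) (hl : ¬ (p : ℤ) ∣ l) :
    (S.red z = S.red z ^ p → S.red (qa z) ≠ 0 → S.red (qb z) ≠ 0 →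
      16 * l < p ^ 2 → ∀ x y : ℤ, (p : ℤ) = x ^ 2 + l * y ^ 2 → RelO p z) ∧
    (S.red τ ^ p = -S.red τ → RelO p z) := by
  have r2 := S.two_ne (p := p) (by omega)
  have h2k : (2 : k) ≠ 0 := by rwa [map_ofNat] at r2
  have hτr : S.red τ ≠ 0 := by
    refine S.ne_mul (y := -τ) (n := l) ?_ (by exact_mod_cast hl)
    push_cast; linear_combination -hτ
  have hτ0 : τ ≠ 0 := by intro h0; rw [h0, map_zero] at hτr; exact hτr rfl
  refine ⟨fun hz' ha hb hbig x y hxy => ?_, fun hτp => ?_⟩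
  · exact rB1 S H hp5 hq hMz hz' ha hb hτ hτ0 d hl hbig x y hxy
  · refine rss S H hp5 hq hτr ?_ d
    intro h
    rw [hτp] at h
    have : (2 : k) * S.red τ = 0 := by linear_combination -h
    exact (mul_ne_zero h2k hτr) this

end Pool.Agent.H546.AP
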