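import Pool.Agent.H546.APR
import Pool.Agent.H23.AP1
import Pool.Agent.H922.AP2
import Pool.Agent.H803.AP3
import Pool.Agent.H921.AP4
import Pool.Agent.H404.AP5
import Pool.Agent.H860.AP6
import Pool.Agent.H127.AP7
import Pool.Agent.H231.AP8
import Pool.Agent.H980.AP9
import Pool.Agent.H282.AP10
import Pool.Agent.H772.AP11

set_option autoImplicit false

/-!
# The lemmas together
-/

namespace Pool.Agent.H546.AP

theorem hyp : Hyp where
  J := Pool.Agent.H127.AP7.h_S_J
  b := Pool.Agent.H803.AP3.h_S_bode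
  t := Pool.Agent.H404.AP5.h_S_tode
  bT := Pool.Agent.H860.AP6.h_S_bT
  cs := Pool.Agent.H921.AP4.h_S_cser
  I := Pool.Agent.H231.AP.h_S_I
  F := Pool.Agent.H23.AP.h_S_F
  L := Pool.Agent.H922.AP2.h_S_L
  lin := Pool.Agent.H980.AP.h_S_lin
  mor := Pool.Agent.H772.AP11.h_S_mor
  form := Pool.Agent.H282.AP10.h_S_form

end Pool.Agent.H546.AP
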