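import Pool.Agent.H546.QCM

set_option autoImplicit false
set_option maxRecDepth 100000
set_option maxHeartbeats 4000000

/-!
# An explicit isogeny of degree 5
-/

namespace Pool.Agent.H546.I36

def u : List Q4 := [⟨.ofNat 6, .negSucc 3, .ofNat 3, .negSucc 1⟩, ⟨.negSucc 2, .ofNat 9, .negSucc 8, .negSucc 2⟩, ⟨.ofNat 6, .ofNat 0, .ofNat 0, .ofNat 0⟩]

def u1 : List Q4 := [⟨.negSucc 2, .ofNat 9, .negSucc 8, .negSucc 2⟩, ⟨.ofNat 12, .ofNat 0, .ofNat 0, .ofNat 0⟩]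

def h : List Q4 := [⟨.ofNat 45, .negSucc 25, .ofNat 0, .ofNat 0⟩, ⟨.negSucc 32, .ofNat 21, .negSucc 8, .ofNat 3⟩, ⟨.ofNat 12, .ofNat 0, .ofNat 6, .ofNat 0⟩]

def h1 : List Q4 := [⟨.negSucc 32, .ofNat 21, .negSucc 8, .ofNat 3⟩, ⟨.ofNat 24, .ofNat 0, .ofNat 12, .ofNat 0⟩]

def u2 : List Q4 := [⟨.ofNat 63, .negSucc 35, .ofNat 84, .negSucc 47⟩, ⟨.negSucc 233, .ofNat 114, .negSucc 161, .ofNat 102⟩, ⟨.ofNat 216, .negSucc 155, .negSucc 71, .negSucc 167⟩, ⟨.negSucc 35, .ofNat 108, .negSucc 107, .negSucc 35⟩, ⟨.ofNat 36, .ofNat 0, .ofNat 0, .ofNat 0⟩]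

def h2 : List Q4 := [⟨.ofNat 4053, .negSucc 2339, .ofNat 0, .ofNat 0⟩, ⟨.negSucc 6245, .ofNat 3606, .negSucc 1277, .ofNat 738⟩, ⟨.ofNat 3384, .negSucc 1955, .ofNat 1512, .negSucc 887⟩, ⟨.negSucc 683, .ofNat 468, .negSucc 611, .ofNat 324⟩, ⟨.ofNat 108, .ofNat 0, .ofNat 144, .ofNat 0⟩]

def u4 : List Q4 := [⟨.negSucc 6110, .ofNat 3528, .ofNat 20952, .negSucc 12095⟩, ⟨.ofNat 2484, .negSucc 1475, .negSucc 114587, .ofNat 66132⟩, ⟨.ofNat 60912, .negSucc 34199, .ofNat 254016, .negSucc 147599⟩, ⟨.negSucc 148391, .ofNat 94392, .negSucc 289655, .ofNat 181656⟩, ⟨.ofNat 112104, .negSucc 142559, .ofNat 235872, .negSucc 103679⟩, ⟨.negSucc 185327, .ofNat 24624, .negSucc 128303, .ofNat 22032⟩, ⟨.ofNat 36288, .negSucc 26783, .negSucc 20735, .negSucc 32831⟩, ⟨.negSucc 2591, .ofNat 7776, .negSucc 7775, .negSucc 2591⟩, ⟨.ofNat 1296, .ofNat 0, .ofNat 0, .ofNat 0⟩]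

def uh2 : List Q4 := [⟨.ofNat 508059, .negSucc 293327, .ofNat 677412, .negSucc 391103⟩, ⟨.negSucc 2318003, .ofNat 1338300, .negSucc 2576771, .ofNat 1487700⟩, ⟨.ofNat 4402080, .negSucc 2541527, .ofNat 4311360, .negSucc 2489183⟩, ⟨.negSucc 4600583, .ofNat 2656584, .negSucc 4176791, .ofNat 2412072⟩, ⟨.ofNat 2904984, .negSucc 1684799, .ofNat 2580768, .negSucc 1486079⟩, ⟨.negSucc 1162511, .ofNat 650160, .negSucc 1064015, .ofNat 585360⟩, ⟨.ofNat 300672, .negSucc 140831, .ofNat 228096, .negSucc 176255⟩, ⟨.negSucc 12959, .ofNat 33696, .negSucc 38879, .ofNat 23328⟩, ⟨.ofNat 3888, .ofNat 0, .ofNat 5184, .ofNat 0⟩]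

def h4 : List Q4 := [⟨.ofNat 32853609, .negSucc 18968039, .ofNat 0, .ofNat 0⟩, ⟨.negSucc 101258315, .ofNat 58461516, .negSucc 20720987, .ofNat 11963268⟩, ⟨.ofNat 129647952, .negSucc 74852279, .ofNat 56655936, .negSucc 32710319⟩, ⟨.negSucc 88911431, .ofNat 51333048, .negSucc 64921175, .ofNat 37482264⟩, ⟨.ofNat 34824168, .negSucc 20106143, .ofNat 40297824, .negSucc 23265791⟩, ⟨.negSucc 7525871, .ofNat 4342896, .negSucc 14581295, .ofNat 8414928⟩, ⟨.ofNat 730944, .negSucc 410399, .ofNat 3048192, .negSucc 1771199⟩, ⟨.ofNat 28512, .ofNat 7776, .negSucc 329183, .ofNat 204768⟩, ⟨.negSucc 9071, .ofNat 0, .ofNat 31104, .ofNat 0⟩]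

def a0 : List Q4 := [⟨.ofNat 582, .negSucc 335, .ofNat 291, .negSucc 167⟩, ⟨.negSucc 1241, .ofNat 714, .negSucc 485, .ofNat 282⟩, ⟨.ofNat 936, .negSucc 551, .ofNat 288, .negSucc 227⟩, ⟨.negSucc 179, .ofNat 252, .negSucc 179, .ofNat 36⟩, ⟨.ofNat 72, .ofNat 0, .ofNat 36, .ofNat 0⟩]

def a1 : List Q4 := [⟨.negSucc 836, .ofNat 483, .negSucc 170, .ofNat 99⟩, ⟨.ofNat 1152, .negSucc 671, .ofNat 216, .negSucc 179⟩, ⟨.negSucc 377, .ofNat 378, .negSucc 233, .ofNat 54⟩, ⟨.ofNat 144, .ofNat 0, .ofNat 72, .ofNat 0⟩]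

def a2 : List Q4 := [⟨.negSucc 404, .ofNat 231, .negSucc 314, .ofNat 183⟩, ⟨.ofNat 720, .negSucc 431, .ofNat 360, .negSucc 275⟩, ⟨.negSucc 161, .ofNat 378, .negSucc 305, .ofNat 54⟩, ⟨.ofNat 144, .ofNat 0, .ofNat 72, .ofNat 0⟩]

def W : List Q4 := [⟨.ofNat 582, .negSucc 335, .ofNat 291, .negSucc 167⟩, ⟨.negSucc 2105, .ofNat 1218, .negSucc 197, .ofNat 114⟩, ⟨.ofNat 1800, .negSucc 1031, .ofNat 0, .negSucc 35⟩, ⟨.negSucc 611, .ofNat 252, .negSucc 35, .ofNat 36⟩, ⟨.ofNat 72, .ofNat 0, .ofNat 36, .ofNat 0⟩]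

def W2 : List Q4 := [⟨.ofNat 508059, .negSucc 293327, .ofNat 677412, .negSucc 391103⟩, ⟨.negSucc 4676723, .ofNat 2700108, .negSucc 2913731, .ofNat 1682244⟩, ⟨.ofNat 12947040, .negSucc 7474967, .ofNat 3827520, .negSucc 2209823⟩, ⟨.negSucc 16261991, .ofNat 9388872, .negSucc 2406455, .ofNat 1389096⟩, ⟨.ofNat 10874520, .negSucc 6281279, .ofNat 1136160, .negSucc 656639⟩, ⟨.negSucc 4044815, .ofNat 2334960, .negSucc 587087, .ofNat 352080⟩, ⟨.ofNat 819072, .negSucc 451871, .ofNat 228096, .negSucc 141695⟩, ⟨.negSucc 85535, .ofNat 33696, .negSucc 49247, .ofNat 23328⟩, ⟨.ofNat 3888, .ofNat 0, .ofNat 5184, .ofNat 0⟩]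

def T1 : List Q4 := [⟨.ofNat 12256596, .negSucc 7076348, .ofNat 16342128, .negSucc 9435131⟩, ⟨.negSucc 125016371, .ofNat 72178236, .negSucc 86549795, .ofNat 49969548⟩, ⟨.ofNat 427628538, .negSucc 246891455, .ofNat 166330584, .negSucc 96031007⟩, ⟨.negSucc 731099519, .ofNat 422100288, .negSucc 167391359, .ofNat 96643584⟩, ⟨.ofNat 730371168, .negSucc 421679735, .ofNat 108143424, .negSucc 62430047⟩, ⟨.negSucc 456132383, .ofNat 263417184, .negSucc 56145311, .ofNat 32428512⟩, ⟨.ofNat 181640880, .negSucc 104882687, .ofNat 26619840, .negSucc 15686783⟩, ⟨.negSucc 45660671, .ofNat 25857792, .negSucc 10077695, .ofNat 6137856⟩, ⟨.ofNat 7013952, .negSucc 3547151, .ofNat 2612736, .negSucc 1446335⟩, ⟨.negSucc 606527, .ofNat 202176, .negSucc 419903, .ofNat 139968⟩, ⟨.ofNat 23328, .ofNat 0, .ofNat 31104, .ofNat 0⟩]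

def S1 : List Q4 := [⟨.ofNat 4085532, .negSucc 2358782, .ofNat 0, .ofNat 0⟩, ⟨.negSucc 28849931, .ofNat 16656516, .ofNat 9616644, .negSucc 5552171⟩, ⟨.ofNat 77928318, .negSucc 44991935, .negSucc 48460895, .ofNat 27978912⟩, ⟨.negSucc 114514559, .ofNat 66115008, .ofNat 96888960, .negSucc 55938815⟩, ⟨.ofNat 104947488, .negSucc 60590375, .negSucc 103882175, .ofNat 59977152⟩, ⟨.negSucc 63719135, .ofNat 36798624, .ofNat 66243744, .negSucc 38255327⟩, ⟨.ofNat 26056080, .negSucc 15095807, .negSucc 25868159, .ofNat 14898816⟩, ⟨.negSucc 7091711, .ofNat 4084992, .ofNat 6096384, .negSucc 3400703⟩, ⟨.ofNat 1259712, .negSucc 657071, .negSucc 808703, .ofNat 393984⟩, ⟨.negSucc 139967, .ofNat 46656, .ofNat 46656, .negSucc 15551⟩, ⟨.ofNat 7776, .ofNat 0, .ofNat 0, .ofNat 0⟩]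

def T2 : List Q4 := [⟨.ofNat 16342128, .negSucc 9435131, .negSucc 12256595, .ofNat 7076349⟩, ⟨.negSucc 86549795, .ofNat 49969548, .ofNat 125016372, .negSucc 72178235⟩, ⟨.ofNat 166330584, .negSucc 96031007, .negSucc 427628537, .ofNat 246891456⟩, ⟨.negSucc 167391359, .ofNat 96643584, .ofNat 731099520, .negSucc 422100287⟩, ⟨.ofNat 108143424, .negSucc 62430047, .negSucc 730371167, .ofNat 421679736⟩, ⟨.negSucc 56145311, .ofNat 32428512, .ofNat 456132384, .negSucc 263417183⟩, ⟨.ofNat 26619840, .negSucc 15686783, .negSucc 181640879, .ofNat 104882688⟩, ⟨.negSucc 10077695, .ofNat 6137856, .ofNat 45660672, .negSucc 25857791⟩, ⟨.ofNat 2612736, .negSucc 1446335, .negSucc 7013951, .ofNat 3547152⟩, ⟨.negSucc 419903, .ofNat 139968, .ofNat 606528, .negSucc 202175⟩, ⟨.ofNat 31104, .ofNat 0, .negSucc 23327, .ofNat 0⟩]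

def A : List Q4 := [⟨.negSucc 35, .negSucc 4, .ofNat 27, .ofNat 0⟩, ⟨.negSucc 56, .negSucc 38, .negSucc 50, .negSucc 26⟩]

def B : List Q4 := [⟨.ofNat 93, .ofNat 50, .negSucc 65, .negSucc 36⟩, ⟨.ofNat 33, .ofNat 21, .ofNat 9, .ofNat 3⟩]

def κ : Q4 := ⟨0, 0, -1, 0⟩

def m2 : Q4 := ⟨4, 0, -3, 0⟩

def zl : Q4 := ⟨12, -7, 0, 0⟩

def zl' : Q4 := ⟨12, 7, 0, 0⟩

def c1 : Q4 := ⟨0, 0, 24, 0⟩

def c2 : Q4 := ⟨-12, -7, 0, 0⟩

def κi : Q4 := ⟨0, 0, 1, 0⟩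

def h0i : Q4 := ⟨.negSucc 44, .negSucc 25, .ofNat 0, .ofNat 0⟩

theorem ok : IsoOk (3) (-1) κ m2 zl zl' c1 c2 (6) (48) u u1 h h1 u2 h2 u4 uh2 h4 a0 a1 a2 W W2 T1 S1 T2 A B where
  k1 := by decide +kernel
  k2 := by decide +kernel
  k3 := by decide +kernel
  k4 := by decide +kernel
  k5 := by decide +kernel
  k6 := by decide +kernel
  k7 := by decide +kernel
  k8 := by decide +kernel
  k9 := by decide +kernel
  k10 := by decide +kernel
  k11 := by decide +kernel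
  k12 := by decide +kernel
  k13 := by decide +kernel
  k14 := by decide +kernel
  k15 := by decide +kernel
  k16 := by decide +kernel
  k17 := by decide +kernel
  k18 := by decide +kernel
  k19 := by decide +kernel

/-- the isogeny -/
theorem psi {O K k : Type*} [CommRing O] [IsDomain O] [Field K] [Algebra O K] [Field k]
    (S : DV O K k) {p : ℕ} [hp : Fact p.Prime] [CharP k p] (h2 : p ≠ 2) (h3 : p ≠ 3)
    {s r z m : O} (hs : s ^ 2 = 3) (hr : r ^ 2 = -1) (hz : 24 * z = 12 - 7 * s) (hm : m ^ 2 = 4 - 3 * r) :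
    Dat S (cub (qa z) (qb z)) (qa (1 - z)) (qb (1 - z)) m 5 := by
  have hs' : s ^ 2 = ((3 : ℤ) : O) := by rw [hs]; norm_num
  have hr' : r ^ 2 = ((-1 : ℤ) : O) := by rw [hr]; norm_num
  refine Dat.of_isoN (e := 2) S ok hs' hr' h3 (κi := κi) (h0i := h0i) (L := 6) (Nκ := 1) (Nh := 3)
    ?_ ?_ ?_ (by decide) (by decide) (by decide +kernel) (by decide +kernel) (by decide +kernel)
    (ndvd_fac [(2, 1), (3, 1)] (by intro q hq; simp only [List.mem_cons, List.mem_nil_iff, or_false] at hq; rcases hq with rfl | rfl <;> refine ⟨by norm_num, ?_⟩ <;> assumption) (by decide +kernel))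
    (ndvd_fac [(2, 1), (3, 1)] (by intro q hq; simp only [List.mem_cons, List.mem_nil_iff, or_false] at hq; rcases hq with rfl | rfl <;> refine ⟨by norm_num, ?_⟩ <;> assumption) (by decide +kernel))
    (ndvd_fac [] (by simp) (by decide +kernel))
    (ndvd_fac [(3, 1)] (by intro q hq; simp only [List.mem_cons, List.mem_nil_iff, or_false] at hq; rcases hq with rfl <;> refine ⟨by norm_num, ?_⟩ <;> assumption) (by decide +kernel))
    (ndvd_fac [(2, 4), (3, 1)] (by intro q hq; simp only [List.mem_cons, List.mem_nil_iff, or_false] at hq; rcases hq with rfl | rfl <;> refine ⟨by norm_num, ?_⟩ <;> assumption) (by decide +kernel))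
  · simp only [e4, zl]; push_cast; linear_combination hz
  · simp only [e4, zl']; push_cast; linear_combination -hz
  · rw [hm]; simp only [e4, m2]; push_cast; ring


end Pool.Agent.H546.I36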