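import Pool.Agent.H546.QTy
import Pool.Agent.H546.I36

set_option autoImplicit false

/-!
# The sum with denominator `-12288` (discriminant `-36`)
-/

namespace Pool.Agent.H546

open Finset
open Pool.Agent.Q267.CDE (R)

theorem leg3_12 (p : ℕ) [hp : Fact p.Prime] (h3 : 3 < p) (h4 : p % 4 = 1) :
    legendreSym p 3 = if p % 3 = 1 then 1 else -1 := by
  have hp2 : p ≠ 2 := by omega
  have h1 := legm3 (p := p) hp2 (by omega)
  have h2 : legendreSym p (-3) = legendreSym p (-1) * legendreSym p 3 := by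
    rw [← legendreSym.mul]; norm_num
  have h5 : legendreSym p (-1) = 1 := by
    rw [legendreSym.at_neg_one hp2, ZMod.χ₄_nat_one_mod_four h4]
  rw [h5, one_mul] at h2
  rw [← h2, h1]

theorem d36 (p : ℕ) [hp : Fact p.Prime] (h3' : 3 < p) {wi : R p} (hwi : ((-12288 : ℤ) : R p) * wi = 1) :
    (p % 12 = 1 → ∀ x y : ℤ, (p : ℤ) = x ^ 2 + 9 * y ^ 2 →
      ∑ k ∈ range p, (k.centralBinom : R p) * ((u4 k : ℕ) : R p) * wi ^ k = ((4 * x ^ 2 - 2 * p : ℤ) : R p)) ∧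
    (p % 12 = 5 → 5 < p → ∀ x y : ℤ, (2 * p : ℤ) = x ^ 2 + 9 * y ^ 2 →
      ∑ k ∈ range p, (k.centralBinom : R p) * ((u4 k : ℕ) : R p) * wi ^ k = ((2 * p - 2 * x ^ 2 : ℤ) : R p)) ∧
    (p % 4 = 3 →
      ∑ k ∈ range p, (k.centralBinom : R p) * ((u4 k : ℕ) : R p) * wi ^ k = ((0 : ℤ) : R p)) := by
  have h2 : p ≠ 2 := by omega
  have h3 : p ≠ 3 := by omega
  have hp5 : 5 ≤ p := by
    have : p ≠ 4 := by rintro rfl; exact absurd hp.out (by norm_num)
    omega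
  have nd : ∀ {n : ℤ} (l : List (ℕ × ℕ)), (∀ q ∈ l, q.1.Prime ∧ p ≠ q.1) →
      n.natAbs = (l.map fun q => q.1 ^ q.2).prod → ¬ (p : ℤ) ∣ n := fun l hl hn => ndvd_fac l hl hn
  obtain ⟨s, hs⟩ := wo_isqrt p h2 (d := 3) (nd [(3, 1)] (by simp; exact ⟨by norm_num, h3⟩) (by norm_num))
  obtain ⟨r, hr⟩ := wo_isqrt p h2 (d := -1) (nd [] (by simp) (by norm_num))
  obtain ⟨ρ, hρ⟩ := wo_isqrt p h2 (d := -2) (nd [(2, 1)] (by simp; exact ⟨by norm_num, h2⟩) (by norm_num))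
  push_cast at hs hr hρ
  have nN : ¬ (p : ℤ) ∣ 24 := nd [(2, 3), (3, 1)]
    (by simp; exact ⟨⟨by norm_num, h2⟩, ⟨by norm_num, h3⟩⟩) (by norm_num)
  have rN : (SW p).red ((24 : ℤ) : WO p) ≠ 0 := (SW p).int_ne nN
  obtain ⟨v, hv⟩ := ((SW p).unit_of_red rN).exists_right_inv
  obtain ⟨w, hw⟩ := ((SW p).unit_of_red ((SW p).two_ne (p := p) h2)).exists_right_inv
  push_cast at hv
  set z : WO p := v * (12 - 7 * s) with hz
  have hz1 : 24 * z = 12 - 7 * s := by rw [hz]; linear_combination (12 - 7 * s) * hv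
  have hN0 : (24 : WO p) ≠ 0 := by
    intro h0; rw [h0, zero_mul] at hv; exact zero_ne_one hv
  have hMz : ((-12288 : ℤ) : WO p) * (z * (1 - z)) = 64 := by
    apply mul_left_cancel₀ hN0
    apply mul_left_cancel₀ hN0
    push_cast
    linear_combination (-12288 * (24 * (1 - z))) * hz1 + (12288 * (12 - 7 * s)) * hz1 +
      (12288 * 7 ^ 2) * hs
  set μ : WO p := -(w * ((1 + 3 * r) * ρ)) with hμd
  have hμ : 2 * μ = -((1 + 3 * r) * ρ) := by rw [hμd]; linear_combination (-((1 + 3 * r) * ρ)) * hw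
  have h2O : (2 : WO p) ≠ 0 := by intro h0; rw [h0, zero_mul] at hw; exact zero_ne_one hw
  have hτ : (3 * r) ^ 2 = -((9 : ℤ) : WO p) := by push_cast; linear_combination 9 * hr
  have hm2 : μ ^ 2 = 4 - 3 * r := by
    apply mul_left_cancel₀ h2O
    apply mul_left_cancel₀ h2O
    push_cast at hτ
    linear_combination (2 * μ - (1 + 3 * r) * ρ) * hμ + (1 + 3 * r) ^ 2 * hρ - 2 * hτ
  have d := I36.psi (SW p) h2 h3 hs hr hz1 hm2
  have hM : ¬ (p : ℤ) ∣ -12288 := nd [(2, 12), (3, 1)]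
    (by simp; exact ⟨⟨by norm_num, h2⟩, ⟨by norm_num, h3⟩⟩) (by norm_num)
  have hz1' : ((24 : ℤ) : WO p) * z = (12 : ℤ) - (7 : ℤ) * s := by push_cast; exact hz1
  obtain ⟨f1, f2⟩ := frob_z (SW p) h2 nN hz1' (d := 3) (by push_cast; exact hs) (by norm_num)
  have h9' : ¬ (p : ℤ) ∣ 9 := nd [(3, 2)] (by simp; exact ⟨by norm_num, h3⟩) (by norm_num)
  by_cases h5 : p = 5
  · subst h5
    exact ⟨fun h => absurd h (by norm_num), fun _ h => absurd h (by norm_num), fun h => absurd h (by norm_num)⟩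
  have hl : ¬ (p : ℤ) ∣ 2 * (5 : ℕ) := nd [(2, 1), (5, 1)]
    (by simp; exact ⟨⟨by norm_num, h2⟩, ⟨by norm_num, h5⟩⟩) (by norm_num)
  obtain ⟨m1, m2, m3⟩ := typeA (SW p) hp5 (SW_q p) (n := 9) hM hMz hτ hρ hμ (by norm_num) (by norm_num) d
    (by norm_num) hl hwi
  have hab : p % 4 = 1 → ¬ (p : ℤ) ∣ 46656 * (144 + -12288) ∧
      ¬ (p : ℤ) ∣ 1492992 * (648 - -12288) := by
    intro h1
    have e7 : p ≠ 7 := by omega
    have e11 : p ≠ 11 := by omega
    have e23 : p ≠ 23 := by omega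
    constructor
    · exact nd [(2, 10), (3, 7), (11, 1), (23, 1)]
        (by simp; exact ⟨⟨by norm_num, h2⟩, ⟨by norm_num, h3⟩, ⟨by norm_num, e11⟩, ⟨by norm_num, e23⟩⟩) (by norm_num)
    · exact nd [(2, 14), (3, 7), (7, 2), (11, 1)]
        (by simp; exact ⟨⟨by norm_num, h2⟩, ⟨by norm_num, h3⟩, ⟨by norm_num, e7⟩, ⟨by norm_num, e11⟩⟩) (by norm_num)
  have hbig : 12 < p → 32 * 5 < p ^ 2 := by intro h; nlinarith
  refine ⟨fun hc x y hxy => ?_, fun hc h5 x y hxy => ?_, fun hc => ?_⟩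
  · obtain ⟨ha, hb⟩ := hab (by omega)
    exact m1 (f1 (by rw [leg3_12 p h3' (by omega), if_pos (by omega)])) ha hb (hbig (by omega)) x y hxy
  · obtain ⟨ha, hb⟩ := hab (by omega)
    exact m2 (f2 (by rw [leg3_12 p h3' (by omega), if_neg (by omega)])) ha hb (hbig (by omega)) x y hxy
  · rw [Int.cast_zero]
    refine m3 ?_ h9'
    have := (SW p).frob_sq h2 (d := -9) (y := 3 * r) (by rw [hτ]; push_cast; ring)
    have hleg : legendreSym p (-9) = -1 := by
      have e1 : legendreSym p (-9) = legendreSym p (-1) * legendreSym p (3 ^ 2) := by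
        rw [← legendreSym.mul]; norm_num
      have e2 : legendreSym p (3 ^ 2) = 1 := by
        refine legendreSym.sq_one' p ?_
        intro h0
        apply nd (n := 3) [(3, 1)] (by simp; exact ⟨by norm_num, h3⟩) (by norm_num)
        exact (ZMod.intCast_zmod_eq_zero_iff_dvd 3 p).mp (by exact_mod_cast h0)
      rw [e1, e2, mul_one, legendreSym.at_neg_one h2, ZMod.χ₄_nat_three_mod_four hc]
    rw [this, hleg]; push_cast; ring

end Pool.Agent.H546
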