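import Pool.Agent.H546.APR
import Pool.Agent.H546.F36

set_option autoImplicit false

/-!
# Legendre symbols from representations, and two small isogenies
-/

namespace Pool.Agent.H546.AP

variable {p : ℕ} [hp : Fact p.Prime]

theorem sq8 (x : ℤ) : x ^ 2 % 8 = 0 ∨ x ^ 2 % 8 = 1 ∨ x ^ 2 % 8 = 4 := by
  have h : x % 8 = 0 ∨ x % 8 = 1 ∨ x % 8 = 2 ∨ x % 8 = 3 ∨ x % 8 = 4 ∨ x % 8 = 5 ∨ x % 8 = 6 ∨ x % 8 = 7 := by omega
  rcases h with h | h | h | h | h | h | h | h <;> simp [pow_two, Int.mul_emod, h]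

theorem sq3 (x : ℤ) : x ^ 2 % 3 = 0 ∨ x ^ 2 % 3 = 1 := by
  have h : x % 3 = 0 ∨ x % 3 = 1 ∨ x % 3 = 2 := by omega
  rcases h with h | h | h <;> simp [pow_two, Int.mul_emod, h]

theorem leg2_one (h41 : 41 ≤ p) {x y c : ℤ} (hc : c % 8 = 6) (h : (p : ℤ) = x ^ 2 + c * y ^ 2) :
    legendreSym p 2 = 1 := by
  have hp2 : p ≠ 2 := by omega
  rw [legendreSym.at_two hp2, ZMod.χ₈_nat_eq_if_mod_eight]
  have hodd : p % 2 = 1 := hp.out.eq_two_or_odd.resolve_left hp2
  obtain ⟨m, hm⟩ : ∃ m, c = 8 * m + 6 := ⟨c / 8, by omega⟩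
  have h1 : (p : ℤ) = x ^ 2 + 8 * (m * y ^ 2) + 6 * y ^ 2 := by rw [h, hm]; ring
  have hx := sq8 x
  have hy := sq8 y
  rw [if_neg (by omega), if_pos (by omega)]

theorem leg2_neg (h41 : 41 ≤ p) {x y c : ℤ} (hc : c % 8 = 3) (h : (p : ℤ) = 2 * x ^ 2 + c * y ^ 2) :
    legendreSym p 2 = -1 := by
  have hp2 : p ≠ 2 := by omega
  rw [legendreSym.at_two hp2, ZMod.χ₈_nat_eq_if_mod_eight]
  have hodd : p % 2 = 1 := hp.out.eq_two_or_odd.resolve_left hp2
  obtain ⟨m, hm⟩ : ∃ m, c = 8 * m + 3 := ⟨c / 8, by omega⟩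
  have h1 : (p : ℤ) = 2 * x ^ 2 + 8 * (m * y ^ 2) + 3 * y ^ 2 := by rw [h, hm]; ring
  have hx := sq8 x
  have hy := sq8 y
  rw [if_neg (by omega), if_neg (by omega)]

theorem leg6_eq (h41 : 41 ≤ p) (h8 : p % 8 = 1 ∨ p % 8 = 3) :
    legendreSym p 6 = if p % 3 = 1 then 1 else -1 := by
  have hp2 : p ≠ 2 := by omega
  have e : legendreSym p 6 = legendreSym p (-2) * legendreSym p (-3) := by
    rw [← legendreSym.mul]; norm_num
  rw [e, legendreSym.at_neg_two hp2, ZMod.χ₈'_nat_eq_if_mod_eight, if_neg (by omega), if_pos h8, one_mul,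
    legm3 hp2 (by omega)]

theorem p3 (h41 : 41 ≤ p) : p % 3 ≠ 0 := by
  intro h0
  have := (Nat.prime_dvd_prime_iff_eq Nat.prime_three hp.out).mp (Nat.dvd_of_mod_eq_zero h0)
  omega

theorem leg6_one (h41 : 41 ≤ p) {x y : ℤ} (h : (p : ℤ) = x ^ 2 + 18 * y ^ 2) : legendreSym p 6 = 1 := by
  have hodd : p % 2 = 1 := hp.out.eq_two_or_odd.resolve_left (by omega)
  have hx := sq8 x
  have hy := sq8 y
  have hx3 := sq3 x
  have h3 := p3 h41
  rw [leg6_eq h41 (by omega), if_pos (by omega)]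

theorem leg6_neg (h41 : 41 ≤ p) {x y : ℤ} (h : (p : ℤ) = 2 * x ^ 2 + 9 * y ^ 2) : legendreSym p 6 = -1 := by
  have hodd : p % 2 = 1 := hp.out.eq_two_or_odd.resolve_left (by omega)
  have hx := sq8 x
  have hy := sq8 y
  have hx3 := sq3 x
  have h3 := p3 h41
  rw [leg6_eq h41 (by omega), if_neg (by omega)]

theorem leg3_one (h41 : 41 ≤ p) {x y : ℤ} (h : (p : ℤ) = x ^ 2 + 9 * y ^ 2) : legendreSym p 3 = 1 := by
  have hodd : p % 2 = 1 := hp.out.eq_two_or_odd.resolve_left (by omega)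
  have hx := sq8 x
  have hy := sq8 y
  have hx3 := sq3 x
  have h3 := p3 h41
  rw [leg3_12 p (by omega) (by omega), if_pos (by omega)]

theorem leg3_neg (h41 : 41 ≤ p) {x y : ℤ} (h : (2 * p : ℤ) = x ^ 2 + 9 * y ^ 2) : legendreSym p 3 = -1 := by
  have hodd : p % 2 = 1 := hp.out.eq_two_or_odd.resolve_left (by omega)
  have hx := sq8 x
  have hy := sq8 y
  have hx3 := sq3 x
  have h3 := p3 h41
  rw [leg3_12 p (by omega) (by omega), if_neg (by omega)]

section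

open Polynomial

variable {O K k : Type*} [CommRing O] [IsDomain O] [Field K] [Algebra O K] [Field k]
  (S : DV O K k)

/-- multiplication by `i` on `y² = x³ + a x` -/
theorem Dat_i {f : O[X]} {a b m i : O} {l : ℕ} (h : Dat S f a b m l) (hb : b = 0) (hi : i ^ 2 = -1) :
    Dat S f a b (m * i) l := by
  subst hb
  obtain ⟨n, d, ode, hd, hdeg, hnl, copK, copk, hl⟩ := h
  have hiC : (C i : O[X]) ^ 2 = -1 := by rw [← C_pow, hi, C_neg, C_1]
  refine ⟨-n, d, ?_, hd, ?_, ?_, ?_, ?_, ?_⟩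
  · have e1 : wr (-n) d = -wr n d := by simp only [wr, derivative_neg]; ring
    have e2 : tgt a 0 (-n) d = -tgt a 0 n d := by simp only [tgt, C_0]; ring
    rw [e1, e2, C_mul]
    linear_combination ode + (C m ^ 2 * tgt a 0 n d) * hiC
  · rw [natDegree_neg]; exact hdeg
  · rw [natDegree_neg]; exact hnl
  · rw [Polynomial.map_neg]; exact copK.neg_left
  · rw [Polynomial.map_neg]; exact copk.neg_left
  · rw [Polynomial.map_neg, natDegree_neg, natDegree_neg]; exact hl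

/-- rational points are fixed by the Frobenius -/
theorem frob_rat {p : ℕ} [hp : Fact p.Prime] [CharP k p] (hp2 : p ≠ 2) {z : O} {N c : ℤ} (hN : ¬ (p : ℤ) ∣ N)
    (h : (N : O) * z = c) : S.red z = S.red z ^ p := by
  have hN' : (N : k) ≠ 0 := fun h0 => hN ((CharP.intCast_eq_zero_iff k p N).mp h0)
  have h1 : (N : O) * z = c + ((0 : ℤ) : O) * 1 := by rw [h]; push_cast; ring
  have e := S.frobq hp2 (d := 1) h1 (by push_cast; ring)
  have e0 : (N : k) * S.red z = c := by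
    have := congrArg S.red h
    simpa only [map_mul, map_intCast] using this
  apply mul_left_cancel₀ hN'
  rw [e, e0]; push_cast; ring

end

end Pool.Agent.H546.AP
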