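import Pool.Agent.H546.QCM

set_option autoImplicit false
set_option maxRecDepth 100000
set_option maxHeartbeats 4000000

/-!
# An explicit isogeny of degree 3
-/

namespace Pool.Agent.H546.I12

def u : List Q4 := [⟨.negSucc 5, .ofNat 0, .ofNat 0, .ofNat 0⟩, ⟨.ofNat 3, .ofNat 0, .ofNat 0, .ofNat 0⟩]

def u1 : List Q4 := [⟨.ofNat 3, .ofNat 0, .ofNat 0, .ofNat 0⟩]

def h : List Q4 := [⟨.ofNat 2, .ofNat 0, .ofNat 0, .ofNat 0⟩, ⟨.ofNat 3, .ofNat 0, .ofNat 0, .ofNat 0⟩]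

def h1 : List Q4 := [⟨.ofNat 3, .ofNat 0, .ofNat 0, .ofNat 0⟩]

def u2 : List Q4 := [⟨.ofNat 36, .ofNat 0, .ofNat 0, .ofNat 0⟩, ⟨.negSucc 35, .ofNat 0, .ofNat 0, .ofNat 0⟩, ⟨.ofNat 9, .ofNat 0, .ofNat 0, .ofNat 0⟩]

def h2 : List Q4 := [⟨.ofNat 4, .ofNat 0, .ofNat 0, .ofNat 0⟩, ⟨.ofNat 12, .ofNat 0, .ofNat 0, .ofNat 0⟩, ⟨.ofNat 9, .ofNat 0, .ofNat 0, .ofNat 0⟩]

def u4 : List Q4 := [⟨.ofNat 1296, .ofNat 0, .ofNat 0, .ofNat 0⟩, ⟨.negSucc 2591, .ofNat 0, .ofNat 0, .ofNat 0⟩, ⟨.ofNat 1944, .ofNat 0, .ofNat 0, .ofNat 0⟩, ⟨.negSucc 647, .ofNat 0, .ofNat 0, .ofNat 0⟩, ⟨.ofNat 81, .ofNat 0, .ofNat 0, .ofNat 0⟩]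

def uh2 : List Q4 := [⟨.ofNat 144, .ofNat 0, .ofNat 0, .ofNat 0⟩, ⟨.ofNat 288, .ofNat 0, .ofNat 0, .ofNat 0⟩, ⟨.negSucc 71, .ofNat 0, .ofNat 0, .ofNat 0⟩, ⟨.negSucc 215, .ofNat 0, .ofNat 0, .ofNat 0⟩, ⟨.ofNat 81, .ofNat 0, .ofNat 0, .ofNat 0⟩]

def h4 : List Q4 := [⟨.ofNat 16, .ofNat 0, .ofNat 0, .ofNat 0⟩, ⟨.ofNat 96, .ofNat 0, .ofNat 0, .ofNat 0⟩, ⟨.ofNat 216, .ofNat 0, .ofNat 0, .ofNat 0⟩, ⟨.ofNat 216, .ofNat 0, .ofNat 0, .ofNat 0⟩, ⟨.ofNat 81, .ofNat 0, .ofNat 0, .ofNat 0⟩]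

def a0 : List Q4 := [⟨.negSucc 11, .ofNat 0, .ofNat 0, .ofNat 0⟩, ⟨.negSucc 11, .ofNat 0, .ofNat 0, .ofNat 0⟩, ⟨.ofNat 9, .ofNat 0, .ofNat 0, .ofNat 0⟩]

def a1 : List Q4 := [⟨.ofNat 6, .ofNat 0, .ofNat 0, .ofNat 0⟩, ⟨.ofNat 9, .ofNat 0, .ofNat 0, .ofNat 0⟩]

def a2 : List Q4 := [⟨.negSucc 17, .ofNat 0, .ofNat 0, .ofNat 0⟩, ⟨.ofNat 9, .ofNat 0, .ofNat 0, .ofNat 0⟩]

def W : List Q4 := [⟨.negSucc 11, .ofNat 0, .ofNat 0, .ofNat 0⟩, ⟨.ofNat 36, .ofNat 0, .ofNat 0, .ofNat 0⟩, ⟨.ofNat 9, .ofNat 0, .ofNat 0, .ofNat 0⟩]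

def W2 : List Q4 := [⟨.ofNat 144, .ofNat 0, .ofNat 0, .ofNat 0⟩, ⟨.negSucc 863, .ofNat 0, .ofNat 0, .ofNat 0⟩, ⟨.ofNat 1080, .ofNat 0, .ofNat 0, .ofNat 0⟩, ⟨.ofNat 648, .ofNat 0, .ofNat 0, .ofNat 0⟩, ⟨.ofNat 81, .ofNat 0, .ofNat 0, .ofNat 0⟩]

def T1 : List Q4 := [⟨.negSucc 575, .ofNat 0, .ofNat 0, .ofNat 0⟩, ⟨.ofNat 1728, .ofNat 0, .ofNat 0, .ofNat 0⟩, ⟨.ofNat 6480, .ofNat 0, .ofNat 0, .ofNat 0⟩, ⟨.negSucc 18143, .ofNat 0, .ofNat 0, .ofNat 0⟩, ⟨.negSucc 4859, .ofNat 0, .ofNat 0, .ofNat 0⟩, ⟨.ofNat 972, .ofNat 0, .ofNat 0, .ofNat 0⟩, ⟨.ofNat 243, .ofNat 0, .ofNat 0, .ofNat 0⟩]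

def S1 : List Q4 := [⟨.negSucc 575, .ofNat 0, .ofNat 0, .ofNat 0⟩, ⟨.ofNat 1728, .ofNat 0, .ofNat 0, .ofNat 0⟩, ⟨.ofNat 6480, .ofNat 0, .ofNat 0, .ofNat 0⟩, ⟨.negSucc 18143, .ofNat 0, .ofNat 0, .ofNat 0⟩, ⟨.negSucc 4859, .ofNat 0, .ofNat 0, .ofNat 0⟩, ⟨.ofNat 972, .ofNat 0, .ofNat 0, .ofNat 0⟩, ⟨.ofNat 243, .ofNat 0, .ofNat 0, .ofNat 0⟩]

def T2 : List Q4 := [⟨.ofNat 1728, .ofNat 0, .ofNat 0, .ofNat 0⟩, ⟨.negSucc 5183, .ofNat 0, .ofNat 0, .ofNat 0⟩, ⟨.negSucc 19439, .ofNat 0, .ofNat 0, .ofNat 0⟩, ⟨.ofNat 54432, .ofNat 0, .ofNat 0, .ofNat 0⟩, ⟨.ofNat 14580, .ofNat 0, .ofNat 0, .ofNat 0⟩, ⟨.negSucc 2915, .ofNat 0, .ofNat 0, .ofNat 0⟩, ⟨.negSucc 728, .ofNat 0, .ofNat 0, .ofNat 0⟩]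

def A : List Q4 := [⟨.negSucc 0, .ofNat 0, .ofNat 0, .ofNat 0⟩]

def B : List Q4 := [⟨.ofNat 1, .ofNat 0, .ofNat 0, .ofNat 0⟩]

def κ : Q4 := ⟨-3, 0, 0, 0⟩

def m2 : Q4 := ⟨-3, 0, 0, 0⟩

def zl : Q4 := ⟨-4, 0, 0, 0⟩

def zl' : Q4 := ⟨-4, 0, 0, 0⟩

def c1 : Q4 := ⟨36, 0, 0, 0⟩

def c2 : Q4 := ⟨-36, 0, 0, 0⟩

def κi : Q4 := ⟨-1, 0, 0, 0⟩

def h0i : Q4 := ⟨.ofNat 1, .ofNat 0, .ofNat 0, .ofNat 0⟩

theorem ok : IsoOk (-3) (-1) κ m2 zl zl' c1 c2 (3) (8) u u1 h h1 u2 h2 u4 uh2 h4 a0 a1 a2 W W2 T1 S1 T2 A B where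
  k1 := by decide +kernel
  k2 := by decide +kernel
  k3 := by decide +kernel
  k4 := by decide +kernel
  k5 := by decide +kernel
  k6 := by decide +kernel
  k7 := by decide +kernel
  k8 := by decide +kernel
  k9 := by decide +kernel
  k10 := by decide +kernel
  k11 := by decide +kernel
  k12 := by decide +kernel
  k13 := by decide +kernel
  k14 := by decide +kernel
  k15 := by decide +kernel
  k16 := by decide +kernel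
  k17 := by decide +kernel
  k18 := by decide +kernel
  k19 := by decide +kernel

/-- the isogeny -/
theorem psi {O K k : Type*} [CommRing O] [IsDomain O] [Field K] [Algebra O K] [Field k]
    (S : DV O K k) {p : ℕ} [hp : Fact p.Prime] [CharP k p] (h2 : p ≠ 2) (h3 : p ≠ 3)
    {s r z m : O} (hs : s ^ 2 = -3) (hr : r ^ 2 = -1) (hz : 12 * z = -4) (hm : m ^ 2 = -3) :
    Dat S (cub (qa z) (qb z)) (qa z) (qb z) m 3 := by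
  have hs' : s ^ 2 = ((-3 : ℤ) : O) := by rw [hs]; norm_num
  have hr' : r ^ 2 = ((-1 : ℤ) : O) := by rw [hr]; norm_num
  refine Dat.of_isoN (e := 1) S ok hs' hr' h3 (κi := κi) (h0i := h0i) (L := 3) (Nκ := 3) (Nh := 2)
    ?_ ?_ ?_ (by decide) (by decide) (by decide +kernel) (by decide +kernel) (by decide +kernel)
    (ndvd_fac [(3, 1)] (by intro q hq; simp only [List.mem_cons, List.mem_nil_iff, or_false] at hq; rcases hq with rfl <;> refine ⟨by norm_num, ?_⟩ <;> assumption) (by decide +kernel))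
    (ndvd_fac [(3, 1)] (by intro q hq; simp only [List.mem_cons, List.mem_nil_iff, or_false] at hq; rcases hq with rfl <;> refine ⟨by norm_num, ?_⟩ <;> assumption) (by decide +kernel))
    (ndvd_fac [(3, 1)] (by intro q hq; simp only [List.mem_cons, List.mem_nil_iff, or_false] at hq; rcases hq with rfl <;> refine ⟨by norm_num, ?_⟩ <;> assumption) (by decide +kernel))
    (ndvd_fac [(2, 1)] (by intro q hq; simp only [List.mem_cons, List.mem_nil_iff, or_false] at hq; rcases hq with rfl <;> refine ⟨by norm_num, ?_⟩ <;> assumption) (by decide +kernel))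
    (ndvd_fac [(2, 3)] (by intro q hq; simp only [List.mem_cons, List.mem_nil_iff, or_false] at hq; rcases hq with rfl <;> refine ⟨by norm_num, ?_⟩ <;> assumption) (by decide +kernel))
  · simp only [e4, zl]; push_cast; linear_combination hz
  · simp only [e4, zl']; push_cast; linear_combination hz
  · rw [hm]; simp only [e4, m2]; push_cast; ring


end Pool.Agent.H546.I12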