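import Pool.Agent.H546.QCM

set_option autoImplicit false
set_option maxRecDepth 100000
set_option maxHeartbeats 4000000

/-!
# An explicit isogeny of degree 3
-/

namespace Pool.Agent.H546.I20

def u : List Q4 := [⟨.negSucc 0, .ofNat 1, .negSucc 0, .negSucc 0⟩, ⟨.ofNat 2, .ofNat 0, .ofNat 0, .ofNat 0⟩]

def u1 : List Q4 := [⟨.ofNat 2, .ofNat 0, .ofNat 0, .ofNat 0⟩]

def h : List Q4 := [⟨.ofNat 0, .ofNat 0, .ofNat 4, .negSucc 1⟩, ⟨.ofNat 1, .ofNat 1, .negSucc 0, .ofNat 1⟩]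

def h1 : List Q4 := [⟨.ofNat 1, .ofNat 1, .negSucc 0, .ofNat 1⟩]

def u2 : List Q4 := [⟨.ofNat 0, .negSucc 3, .negSucc 7, .ofNat 0⟩, ⟨.negSucc 3, .ofNat 4, .negSucc 3, .negSucc 3⟩, ⟨.ofNat 4, .ofNat 0, .ofNat 0, .ofNat 0⟩]

def h2 : List Q4 := [⟨.negSucc 35, .ofNat 16, .ofNat 0, .ofNat 0⟩, ⟨.ofNat 28, .negSucc 11, .negSucc 11, .ofNat 4⟩, ⟨.ofNat 0, .ofNat 4, .ofNat 8, .ofNat 0⟩]

def u4 : List Q4 := [⟨.ofNat 16, .ofNat 0, .ofNat 0, .ofNat 64⟩, ⟨.negSucc 223, .negSucc 31, .ofNat 224, .negSucc 31⟩, ⟨.ofNat 0, .negSucc 95, .negSucc 191, .ofNat 0⟩, ⟨.negSucc 31, .ofNat 32, .negSucc 31, .negSucc 31⟩, ⟨.ofNat 16, .ofNat 0, .ofNat 0, .ofNat 0⟩]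

def uh2 : List Q4 := [⟨.negSucc 319, .ofNat 144, .ofNat 288, .negSucc 127⟩, ⟨.ofNat 608, .negSucc 287, .negSucc 479, .ofNat 224⟩, ⟨.negSucc 479, .ofNat 192, .ofNat 256, .negSucc 191⟩, ⟨.ofNat 224, .negSucc 31, .negSucc 159, .ofNat 32⟩, ⟨.ofNat 0, .ofNat 16, .ofNat 32, .ofNat 0⟩]

def h4 : List Q4 := [⟨.ofNat 2576, .negSucc 1151, .ofNat 0, .ofNat 0⟩, ⟨.negSucc 3935, .ofNat 1760, .ofNat 1504, .negSucc 671⟩, ⟨.ofNat 1920, .negSucc 863, .negSucc 1727, .ofNat 768⟩, ⟨.negSucc 287, .ofNat 160, .ofNat 608, .negSucc 287⟩, ⟨.ofNat 16, .ofNat 0, .ofNat 0, .ofNat 64⟩]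

def a0 : List Q4 := [⟨.negSucc 5, .ofNat 2, .negSucc 13, .ofNat 6⟩, ⟨.ofNat 8, .ofNat 0, .ofNat 8, .negSucc 7⟩, ⟨.ofNat 2, .ofNat 2, .negSucc 1, .ofNat 2⟩]

def a1 : List Q4 := [⟨.ofNat 0, .ofNat 0, .ofNat 8, .negSucc 3⟩, ⟨.ofNat 2, .ofNat 2, .negSucc 1, .ofNat 2⟩]

def a2 : List Q4 := [⟨.ofNat 8, .ofNat 0, .ofNat 0, .negSucc 3⟩, ⟨.ofNat 2, .ofNat 2, .negSucc 1, .ofNat 2⟩]

def W : List Q4 := [⟨.negSucc 5, .ofNat 2, .negSucc 13, .ofNat 6⟩, ⟨.negSucc 7, .ofNat 0, .ofNat 24, .negSucc 7⟩, ⟨.ofNat 2, .ofNat 2, .negSucc 1, .ofNat 2⟩]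

def W2 : List Q4 := [⟨.negSucc 319, .ofNat 144, .ofNat 288, .negSucc 127⟩, ⟨.ofNat 1248, .negSucc 543, .negSucc 223, .ofNat 96⟩, ⟨.negSucc 991, .ofNat 448, .negSucc 255, .ofNat 64⟩, ⟨.ofNat 224, .negSucc 159, .negSucc 31, .ofNat 32⟩, ⟨.ofNat 0, .ofNat 16, .ofNat 32, .ofNat 0⟩]

def T1 : List Q4 := [⟨.negSucc 1359, .ofNat 608, .ofNat 1216, .negSucc 543⟩, ⟨.ofNat 6496, .negSucc 2911, .negSucc 2079, .ofNat 928⟩, ⟨.negSucc 9535, .ofNat 4208, .ofNat 352, .negSucc 127⟩, ⟨.ofNat 6464, .negSucc 2879, .ofNat 576, .negSucc 63⟩, ⟨.negSucc 1967, .ofNat 1120, .negSucc 63, .negSucc 95⟩, ⟨.ofNat 224, .negSucc 223, .negSucc 159, .ofNat 32⟩, ⟨.ofNat 0, .ofNat 16, .ofNat 32, .ofNat 0⟩]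

def S1 : List Q4 := [⟨.ofNat 608, .negSucc 271, .ofNat 0, .ofNat 0⟩, ⟨.negSucc 2079, .ofNat 928, .negSucc 927, .ofNat 416⟩, ⟨.ofNat 2416, .negSucc 1087, .ofNat 2048, .negSucc 895⟩, ⟨.negSucc 1471, .ofNat 704, .negSucc 1471, .ofNat 704⟩, ⟨.ofNat 608, .negSucc 239, .ofNat 384, .negSucc 255⟩, ⟨.negSucc 159, .ofNat 32, .negSucc 31, .ofNat 32⟩, ⟨.ofNat 16, .ofNat 0, .ofNat 0, .ofNat 0⟩]

def T2 : List Q4 := [⟨.ofNat 1216, .negSucc 543, .ofNat 1360, .negSucc 607⟩, ⟨.negSucc 2079, .ofNat 928, .negSucc 6495, .ofNat 2912⟩, ⟨.ofNat 352, .negSucc 127, .ofNat 9536, .negSucc 4207⟩, ⟨.ofNat 576, .negSucc 63, .negSucc 6463, .ofNat 2880⟩, ⟨.negSucc 63, .negSucc 95, .ofNat 1968, .negSucc 1119⟩, ⟨.negSucc 159, .ofNat 32, .negSucc 223, .ofNat 224⟩, ⟨.ofNat 32, .ofNat 0, .ofNat 0, .negSucc 15⟩]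

def A : List Q4 := [⟨.ofNat 1, .ofNat 0, .ofNat 0, .ofNat 1⟩]

def B : List Q4 := [⟨.negSucc 0, .ofNat 0, .negSucc 0, .ofNat 0⟩]

def κ : Q4 := ⟨0, 0, -1, 0⟩

def m2 : Q4 := ⟨2, 0, 0, -1⟩

def zl : Q4 := ⟨2, -1, 0, 0⟩

def zl' : Q4 := ⟨2, 1, 0, 0⟩

def c1 : Q4 := ⟨0, 0, 4, 0⟩

def c2 : Q4 := ⟨-2, -1, 0, 0⟩

def κi : Q4 := ⟨0, 0, 1, 0⟩

def h0i : Q4 := ⟨.ofNat 0, .ofNat 0, .ofNat 2, .ofNat 1⟩

theorem ok : IsoOk (5) (-1) κ m2 zl zl' c1 c2 (1) (8) u u1 h h1 u2 h2 u4 uh2 h4 a0 a1 a2 W W2 T1 S1 T2 A B where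
  k1 := by decide +kernel
  k2 := by decide +kernel
  k3 := by decide +kernel
  k4 := by decide +kernel
  k5 := by decide +kernel
  k6 := by decide +kernel
  k7 := by decide +kernel
  k8 := by decide +kernel
  k9 := by decide +kernel
  k10 := by decide +kernel
  k11 := by decide +kernel
  k12 := by decide +kernel
  k13 := by decide +kernel
  k14 := by decide +kernel
  k15 := by decide +kernel
  k16 := by decide +kernel
  k17 := by decide +kernel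
  k18 := by decide +kernel
  k19 := by decide +kernel

/-- the isogeny -/
theorem psi {O K k : Type*} [CommRing O] [IsDomain O] [Field K] [Algebra O K] [Field k]
    (S : DV O K k) {p : ℕ} [hp : Fact p.Prime] [CharP k p] (h2 : p ≠ 2) (h3 : p ≠ 3)
    {s r z m : O} (hs : s ^ 2 = 5) (hr : r ^ 2 = -1) (hz : 4 * z = 2 - s) (hm : m ^ 2 = 2 - (s * r)) :
    Dat S (cub (qa z) (qb z)) (qa (1 - z)) (qb (1 - z)) m 3 := by
  have hs' : s ^ 2 = ((5 : ℤ) : O) := by rw [hs]; norm_num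
  have hr' : r ^ 2 = ((-1 : ℤ) : O) := by rw [hr]; norm_num
  refine Dat.of_isoN (e := 1) S ok hs' hr' h3 (κi := κi) (h0i := h0i) (L := 2) (Nκ := 1) (Nh := 2)
    ?_ ?_ ?_ (by decide) (by decide) (by decide +kernel) (by decide +kernel) (by decide +kernel)
    (ndvd_fac [] (by simp) (by decide +kernel))
    (ndvd_fac [(2, 1)] (by intro q hq; simp only [List.mem_cons, List.mem_nil_iff, or_false] at hq; rcases hq with rfl <;> refine ⟨by norm_num, ?_⟩ <;> assumption) (by decide +kernel))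
    (ndvd_fac [] (by simp) (by decide +kernel))
    (ndvd_fac [(2, 1)] (by intro q hq; simp only [List.mem_cons, List.mem_nil_iff, or_false] at hq; rcases hq with rfl <;> refine ⟨by norm_num, ?_⟩ <;> assumption) (by decide +kernel))
    (ndvd_fac [(2, 3)] (by intro q hq; simp only [List.mem_cons, List.mem_nil_iff, or_false] at hq; rcases hq with rfl <;> refine ⟨by norm_num, ?_⟩ <;> assumption) (by decide +kernel))
  · simp only [e4, zl]; push_cast; linear_combination hz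
  · simp only [e4, zl']; push_cast; linear_combination -hz
  · rw [hm]; simp only [e4, m2]; push_cast; ring


end Pool.Agent.H546.I20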