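import Pool.Agent.H546.QCM

set_option autoImplicit false
set_option maxRecDepth 100000
set_option maxHeartbeats 4000000

/-!
# An explicit isogeny of degree 3
-/

namespace Pool.Agent.H546.I24

def u : List Q4 := [⟨.ofNat 0, .ofNat 3, .ofNat 0, .ofNat 0⟩, ⟨.ofNat 3, .ofNat 0, .ofNat 0, .ofNat 0⟩]

def u1 : List Q4 := [⟨.ofNat 3, .ofNat 0, .ofNat 0, .ofNat 0⟩]

def h : List Q4 := [⟨.negSucc 3, .ofNat 3, .ofNat 0, .ofNat 0⟩, ⟨.ofNat 3, .ofNat 0, .ofNat 0, .ofNat 0⟩]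

def h1 : List Q4 := [⟨.ofNat 3, .ofNat 0, .ofNat 0, .ofNat 0⟩]

def u2 : List Q4 := [⟨.ofNat 18, .ofNat 0, .ofNat 0, .ofNat 0⟩, ⟨.ofNat 0, .ofNat 18, .ofNat 0, .ofNat 0⟩, ⟨.ofNat 9, .ofNat 0, .ofNat 0, .ofNat 0⟩]

def h2 : List Q4 := [⟨.ofNat 34, .negSucc 23, .ofNat 0, .ofNat 0⟩, ⟨.negSucc 23, .ofNat 18, .ofNat 0, .ofNat 0⟩, ⟨.ofNat 9, .ofNat 0, .ofNat 0, .ofNat 0⟩]

def u4 : List Q4 := [⟨.ofNat 324, .ofNat 0, .ofNat 0, .ofNat 0⟩, ⟨.ofNat 0, .ofNat 648, .ofNat 0, .ofNat 0⟩, ⟨.ofNat 972, .ofNat 0, .ofNat 0, .ofNat 0⟩, ⟨.ofNat 0, .ofNat 324, .ofNat 0, .ofNat 0⟩, ⟨.ofNat 81, .ofNat 0, .ofNat 0, .ofNat 0⟩]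

def uh2 : List Q4 := [⟨.ofNat 612, .negSucc 431, .ofNat 0, .ofNat 0⟩, ⟨.negSucc 1295, .ofNat 936, .ofNat 0, .ofNat 0⟩, ⟨.ofNat 1116, .negSucc 647, .ofNat 0, .ofNat 0⟩, ⟨.negSucc 215, .ofNat 324, .ofNat 0, .ofNat 0⟩, ⟨.ofNat 81, .ofNat 0, .ofNat 0, .ofNat 0⟩]

def h4 : List Q4 := [⟨.ofNat 2308, .negSucc 1631, .ofNat 0, .ofNat 0⟩, ⟨.negSucc 3359, .ofNat 2376, .ofNat 0, .ofNat 0⟩, ⟨.ofNat 1836, .negSucc 1295, .ofNat 0, .ofNat 0⟩, ⟨.negSucc 431, .ofNat 324, .ofNat 0, .ofNat 0⟩, ⟨.ofNat 81, .ofNat 0, .ofNat 0, .ofNat 0⟩]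

def a0 : List Q4 := [⟨.ofNat 18, .negSucc 11, .ofNat 0, .ofNat 0⟩, ⟨.negSucc 11, .ofNat 18, .ofNat 0, .ofNat 0⟩, ⟨.ofNat 9, .ofNat 0, .ofNat 0, .ofNat 0⟩]

def a1 : List Q4 := [⟨.negSucc 11, .ofNat 9, .ofNat 0, .ofNat 0⟩, ⟨.ofNat 9, .ofNat 0, .ofNat 0, .ofNat 0⟩]

def a2 : List Q4 := [⟨.ofNat 0, .ofNat 9, .ofNat 0, .ofNat 0⟩, ⟨.ofNat 9, .ofNat 0, .ofNat 0, .ofNat 0⟩]

def W : List Q4 := [⟨.ofNat 18, .negSucc 11, .ofNat 0, .ofNat 0⟩, ⟨.negSucc 35, .ofNat 18, .ofNat 0, .ofNat 0⟩, ⟨.ofNat 9, .ofNat 0, .ofNat 0, .ofNat 0⟩]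

def W2 : List Q4 := [⟨.ofNat 612, .negSucc 431, .ofNat 0, .ofNat 0⟩, ⟨.negSucc 2159, .ofNat 1512, .ofNat 0, .ofNat 0⟩, ⟨.ofNat 2268, .negSucc 1511, .ofNat 0, .ofNat 0⟩, ⟨.negSucc 647, .ofNat 324, .ofNat 0, .ofNat 0⟩, ⟨.ofNat 81, .ofNat 0, .ofNat 0, .ofNat 0⟩]

def T1 : List Q4 := [⟨.ofNat 7128, .negSucc 5039, .ofNat 0, .ofNat 0⟩, ⟨.negSucc 32399, .ofNat 22896, .ofNat 0, .ofNat 0⟩, ⟨.ofNat 53460, .negSucc 37583, .ofNat 0, .ofNat 0⟩, ⟨.negSucc 40175, .ofNat 27216, .ofNat 0, .ofNat 0⟩, ⟨.ofNat 15066, .negSucc 8747, .ofNat 0, .ofNat 0⟩, ⟨.negSucc 2915, .ofNat 972, .ofNat 0, .ofNat 0⟩, ⟨.ofNat 243, .ofNat 0, .ofNat 0, .ofNat 0⟩]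

def S1 : List Q4 := [⟨.ofNat 7128, .negSucc 5039, .ofNat 0, .ofNat 0⟩, ⟨.negSucc 32399, .ofNat 22896, .ofNat 0, .ofNat 0⟩, ⟨.ofNat 53460, .negSucc 37583, .ofNat 0, .ofNat 0⟩, ⟨.negSucc 40175, .ofNat 27216, .ofNat 0, .ofNat 0⟩, ⟨.ofNat 15066, .negSucc 8747, .ofNat 0, .ofNat 0⟩, ⟨.negSucc 2915, .ofNat 972, .ofNat 0, .ofNat 0⟩, ⟨.ofNat 243, .ofNat 0, .ofNat 0, .ofNat 0⟩]

def T2 : List Q4 := [⟨.ofNat 21384, .negSucc 15119, .ofNat 0, .ofNat 0⟩, ⟨.negSucc 97199, .ofNat 68688, .ofNat 0, .ofNat 0⟩, ⟨.ofNat 160380, .negSucc 112751, .ofNat 0, .ofNat 0⟩, ⟨.negSucc 120527, .ofNat 81648, .ofNat 0, .ofNat 0⟩, ⟨.ofNat 45198, .negSucc 26243, .ofNat 0, .ofNat 0⟩, ⟨.negSucc 8747, .ofNat 2916, .ofNat 0, .ofNat 0⟩, ⟨.ofNat 729, .ofNat 0, .ofNat 0, .ofNat 0⟩]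

def A : List Q4 := [⟨.ofNat 1, .ofNat 0, .ofNat 0, .ofNat 0⟩]

def B : List Q4 := [⟨.negSucc 0, .ofNat 0, .ofNat 0, .ofNat 0⟩]

def κ : Q4 := ⟨3, 0, 0, 0⟩

def m2 : Q4 := ⟨3, 0, 0, 0⟩

def zl : Q4 := ⟨6, -4, 0, 0⟩

def zl' : Q4 := ⟨6, 4, 0, 0⟩

def c1 : Q4 := ⟨-36, 0, 0, 0⟩

def c2 : Q4 := ⟨54, 36, 0, 0⟩

def κi : Q4 := ⟨1, 0, 0, 0⟩

def h0i : Q4 := ⟨.ofNat 4, .ofNat 3, .ofNat 0, .ofNat 0⟩

theorem ok : IsoOk (2) (-1) κ m2 zl zl' c1 c2 (3) (4) u u1 h h1 u2 h2 u4 uh2 h4 a0 a1 a2 W W2 T1 S1 T2 A B where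
  k1 := by decide +kernel
  k2 := by decide +kernel
  k3 := by decide +kernel
  k4 := by decide +kernel
  k5 := by decide +kernel
  k6 := by decide +kernel
  k7 := by decide +kernel
  k8 := by decide +kernel
  k9 := by decide +kernel
  k10 := by decide +kernel
  k11 := by decide +kernel
  k12 := by decide +kernel
  k13 := by decide +kernel
  k14 := by decide +kernel
  k15 := by decide +kernel
  k16 := by decide +kernel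
  k17 := by decide +kernel
  k18 := by decide +kernel
  k19 := by decide +kernel

/-- the isogeny -/
theorem psi {O K k : Type*} [CommRing O] [IsDomain O] [Field K] [Algebra O K] [Field k]
    (S : DV O K k) {p : ℕ} [hp : Fact p.Prime] [CharP k p] (h2 : p ≠ 2) (h3 : p ≠ 3)
    {s r z m : O} (hs : s ^ 2 = 2) (hr : r ^ 2 = -1) (hz : 12 * z = 6 - 4 * s) (hm : m ^ 2 = 3) :
    Dat S (cub (qa z) (qb z)) (qa (1 - z)) (qb (1 - z)) m 3 := by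
  have hs' : s ^ 2 = ((2 : ℤ) : O) := by rw [hs]; norm_num
  have hr' : r ^ 2 = ((-1 : ℤ) : O) := by rw [hr]; norm_num
  refine Dat.of_isoN (e := 1) S ok hs' hr' h3 (κi := κi) (h0i := h0i) (L := 3) (Nκ := 3) (Nh := 2)
    ?_ ?_ ?_ (by decide) (by decide) (by decide +kernel) (by decide +kernel) (by decide +kernel)
    (ndvd_fac [(3, 1)] (by intro q hq; simp only [List.mem_cons, List.mem_nil_iff, or_false] at hq; rcases hq with rfl <;> refine ⟨by norm_num, ?_⟩ <;> assumption) (by decide +kernel))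
    (ndvd_fac [(3, 1)] (by intro q hq; simp only [List.mem_cons, List.mem_nil_iff, or_false] at hq; rcases hq with rfl <;> refine ⟨by norm_num, ?_⟩ <;> assumption) (by decide +kernel))
    (ndvd_fac [(3, 1)] (by intro q hq; simp only [List.mem_cons, List.mem_nil_iff, or_false] at hq; rcases hq with rfl <;> refine ⟨by norm_num, ?_⟩ <;> assumption) (by decide +kernel))
    (ndvd_fac [(2, 1)] (by intro q hq; simp only [List.mem_cons, List.mem_nil_iff, or_false] at hq; rcases hq with rfl <;> refine ⟨by norm_num, ?_⟩ <;> assumption) (by decide +kernel))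
    (ndvd_fac [(2, 2)] (by intro q hq; simp only [List.mem_cons, List.mem_nil_iff, or_false] at hq; rcases hq with rfl <;> refine ⟨by norm_num, ?_⟩ <;> assumption) (by decide +kernel))
  · simp only [e4, zl]; push_cast; linear_combination hz
  · simp only [e4, zl']; push_cast; linear_combination -hz
  · rw [hm]; simp only [e4, m2]; push_cast; ring


end Pool.Agent.H546.I24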