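import Pool.Agent.H546.QCM

set_option autoImplicit false
set_option maxRecDepth 100000
set_option maxHeartbeats 4000000

/-!
# An explicit isogeny of degree 7
-/

namespace Pool.Agent.H546.I28

def u : List Q4 := [⟨.negSucc 55, .ofNat 0, .ofNat 0, .ofNat 0⟩, ⟨.ofNat 1764, .ofNat 0, .ofNat 0, .ofNat 0⟩, ⟨.negSucc 4409, .ofNat 0, .ofNat 0, .ofNat 0⟩, ⟨.ofNat 1323, .ofNat 0, .ofNat 0, .ofNat 0⟩]

def u1 : List Q4 := [⟨.ofNat 1764, .ofNat 0, .ofNat 0, .ofNat 0⟩, ⟨.negSucc 8819, .ofNat 0, .ofNat 0, .ofNat 0⟩, ⟨.ofNat 3969, .ofNat 0, .ofNat 0, .ofNat 0⟩]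

def h : List Q4 := [⟨.ofNat 8, .ofNat 0, .ofNat 0, .ofNat 0⟩, ⟨.ofNat 420, .ofNat 0, .ofNat 0, .ofNat 0⟩, ⟨.ofNat 2646, .ofNat 0, .ofNat 0, .ofNat 0⟩, ⟨.ofNat 1323, .ofNat 0, .ofNat 0, .ofNat 0⟩]

def h1 : List Q4 := [⟨.ofNat 420, .ofNat 0, .ofNat 0, .ofNat 0⟩, ⟨.ofNat 5292, .ofNat 0, .ofNat 0, .ofNat 0⟩, ⟨.ofNat 3969, .ofNat 0, .ofNat 0, .ofNat 0⟩]

def u2 : List Q4 := [⟨.ofNat 3136, .ofNat 0, .ofNat 0, .ofNat 0⟩, ⟨.negSucc 197567, .ofNat 0, .ofNat 0, .ofNat 0⟩, ⟨.ofNat 3605616, .ofNat 0, .ofNat 0, .ofNat 0⟩, ⟨.negSucc 15706655, .ofNat 0, .ofNat 0, .ofNat 0⟩, ⟨.ofNat 24115644, .ofNat 0, .ofNat 0, .ofNat 0⟩, ⟨.negSucc 11668859, .ofNat 0, .ofNat 0, .ofNat 0⟩, ⟨.ofNat 1750329, .ofNat 0, .ofNat 0, .ofNat 0⟩]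

def h2 : List Q4 := [⟨.ofNat 64, .ofNat 0, .ofNat 0, .ofNat 0⟩, ⟨.ofNat 6720, .ofNat 0, .ofNat 0, .ofNat 0⟩, ⟨.ofNat 218736, .ofNat 0, .ofNat 0, .ofNat 0⟩, ⟨.ofNat 2243808, .ofNat 0, .ofNat 0, .ofNat 0⟩, ⟨.ofNat 8112636, .ofNat 0, .ofNat 0, .ofNat 0⟩, ⟨.ofNat 7001316, .ofNat 0, .ofNat 0, .ofNat 0⟩, ⟨.ofNat 1750329, .ofNat 0, .ofNat 0, .ofNat 0⟩]

def u4 : List Q4 := [⟨.ofNat 9834496, .ofNat 0, .ofNat 0, .ofNat 0⟩, ⟨.negSucc 1239146495, .ofNat 0, .ofNat 0, .ofNat 0⟩, ⟨.ofNat 61647538176, .ofNat 0, .ofNat 0, .ofNat 0⟩, ⟨.negSucc 1523220830207, .ofNat 0, .ofNat 0, .ofNat 0⟩, ⟨.ofNat 19357985283840, .ofNat 0, .ofNat 0, .ofNat 0⟩, ⟨.negSucc 122866486557695, .ofNat 0, .ofNat 0, .ofNat 0⟩, ⟨.ofNat 425224311144192, .ofNat 0, .ofNat 0, .ofNat 0⟩, ⟨.negSucc 842390723688191, .ofNat 0, .ofNat 0, .ofNat 0⟩,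 ⟨.ofNat 960743853894384, .ofNat 0, .ofNat 0, .ofNat 0⟩, ⟨.negSucc 617787778271327, .ofNat 0, .ofNat 0, .ofNat 0⟩, ⟨.ofNat 220582915793352, .ofNat 0, .ofNat 0, .ofNat 0⟩, ⟨.negSucc 40848688109879, .ofNat 0, .ofNat 0, .ofNat 0⟩, ⟨.ofNat 3063651608241, .ofNat 0, .ofNat 0, .ofNat 0⟩]

def uh2 : List Q4 := [⟨.ofNat 200704, .ofNat 0, .ofNat 0, .ofNat 0⟩, ⟨.ofNat 8429568, .ofNat 0, .ofNat 0, .ofNat 0⟩, ⟨.negSucc 410941439, .ofNat 0, .ofNat 0, .ofNat 0⟩, ⟨.negSucc 12954138623, .ofNat 0, .ofNat 0, .ofNat 0⟩, ⟨.ofNat 266809261824, .ofNat 0, .ofNat 0, .ofNat 0⟩, ⟨.ofNat 3235168097280, .ofNat 0, .ofNat 0, .ofNat 0⟩, ⟨.negSucc 2172760402175, .ofNat 0, .ofNat 0, .ofNat 0⟩, ⟨.negSucc 50953897532159, .ofNat 0, .ofNat 0, .ofNat 0⟩, ⟨.ofNat 66185372511216, .ofNat 0, .ofNat 0, .ofNat 0⟩, ⟨.ofNat 50611617195552, .ofNat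 0, .ofNat 0, .ofNat 0⟩, ⟨.negSucc 25287283115639, .ofNat 0, .ofNat 0, .ofNat 0⟩, ⟨.negSucc 8169737621975, .ofNat 0, .ofNat 0, .ofNat 0⟩, ⟨.ofNat 3063651608241, .ofNat 0, .ofNat 0, .ofNat 0⟩]

def h4 : List Q4 := [⟨.ofNat 4096, .ofNat 0, .ofNat 0, .ofNat 0⟩, ⟨.ofNat 860160, .ofNat 0, .ofNat 0, .ofNat 0⟩, ⟨.ofNat 73156608, .ofNat 0, .ofNat 0, .ofNat 0⟩, ⟨.ofNat 3227019264, .ofNat 0, .ofNat 0, .ofNat 0⟩, ⟨.ofNat 79040634624, .ofNat 0, .ofNat 0, .ofNat 0⟩, ⟨.ofNat 1091533169664, .ofNat 0, .ofNat 0, .ofNat 0⟩, ⟨.ofNat 8678047166208, .ofNat 0, .ofNat 0, .ofNat 0⟩, ⟨.ofNat 39492799250688, .ofNat 0, .ofNat 0, .ofNat 0⟩, ⟨.ofNat 97999800499440, .ofNat 0, .ofNat 0, .ofNat 0⟩, ⟨.ofNat 121453060883616, .ofNat 0, .ofNat 0, .ofNat 0⟩, ⟨.ofNat 77417989846344, .ofNat 0, .ofNat 0, .ofNat 0⟩, ⟨.ofNat 24509212865928,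 .ofNat 0, .ofNat 0, .ofNat 0⟩, ⟨.ofNat 3063651608241, .ofNat 0, .ofNat 0, .ofNat 0⟩]

def a0 : List Q4 := [⟨.negSucc 447, .ofNat 0, .ofNat 0, .ofNat 0⟩, ⟨.negSucc 9407, .ofNat 0, .ofNat 0, .ofNat 0⟩, ⟨.ofNat 557424, .ofNat 0, .ofNat 0, .ofNat 0⟩, ⟨.ofNat 2751840, .ofNat 0, .ofNat 0, .ofNat 0⟩, ⟨.negSucc 8779427, .ofNat 0, .ofNat 0, .ofNat 0⟩, ⟨.negSucc 2333771, .ofNat 0, .ofNat 0, .ofNat 0⟩, ⟨.ofNat 1750329, .ofNat 0, .ofNat 0, .ofNat 0⟩]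

def a1 : List Q4 := [⟨.ofNat 14112, .ofNat 0, .ofNat 0, .ofNat 0⟩, ⟨.ofNat 670320, .ofNat 0, .ofNat 0, .ofNat 0⟩, ⟨.ofNat 994896, .ofNat 0, .ofNat 0, .ofNat 0⟩, ⟨.negSucc 19336967, .ofNat 0, .ofNat 0, .ofNat 0⟩, ⟨.negSucc 1166885, .ofNat 0, .ofNat 0, .ofNat 0⟩, ⟨.ofNat 5250987, .ofNat 0, .ofNat 0, .ofNat 0⟩]

def a2 : List Q4 := [⟨.negSucc 23519, .ofNat 0, .ofNat 0, .ofNat 0⟩, ⟨.ofNat 444528, .ofNat 0, .ofNat 0, .ofNat 0⟩, ⟨.ofNat 7260624, .ofNat 0, .ofNat 0, .ofNat 0⟩, ⟨.negSucc 15780743, .ofNat 0, .ofNat 0, .ofNat 0⟩, ⟨.negSucc 10501973, .ofNat 0, .ofNat 0, .ofNat 0⟩, ⟨.ofNat 5250987, .ofNat 0, .ofNat 0, .ofNat 0⟩]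

def W : List Q4 := [⟨.negSucc 447, .ofNat 0, .ofNat 0, .ofNat 0⟩, ⟨.ofNat 65856, .ofNat 0, .ofNat 0, .ofNat 0⟩, ⟨.ofNat 1009008, .ofNat 0, .ofNat 0, .ofNat 0⟩, ⟨.negSucc 9779615, .ofNat 0, .ofNat 0, .ofNat 0⟩, ⟨.negSucc 15891875, .ofNat 0, .ofNat 0, .ofNat 0⟩, ⟨.ofNat 16336404, .ofNat 0, .ofNat 0, .ofNat 0⟩, ⟨.ofNat 1750329, .ofNat 0, .ofNat 0, .ofNat 0⟩]

def W2 : List Q4 := [⟨.ofNat 200704, .ofNat 0, .ofNat 0, .ofNat 0⟩, ⟨.negSucc 59006975, .ofNat 0, .ofNat 0, .ofNat 0⟩, ⟨.ofNat 3432941568, .ofNat 0, .ofNat 0, .ofNat 0⟩, ⟨.ofNat 141660997632, .ofNat 0, .ofNat 0, .ofNat 0⟩, ⟨.negSucc 255756517631, .ofNat 0, .ofNat 0, .ofNat 0⟩, ⟨.negSucc 21843209751551, .ofNat 0, .ofNat 0, .ofNat 0⟩, ⟨.ofNat 65720961218304, .ofNat 0, .ofNat 0, .ofNat 0⟩, ⟨.ofNat 344030553586944, .ofNat 0, .ofNat 0, .ofNat 0⟩, ⟨.negSucc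 63443601155087, .ofNat 0, .ofNat 0, .ofNat 0⟩, ⟨.negSucc 553467304295135, .ofNat 0, .ofNat 0, .ofNat 0⟩, ⟨.ofNat 211246072796808, .ofNat 0, .ofNat 0, .ofNat 0⟩, ⟨.ofNat 57188163353832, .ofNat 0, .ofNat 0, .ofNat 0⟩, ⟨.ofNat 3063651608241, .ofNat 0, .ofNat 0, .ofNat 0⟩]

def T1 : List Q4 := [⟨.negSucc 802815, .ofNat 0, .ofNat 0, .ofNat 0⟩, ⟨.ofNat 185450496, .ofNat 0, .ofNat 0, .ofNat 0⟩, ⟨.ofNat 1150636032, .ofNat 0, .ofNat 0, .ofNat 0⟩, ⟨.negSucc 1435462705151, .ofNat 0, .ofNat 0, .ofNat 0⟩, ⟨.negSucc 34459270013951, .ofNat 0, .ofNat 0, .ofNat 0⟩, ⟨.ofNat 160748124300288, .ofNat 0, .ofNat 0, .ofNat 0⟩, ⟨.ofNat 5225492351907072, .ofNat 0, .ofNat 0, .ofNat 0⟩, ⟨.negSucc 19313926655708159, .ofNat 0, .ofNat 0, .ofNat 0⟩, ⟨.negSucc 82301504542536383, .ofNat 0, .ofNat 0, .ofNat 0⟩, ⟨.ofNat 39875581584240192,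 .ofNat 0, .ofNat 0, .ofNat 0⟩, ⟨.ofNat 134631829518416496, .ofNat 0, .ofNat 0, .ofNat 0⟩, ⟨.negSucc 88331203168804511, .ofNat 0, .ofNat 0, .ofNat 0⟩, ⟨.negSucc 1115169185399723, .ofNat 0, .ofNat 0, .ofNat 0⟩, ⟨.ofNat 2830814086014684, .ofNat 0, .ofNat 0, .ofNat 0⟩, ⟨.ofNat 193010051319183, .ofNat 0, .ofNat 0, .ofNat 0⟩]

def S1 : List Q4 := [⟨.negSucc 802815, .ofNat 0, .ofNat 0, .ofNat 0⟩, ⟨.ofNat 185450496, .ofNat 0, .ofNat 0, .ofNat 0⟩, ⟨.ofNat 1150636032, .ofNat 0, .ofNat 0, .ofNat 0⟩, ⟨.negSucc 1435462705151, .ofNat 0, .ofNat 0, .ofNat 0⟩, ⟨.negSucc 34459270013951, .ofNat 0, .ofNat 0, .ofNat 0⟩, ⟨.ofNat 160748124300288, .ofNat 0, .ofNat 0, .ofNat 0⟩, ⟨.ofNat 5225492351907072, .ofNat 0, .ofNat 0, .ofNat 0⟩, ⟨.negSucc 19313926655708159, .ofNat 0, .ofNat 0, .ofNat 0⟩, ⟨.negSucc 82301504542536383,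 .ofNat 0, .ofNat 0, .ofNat 0⟩, ⟨.ofNat 39875581584240192, .ofNat 0, .ofNat 0, .ofNat 0⟩, ⟨.ofNat 134631829518416496, .ofNat 0, .ofNat 0, .ofNat 0⟩, ⟨.negSucc 88331203168804511, .ofNat 0, .ofNat 0, .ofNat 0⟩, ⟨.negSucc 1115169185399723, .ofNat 0, .ofNat 0, .ofNat 0⟩, ⟨.ofNat 2830814086014684, .ofNat 0, .ofNat 0, .ofNat 0⟩, ⟨.ofNat 193010051319183, .ofNat 0, .ofNat 0, .ofNat 0⟩]

def T2 : List Q4 := [⟨.ofNat 5619712, .ofNat 0, .ofNat 0, .ofNat 0⟩, ⟨.negSucc 1298153471, .ofNat 0, .ofNat 0, .ofNat 0⟩, ⟨.negSucc 8054452223, .ofNat 0, .ofNat 0, .ofNat 0⟩, ⟨.ofNat 10048238936064, .ofNat 0, .ofNat 0, .ofNat 0⟩, ⟨.ofNat 241214890097664, .ofNat 0, .ofNat 0, .ofNat 0⟩, ⟨.negSucc 1125236870102015, .ofNat 0, .ofNat 0, .ofNat 0⟩, ⟨.negSucc 36578446463349503, .ofNat 0, .ofNat 0, .ofNat 0⟩, ⟨.ofNat 135197486589957120,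 .ofNat 0, .ofNat 0, .ofNat 0⟩, ⟨.ofNat 576110531797754688, .ofNat 0, .ofNat 0, .ofNat 0⟩, ⟨.negSucc 279129071089681343, .ofNat 0, .ofNat 0, .ofNat 0⟩, ⟨.negSucc 942422806628915471, .ofNat 0, .ofNat 0, .ofNat 0⟩, ⟨.ofNat 618318422181631584, .ofNat 0, .ofNat 0, .ofNat 0⟩, ⟨.ofNat 7806184297798068, .ofNat 0, .ofNat 0, .ofNat 0⟩, ⟨.negSucc 19815698602102787, .ofNat 0, .ofNat 0, .ofNat 0⟩, ⟨.negSucc 1351070359234280, .ofNat 0, .ofNat 0, .ofNat 0⟩]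

def A : List Q4 := [⟨.negSucc 771, .ofNat 0, .ofNat 0, .ofNat 0⟩, ⟨.negSucc 4451, .ofNat 0, .ofNat 0, .ofNat 0⟩, ⟨.negSucc 2204, .ofNat 0, .ofNat 0, .ofNat 0⟩]

def B : List Q4 := [⟨.ofNat 2788, .ofNat 0, .ofNat 0, .ofNat 0⟩, ⟨.negSucc 7307, .ofNat 0, .ofNat 0, .ofNat 0⟩, ⟨.ofNat 2205, .ofNat 0, .ofNat 0, .ofNat 0⟩]

def κ : Q4 := ⟨-7, 0, 0, 0⟩

def m2 : Q4 := ⟨-7, 0, 0, 0⟩

def zl : Q4 := ⟨-4, 0, 0, 0⟩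

def zl' : Q4 := ⟨-4, 0, 0, 0⟩

def c1 : Q4 := ⟨1764, 0, 0, 0⟩

def c2 : Q4 := ⟨-196, 0, 0, 0⟩

def κi : Q4 := ⟨-1, 0, 0, 0⟩

def h0i : Q4 := ⟨.ofNat 1, .ofNat 0, .ofNat 0, .ofNat 0⟩

theorem ok : IsoOk (-7) (-1) κ m2 zl zl' c1 c2 (63) (65536) u u1 h h1 u2 h2 u4 uh2 h4 a0 a1 a2 W W2 T1 S1 T2 A B where
  k1 := by decide +kernel
  k2 := by decide +kernel
  k3 := by decide +kernel
  k4 := by decide +kernel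
  k5 := by decide +kernel
  k6 := by decide +kernel
  k7 := by decide +kernel
  k8 := by decide +kernel
  k9 := by decide +kernel
  k10 := by decide +kernel
  k11 := by decide +kernel
  k12 := by decide +kernel
  k13 := by decide +kernel
  k14 := by decide +kernel
  k15 := by decide +kernel
  k16 := by decide +kernel
  k17 := by decide +kernel
  k18 := by decide +kernel
  k19 := by decide +kernel

/-- the isogeny -/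
theorem psi {O K k : Type*} [CommRing O] [IsDomain O] [Field K] [Algebra O K] [Field k]
    (S : DV O K k) {p : ℕ} [hp : Fact p.Prime] [CharP k p] (h2 : p ≠ 2) (h3 : p ≠ 3) (h7 : p ≠ 7)
    {s r z m : O} (hs : s ^ 2 = -7) (hr : r ^ 2 = -1) (hz : 252 * z = -4) (hm : m ^ 2 = -7) :
    Dat S (cub (qa z) (qb z)) (qa z) (qb z) m 7 := by
  have hs' : s ^ 2 = ((-7 : ℤ) : O) := by rw [hs]; norm_num
  have hr' : r ^ 2 = ((-1 : ℤ) : O) := by rw [hr]; norm_num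
  refine Dat.of_isoN (e := 3) S ok hs' hr' h3 (κi := κi) (h0i := h0i) (L := 1323) (Nκ := 7) (Nh := 8)
    ?_ ?_ ?_ (by decide) (by decide) (by decide +kernel) (by decide +kernel) (by decide +kernel)
    (ndvd_fac [(3, 2), (7, 1)] (by intro q hq; simp only [List.mem_cons, List.mem_nil_iff, or_false] at hq; rcases hq with rfl | rfl <;> refine ⟨by norm_num, ?_⟩ <;> assumption) (by decide +kernel))
    (ndvd_fac [(3, 3), (7, 2)] (by intro q hq; simp only [List.mem_cons, List.mem_nil_iff, or_false] at hq; rcases hq with rfl | rfl <;> refine ⟨by norm_num, ?_⟩ <;> assumption) (by decide +kernel))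
    (ndvd_fac [(7, 1)] (by intro q hq; simp only [List.mem_cons, List.mem_nil_iff, or_false] at hq; rcases hq with rfl <;> refine ⟨by norm_num, ?_⟩ <;> assumption) (by decide +kernel))
    (ndvd_fac [(2, 3)] (by intro q hq; simp only [List.mem_cons, List.mem_nil_iff, or_false] at hq; rcases hq with rfl <;> refine ⟨by norm_num, ?_⟩ <;> assumption) (by decide +kernel))
    (ndvd_fac [(2, 16)] (by intro q hq; simp only [List.mem_cons, List.mem_nil_iff, or_false] at hq; rcases hq with rfl <;> refine ⟨by norm_num, ?_⟩ <;> assumption) (by decide +kernel))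
  · simp only [e4, zl]; push_cast; linear_combination hz
  · simp only [e4, zl']; push_cast; linear_combination hz
  · rw [hm]; simp only [e4, m2]; push_cast; ring


end Pool.Agent.H546.I28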