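import Pool.Agent.H546.QCM

set_option autoImplicit false
set_option maxRecDepth 100000
set_option maxHeartbeats 4000000

/-!
# An explicit isogeny of degree 5
-/

namespace Pool.Agent.H546.I40

def u : List Q4 := [⟨.ofNat 50, .negSucc 19, .ofNat 0, .ofNat 0⟩, ⟨.ofNat 0, .ofNat 60, .ofNat 0, .ofNat 0⟩, ⟨.ofNat 45, .ofNat 0, .ofNat 0, .ofNat 0⟩]

def u1 : List Q4 := [⟨.ofNat 0, .ofNat 60, .ofNat 0, .ofNat 0⟩, ⟨.ofNat 90, .ofNat 0, .ofNat 0, .ofNat 0⟩]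

def h : List Q4 := [⟨.ofNat 170, .negSucc 75, .ofNat 0, .ofNat 0⟩, ⟨.negSucc 119, .ofNat 60, .ofNat 0, .ofNat 0⟩, ⟨.ofNat 45, .ofNat 0, .ofNat 0, .ofNat 0⟩]

def h1 : List Q4 := [⟨.negSucc 119, .ofNat 60, .ofNat 0, .ofNat 0⟩, ⟨.ofNat 90, .ofNat 0, .ofNat 0, .ofNat 0⟩]

def u2 : List Q4 := [⟨.ofNat 4500, .negSucc 1999, .ofNat 0, .ofNat 0⟩, ⟨.negSucc 11999, .ofNat 6000, .ofNat 0, .ofNat 0⟩, ⟨.ofNat 22500, .negSucc 1799, .ofNat 0, .ofNat 0⟩, ⟨.ofNat 0, .ofNat 5400, .ofNat 0, .ofNat 0⟩, ⟨.ofNat 2025, .ofNat 0, .ofNat 0, .ofNat 0⟩]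

def h2 : List Q4 := [⟨.ofNat 57780, .negSucc 25839, .ofNat 0, .ofNat 0⟩, ⟨.negSucc 86399, .ofNat 38640, .ofNat 0, .ofNat 0⟩, ⟨.ofNat 47700, .negSucc 21239, .ofNat 0, .ofNat 0⟩, ⟨.negSucc 10799, .ofNat 5400, .ofNat 0, .ofNat 0⟩, ⟨.ofNat 2025, .ofNat 0, .ofNat 0, .ofNat 0⟩]

def u4 : List Q4 := [⟨.ofNat 40250000, .negSucc 17999999, .ofNat 0, .ofNat 0⟩, ⟨.negSucc 227999999, .ofNat 102000000, .ofNat 0, .ofNat 0⟩, ⟨.ofNat 562500000, .negSucc 250199999, .ofNat 0, .ofNat 0⟩, ⟨.negSucc 755999999, .ofNat 361800000, .ofNat 0, .ofNat 0⟩, ⟨.ofNat 864675000, .negSucc 218699999, .ofNat 0, .ofNat 0⟩, ⟨.negSucc 145799999, .ofNat 267300000, .ofNat 0, .ofNat 0⟩, ⟨.ofNat 236925000, .negSucc 7289999, .ofNat 0, .ofNat 0⟩, ⟨.ofNat 0, .ofNat 21870000, .ofNat 0, .ofNat 0⟩, ⟨.ofNat 4100625, .ofNat 0, .ofNat 0, .ofNat 0⟩]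

def uh2 : List Q4 := [⟨.ofNat 518410000, .negSucc 231839999, .ofNat 0, .ofNat 0⟩, ⟨.negSucc 2243759999, .ofNat 1003440000, .ofNat 0, .ofNat 0⟩, ⟨.ofNat 4155660000, .negSucc 1858463999, .ofNat 0, .ofNat 0⟩, ⟨.negSucc 4301639999, .ofNat 1923912000, .ofNat 0, .ofNat 0⟩, ⟨.ofNat 2725407000, .negSucc 1216295999, .ofNat 0, .ofNat 0⟩, ⟨.negSucc 1064339999, .ofNat 488916000, .ofNat 0, .ofNat 0⟩, ⟨.ofNat 287955000, .negSucc 104975999, .ofNat 0, .ofNat 0⟩, ⟨.negSucc 21869999, .ofNat 21870000, .ofNat 0, .ofNat 0⟩, ⟨.ofNat 4100625, .ofNat 0, .ofNat 0, .ofNat 0⟩]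

def h4 : List Q4 := [⟨.ofNat 6677056400, .negSucc 2986070399, .ofNat 0, .ofNat 0⟩, ⟨.negSucc 19968959999, .ofNat 8930390400, .ofNat 0, .ofNat 0⟩, ⟨.ofNat 25930836000, .negSucc 11596622399, .ofNat 0, .ofNat 0⟩, ⟨.negSucc 19093103999, .ofNat 8538696000, .ofNat 0, .ofNat 0⟩, ⟨.ofNat 8717787000, .negSucc 3898691999, .ofNat 0, .ofNat 0⟩, ⟨.negSucc 2527199999, .ofNat 1130436000, .ofNat 0, .ofNat 0⟩, ⟨.ofNat 455625000, .negSucc 202661999, .ofNat 0, .ofNat 0⟩, ⟨.negSucc 43739999, .ofNat 21870000, .ofNat 0, .ofNat 0⟩, ⟨.ofNat 4100625, .ofNat 0, .ofNat 0, .ofNat 0⟩]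

def a0 : List Q4 := [⟨.ofNat 16100, .negSucc 7199, .ofNat 0, .ofNat 0⟩, ⟨.negSucc 34799, .ofNat 15600, .ofNat 0, .ofNat 0⟩, ⟨.ofNat 27900, .negSucc 11519, .ofNat 0, .ofNat 0⟩, ⟨.negSucc 5399, .ofNat 5400, .ofNat 0, .ofNat 0⟩, ⟨.ofNat 2025, .ofNat 0, .ofNat 0, .ofNat 0⟩]

def a1 : List Q4 := [⟨.negSucc 22799, .ofNat 10200, .ofNat 0, .ofNat 0⟩, ⟨.ofNat 33300, .negSucc 14039, .ofNat 0, .ofNat 0⟩, ⟨.negSucc 10799, .ofNat 8100, .ofNat 0, .ofNat 0⟩, ⟨.ofNat 4050, .ofNat 0, .ofNat 0, .ofNat 0⟩]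

def a2 : List Q4 := [⟨.negSucc 11999, .ofNat 5400, .ofNat 0, .ofNat 0⟩, ⟨.ofNat 22500, .negSucc 8999, .ofNat 0, .ofNat 0⟩, ⟨.negSucc 5399, .ofNat 8100, .ofNat 0, .ofNat 0⟩, ⟨.ofNat 4050, .ofNat 0, .ofNat 0, .ofNat 0⟩]

def W : List Q4 := [⟨.ofNat 16100, .negSucc 7199, .ofNat 0, .ofNat 0⟩, ⟨.negSucc 56399, .ofNat 25200, .ofNat 0, .ofNat 0⟩, ⟨.ofNat 49500, .negSucc 21599, .ofNat 0, .ofNat 0⟩, ⟨.negSucc 16199, .ofNat 5400, .ofNat 0, .ofNat 0⟩, ⟨.ofNat 2025, .ofNat 0, .ofNat 0, .ofNat 0⟩]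

def W2 : List Q4 := [⟨.ofNat 518410000, .negSucc 231839999, .ofNat 0, .ofNat 0⟩, ⟨.negSucc 3630479999, .ofNat 1623600000, .ofNat 0, .ofNat 0⟩, ⟨.ofNat 9505260000, .negSucc 4250879999, .ofNat 0, .ofNat 0⟩, ⟨.negSucc 11937239999, .ofNat 5338440000, .ofNat 0, .ofNat 0⟩, ⟨.ofNat 8036415000, .negSucc 3593159999, .ofNat 0, .ofNat 0⟩, ⟨.negSucc 2998619999, .ofNat 1336500000, .ofNat 0, .ofNat 0⟩, ⟨.ofNat 608715000, .negSucc 262439999, .ofNat 0, .ofNat 0⟩, ⟨.negSucc 65609999, .ofNat 21870000, .ofNat 0, .ofNat 0⟩, ⟨.ofNat 4100625, .ofNat 0, .ofNat 0, .ofNat 0⟩]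

def T1 : List Q4 := [⟨.ofNat 18604980000, .negSucc 8320399999, .ofNat 0, .ofNat 0⟩, ⟨.negSucc 148955399999, .ofNat 66614880000, .ofNat 0, .ofNat 0⟩, ⟨.ofNat 476492850000, .negSucc 213094079999, .ofNat 0, .ofNat 0⟩, ⟨.negSucc 803271599999, .ofNat 359233920000, .ofNat 0, .ofNat 0⟩, ⟨.ofNat 803669850000, .negSucc 359409959999, .ofNat 0, .ofNat 0⟩, ⟨.negSucc 504181259999, .ofNat 225445680000, .ofNat 0, .ofNat 0⟩, ⟨.ofNat 201732525000, .negSucc 90046079999, .ofNat 0, .ofNat 0⟩, ⟨.negSucc 50957099999, .ofNat 22394880000, .ofNat 0, .ofNat 0⟩, ⟨.ofNat 7914206250, .negSucc 3182084999, .ofNat 0, .ofNat 0⟩, ⟨.negSucc 738112499, .ofNat 196830000, .ofNat 0, .ofNat 0⟩, ⟨.ofNat 36905625, .ofNat 0, .ofNat 0, .ofNat 0⟩]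

def S1 : List Q4 := [⟨.ofNat 18604980000, .negSucc 8320399999, .ofNat 0, .ofNat 0⟩, ⟨.negSucc 148955399999, .ofNat 66614880000, .ofNat 0, .ofNat 0⟩, ⟨.ofNat 476492850000, .negSucc 213094079999, .ofNat 0, .ofNat 0⟩, ⟨.negSucc 803271599999, .ofNat 359233920000, .ofNat 0, .ofNat 0⟩, ⟨.ofNat 803669850000, .negSucc 359409959999, .ofNat 0, .ofNat 0⟩, ⟨.negSucc 504181259999, .ofNat 225445680000, .ofNat 0, .ofNat 0⟩, ⟨.ofNat 201732525000, .negSucc 90046079999, .ofNat 0, .ofNat 0⟩, ⟨.negSucc 50957099999, .ofNat 22394880000, .ofNat 0, .ofNat 0⟩, ⟨.ofNat 7914206250, .negSucc 3182084999, .ofNat 0, .ofNat 0⟩, ⟨.negSucc 738112499, .ofNat 196830000, .ofNat 0, .ofNat 0⟩, ⟨.ofNat 36905625, .ofNat 0, .ofNat 0, .ofNat 0⟩]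

def T2 : List Q4 := [⟨.ofNat 93024900000, .negSucc 41601999999, .ofNat 0, .ofNat 0⟩, ⟨.negSucc 744776999999, .ofNat 333074400000, .ofNat 0, .ofNat 0⟩, ⟨.ofNat 2382464250000, .negSucc 1065470399999, .ofNat 0, .ofNat 0⟩, ⟨.negSucc 4016357999999, .ofNat 1796169600000, .ofNat 0, .ofNat 0⟩, ⟨.ofNat 4018349250000, .negSucc 1797049799999, .ofNat 0, .ofNat 0⟩, ⟨.negSucc 2520906299999, .ofNat 1127228400000, .ofNat 0, .ofNat 0⟩, ⟨.ofNat 1008662625000, .negSucc 450230399999, .ofNat 0, .ofNat 0⟩, ⟨.negSucc 254785499999, .ofNat 111974400000, .ofNat 0, .ofNat 0⟩, ⟨.ofNat 39571031250, .negSucc 15910424999, .ofNat 0, .ofNat 0⟩, ⟨.negSucc 3690562499, .ofNat 984150000, .ofNat 0, .ofNat 0⟩, ⟨.ofNat 184528125, .ofNat 0, .ofNat 0, .ofNat 0⟩]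

def A : List Q4 := [⟨.ofNat 15, .ofNat 1, .ofNat 0, .ofNat 0⟩, ⟨.ofNat 30, .ofNat 15, .ofNat 0, .ofNat 0⟩]

def B : List Q4 := [⟨.negSucc 94, .negSucc 40, .ofNat 0, .ofNat 0⟩, ⟨.negSucc 29, .negSucc 14, .ofNat 0, .ofNat 0⟩]

def κ : Q4 := ⟨5, 0, 0, 0⟩

def m2 : Q4 := ⟨5, 0, 0, 0⟩

def zl : Q4 := ⟨18, -8, 0, 0⟩

def zl' : Q4 := ⟨18, 8, 0, 0⟩

def c1 : Q4 := ⟨-180, 0, 0, 0⟩

def c2 : Q4 := ⟨450, 200, 0, 0⟩

def κi : Q4 := ⟨1, 0, 0, 0⟩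

def h0i : Q4 := ⟨.ofNat 85, .ofNat 38, .ofNat 0, .ofNat 0⟩

theorem ok : IsoOk (5) (-1) κ m2 zl zl' c1 c2 (9) (80) u u1 h h1 u2 h2 u4 uh2 h4 a0 a1 a2 W W2 T1 S1 T2 A B where
  k1 := by decide +kernel
  k2 := by decide +kernel
  k3 := by decide +kernel
  k4 := by decide +kernel
  k5 := by decide +kernel
  k6 := by decide +kernel
  k7 := by decide +kernel
  k8 := by decide +kernel
  k9 := by decide +kernel
  k10 := by decide +kernel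
  k11 := by decide +kernel
  k12 := by decide +kernel
  k13 := by decide +kernel
  k14 := by decide +kernel
  k15 := by decide +kernel
  k16 := by decide +kernel
  k17 := by decide +kernel
  k18 := by decide +kernel
  k19 := by decide +kernel

/-- the isogeny -/
theorem psi {O K k : Type*} [CommRing O] [IsDomain O] [Field K] [Algebra O K] [Field k]
    (S : DV O K k) {p : ℕ} [hp : Fact p.Prime] [CharP k p] (h2 : p ≠ 2) (h3 : p ≠ 3) (h5 : p ≠ 5)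
    {s r z m : O} (hs : s ^ 2 = 5) (hr : r ^ 2 = -1) (hz : 36 * z = 18 - 8 * s) (hm : m ^ 2 = 5) :
    Dat S (cub (qa z) (qb z)) (qa (1 - z)) (qb (1 - z)) m 5 := by
  have hs' : s ^ 2 = ((5 : ℤ) : O) := by rw [hs]; norm_num
  have hr' : r ^ 2 = ((-1 : ℤ) : O) := by rw [hr]; norm_num
  refine Dat.of_isoN (e := 2) S ok hs' hr' h3 (κi := κi) (h0i := h0i) (L := 45) (Nκ := 5) (Nh := 10)
    ?_ ?_ ?_ (by decide) (by decide) (by decide +kernel) (by decide +kernel) (by decide +kernel)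
    (ndvd_fac [(3, 2)] (by intro q hq; simp only [List.mem_cons, List.mem_nil_iff, or_false] at hq; rcases hq with rfl <;> refine ⟨by norm_num, ?_⟩ <;> assumption) (by decide +kernel))
    (ndvd_fac [(3, 2), (5, 1)] (by intro q hq; simp only [List.mem_cons, List.mem_nil_iff, or_false] at hq; rcases hq with rfl | rfl <;> refine ⟨by norm_num, ?_⟩ <;> assumption) (by decide +kernel))
    (ndvd_fac [(5, 1)] (by intro q hq; simp only [List.mem_cons, List.mem_nil_iff, or_false] at hq; rcases hq with rfl <;> refine ⟨by norm_num, ?_⟩ <;> assumption) (by decide +kernel))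
    (ndvd_fac [(2, 1), (5, 1)] (by intro q hq; simp only [List.mem_cons, List.mem_nil_iff, or_false] at hq; rcases hq with rfl | rfl <;> refine ⟨by norm_num, ?_⟩ <;> assumption) (by decide +kernel))
    (ndvd_fac [(2, 4), (5, 1)] (by intro q hq; simp only [List.mem_cons, List.mem_nil_iff, or_false] at hq; rcases hq with rfl | rfl <;> refine ⟨by norm_num, ?_⟩ <;> assumption) (by decide +kernel))
  · simp only [e4, zl]; push_cast; linear_combination hz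
  · simp only [e4, zl']; push_cast; linear_combination -hz
  · rw [hm]; simp only [e4, m2]; push_cast; ring


end Pool.Agent.H546.I40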