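import Pool.Agent.H546.QCM

set_option autoImplicit false
set_option maxRecDepth 100000
set_option maxHeartbeats 4000000

/-!
# An explicit isogeny of degree 7
-/

namespace Pool.Agent.H546.I52

def u : List Q4 := [⟨.negSucc 82, .ofNat 23, .ofNat 47, .negSucc 12⟩, ⟨.ofNat 180, .negSucc 53, .negSucc 71, .ofNat 12⟩, ⟨.negSucc 26, .ofNat 63, .negSucc 62, .negSucc 26⟩, ⟨.ofNat 54, .ofNat 0, .ofNat 0, .ofNat 0⟩]

def u1 : List Q4 := [⟨.ofNat 180, .negSucc 53, .negSucc 71, .ofNat 12⟩, ⟨.negSucc 53, .ofNat 126, .negSucc 125, .negSucc 53⟩, ⟨.ofNat 162, .ofNat 0, .ofNat 0, .ofNat 0⟩]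

def h : List Q4 := [⟨.ofNat 0, .ofNat 0, .ofNat 1298, .negSucc 359⟩, ⟨.negSucc 206, .ofNat 57, .negSucc 1526, .ofNat 423⟩, ⟨.ofNat 216, .negSucc 35, .ofNat 540, .negSucc 161⟩, ⟨.ofNat 27, .ofNat 27, .negSucc 26, .ofNat 27⟩]

def h1 : List Q4 := [⟨.negSucc 206, .ofNat 57, .negSucc 1526, .ofNat 423⟩, ⟨.ofNat 432, .negSucc 71, .ofNat 1080, .negSucc 323⟩, ⟨.ofNat 81, .ofNat 81, .negSucc 80, .ofNat 81⟩]

def u2 : List Q4 := [⟨.ofNat 9360, .negSucc 2595, .negSucc 15575, .ofNat 4320⟩, ⟨.negSucc 51347, .ofNat 14244, .ofNat 54300, .negSucc 15059⟩, ⟨.ofNat 102204, .negSucc 28511, .negSucc 72287, .ofNat 20304⟩, ⟨.negSucc 107783, .ofNat 25704, .ofNat 43848, .negSucc 14039⟩, ⟨.ofNat 58320, .negSucc 12635, .negSucc 48599, .negSucc 5183⟩, ⟨.negSucc 2915, .ofNat 6804, .negSucc 6803, .negSucc 2915⟩, ⟨.ofNat 2916, .ofNat 0, .ofNat 0, .ofNat 0⟩]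

def h2 : List Q4 := [⟨.negSucc 3369603, .ofNat 934560, .ofNat 0, .ofNat 0⟩, ⟨.ofNat 7923372, .negSucc 2197547, .negSucc 1070891, .ofNat 297012⟩, ⟨.negSucc 7490879, .ofNat 2077596, .ofNat 2156760, .negSucc 598175⟩, ⟨.ofNat 3610872, .negSucc 1001591, .negSucc 1701863, .ofNat 471960⟩, ⟨.negSucc 919835, .ofNat 256608, .ofNat 650592, .negSucc 182735⟩, ⟨.ofNat 129276, .negSucc 28187, .negSucc 121499, .ofNat 34020⟩, ⟨.ofNat 0, .ofNat 2916, .ofNat 17496, .ofNat 0⟩]

def u4 : List Q4 := [⟨.negSucc 310003567, .ofNat 85979520, .negSucc 583165439, .ofNat 161740992⟩, ⟨.ofNat 1460445216, .negSucc 405054623, .ofNat 5232464736, .negSucc 1451224607⟩, ⟨.negSucc 1317485951, .ofNat 365404896, .negSucc 20263770431, .ofNat 5620158720⟩, ⟨.negSucc 6064187039, .ofNat 1681899552, .ofNat 45219904992, .negSucc 12541740191⟩, ⟨.ofNat 21770787312, .negSucc 6038343935, .negSucc 65096441855, .ofNat 18054161280⟩, ⟨.negSucc 35154502847, .ofNat 9758646720, .ofNat 63800104896, .negSucc 17700773183⟩,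 ⟨.ofNat 35190754560, .negSucc 9679393727, .negSucc 43481619071, .ofNat 12145116672⟩, ⟨.negSucc 24030686015, .ofNat 6306818112, .ofNat 21840186816, .negSucc 5524676927⟩, ⟨.ofNat 8069610096, .negSucc 3695995007, .negSucc 7608660479, .ofNat 1699351488⟩, ⟨.negSucc 4258456415, .ofNat 663238368, .negSucc 213521183, .negSucc 881168543⟩, ⟨.ofNat 793618560, .negSucc 153055007, .negSucc 759606335, .negSucc 105815807⟩, ⟨.negSucc 17006111, .ofNat 39680928, .negSucc 39680927, .negSucc 17006111⟩, ⟨.ofNat 8503056, .ofNat 0, .ofNat 0, .ofNat 0⟩]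

def uh2 : List Q4 := [⟨.negSucc 63079024319, .ofNat 17494973584, .ofNat 104969841504, .negSucc 29113395839⟩, ⟨.ofNat 461041974624, .negSucc 127870036895, .negSucc 632813502047, .ofNat 175510886880⟩, ⟨.negSucc 1461304586015, .ofNat 405292970304, .ofNat 1734452686080, .negSucc 481050622655⟩, ⟨.ofNat 2693716930656, .negSucc 747102655007, .negSucc 2870043707807, .ofNat 796006903968⟩, ⟨.negSucc 3242007897983, .ofNat 899171206128, .ofNat 3203945023392, .negSucc 888614468351⟩, ⟨.ofNat 2696115326400, .negSucc 747767702591, .negSucc 2548311109055, .ofNat 706774216896⟩, ⟨.negSucc 1592378564543, .ofNat 441649148544, .ofNat 1483009855488, .negSucc 411308565119⟩, ⟨.ofNat 673423139520, .negSucc 186821868095, .negSucc 636517217087, .ofNat 176576770368⟩, ⟨.negSucc 202779619775, .ofNat 55982336112, .ofNat 199603255968, .negSucc 55545740927⟩, ⟨.ofNat 42173268192, .negSucc 11596278815, .negSucc 45967520735, .ofNat 12068670816⟩, ⟨.negSucc 4718251295, .ofNat 1847997504, .ofNat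 6273365760, .negSucc 2006721215⟩, ⟨.ofNat 753937632, .negSucc 39680927, .negSucc 515852063, .ofNat 198404640⟩, ⟨.ofNat 0, .ofNat 8503056, .ofNat 51018336, .ofNat 0⟩]

def h4 : List Q4 := [⟨.ofNat 22708462233616, .negSucc 6298194228479, .ofNat 0, .ofNat 0⟩, ⟨.negSucc 106794503900255, .ofNat 29619466134624, .ofNat 14433927836256, .negSucc 4003251301535⟩, ⟨.ofNat 224231217753600, .negSucc 62190550243871, .negSucc 63009972339263, .ofNat 17475822010368⟩, ⟨.negSucc 276845143008671, .ofNat 76783027575456, .ofNat 123380011186272, .negSucc 34219458207647⟩, ⟨.ofNat 222515644100976, .negSucc 61714735723007, .negSucc 142852067389439, .ofNat 39620034906048⟩, ⟨.negSucc 121509089039807, .ofNat 33700557767616, .ofNat 108491681838528, .negSucc 30090178603583⟩, ⟨.ofNat 45488581032960, .negSucc 12616262350271, .negSucc 56639143790207, .ofNat 15708872153088⟩, ⟨.negSucc 11403837792575, .ofNat 3162853396800, .ofNat 20690569305792, .negSucc 5738529976127⟩, ⟨.ofNat 1763433772272,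 .negSucc 489105858815, .negSucc 5272811790335, .ofNat 1462387063680⟩, ⟨.negSucc 122547932639, .ofNat 34075839456, .ofNat 914765692896, .negSucc 253838896415⟩, ⟨.negSucc 6076850687, .ofNat 2008610784, .negSucc 102388131647, .ofNat 28419102720⟩, ⟨.ofNat 2114426592, .negSucc 436490207, .ofNat 7102886112, .negSucc 1694942495⟩, ⟨.negSucc 195570287, .ofNat 0, .ofNat 0, .ofNat 102036672⟩]

def a0 : List Q4 := [⟨.negSucc 121845, .ofNat 33794, .negSucc 215373, .ofNat 59734⟩, ⟨.ofNat 327096, .negSucc 90719, .ofNat 720216, .negSucc 199751⟩, ⟨.negSucc 379241, .ofNat 105174, .negSucc 954917, .ofNat 264870⟩, ⟨.ofNat 244512, .negSucc 68687, .ofNat 647568, .negSucc 180143⟩, ⟨.negSucc 89585, .ofNat 27702, .negSucc 252233, .ofNat 62370⟩, ⟨.ofNat 40824, .ofNat 0, .ofNat 40824, .negSucc 13607⟩, ⟨.ofNat 1458, .ofNat 1458, .negSucc 1457, .ofNat 1458⟩]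

def a1 : List Q4 := [⟨.ofNat 149616, .negSucc 41495, .ofNat 486360, .negSucc 134891⟩, ⟨.negSucc 342377, .ofNat 94950, .negSucc 1207781, .ofNat 334998⟩, ⟨.ofNat 337392, .negSucc 94607, .ofNat 1161432, .negSucc 322703⟩, ⟨.negSucc 170099, .ofNat 52812, .negSucc 565379, .ofNat 142884⟩, ⟨.ofNat 93312, .negSucc 1943, .ofNat 110808, .negSucc 35963⟩, ⟨.ofNat 4374, .ofNat 4374, .negSucc 4373, .ofNat 4374⟩]

def a2 : List Q4 := [⟨.ofNat 177480, .negSucc 49223, .ofNat 233856, .negSucc 64859⟩, ⟨.negSucc 416105, .ofNat 115398, .negSucc 702053, .ofNat 194742⟩, ⟨.ofNat 396144, .negSucc 111455, .ofNat 781272, .negSucc 217727⟩, ⟨.negSucc 188243, .ofNat 57996, .negSucc 443555, .ofNat 106596⟩, ⟨.ofNat 110808, .ofNat 1944, .ofNat 93312, .negSucc 32075⟩, ⟨.ofNat 4374, .ofNat 4374, .negSucc 4373, .ofNat 4374⟩]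

def W : List Q4 := [⟨.negSucc 121845, .ofNat 33794, .negSucc 215373, .ofNat 59734⟩, ⟨.ofNat 271368, .negSucc 75263, .ofNat 1225224, .negSucc 339815⟩, ⟨.negSucc 231785, .ofNat 64278, .negSucc 1966373, .ofNat 545382⟩, ⟨.ofNat 127008, .negSucc 34991, .ofNat 1407888, .negSucc 390095⟩, ⟨.negSucc 53297, .ofNat 17334, .negSucc 495881, .ofNat 134946⟩, ⟨.ofNat 5832, .negSucc 7775, .ofNat 75816, .negSucc 21383⟩, ⟨.ofNat 1458, .ofNat 1458, .negSucc 1457, .ofNat 1458⟩]

def W2 : List Q4 := [⟨.negSucc 63079024319, .ofNat 17494973584, .ofNat 104969841504, .negSucc 29113395839⟩, ⟨.ofNat 923265107424, .negSucc 256067668127, .negSucc 830937113951, .ofNat 230460490080⟩, ⟨.negSucc 4436140285727, .ofNat 1230363943488, .ofNat 2488003593984, .negSucc 690048040895⟩, ⟨.ofNat 10536083549280, .negSucc 2922183806111, .negSucc 4065250425119, .ofNat 1127497604256⟩, ⟨.negSucc 14780026495871, .ofNat 4099241798640, .ofNat 4260169429920, .negSucc 1181558409983⟩, ⟨.ofNat 13353224787648, .negSucc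 3703518241343, .negSucc 3169082625983, .ofNat 878945370048⟩, ⟨.negSucc 8096701228991, .ofNat 2245620557952, .ofNat 1792597423104, .negSucc 497176133759⟩, ⟨.ofNat 3335755587264, .negSucc 925160346431, .negSucc 791656068671, .ofNat 219568221504⟩, ⟨.negSucc 922347269567, .ofNat 255802892400, .ofNat 265733097120, .negSucc 73766215295⟩, ⟨.ofNat 164030248800, .negSucc 45613541663, .negSucc 63165108959, .ofNat 17634078432⟩, ⟨.negSucc 16932418847, .ofNat 4886422848, .ofNat 9689704704, .negSucc 2686965695⟩, ⟨.ofNat 753937632, .negSucc 289103903, .negSucc 901323935, .ofNat 198404640⟩, ⟨.ofNat 0, .ofNat 8503056, .ofNat 51018336, .ofNat 0⟩]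

def T1 : List Q4 := [⟨.negSucc 2272595720719, .ofNat 630304646112, .ofNat 3781827876672, .negSucc 1048890332639⟩, ⟨.ofNat 35534015237472, .negSucc 9855362612447, .negSucc 33715714200479, .ofNat 9351056641440⟩, ⟨.negSucc 193629436555967, .ofNat 53703143226288, .ofNat 120495652025760, .negSucc 33419480911487⟩, ⟨.ofNat 547601887537344, .negSucc 151877437235135, .negSucc 243508415337791, .ofNat 67537082885184⟩, ⟨.negSucc 951715464182927, .ofNat 263958377366304, .ofNat 322225394037696, .negSucc 89369244650591⟩, ⟨.ofNat 1107992437659936, .negSucc 307301811288479, .negSucc 304128289624031, .ofNat 84350010988512⟩, ⟨.negSucc 905442289206911, .ofNat 251124509064240, .ofNat 217011701714976, .negSucc 60188216534783⟩, ⟨.ofNat 531839290421376, .negSucc 147505668430463, .negSucc 121576994499455, .ofNat 33719357476224⟩, ⟨.negSucc 226186951060655, .ofNat 62732545904160, .ofNat 54210995022528, .negSucc 15035498538911⟩, ⟨.ofNat 69143726676384, .negSucc 19176542238239, .negSucc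 18974483173727, .ofNat 5264936700768⟩, ⟨.negSucc 14828615407295, .ofNat 4116931237008, .ofNat 5014609251552, .negSucc 1395536667263⟩, ⟨.ofNat 2118201948864, .negSucc 595406655935, .negSucc 946435482431, .ofNat 263515374144⟩, ⟨.negSucc 180086223023, .ofNat 54538601184, .ofNat 120573334080, .negSucc 31580349983⟩, ⟨.ofNat 6785438688, .negSucc 2908045151, .negSucc 9948575519, .ofNat 1785641760⟩, ⟨.ofNat 0, .ofNat 76527504, .ofNat 459165024, .ofNat 0⟩]

def S1 : List Q4 := [⟨.ofNat 630304646112, .negSucc 174815055439, .ofNat 0, .ofNat 0⟩, ⟨.negSucc 6743142840095, .ofNat 1870211328288, .negSucc 1870211328287, .ofNat 518703295392⟩, ⟨.ofNat 29002342328496, .negSucc 8043802490303, .ofNat 14843334030336, .negSucc 4116800149631⟩, ⟨.negSucc 70111370940479, .ofNat 19445395609152, .negSucc 49135290769727, .ofNat 13627677715776⟩, ⟨.ofNat 109485944285472, .negSucc 30365937389519, .ofNat 92826379686528, .negSucc 25745405513471⟩, ⟨.negSucc 118769250703967, .ofNat 32940663338592,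 .negSucc 113293969043039, .ofNat 31422093430752⟩, ⟨.ofNat 93197731186224, .negSucc 25848399763583, .ofNat 94902182046720, .negSucc 26321129646335⟩, ⟨.negSucc 54021135848831, .ofNat 14982763985280, .negSucc 56177226435455, .ofNat 15580755430272⟩, ⟨.ofNat 23281409528352, .negSucc 6457141679471, .ofNat 23707351537920, .negSucc 6575189395967⟩, ⟨.negSucc 7411060166111, .ofNat 2055782589408, .negSucc 7069758835679, .ofNat 1960913678688⟩, ⟨.ofNat 1706280848784, .negSucc 473506845119, .ofNat 1445504403456, .negSucc 401775064703⟩, ⟨.negSucc 273855090239, .ofNat 75495799872, .negSucc 189459425087, .ofNat 53591927616⟩, ⟨.ofNat 29233506528, .negSucc 7542210671, .ofNat 13672914048, .negSucc 4217515775⟩, ⟨.negSucc 1989715103, .ofNat 357128352, .negSucc 357128351, .ofNat 153055008⟩, ⟨.ofNat 76527504, .ofNat 0, .ofNat 0, .ofNat 0⟩]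

def T2 : List Q4 := [⟨.ofNat 3781827876672, .negSucc 1048890332639, .ofNat 2272595720720, .negSucc 630304646111⟩, ⟨.negSucc 33715714200479, .ofNat 9351056641440, .negSucc 35534015237471, .ofNat 9855362612448⟩, ⟨.ofNat 120495652025760, .negSucc 33419480911487, .ofNat 193629436555968, .negSucc 53703143226287⟩, ⟨.negSucc 243508415337791, .ofNat 67537082885184, .negSucc 547601887537343, .ofNat 151877437235136⟩, ⟨.ofNat 322225394037696, .negSucc 89369244650591, .ofNat 951715464182928, .negSucc 263958377366303⟩, ⟨.negSucc 304128289624031, .ofNat 84350010988512, .negSucc 1107992437659935, .ofNat 307301811288480⟩, ⟨.ofNat 217011701714976, .negSucc 60188216534783, .ofNat 905442289206912, .negSucc 251124509064239⟩, ⟨.negSucc 121576994499455, .ofNat 33719357476224, .negSucc 531839290421375, .ofNat 147505668430464⟩, ⟨.ofNat 54210995022528, .negSucc 15035498538911, .ofNat 226186951060656, .negSucc 62732545904159⟩, ⟨.negSucc 18974483173727, .ofNat 5264936700768, .negSucc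 69143726676383, .ofNat 19176542238240⟩, ⟨.ofNat 5014609251552, .negSucc 1395536667263, .ofNat 14828615407296, .negSucc 4116931237007⟩, ⟨.negSucc 946435482431, .ofNat 263515374144, .negSucc 2118201948863, .ofNat 595406655936⟩, ⟨.ofNat 120573334080, .negSucc 31580349983, .ofNat 180086223024, .negSucc 54538601183⟩, ⟨.negSucc 9948575519, .ofNat 1785641760, .negSucc 6785438687, .ofNat 2908045152⟩, ⟨.ofNat 459165024, .ofNat 0, .ofNat 0, .negSucc 76527503⟩]

def A : List Q4 := [⟨.negSucc 472, .negSucc 28, .negSucc 285, .negSucc 157⟩, ⟨.ofNat 22887, .ofNat 6291, .negSucc 12674, .negSucc 3446⟩, ⟨.ofNat 34182, .ofNat 9486, .ofNat 17667, .ofNat 4887⟩]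

def B : List Q4 := [⟨.ofNat 3893, .ofNat 1071, .ofNat 7520, .ofNat 2082⟩, ⟨.negSucc 52274, .negSucc 14486, .ofNat 45147, .ofNat 12531⟩, ⟨.negSucc 14525, .negSucc 4031, .ofNat 567, .ofNat 153⟩]

def κ : Q4 := ⟨0, 0, -1, 0⟩

def m2 : Q4 := ⟨6, 0, 0, -1⟩

def zl : Q4 := ⟨18, -5, 0, 0⟩

def zl' : Q4 := ⟨18, 5, 0, 0⟩

def c1 : Q4 := ⟨0, 0, 36, 0⟩

def c2 : Q4 := ⟨-18, -5, 0, 0⟩

def κi : Q4 := ⟨0, 0, 1, 0⟩

def h0i : Q4 := ⟨.ofNat 0, .ofNat 0, .negSucc 648, .negSucc 179⟩

theorem ok : IsoOk (13) (-1) κ m2 zl zl' c1 c2 (9) (128) u u1 h h1 u2 h2 u4 uh2 h4 a0 a1 a2 W W2 T1 S1 T2 A B where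
  k1 := by decide +kernel
  k2 := by decide +kernel
  k3 := by decide +kernel
  k4 := by decide +kernel
  k5 := by decide +kernel
  k6 := by decide +kernel
  k7 := by decide +kernel
  k8 := by decide +kernel
  k9 := by decide +kernel
  k10 := by decide +kernel
  k11 := by decide +kernel
  k12 := by decide +kernel
  k13 := by decide +kernel
  k14 := by decide +kernel
  k15 := by decide +kernel
  k16 := by decide +kernel
  k17 := by decide +kernel
  k18 := by decide +kernel
  k19 := by decide +kernel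

/-- the isogeny -/
theorem psi {O K k : Type*} [CommRing O] [IsDomain O] [Field K] [Algebra O K] [Field k]
    (S : DV O K k) {p : ℕ} [hp : Fact p.Prime] [CharP k p] (h2 : p ≠ 2) (h3 : p ≠ 3)
    {s r z m : O} (hs : s ^ 2 = 13) (hr : r ^ 2 = -1) (hz : 36 * z = 18 - 5 * s) (hm : m ^ 2 = 6 - (s * r)) :
    Dat S (cub (qa z) (qb z)) (qa (1 - z)) (qb (1 - z)) m 7 := by
  have hs' : s ^ 2 = ((13 : ℤ) : O) := by rw [hs]; norm_num
  have hr' : r ^ 2 = ((-1 : ℤ) : O) := by rw [hr]; norm_num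
  refine Dat.of_isoN (e := 3) S ok hs' hr' h3 (κi := κi) (h0i := h0i) (L := 54) (Nκ := 1) (Nh := 2)
    ?_ ?_ ?_ (by decide) (by decide) (by decide +kernel) (by decide +kernel) (by decide +kernel)
    (ndvd_fac [(3, 2)] (by intro q hq; simp only [List.mem_cons, List.mem_nil_iff, or_false] at hq; rcases hq with rfl <;> refine ⟨by norm_num, ?_⟩ <;> assumption) (by decide +kernel))
    (ndvd_fac [(2, 1), (3, 3)] (by intro q hq; simp only [List.mem_cons, List.mem_nil_iff, or_false] at hq; rcases hq with rfl | rfl <;> refine ⟨by norm_num, ?_⟩ <;> assumption) (by decide +kernel))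
    (ndvd_fac [] (by simp) (by decide +kernel))
    (ndvd_fac [(2, 1)] (by intro q hq; simp only [List.mem_cons, List.mem_nil_iff, or_false] at hq; rcases hq with rfl <;> refine ⟨by norm_num, ?_⟩ <;> assumption) (by decide +kernel))
    (ndvd_fac [(2, 7)] (by intro q hq; simp only [List.mem_cons, List.mem_nil_iff, or_false] at hq; rcases hq with rfl <;> refine ⟨by norm_num, ?_⟩ <;> assumption) (by decide +kernel))
  · simp only [e4, zl]; push_cast; linear_combination hz
  · simp only [e4, zl']; push_cast; linear_combination -hz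
  · rw [hm]; simp only [e4, m2]; push_cast; ring


end Pool.Agent.H546.I52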