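import Pool.Agent.H546.QCM

set_option autoImplicit false
set_option maxRecDepth 100000
set_option maxHeartbeats 4000000

/-!
# An explicit isogeny of degree 7
-/

namespace Pool.Agent.H546.I7

def u : List Q4 := [⟨.negSucc 3331, .negSucc 139, .ofNat 0, .ofNat 0⟩, ⟨.ofNat 1470, .ofNat 378, .ofNat 0, .ofNat 0⟩, ⟨.negSucc 1322, .ofNat 63, .ofNat 0, .ofNat 0⟩, ⟨.ofNat 189, .ofNat 0, .ofNat 0, .ofNat 0⟩]

def u1 : List Q4 := [⟨.ofNat 1470, .ofNat 378, .ofNat 0, .ofNat 0⟩, ⟨.negSucc 2645, .ofNat 126, .ofNat 0, .ofNat 0⟩, ⟨.ofNat 567, .ofNat 0, .ofNat 0, .ofNat 0⟩]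

def h : List Q4 := [⟨.ofNat 476, .ofNat 20, .ofNat 0, .ofNat 0⟩, ⟨.negSucc 545, .negSucc 293, .ofNat 0, .ofNat 0⟩, ⟨.negSucc 314, .ofNat 63, .ofNat 0, .ofNat 0⟩, ⟨.ofNat 189, .ofNat 0, .ofNat 0, .ofNat 0⟩]

def h1 : List Q4 := [⟨.negSucc 545, .negSucc 293, .ofNat 0, .ofNat 0⟩, ⟨.negSucc 629, .ofNat 126, .ofNat 0, .ofNat 0⟩, ⟨.ofNat 567, .ofNat 0, .ofNat 0, .ofNat 0⟩]

def u2 : List Q4 := [⟨.ofNat 10965024, .ofNat 932960, .ofNat 0, .ofNat 0⟩, ⟨.negSucc 9055199, .negSucc 2930591, .ofNat 0, .ofNat 0⟩, ⟨.ofNat 10100664, .ofNat 1061928, .ofNat 0, .ofNat 0⟩, ⟨.negSucc 5482511, .negSucc 867887, .ofNat 0, .ofNat 0⟩, ⟨.ofNat 2278206, .negSucc 23813, .ofNat 0, .ofNat 0⟩, ⟨.negSucc 500093, .ofNat 23814, .ofNat 0, .ofNat 0⟩, ⟨.ofNat 35721, .ofNat 0, .ofNat 0, .ofNat 0⟩]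

def h2 : List Q4 := [⟨.ofNat 223776, .ofNat 19040, .ofNat 0, .ofNat 0⟩, ⟨.negSucc 437471, .negSucc 301727, .ofNat 0, .ofNat 0⟩, ⟨.negSucc 624455, .ofNat 368424, .ofNat 0, .ofNat 0⟩, ⟨.ofNat 783216, .ofNat 123984, .ofNat 0, .ofNat 0⟩, ⟨.negSucc 134945, .negSucc 150821, .ofNat 0, .ofNat 0⟩, ⟨.negSucc 119069, .ofNat 23814, .ofNat 0, .ofNat 0⟩, ⟨.ofNat 35721, .ofNat 0, .ofNat 0, .ofNat 0⟩]

def u4 : List Q4 := [⟨.ofNat 114138850789376, .ofNat 20459857582080, .ofNat 0, .ofNat 0⟩, ⟨.negSucc 160303219077119, .negSucc 81164302012415, .ofNat 0, .ofNat 0⟩, ⟨.ofNat 229515798242304, .ofNat 95209356340224, .ofNat 0, .ofNat 0⟩, ⟨.negSucc 248253861768191, .negSucc 107696545367039, .ofNat 0, .ofNat 0⟩, ⟨.ofNat 208084314275712, .ofNat 73032874266240, .ofNat 0, .ofNat 0⟩, ⟨.negSucc 151365539372543, .negSucc 42509152885247, .ofNat 0, .ofNat 0⟩, ⟨.ofNat 81979473244032, .ofNat 16440434220672,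 .ofNat 0, .ofNat 0⟩, ⟨.negSucc 36373460925311, .negSucc 4483754787455, .ofNat 0, .ofNat 0⟩, ⟨.ofNat 11680757569656, .ofNat 574289946216, .ofNat 0, .ofNat 0⟩, ⟨.negSucc 2662376432687, .ofNat 70321217904, .ofNat 0, .ofNat 0⟩, ⟨.ofNat 408883855716, .negSucc 25519796819, .ofNat 0, .ofNat 0⟩, ⟨.negSucc 35727715547, .ofNat 1701319788, .ofNat 0, .ofNat 0⟩, ⟨.ofNat 1275989841, .ofNat 0, .ofNat 0, .ofNat 0⟩]

def uh2 : List Q4 := [⟨.ofNat 2329364301824, .ofNat 417548113920, .ofNat 0, .ofNat 0⟩, ⟨.negSucc 4462137028607, .negSucc 4544805801983, .ofNat 0, .ofNat 0⟩, ⟨.negSucc 9362791775231, .ofNat 7901395504128, .ofNat 0, .ofNat 0⟩, ⟨.ofNat 17703708115968, .negSucc 3226746958847, .ofNat 0, .ofNat 0⟩, ⟨.negSucc 13011195867263, .negSucc 67500687743, .ofNat 0, .ofNat 0⟩, ⟨.ofNat 8156029045248, .ofNat 1836163800576, .ofNat 0, .ofNat 0⟩, ⟨.negSucc 2908418679935, .negSucc 1864190401919,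 .ofNat 0, .ofNat 0⟩, ⟨.ofNat 160638194304, .ofNat 1007325341568, .ofNat 0, .ofNat 0⟩, ⟨.ofNat 391051503864, .negSucc 359869642775, .ofNat 0, .ofNat 0⟩, ⟨.negSucc 342532383983, .ofNat 102727309104, .ofNat 0, .ofNat 0⟩, ⟨.ofNat 132135836868, .negSucc 20982944051, .ofNat 0, .ofNat 0⟩, ⟨.negSucc 22117157243, .ofNat 1701319788, .ofNat 0, .ofNat 0⟩, ⟨.ofNat 1275989841, .ofNat 0, .ofNat 0, .ofNat 0⟩]

def h4 : List Q4 := [⟨.ofNat 47538046976, .ofNat 8521390080, .ofNat 0, .ofNat 0⟩, ⟨.negSucc 115362852863, .negSucc 151697903615, .ofNat 0, .ofNat 0⟩, ⟨.negSucc 823580384255, .ofNat 405104716800, .ofNat 0, .ofNat 0⟩, ⟨.ofNat 2420138456064, .ofNat 139795504128, .ofNat 0, .ofNat 0⟩, ⟨.negSucc 741938569343, .negSucc 1113884037503, .ofNat 0, .ofNat 0⟩, ⟨.negSucc 2196338167295, .ofNat 641784632832, .ofNat 0, .ofNat 0⟩, ⟨.ofNat 1673050474368, .ofNat 335519065728, .ofNat 0, .ofNat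 0⟩, ⟨.ofNat 45032464512, .negSucc 408748830335, .ofNat 0, .ofNat 0⟩, ⟨.negSucc 413483720327, .ofNat 74804060520, .ofNat 0, .ofNat 0⟩, ⟨.ofNat 138374009424, .ofNat 38347207920, .ofNat 0, .ofNat 0⟩, ⟨.ofNat 567106596, .negSucc 16446091283, .ofNat 0, .ofNat 0⟩, ⟨.negSucc 8506598939, .ofNat 1701319788, .ofNat 0, .ofNat 0⟩, ⟨.ofNat 1275989841, .ofNat 0, .ofNat 0, .ofNat 0⟩]

def a0 : List Q4 := [⟨.negSucc 1566431, .negSucc 133279, .ofNat 0, .ofNat 0⟩, ⟨.ofNat 2177952, .ofNat 1265376, .ofNat 0, .ofNat 0⟩, ⟨.ofNat 448056, .negSucc 800855, .ofNat 0, .ofNat 0⟩, ⟨.negSucc 317519, .ofNat 305424, .ofNat 0, .ofNat 0⟩, ⟨.ofNat 563598, .negSucc 87317, .ofNat 0, .ofNat 0⟩, ⟨.negSucc 309581, .ofNat 23814, .ofNat 0, .ofNat 0⟩, ⟨.ofNat 35721, .ofNat 0, .ofNat 0, .ofNat 0⟩]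

def a1 : List Q4 := [⟨.ofNat 646800, .ofNat 209328, .ofNat 0, .ofNat 0⟩, ⟨.negSucc 1301831, .negSucc 631511, .ofNat 0, .ofNat 0⟩, ⟨.ofNat 1344168, .ofNat 694008, .ofNat 0, .ofNat 0⟩, ⟨.ofNat 746172, .negSucc 301643, .ofNat 0, .ofNat 0⟩, ⟨.negSucc 678698, .ofNat 59535, .ofNat 0, .ofNat 0⟩, ⟨.ofNat 107163, .ofNat 0, .ofNat 0, .ofNat 0⟩]

def a2 : List Q4 := [⟨.ofNat 1531152, .ofNat 1056048, .ofNat 0, .ofNat 0⟩, ⟨.ofNat 2197944, .negSucc 970199, .ofNat 0, .ofNat 0⟩, ⟨.negSucc 2296727, .ofNat 222264, .ofNat 0, .ofNat 0⟩, ⟨.ofNat 1508220, .negSucc 47627, .ofNat 0, .ofNat 0⟩, ⟨.negSucc 869210, .ofNat 59535, .ofNat 0, .ofNat 0⟩, ⟨.ofNat 107163, .ofNat 0, .ofNat 0, .ofNat 0⟩]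

def W : List Q4 := [⟨.negSucc 1566431, .negSucc 133279, .ofNat 0, .ofNat 0⟩, ⟨.ofNat 409248, .negSucc 428063, .ofNat 0, .ofNat 0⟩, ⟨.negSucc 6551495, .negSucc 123479, .ofNat 0, .ofNat 0⟩, ⟨.ofNat 6964272, .ofNat 1248912, .ofNat 0, .ofNat 0⟩, ⟨.negSucc 960497, .negSucc 595349, .ofNat 0, .ofNat 0⟩, ⟨.ofNat 71442, .ofNat 23814, .ofNat 0, .ofNat 0⟩, ⟨.ofNat 35721, .ofNat 0, .ofNat 0, .ofNat 0⟩]

def W2 : List Q4 := [⟨.ofNat 2329364301824, .ofNat 417548113920, .ofNat 0, .ofNat 0⟩, ⟨.negSucc 2080851505151, .ofNat 1231977148416, .ofNat 0, .ofNat 0⟩, ⟨.ofNat 19179354571776, .ofNat 1782844148736, .ofNat 0, .ofNat 0⟩, ⟨.negSucc 25590123224063, .negSucc 261216506879, .ofNat 0, .ofNat 0⟩, ⟨.ofNat 57898431303552, .negSucc 1200940401023, .ofNat 0, .ofNat 0⟩, ⟨.negSucc 93627198604799, .negSucc 17843012522495, .ofNat 0, .ofNat 0⟩, ⟨.ofNat 49228101143424, .ofNat 25382402994816,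 .ofNat 0, .ofNat 0⟩, ⟨.negSucc 3834480746879, .negSucc 11051773342847, .ofNat 0, .ofNat 0⟩, ⟨.negSucc 1447886151431, .ofNat 1644987199464, .ofNat 0, .ofNat 0⟩, ⟨.ofNat 558789032592, .negSucc 41587817039, .ofNat 0, .ofNat 0⟩, ⟨.negSucc 67485684923, .negSucc 39130355123, .ofNat 0, .ofNat 0⟩, ⟨.ofNat 5103959364, .ofNat 1701319788, .ofNat 0, .ofNat 0⟩, ⟨.ofNat 1275989841, .ofNat 0, .ofNat 0, .ofNat 0⟩]

def T1 : List Q4 := [⟨.ofNat 71156925407232, .negSucc 15777776967679, .ofNat 0, .ofNat 0⟩, ⟨.negSucc 35074041569279, .ofNat 27952371621888, .ofNat 0, .ofNat 0⟩, ⟨.ofNat 565902405605376, .negSucc 200295595358207, .ofNat 0, .ofNat 0⟩, ⟨.negSucc 1188091801645055, .ofNat 198104740098048, .ofNat 0, .ofNat 0⟩, ⟨.ofNat 2051964562604544, .negSucc 575151848667647, .ofNat 0, .ofNat 0⟩, ⟨.negSucc 5248955087405567, .ofNat 655980666518016, .ofNat 0, .ofNat 0⟩, ⟨.ofNat 6554539061723520,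 .ofNat 596142229673088, .ofNat 0, .ofNat 0⟩, ⟨.negSucc 3457501216049663, .negSucc 1234940733218303, .ofNat 0, .ofNat 0⟩, ⟨.ofNat 670181370415200, .ofNat 670394098400544, .ofNat 0, .ofNat 0⟩, ⟨.ofNat 24760630123488, .negSucc 165021970298975, .ofNat 0, .ofNat 0⟩, ⟨.negSucc 37101247723511, .ofNat 16272556665624, .ofNat 0, .ofNat 0⟩, ⟨.ofNat 7669549604304, .ofNat 1013986593648, .ofNat 0, .ofNat 0⟩, ⟨.negSucc 768145884281, .negSucc 426180606893, .ofNat 0, .ofNat 0⟩, ⟨.ofNat 0, .ofNat 15311878092, .ofNat 0, .ofNat 0⟩, ⟨.ofNat 11483908569, .ofNat 0, .ofNat 0, .ofNat 0⟩]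

def S1 : List Q4 := [⟨.ofNat 71156925407232, .negSucc 15777776967679, .ofNat 0, .ofNat 0⟩, ⟨.negSucc 35074041569279, .ofNat 27952371621888, .ofNat 0, .ofNat 0⟩, ⟨.ofNat 565902405605376, .negSucc 200295595358207, .ofNat 0, .ofNat 0⟩, ⟨.negSucc 1188091801645055, .ofNat 198104740098048, .ofNat 0, .ofNat 0⟩, ⟨.ofNat 2051964562604544, .negSucc 575151848667647, .ofNat 0, .ofNat 0⟩, ⟨.negSucc 5248955087405567, .ofNat 655980666518016, .ofNat 0, .ofNat 0⟩, ⟨.ofNat 6554539061723520, .ofNat 596142229673088, .ofNat 0, .ofNat 0⟩, ⟨.negSucc 3457501216049663, .negSucc 1234940733218303, .ofNat 0, .ofNat 0⟩, ⟨.ofNat 670181370415200, .ofNat 670394098400544, .ofNat 0, .ofNat 0⟩, ⟨.ofNat 24760630123488, .negSucc 165021970298975, .ofNat 0, .ofNat 0⟩, ⟨.negSucc 37101247723511, .ofNat 16272556665624, .ofNat 0, .ofNat 0⟩, ⟨.ofNat 7669549604304, .ofNat 1013986593648, .ofNat 0, .ofNat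 0⟩, ⟨.negSucc 768145884281, .negSucc 426180606893, .ofNat 0, .ofNat 0⟩, ⟨.ofNat 0, .ofNat 15311878092, .ofNat 0, .ofNat 0⟩, ⟨.ofNat 11483908569, .ofNat 0, .ofNat 0, .ofNat 0⟩]

def T2 : List Q4 := [⟨.negSucc 498098477850623, .ofNat 110444438773760, .ofNat 0, .ofNat 0⟩, ⟨.ofNat 245518290984960, .negSucc 195666601353215, .ofNat 0, .ofNat 0⟩, ⟨.negSucc 3961316839237631, .ofNat 1402069167507456, .ofNat 0, .ofNat 0⟩, ⟨.ofNat 8316642611515392, .negSucc 1386733180686335, .ofNat 0, .ofNat 0⟩, ⟨.negSucc 14363751938231807, .ofNat 4026062940673536, .ofNat 0, .ofNat 0⟩, ⟨.ofNat 36742685611838976, .negSucc 4591864665626111, .ofNat 0, .ofNat 0⟩, ⟨.negSucc 45881773432064639, .negSucc 4172995607711615, .ofNat 0, .ofNat 0⟩, ⟨.ofNat 24202508512347648, .ofNat 8644585132528128, .ofNat 0, .ofNat 0⟩, ⟨.negSucc 4691269592906399, .negSucc 4692758688803807, .ofNat 0, .ofNat 0⟩, ⟨.negSucc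 173324410864415, .ofNat 1155153792092832, .ofNat 0, .ofNat 0⟩, ⟨.ofNat 259708734064584, .negSucc 113907896659367, .ofNat 0, .ofNat 0⟩, ⟨.negSucc 53686847230127, .negSucc 7097906155535, .ofNat 0, .ofNat 0⟩, ⟨.ofNat 5377021189974, .ofNat 2983264248258, .ofNat 0, .ofNat 0⟩, ⟨.ofNat 0, .negSucc 107183146643, .ofNat 0, .ofNat 0⟩, ⟨.negSucc 80387359982, .ofNat 0, .ofNat 0, .ofNat 0⟩]

def A : List Q4 := [⟨.negSucc 1455, .negSucc 15, .ofNat 0, .ofNat 0⟩, ⟨.negSucc 251, .ofNat 84, .ofNat 0, .ofNat 0⟩, ⟨.ofNat 189, .negSucc 62, .ofNat 0, .ofNat 0⟩]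

def B : List Q4 := [⟨.negSucc 2575, .negSucc 431, .ofNat 0, .ofNat 0⟩, ⟨.ofNat 1260, .negSucc 419, .ofNat 0, .ofNat 0⟩, ⟨.negSucc 188, .ofNat 63, .ofNat 0, .ofNat 0⟩]

def κ : Q4 := ⟨-7, 0, 0, 0⟩

def m2 : Q4 := ⟨-7, 0, 0, 0⟩

def zl : Q4 := ⟨18, -10, 0, 0⟩

def zl' : Q4 := ⟨18, -10, 0, 0⟩

def c1 : Q4 := ⟨252, 0, 0, 0⟩

def c2 : Q4 := ⟨882, -490, 0, 0⟩

def κi : Q4 := ⟨-1, 0, 0, 0⟩

def h0i : Q4 := ⟨.ofNat 119, .negSucc 4, .ofNat 0, .ofNat 0⟩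

theorem ok : IsoOk (-7) (-1) κ m2 zl zl' c1 c2 (9) (3670016) u u1 h h1 u2 h2 u4 uh2 h4 a0 a1 a2 W W2 T1 S1 T2 A B where
  k1 := by decide +kernel
  k2 := by decide +kernel
  k3 := by decide +kernel
  k4 := by decide +kernel
  k5 := by decide +kernel
  k6 := by decide +kernel
  k7 := by decide +kernel
  k8 := by decide +kernel
  k9 := by decide +kernel
  k10 := by decide +kernel
  k11 := by decide +kernel
  k12 := by decide +kernel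
  k13 := by decide +kernel
  k14 := by decide +kernel
  k15 := by decide +kernel
  k16 := by decide +kernel
  k17 := by decide +kernel
  k18 := by decide +kernel
  k19 := by decide +kernel

/-- the isogeny -/
theorem psi {O K k : Type*} [CommRing O] [IsDomain O] [Field K] [Algebra O K] [Field k]
    (S : DV O K k) {p : ℕ} [hp : Fact p.Prime] [CharP k p] (h2 : p ≠ 2) (h3 : p ≠ 3) (h7 : p ≠ 7)
    {s r z m : O} (hs : s ^ 2 = -7) (hr : r ^ 2 = -1) (hz : 36 * z = 18 - 10 * s) (hm : m ^ 2 = -7) :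
    Dat S (cub (qa z) (qb z)) (qa z) (qb z) m 7 := by
  have hs' : s ^ 2 = ((-7 : ℤ) : O) := by rw [hs]; norm_num
  have hr' : r ^ 2 = ((-1 : ℤ) : O) := by rw [hr]; norm_num
  refine Dat.of_isoN (e := 3) S ok hs' hr' h3 (κi := κi) (h0i := h0i) (L := 189) (Nκ := 7) (Nh := 57344)
    ?_ ?_ ?_ (by decide) (by decide) (by decide +kernel) (by decide +kernel) (by decide +kernel)
    (ndvd_fac [(3, 2)] (by intro q hq; simp only [List.mem_cons, List.mem_nil_iff, or_false] at hq; rcases hq with rfl <;> refine ⟨by norm_num, ?_⟩ <;> assumption) (by decide +kernel))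
    (ndvd_fac [(3, 3), (7, 1)] (by intro q hq; simp only [List.mem_cons, List.mem_nil_iff, or_false] at hq; rcases hq with rfl | rfl <;> refine ⟨by norm_num, ?_⟩ <;> assumption) (by decide +kernel))
    (ndvd_fac [(7, 1)] (by intro q hq; simp only [List.mem_cons, List.mem_nil_iff, or_false] at hq; rcases hq with rfl <;> refine ⟨by norm_num, ?_⟩ <;> assumption) (by decide +kernel))
    (ndvd_fac [(2, 13), (7, 1)] (by intro q hq; simp only [List.mem_cons, List.mem_nil_iff, or_false] at hq; rcases hq with rfl | rfl <;> refine ⟨by norm_num, ?_⟩ <;> assumption) (by decide +kernel))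
    (ndvd_fac [(2, 19), (7, 1)] (by intro q hq; simp only [List.mem_cons, List.mem_nil_iff, or_false] at hq; rcases hq with rfl | rfl <;> refine ⟨by norm_num, ?_⟩ <;> assumption) (by decide +kernel))
  · simp only [e4, zl]; push_cast; linear_combination hz
  · simp only [e4, zl']; push_cast; linear_combination hz
  · rw [hm]; simp only [e4, m2]; push_cast; ring


end Pool.Agent.H546.I7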