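import Pool.Agent.H546.QCM

set_option autoImplicit false
set_option maxRecDepth 100000
set_option maxHeartbeats 4000000

/-!
# An explicit isogeny of degree 9
-/

namespace Pool.Agent.H546.I72

def u : List Q4 := [⟨.ofNat 17460, .negSucc 7127, .ofNat 0, .ofNat 0⟩, ⟨.negSucc 50735, .ofNat 20748, .ofNat 0, .ofNat 0⟩, ⟨.ofNat 56448, .negSucc 19403, .ofNat 0, .ofNat 0⟩, ⟨.ofNat 0, .ofNat 18522, .ofNat 0, .ofNat 0⟩, ⟨.ofNat 7203, .ofNat 0, .ofNat 0, .ofNat 0⟩]

def u1 : List Q4 := [⟨.negSucc 50735, .ofNat 20748, .ofNat 0, .ofNat 0⟩, ⟨.ofNat 112896, .negSucc 38807, .ofNat 0, .ofNat 0⟩, ⟨.ofNat 0, .ofNat 55566, .ofNat 0, .ofNat 0⟩, ⟨.ofNat 28812, .ofNat 0, .ofNat 0, .ofNat 0⟩]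

def h : List Q4 := [⟨.ofNat 190100, .negSucc 77607, .ofNat 0, .ofNat 0⟩, ⟨.negSucc 299375, .ofNat 122220, .ofNat 0, .ofNat 0⟩, ⟨.ofNat 171696, .negSucc 69971, .ofNat 0, .ofNat 0⟩, ⟨.negSucc 38415, .ofNat 18522, .ofNat 0, .ofNat 0⟩, ⟨.ofNat 7203, .ofNat 0, .ofNat 0, .ofNat 0⟩]

def h1 : List Q4 := [⟨.negSucc 299375, .ofNat 122220, .ofNat 0, .ofNat 0⟩, ⟨.ofNat 343392, .negSucc 139943, .ofNat 0, .ofNat 0⟩, ⟨.negSucc 115247, .ofNat 55566, .ofNat 0, .ofNat 0⟩, ⟨.ofNat 28812, .ofNat 0, .ofNat 0, .ofNat 0⟩]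

def u2 : List Q4 := [⟨.ofNat 609701904, .negSucc 248909759, .ofNat 0, .ofNat 0⟩, ⟨.negSucc 3546402047, .ofNat 1447812576, .ofNat 0, .ofNat 0⟩, ⟨.ofNat 8787923424, .negSucc 3587651423, .ofNat 0, .ofNat 0⟩, ⟨.negSucc 12143319551, .ofNat 4958117136, .ofNat 0, .ofNat 0⟩, ⟨.ofNat 10308530232, .negSucc 4172784335, .ofNat 0, .ofNat 0⟩, ⟨.negSucc 5043713471, .ofNat 2389955400, .ofNat 0, .ofNat 0⟩, ⟨.ofNat 2871576792, .negSucc 279534023, .ofNat 0, .ofNat 0⟩, ⟨.ofNat 0, .ofNat 266827932, .ofNat 0, .ofNat 0⟩, ⟨.ofNat 51883209, .ofNat 0, .ofNat 0, .ofNat 0⟩]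

def h2 : List Q4 := [⟨.ofNat 72276019984, .negSucc 29506561599, .ofNat 0, .ofNat 0⟩, ⟨.negSucc 227645752319, .ofNat 92935989216, .ofNat 0, .ofNat 0⟩, ⟨.ofNat 309695822688, .negSucc 126432790175, .ofNat 0, .ofNat 0⟩, ⟨.negSucc 237282285183, .ofNat 96870087440, .ofNat 0, .ofNat 0⟩, ⟨.ofNat 111761344632, .negSucc 45626337455, .ofNat 0, .ofNat 0⟩, ⟨.negSucc 33056814335, .ofNat 13497096648, .ofNat 0, .ofNat 0⟩, ⟨.ofNat 6007628536, .negSucc 2431098935, .ofNat 0, .ofNat 0⟩, ⟨.negSucc 553420895, .ofNat 266827932, .ofNat 0, .ofNat 0⟩, ⟨.ofNat 51883209, .ofNat 0, .ofNat 0, .ofNat 0⟩]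

def u4 : List Q4 := [⟨.ofNat 743472823480770816, .negSucc 303521509192366079, .ofNat 0, .ofNat 0⟩, ⟨.negSucc 8648992331835899903, .ofNat 3530936333707066368, .ofNat 0, .ofNat 0⟩, ⟨.ofNat 46585979763977106432, .negSucc 19018646598227770367, .ofNat 0, .ofNat 0⟩, ⟨.negSucc 154279076516693065727, .ofNat 62984169242283502080, .ofNat 0, .ofNat 0⟩, ⟨.ofNat 351760355308758719232, .negSucc 143605563707727152639, .ofNat 0, .ofNat 0⟩, ⟨.negSucc 585787299943169286143, .ofNat 239146663787815843584, .ofNat 0, .ofNat 0⟩, ⟨.ofNat 737417977535198598912, .negSucc 301049627141972669183, .ofNat 0, .ofNat 0⟩, ⟨.negSucc 716189933004315549695, .ofNat 292383430783425733248, .ofNat 0, .ofNat 0⟩, ⟨.ofNat 542633475136437048672, .negSucc 221525042673929275007, .ofNat 0, .ofNat 0⟩, ⟨.negSucc 321887690277960167423, .ofNat 131470643480765375808, .ofNat 0, .ofNat 0⟩, ⟨.ofNat 149698522219485871296, .negSucc 60689243110680717119, .ofNat 0, .ofNat 0⟩, ⟨.negSucc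 51604761058319121407, .ofNat 22561353629327715552, .ofNat 0, .ofNat 0⟩, ⟨.ofNat 17436950436264949296, .negSucc 4730008986087370271, .ofNat 0, .ofNat 0⟩, ⟨.negSucc 1418417906978483711, .ofNat 1780430905014865488, .ofNat 0, .ofNat 0⟩, ⟨.ofNat 725156109490150800, .negSucc 29006244379606031, .ofNat 0, .ofNat 0⟩, ⟨.ofNat 0, .ofNat 27687778725987576, .ofNat 0, .ofNat 0⟩, ⟨.ofNat 2691867376137681, .ofNat 0, .ofNat 0, .ofNat 0⟩]

def uh2 : List Q4 := [⟨.ofNat 88133653995474145536, .negSucc 35980413575985930239, .ofNat 0, .ofNat 0⟩, ⟨.negSucc 790231748300257923071, .ofNat 322610760313849986048, .ofNat 0, .ofNat 0⟩, ⟨.ofNat 3262602666912838953984, .negSucc 1331951961230006796287, .ofNat 0, .ofNat 0⟩, ⟨.negSucc 8242472506278296659967, .ofNat 3364975309883507034624, .ofNat 0, .ofNat 0⟩, ⟨.ofNat 14275349653341618374400, .negSucc 5827887091750615234559, .ofNat 0, .ofNat 0⟩, ⟨.negSucc 17986555057931864183807, .ofNat 7342980353734833964800,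 .ofNat 0, .ofNat 0⟩, ⟨.ofNat 17065087703252909026560, .negSucc 6966792881468298160127, .ofNat 0, .ofNat 0⟩, ⟨.negSucc 12441858950536056340991, .ofNat 5079367646838720402048, .ofNat 0, .ofNat 0⟩, ⟨.ofNat 7046588699740065944160, .negSucc 2876757783811994396159, .ofNat 0, .ofNat 0⟩, ⟨.negSucc 3110788412697655339775, .ofNat 1269974267216235572544, .ofNat 0, .ofNat 0⟩, ⟨.ofNat 1066794330431513920320, .negSucc 435513547064273836031, .ofNat 0, .ofNat 0⟩, ⟨.negSucc 281097369373622933375, .ofNat 114782316877431272160, .ofNat 0, .ofNat 0⟩, ⟨.ofNat 55888144609147225200, .negSucc 22733098408974764159, .ofNat 0, .ofNat 0⟩, ⟨.negSucc 7905603771201253823, .ofNat 3348191207298449232, .ofNat 0, .ofNat 0⟩, ⟨.ofNat 887864537558917296, .negSucc 288304489591235711, .ofNat 0, .ofNat 0⟩, ⟨.negSucc 28713252012135263, .ofNat 27687778725987576, .ofNat 0, .ofNat 0⟩, ⟨.ofNat 2691867376137681, .ofNat 0, .ofNat 0, .ofNat 0⟩]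

def h4 : List Q4 := [⟨.ofNat 10447646129455134720256, .negSucc 4265233671721454028799, .ofNat 0, .ofNat 0⟩, ⟨.negSucc 65813315775812145192959, .ofNat 26868173655233694809088, .ofNat 0, .ofNat 0⟩, ⟨.ofNat 193179502976852238443520, .negSucc 78865201842958662878207, .ofNat 0, .ofNat 0⟩, ⟨.negSucc 350603030983053388058623, .ofNat 143133088030280344152576, .ofNat 0, .ofNat 0⟩, ⟨.ofNat 440198869043347033756416, .negSucc 179710435751072337603071, .ofNat 0, .ofNat 0⟩, ⟨.negSucc 405266731652788737951743, .ofNat 165449450379128124577536, .ofNat 0, .ofNat 0⟩, ⟨.ofNat 282885885334205783556864, .negSucc 115487679084045889608959, .ofNat 0, .ofNat 0⟩, ⟨.negSucc 152649661237123139970047, .ofNat 62318963239943371145856, .ofNat 0, .ofNat 0⟩, ⟨.ofNat 64324911308338796848992, .negSucc 26260535075863593391487, .ofNat 0, .ofNat 0⟩, ⟨.negSucc 21227077791048795964927, .ofNat 8665918220094039655744, .ofNat 0, .ofNat 0⟩, ⟨.ofNat 5464631370561764925888,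 .negSucc 2230926403604556724415, .ofNat 0, .ofNat 0⟩, ⟨.negSucc 1085356084803552645887, .ofNat 443094954299530860768, .ofNat 0, .ofNat 0⟩, ⟨.ofNat 162955619506158857392, .negSucc 66524873744009207519, .ofNat 0, .ofNat 0⟩, ⟨.negSucc 17863902767557709183, .ofNat 7297393472384435280, .ofNat 0, .ofNat 0⟩, ⟨.ofNat 1356847653757126608, .negSucc 547602734802865391, .ofNat 0, .ofNat 0⟩, ⟨.negSucc 57426504024270527, .ofNat 27687778725987576, .ofNat 0, .ofNat 0⟩, ⟨.ofNat 2691867376137681, .ofNat 0, .ofNat 0, .ofNat 0⟩]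

def a0 : List Q4 := [⟨.ofNat 6638284944, .negSucc 2710068479, .ofNat 0, .ofNat 0⟩, ⟨.negSucc 29760388223, .ofNat 12149627616, .ofNat 0, .ofNat 0⟩, ⟨.ofNat 56160637344, .negSucc 22927484159, .ofNat 0, .ofNat 0⟩, ⟨.negSucc 58637984831, .ofNat 23938870032, .ofNat 0, .ofNat 0⟩, ⟨.ofNat 37170764568, .negSucc 15173551679, .ofNat 0, .ofNat 0⟩, ⟨.negSucc 14622896735, .ofNat 6000905736, .ofNat 0, .ofNat 0⟩, ⟨.ofNat 3701708136, .negSucc 1355316479, .ofNat 0, .ofNat 0⟩, ⟨.negSucc 276710447, .ofNat 266827932, .ofNat 0, .ofNat 0⟩, ⟨.ofNat 51883209, .ofNat 0, .ofNat 0, .ofNat 0⟩]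

def a1 : List Q4 := [⟨.negSucc 19306178303, .ofNat 7881714288, .ofNat 0, .ofNat 0⟩, ⟨.ofNat 69936461280, .negSucc 28551440735, .ofNat 0, .ofNat 0⟩, ⟨.negSucc 105553074815, .ofNat 43091877528, .ofNat 0, .ofNat 0⟩, ⟨.ofNat 86156293104, .negSucc 35170693151, .ofNat 0, .ofNat 0⟩, ⟨.negSucc 40969281023, .ofNat 16793218260, .ofNat 0, .ofNat 0⟩, ⟨.ofNat 11935255752, .negSucc 4430190743, .ofNat 0, .ofNat 0⟩, ⟨.negSucc 1106841791, .ofNat 933897762, .ofNat 0, .ofNat 0⟩, ⟨.ofNat 207532836, .ofNat 0, .ofNat 0, .ofNat 0⟩]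

def a2 : List Q4 := [⟨.negSucc 10454209919, .ofNat 4267913328, .ofNat 0, .ofNat 0⟩, ⟨.ofNat 42384813408, .negSucc 17303527583, .ofNat 0, .ofNat 0⟩, ⟨.negSucc 70360879679, .ofNat 28724732568, .ofNat 0, .ofNat 0⟩, ⟨.ofNat 62526765168, .negSucc 25523513567, .ofNat 0, .ofNat 0⟩, ⟨.negSucc 32145202655, .ofNat 13211310420, .ofNat 0, .ofNat 0⟩, ⟨.ofNat 10274993064, .negSucc 3701708135, .ofNat 0, .ofNat 0⟩, ⟨.negSucc 830131343, .ofNat 933897762, .ofNat 0, .ofNat 0⟩, ⟨.ofNat 207532836, .ofNat 0, .ofNat 0, .ofNat 0⟩]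

def W : List Q4 := [⟨.ofNat 6638284944, .negSucc 2710068479, .ofNat 0, .ofNat 0⟩, ⟨.negSucc 47464324991, .ofNat 19377229536, .ofNat 0, .ofNat 0⟩, ⟨.ofNat 111263933088, .negSucc 45423310463, .ofNat 0, .ofNat 0⟩, ⟨.negSucc 129022375103, .ofNat 52673159952, .ofNat 0, .ofNat 0⟩, ⟨.ofNat 84429820440, .negSucc 34467910847, .ofNat 0, .ofNat 0⟩, ⟨.negSucc 32271053471, .ofNat 13164721416, .ofNat 0, .ofNat 0⟩, ⟨.ofNat 7022233512, .negSucc 2812281695, .ofNat 0, .ofNat 0⟩, ⟨.negSucc 830131343, .ofNat 266827932, .ofNat 0, .ofNat 0⟩, ⟨.ofNat 51883209, .ofNat 0, .ofNat 0, .ofNat 0⟩]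

def W2 : List Q4 := [⟨.ofNat 88133653995474145536, .negSucc 35980413575985930239, .ofNat 0, .ofNat 0⟩, ⟨.negSucc 1260326855885896544255, .ofNat 514526284341112716288, .ofNat 0, .ofNat 0⟩, ⟨.ofNat 7460131060896655002624, .negSucc 3045585752247424167935, .ofNat 0, .ofNat 0⟩, ⟨.negSucc 24550218944223941670911, .ofNat 10022584914492968176128, .ofNat 0, .ofNat 0⟩, ⟨.ofNat 51497027619762994456320, .negSucc 21023573489738579257343, .ofNat 0, .ofNat 0⟩, ⟨.negSucc 74308242162055991749631, .ofNat 30336212830034106664704, .ofNat 0, .ofNat 0⟩, ⟨.ofNat 77178577492806107915520, .negSucc 31508022321870807444479, .ofNat 0, .ofNat 0⟩, ⟨.negSucc 59270349349138021000703, .ofNat 24197018796972625080960, .ofNat 0, .ofNat 0⟩, ⟨.ofNat 34142218589593740771936, .negSucc 13938502371213349891583, .ofNat 0, .ofNat 0⟩, ⟨.negSucc 14819130540676473322751, .ofNat 6049884688006119347520, .ofNat 0, .ofNat 0⟩, ⟨.ofNat 4824666297490334863680, .negSucc 1969661415459674200319,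 .ofNat 0, .ofNat 0⟩, ⟨.negSucc 1161432493971769401983, .ofNat 474150042008522274528, .ofNat 0, .ofNat 0⟩, ⟨.ofNat 201257324233900809840, .negSucc 82152141874000781183, .ofNat 0, .ofNat 0⟩, ⟨.negSucc 24012147620014295615, .ofNat 9782638445376481104, .ofNat 0, .ofNat 0⟩, ⟨.ofNat 1844972937963426096, .negSucc 734824857616686143, .ofNat 0, .ofNat 0⟩, ⟨.negSucc 86139756036405791, .ofNat 27687778725987576, .ofNat 0, .ofNat 0⟩, ⟨.ofNat 2691867376137681, .ofNat 0, .ofNat 0, .ofNat 0⟩]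

def T1 : List Q4 := [⟨.ofNat 17272397349793089520128, .negSucc 7051426690265586984959, .ofNat 0, .ofNat 0⟩, ⟨.negSucc 264272536301797845771263, .ofNat 107888811161758150293504, .ofNat 0, .ofNat 0⟩, ⟨.ofNat 1713376037306667946367232, .negSucc 699482838152195171536895, .ofNat 0, .ofNat 0⟩, ⟨.negSucc 6335283539886411957202943, .ofNat 2586368674762478208110592, .ofNat 0, .ofNat 0⟩, ⟨.ofNat 15269755679325861141109248, .negSucc 6233851651885646092222463, .ofNat 0, .ofNat 0⟩, ⟨.negSucc 25859276952830192846306303, .ofNat 10557005608624499098195968, .ofNat 0, .ofNat 0⟩, ⟨.ofNat 32213195768675353473683712, .negSucc 13150982102939458736071679, .ofNat 0, .ofNat 0⟩, ⟨.negSucc 30383883802019696824673279, .ofNat 12404168619827187583650816, .ofNat 0, .ofNat 0⟩, ⟨.ofNat 22089916760449941973628352, .negSucc 9018170753940962000900351, .ofNat 0, .ofNat 0⟩, ⟨.negSucc 12500369079775899249368447, .ofNat 5103254306861133836684544, .ofNat 0, .ofNat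 0⟩, ⟨.ofNat 5523054333727056693801696, .negSucc 2254777485653315002980095, .ofNat 0, .ofNat 0⟩, ⟨.negSucc 1899388385292531573377279, .ofNat 775421991018101950274304, .ofNat 0, .ofNat 0⟩, ⟨.ofNat 503489149220175677957664, .negSucc 205548020464202510572799, .ofNat 0, .ofNat 0⟩, ⟨.negSucc 101057651448113015861183, .ofNat 41254356338169211536768, .ofNat 0, .ofNat 0⟩, ⟨.ofNat 14925155134732362054864, .negSucc 6088663840684800860351, .ofNat 0, .ofNat 0⟩, ⟨.negSucc 1553296692207336785855, .ofNat 629533948472921072448, .ofNat 0, .ofNat 0⟩, ⟨.ofNat 107550869146204906674, .negSucc 41540897348556693191, .ofNat 0, .ofNat 0⟩, ⟨.negSucc 4748454051506869283, .ofNat 1356701157573391224, .ofNat 0, .ofNat 0⟩, ⟨.ofNat 131901501430746369, .ofNat 0, .ofNat 0, .ofNat 0⟩]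

def S1 : List Q4 := [⟨.ofNat 17272397349793089520128, .negSucc 7051426690265586984959, .ofNat 0, .ofNat 0⟩, ⟨.negSucc 264272536301797845771263, .ofNat 107888811161758150293504, .ofNat 0, .ofNat 0⟩, ⟨.ofNat 1713376037306667946367232, .negSucc 699482838152195171536895, .ofNat 0, .ofNat 0⟩, ⟨.negSucc 6335283539886411957202943, .ofNat 2586368674762478208110592, .ofNat 0, .ofNat 0⟩, ⟨.ofNat 15269755679325861141109248, .negSucc 6233851651885646092222463, .ofNat 0, .ofNat 0⟩, ⟨.negSucc 25859276952830192846306303, .ofNat 10557005608624499098195968, .ofNat 0, .ofNat 0⟩, ⟨.ofNat 32213195768675353473683712, .negSucc 13150982102939458736071679, .ofNat 0, .ofNat 0⟩, ⟨.negSucc 30383883802019696824673279, .ofNat 12404168619827187583650816, .ofNat 0, .ofNat 0⟩, ⟨.ofNat 22089916760449941973628352, .negSucc 9018170753940962000900351, .ofNat 0, .ofNat 0⟩, ⟨.negSucc 12500369079775899249368447, .ofNat 5103254306861133836684544, .ofNat 0, .ofNat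 0⟩, ⟨.ofNat 5523054333727056693801696, .negSucc 2254777485653315002980095, .ofNat 0, .ofNat 0⟩, ⟨.negSucc 1899388385292531573377279, .ofNat 775421991018101950274304, .ofNat 0, .ofNat 0⟩, ⟨.ofNat 503489149220175677957664, .negSucc 205548020464202510572799, .ofNat 0, .ofNat 0⟩, ⟨.negSucc 101057651448113015861183, .ofNat 41254356338169211536768, .ofNat 0, .ofNat 0⟩, ⟨.ofNat 14925155134732362054864, .negSucc 6088663840684800860351, .ofNat 0, .ofNat 0⟩, ⟨.negSucc 1553296692207336785855, .ofNat 629533948472921072448, .ofNat 0, .ofNat 0⟩, ⟨.ofNat 107550869146204906674, .negSucc 41540897348556693191, .ofNat 0, .ofNat 0⟩, ⟨.negSucc 4748454051506869283, .ofNat 1356701157573391224, .ofNat 0, .ofNat 0⟩, ⟨.ofNat 131901501430746369, .ofNat 0, .ofNat 0, .ofNat 0⟩]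

def T2 : List Q4 := [⟨.ofNat 155451576148137805681152, .negSucc 63462840212390282864639, .ofNat 0, .ofNat 0⟩, ⟨.negSucc 2378452826716180611941375, .ofNat 970999300455823352641536, .ofNat 0, .ofNat 0⟩, ⟨.ofNat 15420384335760011517305088, .negSucc 6295345543369756543832063, .ofNat 0, .ofNat 0⟩, ⟨.negSucc 57017551858977707614826495, .ofNat 23277318072862303872995328, .ofNat 0, .ofNat 0⟩, ⟨.ofNat 137427801113932750269983232, .negSucc 56104664866970814830002175, .ofNat 0, .ofNat 0⟩, ⟨.negSucc 232733492575471735616756735, .ofNat 95013050477620491883763712, .ofNat 0, .ofNat 0⟩, ⟨.ofNat 289918761918078181263153408, .negSucc 118358838926455128624645119, .ofNat 0, .ofNat 0⟩, ⟨.negSucc 273454954218177271422059519, .ofNat 111637517578444688252857344, .ofNat 0, .ofNat 0⟩, ⟨.ofNat 198809250844049477762655168, .negSucc 81163536785468658008103167, .ofNat 0, .ofNat 0⟩, ⟨.negSucc 112503321717983093244316031, .ofNat 45929288761750204530160896,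 .ofNat 0, .ofNat 0⟩, ⟨.ofNat 49707489003543510244215264, .negSucc 20292997370879835026820863, .ofNat 0, .ofNat 0⟩, ⟨.negSucc 17094495467632784160395519, .ofNat 6978797919162917552468736, .ofNat 0, .ofNat 0⟩, ⟨.ofNat 4531402342981581101618976, .negSucc 1849932184177822595155199, .ofNat 0, .ofNat 0⟩, ⟨.negSucc 909518863033017142750655, .ofNat 371289207043522903830912, .ofNat 0, .ofNat 0⟩, ⟨.ofNat 134326396212591258493776, .negSucc 54797974566163207743167, .ofNat 0, .ofNat 0⟩, ⟨.negSucc 13979670229866031072703, .ofNat 5665805536256289652032, .ofNat 0, .ofNat 0⟩, ⟨.ofNat 967957822315844160066, .negSucc 373868076137010238727, .ofNat 0, .ofNat 0⟩, ⟨.negSucc 42736086463561823555, .ofNat 12210310418160521016, .ofNat 0, .ofNat 0⟩, ⟨.ofNat 1187113512876717321, .ofNat 0, .ofNat 0, .ofNat 0⟩]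

def A : List Q4 := [⟨.ofNat 131340, .ofNat 30132, .ofNat 0, .ofNat 0⟩, ⟨.ofNat 63837732, .ofNat 26086914, .ofNat 0, .ofNat 0⟩, ⟨.ofNat 1497552994, .ofNat 611364866, .ofNat 0, .ofNat 0⟩, ⟨.ofNat 1552195050, .ofNat 633681867, .ofNat 0, .ofNat 0⟩]

def B : List Q4 := [⟨.negSucc 17465099, .negSucc 7127939, .ofNat 0, .ofNat 0⟩, ⟨.negSucc 1916259155, .negSucc 782314721, .ofNat 0, .ofNat 0⟩, ⟨.negSucc 9775926593, .negSucc 3991001489, .ofNat 0, .ofNat 0⟩, ⟨.negSucc 1552195049, .negSucc 633681866, .ofNat 0, .ofNat 0⟩]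

def κ : Q4 := ⟨9, 0, 0, 0⟩

def m2 : Q4 := ⟨9, 0, 0, 0⟩

def zl : Q4 := ⟨98, -40, 0, 0⟩

def zl' : Q4 := ⟨98, 40, 0, 0⟩

def c1 : Q4 := ⟨-1764, 0, 0, 0⟩

def c2 : Q4 := ⟨7938, 3240, 0, 0⟩

def κi : Q4 := ⟨1, 0, 0, 0⟩

def h0i : Q4 := ⟨.ofNat 47525, .ofNat 19402, .ofNat 0, .ofNat 0⟩

theorem ok : IsoOk (6) (-1) κ m2 zl zl' c1 c2 (49) (6144) u u1 h h1 u2 h2 u4 uh2 h4 a0 a1 a2 W W2 T1 S1 T2 A B where
  k1 := by decide +kernel
  k2 := by decide +kernel
  k3 := by decide +kernel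
  k4 := by decide +kernel
  k5 := by decide +kernel
  k6 := by decide +kernel
  k7 := by decide +kernel
  k8 := by decide +kernel
  k9 := by decide +kernel
  k10 := by decide +kernel
  k11 := by decide +kernel
  k12 := by decide +kernel
  k13 := by decide +kernel
  k14 := by decide +kernel
  k15 := by decide +kernel
  k16 := by decide +kernel
  k17 := by decide +kernel
  k18 := by decide +kernel
  k19 := by decide +kernel

/-- the isogeny -/
theorem psi {O K k : Type*} [CommRing O] [IsDomain O] [Field K] [Algebra O K] [Field k]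
    (S : DV O K k) {p : ℕ} [hp : Fact p.Prime] [CharP k p] (h2 : p ≠ 2) (h3 : p ≠ 3) (h7 : p ≠ 7)
    {s r z m : O} (hs : s ^ 2 = 6) (hr : r ^ 2 = -1) (hz : 196 * z = 98 - 40 * s) (hm : m ^ 2 = 9) :
    Dat S (cub (qa z) (qb z)) (qa (1 - z)) (qb (1 - z)) m 9 := by
  have hs' : s ^ 2 = ((6 : ℤ) : O) := by rw [hs]; norm_num
  have hr' : r ^ 2 = ((-1 : ℤ) : O) := by rw [hr]; norm_num
  refine Dat.of_isoN (e := 4) S ok hs' hr' h3 (κi := κi) (h0i := h0i) (L := 7203) (Nκ := 9) (Nh := 4)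
    ?_ ?_ ?_ (by decide) (by decide) (by decide +kernel) (by decide +kernel) (by decide +kernel)
    (ndvd_fac [(7, 2)] (by intro q hq; simp only [List.mem_cons, List.mem_nil_iff, or_false] at hq; rcases hq with rfl <;> refine ⟨by norm_num, ?_⟩ <;> assumption) (by decide +kernel))
    (ndvd_fac [(3, 1), (7, 4)] (by intro q hq; simp only [List.mem_cons, List.mem_nil_iff, or_false] at hq; rcases hq with rfl | rfl <;> refine ⟨by norm_num, ?_⟩ <;> assumption) (by decide +kernel))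
    (ndvd_fac [(3, 2)] (by intro q hq; simp only [List.mem_cons, List.mem_nil_iff, or_false] at hq; rcases hq with rfl <;> refine ⟨by norm_num, ?_⟩ <;> assumption) (by decide +kernel))
    (ndvd_fac [(2, 2)] (by intro q hq; simp only [List.mem_cons, List.mem_nil_iff, or_false] at hq; rcases hq with rfl <;> refine ⟨by norm_num, ?_⟩ <;> assumption) (by decide +kernel))
    (ndvd_fac [(2, 11), (3, 1)] (by intro q hq; simp only [List.mem_cons, List.mem_nil_iff, or_false] at hq; rcases hq with rfl | rfl <;> refine ⟨by norm_num, ?_⟩ <;> assumption) (by decide +kernel))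
  · simp only [e4, zl]; push_cast; linear_combination hz
  · simp only [e4, zl']; push_cast; linear_combination -hz
  · rw [hm]; simp only [e4, m2]; push_cast; ring


end Pool.Agent.H546.I72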