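import Pool.Agent.H546.APL
import Pool.Agent.H546.APH
import Pool.Agent.H546.I20
import Pool.Agent.H546.I36
import Pool.Agent.H546.I52
import Pool.Agent.H546.I100
import Pool.Agent.H546.I148
import Pool.Agent.H546.I24
import Pool.Agent.H546.I40
import Pool.Agent.H546.I72
import Pool.Agent.H546.I88
import Pool.Agent.H546.I232
import Pool.Agent.H546.I12
import Pool.Agent.H546.I28
import Pool.Agent.H546.I7

set_option autoImplicit false
set_option maxRecDepth 100000

/-!
# The relation at the fifteen points
-/

namespace Pool.Agent.H546.AP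

open Finset
open Pool.Agent.Q267.CDE (R p_sq)

local instance f5 : Fact (Nat.Prime 5) := ⟨by norm_num⟩
local instance f13 : Fact (Nat.Prime 13) := ⟨by norm_num⟩
local instance f29 : Fact (Nat.Prime 29) := ⟨by norm_num⟩
local instance f37 : Fact (Nat.Prime 37) := ⟨by norm_num⟩

variable {p : ℕ} [hp : Fact p.Prime]

theorem pt20 (h41 : 41 ≤ p) : Rel p (-1024) := by
  have h2 : p ≠ 2 := by omega
  have h3 : p ≠ 3 := by omega
  have h5 : p ≠ 5 := by omega
  have h7 : p ≠ 7 := by omega
  refine wA hyp h41 (M := -1024) (n := 5) (N := 4) (a := 2) (b := 1) (d0 := 5) (l := 3)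
    (ndvd_fac [(2, 2)] (by intro q hq; simp only [List.mem_cons, List.mem_nil_iff, or_false] at hq; subst hq; exact ⟨by norm_num, by first | omega | assumption⟩) (by decide +kernel))
    (ndvd_fac [(5, 1)] (by intro q hq; simp only [List.mem_cons, List.mem_nil_iff, or_false] at hq; subst hq; exact ⟨by norm_num, by first | omega | assumption⟩) (by decide +kernel))
    (by norm_num) (by norm_num) (by norm_num) (by norm_num) (by norm_num) (by norm_num)
    (ndvd_fac [(5, 1)] (by intro q hq; simp only [List.mem_cons, List.mem_nil_iff, or_false] at hq; subst hq; exact ⟨by norm_num, by first | omega | assumption⟩) (by decide +kernel))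
    (fun s r => s * r) (fun s r hs hr => ?_) (fun s r z μ hs hr hz hm => ?_) (fun h1 => by
      exact ⟨(ndvd_fac [(2, 10), (3, 6), (5, 1), (11, 1)] (by intro q hq; simp only [List.mem_cons, List.mem_nil_iff, or_false] at hq; rcases hq with rfl | rfl | rfl | rfl <;> refine ⟨by norm_num, ?_⟩ <;> first | omega | assumption) (by decide +kernel)),
        (ndvd_fac [(2, 14), (3, 6), (11, 1), (19, 1)] (by intro q hq; simp only [List.mem_cons, List.mem_nil_iff, or_false] at hq; rcases hq with rfl | rfl | rfl | rfl <;> refine ⟨by norm_num, ?_⟩ <;> first | omega | assumption) (by decide +kernel))⟩) (fun t ht => ?_)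
  · push_cast at hs ⊢; linear_combination r ^ 2 * hs + 5 * hr
  · refine I20.psi (SW p) h2 h3 (s := s) (r := r) (by push_cast at hs; exact hs) hr (by push_cast at hz; linear_combination hz) ?_
    rw [hm]; push_cast; ring
  · rcases repA hyp.form h41 (n := 5) (by norm_num) t (by exact_mod_cast ht) with ⟨x, y, h⟩ | ⟨x, y, h⟩
    · push_cast at h
      exact Or.inl ⟨x, y, by exact_mod_cast h, by
        have := legq (p := p) h41 (q := 5) (c := 1) (x := x) (n := y ^ 2) (ε := 1) (by norm_num) (by norm_num) (by decide) (by norm_num) (by norm_num) (by push_cast; linear_combination h)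
        exact_mod_cast this⟩
    · push_cast at h
      exact Or.inr ⟨x, y, by exact_mod_cast h, by
        have := legq (p := p) h41 (q := 5) (c := 2) (x := x) (n := y ^ 2) (ε := -1) (by norm_num) (by norm_num) (by decide) (by norm_num) (by norm_num) (by push_cast; linear_combination h)
        exact_mod_cast this⟩

theorem pt36 (h41 : 41 ≤ p) : Rel p (-12288) := by
  have h2 : p ≠ 2 := by omega
  have h3 : p ≠ 3 := by omega
  have h5 : p ≠ 5 := by omega
  have h7 : p ≠ 7 := by omega
  refine wA hyp h41 (M := -12288) (n := 9) (N := 24) (a := 12) (b := 7) (d0 := 3) (l := 5)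
    (ndvd_fac [(2, 3), (3, 1)] (by intro q hq; simp only [List.mem_cons, List.mem_nil_iff, or_false] at hq; rcases hq with rfl | rfl <;> refine ⟨by norm_num, ?_⟩ <;> first | omega | assumption) (by decide +kernel))
    (ndvd_fac [(3, 1)] (by intro q hq; simp only [List.mem_cons, List.mem_nil_iff, or_false] at hq; subst hq; exact ⟨by norm_num, by first | omega | assumption⟩) (by decide +kernel))
    (by norm_num) (by norm_num) (by norm_num) (by norm_num) (by norm_num) (by norm_num)
    (ndvd_fac [(3, 2)] (by intro q hq; simp only [List.mem_cons, List.mem_nil_iff, or_false] at hq; subst hq; exact ⟨by norm_num, by first | omega | assumption⟩) (by decide +kernel))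
    (fun s r => 3 * r) (fun s r hs hr => ?_) (fun s r z μ hs hr hz hm => ?_) (fun h1 => by
      exact ⟨(ndvd_fac [(2, 10), (3, 7), (11, 1), (23, 1)] (by intro q hq; simp only [List.mem_cons, List.mem_nil_iff, or_false] at hq; rcases hq with rfl | rfl | rfl | rfl <;> refine ⟨by norm_num, ?_⟩ <;> first | omega | assumption) (by decide +kernel)),
        (ndvd_fac [(2, 14), (3, 7), (7, 2), (11, 1)] (by intro q hq; simp only [List.mem_cons, List.mem_nil_iff, or_false] at hq; rcases hq with rfl | rfl | rfl | rfl <;> refine ⟨by norm_num, ?_⟩ <;> first | omega | assumption) (by decide +kernel))⟩) (fun t ht => ?_)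
  · push_cast at hs ⊢; linear_combination 9 * hr
  · refine I36.psi (SW p) h2 h3 (s := s) (r := r) (by push_cast at hs; exact hs) hr (by push_cast at hz; linear_combination hz) ?_
    rw [hm]; push_cast; ring
  · rcases repA hyp.form h41 (n := 9) (by norm_num) t (by exact_mod_cast ht) with ⟨x, y, h⟩ | ⟨x, y, h⟩
    · push_cast at h
      exact Or.inl ⟨x, y, by exact_mod_cast h, leg3_one h41 (by exact_mod_cast h)⟩
    · push_cast at h
      exact Or.inr ⟨x, y, by exact_mod_cast h, leg3_neg h41 (by exact_mod_cast h)⟩

theorem pt52 (h41 : 41 ≤ p) : Rel p (-82944) := by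
  have h2 : p ≠ 2 := by omega
  have h3 : p ≠ 3 := by omega
  have h5 : p ≠ 5 := by omega
  have h7 : p ≠ 7 := by omega
  refine wA hyp h41 (M := -82944) (n := 13) (N := 36) (a := 18) (b := 5) (d0 := 13) (l := 7)
    (ndvd_fac [(2, 2), (3, 2)] (by intro q hq; simp only [List.mem_cons, List.mem_nil_iff, or_false] at hq; rcases hq with rfl | rfl <;> refine ⟨by norm_num, ?_⟩ <;> first | omega | assumption) (by decide +kernel))
    (ndvd_fac [(13, 1)] (by intro q hq; simp only [List.mem_cons, List.mem_nil_iff, or_false] at hq; subst hq; exact ⟨by norm_num, by first | omega | assumption⟩) (by decide +kernel))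
    (by norm_num) (by norm_num) (by norm_num) (by norm_num) (by norm_num) (by norm_num)
    (ndvd_fac [(13, 1)] (by intro q hq; simp only [List.mem_cons, List.mem_nil_iff, or_false] at hq; subst hq; exact ⟨by norm_num, by first | omega | assumption⟩) (by decide +kernel))
    (fun s r => s * r) (fun s r hs hr => ?_) (fun s r z μ hs hr hz hm => ?_) (fun h1 => by
      have e43 : p ≠ 43 := by
        rintro rfl
        exact absurd h1 (by norm_num)
      exact ⟨(ndvd_fac [(2, 10), (3, 8), (5, 2), (23, 1)] (by intro q hq; simp only [List.mem_cons, List.mem_nil_iff, or_false] at hq; rcases hq with rfl | rfl | rfl | rfl <;> refine ⟨by norm_num, ?_⟩ <;> first | omega | assumption) (by decide +kernel)),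
        (ndvd_fac [(2, 14), (3, 11), (43, 1)] (by intro q hq; simp only [List.mem_cons, List.mem_nil_iff, or_false] at hq; rcases hq with rfl | rfl | rfl <;> refine ⟨by norm_num, ?_⟩ <;> first | omega | assumption) (by decide +kernel))⟩) (fun t ht => ?_)
  · push_cast at hs ⊢; linear_combination r ^ 2 * hs + 13 * hr
  · refine I52.psi (SW p) h2 h3 (s := s) (r := r) (by push_cast at hs; exact hs) hr (by push_cast at hz; linear_combination hz) ?_
    rw [hm]; push_cast; ring
  · rcases repA hyp.form h41 (n := 13) (by norm_num) t (by exact_mod_cast ht) with ⟨x, y, h⟩ | ⟨x, y, h⟩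
    · push_cast at h
      exact Or.inl ⟨x, y, by exact_mod_cast h, by
        have := legq (p := p) h41 (q := 13) (c := 1) (x := x) (n := y ^ 2) (ε := 1) (by norm_num) (by norm_num) (by decide) (by norm_num) (by norm_num) (by push_cast; linear_combination h)
        exact_mod_cast this⟩
    · push_cast at h
      exact Or.inr ⟨x, y, by exact_mod_cast h, by
        have := legq (p := p) h41 (q := 13) (c := 2) (x := x) (n := y ^ 2) (ε := -1) (by norm_num) (by norm_num) (by decide) (by norm_num) (by norm_num) (by push_cast; linear_combination h)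
        exact_mod_cast this⟩

theorem pt100 (h41 : 41 ≤ p) : Rel p (-6635520) := by
  have h2 : p ≠ 2 := by omega
  have h3 : p ≠ 3 := by omega
  have h5 : p ≠ 5 := by omega
  have h7 : p ≠ 7 := by omega
  refine wA hyp h41 (M := -6635520) (n := 25) (N := 720) (a := 360) (b := 161) (d0 := 5) (l := 13)
    (ndvd_fac [(2, 4), (3, 2), (5, 1)] (by intro q hq; simp only [List.mem_cons, List.mem_nil_iff, or_false] at hq; rcases hq with rfl | rfl | rfl <;> refine ⟨by norm_num, ?_⟩ <;> first | omega | assumption) (by decide +kernel))
    (ndvd_fac [(5, 1)] (by intro q hq; simp only [List.mem_cons, List.mem_nil_iff, or_false] at hq; subst hq; exact ⟨by norm_num, by first | omega | assumption⟩) (by decide +kernel))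
    (by norm_num) (by norm_num) (by norm_num) (by norm_num) (by norm_num) (by norm_num)
    (ndvd_fac [(5, 2)] (by intro q hq; simp only [List.mem_cons, List.mem_nil_iff, or_false] at hq; subst hq; exact ⟨by norm_num, by first | omega | assumption⟩) (by decide +kernel))
    (fun s r => 5 * r) (fun s r hs hr => ?_) (fun s r z μ hs hr hz hm => ?_) (fun h1 => by
      have e59 : p ≠ 59 := by
        rintro rfl
        exact absurd h1 (by norm_num)
      have e71 : p ≠ 71 := by
        rintro rfl
        exact absurd h1 (by norm_num)
      exact ⟨(ndvd_fac [(2, 10), (3, 8), (11, 1), (59, 1), (71, 1)] (by intro q hq; simp only [List.mem_cons, List.mem_nil_iff, or_false] at hq; rcases hq with rfl | rfl | rfl | rfl | rfl <;> refine ⟨by norm_num, ?_⟩ <;> first | omega | assumption) (by decide +kernel)),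
        (ndvd_fac [(2, 14), (3, 10), (7, 2), (11, 1), (19, 1)] (by intro q hq; simp only [List.mem_cons, List.mem_nil_iff, or_false] at hq; rcases hq with rfl | rfl | rfl | rfl | rfl <;> refine ⟨by norm_num, ?_⟩ <;> first | omega | assumption) (by decide +kernel))⟩) (fun t ht => ?_)
  · push_cast at hs ⊢; linear_combination 25 * hr
  · refine I100.psi (SW p) h2 h3 h5 (s := s) (r := r) (by push_cast at hs; exact hs) hr (by push_cast at hz; linear_combination hz) ?_
    rw [hm]; push_cast; ring
  · rcases repA hyp.form h41 (n := 25) (by norm_num) t (by exact_mod_cast ht) with ⟨x, y, h⟩ | ⟨x, y, h⟩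
    · push_cast at h
      exact Or.inl ⟨x, y, by exact_mod_cast h, by
        have := legq (p := p) h41 (q := 5) (c := 1) (x := x) (n := 5 * y ^ 2) (ε := 1) (by norm_num) (by norm_num) (by decide) (by norm_num) (by norm_num) (by push_cast; linear_combination h)
        exact_mod_cast this⟩
    · push_cast at h
      exact Or.inr ⟨x, y, by exact_mod_cast h, by
        have := legq (p := p) h41 (q := 5) (c := 2) (x := x) (n := 5 * y ^ 2) (ε := -1) (by norm_num) (by norm_num) (by decide) (by norm_num) (by norm_num) (by push_cast; linear_combination h)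
        exact_mod_cast this⟩

theorem pt148 (h41 : 41 ≤ p) : Rel p (-199148544) := by
  have h2 : p ≠ 2 := by omega
  have h3 : p ≠ 3 := by omega
  have h5 : p ≠ 5 := by omega
  have h7 : p ≠ 7 := by omega
  refine wA hyp h41 (M := -199148544) (n := 37) (N := 1764) (a := 882) (b := 145) (d0 := 37) (l := 19)
    (ndvd_fac [(2, 2), (3, 2), (7, 2)] (by intro q hq; simp only [List.mem_cons, List.mem_nil_iff, or_false] at hq; rcases hq with rfl | rfl | rfl <;> refine ⟨by norm_num, ?_⟩ <;> first | omega | assumption) (by decide +kernel))
    (ndvd_fac [(37, 1)] (by intro q hq; simp only [List.mem_cons, List.mem_nil_iff, or_false] at hq; subst hq; exact ⟨by norm_num, by first | omega | assumption⟩) (by decide +kernel))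
    (by norm_num) (by norm_num) (by norm_num) (by norm_num) (by norm_num) (by norm_num)
    (ndvd_fac [(37, 1)] (by intro q hq; simp only [List.mem_cons, List.mem_nil_iff, or_false] at hq; subst hq; exact ⟨by norm_num, by first | omega | assumption⟩) (by decide +kernel))
    (fun s r => s * r) (fun s r hs hr => ?_) (fun s r z μ hs hr hz hm => ?_) (fun h1 => by
      have e47 : p ≠ 47 := by
        rintro rfl
        exact absurd h1 (by norm_num)
      have e67 : p ≠ 67 := by
        rintro rfl
        exact absurd h1 (by norm_num)
      have e107 : p ≠ 107 := by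
        rintro rfl
        exact absurd h1 (by norm_num)
      have e139 : p ≠ 139 := by
        rintro rfl
        exact absurd h1 (by norm_num)
      exact ⟨(ndvd_fac [(2, 10), (3, 8), (5, 2), (11, 1), (47, 1), (107, 1)] (by intro q hq; simp only [List.mem_cons, List.mem_nil_iff, or_false] at hq; rcases hq with rfl | rfl | rfl | rfl | rfl | rfl <;> refine ⟨by norm_num, ?_⟩ <;> first | omega | assumption) (by decide +kernel)),
        (ndvd_fac [(2, 14), (3, 11), (11, 1), (67, 1), (139, 1)] (by intro q hq; simp only [List.mem_cons, List.mem_nil_iff, or_false] at hq; rcases hq with rfl | rfl | rfl | rfl | rfl <;> refine ⟨by norm_num, ?_⟩ <;> first | omega | assumption) (by decide +kernel))⟩) (fun t ht => ?_)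
  · push_cast at hs ⊢; linear_combination r ^ 2 * hs + 37 * hr
  · refine I148.psi (SW p) h2 h3 h7 (s := s) (r := r) (by push_cast at hs; exact hs) hr (by push_cast at hz; linear_combination hz) ?_
    rw [hm]; push_cast; ring
  · rcases repA hyp.form h41 (n := 37) (by norm_num) t (by exact_mod_cast ht) with ⟨x, y, h⟩ | ⟨x, y, h⟩
    · push_cast at h
      exact Or.inl ⟨x, y, by exact_mod_cast h, by
        have := legq (p := p) h41 (q := 37) (c := 1) (x := x) (n := y ^ 2) (ε := 1) (by norm_num) (by norm_num) (by decide) (by norm_num) (by norm_num) (by push_cast; linear_combination h)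
        exact_mod_cast this⟩
    · push_cast at h
      exact Or.inr ⟨x, y, by exact_mod_cast h, by
        have := legq (p := p) h41 (q := 37) (c := 2) (x := x) (n := y ^ 2) (ε := -1) (by norm_num) (by norm_num) (by decide) (by norm_num) (by norm_num) (by push_cast; linear_combination h)
        exact_mod_cast this⟩

theorem pt24 (h41 : 41 ≤ p) : Rel p (2304) := by
  have h2 : p ≠ 2 := by omega
  have h3 : p ≠ 3 := by omega
  have h5 : p ≠ 5 := by omega
  have h7 : p ≠ 7 := by omega
  have h11 : p ≠ 11 := by omega
  refine wB hyp h41 (M := 2304) (N := 12) (a := 6) (b := 4) (d0 := 2) (l := 3)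
    (ndvd_fac [(2, 2), (3, 1)] (by intro q hq; simp only [List.mem_cons, List.mem_nil_iff, or_false] at hq; rcases hq with rfl | rfl <;> refine ⟨by norm_num, ?_⟩ <;> first | omega | assumption) (by decide +kernel))
    (ndvd_fac [(2, 1)] (by intro q hq; simp only [List.mem_cons, List.mem_nil_iff, or_false] at hq; subst hq; exact ⟨by norm_num, by first | omega | assumption⟩) (by decide +kernel))
    (by norm_num) (by norm_num) (by norm_num) (by norm_num)
    (fun s r z μ hs hr hz hm => ?_) (fun h1 => by
      exact ⟨(ndvd_fac [(2, 10), (3, 8), (17, 1)] (by intro q hq; simp only [List.mem_cons, List.mem_nil_iff, or_false] at hq; rcases hq with rfl | rfl | rfl <;> refine ⟨by norm_num, ?_⟩ <;> first | omega | assumption) (by decide +kernel)),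
        (ndvd_fac [(2, 14), (3, 8), (23, 1)] (by intro q hq; simp only [List.mem_cons, List.mem_nil_iff, or_false] at hq; rcases hq with rfl | rfl | rfl <;> refine ⟨by norm_num, ?_⟩ <;> first | omega | assumption) (by decide +kernel))⟩) (fun t ht => ?_)
  · exact I24.psi (SW p) h2 h3 (s := s) (r := r) (by push_cast at hs; exact hs) hr (by push_cast at hz; linear_combination hz) (by push_cast at hm; exact hm)
  · rcases repB hyp.form h41 (l := 3) (by norm_num) t (by exact_mod_cast ht) with ⟨x, y, h⟩ | ⟨x, y, h⟩
    · push_cast at h
      exact Or.inl ⟨x, y, by push_cast; exact h, leg2_one h41 (x := x) (y := y) (c := 6) (by norm_num) (by linear_combination h)⟩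
    · push_cast at h
      exact Or.inr ⟨x, y, by push_cast; exact h, leg2_neg h41 (x := x) (y := y) (c := 3) (by norm_num) (by linear_combination h)⟩

theorem pt40 (h41 : 41 ≤ p) : Rel p (20736) := by
  have h2 : p ≠ 2 := by omega
  have h3 : p ≠ 3 := by omega
  have h5 : p ≠ 5 := by omega
  have h7 : p ≠ 7 := by omega
  have h11 : p ≠ 11 := by omega
  refine wB hyp h41 (M := 20736) (N := 36) (a := 18) (b := 8) (d0 := 5) (l := 5)
    (ndvd_fac [(2, 2), (3, 2)] (by intro q hq; simp only [List.mem_cons, List.mem_nil_iff, or_false] at hq; rcases hq with rfl | rfl <;> refine ⟨by norm_num, ?_⟩ <;> first | omega | assumption) (by decide +kernel))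
    (ndvd_fac [(5, 1)] (by intro q hq; simp only [List.mem_cons, List.mem_nil_iff, or_false] at hq; subst hq; exact ⟨by norm_num, by first | omega | assumption⟩) (by decide +kernel))
    (by norm_num) (by norm_num) (by norm_num) (by norm_num)
    (fun s r z μ hs hr hz hm => ?_) (fun h1 => by
      exact ⟨(ndvd_fac [(2, 10), (3, 8), (5, 1), (29, 1)] (by intro q hq; simp only [List.mem_cons, List.mem_nil_iff, or_false] at hq; rcases hq with rfl | rfl | rfl | rfl <;> refine ⟨by norm_num, ?_⟩ <;> first | omega | assumption) (by decide +kernel)),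
        (ndvd_fac [(2, 14), (3, 10), (31, 1)] (by intro q hq; simp only [List.mem_cons, List.mem_nil_iff, or_false] at hq; rcases hq with rfl | rfl | rfl <;> refine ⟨by norm_num, ?_⟩ <;> first | omega | assumption) (by decide +kernel))⟩) (fun t ht => ?_)
  · exact I40.psi (SW p) h2 h3 h5 (s := s) (r := r) (by push_cast at hs; exact hs) hr (by push_cast at hz; linear_combination hz) (by push_cast at hm; exact hm)
  · rcases repB hyp.form h41 (l := 5) (by norm_num) t (by exact_mod_cast ht) with ⟨x, y, h⟩ | ⟨x, y, h⟩
    · push_cast at h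
      exact Or.inl ⟨x, y, by push_cast; exact h, by
        have := legq (p := p) h41 (q := 5) (c := 1) (x := x) (n := 2 * y ^ 2) (ε := 1) (by norm_num) (by norm_num) (by decide) (by norm_num) (by norm_num) (by push_cast; linear_combination h)
        exact_mod_cast this⟩
    · push_cast at h
      exact Or.inr ⟨x, y, by push_cast; exact h, by
        have := legq (p := p) h41 (q := 5) (c := 2) (x := 2 * x) (n := 2 * y ^ 2) (ε := -1) (by norm_num) (by norm_num) (by decide) (by norm_num) (by norm_num) (by push_cast; linear_combination 2 * h)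
        exact_mod_cast this⟩

theorem pt72 (h41 : 41 ≤ p) : Rel p (614656) := by
  have h2 : p ≠ 2 := by omega
  have h3 : p ≠ 3 := by omega
  have h5 : p ≠ 5 := by omega
  have h7 : p ≠ 7 := by omega
  have h11 : p ≠ 11 := by omega
  refine wB hyp h41 (M := 614656) (N := 196) (a := 98) (b := 40) (d0 := 6) (l := 9)
    (ndvd_fac [(2, 2), (7, 2)] (by intro q hq; simp only [List.mem_cons, List.mem_nil_iff, or_false] at hq; rcases hq with rfl | rfl <;> refine ⟨by norm_num, ?_⟩ <;> first | omega | assumption) (by decide +kernel))
    (ndvd_fac [(2, 1), (3, 1)] (by intro q hq; simp only [List.mem_cons, List.mem_nil_iff, or_false] at hq; rcases hq with rfl | rfl <;> refine ⟨by norm_num, ?_⟩ <;> first | omega | assumption) (by decide +kernel))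
    (by norm_num) (by norm_num) (by norm_num) (by norm_num)
    (fun s r z μ hs hr hz hm => ?_) (fun h1 => by
      have e47 : p ≠ 47 := by
        rintro rfl
        exact absurd h1 (by norm_num)
      have e53 : p ≠ 53 := by
        rintro rfl
        exact absurd h1 (by norm_num)
      have e71 : p ≠ 71 := by
        rintro rfl
        exact absurd h1 (by norm_num)
      exact ⟨(ndvd_fac [(2, 10), (3, 6), (5, 2), (29, 1), (53, 1)] (by intro q hq; simp only [List.mem_cons, List.mem_nil_iff, or_false] at hq; rcases hq with rfl | rfl | rfl | rfl | rfl <;> refine ⟨by norm_num, ?_⟩ <;> first | omega | assumption) (by decide +kernel)),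
        (ndvd_fac [(2, 14), (3, 6), (23, 1), (47, 1), (71, 1)] (by intro q hq; simp only [List.mem_cons, List.mem_nil_iff, or_false] at hq; rcases hq with rfl | rfl | rfl | rfl | rfl <;> refine ⟨by norm_num, ?_⟩ <;> first | omega | assumption) (by decide +kernel))⟩) (fun t ht => ?_)
  · exact I72.psi (SW p) h2 h3 h7 (s := s) (r := r) (by push_cast at hs; exact hs) hr (by push_cast at hz; linear_combination hz) (by push_cast at hm; exact hm)
  · rcases repB hyp.form h41 (l := 9) (by norm_num) t (by exact_mod_cast ht) with ⟨x, y, h⟩ | ⟨x, y, h⟩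
    · push_cast at h
      exact Or.inl ⟨x, y, by push_cast; exact h, leg6_one h41 (x := x) (y := y) (by linear_combination h)⟩
    · push_cast at h
      exact Or.inr ⟨x, y, by push_cast; exact h, leg6_neg h41 (x := x) (y := y) (by linear_combination h)⟩

theorem pt88 (h41 : 41 ≤ p) : Rel p (2509056) := by
  have h2 : p ≠ 2 := by omega
  have h3 : p ≠ 3 := by omega
  have h5 : p ≠ 5 := by omega
  have h7 : p ≠ 7 := by omega
  have h11 : p ≠ 11 := by omega
  refine wB hyp h41 (M := 2509056) (N := 396) (a := 198) (b := 140) (d0 := 2) (l := 11)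
    (ndvd_fac [(2, 2), (3, 2), (11, 1)] (by intro q hq; simp only [List.mem_cons, List.mem_nil_iff, or_false] at hq; rcases hq with rfl | rfl | rfl <;> refine ⟨by norm_num, ?_⟩ <;> first | omega | assumption) (by decide +kernel))
    (ndvd_fac [(2, 1)] (by intro q hq; simp only [List.mem_cons, List.mem_nil_iff, or_false] at hq; subst hq; exact ⟨by norm_num, by first | omega | assumption⟩) (by decide +kernel))
    (by norm_num) (by norm_num) (by norm_num) (by norm_num)
    (fun s r z μ hs hr hz hm => ?_) (fun h1 => by
      have e41 : p ≠ 41 := by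
        rintro rfl
        exact absurd h1 (by norm_num)
      have e79 : p ≠ 79 := by
        rintro rfl
        exact absurd h1 (by norm_num)
      exact ⟨(ndvd_fac [(2, 10), (3, 8), (5, 2), (17, 1), (41, 1)] (by intro q hq; simp only [List.mem_cons, List.mem_nil_iff, or_false] at hq; rcases hq with rfl | rfl | rfl | rfl | rfl <;> refine ⟨by norm_num, ?_⟩ <;> first | omega | assumption) (by decide +kernel)),
        (ndvd_fac [(2, 14), (3, 10), (7, 2), (79, 1)] (by intro q hq; simp only [List.mem_cons, List.mem_nil_iff, or_false] at hq; rcases hq with rfl | rfl | rfl | rfl <;> refine ⟨by norm_num, ?_⟩ <;> first | omega | assumption) (by decide +kernel))⟩) (fun t ht => ?_)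
  · exact I88.psi (SW p) h2 h3 h11 (s := s) (r := r) (by push_cast at hs; exact hs) hr (by push_cast at hz; linear_combination hz) (by push_cast at hm; exact hm)
  · rcases repB hyp.form h41 (l := 11) (by norm_num) t (by exact_mod_cast ht) with ⟨x, y, h⟩ | ⟨x, y, h⟩
    · push_cast at h
      exact Or.inl ⟨x, y, by push_cast; exact h, leg2_one h41 (x := x) (y := y) (c := 22) (by norm_num) (by linear_combination h)⟩
    · push_cast at h
      exact Or.inr ⟨x, y, by push_cast; exact h, leg2_neg h41 (x := x) (y := y) (c := 11) (by norm_num) (by linear_combination h)⟩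

theorem pt232 (h41 : 41 ≤ p) : Rel p (24591257856) := by
  have h2 : p ≠ 2 := by omega
  have h3 : p ≠ 3 := by omega
  have h5 : p ≠ 5 := by omega
  have h7 : p ≠ 7 := by omega
  have h11 : p ≠ 11 := by omega
  refine wB hyp h41 (M := 24591257856) (N := 39204) (a := 19602) (b := 3640) (d0 := 29) (l := 29)
    (ndvd_fac [(2, 2), (3, 4), (11, 2)] (by intro q hq; simp only [List.mem_cons, List.mem_nil_iff, or_false] at hq; rcases hq with rfl | rfl | rfl <;> refine ⟨by norm_num, ?_⟩ <;> first | omega | assumption) (by decide +kernel))
    (ndvd_fac [(29, 1)] (by intro q hq; simp only [List.mem_cons, List.mem_nil_iff, or_false] at hq; subst hq; exact ⟨by norm_num, by first | omega | assumption⟩) (by decide +kernel))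
    (by norm_num) (by norm_num) (by norm_num) (by norm_num)
    (fun s r z μ hs hr hz hm => ?_) (fun h1 => by
      have e53 : p ≠ 53 := by
        rintro rfl
        exact absurd h1 (by norm_num)
      have e149 : p ≠ 149 := by
        rintro rfl
        exact absurd h1 (by norm_num)
      have e151 : p ≠ 151 := by
        rintro rfl
        exact absurd h1 (by norm_num)
      have e173 : p ≠ 173 := by
        rintro rfl
        exact absurd h1 (by norm_num)
      have e223 : p ≠ 223 := by
        rintro rfl
        exact absurd h1 (by norm_num)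
      exact ⟨(ndvd_fac [(2, 10), (3, 8), (5, 3), (53, 1), (149, 1), (173, 1)] (by intro q hq; simp only [List.mem_cons, List.mem_nil_iff, or_false] at hq; rcases hq with rfl | rfl | rfl | rfl | rfl | rfl <;> refine ⟨by norm_num, ?_⟩ <;> first | omega | assumption) (by decide +kernel)),
        (ndvd_fac [(2, 14), (3, 10), (7, 2), (23, 1), (151, 1), (223, 1)] (by intro q hq; simp only [List.mem_cons, List.mem_nil_iff, or_false] at hq; rcases hq with rfl | rfl | rfl | rfl | rfl | rfl <;> refine ⟨by norm_num, ?_⟩ <;> first | omega | assumption) (by decide +kernel))⟩) (fun t ht => ?_)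
  · exact I232.psi (SW p) h2 h3 h11 (s := s) (r := r) (by push_cast at hs; exact hs) hr (by push_cast at hz; linear_combination hz) (by push_cast at hm; exact hm)
  · rcases repB hyp.form h41 (l := 29) (by norm_num) t (by exact_mod_cast ht) with ⟨x, y, h⟩ | ⟨x, y, h⟩
    · push_cast at h
      exact Or.inl ⟨x, y, by push_cast; exact h, by
        have := legq (p := p) h41 (q := 29) (c := 1) (x := x) (n := 2 * y ^ 2) (ε := 1) (by norm_num) (by norm_num) (by decide) (by norm_num) (by norm_num) (by push_cast; linear_combination h)
        exact_mod_cast this⟩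
    · push_cast at h
      exact Or.inr ⟨x, y, by push_cast; exact h, by
        have := legq (p := p) h41 (q := 29) (c := 2) (x := 2 * x) (n := 2 * y ^ 2) (ε := -1) (by norm_num) (by norm_num) (by decide) (by norm_num) (by norm_num) (by push_cast; linear_combination 2 * h)
        exact_mod_cast this⟩

end Pool.Agent.H546.AP
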