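import Pool.Agent.H546.APP

set_option autoImplicit false

/-!
# The relation at the five points of the third type
-/

namespace Pool.Agent.H546.AP

open Finset
open Pool.Agent.Q267.CDE (R p_sq)

variable {p : ℕ} [hp : Fact p.Prime]

theorem nd41 (h41 : 41 ≤ p) (l : List (ℕ × ℕ)) (hl : ∀ q ∈ l, q.1.Prime ∧ q.1 < 41) {n : ℤ}
    (hn : n.natAbs = (l.map fun q => q.1 ^ q.2).prod) : ¬ (p : ℤ) ∣ n := by
  refine ndvd_fac l (fun q hq => ⟨(hl q hq).1, ?_⟩) hn
  have := (hl q hq).2
  omega

/-- `x = 1` -/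
theorem ptC2 (h41 : 41 ≤ p) : Rel p 256 := by
  have h2 : p ≠ 2 := by omega
  have h3 : p ≠ 3 := by omega
  obtain ⟨ρ, hρ⟩ := wo_isqrt p h2 (d := -2) (by
    rw [dvd_neg]; exact nd_small h41 (by norm_num) (by norm_num))
  push_cast at hρ
  have r2 := (SW p).two_ne (p := p) h2
  have r3 := (SW p).three_ne (p := p) h3
  have h2k : (2 : kb p) ≠ 0 := by rwa [map_ofNat] at r2
  have h3k : (3 : kb p) ≠ 0 := by rwa [map_ofNat] at r3
  obtain ⟨z, hz⟩ := ((SW p).unit_of_red r2).exists_right_inv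
  have h2O : (2 : WO p) ≠ 0 := by intro h0; rw [h0, zero_mul] at hz; exact zero_ne_one hz
  have h1z : 1 - z = z := by linear_combination -hz
  have hMz : ((256 : ℤ) : WO p) * (z * (1 - z)) = 64 := by
    rw [h1z]; push_cast; linear_combination (64 * (2 * z + 1)) * hz
  have hzr : (SW p).red z ≠ 0 := (z_units (SW p) (p := p) h2 hMz).1
  have dd := Dat.mu (SW p) (z := z) (m := 1) (r := ρ) (l := 1) (Dat.id (SW p) (qa z) (qb z)) h2k h3k hzr hρ
  rw [h1z, one_mul, mul_one] at dd
  refine wC hyp h41 (l := 2) (by norm_num) (by norm_num) z ρ hMz (by push_cast; exact hρ) dd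
    (fun _ => frob_rat (SW p) h2 (N := 2) (c := 1) (nd_small h41 (by norm_num) (by norm_num)) (by push_cast; exact hz))
    (fun _ => ?_) (fun _ => ?_) (fun t ht => ?_)
  · refine (SW p).ne_mul (p := p) (y := 2) (n := -540) ?_ (nd41 h41 [(2, 2), (3, 3), (5, 1)] (by decide +kernel) (by decide +kernel))
    simp only [qa]; push_cast; linear_combination 324 * hz
  · refine (SW p).ne_mul (p := p) (y := 2) (n := -3024) ?_ (nd41 h41 [(2, 4), (3, 3), (7, 1)] (by decide +kernel) (by decide +kernel))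
    simp only [qb]; push_cast; linear_combination 3888 * hz
  · obtain ⟨x, y, h⟩ := repC hyp.form h41 (l := 2) (by norm_num) t (by exact_mod_cast ht)
    exact ⟨x, y, h⟩

/-- `x = -9/16` -/
theorem ptC12 (h41 : 41 ≤ p) : Rel p (-144) := by
  have h2 : p ≠ 2 := by omega
  have h3 : p ≠ 3 := by omega
  obtain ⟨s, hs⟩ := wo_isqrt p h2 (d := -3) (by
    rw [dvd_neg]; exact nd_small h41 (by norm_num) (by norm_num))
  obtain ⟨r, hr⟩ := wo_isqrt p h2 (d := -1) (by
    rw [dvd_neg]; exact nd_small h41 (by norm_num) (by norm_num))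
  push_cast at hs hr
  obtain ⟨v, hv⟩ := ((SW p).unit_of_red ((SW p).three_ne (p := p) h3)).exists_right_inv
  have h3O : (3 : WO p) ≠ 0 := by intro h0; rw [h0, zero_mul] at hv; exact zero_ne_one hv
  set z : WO p := -v with hz
  have h3z : 3 * z = -1 := by rw [hz]; linear_combination -hv
  have hMz : ((-144 : ℤ) : WO p) * (z * (1 - z)) = 64 := by
    push_cast; linear_combination (-48 * (1 - z) - 16) * h3z
  have dd := I12.psi (SW p) h2 h3 hs hr (z := z) (m := s) (by linear_combination 4 * h3z) hs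
  refine wC hyp h41 (l := 3) (by norm_num) (by norm_num) z s hMz (by push_cast; exact hs) dd
    (fun _ => frob_rat (SW p) h2 (N := 3) (c := -1) (nd_small h41 (by norm_num) (by norm_num)) (by push_cast; exact h3z))
    (fun _ => ?_) (fun _ => ?_) (fun t ht => ?_)
  · refine (SW p).ne_mul (p := p) (y := 1) (n := -540) ?_ (nd41 h41 [(2, 2), (3, 3), (5, 1)] (by decide +kernel) (by decide +kernel))
    simp only [qa]; push_cast; linear_combination 108 * h3z
  · refine (SW p).ne_mul (p := p) (y := 1) (n := -4752) ?_ (nd41 h41 [(2, 4), (3, 3), (11, 1)] (by decide +kernel) (by decide +kernel))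
    simp only [qb]; push_cast; linear_combination 1296 * h3z
  · obtain ⟨x, y, h⟩ := repC hyp.form h41 (l := 3) (by norm_num) t (by exact_mod_cast ht)
    exact ⟨x, y, h⟩

/-- `x = -3969/256` -/
theorem ptC28 (h41 : 41 ≤ p) : Rel p (-3969) := by
  have h2 : p ≠ 2 := by omega
  have h3 : p ≠ 3 := by omega
  have h7 : p ≠ 7 := by omega
  obtain ⟨s, hs⟩ := wo_isqrt p h2 (d := -7) (by
    rw [dvd_neg]; exact nd_small h41 (by norm_num) (by norm_num))
  obtain ⟨r, hr⟩ := wo_isqrt p h2 (d := -1) (by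
    rw [dvd_neg]; exact nd_small h41 (by norm_num) (by norm_num))
  push_cast at hs hr
  have n63 : ¬ (p : ℤ) ∣ 63 := nd41 h41 [(3, 2), (7, 1)] (by decide +kernel) (by decide +kernel)
  obtain ⟨v, hv⟩ := ((SW p).unit_of_red ((SW p).int_ne n63)).exists_right_inv
  push_cast at hv
  set z : WO p := -v with hz
  have h3z : 63 * z = -1 := by rw [hz]; linear_combination -hv
  have hMz : ((-3969 : ℤ) : WO p) * (z * (1 - z)) = 64 := by
    push_cast; linear_combination (-63 * (1 - z) - 1) * h3z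
  have dd := I28.psi (SW p) h2 h3 h7 hs hr (z := z) (m := s) (by linear_combination 4 * h3z) hs
  refine wC hyp h41 (l := 7) (by norm_num) (by norm_num) z s hMz (by push_cast; exact hs) dd
    (fun _ => frob_rat (SW p) h2 (N := 63) (c := -1) n63 (by push_cast; exact h3z))
    (fun _ => ?_) (fun _ => ?_) (fun t ht => ?_)
  · refine (SW p).ne_mul (p := p) (y := 63) (n := -27540) ?_ (nd41 h41 [(2, 2), (3, 4), (5, 1), (17, 1)] (by decide +kernel) (by decide +kernel))
    simp only [qa]; push_cast; linear_combination 324 * h3z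
  · refine (SW p).ne_mul (p := p) (y := 63) (n := -221616) ?_ (nd41 h41 [(2, 4), (3, 6), (19, 1)] (by decide +kernel) (by decide +kernel))
    simp only [qb]; push_cast; linear_combination 3888 * h3z
  · obtain ⟨x, y, h⟩ := repC hyp.form h41 (l := 7) (by norm_num) t (by exact_mod_cast ht)
    exact ⟨x, y, h⟩

/-- `x = 81/32` -/
theorem ptC16 (h41 : 41 ≤ p) : Rel p 648 := by
  have h2 : p ≠ 2 := by omega
  have h3 : p ≠ 3 := by omega
  obtain ⟨i, hi⟩ := wo_isqrt p h2 (d := -1) (by
    rw [dvd_neg]; exact nd_small h41 (by norm_num) (by norm_num))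
  obtain ⟨ρ, hρ⟩ := wo_isqrt p h2 (d := -2) (by
    rw [dvd_neg]; exact nd_small h41 (by norm_num) (by norm_num))
  push_cast at hi hρ
  have r2 := (SW p).two_ne (p := p) h2
  have r3 := (SW p).three_ne (p := p) h3
  have h2k : (2 : kb p) ≠ 0 := by rwa [map_ofNat] at r2
  have h3k : (3 : kb p) ≠ 0 := by rwa [map_ofNat] at r3
  have n9 : ¬ (p : ℤ) ∣ 9 := nd41 h41 [(3, 2)] (by decide +kernel) (by decide +kernel)
  obtain ⟨z, hz⟩ := ((SW p).unit_of_red ((SW p).int_ne n9)).exists_right_inv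
  push_cast at hz
  have hMz : ((648 : ℤ) : WO p) * (z * (1 - z)) = 64 := by
    push_cast; linear_combination (72 * (1 - z) - 8) * hz
  obtain ⟨hzr, hzr1⟩ := z_units (SW p) (p := p) h2 hMz
  have d1 := Dat.mu (SW p) (z := z) (m := 1) (r := ρ) (l := 1) (Dat.id (SW p) (qa z) (qb z)) h2k h3k hzr hρ
  have d2 := Dat_i (SW p) (i := i) d1 (by simp only [qb]; linear_combination -432 * hz) hi
  have d3 := Dat.mu (SW p) (z := 1 - z) (r := ρ) d2 h2k h3k hzr1 hρ
  rw [sub_sub_cancel] at d3
  refine wC hyp h41 (l := 4) (by norm_num) (by norm_num) z (1 * ρ * i * ρ) hMz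
    (by push_cast; linear_combination (ρ ^ 2 * i ^ 2 - 2 * i ^ 2) * hρ + 4 * hi) d3
    (fun _ => frob_rat (SW p) h2 (N := 9) (c := 1) n9 (by push_cast; exact hz))
    (fun _ => ?_) (fun _ => ?_) (fun t ht => ?_)
  · refine (SW p).ne_mul (p := p) (y := 1) (n := -396) ?_ (nd41 h41 [(2, 2), (3, 2), (11, 1)] (by decide +kernel) (by decide +kernel))
    simp only [qa]; push_cast; linear_combination 36 * hz
  · refine (SW p).ne_mul (p := p) (y := 1) (n := -3024) ?_ (nd41 h41 [(2, 4), (3, 3), (7, 1)] (by decide +kernel) (by decide +kernel))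
    simp only [qb]; push_cast; linear_combination 432 * hz
  · obtain ⟨x, y, h⟩ := repC hyp.form h41 (l := 4) (by norm_num) t (by exact_mod_cast ht)
    exact ⟨x, y, h⟩

/-- `x = 81/256` -/
theorem ptC7 (h41 : 41 ≤ p) : Rel p 81 := by
  have h2 : p ≠ 2 := by omega
  have h3 : p ≠ 3 := by omega
  have h7 : p ≠ 7 := by omega
  obtain ⟨s, hs⟩ := wo_isqrt p h2 (d := -7) (by
    rw [dvd_neg]; exact nd_small h41 (by norm_num) (by norm_num))
  obtain ⟨r, hr⟩ := wo_isqrt p h2 (d := -1) (by
    rw [dvd_neg]; exact nd_small h41 (by norm_num) (by norm_num))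
  push_cast at hr
  have hs' : s ^ 2 = -7 := by push_cast at hs; exact hs
  have n36 : ¬ (p : ℤ) ∣ 36 := nd41 h41 [(2, 2), (3, 2)] (by decide +kernel) (by decide +kernel)
  obtain ⟨v, hv⟩ := ((SW p).unit_of_red ((SW p).int_ne n36)).exists_right_inv
  push_cast at hv
  have h36 : (36 : WO p) ≠ 0 := by intro h0; rw [h0, zero_mul] at hv; exact zero_ne_one hv
  set z : WO p := v * (18 - 10 * s) with hz
  have hz1 : 36 * z = 18 - 10 * s := by rw [hz]; linear_combination (18 - 10 * s) * hv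
  have hMz : ((81 : ℤ) : WO p) * (z * (1 - z)) = 64 := by
    apply mul_left_cancel₀ h36
    apply mul_left_cancel₀ h36
    push_cast
    linear_combination (81 * (36 * (1 - z)) - 81 * (18 - 10 * s)) * hz1 - 8100 * hs'
  have dd := I7.psi (SW p) h2 h3 h7 hs' hr (z := z) (m := s) (by linear_combination hz1) hs'
  obtain ⟨f1, -⟩ := frob_z (SW p) h2 n36 (z := z) (s := s) (a := 18) (b := 10) (by push_cast; exact hz1) (d := -7) hs (by norm_num)
  refine wC hyp h41 (l := 7) (by norm_num) (by norm_num) z s hMz (by push_cast; exact hs') dd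
    (fun h => f1 (by exact_mod_cast h))
    (fun _ => qa_ne (SW p) (p := p) hMz (nd41 h41 [(2, 6), (3, 8), (5, 2)] (by decide +kernel) (by decide +kernel)))
    (fun _ => qb_ne (SW p) (p := p) hMz (nd41 h41 [(2, 11), (3, 10), (7, 1)] (by decide +kernel) (by decide +kernel))) (fun t ht => ?_)
  obtain ⟨x, y, h⟩ := repC hyp.form h41 (l := 7) (by norm_num) t (by exact_mod_cast ht)
  exact ⟨x, y, h⟩

end Pool.Agent.H546.AP
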