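import Pool.Agent.H546.APW

set_option autoImplicit false

/-!
# Reduced forms and Legendre symbols
-/

namespace Pool.Agent.H546.AP

theorem a_le {n a b c : ℤ} (h : a * c - b ^ 2 = n) (ha : 0 < a) (hb : 2 * |b| ≤ a) (hac : a ≤ c) : 3 * a ^ 2 ≤ 4 * n := by
  have h1 : a * a ≤ a * c := mul_le_mul_of_nonneg_left hac ha.le
  have h2 : (2 * |b|) ^ 2 ≤ a ^ 2 := pow_le_pow_left₀ (by positivity) hb 2
  rw [mul_pow, sq_abs] at h2
  nlinarith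

theorem redA {n : ℤ} (hn : n = 5 ∨ n = 9 ∨ n = 13 ∨ n = 25 ∨ n = 37) {a b c : ℤ} (h : a * c - b ^ 2 = n)
    (ha : 0 < a) (hb : 2 * |b| ≤ a) (hac : a ≤ c) :
    (a = 1 ∧ b = 0 ∧ c = n) ∨ (a = 2 ∧ (b = 1 ∨ b = -1) ∧ 2 * c = n + 1) ∨ (a = 3 ∧ b = 0 ∧ c = 3) ∨
      (a = 5 ∧ b = 0 ∧ c = 5) := by
  have h3 := a_le h ha hb hac
  have ha8 : a ≤ 7 := by
    by_contra hc
    have : 8 ≤ a := by omega
    have : 64 ≤ a ^ 2 := by nlinarith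
    omega
  have hb1 : 2 * b ≤ a := by have := le_abs_self b; omega
  have hb2 : -(2 * b) ≤ a := by have := neg_abs_le b; omega
  clear hb
  have hb3 : -3 ≤ b := by omega
  have hb4 : b ≤ 3 := by omega
  rcases hn with rfl | rfl | rfl | rfl | rfl <;> interval_cases a <;> interval_cases b <;> omega

theorem redB {n : ℤ} (hn : n = 6 ∨ n = 10 ∨ n = 18 ∨ n = 22 ∨ n = 58) {a b c : ℤ} (h : a * c - b ^ 2 = n)
    (ha : 0 < a) (hb : 2 * |b| ≤ a) (hac : a ≤ c) :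
    (a = 1 ∧ b = 0 ∧ c = n) ∨ (a = 2 ∧ b = 0 ∧ 2 * c = n) ∨ (a = 3 ∧ b = 0 ∧ c = 6) := by
  have h3 := a_le h ha hb hac
  have ha8 : a ≤ 8 := by
    by_contra hc
    have : 9 ≤ a := by omega
    have : 81 ≤ a ^ 2 := by nlinarith
    omega
  have hb1 : 2 * b ≤ a := by have := le_abs_self b; omega
  have hb2 : -(2 * b) ≤ a := by have := neg_abs_le b; omega
  clear hb
  have hb3 : -4 ≤ b := by omega
  have hb4 : b ≤ 4 := by omega
  rcases hn with rfl | rfl | rfl | rfl | rfl <;> interval_cases a <;> interval_cases b <;> omega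

theorem redC {n : ℤ} (hn : n = 2 ∨ n = 3 ∨ n = 4 ∨ n = 7) {a b c : ℤ} (h : a * c - b ^ 2 = n)
    (ha : 0 < a) (hb : 2 * |b| ≤ a) (hac : a ≤ c) :
    (a = 1 ∧ b = 0 ∧ c = n) ∨ (a = 2 ∧ c % 2 = 0) := by
  have h3 := a_le h ha hb hac
  have ha8 : a ≤ 3 := by
    by_contra hc
    have : 4 ≤ a := by omega
    have : 16 ≤ a ^ 2 := by nlinarith
    omega
  have hb1 : 2 * b ≤ a := by have := le_abs_self b; omega
  have hb2 : -(2 * b) ≤ a := by have := neg_abs_le b; omega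
  clear hb
  have hb3 : -4 ≤ b := by omega
  have hb4 : b ≤ 4 := by omega
  rcases hn with rfl | rfl | rfl | rfl <;> interval_cases a <;> interval_cases b <;> omega

variable {p : ℕ} [hp : Fact p.Prime]

theorem p_ne_mul (h41 : 41 ≤ p) {q m : ℤ} (hq : 1 < q) (hq2 : q < 41) (h : (p : ℤ) = q * m) : False := by
  have h1 : q ∣ (p : ℤ) := ⟨m, h⟩
  have h2 : q.natAbs ∣ p := by
    have := Int.natAbs_dvd_natAbs.mpr h1
    simpa using this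
  rcases (Nat.dvd_prime hp.out).mp h2 with h3 | h3 <;> omega

theorem repA (F : S_form) (h41 : 41 ≤ p) {n : ℕ} (hn : n = 5 ∨ n = 9 ∨ n = 13 ∨ n = 25 ∨ n = 37) (t : ℤ)
    (ht : (p : ℤ) ∣ t ^ 2 + n) :
    (∃ x y : ℤ, (p : ℤ) = x ^ 2 + n * y ^ 2) ∨ (∃ x y : ℤ, (2 * p : ℤ) = x ^ 2 + n * y ^ 2) := by
  obtain ⟨a, b, c, r, s, h1, h2, h3, h4, h5⟩ := F n p (by omega) hp.out.pos t ht
  rcases redA (n := n) (by omega) h1 h2 h3 h4 with ⟨rfl, rfl, rfl⟩ | ⟨rfl, hb, hc⟩ | ⟨rfl, rfl, rfl⟩ | ⟨rfl, rfl, rfl⟩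
  · exact Or.inl ⟨r, s, by rw [h5]; ring⟩
  · right
    rcases hb with rfl | rfl
    · exact ⟨2 * r + s, s, by rw [h5]; linear_combination s ^ 2 * hc⟩
    · exact ⟨2 * r - s, s, by rw [h5]; linear_combination s ^ 2 * hc⟩
  · exact (p_ne_mul h41 (q := 3) (m := r ^ 2 + s ^ 2) (by norm_num) (by norm_num) (by rw [h5]; ring)).elim
  · exact (p_ne_mul h41 (q := 5) (m := r ^ 2 + s ^ 2) (by norm_num) (by norm_num) (by rw [h5]; ring)).elim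

theorem repB (F : S_form) (h41 : 41 ≤ p) {l : ℕ} (hn : l = 3 ∨ l = 5 ∨ l = 9 ∨ l = 11 ∨ l = 29) (t : ℤ)
    (ht : (p : ℤ) ∣ t ^ 2 + 2 * l) :
    (∃ x y : ℤ, (p : ℤ) = x ^ 2 + (2 * l) * y ^ 2) ∨ (∃ x y : ℤ, (p : ℤ) = 2 * x ^ 2 + l * y ^ 2) := by
  obtain ⟨a, b, c, r, s, h1, h2, h3, h4, h5⟩ := F (2 * l) p (by omega) hp.out.pos t (by push_cast; exact ht)
  push_cast at h1
  rcases redB (n := 2 * l) (by omega) h1 h2 h3 h4 with ⟨rfl, rfl, rfl⟩ | ⟨rfl, rfl, hc⟩ | ⟨rfl, rfl, rfl⟩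
  · exact Or.inl ⟨r, s, by rw [h5]; ring⟩
  · exact Or.inr ⟨r, s, by rw [h5, show c = (l : ℤ) by omega]; ring⟩
  · exact (p_ne_mul h41 (q := 3) (m := r ^ 2 + 2 * s ^ 2) (by norm_num) (by norm_num) (by rw [h5]; ring)).elim

theorem repC (F : S_form) (h41 : 41 ≤ p) {l : ℕ} (hn : l = 2 ∨ l = 3 ∨ l = 4 ∨ l = 7) (t : ℤ)
    (ht : (p : ℤ) ∣ t ^ 2 + l) :
    ∃ x y : ℤ, (p : ℤ) = x ^ 2 + l * y ^ 2 := by
  obtain ⟨a, b, c, r, s, h1, h2, h3, h4, h5⟩ := F l p (by omega) hp.out.pos t ht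
  rcases redC (n := l) (by omega) h1 h2 h3 h4 with ⟨rfl, rfl, rfl⟩ | ⟨rfl, hc⟩
  · exact ⟨r, s, by rw [h5]; ring⟩
  · obtain ⟨c', rfl⟩ : ∃ c', c = 2 * c' := ⟨c / 2, by omega⟩
    exact (p_ne_mul h41 (q := 2) (m := r ^ 2 + b * r * s + c' * s ^ 2) (by norm_num) (by norm_num)
      (by rw [h5]; ring)).elim

/-! ### Legendre symbols -/

theorem leg_of_sq {q : ℕ} [hq : Fact q.Prime] {m x n : ℤ} (h : m = x ^ 2 + q * n) (hm : ¬ (q : ℤ) ∣ m) :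
    legendreSym q m = 1 := by
  have e : ((m : ℤ) : ZMod q) = ((x ^ 2 : ℤ) : ZMod q) := by
    rw [h]; push_cast; rw [ZMod.natCast_self]; ring
  have h1 : legendreSym q m = legendreSym q (x ^ 2) := by
    unfold legendreSym; rw [e]
  rw [h1]
  refine legendreSym.sq_one' q ?_
  intro h0
  apply hm
  rw [← ZMod.intCast_zmod_eq_zero_iff_dvd, e]
  push_cast
  rw [h0]; ring

theorem q_ndvd (h41 : 41 ≤ p) {q : ℕ} (hq : q.Prime) (hq2 : q < 41) : ¬ (q : ℤ) ∣ (p : ℤ) := by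
  intro h
  have h' : q ∣ p := by exact_mod_cast h
  have := (Nat.prime_dvd_prime_iff_eq hq hp.out).mp h'
  omega

/-- `d0 = q` a prime `1 mod 4` -/
theorem legq (h41 : 41 ≤ p) {q : ℕ} [hq : Fact q.Prime] (h4 : q % 4 = 1) (hq2 : q < 41) {c x n : ℤ} {ε : ℤ}
    (hc : legendreSym q c = ε) (hε : ε = 1 ∨ ε = -1) (hcc : ¬ (q : ℤ) ∣ c) (h : c * p = x ^ 2 + q * n) :
    legendreSym p q = ε := by
  have hp2 : p ≠ 2 := by omega
  rw [leg_rec h4 hp2]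
  have h1 : legendreSym q (c * p) = 1 := by
    refine leg_of_sq h ?_
    intro h0
    rcases (Nat.prime_iff_prime_int.mp hq.out).dvd_or_dvd h0 with h1 | h1
    · exact hcc h1
    · exact q_ndvd h41 hq.out hq2 h1
  rw [legendreSym.mul, hc] at h1
  rcases hε with rfl | rfl <;> omega

end Pool.Agent.H546.AP
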