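import Pool.Agent.H546.APQ

set_option autoImplicit false
set_option maxRecDepth 100000

/-!
# The small primes
-/

namespace Pool.Agent.H546.AP

open Finset
open Pool.Agent.Q267.CDE (R p_sq isUnit_nat red red_int red_eq_of isUnit_of_red)

/-- sums -/
def sl (n : ℕ) (f : ℕ → ℕ) : ℕ := Nat.rec 0 (fun i acc => acc + f i) n

theorem sl_eq (n : ℕ) (f : ℕ → ℕ) : sl n f = ∑ i ∈ range n, f i := by
  induction n with
  | zero => rfl
  | succ n ih => rw [sum_range_succ, ← ih]; rfl

/-- binomial coefficients -/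
def bc (n k : ℕ) : ℕ := n.descFactorial k / k.factorial

theorem bc_eq (n k : ℕ) : bc n k = n.choose k := (Nat.choose_eq_descFactorial_div_factorial n k).symm

/-- the Apery side -/
def lhs (p x : ℕ) : ℕ := sl ((p - 1) / 2 + 1) fun k => bc (2 * k) k ^ 2 * (sl p fun n => bc (n + k) (2 * k) ^ 2) * x ^ k

/-- the other side -/
def rhs (p w : ℕ) : ℕ := sl p fun k => bc (2 * k) k * (bc (2 * k) k * bc (4 * k) (2 * k)) * w ^ k

/-- the check -/
def chk (p : ℕ) (M : ℤ) : Bool :=
  let m := p ^ 2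
  let Mn := (M % m).toNat
  let E := p * (p - 1) - 1
  let x := Mn * 256 ^ E % m
  let w := Mn ^ E % m
  let ls : ℤ := if Mn ^ (p / 2) % p = 1 then 1 else -1
  decide ((256 * x : ℤ) % m = M % m) && decide ((M * w) % m = 1 % m) && decide ((M ^ (p / 2) - ls) % p = 0) &&
    decide (((lhs p x : ℤ) - ls * rhs p w) % m = 0)

theorem chk_sound (hL : S_L) {p : ℕ} [hp : Fact p.Prime] (hp3 : 3 < p) {M : ℤ} (h : chk p M = true)
    {x wi : R p} (hx : 256 * x = M) (hwi : (M : R p) * wi = 1) :
    ∑ n ∈ range p, ∑ k ∈ range (n + 1), (((n.choose k) ^ 2 * ((n + k).choose k) ^ 2 : ℕ) : R p) * x ^ k =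
      ((legendreSym p M : ℤ) : R p) * FF p wi := by
  unfold chk at h
  simp only [Bool.and_eq_true, decide_eq_true_eq] at h
  obtain ⟨⟨⟨h1, h2⟩, h3⟩, h4⟩ := h
  set Mn := (M % ((p ^ 2 : ℕ) : ℤ)).toNat with hMn
  set x0 : ℕ := Mn * 256 ^ (p * (p - 1) - 1) % p ^ 2 with hx0
  set w0 : ℕ := Mn ^ (p * (p - 1) - 1) % p ^ 2 with hw0
  set ls : ℤ := if Mn ^ (p / 2) % p = 1 then 1 else -1 with hls
  have hls1 : ls = 1 ∨ ls = -1 := by rw [hls]; split_ifs <;> simp
  have u2 := unit2 (p := p) hp3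
  have u256 : IsUnit (256 : R p) := by
    have : (256 : R p) = 2 ^ 8 := by norm_num
    rw [this]; exact u2.pow 8
  have e1 : (256 : R p) * (x0 : R p) = M := by
    have := (ZMod.intCast_eq_intCast_iff' (256 * x0 : ℤ) M (p ^ 2)).mpr h1
    push_cast at this; exact this
  have e2 : (M : R p) * (w0 : R p) = 1 := by
    have := (ZMod.intCast_eq_intCast_iff' (M * w0 : ℤ) 1 (p ^ 2)).mpr h2
    push_cast at this; exact this
  have ex : x = (x0 : R p) := u256.mul_left_cancel (by rw [hx, e1])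
  have uM : IsUnit (M : R p) := IsUnit.of_mul_eq_one _ hwi
  have ew : wi = (w0 : R p) := uM.mul_left_cancel (by rw [hwi, e2])
  have hleg : legendreSym p M = ls := by
    have hl := legendreSym.eq_pow p M
    have h5 : ((M ^ (p / 2) - ls : ℤ) : ZMod p) = 0 := by
      rw [ZMod.intCast_zmod_eq_zero_iff_dvd]; exact Int.dvd_of_emod_eq_zero h3
    push_cast at h5
    have h6 : (legendreSym p M : ZMod p) = (ls : ZMod p) := by rw [hl]; linear_combination h5
    have h2p : (2 : ZMod p) ≠ 0 := by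
      have := (u2.map (red p)).ne_zero
      rwa [map_ofNat] at this
    have hM0 : (M : ZMod p) ≠ 0 := by
      intro h0
      have := congrArg (red p) hwi
      rw [map_mul, red_int, h0, zero_mul, map_one] at this
      exact zero_ne_one this
    rcases legendreSym.eq_one_or_neg_one p hM0 with h | h <;> rcases hls1 with h' | h' <;> rw [h, h'] at h6 <;> rw [h, h']
    · exfalso; apply h2p; push_cast at h6; linear_combination h6
    · exfalso; apply h2p; push_cast at h6; linear_combination -h6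
  rw [hL p (by omega), ex, ew, hleg]
  have h7 : (((lhs p x0 : ℤ) - ls * rhs p w0 : ℤ) : R p) = 0 := by
    rw [ZMod.intCast_zmod_eq_zero_iff_dvd]; exact Int.dvd_of_emod_eq_zero h4
  push_cast at h7
  have h8 : (lhs p x0 : R p) = ∑ k ∈ range ((p - 1) / 2 + 1), ((k.centralBinom : ℕ) : R p) ^ 2 * fs p k * (x0 : R p) ^ k := by
    unfold lhs
    rw [sl_eq, Nat.cast_sum]
    refine sum_congr rfl fun k _ => ?_
    rw [sl_eq]
    unfold fs
    push_cast
    simp only [bc_eq, Nat.centralBinom_eq_two_mul_choose]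
  have h9 : (rhs p w0 : R p) = FF p (w0 : R p) := by
    unfold rhs FF u4
    rw [sl_eq, Nat.cast_sum]
    refine sum_congr rfl fun k _ => ?_
    simp only [bc_eq, Nat.centralBinom_eq_two_mul_choose, ← mul_assoc]
    push_cast
    ring_nf
  rw [← h8, ← h9]
  linear_combination h7

/-- the fifteen values `256 x` -/
def Ms : List ℤ := [256, -1024, 2304, -12288, 20736, -82944, 614656, 2509056, -6635520, -199148544, 24591257856,
  81, -144, 648, -3969]

theorem small_ok : ∀ p ∈ [5, 7, 11, 13, 17, 19, 23, 29, 31, 37], ∀ M ∈ Ms, M % (p : ℕ) = 0 ∨ chk p M = true := by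
  decide +kernel

end Pool.Agent.H546.AP
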