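import Pool.Agent.H546.APE

set_option autoImplicit false

/-!
# Apery polynomials at CM points: the packaged statements over the Witt vectors
-/

namespace Pool.Agent.H546.AP

open Finset
open Pool.Agent.Q267.CDE (R p_sq)

variable {p : ℕ} [hp : Fact p.Prime]

theorem leg_cases {m : ℤ} (hm : ¬ (p : ℤ) ∣ m) :
    (legendreSym p m = 1 ∧ ∃ t : ℤ, (p : ℤ) ∣ t ^ 2 - m) ∨ legendreSym p m = -1 := by
  have h0 : (m : ZMod p) ≠ 0 := by
    rw [Ne, ZMod.intCast_zmod_eq_zero_iff_dvd]; exact hm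
  rcases legendreSym.eq_one_or_neg_one p h0 with h | h
  · refine Or.inl ⟨h, ?_⟩
    rw [legendreSym.eq_one_iff p h0] at h
    obtain ⟨x, hx⟩ := h
    obtain ⟨t, rfl⟩ := ZMod.intCast_surjective x
    refine ⟨t, ?_⟩
    rw [← ZMod.intCast_zmod_eq_zero_iff_dvd]
    push_cast
    rw [hx]; ring
  · exact Or.inr h

omit hp in
theorem nd_small (h41 : 41 ≤ p) {n : ℤ} (h1 : 0 < n) (h2 : n < 41) : ¬ (p : ℤ) ∣ n := by
  intro h
  have := Int.le_of_dvd h1 h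
  omega

omit hp in
theorem big_small (h41 : 41 ≤ p) {l : ℕ} (hl : l ≤ 29) : 32 * l < p ^ 2 := by nlinarith

theorem nd_two (h41 : 41 ≤ p) {l : ℕ} (hl0 : 0 < l) (hl : l ≤ 29) : ¬ (p : ℤ) ∣ 2 * l := by
  intro h
  have h' : p ∣ 2 * l := by exact_mod_cast h
  rcases (Nat.Prime.dvd_mul hp.out).mp h' with h | h
  · have := Nat.le_of_dvd (by norm_num) h; omega
  · have := Nat.le_of_dvd hl0 h; omega

/-- type A -/
theorem wA (H : Hyp) (h41 : 41 ≤ p) {M n N a b d0 : ℤ} {l : ℕ}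
    (hN : ¬ (p : ℤ) ∣ N) (hd0 : ¬ (p : ℤ) ∣ d0) (h2a : 2 * a = N)
    (hMN : M * (a ^ 2 - b ^ 2 * d0) = 64 * N ^ 2)
    (hn : (2 * l : ℤ) = n + 1) (hnodd : n % 2 = 1) (hl0 : 0 < l) (hl : l ≤ 29) (hpn : ¬ (p : ℤ) ∣ n)
    (τf : WO p → WO p → WO p)
    (hτf : ∀ s r : WO p, s ^ 2 = (d0 : WO p) → r ^ 2 = -1 → τf s r ^ 2 = -(n : WO p))
    (iso : ∀ s r z μ : WO p, s ^ 2 = (d0 : WO p) → r ^ 2 = -1 → (N : WO p) * z = a - b * s →
      μ ^ 2 = (l : WO p) - 1 - τf s r →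
      Dat (SW p) (cub (qa z) (qb z)) (qa (1 - z)) (qb (1 - z)) μ l)
    (bad : legendreSym p (-n) = 1 → ¬ (p : ℤ) ∣ 46656 * (144 + M) ∧ ¬ (p : ℤ) ∣ 1492992 * (648 - M))
    (rep : ∀ t : ℤ, (p : ℤ) ∣ t ^ 2 + n →
      (∃ x y : ℤ, (p : ℤ) = x ^ 2 + n * y ^ 2 ∧ legendreSym p d0 = 1) ∨
      (∃ x y : ℤ, (2 * p : ℤ) = x ^ 2 + n * y ^ 2 ∧ legendreSym p d0 = -1)) : Rel p M := by
  have h2 : p ≠ 2 := by omega
  obtain ⟨s, hs⟩ := wo_isqrt p h2 (d := d0) hd0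
  obtain ⟨r, hr⟩ := wo_isqrt p h2 (d := -1) (by
    rw [dvd_neg]; exact nd_small h41 (by norm_num) (by norm_num))
  obtain ⟨ρ, hρ⟩ := wo_isqrt p h2 (d := -2) (by
    rw [dvd_neg]; exact nd_small h41 (by norm_num) (by norm_num))
  push_cast at hr hρ
  have rN : (SW p).red ((N : ℤ) : WO p) ≠ 0 := (SW p).int_ne hN
  obtain ⟨v, hv⟩ := ((SW p).unit_of_red rN).exists_right_inv
  obtain ⟨w, hw⟩ := ((SW p).unit_of_red ((SW p).two_ne (p := p) h2)).exists_right_inv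
  set z : WO p := v * (a - b * s) with hz
  have hz1 : (N : WO p) * z = a - b * s := by rw [hz]; linear_combination ((a : WO p) - b * s) * hv
  have hN0 : (N : WO p) ≠ 0 := by
    intro h0; rw [h0, zero_mul] at hv; exact zero_ne_one hv
  have h2a' : 2 * (a : WO p) = N := by
    have := congrArg (Int.cast : ℤ → WO p) h2a
    push_cast at this; exact this
  have hMN' : (M : WO p) * ((a : WO p) ^ 2 - (b : WO p) ^ 2 * d0) = 64 * (N : WO p) ^ 2 := by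
    have := congrArg (Int.cast : ℤ → WO p) hMN
    push_cast at this; exact this
  have hMz : (M : WO p) * (z * (1 - z)) = 64 := by
    apply mul_left_cancel₀ hN0
    apply mul_left_cancel₀ hN0
    linear_combination (M : WO p) * ((N : WO p) - N * z) * hz1 - (M : WO p) * (a - b * s) * hz1 +
      hMN' - (M : WO p) * (a - b * s) * h2a' - (M : WO p) * (b : WO p) ^ 2 * hs
  set τ := τf s r with hτd
  have hτ := hτf s r hs hr
  rw [← hτd] at hτ
  set μ : WO p := -(w * ((1 + τ) * ρ)) with hμd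
  have hμ : 2 * μ = -((1 + τ) * ρ) := by rw [hμd]; linear_combination (-((1 + τ) * ρ)) * hw
  have h2O : (2 : WO p) ≠ 0 := by intro h0; rw [h0, zero_mul] at hw; exact zero_ne_one hw
  have hnl : 2 * (l : WO p) = n + 1 := by
    have := congrArg (Int.cast : ℤ → WO p) hn
    push_cast at this; exact this
  have hm2 : μ ^ 2 = (l : WO p) - 1 - τ := by
    apply mul_left_cancel₀ h2O
    apply mul_left_cancel₀ h2O
    linear_combination (2 * μ - (1 + τ) * ρ) * hμ + (1 + τ) ^ 2 * hρ - 2 * hτ - 2 * hnl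
  have d := iso s r z μ hs hr hz1 hm2
  obtain ⟨f1, f2⟩ := frob_z (SW p) h2 hN hz1 (d := d0) hs h2a
  obtain ⟨m1, m2, m3⟩ := tA (SW p) H (by omega) (SW_q p) (n := n) hMz hτ hρ hμ hn hnodd d
    hl0 (nd_two h41 hl0 hl)
  refine rel_R (SW p) H.I H.b (by omega) (SW_q p) ?_ hMz
  rcases leg_cases (p := p) (m := -n) (by rw [dvd_neg]; exact hpn) with ⟨hl1, t, ht⟩ | hl1
  · obtain ⟨ha, hb⟩ := bad hl1
    rw [sub_neg_eq_add] at ht
    rcases rep t ht with ⟨x, y, hxy, hd⟩ | ⟨x, y, hxy, hd⟩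
    · exact m1 (f1 hd) ha hb (big_small h41 hl) x y hxy
    · exact m2 (f2 hd) ha hb (big_small h41 hl) x y hxy
  · refine m3 ?_ hpn
    have := (SW p).frob_sq h2 (d := -n) (y := τ) (by rw [hτ]; push_cast; ring)
    rw [this, hl1]; push_cast; ring

/-- type B -/
theorem wB (H : Hyp) (h41 : 41 ≤ p) {M N a b d0 : ℤ} {l : ℕ}
    (hN : ¬ (p : ℤ) ∣ N) (hd0 : ¬ (p : ℤ) ∣ d0) (h2a : 2 * a = N)
    (hMN : M * (a ^ 2 - b ^ 2 * d0) = 64 * N ^ 2) (hl0 : 0 < l) (hl : l ≤ 29)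
    (iso : ∀ s r z μ : WO p, s ^ 2 = (d0 : WO p) → r ^ 2 = -1 → (N : WO p) * z = a - b * s →
      μ ^ 2 = (l : WO p) →
      Dat (SW p) (cub (qa z) (qb z)) (qa (1 - z)) (qb (1 - z)) μ l)
    (bad : legendreSym p (-(2 * l : ℤ)) = 1 →
      ¬ (p : ℤ) ∣ 46656 * (144 + M) ∧ ¬ (p : ℤ) ∣ 1492992 * (648 - M))
    (rep : ∀ t : ℤ, (p : ℤ) ∣ t ^ 2 + 2 * l →
      (∃ x y : ℤ, (p : ℤ) = x ^ 2 + (2 * l) * y ^ 2 ∧ legendreSym p d0 = 1) ∨
      (∃ x y : ℤ, (p : ℤ) = 2 * x ^ 2 + l * y ^ 2 ∧ legendreSym p d0 = -1)) : Rel p M := by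
  have h2 : p ≠ 2 := by omega
  obtain ⟨s, hs⟩ := wo_isqrt p h2 (d := d0) hd0
  obtain ⟨r, hr⟩ := wo_isqrt p h2 (d := -1) (by
    rw [dvd_neg]; exact nd_small h41 (by norm_num) (by norm_num))
  obtain ⟨ρ, hρ⟩ := wo_isqrt p h2 (d := -2) (by
    rw [dvd_neg]; exact nd_small h41 (by norm_num) (by norm_num))
  obtain ⟨μ, hμ⟩ := wo_isqrt p h2 (d := l) (nd_small h41 (by exact_mod_cast hl0) (by omega))
  push_cast at hr hρ hμ
  have rN : (SW p).red ((N : ℤ) : WO p) ≠ 0 := (SW p).int_ne hN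
  obtain ⟨v, hv⟩ := ((SW p).unit_of_red rN).exists_right_inv
  set z : WO p := v * (a - b * s) with hz
  have hz1 : (N : WO p) * z = a - b * s := by rw [hz]; linear_combination ((a : WO p) - b * s) * hv
  have hN0 : (N : WO p) ≠ 0 := by
    intro h0; rw [h0, zero_mul] at hv; exact zero_ne_one hv
  have h2a' : 2 * (a : WO p) = N := by
    have := congrArg (Int.cast : ℤ → WO p) h2a
    push_cast at this; exact this
  have hMN' : (M : WO p) * ((a : WO p) ^ 2 - (b : WO p) ^ 2 * d0) = 64 * (N : WO p) ^ 2 := by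
    have := congrArg (Int.cast : ℤ → WO p) hMN
    push_cast at this; exact this
  have hMz : (M : WO p) * (z * (1 - z)) = 64 := by
    apply mul_left_cancel₀ hN0
    apply mul_left_cancel₀ hN0
    linear_combination (M : WO p) * ((N : WO p) - N * z) * hz1 - (M : WO p) * (a - b * s) * hz1 +
      hMN' - (M : WO p) * (a - b * s) * h2a' - (M : WO p) * (b : WO p) ^ 2 * hs
  have d := iso s r z μ hs hr hz1 hμ
  obtain ⟨f1, f2⟩ := frob_z (SW p) h2 hN hz1 (d := d0) hs h2a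
  have hnd := nd_two h41 hl0 hl
  obtain ⟨m1, m2, m3⟩ := tB (SW p) H (by omega) (SW_q p) hMz hρ hμ d hnd
  refine rel_R (SW p) H.I H.b (by omega) (SW_q p) ?_ hMz
  rcases leg_cases (p := p) (m := -(2 * l : ℤ)) (by rw [dvd_neg]; exact hnd) with ⟨hl1, t, ht⟩ | hl1
  · obtain ⟨ha, hb⟩ := bad hl1
    rw [sub_neg_eq_add] at ht
    rcases rep t ht with ⟨x, y, hxy, hd⟩ | ⟨x, y, hxy, hd⟩
    · exact m1 (f1 hd) ha hb (big_small h41 hl) x y hxy
    · exact m2 (f2 hd) ha hb (big_small h41 hl) x y hxy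
  · refine m3 ?_
    have := (SW p).frob_sq h2 (d := -(2 * l : ℤ)) (y := μ * ρ) (by
      push_cast; linear_combination ρ ^ 2 * hμ + (l : WO p) * hρ)
    rw [this, hl1]; push_cast; ring

/-- type C -/
theorem wC (H : Hyp) (h41 : 41 ≤ p) {M : ℤ} {l : ℕ} (hl0 : 0 < l) (hl : l ≤ 29) (z τ : WO p)
    (hMz : (M : WO p) * (z * (1 - z)) = 64) (hτ : τ ^ 2 = -(l : WO p))
    (d : Dat (SW p) (cub (qa z) (qb z)) (qa z) (qb z) τ l)
    (hf : legendreSym p (-(l : ℤ)) = 1 → (SW p).red z = (SW p).red z ^ p)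
    (ha : legendreSym p (-(l : ℤ)) = 1 → (SW p).red (qa z) ≠ 0)
    (hb : legendreSym p (-(l : ℤ)) = 1 → (SW p).red (qb z) ≠ 0)
    (rep : ∀ t : ℤ, (p : ℤ) ∣ t ^ 2 + l → ∃ x y : ℤ, (p : ℤ) = x ^ 2 + l * y ^ 2) : Rel p M := by
  have h2 : p ≠ 2 := by omega
  have hnl : ¬ (p : ℤ) ∣ l := nd_small h41 (by exact_mod_cast hl0) (by omega)
  obtain ⟨m1, m3⟩ := tC (SW p) H (by omega) (SW_q p) hMz hτ d hnl
  refine rel_R (SW p) H.I H.b (by omega) (SW_q p) ?_ hMz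
  rcases leg_cases (p := p) (m := -(l : ℤ)) (by rw [dvd_neg]; exact hnl) with ⟨hl1, t, ht⟩ | hl1
  · rw [sub_neg_eq_add] at ht
    obtain ⟨x, y, hxy⟩ := rep t ht
    have := big_small h41 hl
    exact m1 (hf hl1) (ha hl1) (hb hl1) (by omega) x y hxy
  · refine m3 ?_
    have := (SW p).frob_sq h2 (d := -(l : ℤ)) (y := τ) (by rw [hτ]; push_cast; ring)
    rw [this, hl1]; push_cast; ring

end Pool.Agent.H546.AP
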