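import Pool.Agent.H546.APS
import Pool.Agent.H546.Lin2

set_option autoImplicit false
set_option maxRecDepth 100000

/-!
# The congruence at the fifteen points: transfer to the rational numbers
-/

namespace Pool.Agent.H546.AP

open Finset
open Pool.Agent.Q267.CDE (R p_sq)

/-- the congruence in `ZMod (p^2)` -/
theorem core_R {p : ℕ} [hp : Fact p.Prime] (hp3 : 3 < p) {M : ℤ} (hMs : M ∈ Ms) (hM : ¬ (p : ℤ) ∣ M)
    {x wi : R p} (hx : 256 * x = M) (hwi : (M : R p) * wi = 1) :
    ∑ n ∈ range p, ∑ k ∈ range (n + 1), (((n.choose k) ^ 2 * ((n + k).choose k) ^ 2 : ℕ) : R p) * x ^ k =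
      ((legendreSym p M : ℤ) : R p) * FF p wi := by
  by_cases h41 : 41 ≤ p
  · refine fin hyp.F hyp.L hyp.lin hyp.mor hyp.bT hyp.t hp3 hM hx hwi ?_
    simp only [Ms, List.mem_cons, List.mem_nil_iff, or_false] at hMs
    rcases hMs with rfl | rfl | rfl | rfl | rfl | rfl | rfl | rfl | rfl | rfl | rfl | rfl | rfl | rfl | rfl
    · exact ptC2 h41
    · exact pt20 h41
    · exact pt24 h41
    · exact pt36 h41
    · exact pt40 h41
    · exact pt52 h41
    · exact pt72 h41
    · exact pt88 h41
    · exact pt100 h41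
    · exact pt148 h41
    · exact pt232 h41
    · exact ptC7 h41
    · exact ptC12 h41
    · exact ptC16 h41
    · exact ptC28 h41
  · have hpl : p ∈ [5, 7, 11, 13, 17, 19, 23, 29, 31, 37] := by
      have hpp := hp.out
      have h40 : p ≤ 40 := by omega
      interval_cases p <;> first | decide | (exfalso; revert hpp; norm_num)
    have h := small_ok p hpl M hMs
    rcases h with h | h
    · exact absurd (Int.dvd_of_emod_eq_zero h) hM
    · exact chk_sound hyp.L hp3 h hx hwi

/-- the numerator -/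
def NN (p : ℕ) (a b M lam : ℤ) : ℤ :=
  ∑ n ∈ range p, ∑ k ∈ range (n + 1), ((n.choose k) ^ 2 * ((n + k).choose k) ^ 2 : ℕ) * (a ^ k * b ^ (p - k)) * M ^ p -
    lam * ∑ k ∈ range p, ((k.centralBinom * u4 k : ℕ) : ℤ) * M ^ (p - k) * b ^ p

theorem NN_eq {A : Type*} [CommRing A] (p : ℕ) (a b M lam : ℤ) {x w : A} (hb : (b : A) * x = a) (hw : (M : A) * w = 1) :
    ((NN p a b M lam : ℤ) : A) = (b : A) ^ p * (M : A) ^ p *
      (∑ n ∈ range p, ∑ k ∈ range (n + 1), (((n.choose k) ^ 2 * ((n + k).choose k) ^ 2 : ℕ) : A) * x ^ k -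
        (lam : A) * ∑ k ∈ range p, ((k.centralBinom * u4 k : ℕ) : A) * w ^ k) := by
  unfold NN
  have e1 : ∀ k, k ≤ p → (b : A) ^ p * x ^ k = (a : A) ^ k * (b : A) ^ (p - k) := by
    intro k hk
    obtain ⟨m, rfl⟩ := Nat.exists_eq_add_of_le hk
    rw [Nat.add_sub_cancel_left, pow_add, ← hb]; ring
  have e2 : ∀ k, k ≤ p → (M : A) ^ p * w ^ k = (M : A) ^ (p - k) := by
    intro k hk
    obtain ⟨m, rfl⟩ := Nat.exists_eq_add_of_le hk
    rw [Nat.add_sub_cancel_left, pow_add, mul_right_comm, ← mul_pow, hw, one_pow, one_mul]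
  push_cast
  rw [mul_sub]
  simp only [mul_sum]
  refine congrArg₂ (· - ·) ?_ ?_
  · refine sum_congr rfl fun n hn => ?_
    refine sum_congr rfl fun k hk => ?_
    have hk' : k ≤ p := by
      have h1 := mem_range.mp hn
      have h2 := mem_range.mp hk
      omega
    rw [← e1 k hk']; ring
  · refine sum_congr rfl fun k hk => ?_
    rw [← e2 k (by have := mem_range.mp hk; omega)]; ring

/-- the congruence in the rational numbers -/
theorem core_Q {p : ℕ} [hp : Fact p.Prime] (hp3 : 3 < p) {M : ℤ} (hMs : M ∈ Ms) {x : ℚ} (hx : (M : ℚ) = 256 * x)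
    (hpx : ¬ (p : ℤ) ∣ x.num) :
    p.Coprime (((∑ n ∈ range p, ∑ k ∈ range (n + 1), ((n.choose k : ℚ) ^ 2 * ((n + k).choose k : ℚ) ^ 2) * x ^ k) -
      ((legendreSym p x.num * legendreSym p x.den : ℤ) : ℚ) *
        ∑ k ∈ range p, (((4 * k).factorial : ℚ) / ((k.factorial : ℚ) ^ 4)) / (256 * x) ^ k) / (p : ℚ) ^ 2).den := by
  set a : ℤ := x.num with ha
  set b : ℤ := (x.den : ℤ) with hb
  have hbx : (b : ℚ) * x = a := by
    rw [hb, ha, mul_comm]; exact_mod_cast Rat.mul_den_eq_num x
  have hMb : M * b = 256 * a := by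
    have : ((M * b : ℤ) : ℚ) = ((256 * a : ℤ) : ℚ) := by
      push_cast; rw [hx]; linear_combination 256 * hbx
    exact_mod_cast this
  have hp2 : ¬ (p : ℤ) ∣ 256 := ndvd_fac [(2, 8)] (by simp; exact ⟨by norm_num, by omega⟩) (by norm_num)
  have hpint := Nat.prime_iff_prime_int.mp hp.out
  have hpM : ¬ (p : ℤ) ∣ M := by
    intro h
    have h1 : (p : ℤ) ∣ 256 * a := by rw [← hMb]; exact h.mul_right b
    rcases hpint.dvd_or_dvd h1 with h2 | h2
    · exact hp2 h2
    · exact hpx h2
  have hpb : ¬ (p : ℤ) ∣ b := by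
    intro h
    have h1 : (p : ℤ) ∣ 256 * a := by rw [← hMb]; exact h.mul_left M
    rcases hpint.dvd_or_dvd h1 with h2 | h2
    · exact hp2 h2
    · exact hpx h2
  obtain ⟨wi, hwi⟩ := inv_exists hpM
  obtain ⟨vi, hvi⟩ := inv_exists hpb
  have u2 := unit2 (p := p) hp3
  have u256 : IsUnit (256 : R p) := by
    have : (256 : R p) = 2 ^ 8 := by norm_num
    rw [this]; exact u2.pow 8
  set x' : R p := (a : R p) * vi with hx'
  have hbx' : (b : R p) * x' = a := by rw [hx']; linear_combination (a : R p) * hvi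
  have h256 : 256 * x' = (M : R p) := by
    have := congrArg (Int.cast : ℤ → R p) hMb
    push_cast at this
    rw [hx']; linear_combination -vi * this + (M : R p) * hvi
  have hR := core_R hp3 hMs hpM h256 hwi
  -- Legendre symbols
  have hleg : legendreSym p M = legendreSym p a * legendreSym p b := by
    have h1 : legendreSym p M * legendreSym p b = legendreSym p a := by
      rw [← legendreSym.mul, hMb, legendreSym.mul]
      have : legendreSym p 256 = 1 := by
        have := legendreSym.sq_one' p (a := 16) (by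
          intro h0
          apply hp2
          rw [← ZMod.intCast_zmod_eq_zero_iff_dvd]
          push_cast at h0 ⊢
          have : (256 : ZMod p) = 16 * 16 := by norm_num
          rw [this, h0, zero_mul])
        norm_num at this
        exact this
      rw [this, one_mul]
    have hb0 : (b : ZMod p) ≠ 0 := by rw [Ne, ZMod.intCast_zmod_eq_zero_iff_dvd]; exact hpb
    rcases legendreSym.eq_one_or_neg_one p hb0 with h | h <;> rw [h] at h1 ⊢ <;> rw [← h1] <;> ring
  set lam : ℤ := legendreSym p a * legendreSym p b with hlam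
  -- the numerator vanishes
  have hN0 : ((NN p a b M lam : ℤ) : R p) = 0 := by
    rw [NN_eq p a b M lam hbx' hwi, hR, hleg]
    have : FF p wi = ∑ k ∈ range p, ((k.centralBinom * u4 k : ℕ) : R p) * wi ^ k := by
      unfold FF; refine sum_congr rfl fun k _ => ?_; push_cast; rfl
    rw [this, sub_self, mul_zero]
  rw [ZMod.intCast_zmod_eq_zero_iff_dvd] at hN0
  obtain ⟨c, hc⟩ := hN0
  have hb0 : (b : ℚ) ≠ 0 := by rw [hb]; exact_mod_cast x.den_ne_zero
  have hM0 : (M : ℚ) ≠ 0 := by
    intro h0; apply hpM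
    have : M = 0 := by exact_mod_cast h0
    rw [this]; exact dvd_zero _
  have hp0 : (p : ℚ) ≠ 0 := by exact_mod_cast hp.out.ne_zero
  have hQ := NN_eq (A := ℚ) p a b M lam (x := x) (w := 1 / M) hbx (by field_simp)
  have eF : ∑ k ∈ range p, (((4 * k).factorial : ℚ) / ((k.factorial : ℚ) ^ 4)) / (256 * x) ^ k =
      ∑ k ∈ range p, ((k.centralBinom * u4 k : ℕ) : ℚ) * (1 / (M : ℚ)) ^ k := by
    refine sum_congr rfl fun k _ => ?_
    rw [← hx, one_div, inv_pow, ← div_eq_mul_inv]
    congr 1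
    have hk : (k.factorial : ℚ) ≠ 0 := by exact_mod_cast k.factorial_ne_zero
    have h1 : k.centralBinom * k.factorial * k.factorial = (2 * k).factorial := by
      have := Nat.choose_mul_factorial_mul_factorial (show k ≤ 2 * k by omega)
      rw [show 2 * k - k = k by omega] at this
      exact this
    have h2 : (2 * k).centralBinom * (2 * k).factorial * (2 * k).factorial = (4 * k).factorial := by
      have := Nat.choose_mul_factorial_mul_factorial (show 2 * k ≤ 2 * (2 * k) by omega)
      rw [show 2 * (2 * k) - 2 * k = 2 * k by omega] at this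
      rw [show 4 * k = 2 * (2 * k) by ring]
      exact this
    have h1' : (k.centralBinom : ℚ) * k.factorial * k.factorial = (2 * k).factorial := by exact_mod_cast h1
    have h2' : ((2 * k).centralBinom : ℚ) * (2 * k).factorial * (2 * k).factorial = (4 * k).factorial := by
      exact_mod_cast h2
    rw [div_eq_iff (pow_ne_zero 4 hk), ← h2', ← h1', u4]
    push_cast
    ring
  have eA : ∑ n ∈ range p, ∑ k ∈ range (n + 1), ((n.choose k : ℚ) ^ 2 * ((n + k).choose k : ℚ) ^ 2) * x ^ k =
      ∑ n ∈ range p, ∑ k ∈ range (n + 1), (((n.choose k) ^ 2 * ((n + k).choose k) ^ 2 : ℕ) : ℚ) * x ^ k := by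
    push_cast; rfl
  rw [eF, eA]
  refine cop_of_eq (n := c) (d := b ^ p * M ^ p) ?_ ?_
  · have hc' : ((NN p a b M lam : ℤ) : ℚ) = (p : ℚ) ^ 2 * c := by
      rw [hc]; push_cast; ring
    rw [hc'] at hQ
    push_cast at hQ ⊢
    have hd : (b : ℚ) ^ p * (M : ℚ) ^ p ≠ 0 := mul_ne_zero (pow_ne_zero _ hb0) (pow_ne_zero _ hM0)
    rw [div_eq_div_iff (pow_ne_zero 2 hp0) hd]
    linear_combination -hQ
  · rw [Nat.Prime.coprime_iff_not_dvd hp.out, ← Int.natCast_dvd]
    intro h
    rcases hpint.dvd_or_dvd h with h1 | h1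
    · exact hpb (hpint.dvd_of_dvd_pow h1)
    · exact hpM (hpint.dvd_of_dvd_pow h1)

end Pool.Agent.H546.AP
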