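import Pool.Agent.H979.DE.Stm

/-! # Step probabilities (task DE NG of helper979, by helper546) -/

set_option autoImplicit false
set_option linter.all false

namespace Pool.Agent.H546

open MeasureTheory Finset Filter Pool.Agent.H41.Derrw Pool.Agent.H979.DE

theorem de_ng (h1 : S_CONS) : S_NG := by
  intro V _ G _ γ w n hv hg y hy
  have hle : ∀ z ∈ G.neighborFinset (w n), cross w n (w n) z ≤ 0 := by
    intro z hz
    by_contra h
    exact hg ⟨z, (SimpleGraph.mem_neighborFinset _ _ _).1 hz, not_le.1 h⟩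
  have hsum := h1 V G w n hv (w n)
  rw [if_pos (rfl : w n = w n)] at hsum
  have hs0 : -1 ≤ ∑ z ∈ G.neighborFinset (w n), cross w n (w n) z := by
    rw [hsum]
    split_ifs <;> omega
  have hge : ∀ z ∈ G.neighborFinset (w n), -1 ≤ cross w n (w n) z := by
    intro z hz
    have h2 := Finset.single_le_sum (f := fun z => -cross w n (w n) z)
      (fun i hi => by have := hle i hi; omega) hz
    rw [Finset.sum_neg_distrib] at h2
    omega
  have hwt : ∀ z ∈ G.neighborFinset (w n), wt γ (cross w n (w n) z) = 1 := by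
    intro z hz
    have h2 := hle z hz
    have h3 := hge z hz
    unfold wt
    rw [if_neg (by omega)]
    by_cases h4 : cross w n (w n) z = 0
    · rw [if_pos h4]
    · rw [if_neg h4]
      have h5 : cross w n (w n) z = -1 := by omega
      rw [h5]
      have e : (-((-1 : ℤ) : ℝ)) = 1 := by norm_num
      rw [e, Real.one_rpow]
  have hyN : y ∈ G.neighborFinset (w n) := (SimpleGraph.mem_neighborFinset _ _ _).2 hy
  refine ⟨?_, hge y hyN⟩
  unfold Pool.Agent.H41.Derrw.trans
  rw [if_pos hy, hwt y hyN, Finset.sum_congr rfl hwt, Finset.sum_const, nsmul_eq_mul, mul_one,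
    SimpleGraph.card_neighborFinset_eq_degree]

theorem de_irc (h1 : S_CONS) : S_IRC := by
  intro V _ G _ γ w n hγ hv hdeg hgood
  have hsum := h1 V G w n hv (w n)
  rw [if_pos (rfl : w n = w n)] at hsum
  have hcard : (G.neighborFinset (w n)).card = 2 := by
    rw [SimpleGraph.card_neighborFinset_eq_degree]
    exact hdeg
  obtain ⟨y, hy, hc⟩ := hgood
  have hyN : y ∈ G.neighborFinset (w n) := (SimpleGraph.mem_neighborFinset _ _ _).2 hy
  obtain ⟨z, hz⟩ : ∃ z, (G.neighborFinset (w n)).erase y = {z} := by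
    rw [← Finset.card_eq_one, Finset.card_erase_of_mem hyN, hcard]
  have hzy : z ≠ y := by
    have : z ∈ (G.neighborFinset (w n)).erase y := by rw [hz]; exact Finset.mem_singleton_self z
    exact (Finset.mem_erase.1 this).1
  have hzN : z ∈ G.neighborFinset (w n) := by
    have : z ∈ (G.neighborFinset (w n)).erase y := by rw [hz]; exact Finset.mem_singleton_self z
    exact (Finset.mem_erase.1 this).2
  have hN : G.neighborFinset (w n) = {y, z} := by
    rw [← Finset.insert_erase hyN, hz]
  have hyz : y ∉ ({z} : Finset V) := by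
    rw [Finset.mem_singleton]
    exact fun h => hzy h.symm
  have hsum2 : ∀ f : V → ℤ, ∑ u ∈ G.neighborFinset (w n), f u = f y + f z := by
    intro f
    rw [hN, Finset.sum_insert hyz, Finset.sum_singleton]
  have hsum3 : ∀ f : V → ℝ, ∑ u ∈ G.neighborFinset (w n), f u = f y + f z := by
    intro f
    rw [hN, Finset.sum_insert hyz, Finset.sum_singleton]
  rw [hsum2] at hsum
  obtain ⟨c, hcc⟩ : ∃ c : ℤ, c = cross w n (w n) y := ⟨_, rfl⟩
  obtain ⟨e, hee⟩ : ∃ e : ℤ, e = cross w n (w n) z := ⟨_, rfl⟩
  rw [← hcc] at hc hsum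
  rw [← hee] at hsum
  have he : e ≤ -c := by
    split_ifs at hsum <;> omega
  have hout : out G w n (w n) = c.toNat := by
    unfold out
    rw [hN, Finset.sum_insert hyz, Finset.sum_singleton, ← hcc, ← hee]
    have : e.toNat = 0 := Int.toNat_of_nonpos (by omega)
    rw [this, add_zero]
  have hirr : irr G γ w n = wt γ e / (wt γ c + wt γ e) := by
    unfold irr
    have hf : (G.neighborFinset (w n)).filter (fun u => cross w n (w n) u ≤ 0) = {z} := by
      rw [hN]
      ext u
      rw [Finset.mem_filter, Finset.mem_insert, Finset.mem_singleton]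
      constructor
      · rintro ⟨h2, h3⟩
        rcases h2 with h2 | h2
        · exfalso
          rw [h2, ← hcc] at h3
          omega
        · exact h2
      · intro h2
        refine ⟨Or.inr h2, ?_⟩
        rw [h2, ← hee]
        omega
    rw [hf, Finset.sum_singleton]
    unfold Pool.Agent.H41.Derrw.trans
    rw [if_pos ((SimpleGraph.mem_neighborFinset _ _ _).1 hzN), hsum3, ← hcc, ← hee]
  have hcR : (0 : ℝ) < (c : ℝ) := by exact_mod_cast hc
  have heR : (c : ℝ) ≤ -(e : ℝ) := by
    have : c ≤ -e := by omega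
    exact_mod_cast this
  have hw1 : wt γ c = (c : ℝ) ^ γ := by
    unfold wt
    rw [if_pos hc]
  have hw2 : wt γ e = (-(e : ℝ)) ^ (-γ) := by
    unfold wt
    rw [if_neg (by omega), if_neg (by omega)]
  have hA : 0 < wt γ c := by rw [hw1]; exact Real.rpow_pos_of_pos hcR γ
  have hB : 0 < wt γ e := by rw [hw2]; exact Real.rpow_pos_of_pos (by linarith) _
  have hBA : wt γ e * wt γ c ≤ 1 := by
    rw [hw1, hw2, Real.rpow_neg (by linarith)]
    have h2 : (c : ℝ) ^ γ ≤ (-(e : ℝ)) ^ γ := Real.rpow_le_rpow hcR.le heR hγ.le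
    have h3 : 0 < (-(e : ℝ)) ^ γ := Real.rpow_pos_of_pos (by linarith) _
    rw [inv_mul_le_iff₀ h3, mul_one]
    exact h2
  have hpc : pc γ c.toNat = 1 / (1 + wt γ c ^ 2) := by
    unfold pc
    rw [hw1]
    have h2 : ((c.toNat : ℕ) : ℝ) = (c : ℝ) := by
      have : ((c.toNat : ℕ) : ℤ) = c := Int.toNat_of_nonneg hc.le
      exact_mod_cast this
    rw [h2]
    have h3 : (c : ℝ) ^ (2 * γ) = ((c : ℝ) ^ γ) ^ 2 := by
      rw [← Real.rpow_natCast, ← Real.rpow_mul hcR.le]
      congr 1
      push_cast
      ring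
    rw [h3]
  rw [hirr, hout, hpc, div_le_div_iff₀ (by positivity) (by positivity), one_mul]
  nlinarith [mul_le_mul_of_nonneg_right hBA hA.le]

end Pool.Agent.H546
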