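import Pool.Agent.H546.QTy
import Pool.Agent.H546.I148

set_option autoImplicit false

/-!
# The sum with denominator `-2^10 21^4` (discriminant `-148`)
-/

namespace Pool.Agent.H546

open Finset
open Pool.Agent.Q267.CDE (R)

theorem d148 (p : ℕ) [hp : Fact p.Prime] (h3' : 3 < p) (h7 : p ≠ 7) (h37 : p ≠ 37) {wi : R p}
    (hwi : ((-199148544 : ℤ) : R p) * wi = 1) :
    (legendreSym p (-1) = 1 → legendreSym p 37 = 1 → 23 < p → ∀ x y : ℤ, (p : ℤ) = x ^ 2 + 37 * y ^ 2 →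
      ∑ k ∈ range p, (k.centralBinom : R p) * ((u4 k : ℕ) : R p) * wi ^ k = ((4 * x ^ 2 - 2 * p : ℤ) : R p)) ∧
    (legendreSym p (-1) = -1 → legendreSym p 37 = -1 → 23 < p → ∀ x y : ℤ, (2 * p : ℤ) = x ^ 2 + 37 * y ^ 2 →
      ∑ k ∈ range p, (k.centralBinom : R p) * ((u4 k : ℕ) : R p) * wi ^ k = ((2 * p - 2 * x ^ 2 : ℤ) : R p)) ∧
    (legendreSym p (-37) = -1 →
      ∑ k ∈ range p, (k.centralBinom : R p) * ((u4 k : ℕ) : R p) * wi ^ k = ((0 : ℤ) : R p)) := by
  have h2 : p ≠ 2 := by omega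
  have h3 : p ≠ 3 := by omega
  have hp5 : 5 ≤ p := by
    have : p ≠ 4 := by rintro rfl; exact absurd hp.out (by norm_num)
    omega
  have nd : ∀ {n : ℤ} (l : List (ℕ × ℕ)), (∀ q ∈ l, q.1.Prime ∧ p ≠ q.1) →
      n.natAbs = (l.map fun q => q.1 ^ q.2).prod → ¬ (p : ℤ) ∣ n := fun l hl hn => ndvd_fac l hl hn
  obtain ⟨s, hs⟩ := wo_isqrt p h2 (d := 37) (nd [(37, 1)] (by simp; exact ⟨by norm_num, h37⟩) (by norm_num))
  obtain ⟨r, hr⟩ := wo_isqrt p h2 (d := -1) (nd [] (by simp) (by norm_num))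
  obtain ⟨ρ, hρ⟩ := wo_isqrt p h2 (d := -2) (nd [(2, 1)] (by simp; exact ⟨by norm_num, h2⟩) (by norm_num))
  push_cast at hs hr hρ
  have n1764 : ¬ (p : ℤ) ∣ 1764 := nd [(2, 2), (3, 2), (7, 2)]
    (by simp; exact ⟨⟨by norm_num, h2⟩, ⟨by norm_num, h3⟩, ⟨by norm_num, h7⟩⟩) (by norm_num)
  have r1764 : (SW p).red ((1764 : ℤ) : WO p) ≠ 0 := (SW p).int_ne n1764
  obtain ⟨v, hv⟩ := ((SW p).unit_of_red r1764).exists_right_inv
  obtain ⟨w, hw⟩ := ((SW p).unit_of_red ((SW p).two_ne (p := p) h2)).exists_right_inv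
  push_cast at hv
  set z : WO p := v * (882 - 145 * s) with hz
  have hz1 : 1764 * z = 882 - 145 * s := by rw [hz]; linear_combination (882 - 145 * s) * hv
  have h1764 : (1764 : WO p) ≠ 0 := by
    intro h0; rw [h0, zero_mul] at hv; exact zero_ne_one hv
  have hMz : ((-199148544 : ℤ) : WO p) * (z * (1 - z)) = 64 := by
    apply mul_left_cancel₀ h1764
    apply mul_left_cancel₀ h1764
    push_cast
    linear_combination (-199148544 * (1764 * (1 - z))) * hz1 + (199148544 * (882 - 145 * s)) * hz1 +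
      (199148544 * 145 ^ 2) * hs
  set μ : WO p := -(w * ((1 + s * r) * ρ)) with hμd
  have hμ : 2 * μ = -((1 + s * r) * ρ) := by rw [hμd]; linear_combination (-((1 + s * r) * ρ)) * hw
  have h2O : (2 : WO p) ≠ 0 := by intro h0; rw [h0, zero_mul] at hw; exact zero_ne_one hw
  have hτ : (s * r) ^ 2 = -((37 : ℤ) : WO p) := by push_cast; linear_combination r ^ 2 * hs + 37 * hr
  have hm2 : μ ^ 2 = 18 - s * r := by
    apply mul_left_cancel₀ h2O
    apply mul_left_cancel₀ h2O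
    push_cast at hτ
    linear_combination (2 * μ - (1 + s * r) * ρ) * hμ + (1 + s * r) ^ 2 * hρ - 2 * hτ
  have d := I148.psi (SW p) h2 h3 h7 hs hr hz1 hm2
  have hM : ¬ (p : ℤ) ∣ -199148544 := nd [(2, 10), (3, 4), (7, 4)]
    (by simp; exact ⟨⟨by norm_num, h2⟩, ⟨by norm_num, h3⟩, ⟨by norm_num, h7⟩⟩) (by norm_num)
  have hz1' : ((1764 : ℤ) : WO p) * z = (882 : ℤ) - (145 : ℤ) * s := by push_cast; exact hz1
  obtain ⟨f1, f2⟩ := frob_z (SW p) h2 n1764 hz1' (d := 37) (by push_cast; exact hs) (by norm_num)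
  by_cases h19 : p = 19
  · subst h19
    refine ⟨fun _ _ h => absurd h (by norm_num), fun _ _ h => absurd h (by norm_num), fun h => ?_⟩
    have : legendreSym 19 (-37) = 1 := by norm_num
    rw [this] at h; exact absurd h (by norm_num)
  have hl : ¬ (p : ℤ) ∣ 2 * (19 : ℕ) := nd [(2, 1), (19, 1)]
    (by simp; exact ⟨⟨by norm_num, h2⟩, ⟨by norm_num, h19⟩⟩) (by norm_num)
  obtain ⟨m1, m2, m3⟩ := typeA (SW p) hp5 (SW_q p) (n := 37) hM hMz hτ hρ hμ (by norm_num) (by norm_num) d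
    (by norm_num) hl hwi
  have hab : legendreSym p (-37) = 1 → 23 < p → ¬ (p : ℤ) ∣ 46656 * (144 + -199148544) ∧
      ¬ (p : ℤ) ∣ 1492992 * (648 - -199148544) := by
    intro h1 h23
    have e47 : p ≠ 47 := by
      rintro rfl
      have : legendreSym 47 (-37) = -1 := by norm_num
      rw [this] at h1; exact absurd h1 (by norm_num)
    have e107 : p ≠ 107 := by
      rintro rfl
      have : legendreSym 107 (-37) = -1 := by norm_num
      rw [this] at h1; exact absurd h1 (by norm_num)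
    have e67 : p ≠ 67 := by
      rintro rfl
      have : legendreSym 67 (-37) = -1 := by norm_num
      rw [this] at h1; exact absurd h1 (by norm_num)
    have e139 : p ≠ 139 := by
      rintro rfl
      have : legendreSym 139 (-37) = -1 := by norm_num
      rw [this] at h1; exact absurd h1 (by norm_num)
    have e5 : p ≠ 5 := by omega
    have e11 : p ≠ 11 := by omega
    constructor
    · exact nd [(2, 10), (3, 8), (5, 2), (11, 1), (47, 1), (107, 1)]
        (by simp; exact ⟨⟨by norm_num, h2⟩, ⟨by norm_num, h3⟩, ⟨by norm_num, e5⟩, ⟨by norm_num, e11⟩,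
          ⟨by norm_num, e47⟩, ⟨by norm_num, e107⟩⟩) (by norm_num)
    · exact nd [(2, 14), (3, 11), (11, 1), (67, 1), (139, 1)]
        (by simp; exact ⟨⟨by norm_num, h2⟩, ⟨by norm_num, h3⟩, ⟨by norm_num, e11⟩, ⟨by norm_num, e67⟩,
          ⟨by norm_num, e139⟩⟩) (by norm_num)
  have hmul : legendreSym p (-37) = legendreSym p (-1) * legendreSym p 37 := by
    rw [← legendreSym.mul]; norm_num
  have hbig : 23 < p → 32 * 19 < p ^ 2 := by
    intro h
    have : p ≠ 24 := by rintro rfl; exact absurd hp.out (by norm_num)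
    have : 25 ≤ p := by omega
    nlinarith
  have h37' : ¬ (p : ℤ) ∣ 37 := nd [(37, 1)] (by simp; exact ⟨by norm_num, h37⟩) (by norm_num)
  refine ⟨fun hc1 hc2 h23 x y hxy => ?_, fun hc1 hc2 h23 x y hxy => ?_, fun hc => ?_⟩
  · obtain ⟨ha, hb⟩ := hab (by rw [hmul, hc1, hc2]; norm_num) h23
    exact m1 (f1 hc2) ha hb (hbig h23) x y hxy
  · obtain ⟨ha, hb⟩ := hab (by rw [hmul, hc1, hc2]; norm_num) h23
    exact m2 (f2 hc2) ha hb (hbig h23) x y hxy
  · rw [Int.cast_zero]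
    refine m3 ?_ h37'
    have := (SW p).frob_sq h2 (d := -37) (y := s * r) (by rw [hτ]; push_cast; ring)
    rw [this, hc]; push_cast; ring

end Pool.Agent.H546
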