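import Pool.Agent.H546.QTy
import Pool.Agent.H546.I232

set_option autoImplicit false

/-!
# The sum with denominator `396^4` (discriminant `-232`)
-/

namespace Pool.Agent.H546

open Finset
open Pool.Agent.Q267.CDE (R)

theorem d232 (p : ℕ) [hp : Fact p.Prime] (h3' : 3 < p) (h11 : p ≠ 11) (h29 : p ≠ 29) {wi : R p}
    (hwi : ((24591257856 : ℤ) : R p) * wi = 1) :
    (legendreSym p 29 = 1 → legendreSym p (-2) = 1 → 29 < p → ∀ x y : ℤ, (p : ℤ) = x ^ 2 + 58 * y ^ 2 →
      ∑ k ∈ range p, (k.centralBinom : R p) * ((u4 k : ℕ) : R p) * wi ^ k = ((4 * x ^ 2 - 2 * p : ℤ) : R p)) ∧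
    (legendreSym p 29 = -1 → legendreSym p (-2) = -1 → 29 < p → ∀ x y : ℤ, (p : ℤ) = 2 * x ^ 2 + 29 * y ^ 2 →
      ∑ k ∈ range p, (k.centralBinom : R p) * ((u4 k : ℕ) : R p) * wi ^ k = ((2 * p - 8 * x ^ 2 : ℤ) : R p)) ∧
    (legendreSym p (-58) = -1 →
      ∑ k ∈ range p, (k.centralBinom : R p) * ((u4 k : ℕ) : R p) * wi ^ k = ((0 : ℤ) : R p)) := by
  have h2 : p ≠ 2 := by omega
  have h3 : p ≠ 3 := by omega
  have hp5 : 5 ≤ p := by
    have : p ≠ 4 := by rintro rfl; exact absurd hp.out (by norm_num)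
    omega
  have nd : ∀ {n : ℤ} (l : List (ℕ × ℕ)), (∀ q ∈ l, q.1.Prime ∧ p ≠ q.1) →
      n.natAbs = (l.map fun q => q.1 ^ q.2).prod → ¬ (p : ℤ) ∣ n := fun l hl hn => ndvd_fac l hl hn
  obtain ⟨s, hs⟩ := wo_isqrt p h2 (d := 29) (nd [(29, 1)] (by simp; exact ⟨by norm_num, h29⟩) (by norm_num))
  obtain ⟨r, hr⟩ := wo_isqrt p h2 (d := -1) (nd [] (by simp) (by norm_num))
  obtain ⟨ρ, hρ⟩ := wo_isqrt p h2 (d := -2) (nd [(2, 1)] (by simp; exact ⟨by norm_num, h2⟩) (by norm_num))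
  push_cast at hs hr hρ
  have nN : ¬ (p : ℤ) ∣ 39204 := nd [(2, 2), (3, 4), (11, 2)]
    (by simp; exact ⟨⟨by norm_num, h2⟩, ⟨by norm_num, h3⟩, ⟨by norm_num, h11⟩⟩) (by norm_num)
  have rN : (SW p).red ((39204 : ℤ) : WO p) ≠ 0 := (SW p).int_ne nN
  obtain ⟨v, hv⟩ := ((SW p).unit_of_red rN).exists_right_inv
  push_cast at hv
  set z : WO p := v * (19602 - 3640 * s) with hz
  have hz1 : 39204 * z = 19602 - 3640 * s := by rw [hz]; linear_combination (19602 - 3640 * s) * hv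
  have hN0 : (39204 : WO p) ≠ 0 := by
    intro h0; rw [h0, zero_mul] at hv; exact zero_ne_one hv
  have hMz : ((24591257856 : ℤ) : WO p) * (z * (1 - z)) = 64 := by
    apply mul_left_cancel₀ hN0
    apply mul_left_cancel₀ hN0
    push_cast
    linear_combination (24591257856 * (39204 * (1 - z))) * hz1 - (24591257856 * (19602 - 3640 * s)) * hz1 -
      (24591257856 * 3640 ^ 2) * hs
  have d := I232.psi (SW p) h2 h3 h11 hs hr hz1 hs
  have hM : ¬ (p : ℤ) ∣ 24591257856 := nd [(2, 8), (3, 8), (11, 4)]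
    (by simp; exact ⟨⟨by norm_num, h2⟩, ⟨by norm_num, h3⟩, ⟨by norm_num, h11⟩⟩) (by norm_num)
  have hz1' : ((39204 : ℤ) : WO p) * z = (19602 : ℤ) - (3640 : ℤ) * s := by push_cast; exact hz1
  obtain ⟨f1, f2⟩ := frob_z (SW p) h2 nN hz1' (d := 29) (by push_cast; exact hs) (by norm_num)
  have hl : ¬ (p : ℤ) ∣ 2 * (29 : ℕ) := nd [(2, 1), (29, 1)]
    (by simp; exact ⟨⟨by norm_num, h2⟩, ⟨by norm_num, h29⟩⟩) (by norm_num)
  obtain ⟨m1, m2, m3⟩ := typeB (SW p) hp5 (SW_q p) hM hMz hρ (by push_cast; exact hs) d hl hwi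
  have hab : legendreSym p (-58) = 1 → 29 < p → ¬ (p : ℤ) ∣ 46656 * (144 + 24591257856) ∧
      ¬ (p : ℤ) ∣ 1492992 * (648 - 24591257856) := by
    intro h1 h23
    have e53 : p ≠ 53 := by
      rintro rfl
      have : legendreSym 53 (-58) = -1 := by norm_num
      rw [this] at h1; exact absurd h1 (by norm_num)
    have e149 : p ≠ 149 := by
      rintro rfl
      have : legendreSym 149 (-58) = -1 := by norm_num
      rw [this] at h1; exact absurd h1 (by norm_num)
    have e173 : p ≠ 173 := by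
      rintro rfl
      have : legendreSym 173 (-58) = -1 := by norm_num
      rw [this] at h1; exact absurd h1 (by norm_num)
    have e151 : p ≠ 151 := by
      rintro rfl
      have : legendreSym 151 (-58) = -1 := by norm_num
      rw [this] at h1; exact absurd h1 (by norm_num)
    have e223 : p ≠ 223 := by
      rintro rfl
      have : legendreSym 223 (-58) = -1 := by norm_num
      rw [this] at h1; exact absurd h1 (by norm_num)
    have e5 : p ≠ 5 := by omega
    have e7 : p ≠ 7 := by omega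
    have e23 : p ≠ 23 := by omega
    constructor
    · exact nd [(2, 10), (3, 8), (5, 3), (53, 1), (149, 1), (173, 1)]
        (by simp; exact ⟨⟨by norm_num, h2⟩, ⟨by norm_num, h3⟩, ⟨by norm_num, e5⟩, ⟨by norm_num, e53⟩,
          ⟨by norm_num, e149⟩, ⟨by norm_num, e173⟩⟩) (by norm_num)
    · exact nd [(2, 14), (3, 10), (7, 2), (23, 1), (151, 1), (223, 1)]
        (by simp; exact ⟨⟨by norm_num, h2⟩, ⟨by norm_num, h3⟩, ⟨by norm_num, e7⟩, ⟨by norm_num, e23⟩,
          ⟨by norm_num, e151⟩, ⟨by norm_num, e223⟩⟩) (by norm_num)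
  have hmul : legendreSym p (-58) = legendreSym p 29 * legendreSym p (-2) := by
    rw [← legendreSym.mul]; norm_num
  have hbig : 29 < p → 32 * 29 < p ^ 2 := by
    intro h
    have : p ≠ 30 := by rintro rfl; exact absurd hp.out (by norm_num)
    have : 31 ≤ p := by omega
    nlinarith
  refine ⟨fun hc1 hc2 h23 x y hxy => ?_, fun hc1 hc2 h23 x y hxy => ?_, fun hc => ?_⟩
  · obtain ⟨ha, hb⟩ := hab (by rw [hmul, hc1, hc2]; norm_num) h23
    exact m1 (f1 hc1) ha hb (hbig h23) x y (by rw [hxy]; push_cast; ring)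
  · obtain ⟨ha, hb⟩ := hab (by rw [hmul, hc1, hc2]; norm_num) h23
    exact m2 (f2 hc1) ha hb (hbig h23) x y (by rw [hxy]; push_cast; ring)
  · rw [Int.cast_zero]
    refine m3 ?_
    have := (SW p).frob_sq h2 (d := -58) (y := s * ρ) (by push_cast; linear_combination ρ ^ 2 * hs + 29 * hρ)
    rw [this, hc]; push_cast; ring

end Pool.Agent.H546
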