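import Pool.Agent.H546.QTy
import Pool.Agent.H546.I88

set_option autoImplicit false

/-!
# The sum with denominator `1584^2` (discriminant `-88`)
-/

namespace Pool.Agent.H546

open Finset
open Pool.Agent.Q267.CDE (R)

theorem d88 (p : ℕ) [hp : Fact p.Prime] (h3' : 3 < p) (h11 : p ≠ 11) {wi : R p}
    (hwi : ((2509056 : ℤ) : R p) * wi = 1) :
    (legendreSym p (-11) = 1 → legendreSym p 2 = 1 → 17 < p → ∀ x y : ℤ, (p : ℤ) = x ^ 2 + 22 * y ^ 2 →
      ∑ k ∈ range p, (k.centralBinom : R p) * ((u4 k : ℕ) : R p) * wi ^ k = ((4 * x ^ 2 - 2 * p : ℤ) : R p)) ∧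
    (legendreSym p (-11) = -1 → legendreSym p 2 = -1 → 17 < p → ∀ x y : ℤ, (p : ℤ) = 2 * x ^ 2 + 11 * y ^ 2 →
      ∑ k ∈ range p, (k.centralBinom : R p) * ((u4 k : ℕ) : R p) * wi ^ k = ((2 * p - 8 * x ^ 2 : ℤ) : R p)) ∧
    (legendreSym p (-22) = -1 →
      ∑ k ∈ range p, (k.centralBinom : R p) * ((u4 k : ℕ) : R p) * wi ^ k = ((0 : ℤ) : R p)) := by
  have h2 : p ≠ 2 := by omega
  have h3 : p ≠ 3 := by omega
  have hp5 : 5 ≤ p := by
    have : p ≠ 4 := by rintro rfl; exact absurd hp.out (by norm_num)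
    omega
  have nd : ∀ {n : ℤ} (l : List (ℕ × ℕ)), (∀ q ∈ l, q.1.Prime ∧ p ≠ q.1) →
      n.natAbs = (l.map fun q => q.1 ^ q.2).prod → ¬ (p : ℤ) ∣ n := fun l hl hn => ndvd_fac l hl hn
  obtain ⟨s, hs⟩ := wo_isqrt p h2 (d := 2) (nd [(2, 1)] (by simp; exact ⟨by norm_num, h2⟩) (by norm_num))
  obtain ⟨r, hr⟩ := wo_isqrt p h2 (d := -1) (nd [] (by simp) (by norm_num))
  obtain ⟨q, hq⟩ := wo_isqrt p h2 (d := 11) (nd [(11, 1)] (by simp; exact ⟨by norm_num, h11⟩) (by norm_num))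
  obtain ⟨ρ, hρ⟩ := wo_isqrt p h2 (d := -2) (nd [(2, 1)] (by simp; exact ⟨by norm_num, h2⟩) (by norm_num))
  push_cast at hs hr hρ hq
  have nN : ¬ (p : ℤ) ∣ 396 := nd [(2, 2), (3, 2), (11, 1)]
    (by simp; exact ⟨⟨by norm_num, h2⟩, ⟨by norm_num, h3⟩, ⟨by norm_num, h11⟩⟩) (by norm_num)
  have rN : (SW p).red ((396 : ℤ) : WO p) ≠ 0 := (SW p).int_ne nN
  obtain ⟨v, hv⟩ := ((SW p).unit_of_red rN).exists_right_inv
  push_cast at hv
  set z : WO p := v * (198 - 140 * s) with hz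
  have hz1 : 396 * z = 198 - 140 * s := by rw [hz]; linear_combination (198 - 140 * s) * hv
  have hN0 : (396 : WO p) ≠ 0 := by
    intro h0; rw [h0, zero_mul] at hv; exact zero_ne_one hv
  have hMz : ((2509056 : ℤ) : WO p) * (z * (1 - z)) = 64 := by
    apply mul_left_cancel₀ hN0
    apply mul_left_cancel₀ hN0
    push_cast
    linear_combination (2509056 * (396 * (1 - z))) * hz1 - (2509056 * (198 - 140 * s)) * hz1 -
      (2509056 * 140 ^ 2) * hs
  have d := I88.psi (SW p) h2 h3 h11 hs hr hz1 hq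
  have hM : ¬ (p : ℤ) ∣ 2509056 := nd [(2, 8), (3, 4), (11, 2)]
    (by simp; exact ⟨⟨by norm_num, h2⟩, ⟨by norm_num, h3⟩, ⟨by norm_num, h11⟩⟩) (by norm_num)
  have hz1' : ((396 : ℤ) : WO p) * z = (198 : ℤ) - (140 : ℤ) * s := by push_cast; exact hz1
  obtain ⟨f1, f2⟩ := frob_z (SW p) h2 nN hz1' (d := 2) (by push_cast; exact hs) (by norm_num)
  have hl : ¬ (p : ℤ) ∣ 2 * (11 : ℕ) := nd [(2, 1), (11, 1)]
    (by simp; exact ⟨⟨by norm_num, h2⟩, ⟨by norm_num, h11⟩⟩) (by norm_num)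
  obtain ⟨m1, m2, m3⟩ := typeB (SW p) hp5 (SW_q p) hM hMz hρ (by push_cast; exact hq) d hl hwi
  have hab : legendreSym p (-22) = 1 → 17 < p → ¬ (p : ℤ) ∣ 46656 * (144 + 2509056) ∧
      ¬ (p : ℤ) ∣ 1492992 * (648 - 2509056) := by
    intro h1 h23
    have e41 : p ≠ 41 := by
      rintro rfl
      have : legendreSym 41 (-22) = -1 := by norm_num
      rw [this] at h1; exact absurd h1 (by norm_num)
    have e79 : p ≠ 79 := by
      rintro rfl
      have : legendreSym 79 (-22) = -1 := by norm_num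
      rw [this] at h1; exact absurd h1 (by norm_num)
    have e5 : p ≠ 5 := by omega
    have e7 : p ≠ 7 := by omega
    have e17 : p ≠ 17 := by omega
    constructor
    · exact nd [(2, 10), (3, 8), (5, 2), (17, 1), (41, 1)]
        (by simp; exact ⟨⟨by norm_num, h2⟩, ⟨by norm_num, h3⟩, ⟨by norm_num, e5⟩, ⟨by norm_num, e17⟩,
          ⟨by norm_num, e41⟩⟩) (by norm_num)
    · exact nd [(2, 14), (3, 10), (7, 2), (79, 1)]
        (by simp; exact ⟨⟨by norm_num, h2⟩, ⟨by norm_num, h3⟩, ⟨by norm_num, e7⟩, ⟨by norm_num, e79⟩⟩) (by norm_num)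
  have hmul : legendreSym p (-22) = legendreSym p (-11) * legendreSym p 2 := by
    rw [← legendreSym.mul]; norm_num
  have hbig : 17 < p → 32 * 11 < p ^ 2 := by
    intro h
    have : p ≠ 18 := by rintro rfl; exact absurd hp.out (by norm_num)
    have : 19 ≤ p := by omega
    nlinarith
  refine ⟨fun hc1 hc2 h23 x y hxy => ?_, fun hc1 hc2 h23 x y hxy => ?_, fun hc => ?_⟩
  · obtain ⟨ha, hb⟩ := hab (by rw [hmul, hc1, hc2]; norm_num) h23
    exact m1 (f1 hc2) ha hb (hbig h23) x y (by rw [hxy]; push_cast; ring)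
  · obtain ⟨ha, hb⟩ := hab (by rw [hmul, hc1, hc2]; norm_num) h23
    exact m2 (f2 hc2) ha hb (hbig h23) x y (by rw [hxy]; push_cast; ring)
  · rw [Int.cast_zero]
    refine m3 ?_
    have := (SW p).frob_sq h2 (d := -22) (y := q * ρ) (by push_cast; linear_combination ρ ^ 2 * hq + 11 * hρ)
    rw [this, hc]; push_cast; ring

end Pool.Agent.H546
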