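import Pool.Agent.H546.Hasse

set_option autoImplicit false
set_option maxHeartbeats 4000000
set_option maxRecDepth 100000

/-!
# An explicit isogeny of degree 4
-/

namespace Pool.Agent.H546

def feN {T : Type*} [CommRing T] (s r X : T) : T :=
  -144 * s * X ^ 3 - 600 * s * X ^ 2 - 2992 * s * X - 1800 * s + 27 * X ^ 4 + 1962 * X ^ 2 + 3472 * X + 4491

def feD {T : Type*} [CommRing T] (s r X : T) : T :=
  -144 * s * X ^ 2 + 12 * s * X - 412 * s + 27 * X ^ 3 + 747 * X - 74

def feN1 {T : Type*} [CommRing T] (s r X : T) : T :=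
  -432 * s * X ^ 2 - 1200 * s * X - 2992 * s + 108 * X ^ 3 + 3924 * X + 3472

def feD1 {T : Type*} [CommRing T] (s r X : T) : T :=
  -288 * s * X + 12 * s + 81 * X ^ 2 + 747

def feF {T : Type*} [CommRing T] (s r X : T) : T :=
  -180 * s * X + 420 * s + 27 * X ^ 3 - 405 * X + 694

def feAM {T : Type*} [CommRing T] (s r X : T) : T :=
  320 * s - 720

def feBM {T : Type*} [CommRing T] (s r X : T) : T :=
  -26880 * s + 44416

def feW {T : Type*} [CommRing T] (s r X : T) : T :=
  -7776 * s * X ^ 5 + 17172 * s * X ^ 4 - 98064 * s * X ^ 3 + 253080 * s * X ^ 2 - 234480 * s * X + 81652 * s + 729 * X ^ 6 + 69741 * X ^ 4 - 205848 * X ^ 3 + 321651 * X ^ 2 - 362376 * X + 151207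

theorem fe_W {T : Type*} [CommRing T] {s r X : T} (hs : s ^ 2 = 3) : feN1 s r X * feD s r X - feN s r X * feD1 s r X = feW s r X := by
  simp only [feN1, feD, feN, feD1, feW]
  linear_combination (20736 * X ^ 4 - 3456 * X ^ 3 - 260064 * X ^ 2 - 24000 * X + 1254304) * hs

def feW2 {T : Type*} [CommRing T] (s r X : T) : T :=
  -11337408 * s * X ^ 11 + 25036776 * s * X ^ 10 - 1227589344 * s * X ^ 9 + 5965523640 * s * X ^ 8 - 26091994752 * s * X ^ 7 + 92474163216 * s * X ^ 6 - 214779542976 * s * X ^ 5 + 346995465840 * s * X ^ 4 - 397533417408 * s * X ^ 3 + 299001678984 * s * X ^ 2 - 130087485024 * s * X + 24692707928 * s + 531441 * X ^ 12 + 283080906 * X ^ 10 - 1101303216 * X ^ 9 + 10792680975 * X ^ 8 - 51151865472 * X ^ 7 + 153323265420 * X ^ 6 - 359844081120 * X ^ 5 + 612264278655 * X ^ 4 - 699464443392 * X ^ 3 + 517517671050 * X ^ 2 - 224462141424 * X + 42864704161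

theorem fe_W2 {T : Type*} [CommRing T] {s r X : T} (hs : s ^ 2 = 3) : feW s r X * feW s r X = feW2 s r X := by
  simp only [feW, feW2]
  linear_combination (60466176 * X ^ 10 - 267058944 * X ^ 9 + 1819968912 * X ^ 8 - 7303810176 * X ^ 7 + 21954960576 * X ^ 6 - 58958907264 * X ^ 5 + 112841836128 * X ^ 4 - 134698640256 * X ^ 3 + 96309846720 * X ^ 2 - 38291521920 * X + 6667049104) * hs

def feFW {T : Type*} [CommRing T] (s r X : T) : T :=
  -306110016 * s * X ^ 14 + 580333572 * s * X ^ 13 - 28330056828 * s * X ^ 12 + 92106519768 * s * X ^ 11 + 127193907960 * s * X ^ 10 - 3176411598324 * s * X ^ 9 + 22648545414828 * s * X ^ 8 - 95272974156528 * s * X ^ 7 + 269597087985168 * s * X ^ 6 - 542859205386276 * s * X ^ 5 + 781358122093212 * s * X ^ 4 - 783245415569256 * s * X ^ 3 + 517953203946936 * s * X ^ 2 - 202271007464556 * s * X + 35139915049652 * s + 14348907 * X ^ 15 + 7427950857 * X ^ 13 - 23244166458 * X ^ 12 + 148949626275 * X ^ 11 - 44169832980 * X ^ 10 - 5763757399479 *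 X ^ 9 + 40097072875050 * X ^ 8 - 163876143133143 * X ^ 7 + 465756057942696 * X ^ 6 - 941725623737565 * X ^ 5 + 1354016363500602 * X ^ 4 - 1356218646062391 * X ^ 3 + 897053788418220 * X ^ 2 - 350381224744821 * X + 60860916677014

theorem fe_FW {T : Type*} [CommRing T] {s r X : T} (hs : s ^ 2 = 3) : feF s r X * feW2 s r X = feFW s r X := by
  simp only [feF, feW2, feFW]
  linear_combination (2040733440 * X ^ 12 - 9268331040 * X ^ 11 + 231481527840 * X ^ 10 - 1589381779680 * X ^ 9 + 7202078984160 * X ^ 8 - 27603987174720 * X ^ 7 + 77499466286400 * X ^ 6 - 152666591901120 * X ^ 5 + 217294110786240 * X ^ 4 - 220784337528480 * X ^ 3 + 148996452477600 * X ^ 2 - 59081431137120 * X + 10370937329760) * hs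

def feN2 {T : Type*} [CommRing T] (s r X : T) : T :=
  -7776 * s * X ^ 7 - 32400 * s * X ^ 6 - 726624 * s * X ^ 5 - 3451536 * s * X ^ 4 - 17200416 * s * X ^ 3 - 33228848 * s * X ^ 2 - 39373344 * s * X - 16167600 * s + 729 * X ^ 8 + 168156 * X ^ 6 + 705888 * X ^ 5 + 7757046 * X ^ 4 + 25950528 * X ^ 3 + 63013660 * X ^ 2 + 63499104 * X + 29889081

theorem fe_N2 {T : Type*} [CommRing T] {s r X : T} (hs : s ^ 2 = 3) : feN s r X * feN s r X = feN2 s r X := by
  simp only [feN, feN2]
  linear_combination (20736 * X ^ 6 + 172800 * X ^ 5 + 1221696 * X ^ 4 + 4108800 * X ^ 3 + 11112064 * X ^ 2 + 10771200 * X + 3240000) * hs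

def feN3 {T : Type*} [CommRing T] (s r X : T) : T :=
  -314928 * s * X ^ 11 - 1312200 * s * X ^ 10 - 61270992 * s * X ^ 9 - 387612216 * s * X ^ 8 - 4081132512 * s * X ^ 7 - 21143240784 * s * X ^ 6 - 99181261728 * s * X ^ 5 - 279410947056 * s * X ^ 4 - 547519440624 * s * X ^ 3 - 639003193704 * s * X ^ 2 - 436686112656 * s * X - 126409037400 * s + 19683 * X ^ 12 + 9329742 * X ^ 10 + 49583664 * X ^ 9 + 984655197 * X ^ 8 + 5801253696 * X ^ 7 + 40467206340 * X ^ 6 + 162952386336 * X ^ 5 + 499227372333 * X ^ 4 + 928913299264 * X ^ 3 + 1124058208014 * X ^ 2 + 746685800496 * X + 221536902771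

theorem fe_N3 {T : Type*} [CommRing T] {s r X : T} (hs : s ^ 2 = 3) : feN2 s r X * feN s r X = feN3 s r X := by
  simp only [feN2, feN, feN3]
  linear_combination (1119744 * X ^ 10 + 9331200 * X ^ 9 + 147339648 * X ^ 8 + 1043933184 * X ^ 7 + 6780160512 * X ^ 6 + 26740122624 * X ^ 5 + 83283479808 * X ^ 4 + 156333602816 * X ^ 3 + 187317531648 * X ^ 2 + 119245478400 * X + 29101680000) * hs

def feD2 {T : Type*} [CommRing T] (s r X : T) : T :=
  -7776 * s * X ^ 5 + 648 * s * X ^ 4 - 237384 * s * X ^ 3 + 39240 * s * X ^ 2 - 617304 * s * X + 60976 * s + 729 * X ^ 6 + 102546 * X ^ 4 - 14364 * X ^ 3 + 914409 * X ^ 2 - 140220 * X + 514708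

theorem fe_D2 {T : Type*} [CommRing T] {s r X : T} (hs : s ^ 2 = 3) : feD s r X * feD s r X = feD2 s r X := by
  simp only [feD, feD2]
  linear_combination (20736 * X ^ 4 - 3456 * X ^ 3 + 118800 * X ^ 2 - 9888 * X + 169744) * hs

def feD3 {T : Type*} [CommRing T] (s r X : T) : T :=
  -314928 * s * X ^ 8 + 26244 * s * X ^ 7 - 27285012 * s * X ^ 6 + 5417928 * s * X ^ 5 - 368137224 * s * X ^ 4 + 85607604 * s * X ^ 3 - 916566948 * s * X ^ 2 + 155176704 * s * X - 216571920 * s + 19683 * X ^ 9 + 6672537 * X ^ 7 - 1001646 * X ^ 6 + 213475257 * X ^ 5 - 48402684 * X ^ 4 + 1259518167 * X ^ 3 - 269475822 * X ^ 2 + 1160046036 * X - 113454728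

theorem fe_D3 {T : Type*} [CommRing T] {s r X : T} (hs : s ^ 2 = 3) : feD2 s r X * feD s r X = feD3 s r X := by
  simp only [feD2, feD, feD3]
  linear_combination (1119744 * X ^ 7 - 186624 * X ^ 6 + 37394784 * X ^ 5 - 8766144 * X ^ 4 + 187164864 * X ^ 3 - 32355072 * X ^ 2 + 255060960 * X - 25122112) * hs

def feND {T : Type*} [CommRing T] (s r X : T) : T :=
  -314928 * s * X ^ 9 - 419904 * s * X ^ 8 - 38613672 * s * X ^ 7 - 85438800 * s * X ^ 6 - 944960904 * s * X ^ 5 - 1412711280 * s * X ^ 4 - 4841043192 * s * X ^ 3 - 3382640496 * s * X ^ 2 - 3848213928 * s * X - 652631184 * s + 19683 * X ^ 10 + 7558272 * X ^ 8 + 15860124 * X ^ 7 + 400339098 * X ^ 6 + 770585076 * X ^ 5 + 4541932764 * X ^ 4 + 4849668612 * X ^ 3 + 9848891979 * X ^ 2 + 3943459180 * X + 1982283228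

theorem fe_ND {T : Type*} [CommRing T] {s r X : T} (hs : s ^ 2 = 3) : feN s r X * feD2 s r X = feND s r X := by
  simp only [feN, feD2, feND]
  linear_combination (1119744 * X ^ 8 + 4572288 * X ^ 7 + 57060288 * X ^ 6 + 148837824 * X ^ 5 + 774434304 * X ^ 4 + 671486976 * X ^ 3 + 1739755968 * X ^ 2 + 928707008 * X - 109756800) * hs

def feAND {T : Type*} [CommRing T] (s r X : T) : T :=
  6298560 * s * X ^ 10 + 226748160 * s * X ^ 9 + 2720977920 * s * X ^ 8 + 32877083520 * s * X ^ 7 + 189624447360 * s * X ^ 6 + 926959075200 * s * X ^ 5 + 2470570606080 * s * X ^ 4 + 5037445054080 * s * X ^ 3 + 5587146590400 * s * X ^ 2 + 4032620965760 * s * X + 1104225085440 * s - 14171760 * X ^ 10 - 302330880 * X ^ 9 - 5845063680 * X ^ 8 - 48488414400 * X ^ 7 - 370265398560 * X ^ 6 - 1461983722560 * X ^ 5 - 4626394418880 * X ^ 4 - 8139162864960 * X ^ 3 - 10338537101040 * X ^ 2 - 6533575980480 * X - 2053769860800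

theorem fe_AND {T : Type*} [CommRing T] {s r X : T} (hs : s ^ 2 = 3) : feAM s r X * feND s r X = feAND s r X := by
  simp only [feAM, feND, feAND]
  linear_combination (-100776960 * X ^ 9 - 134369280 * X ^ 8 - 12356375040 * X ^ 7 - 27340416000 * X ^ 6 - 302387489280 * X ^ 5 - 452067609600 * X ^ 4 - 1549133821440 * X ^ 3 - 1082444958720 * X ^ 2 - 1231428456960 * X - 208841978880) * hs

def feBD {T : Type*} [CommRing T] (s r X : T) : T :=
  -529079040 * s * X ^ 9 - 13987842048 * s * X ^ 8 - 178192141056 * s * X ^ 7 - 1184966848512 * s * X ^ 6 - 5497572218112 * s * X ^ 5 - 15050118795264 * s * X ^ 4 - 30053500989696 * s * X ^ 3 - 33466727467008 * s * X ^ 2 - 24289708962816 * s * X - 6569595310080 * s + 874240128 * X ^ 9 + 25395793920 * X ^ 8 + 294251087232 * X ^ 7 + 2155774258944 * X ^ 6 + 9044815300992 * X ^ 5 + 27536732130816 * X ^ 4 + 49039361718912 * X ^ 3 + 61942920576768 * X ^ 2 + 39011155324416 * X + 12425154429952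

theorem fe_BD {T : Type*} [CommRing T] {s r X : T} (hs : s ^ 2 = 3) : feBM s r X * feD3 s r X = feBD s r X := by
  simp only [feBM, feD3, feBD]
  linear_combination (8465264640 * X ^ 8 - 705438720 * X ^ 7 + 733421122560 * X ^ 6 - 145633904640 * X ^ 5 + 9895528581120 * X ^ 4 - 2301132395520 * X ^ 3 + 24637319562240 * X ^ 2 - 4171149803520 * X + 5821453209600) * hs

theorem fe_lin {T : Type*} [CommRing T] {s r X : T} (hs : s ^ 2 = 3) : 1 * feFW s r X = feD s r X * (27 * feN3 s r X + 9 * feAND s r X + 1 * feBD s r X) := by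
  simp only [feFW, feN3, feAND, feBD, feD]
  linear_combination (-1224440064 * X ^ 13 + 3163136832 * X ^ 12 - 24301734048 * X ^ 11 + 15571929888 * X ^ 10 + 1022386668192 * X ^ 9 - 7162398056160 * X ^ 8 + 27756933847488 * X ^ 7 - 73989649153728 * X ^ 6 + 145250150875200 * X ^ 5 - 216657457769088 * X ^ 4 + 242146602846432 * X ^ 3 - 188408293547616 * X ^ 2 + 88437493783584 * X - 18380782979040) * hs

/-- the differential equation of the isogeny -/
theorem fe_alg {T : Type*} [CommRing T] {s r X : T} (hs : s ^ 2 = 3) :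
    1 * (feF s r X * (feN1 s r X * feD s r X - feN s r X * feD1 s r X) ^ 2) =
      feD s r X * (27 * feN s r X ^ 3 + 9 * (feAM s r X * (feN s r X * feD s r X ^ 2)) + 1 * (feBM s r X * feD s r X ^ 3)) := by
  have e1 := fe_W (r := r) (X := X) hs
  have e2 := fe_W2 (r := r) (X := X) hs
  have e3 := fe_FW (r := r) (X := X) hs
  have e4 := fe_N2 (r := r) (X := X) hs
  have e5 := fe_N3 (r := r) (X := X) hs
  have e6 := fe_D2 (r := r) (X := X) hs
  have e7 := fe_D3 (r := r) (X := X) hs
  have e9 := fe_ND (r := r) (X := X) hs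
  have e10 := fe_AND (r := r) (X := X) hs
  have e11 := fe_BD (r := r) (X := X) hs
  have e12 := fe_lin (r := r) (X := X) hs
  have f1 : feN s r X ^ 3 = feN3 s r X := by linear_combination feN s r X * e4 + e5
  have f2 : feD s r X ^ 2 = feD2 s r X := by linear_combination e6
  have f3 : feD s r X ^ 3 = feD3 s r X := by linear_combination feD s r X * e6 + e7
  rw [e1, sq, e2, e3, f1, f2, f3, e9, e10, e11, e12]

def feU {T : Type*} [CommRing T] (s r X : T) : T :=
  443637 * s * X ^ 2 - 2778432 * s * X + 4350268 * s + 768402 * X ^ 2 - 4812384 * X + 7534888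

def feV {T : Type*} [CommRing T] (s r X : T) : T :=
  -443637 * s * X ^ 3 + 2778432 * s * X ^ 2 - 6896821 * s * X + 7585362 * s - 768402 * X ^ 3 + 4812384 * X ^ 2 - 11945662 * X + 13138200

theorem fe_bez {T : Type*} [CommRing T] {s r X : T} (hs : s ^ 2 = 3) : feU s r X * feN s r X + feV s r X * feD s r X = 576 := by
  simp only [feU, feN, feV, feD]
  linear_combination (-271505844 * X ^ 4 + 922520556 * X ^ 3 + 2584593180 * X ^ 2 - 5082309660 * X - 10955651544) * hs

def feM2 {T : Type*} [CommRing T] (s r X : T) : T :=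
  4

theorem fe_three {T : Type*} [CommRing T] {s r : T} (hs : s ^ 2 = 3) : 1 * feN s r 3 = 3 * (feM2 s r 3 * feD s r 3) := by
  simp only [feM2, feN, feD]
  linear_combination (0) * hs

theorem fe_h3 {T : Type*} [CommRing T] {s r : T} (hs : s ^ 2 = 3) : feD s r 3 * (209 * s + 362) = 8 := by
  simp only [feD]
  linear_combination (-349448) * hs

def feM3 {T : Type*} [CommRing T] (s r X : T) : T :=
  8

def feAA {T : Type*} [CommRing T] (s r X : T) : T :=
  -10 * s + 18

def feAP {T : Type*} [CommRing T] (s r X : T) : T :=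
  10 * s + 18

theorem fe_T {T : Type*} [CommRing T] {s r : T} (hs : s ^ 2 = 3) : 1 * (feAA s r 3 * feW s r 3) = (feM3 s r 3 * feD s r 3 ^ 2 * feAP s r 3) := by
  simp only [feM3, feW, feD, feAA, feAP]
  linear_combination (-223646720 * s + 387078144) * hs

open Polynomial in
theorem feN_poly {R : Type*} [CommRing R] (s r : R) : feN (C s) (C r) (X : R[X]) = C 27 * X ^ 4 + (C (-144 * s) * X ^ 3 + C (-600 * s + 1962) * X ^ 2 + C (-2992 * s + 3472) * X ^ 1 + C (-1800 * s + 4491) * X ^ 0) := by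
  simp only [feN, C_add, C_sub, C_mul, C_neg, C_pow, map_ofNat, C_1]
  ring

open Polynomial in
theorem feN_deg {R : Type*} [CommRing R] (s r : R) : (feN (C s) (C r) (X : R[X])).natDegree ≤ 4 := by
  rw [feN_poly]; compute_degree

open Polynomial in
theorem feN_der {R : Type*} [CommRing R] (s r : R) : derivative (feN (C s) (C r) (X : R[X])) = feN1 (C s) (C r) X := by
  simp only [feN, feN1, derivative_add, derivative_sub, derivative_neg, derivative_mul, derivative_pow,
    derivative_C, derivative_X, derivative_ofNat, derivative_one]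
  push_cast
  simp only [map_ofNat]
  ring

open Polynomial in
theorem feN_eval {R : Type*} [CommRing R] (s r e : R) : (feN (C s) (C r) (X : R[X])).eval e = feN s r e := by
  simp [feN]

open Polynomial in
theorem feD_poly {R : Type*} [CommRing R] (s r : R) : feD (C s) (C r) (X : R[X]) = C (27) * X ^ 3 + C (-144 * s) * X ^ 2 + C (12 * s + 747) * X ^ 1 + C (-412 * s - 74) * X ^ 0 := by
  simp only [feD, C_add, C_sub, C_mul, C_neg, C_pow, map_ofNat, C_1]
  ring

open Polynomial in
theorem feD_deg {R : Type*} [CommRing R] (s r : R) : (feD (C s) (C r) (X : R[X])).natDegree ≤ 3 := by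
  rw [feD_poly]; compute_degree

open Polynomial in
theorem feD_der {R : Type*} [CommRing R] (s r : R) : derivative (feD (C s) (C r) (X : R[X])) = feD1 (C s) (C r) X := by
  simp only [feD, feD1, derivative_add, derivative_sub, derivative_neg, derivative_mul, derivative_pow,
    derivative_C, derivative_X, derivative_ofNat, derivative_one]
  push_cast
  simp only [map_ofNat]
  ring

open Polynomial in
theorem feD_eval {R : Type*} [CommRing R] (s r e : R) : (feD (C s) (C r) (X : R[X])).eval e = feD s r e := by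
  simp [feD]

open Polynomial in
theorem feN_lc {R : Type*} [CommRing R] (s r : R) : (feN (C s) (C r) (X : R[X])).coeff 4 = 27 := by
  rw [feN_poly]
  simp only [coeff_add, coeff_C_mul, coeff_X_pow]
  norm_num

end Pool.Agent.H546
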