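import Pool.Agent.H546.UtilH
import Pool.Agent.H546.FEdat

set_option autoImplicit false
set_option maxHeartbeats 1000000
set_option maxRecDepth 100000

/-!
# The sum with denominator `1458` (discriminant `-48`)
-/

namespace Pool.Agent.H546

open Finset
open Pool.Agent.Q267.CDE (R)
open Pool.Agent.Q267.MW (u3)

section fe

variable {O K k : Type*} [CommRing O] [IsDomain O] [Field K] [Algebra O K] [Field k]
  (S : DV O K k) {p : ℕ} [hp : Fact p.Prime] [CharP k p]

/-- the isogeny of degree `4` -/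
theorem fe_psi (h3 : 3 < p) {σ z : O} (hσ : σ ^ 2 = 3) (hz : 18 * z = 9 - 5 * σ) :
    DatT S (4 * z) (4 * (1 - z)) 2 4 1 := by
  have nd : ∀ {n : ℕ} {l : List ℕ}, (∀ q ∈ l, q.Prime) → l.prod = n → (∀ q ∈ l, p ≠ q) → ¬ (p : ℤ) ∣ (n : ℤ) :=
    fun a b c => ndvd_of_primes p a b c
  have r2 := S.two_ne (p := p) (by omega)
  have hz1 : 18 * (1 - z) = 9 + 5 * σ := by linear_combination -hz
  have r27 : S.red 27 ≠ 0 := by
    have := S.int_ne (p := p) (n := 27) (by
      have := nd (n := 27) (l := [3, 3, 3]) (by simp; norm_num) (by norm_num) (by simp; omega)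
      exact_mod_cast this)
    exact_mod_cast this
  have h27O : (27 : O) ≠ 0 := by intro h0; rw [h0, map_zero] at r27; exact r27 rfl
  have h27 : (27 : Polynomial O) ≠ 0 := by
    have : (27 : Polynomial O) = Polynomial.C 27 := (map_ofNat _ _).symm
    rw [this]; exact Polynomial.C_ne_zero.mpr h27O
  have h3O : (3 : O) ≠ 0 := by
    intro h0; apply h27O
    linear_combination 9 * h0
  have hD3 : S.red ((feD (Polynomial.C σ) (Polynomial.C σ) (Polynomial.X)).eval 3) ≠ 0 := by
    rw [feD_eval]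
    refine S.ne_mul (n := 8) (by push_cast; exact fe_h3 hσ) ?_
    have := nd (n := 8) (l := [2, 2, 2]) (by simp; norm_num) (by norm_num) (by simp; omega)
    exact_mod_cast this
  have hσC : (Polynomial.C σ : Polynomial O) ^ 2 = 3 := by
    rw [← Polynomial.C_pow, hσ, map_ofNat]
  have ha : 3 * ca (4 * z) = -20 * σ - 45 := by simp only [ca]; linear_combination 4 * hz
  have hb : 27 * cb (4 * z) = 420 * σ + 694 := by
    apply mul_left_cancel₀ h3O
    simp only [cb]
    linear_combination (4 * (18 * z) + 4 * (9 - 5 * σ) - 324) * hz + 100 * hσ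
  have ha' : 3 * ca (4 * (1 - z)) = 20 * σ - 45 := by simp only [ca]; linear_combination 4 * hz1
  have hb' : 27 * cb (4 * (1 - z)) = 694 - 420 * σ := by
    apply mul_left_cancel₀ h3O
    simp only [cb]
    linear_combination (4 * (18 * (1 - z)) + 4 * (9 + 5 * σ) - 324) * hz1 + 100 * hσ
  have hode : cub (ca (4 * z)) (cb (4 * z)) *
        wr (feN (Polynomial.C σ) (Polynomial.C σ) Polynomial.X) (feD (Polynomial.C σ) (Polynomial.C σ) Polynomial.X) ^ 2 =
      feD (Polynomial.C σ) (Polynomial.C σ) Polynomial.X *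
      (feN (Polynomial.C σ) (Polynomial.C σ) Polynomial.X ^ 3 +
        Polynomial.C (ca (4 * (1 - z)) * 2 ^ 4) *
          feN (Polynomial.C σ) (Polynomial.C σ) Polynomial.X *
          feD (Polynomial.C σ) (Polynomial.C σ) Polynomial.X ^ 2 +
        Polynomial.C (cb (4 * (1 - z)) * 2 ^ 6) *
          feD (Polynomial.C σ) (Polynomial.C σ) Polynomial.X ^ 3) := by
    have key := fe_alg (r := Polynomial.C σ) (X := (Polynomial.X : Polynomial O)) hσC
    rw [← feN_der, ← feD_der] at key
    have eF : feF (Polynomial.C σ) (Polynomial.C σ) (Polynomial.X : Polynomial O) =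
        27 * cub (ca (4 * z)) (cb (4 * z)) := by
      have h1 := congrArg (Polynomial.C : O → Polynomial O) ha
      have h2 := congrArg (Polynomial.C : O → Polynomial O) hb
      simp only [Polynomial.C_mul, Polynomial.C_sub, Polynomial.C_add, Polynomial.C_neg, map_ofNat] at h1 h2
      simp only [feF, cub]
      linear_combination (-9 * Polynomial.X) * h1 - h2
    have eA : 3 * Polynomial.C (ca (4 * (1 - z)) * 2 ^ 4) =
        feAM (Polynomial.C σ) (Polynomial.C σ) (Polynomial.X : Polynomial O) := by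
      have : 3 * (ca (4 * (1 - z)) * 2 ^ 4) = 320 * σ - 720 := by
        linear_combination 16 * ha'
      have e10 : (3 : Polynomial O) = Polynomial.C 3 := (map_ofNat _ _).symm
      rw [e10, ← Polynomial.C_mul, this]
      simp only [feAM, Polynomial.C_mul, Polynomial.C_sub, map_ofNat]
    have eB : 27 * Polynomial.C (cb (4 * (1 - z)) * 2 ^ 6) =
        feBM (Polynomial.C σ) (Polynomial.C σ) (Polynomial.X : Polynomial O) := by
      have : 27 * (cb (4 * (1 - z)) * 2 ^ 6) = -26880 * σ + 44416 := by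
        linear_combination 64 * hb'
      have e10 : (27 : Polynomial O) = Polynomial.C 27 := (map_ofNat _ _).symm
      rw [e10, ← Polynomial.C_mul, this]
      simp only [feBM, Polynomial.C_mul, Polynomial.C_neg, Polynomial.C_add, map_ofNat]
    rw [eF, ← eA, ← eB] at key
    apply mul_left_cancel₀ h27
    simp only [wr]
    linear_combination key
  have hmono : (feN (Polynomial.C σ) (Polynomial.C σ) (Polynomial.X : Polynomial O)).coeff 4 = 27 := feN_lc σ σ
  have hdn : (feN (Polynomial.C σ) (Polynomial.C σ) (Polynomial.X : Polynomial O)).natDegree = 4 := by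
    refine le_antisymm (feN_deg σ σ) (Polynomial.le_natDegree_of_ne_zero ?_)
    rw [hmono]; exact h27O
  have bez := fe_bez (r := Polynomial.C σ) (X := (Polynomial.X : Polynomial O)) hσC
  have e4 : (576 : Polynomial O) = Polynomial.C 576 := (map_ofNat _ _).symm
  rw [e4] at bez
  refine DatT.of_nd S hode r2 ?_ hdn ?_ bez ?_ hD3 ?_ ?_
  · rw [hdn]
    have := feD_deg σ σ
    omega
  · rw [Polynomial.leadingCoeff, hdn, hmono]; exact r27
  · have := nd (n := 576) (l := [2, 2, 2, 2, 2, 2, 3, 3])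
      (by simp; norm_num) (by norm_num) (by simp; omega)
    have := S.int_ne (n := 576) (by exact_mod_cast this)
    exact_mod_cast this
  · rw [feN_eval, feD_eval]
    have h3 := fe_three (r := σ) hσ
    simp only [feM2] at h3
    linear_combination h3
  · rw [feN_der, feD_der, feN_eval, feD_eval]
    have e1 : (feN1 (Polynomial.C σ) (Polynomial.C σ) (Polynomial.X : Polynomial O)).eval 3 = feN1 σ σ 3 := by
      simp [feN1]
    have e2 : (feD1 (Polynomial.C σ) (Polynomial.C σ) (Polynomial.X : Polynomial O)).eval 3 = feD1 σ σ 3 := by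
      simp [feD1]
    rw [e1, e2]
    have hW := fe_W (r := σ) (X := (3 : O)) hσ
    have hT := fe_T (r := σ) hσ
    have hA : 9 * (4 * z) = feAA σ σ 3 := by simp only [feAA]; linear_combination 2 * hz
    have hAP : 9 * (4 * (1 - z)) = feAP σ σ 3 := by simp only [feAP]; linear_combination 2 * hz1
    apply mul_left_cancel₀ h27O
    rw [hW]
    push_cast
    simp only [feM3] at hT
    linear_combination (3 * feW σ σ 3) * hA - (24 * feD σ σ 3 ^ 2) * hAP + 3 * hT

theorem fe_z (h3 : 3 < p) {σ z : O} (hσ : σ ^ 2 = 3) (hz : 18 * z = 9 - 5 * σ) :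
    1458 * (z * (1 - z)) = 27 ∧ S.red z ≠ 0 ∧ S.red (1 - z) ≠ 0 ∧
    (legendreSym p 3 = 1 → S.red z = S.red z ^ p) ∧ (legendreSym p 3 = -1 → S.red (1 - z) = S.red z ^ p) := by
  have nd : ∀ {n : ℕ} {l : List ℕ}, (∀ q ∈ l, q.Prime) → l.prod = n → (∀ q ∈ l, p ≠ q) → ¬ (p : ℤ) ∣ (n : ℤ) :=
    fun a b c => ndvd_of_primes p a b c
  have r2 := S.two_ne (p := p) (by omega)
  have h2O : (2 : O) ≠ 0 := by intro h0; rw [h0, map_zero] at r2; exact r2 rfl
  have n27 : ¬ (p : ℤ) ∣ 27 := by
    have := nd (n := 27) (l := [3, 3, 3]) (by simp; norm_num) (by norm_num) (by simp; omega)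
    exact_mod_cast this
  have n18 : ¬ (p : ℤ) ∣ 18 := by
    have := nd (n := 18) (l := [2, 3, 3]) (by simp; norm_num) (by norm_num) (by simp; omega)
    exact_mod_cast this
  have r18 : S.red 18 ≠ 0 := by
    have := S.int_ne (p := p) (n := 18) n18
    exact_mod_cast this
  have h18k : (18 : k) ≠ 0 := by rw [map_ofNat] at r18; exact r18
  have hz1 : 18 * (1 - z) = 9 + 5 * σ := by linear_combination -hz
  have h27 : 1458 * (z * (1 - z)) = 27 := by
    apply mul_left_cancel₀ h2O
    linear_combination (9 * (18 * (1 - z))) * hz + 9 * (9 - 5 * σ) * hz1 - 225 * hσ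
  refine ⟨h27, ?_, ?_, ?_, ?_⟩
  · refine S.ne_mul (y := 1458 * (1 - z)) (n := 27) ?_ n27
    push_cast; linear_combination h27
  · refine S.ne_mul (y := 1458 * z) (n := 27) ?_ n27
    push_cast; linear_combination h27
  · intro h
    have h1 := S.frobq (p := p) (by omega) (n := 18) (a := 9) (b := -5) (d := 3) (z := z) (σ := σ)
      (by push_cast; linear_combination hz) (by push_cast; exact hσ)
    have h2 := congrArg S.red hz
    simp only [map_mul, map_sub, map_ofNat] at h2
    rw [h] at h1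
    push_cast at h1
    apply mul_left_cancel₀ h18k
    linear_combination h2 - h1
  · intro h
    have h1 := S.frobq (p := p) (by omega) (n := 18) (a := 9) (b := -5) (d := 3) (z := z) (σ := σ)
      (by push_cast; linear_combination hz) (by push_cast; exact hσ)
    have h2 := congrArg S.red hz1
    simp only [map_mul, map_add, map_ofNat] at h2
    rw [h] at h1
    push_cast at h1
    apply mul_left_cancel₀ h18k
    linear_combination h2 - h1

theorem fe_ab (h16 : 13 < p) (hc3 : p % 3 = 1) {σ z : O} (hσ : σ ^ 2 = 3) (hz : 18 * z = 9 - 5 * σ) :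
    S.red (ca (4 * z)) ≠ 0 ∧ S.red (cb (4 * z)) ≠ 0 := by
  have nd : ∀ {n : ℕ} {l : List ℕ}, (∀ q ∈ l, q.Prime) → l.prod = n → (∀ q ∈ l, p ≠ q) → ¬ (p : ℤ) ∣ (n : ℤ) :=
    fun a b c => ndvd_of_primes p a b c
  have r3 := S.three_ne (p := p) (by omega)
  have h3O : (3 : O) ≠ 0 := by intro h0; rw [h0, map_zero] at r3; exact r3 rfl
  have ha : 3 * ca (4 * z) = -20 * σ - 45 := by simp only [ca]; linear_combination 4 * hz
  have hb : 27 * cb (4 * z) = 420 * σ + 694 := by
    apply mul_left_cancel₀ h3O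
    simp only [cb]
    linear_combination (4 * (18 * z) + 4 * (9 - 5 * σ) - 324) * hz + 100 * hσ
  refine ⟨?_, ?_⟩
  · refine S.ne_mul (y := 3 * (20 * σ - 45)) (n := 825) ?_ ?_
    · push_cast; linear_combination (20 * σ - 45) * ha - 400 * hσ
    · have := nd (n := 825) (l := [3, 5, 5, 11]) (by simp; norm_num) (by norm_num) (by simp; omega)
      exact_mod_cast this
  · refine S.ne_mul (y := 27 * (420 * σ - 694)) (n := 47564) ?_ ?_
    · push_cast; linear_combination (420 * σ - 694) * hb + 176400 * hσ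
    · have := nd (n := 47564) (l := [2, 2, 11, 23, 47]) (by simp; norm_num) (by norm_num) (by simp; omega)
      exact_mod_cast this

theorem fe_main [IsAlgClosed k] (hq : S.q = (p : O)) (h3 : 3 < p)
    {σ ρ z : O} (hσ : σ ^ 2 = 3) (hρ : ρ ^ 2 = -3) (hz : 18 * z = 9 - 5 * σ)
    {wi : R p} (hwi : ((1458 : ℤ) : R p) * wi = 1) :
    (∀ x y : ℤ, 13 < p → p % 3 = 1 → legendreSym p 3 = 1 → (p : ℤ) = x ^ 2 + 12 * y ^ 2 →
      ∑ k ∈ range p, (k.centralBinom : R p) * ((u3 k : ℕ) : R p) * wi ^ k = ((4 * x ^ 2 - 2 * p : ℤ) : R p)) ∧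
    (∀ x y : ℤ, 13 < p → p % 3 = 1 → legendreSym p 3 = -1 → (p : ℤ) = 4 * x ^ 2 + 3 * y ^ 2 →
      ∑ k ∈ range p, (k.centralBinom : R p) * ((u3 k : ℕ) : R p) * wi ^ k = ((16 * x ^ 2 - 2 * p : ℤ) : R p)) ∧
    (p % 3 = 2 → ∑ k ∈ range p, (k.centralBinom : R p) * ((u3 k : ℕ) : R p) * wi ^ k = 0) := by
  have nd : ∀ {n : ℕ} {l : List ℕ}, (∀ q ∈ l, q.Prime) → l.prod = n → (∀ q ∈ l, p ≠ q) → ¬ (p : ℤ) ∣ (n : ℤ) :=
    fun a b c => ndvd_of_primes p a b c
  have r2 := S.two_ne (p := p) (by omega)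
  have r3 := S.three_ne (p := p) (by omega)
  have r2' : (2 : k) ≠ 0 := by rw [map_ofNat] at r2; exact r2
  have r3' : (3 : k) ≠ 0 := by rw [map_ofNat] at r3; exact r3
  have h2O : (2 : O) ≠ 0 := by intro h0; rw [h0, map_zero] at r2; exact r2 rfl
  obtain ⟨h27, hzr, hz1r, fr1, fr2⟩ := fe_z S h3 hσ hz
  have hpsi := fe_psi S h3 hσ hz
  have h5 : 5 ≤ p := by
    have : p ≠ 4 := by rintro rfl; exact absurd hp.out (by norm_num)
    omega
  have h4r : S.red (4 * z) ≠ 0 ∧ S.red (4 * (1 - z)) ≠ 0 := by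
    have h4 : S.red 4 ≠ 0 := by
      have := S.int_ne (p := p) (n := 4) (by
        have := nd (n := 4) (l := [2, 2]) (by simp; norm_num) (by norm_num) (by simp; omega)
        exact_mod_cast this)
      exact_mod_cast this
    rw [map_mul, map_mul]
    exact ⟨mul_ne_zero h4 hzr, mul_ne_zero h4 hz1r⟩
  have hρ0 : ρ ≠ 0 := by
    intro h0
    rw [h0] at hρ
    apply r3
    have : (3 : O) = 0 := by linear_combination hρ
    rw [this, map_zero]
  have hM : ¬ (p : ℤ) ∣ 1458 := by
    have := nd (n := 1458) (l := [2, 3, 3, 3, 3, 3, 3]) (by simp; norm_num) (by norm_num) (by simp; omega)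
    exact_mod_cast this
  have hMz : ((1458 : ℤ) : O) * (z * (1 - z)) = 27 := by push_cast; exact h27
  refine ⟨fun x y h16 hc3 hc hxy => ?_, fun x y h16 hc3 hc hxy => ?_, fun hc3 => ?_⟩
  · obtain ⟨ha0, hb0⟩ := fe_ab S h16 hc3 hσ hz
    have n1 : ¬ (p : ℤ) ∣ ((1 : ℕ) : ℤ) := nd (n := 1) (l := []) (by simp) (by norm_num) (by simp)
    have n12 : ¬ (p : ℤ) ∣ ((3 * 4 : ℕ) : ℤ) :=
      nd (n := 3 * 4) (l := [2, 2, 3]) (by simp; norm_num) (by norm_num) (by simp; omega)
    have d2 := DatT.nu S (r := ρ) hpsi r2' r3' h4r.2 hρ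
    have e4 : 4 - 4 * (1 - z) = 4 * z := by ring
    rw [e4] at d2
    have hpO : (p : O) = x ^ 2 + 12 * y ^ 2 := by
      have := congrArg (Int.cast : ℤ → O) hxy
      push_cast at this; exact this
    exact sum_form0 S h5 hq hM hMz hzr hz1r (fr1 hc) ha0 hb0 one_ne_zero (mul_ne_zero h2O hρ0)
      (DatT.id S _).dat d2.dat x y (by rw [hxy]; push_cast; ring) n1 n12 (by nlinarith) (c := 1) (by norm_num)
      (by push_cast; linear_combination (-4 * (y : O) ^ 2) * hρ - hpO)
      (by push_cast; ring) hwi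
  · obtain ⟨ha0, hb0⟩ := fe_ab S h16 hc3 hσ hz
    have n4 : ¬ (p : ℤ) ∣ ((4 : ℕ) : ℤ) :=
      nd (n := 4) (l := [2, 2]) (by simp; norm_num) (by norm_num) (by simp; omega)
    have n3 : ¬ (p : ℤ) ∣ ((3 * 1 : ℕ) : ℤ) :=
      nd (n := 3 * 1) (l := [3]) (by simp; norm_num) (by norm_num) (by simp; omega)
    have d2 := DatT.nu S (r := ρ) (DatT.id S (4 * z)) r2' r3' h4r.1 hρ
    have e4 : 4 - 4 * z = 4 * (1 - z) := by ring
    rw [e4] at d2
    have hpO : (p : O) = 4 * x ^ 2 + 3 * y ^ 2 := by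
      have := congrArg (Int.cast : ℤ → O) hxy
      push_cast at this; exact this
    exact sum_form0 S h5 hq hM hMz hzr hz1r (fr2 hc) ha0 hb0 h2O (mul_ne_zero one_ne_zero hρ0)
      hpsi.dat d2.dat x y (by rw [hxy]; push_cast; ring) n4 n3 (by nlinarith) (c := 1) (by norm_num)
      (by push_cast; linear_combination (-(y : O) ^ 2) * hρ - hpO)
      (by push_cast; ring) hwi
  · have hodd : p % 2 = 1 := by
      rcases hp.out.eq_two_or_odd with h | h
      · omega
      · exact h
    refine sum_ss S h5 hq hMz hz1r r2 hpsi ?_ hwi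
    rw [Odd.neg_one_pow (Nat.odd_iff.mpr (by omega))]
    have h2p : S.red (2 : O) ^ p = 2 := by
      rw [map_ofNat]
      have := frobenius_def (R := k) p 2
      rw [← this, map_ofNat]
    rw [h2p, map_ofNat]
    intro h0
    have h4 : (2 : k) * 2 = 0 := by linear_combination h0
    rcases mul_eq_zero.mp h4 with h | h <;> exact r2' h

end fe

end Pool.Agent.H546
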