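import Pool.Agent.H546.Frob

set_option autoImplicit false

/-!
# Explicit points, and the quadratic form of two of them
-/

namespace Pool.Agent.H546

open Polynomial WeierstrassCurve WeierstrassCurve.Affine WithZero
open Pool.Agent.Q267.MW (SW io io_inj io_ne Prim3 mh mh3 xr eqn negY_SW rd rd_div vi vi_io deg_of_vi fp_sep fp bez two_ne_K qf)

section pt

variable {F : Type*} [Field F]

theorem vi_pos {n d : F[X]} (hd : d ≠ 0) (h : d.natDegree < n.natDegree) :
    1 < vi F (io n / io d) := by
  have hn : n ≠ 0 := by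
    rintro rfl
    rw [natDegree_zero] at h
    exact absurd h (Nat.not_lt_zero _)
  rw [map_div₀, vi_io hd, vi_io hn, ← exp_sub, ← exp_zero, exp_lt_exp]
  omega

theorem TWf_Δ {f : F[X]} (hf0 : f ≠ 0) {a b : F} (h2 : (2 : F) ≠ 0) (hΔ : 4 * a ^ 3 + 27 * b ^ 2 ≠ 0) :
    WeierstrassCurve.Δ (TWf f a b) ≠ 0 := by
  have hf := io_ne hf0
  have h2K := two_ne_K h2
  have e : WeierstrassCurve.Δ (TWf f a b) =
      -(2 ^ 4 * io f ^ 6 * io (C (4 * a ^ 3 + 27 * b ^ 2))) := by
    simp only [WeierstrassCurve.Δ, WeierstrassCurve.b₂, WeierstrassCurve.b₄, WeierstrassCurve.b₆,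
      WeierstrassCurve.b₈, C_add, C_mul, C_pow, map_add, map_mul, map_pow, map_ofNat]
    ring
  rw [e]
  refine neg_ne_zero.mpr (mul_ne_zero (mul_ne_zero (pow_ne_zero _ h2K) (pow_ne_zero _ hf)) ?_)
  exact io_ne (C_ne_zero.mpr hΔ)

theorem ptf_ns {f : F[X]} (hf0 : f ≠ 0) {a b : F} (h2 : (2 : F) ≠ 0) (hΔ : 4 * a ^ 3 + 27 * b ^ 2 ≠ 0)
    {X Y : RatFunc F} (h : io f * Y ^ 2 = X ^ 3 + io (C a) * X + io (C b)) :
    (TWf f a b).Nonsingular (io f * X) (io f ^ 2 * Y) := by
  rw [← equation_iff_nonsingular_of_Δ_ne_zero (TWf_Δ hf0 h2 hΔ), equation_iff]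
  simp only [zero_mul, add_zero]
  linear_combination (io f) ^ 3 * h

theorem same_frac {N D : F[X]} (hN : N ≠ 0) (hD : D ≠ 0) (cop : IsCoprime N D) :
    ∃ l : F, l ≠ 0 ∧ N = C l * (io N / io D : RatFunc F).num ∧ D = C l * (io N / io D : RatFunc F).denom := by
  set x : RatFunc F := io N / io D with hx
  have hd : x.denom ≠ 0 := RatFunc.denom_ne_zero x
  have h1 : x.num * D = N * x.denom := by
    apply io_inj
    rw [map_mul, map_mul]
    have : io x.num / io x.denom = io N / io D := by
      rw [← hx]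
      exact RatFunc.num_div_denom x
    rw [div_eq_div_iff (io_ne hd) (io_ne hD)] at this
    exact this
  have cop2 : IsCoprime x.num x.denom := RatFunc.isCoprime_num_denom x
  obtain ⟨t, ht⟩ : x.num ∣ N := cop2.dvd_of_dvd_mul_right (by rw [← h1]; exact dvd_mul_right _ _)
  have hn : x.num ≠ 0 := by
    intro h0
    rw [h0, zero_mul] at ht
    exact hN ht
  have hDt : D = x.denom * t := by
    apply mul_left_cancel₀ hn
    rw [h1]
    conv_lhs => rw [ht]
    ring
  have htu : IsUnit t := by
    apply cop.isUnit_of_dvd' (x := t)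
    · rw [ht]; exact dvd_mul_left _ _
    · rw [hDt]; exact dvd_mul_left _ _
  obtain ⟨l, hl, hlt⟩ := isUnit_iff.mp htu
  refine ⟨l, hl.ne_zero, ?_, ?_⟩
  · rw [hlt, mul_comm]; exact ht
  · rw [hlt, mul_comm]; exact hDt

end pt

variable {O K k : Type*} [CommRing O] [IsDomain O] [Field K] [Algebra O K] [Field k]
  (S : DV O K k)

include S in
theorem ΔK {a b : O} (hΔ : S.red (4 * a ^ 3 + 27 * b ^ 2) ≠ 0) :
    4 * (algebraMap O K a) ^ 3 + 27 * (algebraMap O K b) ^ 2 ≠ 0 := by
  intro h
  apply hΔ
  have : (4 * a ^ 3 + 27 * b ^ 2 : O) = 0 := by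
    apply S.inj
    simpa [map_ofNat] using h
  rw [this, map_zero]

include S in
theorem twoK (h2 : (2 : k) ≠ 0) : (2 : K) ≠ 0 := by
  intro h
  apply h2
  have : (2 : O) = 0 := by
    apply S.inj
    simpa [map_ofNat] using h
  have := congrArg S.red this
  simpa [map_ofNat] using this

/-- a point from explicit polynomials -/
theorem mk_point {f : O[X]} (hf : f ≠ 0) {a b m : O} (h2 : (2 : k) ≠ 0)
    (hΔ : S.red (4 * a ^ 3 + 27 * b ^ 2) ≠ 0) {N D : O[X]}
    (ode : f * wr N D ^ 2 = C m ^ 2 * tgt a b N D) (hm : m ≠ 0) (hD : D ≠ 0)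
    (hdeg : D.natDegree < N.natDegree)
    (copK : IsCoprime (N.map (algebraMap O K)) (D.map (algebraMap O K)))
    (copk : IsCoprime (N.map S.red) (D.map S.red)) (hlead : (N.map S.red).natDegree = N.natDegree) :
    ∃ v : (TWf (f.map (algebraMap O K)) (algebraMap O K a) (algebraMap O K b)).Point,
      Good (algebraMap O K m) v ∧ Nice S v ∧ hgt v = N.natDegree := by
  have hinj := S.inj
  set F := f.map (algebraMap O K) with hFd
  have hF : F ≠ 0 := fun h => hf (by
    apply Polynomial.map_injective _ hinj; rw [← hFd, h, Polynomial.map_zero])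
  set NK := N.map (algebraMap O K) with hNK
  set DK := D.map (algebraMap O K) with hDK
  have hN0 : N ≠ 0 := by rintro rfl; simp at hdeg
  have hNK0 : NK ≠ 0 := fun h => hN0 (by
    apply Polynomial.map_injective _ hinj; rw [← hNK, h, Polynomial.map_zero])
  have hDK0 : DK ≠ 0 := fun h => hD (by
    apply Polynomial.map_injective _ hinj; rw [← hDK, h, Polynomial.map_zero])
  have hmK : algebraMap O K m ≠ 0 := fun h => hm (hinj (by rw [h, map_zero]))
  have odeK : F * wr NK DK ^ 2 = C (algebraMap O K m) ^ 2 * tgt (algebraMap O K a) (algebraMap O K b) NK DK := by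
    rw [hFd, hNK, hDK, ← wr_map, ← tgt_map, ← Polynomial.map_pow, ← Polynomial.map_mul, ode,
      Polynomial.map_mul, Polynomial.map_pow, map_C]
  have ioD := io_ne hDK0
  have iom : io (C (algebraMap O K m)) ≠ 0 := io_ne (C_ne_zero.mpr hmK)
  have heq : io F * (io (wr NK DK) / (io (C (algebraMap O K m)) * io DK ^ 2)) ^ 2 =
      (io NK / io DK) ^ 3 + io (C (algebraMap O K a)) * (io NK / io DK) + io (C (algebraMap O K b)) := by
    have := congrArg io odeK
    simp only [tgt, map_mul, map_pow, map_add] at this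
    field_simp
    linear_combination this
  have h2K := twoK S h2
  refine ⟨Point.some _ _ (ptf_ns hF h2K (ΔK S hΔ) heq), ?_, ?_, ?_⟩
  · rw [good_some]
    have hf' := io_ne hF
    have e1 : io F * (io NK / io DK) / io F = io NK / io DK := by field_simp
    have e2 : io F ^ 2 * (io (wr NK DK) / (io (C (algebraMap O K m)) * io DK ^ 2)) / io F ^ 2 =
      io (wr NK DK) / (io (C (algebraMap O K m)) * io DK ^ 2) := by field_simp
    rw [e1, e2]
    refine ⟨vi_pos hDK0 ?_, ?_⟩
    · rw [hNK, hDK, natDegree_map_eq_of_injective hinj, natDegree_map_eq_of_injective hinj]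
      exact hdeg
    · rw [rd_div _ _ hDK0]
      simp only [wr, map_sub, map_mul]
      field_simp
  · obtain ⟨l, hl, h1, h2'⟩ := same_frac hNK0 hDK0 copK
    have e1 : io F * (io NK / io DK) / io F = io NK / io DK := by
      have hf' := io_ne hF
      field_simp
    refine ⟨N, D, l, hl, ?_, ?_, copk, ?_⟩
    · rw [rep_some, e1]; exact h1
    · rw [rep_some, e1]; exact h2'
    · unfold hgt
      rw [rep_some, e1]
      unfold mh
      have g1 : (io NK / io DK : RatFunc K).num.natDegree = N.natDegree := by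
        rw [← natDegree_C_mul hl, ← h1, hNK, natDegree_map_eq_of_injective hinj]
      have g2 : (io NK / io DK : RatFunc K).denom.natDegree = D.natDegree := by
        rw [← natDegree_C_mul hl, ← h2', hDK, natDegree_map_eq_of_injective hinj]
      simp only [g1, g2, hlead]
      rw [max_eq_left hdeg.le, max_eq_left (natDegree_map_le.trans hdeg.le)]
  · obtain ⟨l, hl, h1, h2'⟩ := same_frac hNK0 hDK0 copK
    have e1 : io F * (io NK / io DK) / io F = io NK / io DK := by
      have hf' := io_ne hF
      field_simp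
    unfold hgt
    rw [rep_some, e1]
    unfold mh
    have g1 : (io NK / io DK : RatFunc K).num.natDegree = N.natDegree := by
      rw [← natDegree_C_mul hl, ← h1, hNK, natDegree_map_eq_of_injective hinj]
    have g2 : (io NK / io DK : RatFunc K).denom.natDegree = D.natDegree := by
      rw [← natDegree_C_mul hl, ← h2', hDK, natDegree_map_eq_of_injective hinj]
    simp only [g1, g2]
    rw [max_eq_left hdeg.le]

theorem dvd_deg {p : ℕ} [CharP k p] {P : k[X]} (h : derivative P = 0) : p ∣ P.natDegree := by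
  by_cases h0 : P.natDegree = 0
  · rw [h0]; exact dvd_zero _
  obtain ⟨j, hj⟩ : ∃ j, P.natDegree = j + 1 := ⟨P.natDegree - 1, by omega⟩
  have := congrArg (fun Q => Q.coeff j) h
  simp only [coeff_derivative, coeff_zero] at this
  rw [← hj] at this
  have hP : P ≠ 0 := by rintro rfl; simp at h0
  rcases mul_eq_zero.mp this with h3 | h3
  · exact absurd h3 (by rw [coeff_natDegree]; exact leadingCoeff_ne_zero.mpr hP)
  · rw [hj, ← CharP.cast_eq_zero_iff k p]
    push_cast
    exact h3

/-- if the multiplier vanishes modulo `p` then `p` divides the degree -/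
theorem dvd_hgt {p : ℕ} [hp : Fact p.Prime] [CharP k p] {f : O[X]} (hf : S.red f.leadingCoeff ≠ 0)
    {a b c : O} {v : (TWf (f.map (algebraMap O K)) (algebraMap O K a) (algebraMap O K b)).Point}
    (hN : Nice S v) (hg : Good (algebraMap O K c) v) (hc : S.red c = 0) : p ∣ hgt v := by
  by_cases hv : v = 0
  · rw [hv, hgt_zero]; exact dvd_zero _
  obtain ⟨n, d, l, hl, hn, hd, cop, hm⟩ := hN
  have hf0 : f ≠ 0 := by
    rintro rfl
    rw [leadingCoeff_zero, map_zero] at hf
    exact hf rfl
  obtain ⟨ode, hdeg⟩ := good_poly S.inj hf0 hg hv hl hn hd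
  have hfk : f.map S.red ≠ 0 := by
    intro h0
    have := congrArg (fun Q => Q.coeff f.natDegree) h0
    simp only [coeff_map, coeff_natDegree, coeff_zero] at this
    exact hf this
  have hw0 : wr (n.map S.red) (d.map S.red) = 0 := by
    have := congrArg (Polynomial.map S.red) ode
    rw [Polynomial.map_mul, Polynomial.map_pow, Polynomial.map_mul, Polynomial.map_pow, map_C,
      hc, C_0, zero_pow two_ne_zero, zero_mul, wr_map] at this
    exact pow_eq_zero_iff two_ne_zero |>.mp ((mul_eq_zero.mp this).resolve_left hfk)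
  have hw1 : derivative (n.map S.red) * d.map S.red = n.map S.red * derivative (d.map S.red) := by
    unfold wr at hw0
    exact sub_eq_zero.mp hw0
  have hdd : d.map S.red ∣ derivative (d.map S.red) := by
    apply (cop.symm).dvd_of_dvd_mul_left
    rw [← hw1]
    exact dvd_mul_left _ _
  have hd' : derivative (d.map S.red) = 0 := by
    by_contra hne
    have h1 := natDegree_le_of_dvd hdd hne
    have h2 : (d.map S.red).natDegree ≠ 0 := by
      intro h0
      rw [natDegree_eq_zero] at h0
      obtain ⟨c, hc⟩ := h0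
      rw [← hc, derivative_C] at hne
      exact hne rfl
    have h3 := natDegree_derivative_lt h2
    omega
  have hnn : n.map S.red ∣ derivative (n.map S.red) := by
    apply cop.dvd_of_dvd_mul_right
    rw [hw1]
    exact dvd_mul_right _ _
  have hn' : derivative (n.map S.red) = 0 := by
    by_contra hne
    have h1 := natDegree_le_of_dvd hnn hne
    have h2 : (n.map S.red).natDegree ≠ 0 := by
      intro h0
      rw [natDegree_eq_zero] at h0
      obtain ⟨c, hc⟩ := h0
      rw [← hc, derivative_C] at hne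
      exact hne rfl
    have h3 := natDegree_derivative_lt h2
    omega
  rw [← hm]
  unfold mh
  rcases max_choice (n.map S.red).natDegree (d.map S.red).natDegree with h | h
  · rw [h]; exact dvd_deg hn'
  · rw [h]; exact dvd_deg hd'

open Classical in
theorem nice_zsmul {f : K[X]} {a b : O} (hf0 : f ≠ 0) (h2 : (2 : k) ≠ 0)
    (hΔ : S.red (4 * a ^ 3 + 27 * b ^ 2) ≠ 0)
    {P : (TWf f (algebraMap O K a) (algebraMap O K b)).Point} (hP : Nice S P) (m : ℤ) :
    Nice S (m • P) := by
  have hn : ∀ j : ℕ, Nice S (j • P) := by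
    intro j
    induction j with
    | zero => rw [zero_nsmul]; exact nice_zero S
    | succ j ih =>
      rw [succ_nsmul]
      exact nice_add S hf0 h2 hΔ ih hP
  rcases Int.eq_nat_or_neg m with ⟨j, rfl | rfl⟩
  · rw [natCast_zsmul]; exact hn j
  · rw [neg_smul, natCast_zsmul]; exact nice_neg S (hn j)

open Classical in
/-- the value of the quadratic form, from its discriminant class modulo `p` -/
theorem form_value {p : ℕ} [hp : Fact p.Prime] [CharP k p] {f : O[X]} (hf : S.red f.leadingCoeff ≠ 0)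
    {a b m1 m2 : O} (h2 : (2 : k) ≠ 0) (hΔ : S.red (4 * a ^ 3 + 27 * b ^ 2) ≠ 0)
    {A B : (TWf (f.map (algebraMap O K)) (algebraMap O K a) (algebraMap O K b)).Point}
    (gA : Good (algebraMap O K m1) A) (nA : Nice S A) (gB : Good (algebraMap O K m2) B)
    (nB : Nice S B) (r s t0 : ℤ) (hform : (p : ℤ) = r ^ 2 * hgt A + r * s * t0 + s ^ 2 * hgt B)
    (hr : ¬ (p : ℤ) ∣ r) (hs : ¬ (p : ℤ) ∣ s) (ht0 : t0 ^ 2 ≤ 4 * hgt A * hgt B)
    (hbig : 16 * (hgt A * hgt B) < p ^ 2) (hc : S.red ((r : O) * m1 + (s : O) * m2) = 0) :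
    Nice S (r • A + s • B) ∧ Good (algebraMap O K ((r : O) * m1 + (s : O) * m2)) (r • A + s • B) ∧
      hgt (r • A + s • B) = p := by
  have hf0 : f ≠ 0 := by
    rintro rfl
    rw [leadingCoeff_zero, map_zero] at hf
    exact hf rfl
  have hF : f.map (algebraMap O K) ≠ 0 := fun h => hf0 (by
    apply Polynomial.map_injective _ S.inj; rw [h, Polynomial.map_zero])
  have h2K := twoK S h2
  have hN : Nice S (r • A + s • B) := by
    exact nice_add S hF h2 hΔ (nice_zsmul S hF h2 hΔ nA r) (nice_zsmul S hF h2 hΔ nB s)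
  have hG : Good (algebraMap O K ((r : O) * m1 + (s : O) * m2)) (r • A + s • B) := by
    have g1 := good_zsmul hF h2K gA r
    have g2 := good_zsmul hF h2K gB s
    have g3 := good_add hF h2K g1 g2
    rw [map_add, map_mul, map_mul, map_intCast, map_intCast]
    convert g3
  refine ⟨hN, hG, ?_⟩
  have hdv := dvd_hgt S (p := p) hf hN hG hc
  set h : (TWf (f.map (algebraMap O K)) (algebraMap O K a) (algebraMap O K b)).Point → ℤ :=
    fun P => (hgt P : ℤ) with hh
  have hpar : ∀ P Q, h (P + Q) + h (P - Q) = 2 * (h P + h Q) := by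
    intro P Q
    have := par hF h2K (ΔK S hΔ) P Q
    simp only [hh]
    exact_mod_cast this
  set t : ℤ := h (A + B) - h A - h B with ht
  have hq : ∀ x y : ℤ, h (x • A + y • B) = x ^ 2 * h A + x * y * t + y ^ 2 * h B :=
    fun x y => qf h hpar A B x y
  have hnn : ∀ P, 0 ≤ h P := fun P => by simp only [hh]; positivity
  have hBA : 0 ≤ h A := hnn A
  have hBB : 0 ≤ h B := hnn B
  have htt : t ^ 2 ≤ 4 * h A * h B := by
    by_cases hB0 : h B = 0
    · by_cases hA0 : h A = 0
      · have e1 := hq 1 1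
        have e2 := hq 1 (-1)
        rw [hA0, hB0] at e1 e2
        have e3 := hnn ((1 : ℤ) • A + (1 : ℤ) • B)
        have e4 := hnn ((1 : ℤ) • A + (-1 : ℤ) • B)
        have : t = 0 := by linarith
        rw [this, hA0, hB0]; norm_num
      · have e1 := hnn ((-t) • A + (2 * h A) • B)
        rw [hq] at e1
        have hA1 : 0 < h A := lt_of_le_of_ne hBA (Ne.symm hA0)
        have : 0 ≤ h A * (4 * h A * h B - t ^ 2) := by nlinarith
        nlinarith [nonneg_of_mul_nonneg_right this hA1]
    · have hB1 : 0 < h B := lt_of_le_of_ne hBB (Ne.symm hB0)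
      have e1 := hnn ((2 * h B) • A + (-t) • B)
      rw [hq] at e1
      have : 0 ≤ h B * (4 * h A * h B - t ^ 2) := by nlinarith
      nlinarith [nonneg_of_mul_nonneg_right this hB1]
  have hv := hq r s
  have hdv' : (p : ℤ) ∣ h (r • A + s • B) := by
    simp only [hh]
    exact_mod_cast hdv
  have hd2 : (p : ℤ) ∣ r * s * (t - t0) := by
    have e : r * s * (t - t0) = h (r • A + s • B) - p := by
      rw [hv, hform]; simp only [hh]; ring
    rw [e]
    exact dvd_sub hdv' dvd_rfl
  have hpZ : Prime (p : ℤ) := Nat.prime_iff_prime_int.mp hp.out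
  have hd3 : (p : ℤ) ∣ t - t0 := by
    rcases hpZ.dvd_or_dvd hd2 with h' | h'
    · rcases hpZ.dvd_or_dvd h' with h'' | h''
      · exact absurd h'' hr
      · exact absurd h'' hs
    · exact h'
  have ht0' : t0 ^ 2 ≤ 4 * h A * h B := by simp only [hh]; exact_mod_cast ht0
  have hbig' : 16 * (h A * h B) < (p : ℤ) ^ 2 := by simp only [hh]; exact_mod_cast hbig
  have hsq : (t - t0) ^ 2 < (p : ℤ) ^ 2 := by nlinarith [sq_nonneg (t + t0)]
  have hz : t - t0 = 0 := by
    by_contra hne
    have h1 : (p : ℤ) ^ 2 ≤ (t - t0) ^ 2 := by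
      have h2 := pow_dvd_pow_of_dvd hd3 2
      exact Int.le_of_dvd (by positivity) h2
    omega
  have : t = t0 := by linarith
  have hfin : h (r • A + s • B) = p := by
    rw [hv, hform, this]
  simp only [hh] at hfin
  exact_mod_cast hfin

end Pool.Agent.H546
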