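import Pool.Agent.H546.Nice
import Pool.Graph.R_pool_sql_team_seeded_3997aac3.Q267.MW.Insep

set_option autoImplicit false

/-!
# Points of degree `p` whose multiplier vanishes modulo `p` lift Frobenius
-/

namespace Pool.Agent.H546

open Polynomial WeierstrassCurve WeierstrassCurve.Affine WithZero
open Pool.Agent.Q267.MW (SW io io_inj io_ne Prim3 mh mh3 xr eqn negY_SW rd rd_div vi vi_io deg_of_vi fp_sep fp bez two_ne_K)

/-- the cubic over a ring -/
noncomputable def cub {R : Type*} [CommRing R] (a b : R) : R[X] := X ^ 3 + C a * X + C b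

theorem cub_map {R T : Type*} [CommRing R] [CommRing T] (g : R →+* T) (a b : R) :
    (cub a b).map g = cub (g a) (g b) := by
  simp [cub]

theorem cub_fp {F : Type*} [Field F] (a b : F) : cub a b = fp a b := rfl

theorem cub_ne {R : Type*} [CommRing R] [Nontrivial R] (a b : R) : cub a b ≠ 0 := by
  intro h
  have : (cub a b).coeff 3 = 1 := by
    simp [cub]
  rw [h, coeff_zero] at this
  exact zero_ne_one this

/-- the wronskian of numerator and denominator -/
noncomputable def wr {R : Type*} [CommRing R] (n d : R[X]) : R[X] := derivative n * d - n * derivative d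

theorem wr_map {R T : Type*} [CommRing R] [CommRing T] (g : R →+* T) (n d : R[X]) :
    (wr n d).map g = wr (n.map g) (d.map g) := by
  simp [wr, derivative_map]

theorem wr_C {R : Type*} [CommRing R] (c : R) (n d : R[X]) : wr (C c * n) (C c * d) = C c ^ 2 * wr n d := by
  simp only [wr, derivative_mul, derivative_C]; ring

/-- the homogenised cubic of the target -/
noncomputable def tgt {R : Type*} [CommRing R] (a b : R) (n d : R[X]) : R[X] :=
  d * (n ^ 3 + C a * n * d ^ 2 + C b * d ^ 3)

theorem tgt_map {R T : Type*} [CommRing R] [CommRing T] (g : R →+* T) (a b : R) (n d : R[X]) :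
    (tgt a b n d).map g = tgt (g a) (g b) (n.map g) (d.map g) := by
  simp [tgt]

theorem tgt_C {R : Type*} [CommRing R] (a b c : R) (n d : R[X]) :
    tgt a b (C c * n) (C c * d) = C c ^ 4 * tgt a b n d := by
  simp only [tgt]; ring

variable {O K k : Type*} [CommRing O] [IsDomain O] [Field K] [Algebra O K] [Field k]
  (S : DV O K k)

theorem DV.unit_of_red {x : O} (h : S.red x ≠ 0) : IsUnit x := by
  have hx : x ≠ 0 := by rintro rfl; exact h (map_zero _)
  have hxK : algebraMap O K x ≠ 0 := fun h0 => hx (S.inj (by rw [h0, map_zero]))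
  obtain ⟨u, n, hu, hun⟩ := S.frac _ hxK
  have hq0 := S.aq_ne
  rcases lt_trichotomy n 0 with hn | hn | hn
  · exfalso
    obtain ⟨m, hm⟩ : ∃ m : ℕ, n = -((m : ℤ) + 1) := ⟨(-n - 1).toNat, by omega⟩
    have e : S.q ^ (m + 1) * x = u := by
      apply S.inj
      rw [map_mul, map_pow, hun, hm, zpow_neg]
      have : (algebraMap O K S.q) ^ ((m : ℤ) + 1) = (algebraMap O K S.q) ^ (m + 1) := by
        rw [← zpow_natCast]; push_cast; rfl
      rw [this]
      field_simp
    have := congrArg S.red e
    rw [map_mul, map_pow, S.red_q, zero_pow (by omega), zero_mul] at this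
    exact (hu.map S.red).ne_zero this.symm
  · have : x = u := by
      apply S.inj
      rw [hun, hn, zpow_zero, mul_one]
    rw [this]; exact hu
  · exfalso
    apply h
    obtain ⟨m, hm⟩ : ∃ m : ℕ, n = (m : ℤ) + 1 := ⟨(n - 1).toNat, by omega⟩
    have e : x = u * S.q ^ (m + 1) := by
      apply S.inj
      have hz : (algebraMap O K S.q) ^ ((m : ℤ) + 1) = (algebraMap O K S.q) ^ (m + 1) := by
        rw [← zpow_natCast]; push_cast; rfl
      rw [hun, hm, hz, (algebraMap O K).map_mul, (algebraMap O K).map_pow]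
    rw [e, map_mul, map_pow, S.red_q, zero_pow (by omega), mul_zero]

theorem DV.dvd_of_map {P : O[X]} (h : P.map S.red = 0) : ∃ M : O[X], P = C S.q * M := by
  have : ∀ i, ∃ c, P.coeff i = S.q * c := by
    intro i
    have := congrArg (fun Q => Q.coeff i) h
    simp only [coeff_map, coeff_zero] at this
    obtain ⟨c, hc⟩ := (S.red_iff _).mp this
    exact ⟨c, hc⟩
  obtain ⟨M, hM⟩ := (C_dvd_iff_dvd_coeff S.q P).mpr (fun i => (S.red_iff _).mp (by
    have := congrArg (fun Q => Q.coeff i) h
    simpa only [coeff_map, coeff_zero] using this))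
  exact ⟨M, hM⟩

/-- the squared differential equation for the reduced representative -/
theorem good_polyK {F : K[X]} (hF : F ≠ 0) {a b c : K} {v : (TWf F a b).Point}
    (hg : Good c v) (hv : v ≠ 0) :
    F * wr (rep v).1 (rep v).2 ^ 2 = C c ^ 2 * tgt a b (rep v).1 (rep v).2 ∧
      (rep v).2.natDegree < (rep v).1.natDegree := by
  cases v with
  | zero => exact absurd rfl hv
  | some x y h =>
    obtain ⟨h1, h2⟩ := (good_some h).mp hg
    have he := tw_eqn hF h
    rw [rep_some]
    show F * wr (x / io F).num (x / io F).denom ^ 2 =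
      C c ^ 2 * tgt a b (x / io F).num (x / io F).denom ∧
      (x / io F).denom.natDegree < (x / io F).num.natDegree
    have hden : (x / io F).denom ≠ 0 := RatFunc.denom_ne_zero _
    have hiod := io_ne hden
    have hX : x / io F = io (x / io F).num / io (x / io F).denom := (RatFunc.num_div_denom _).symm
    refine ⟨?_, deg_of_vi h1⟩
    generalize hN : (x / io F).num = N at *
    generalize hD : (x / io F).denom = D at *
    apply io_inj
    have h3 : rd (x / io F) = (io (derivative N) * io D - io N * io (derivative D)) / io D ^ 2 := by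
      rw [hX]
      exact rd_div N D hden
    rw [h3] at h2
    have h4 : io F * ((io (derivative N) * io D - io N * io (derivative D)) / io D ^ 2) ^ 2 =
        io (C c) ^ 2 * (io F * (y / io F ^ 2) ^ 2) := by
      rw [h2]; ring
    rw [he, hX] at h4
    simp only [wr, tgt, map_mul, map_pow, map_sub, map_add]
    field_simp at h4
    linear_combination h4

/-- a nonzero point given by polynomials over `O` satisfying the squared differential equation -/
theorem good_poly {f : O[X]} (hinj : Function.Injective (algebraMap O K)) (hf : f ≠ 0) {a b c : O}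
    {v : (TWf (f.map (algebraMap O K)) (algebraMap O K a) (algebraMap O K b)).Point}
    (hg : Good (algebraMap O K c) v) (hv : v ≠ 0) {n d : O[X]} {l : K} (hl : l ≠ 0)
    (hn : n.map (algebraMap O K) = C l * (rep v).1) (hd : d.map (algebraMap O K) = C l * (rep v).2) :
    f * wr n d ^ 2 = C c ^ 2 * tgt a b n d ∧ d.natDegree < n.natDegree := by
  have hF : f.map (algebraMap O K) ≠ 0 := fun h => hf (by
    apply Polynomial.map_injective _ hinj; rw [h, Polynomial.map_zero])
  obtain ⟨key, hdeg⟩ := good_polyK hF hg hv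
  refine ⟨?_, ?_⟩
  · apply Polynomial.map_injective _ hinj
    rw [Polynomial.map_mul, Polynomial.map_pow, wr_map, hn, hd, wr_C, Polynomial.map_mul,
      Polynomial.map_pow, map_C, tgt_map, hn, hd, tgt_C]
    linear_combination C l ^ 4 * key
  · rw [← natDegree_map_eq_of_injective hinj n, ← natDegree_map_eq_of_injective hinj d, hn, hd,
      natDegree_C_mul hl, natDegree_C_mul hl]
    exact hdeg

/-- polynomials with vanishing derivative of degree at most `p` -/
theorem der_zero {p : ℕ} [hp : Fact p.Prime] [CharP k p] {P : k[X]} (h : derivative P = 0)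
    (hd : P.natDegree ≤ p) : P = C (P.coeff p) * X ^ p + C (P.coeff 0) := by
  ext i
  rw [coeff_add, coeff_C_mul, coeff_X_pow, coeff_C]
  have hp0 := hp.out.pos
  by_cases h0 : i = 0
  · subst h0
    rw [if_neg (by omega), if_pos rfl]; ring
  by_cases h1 : i = p
  · subst h1
    rw [if_pos rfl, if_neg h0]; ring
  rw [if_neg h1, if_neg h0, mul_zero, add_zero]
  by_cases h2 : p < i
  · exact coeff_eq_zero_of_natDegree_lt (by omega)
  · have hi : i < p := by omega
    obtain ⟨j, rfl⟩ : ∃ j, i = j + 1 := ⟨i - 1, by omega⟩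
    have := congrArg (fun Q => Q.coeff j) h
    simp only [coeff_derivative, coeff_zero] at this
    rcases mul_eq_zero.mp this with h3 | h3
    · exact h3
    · exfalso
      have h4 : ((j + 1 : ℕ) : k) = 0 := by push_cast; exact h3
      rw [CharP.cast_eq_zero_iff k p] at h4
      exact absurd (Nat.le_of_dvd (by omega) h4) (by omega)

/-- **Structure of a point of degree `p` with multiplier divisible by `p`.** -/
theorem frob_struct {p : ℕ} [hp : Fact p.Prime] [CharP k p] [IsAlgClosed k] (hp2 : p ≠ 2) (hp3 : p ≠ 3)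
    {a1 b1 a2 b2 w : O} (ha : S.red a2 = S.red a1 ^ p) (hb : S.red b2 = S.red b1 ^ p)
    (ha0 : S.red a1 ≠ 0) (hb0 : S.red b1 ≠ 0) (hΔ : S.red (4 * a1 ^ 3 + 27 * b1 ^ 2) ≠ 0)
    {v : (TWf ((cub a1 b1).map (algebraMap O K)) (algebraMap O K a2) (algebraMap O K b2)).Point}
    (hN : Nice S v) (hg : Good (algebraMap O K (S.q * w)) v) (hh : hgt v = p) (hw : S.red w ≠ 0) :
    ∃ n d M : O[X], n.map S.red = X ^ p ∧ d.map S.red = 1 ∧ n.natDegree ≤ p ∧ d.natDegree < p ∧
      wr n d = C S.q * M ∧ cub a1 b1 * M ^ 2 = C w ^ 2 * tgt a2 b2 n d := by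
  have hp0 := hp.out.pos
  have hpne := hp.out.ne_zero
  have hv : v ≠ 0 := by
    rintro rfl
    rw [hgt_zero] at hh
    omega
  obtain ⟨n, d, l, hl, hn, hd, cop, hm⟩ := hN
  obtain ⟨ode, hdeg⟩ := good_poly S.inj (cub_ne a1 b1) hg hv hl hn hd
  have hnp : n.natDegree = p := by
    have h1 : (rep v).1.natDegree = n.natDegree := by
      rw [← natDegree_C_mul hl, ← hn, natDegree_map_eq_of_injective S.inj]
    have h2 : (rep v).2.natDegree = d.natDegree := by
      rw [← natDegree_C_mul hl, ← hd, natDegree_map_eq_of_injective S.inj]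
    rw [← hh]
    unfold hgt mh
    rw [h1, h2, max_eq_left hdeg.le]
  rw [hnp] at hdeg
  -- reduction
  have hΔk : 4 * (S.red a1) ^ 3 + 27 * (S.red b1) ^ 2 ≠ 0 := by simpa [map_ofNat] using hΔ
  have hf := cub_ne (S.red a1) (S.red b1)
  have hw0 : wr (n.map S.red) (d.map S.red) = 0 := by
    have := congrArg (Polynomial.map S.red) ode
    rw [Polynomial.map_mul, Polynomial.map_pow, Polynomial.map_mul, Polynomial.map_pow, map_C,
      map_mul, S.red_q, zero_mul, C_0, zero_pow two_ne_zero, zero_mul, cub_map, wr_map] at this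
    exact pow_eq_zero_iff two_ne_zero |>.mp ((mul_eq_zero.mp this).resolve_left hf)
  have hd0 : d.map S.red ≠ 0 := by
    intro h0
    rw [h0, isCoprime_zero_right] at cop
    have e1 := natDegree_eq_zero_of_isUnit cop
    rw [hh] at hm
    unfold mh at hm
    rw [e1, h0, natDegree_zero, max_self] at hm
    omega
  have hw1 : derivative (n.map S.red) * d.map S.red = n.map S.red * derivative (d.map S.red) := by
    unfold wr at hw0
    exact sub_eq_zero.mp hw0
  have hdd : d.map S.red ∣ derivative (d.map S.red) := by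
    apply (cop.symm).dvd_of_dvd_mul_left
    rw [← hw1]
    exact dvd_mul_left _ _
  have hd' : derivative (d.map S.red) = 0 := by
    by_contra hne
    have h1 := natDegree_le_of_dvd hdd hne
    have h2 : (d.map S.red).natDegree ≠ 0 := by
      intro h0
      rw [natDegree_eq_zero] at h0
      obtain ⟨c, hc⟩ := h0
      rw [← hc, derivative_C] at hne
      exact hne rfl
    have h3 := natDegree_derivative_lt h2
    omega
  have hn' : derivative (n.map S.red) = 0 := by
    rw [hd', mul_zero] at hw1
    exact (mul_eq_zero.mp hw1).resolve_right hd0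
  have hdl : (d.map S.red).natDegree < p := lt_of_le_of_lt natDegree_map_le hdeg
  have hdc : d.map S.red = C ((d.map S.red).coeff 0) := by
    have := der_zero hd' hdl.le
    rw [coeff_eq_zero_of_natDegree_lt hdl, C_0, zero_mul, zero_add] at this
    exact this
  have hnl : (n.map S.red).natDegree ≤ p := by rw [← hnp]; exact natDegree_map_le
  have hnc := der_zero hn' hnl
  -- rescale
  have hδ : S.red (d.coeff 0) ≠ 0 := by
    rw [← coeff_map]
    intro h0
    rw [h0, C_0] at hdc
    exact hd0 hdc
  obtain ⟨e, he⟩ := (S.unit_of_red hδ).exists_left_inv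
  have hed : (C e * d).map S.red = 1 := by
    rw [Polynomial.map_mul, map_C, hdc, coeff_map, ← C_mul, ← map_mul, he, map_one, C_1]
  set al := S.red e * (n.map S.red).coeff p with hal
  set be := S.red e * (n.map S.red).coeff 0 with hbe
  have hen : (C e * n).map S.red = C al * X ^ p + C be := by
    rw [Polynomial.map_mul, map_C, hal, hbe]
    conv_lhs => rw [hnc]
    simp only [C_mul]
    ring
  have hre : S.red e ≠ 0 := by
    intro h0
    have := congrArg S.red he
    rw [map_mul, h0, zero_mul, map_one] at this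
    exact zero_ne_one this
  have hal0 : al ≠ 0 := by
    intro h0
    have h1 : (n.map S.red).coeff p = 0 := (mul_eq_zero.mp h0).resolve_left hre
    rw [h1, C_0, zero_mul, zero_add] at hnc
    rw [hh] at hm
    unfold mh at hm
    rw [hnc, hdc, natDegree_C, natDegree_C, max_self] at hm
    omega
  have ode1 : cub a1 b1 * wr (C e * n) (C e * d) ^ 2 = C (S.q * w) ^ 2 * tgt a2 b2 (C e * n) (C e * d) := by
    rw [wr_C, tgt_C]
    linear_combination C e ^ 4 * ode
  obtain ⟨M, hM⟩ := S.dvd_of_map (P := wr (C e * n) (C e * d)) (by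
    rw [wr_map, hed, hen, wr]
    simp [derivative_X_pow])
  have ode2 : cub a1 b1 * M ^ 2 = C w ^ 2 * tgt a2 b2 (C e * n) (C e * d) := by
    rw [hM, C_mul] at ode1
    have hq : (C S.q : O[X]) ^ 2 ≠ 0 := pow_ne_zero _ (C_ne_zero.mpr S.q_ne)
    apply mul_left_cancel₀ hq
    linear_combination ode1
  -- the divisibility
  have hsq : Squarefree (cub (S.red a1) (S.red b1)) := (fp_sep hΔk).squarefree
  have hdiv1 : cub (S.red a1) (S.red b1) ∣
      (C al * X ^ p + C be) ^ 3 + C (S.red a2) * (C al * X ^ p + C be) + C (S.red b2) := by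
    have := congrArg (Polynomial.map S.red) ode2
    rw [Polynomial.map_mul, Polynomial.map_pow, Polynomial.map_mul, Polynomial.map_pow, map_C,
      cub_map, tgt_map, hed, hen, tgt] at this
    have hC : C (S.red w)⁻¹ * C (S.red w) = (1 : k[X]) := by
      rw [← C_mul, inv_mul_cancel₀ hw, C_1]
    refine ⟨C (S.red w)⁻¹ ^ 2 * M.map S.red ^ 2, ?_⟩
    linear_combination (-C (S.red w)⁻¹ ^ 2) * this - (C (S.red w)⁻¹ * C (S.red w) + 1) *
      ((C al * X ^ p + C be) ^ 3 + C (S.red a2) * (C al * X ^ p + C be) + C (S.red b2)) * hC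
  have hdiv2 : cub (S.red a1) (S.red b1) ∣ (X ^ p) ^ 3 + C (S.red a2) * X ^ p + C (S.red b2) := by
    have : (X ^ p) ^ 3 + C (S.red a2) * X ^ p + C (S.red b2) = cub (S.red a1) (S.red b1) ^ p := by
      unfold cub
      rw [add_pow_char, add_pow_char, mul_pow, ← C_pow, ← C_pow, ha, hb, ← pow_mul, ← pow_mul,
        mul_comm p 3]
    rw [this]
    exact dvd_pow_self _ hpne
  obtain ⟨s2, hs2⟩ := IsAlgClosed.exists_pow_nat_eq (3 * al ^ 2 * be) hp0
  obtain ⟨s1, hs1⟩ := IsAlgClosed.exists_pow_nat_eq (3 * al * be ^ 2 + S.red a2 * al - al ^ 3 * S.red a2) hp0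
  obtain ⟨s0, hs0⟩ := IsAlgClosed.exists_pow_nat_eq
    (be ^ 3 + S.red a2 * be + S.red b2 - al ^ 3 * S.red b2) hp0
  have hr : cub (S.red a1) (S.red b1) ∣ (C s2 * X ^ 2 + C s1 * X + C s0) ^ p := by
    have : (C s2 * X ^ 2 + C s1 * X + C s0 : k[X]) ^ p =
        ((C al * X ^ p + C be) ^ 3 + C (S.red a2) * (C al * X ^ p + C be) + C (S.red b2)) -
        C al ^ 3 * ((X ^ p) ^ 3 + C (S.red a2) * X ^ p + C (S.red b2)) := by
      rw [add_pow_char, add_pow_char, mul_pow, mul_pow, ← C_pow, ← C_pow, ← C_pow, hs2, hs1, hs0,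
        ← pow_mul, mul_comm 2 p, pow_mul]
      simp only [C_mul, C_add, C_sub, C_pow, map_ofNat]
      ring
    rw [this]
    exact dvd_sub hdiv1 (hdiv2.mul_left _)
  have hr2 : cub (S.red a1) (S.red b1) ∣ (C s2 * X ^ 2 + C s1 * X + C s0) :=
    (hsq.dvd_pow_iff_dvd hpne).mp hr
  have hr0 : (C s2 * X ^ 2 + C s1 * X + C s0 : k[X]) = 0 := by
    by_contra hne
    have h1 := natDegree_le_of_dvd hr2 hne
    have h2 : (cub (S.red a1) (S.red b1)).natDegree = 3 := by
      unfold cub
      compute_degree!
    have h3 : (C s2 * X ^ 2 + C s1 * X + C s0 : k[X]).natDegree ≤ 2 := by compute_degree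
    omega
  have z2 : s2 = 0 := by
    have := congrArg (fun Q => Q.coeff 2) hr0
    simpa [coeff_X, coeff_C] using this
  have z1 : s1 = 0 := by
    have := congrArg (fun Q => Q.coeff 1) hr0
    simpa [coeff_X, coeff_C] using this
  have z0 : s0 = 0 := by
    have := congrArg (fun Q => Q.coeff 0) hr0
    simpa [coeff_X, coeff_C] using this
  rw [z2, zero_pow hpne] at hs2
  rw [z1, zero_pow hpne] at hs1
  rw [z0, zero_pow hpne] at hs0
  have h3k : (3 : k) ≠ 0 := by
    intro h3
    have : ((3 : ℕ) : k) = 0 := by exact_mod_cast h3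
    rw [CharP.cast_eq_zero_iff k p] at this
    exact hp3 ((Nat.prime_dvd_prime_iff_eq hp.out (by norm_num)).mp this)
  have hbe0 : be = 0 := by
    have := hs2.symm
    rcases mul_eq_zero.mp this with h | h
    · exact absurd h (mul_ne_zero h3k (pow_ne_zero _ hal0))
    · exact h
  have ha2 : S.red a2 ≠ 0 := by rw [ha]; exact pow_ne_zero _ ha0
  have hb2 : S.red b2 ≠ 0 := by rw [hb]; exact pow_ne_zero _ hb0
  rw [hbe0] at hs1 hs0
  have q2 : al ^ 2 = 1 := by
    have : S.red a2 * al * (1 - al ^ 2) = 0 := by linear_combination -hs1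
    have := (mul_eq_zero.mp this).resolve_left (mul_ne_zero ha2 hal0)
    linear_combination -this
  have q3 : al ^ 3 = 1 := by
    have : S.red b2 * (1 - al ^ 3) = 0 := by linear_combination -hs0
    have := (mul_eq_zero.mp this).resolve_left hb2
    linear_combination -this
  have q1 : al = 1 := by linear_combination q3 - al * q2
  refine ⟨C e * n, C e * d, M, ?_, hed, ?_, ?_, hM, ode2⟩
  · rw [hen, q1, hbe0]; simp
  · refine (natDegree_C_mul_le _ _).trans (by omega)
  · exact lt_of_le_of_lt (natDegree_C_mul_le _ _) hdeg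

end Pool.Agent.H546
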