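import Pool.Agent.H546.Par

set_option autoImplicit false

/-!
# The action on the invariant differential
-/

namespace Pool.Agent.H546

open Polynomial WeierstrassCurve WeierstrassCurve.Affine WithZero
open Pool.Agent.Q267.MW (SW io io_inj io_ne Prim3 mh mh3 xr as_main G0 G1 G2 G_mh G_prim prim_pair mh_pair prop_eq g0 g1 g2 eqn negY_SW rd rd_div rd_io rd_add rd_mul rd_const rd_neg rd_sub rd_sq rd_cube vi vi_const vi_unit rd_quot add_der dbl_der add_quad pos_add pos_cub pos_dbl two_ne_K)

variable {F : Type*} [Field F]

noncomputable section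

/-- the point reduces to zero at infinity, and multiplies the differential by `c` -/
def Good {f : F[X]} {a b : F} (c : F) : (TWf f a b).Point → Prop
  | .zero => c = 0
  | .some x y _ => 1 < vi F (x / io f) ∧
      rd (x / io f) = io (C c) * (y / io f ^ 2)

theorem good_zero {f : F[X]} {a b : F} {c : F} : Good c (0 : (TWf f a b).Point) ↔ c = 0 := Iff.rfl

theorem good_some {f : F[X]} {a b : F} {c : F} {x y : RatFunc F} (h : (TWf f a b).Nonsingular x y) :
    Good c (Point.some x y h) ↔ (1 < vi F (x / io f) ∧
      rd (x / io f) = io (C c) * (y / io f ^ 2)) := Iff.rfl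

theorem tw_eqn {f : F[X]} {a b : F} (hf0 : f ≠ 0) {x y : RatFunc F} (h : (TWf f a b).Nonsingular x y) :
    io f * (y / io f ^ 2) ^ 2 =
      (x / io f) ^ 3 + io (C a) * (x / io f) + io (C b) := by
  have hf := io_ne hf0
  have := eqn h
  field_simp
  linear_combination this

/-- the derivative of the second coordinate -/
theorem rd_Y {f : F[X]} {a b c : F} {X Y : RatFunc F} (hY : Y ≠ 0)
    (he : io f * Y ^ 2 = X ^ 3 + io (C a) * X + io (C b)) (hd : rd X = io (C c) * Y) :
    2 * io f * rd Y =
      (3 * X ^ 2 + io (C a)) * io (C c) - io (derivative f) * Y := by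
  have := congrArg rd he
  rw [rd_mul, rd_io, rd_sq, rd_add, rd_add, rd_cube, rd_mul, rd_const, rd_const, hd] at this
  apply mul_left_cancel₀ hY
  linear_combination this

theorem good_Y {f : F[X]} {a b c : F} (hf0 : f ≠ 0) {x y : RatFunc F} (h : (TWf f a b).Nonsingular x y)
    (hg : Good c (Point.some x y h)) : y / io f ^ 2 ≠ 0 := by
  intro h0
  have he := tw_eqn hf0 h
  have hg1 := ((good_some h).mp hg).1
  have hc := pos_cub a b hg1
  rw [← he, h0] at hc
  simp only [ne_eq, OfNat.ofNat_ne_zero, not_false_eq_true, zero_pow, mul_zero, map_zero] at hc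
  have h1 : vi F (x / io f) ≠ 0 := (lt_trans zero_lt_one hg1).ne'
  exact pow_ne_zero 3 h1 hc.symm

open Classical in
theorem good_add {f : F[X]} {a b c1 c2 : F} (hf0 : f ≠ 0) (h2 : (2 : F) ≠ 0) {P Q : (TWf f a b).Point} (hP : Good c1 P)
    (hQ : Good c2 Q) : Good (c1 + c2) (P + Q) := by
  have hf := io_ne hf0
  have h2K := two_ne_K h2
  cases P with
  | zero =>
    have h0 : c1 = 0 := hP
    rw [h0, zero_add, show (Point.zero : (TWf f a b).Point) = 0 from rfl, zero_add]
    exact hQ
  | some x1 y1 h1 =>
    cases Q with
    | zero =>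
      have h0 : c2 = 0 := hQ
      rw [h0, add_zero, show (Point.zero : (TWf f a b).Point) = 0 from rfl, add_zero]
      exact hP
    | some x2 y2 h2' =>
      have hY1 := good_Y hf0 h1 hP
      have hY2 := good_Y hf0 h2' hQ
      have E1 := tw_eqn hf0 h1
      have E2 := tw_eqn hf0 h2'
      obtain ⟨v1, r1⟩ := (good_some h1).mp hP
      obtain ⟨v2, r2⟩ := (good_some h2').mp hQ
      have k1 := rd_Y hY1 E1 r1
      have k2 := rd_Y hY2 E2 r2
      by_cases hx : x1 = x2
      · by_cases hy : y1 = (TWf f a b).negY x2 y2
        · rw [Point.add_of_Y_eq hx hy, good_zero]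
          rw [negY_SW] at hy
          rw [hx, hy] at r1
          rw [r1] at r2
          have : io (C (c1 + c2)) * (y2 / io f ^ 2) = 0 := by
            rw [C_add, map_add]
            linear_combination -r2
          have h3 := (mul_eq_zero.mp this).resolve_right hY2
          rw [← map_zero (io (F := F))] at h3
          exact C_eq_zero.mp (io_inj h3)
        · -- doubling
          subst hx
          have hyy : y1 = y2 := by
            rcases Y_eq_of_X_eq h1.1 h2'.1 rfl with h | h
            · exact h
            · exact absurd h hy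
          subst hyy
          have hcc : c1 = c2 := by
            rw [r1] at r2
            have h3 := mul_right_cancel₀ hY1 r2
            exact C_inj.mp (io_inj h3)
          subst hcc
          have hy0 : y1 ≠ 0 := by
            intro h0
            apply hY1
            rw [h0, zero_div]
          rw [Point.add_self_of_Y_ne hy, good_some]
          have hsl : (TWf f a b).slope x1 x1 y1 y1 =
              (3 * x1 ^ 2 + io (C a) * io f ^ 2) / (2 * y1) := by
            rw [slope_of_Y_ne rfl hy, negY_SW]
            congr 1
            · simp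
            · ring
          set X := x1 / io f with hX
          set Y := y1 / io f ^ 2 with hYd
          have ex : x1 = io f * X := by rw [hX]; field_simp
          have ey : y1 = io f ^ 2 * Y := by rw [hYd]; field_simp
          have eX3 : (TWf f a b).addX x1 x1 ((TWf f a b).slope x1 x1 y1 y1) / io f =
              io f * ((3 * X ^ 2 + io (C a)) / (2 * io f * Y)) ^ 2 - 2 * X := by
            rw [hsl]
            simp only [addX]
            rw [ex, ey]
            field_simp
            ring
          have eY3 : (TWf f a b).addY x1 x1 y1 ((TWf f a b).slope x1 x1 y1 y1) / io f ^ 2 =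
              -(((3 * X ^ 2 + io (C a)) / (2 * io f * Y)) *
                ((io f * ((3 * X ^ 2 + io (C a)) / (2 * io f * Y)) ^ 2 - 2 * X) - X)
                + Y) := by
            rw [hsl]
            simp only [addY, negAddY, addX, negY]
            rw [ex, ey]
            field_simp
            ring
          rw [eX3, eY3]
          refine ⟨?_, ?_⟩
          · apply pos_dbl a b h2 v1
            rw [← E1]
            have hB : io (C b) = io f * Y ^ 2 - X ^ 3 - io (C a) * X := by
              linear_combination -E1
            rw [hB]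
            field_simp
            ring
          · have hq : (2 * io f * Y : RatFunc F) ≠ 0 := mul_ne_zero (mul_ne_zero h2K hf) hY1
            rw [rd_sub, rd_mul, rd_io, rd_sq, rd_quot _ _ hq]
            have e2 : rd (2 : RatFunc F) = 0 := by
              have : (2 : RatFunc F) = io (C 2) := by rw [map_ofNat, map_ofNat]
              rw [this, rd_const]
            have e3 : rd (3 : RatFunc F) = 0 := by
              have : (3 : RatFunc F) = io (C 3) := by rw [map_ofNat, map_ofNat]
              rw [this, rd_const]
            have hn : rd (3 * X ^ 2 + io (C a)) = 6 * X * (io (C c1) * Y) := by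
              rw [rd_add, rd_mul, rd_const, rd_sq, e3, r1]; ring
            have hm : rd (2 * io f * Y) =
                2 * io (derivative f) * Y + 2 * io f * rd Y := by
              rw [rd_mul, rd_mul, e2, rd_io]; ring
            have h2X : rd (2 * X) = 2 * (io (C c1) * Y) := by rw [rd_mul, e2, r1]; ring
            rw [hn, hm, h2X, C_add, map_add]
            exact dbl_der _ _ _ _ _ _ _ h2K hf hY1 k1
      · have hneg : x1 ≠ x2 := hx
        rw [Point.add_of_X_ne hx, good_some]
        set X1 := x1 / io f with hX1
        set Y1 := y1 / io f ^ 2 with hYd1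
        set X2 := x2 / io f with hX2
        set Y2 := y2 / io f ^ 2 with hYd2
        have ex1 : x1 = io f * X1 := by rw [hX1]; field_simp
        have ey1 : y1 = io f ^ 2 * Y1 := by rw [hYd1]; field_simp
        have ex2 : x2 = io f * X2 := by rw [hX2]; field_simp
        have ey2 : y2 = io f ^ 2 * Y2 := by rw [hYd2]; field_simp
        have hd : X1 - X2 ≠ 0 := by
          intro h0
          apply hx
          rw [ex1, ex2, sub_eq_zero.mp h0]
        have hxd : x1 - x2 ≠ 0 := sub_ne_zero.mpr hx
        have eX3 : (TWf f a b).addX x1 x2 ((TWf f a b).slope x1 x2 y1 y2) / io f =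
            io f * ((Y1 - Y2) / (X1 - X2)) ^ 2 - X1 - X2 := by
          rw [slope_of_X_ne hx]
          simp only [addX]
          rw [ex1, ex2, ey1, ey2, ← mul_sub, ← mul_sub]
          field_simp
          ring
        have eY3 : (TWf f a b).addY x1 x2 y1 ((TWf f a b).slope x1 x2 y1 y2) / io f ^ 2 =
            -(((Y1 - Y2) / (X1 - X2)) *
              ((io f * ((Y1 - Y2) / (X1 - X2)) ^ 2 - X1 - X2) - X1) + Y1) := by
          rw [slope_of_X_ne hx]
          simp only [addY, negAddY, addX, negY]
          rw [ex1, ex2, ey1, ey2, ← mul_sub, ← mul_sub]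
          field_simp
          ring
        rw [eX3, eY3]
        refine ⟨?_, ?_⟩
        · apply pos_add a b v1 v2
          exact add_quad _ _ _ _ _ _ _ _ hd E1 E2 rfl
        · rw [rd_sub, rd_sub, rd_mul, rd_io, rd_sq, rd_quot _ _ hd, rd_sub, rd_sub, r1, r2, C_add,
            map_add]
          exact add_der _ _ _ _ _ _ _ _ _ _ _ _ h2K hf hd E1 E2 k1 k2

theorem good_neg {f : F[X]} {a b c : F} {P : (TWf f a b).Point} (h : Good c P) : Good (-c) (-P) := by
  cases P with
  | zero =>
    have h0 : c = 0 := h
    rw [h0, neg_zero]
    exact (good_zero (f := f) (a := a) (b := b)).mpr rfl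
  | some x y hxy =>
    obtain ⟨h1, hd⟩ := (good_some hxy).mp h
    rw [Point.neg_some, good_some]
    refine ⟨h1, ?_⟩
    rw [hd, negY_SW, C_neg, map_neg]
    ring

open Classical in
theorem good_nsmul {f : F[X]} {a b c : F} (hf0 : f ≠ 0) (h2 : (2 : F) ≠ 0) {P : (TWf f a b).Point} (h : Good c P) (n : ℕ) :
    Good ((n : F) * c) (n • P) := by
  induction n with
  | zero =>
    rw [Nat.cast_zero, zero_mul, zero_nsmul]
    exact (good_zero (f := f) (a := a) (b := b)).mpr rfl
  | succ n ih =>
    have := good_add hf0 h2 ih h
    rw [Nat.cast_succ, add_mul, one_mul, succ_nsmul]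
    exact this

open Classical in
theorem good_zsmul {f : F[X]} {a b c : F} (hf0 : f ≠ 0) (h2 : (2 : F) ≠ 0) {P : (TWf f a b).Point} (h : Good c P) (n : ℤ) :
    Good ((n : F) * c) (n • P) := by
  rcases Int.eq_nat_or_neg n with ⟨k, rfl | rfl⟩
  · have := good_nsmul hf0 h2 h k
    rw [natCast_zsmul, Int.cast_natCast]
    exact this
  · have := good_neg (good_nsmul hf0 h2 h k)
    rw [neg_smul, natCast_zsmul, Int.cast_neg, Int.cast_natCast, neg_mul]
    exact this


end

end Pool.Agent.H546
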