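import Pool.Agent.H546.IsoT

set_option autoImplicit false
set_option maxRecDepth 100000
set_option maxHeartbeats 4000000

/-!
# An explicit endomorphism of degree 5 (discriminant `-11`)
-/

namespace Pool.Agent.H546.I11

def Fl : List Q4 := [⟨.ofNat 77, .ofNat 28, .ofNat 0, .ofNat 0⟩, ⟨.negSucc 59, .negSucc 11, .ofNat 0, .ofNat 0⟩, ⟨.ofNat 0, .ofNat 0, .ofNat 0, .ofNat 0⟩, ⟨.ofNat 4, .ofNat 0, .ofNat 0, .ofNat 0⟩]

def n : List Q4 := [⟨.ofNat 51300, .ofNat 5400, .ofNat 0, .ofNat 0⟩, ⟨.negSucc 69249, .negSucc 14749, .ofNat 0, .ofNat 0⟩, ⟨.ofNat 45200, .ofNat 7600, .ofNat 0, .ofNat 0⟩, ⟨.negSucc 9599, .negSucc 299, .ofNat 0, .ofNat 0⟩, ⟨.negSucc 399, .negSucc 199, .ofNat 0, .ofNat 0⟩, ⟨.ofNat 100, .ofNat 0, .ofNat 0, .ofNat 0⟩]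

def n1 : List Q4 := [⟨.negSucc 69249, .negSucc 14749, .ofNat 0, .ofNat 0⟩, ⟨.ofNat 90400, .ofNat 15200, .ofNat 0, .ofNat 0⟩, ⟨.negSucc 28799, .negSucc 899, .ofNat 0, .ofNat 0⟩, ⟨.negSucc 1599, .negSucc 799, .ofNat 0, .ofNat 0⟩, ⟨.ofNat 500, .ofNat 0, .ofNat 0, .ofNat 0⟩]

def h : List Q4 := [⟨.negSucc 12, .ofNat 19, .ofNat 0, .ofNat 0⟩, ⟨.negSucc 19, .negSucc 9, .ofNat 0, .ofNat 0⟩, ⟨.ofNat 10, .ofNat 0, .ofNat 0, .ofNat 0⟩]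

def h1 : List Q4 := [⟨.negSucc 19, .negSucc 9, .ofNat 0, .ofNat 0⟩, ⟨.ofNat 20, .ofNat 0, .ofNat 0, .ofNat 0⟩]

def a1 : List Q4 := [⟨.ofNat 3983000, .negSucc 1123999, .ofNat 0, .ofNat 0⟩, ⟨.negSucc 4589499, .ofNat 2507500, .ofNat 0, .ofNat 0⟩, ⟨.negSucc 265999, .negSucc 1890999, .ofNat 0, .ofNat 0⟩, ⟨.ofNat 1569000, .ofNat 438000, .ofNat 0, .ofNat 0⟩, ⟨.negSucc 350499, .ofNat 32500, .ofNat 0, .ofNat 0⟩, ⟨.negSucc 25999, .negSucc 12999, .ofNat 0, .ofNat 0⟩, ⟨.ofNat 5000, .ofNat 0, .ofNat 0, .ofNat 0⟩]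

def a2 : List Q4 := [⟨.negSucc 431999, .negSucc 620999, .ofNat 0, .ofNat 0⟩, ⟨.ofNat 788500, .ofNat 1095500, .ofNat 0, .ofNat 0⟩, ⟨.negSucc 1452999, .negSucc 898999, .ofNat 0, .ofNat 0⟩, ⟨.ofNat 1063000, .ofNat 254000, .ofNat 0, .ofNat 0⟩, ⟨.negSucc 205999, .ofNat 2000, .ofNat 0, .ofNat 0⟩, ⟨.negSucc 9999, .negSucc 4999, .ofNat 0, .ofNat 0⟩, ⟨.ofNat 2000, .ofNat 0, .ofNat 0, .ofNat 0⟩]

def W : List Q4 := [⟨.ofNat 4847000, .ofNat 118000, .ofNat 0, .ofNat 0⟩, ⟨.negSucc 6166499, .ofNat 316500, .ofNat 0, .ofNat 0⟩, ⟨.ofNat 2640000, .negSucc 92999, .ofNat 0, .ofNat 0⟩, ⟨.negSucc 556999, .negSucc 69999, .ofNat 0, .ofNat 0⟩, ⟨.ofNat 61500, .ofNat 28500, .ofNat 0, .ofNat 0⟩, ⟨.negSucc 5999, .negSucc 2999, .ofNat 0, .ofNat 0⟩, ⟨.ofNat 1000, .ofNat 0, .ofNat 0, .ofNat 0⟩]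

def W2 : List Q4 := [⟨.ofNat 23340245000000, .ofNat 1143892000000, .ofNat 0, .ofNat 0⟩, ⟨.negSucc 60599684999999, .ofNat 1612857000000, .ofNat 0, .ofNat 0⟩, ⟨.ofNat 62757415500000, .negSucc 4181896499999, .ofNat 0, .ofNat 0⟩, ⟨.negSucc 37129398999999, .ofNat 2008057000000, .ofNat 0, .ofNat 0⟩, ⟨.ofNat 14753547000000, .ofNat 310482000000, .ofNat 0, .ofNat 0⟩, ⟨.negSucc 4091480999999, .negSucc 609056999999, .ofNat 0, .ofNat 0⟩, ⟨.ofNat 743961000000, .ofNat 250458000000, .ofNat 0, .ofNat 0⟩, ⟨.negSucc 74771999999, .negSucc 54449999999, .ofNat 0, .ofNat 0⟩, ⟨.ofNat 2191500000, .ofNat 7501500000, .ofNat 0, .ofNat 0⟩, ⟨.ofNat 29000000, .negSucc 850999999, .ofNat 0, .ofNat 0⟩, ⟨.ofNat 60000000, .ofNat 93000000, .ofNat 0, .ofNat 0⟩, ⟨.negSucc 11999999, .negSucc 5999999, .ofNat 0, .ofNat 0⟩, ⟨.ofNat 1000000, .ofNat 0, .ofNat 0, .ofNat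 0⟩]

def T1 : List Q4 := [⟨.ofNat 1444880129000000, .ofNat 741606544000000, .ofNat 0, .ofNat 0⟩, ⟨.negSucc 6412356656999999, .negSucc 1921317650999999, .ofNat 0, .ofNat 0⟩, ⟨.ofNat 9969223339500000, .ofNat 2065626403500000, .ofNat 0, .ofNat 0⟩, ⟨.negSucc 7701539566999999, .negSucc 1382602410999999, .ofNat 0, .ofNat 0⟩, ⟨.ofNat 3290823387000000, .ofNat 768527226000000, .ofNat 0, .ofNat 0⟩, ⟨.negSucc 720654014999999, .negSucc 373857926999999, .ofNat 0, .ofNat 0⟩, ⟨.negSucc 3280326999999, .ofNat 133789594000000, .ofNat 0, .ofNat 0⟩, ⟨.ofNat 58450140000000, .negSucc 28999349999999, .ofNat 0, .ofNat 0⟩, ⟨.negSucc 21208720499999, .ofNat 2367013500000, .ofNat 0, .ofNat 0⟩, ⟨.ofNat 4098893000000, .ofNat 460729000000, .ofNat 0, .ofNat 0⟩, ⟨.negSucc 437183999999, .negSucc 158246999999, .ofNat 0, .ofNat 0⟩, ⟨.ofNat 18366000000, .ofNat 22908000000,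 .ofNat 0, .ofNat 0⟩, ⟨.ofNat 121000000, .negSucc 2871999999, .ofNat 0, .ofNat 0⟩, ⟨.ofNat 180000000, .ofNat 360000000, .ofNat 0, .ofNat 0⟩, ⟨.negSucc 47999999, .negSucc 23999999, .ofNat 0, .ofNat 0⟩, ⟨.ofNat 4000000, .ofNat 0, .ofNat 0, .ofNat 0⟩]

def n2 : List Q4 := [⟨.ofNat 2310930000, .ofNat 554040000, .ofNat 0, .ofNat 0⟩, ⟨.negSucc 5352749999, .negSucc 2261249999, .ofNat 0, .ofNat 0⟩, ⟨.ofNat 6137015000, .ofNat 3310795000, .ofNat 0, .ofNat 0⟩, ⟨.negSucc 4743319999, .negSucc 2520459999, .ofNat 0, .ofNat 0⟩, ⟨.ofNat 2622650000, .ofNat 986950000, .ofNat 0, .ofNat 0⟩, ⟨.negSucc 816919999, .negSucc 132459999, .ofNat 0, .ofNat 0⟩, ⟨.ofNat 74600000, .negSucc 21349999, .ofNat 0, .ofNat 0⟩, ⟨.ofNat 15400000, .ofNat 5600000, .ofNat 0, .ofNat 0⟩, ⟨.negSucc 2199999, .ofNat 100000, .ofNat 0, .ofNat 0⟩, ⟨.negSucc 79999, .negSucc 39999,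 .ofNat 0, .ofNat 0⟩, ⟨.ofNat 10000, .ofNat 0, .ofNat 0, .ofNat 0⟩]

def n3 : List Q4 := [⟨.ofNat 85640733000000, .ofNat 40901274000000, .ofNat 0, .ofNat 0⟩, ⟨.negSucc 210416737499999, .negSucc 217360462499999, .ofNat 0, .ofNat 0⟩, ⟨.ofNat 180094063500000, .ofNat 481133965500000, .ofNat 0, .ofNat 0⟩, ⟨.negSucc 54689187999999, .negSucc 623608513999999, .ofNat 0, .ofNat 0⟩, ⟨.ofNat 40276797000000, .ofNat 528217941000000, .ofNat 0, .ofNat 0⟩, ⟨.negSucc 109805632499999, .negSucc 299805247499999, .ofNat 0, .ofNat 0⟩, ⟨.ofNat 117722027000000, .ofNat 107913856000000, .ofNat 0, .ofNat 0⟩, ⟨.negSucc 58978322999999, .negSucc 19420793999999, .ofNat 0, .ofNat 0⟩, ⟨.ofNat 12933342000000, .negSucc 674423999999, .ofNat 0, .ofNat 0⟩, ⟨.negSucc 94226999999, .ofNat 890844000000, .ofNat 0, .ofNat 0⟩, ⟨.negSucc 396098999999, .negSucc 86201999999,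 .ofNat 0, .ofNat 0⟩, ⟨.ofNat 34105500000, .negSucc 10318499999, .ofNat 0, .ofNat 0⟩, ⟨.ofNat 3728000000, .ofNat 1444000000, .ofNat 0, .ofNat 0⟩, ⟨.negSucc 371999999, .ofNat 39000000, .ofNat 0, .ofNat 0⟩, ⟨.negSucc 11999999, .negSucc 5999999, .ofNat 0, .ofNat 0⟩, ⟨.ofNat 1000000, .ofNat 0, .ofNat 0, .ofNat 0⟩]

def h2 : List Q4 := [⟨.negSucc 3801, .negSucc 493, .ofNat 0, .ofNat 0⟩, ⟨.ofNat 4700, .negSucc 499, .ofNat 0, .ofNat 0⟩, ⟨.negSucc 959, .ofNat 780, .ofNat 0, .ofNat 0⟩, ⟨.negSucc 399, .negSucc 199, .ofNat 0, .ofNat 0⟩, ⟨.ofNat 100, .ofNat 0, .ofNat 0, .ofNat 0⟩]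

def h4 : List Q4 := [⟨.ofNat 11770808, .ofNat 3756376, .ofNat 0, .ofNat 0⟩, ⟨.negSucc 41172799, .negSucc 841599, .ofNat 0, .ofNat 0⟩, ⟨.ofNat 35116880, .negSucc 9682639, .ofNat 0, .ofNat 0⟩, ⟨.ofNat 424000, .ofNat 10208000, .ofNat 0, .ofNat 0⟩, ⟨.negSucc 12491199, .negSucc 3076399, .ofNat 0, .ofNat 0⟩, ⟨.ofNat 5140000, .negSucc 339999, .ofNat 0, .ofNat 0⟩, ⟨.negSucc 471999, .ofNat 316000, .ofNat 0, .ofNat 0⟩, ⟨.negSucc 79999, .negSucc 39999, .ofNat 0, .ofNat 0⟩, ⟨.ofNat 10000, .ofNat 0, .ofNat 0, .ofNat 0⟩]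

def h6 : List Q4 := [⟨.negSucc 24340464831, .negSucc 20096520703, .ofNat 0, .ofNat 0⟩, ⟨.ofNat 227948596800, .ofNat 35308689600, .ofNat 0, .ofNat 0⟩, ⟨.negSucc 427800485279, .ofNat 41671647840, .ofNat 0, .ofNat 0⟩, ⟨.ofNat 215955560000, .negSucc 137250679999, .ofNat 0, .ofNat 0⟩, ⟨.ofNat 154070712000, .ofNat 111266064000, .ofNat 0, .ofNat 0⟩, ⟨.negSucc 224476199999, .negSucc 22163399999, .ofNat 0, .ofNat 0⟩, ⟨.ofNat 89986440000, .negSucc 17062319999, .ofNat 0, .ofNat 0⟩, ⟨.negSucc 4139999999, .ofNat 10998000000, .ofNat 0, .ofNat 0⟩, ⟨.negSucc 6945299999, .negSucc 2024099999, .ofNat 0, .ofNat 0⟩, ⟨.ofNat 1865000000, .negSucc 94999999, .ofNat 0, .ofNat 0⟩, ⟨.negSucc 112799999, .ofNat 71400000, .ofNat 0, .ofNat 0⟩, ⟨.negSucc 11999999, .negSucc 5999999, .ofNat 0, .ofNat 0⟩, ⟨.ofNat 1000000, .ofNat 0, .ofNat 0, .ofNat 0⟩]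

def nh : List Q4 := [⟨.ofNat 380713716000, .ofNat 256264452000, .ofNat 0, .ofNat 0⟩, ⟨.negSucc 2267830047999, .negSucc 699255655999, .ofNat 0, .ofNat 0⟩, ⟨.ofNat 5309319048000, .ofNat 617737656000, .ofNat 0, .ofNat 0⟩, ⟨.negSucc 6478712795999, .ofNat 287962788000, .ofNat 0, .ofNat 0⟩, ⟨.ofNat 3961614584000, .negSucc 1092622351999, .ofNat 0, .ofNat 0⟩, ⟨.negSucc 537756379199, .ofNat 963589017600, .ofNat 0, .ofNat 0⟩, ⟨.negSucc 771359039999, .negSucc 373952879999, .ofNat 0, .ofNat 0⟩, ⟨.ofNat 478544088000, .ofNat 34435536000, .ofNat 0, .ofNat 0⟩, ⟨.negSucc 100384199999, .ofNat 21171600000, .ofNat 0, .ofNat 0⟩, ⟨.ofNat 556380000, .negSucc 6655139999, .ofNat 0, .ofNat 0⟩, ⟨.ofNat 2486000000, .ofNat 418000000, .ofNat 0, .ofNat 0⟩, ⟨.negSucc 199199999, .ofNat 60600000, .ofNat 0, .ofNat 0⟩, ⟨.negSucc 11999999, .negSucc 5999999, .ofNat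 0, .ofNat 0⟩, ⟨.ofNat 1000000, .ofNat 0, .ofNat 0, .ofNat 0⟩]

def A : List Q4 := [⟨.ofNat 1431, .negSucc 431, .ofNat 0, .ofNat 0⟩, ⟨.ofNat 514, .ofNat 142, .ofNat 0, .ofNat 0⟩]

def B : List Q4 := [⟨.ofNat 984150, .ofNat 328050, .ofNat 0, .ofNat 0⟩, ⟨.negSucc 547964, .negSucc 611144, .ofNat 0, .ofNat 0⟩, ⟨.ofNat 387900, .ofNat 175950, .ofNat 0, .ofNat 0⟩, ⟨.negSucc 19649, .ofNat 12300, .ofNat 0, .ofNat 0⟩, ⟨.negSucc 5139, .negSucc 1419, .ofNat 0, .ofNat 0⟩]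

def AM : Q4 := ⟨.ofNat 1668, .ofNat 204, .ofNat 0, .ofNat 0⟩

def BM : Q4 := ⟨.negSucc 8238, .ofNat 3808, .ofNat 0, .ofNat 0⟩

def m2 : Q4 := ⟨.negSucc 0, .negSucc 2, .ofNat 0, .ofNat 0⟩

def g : Q4 := ⟨.ofNat 17, .ofNat 11, .ofNat 0, .ofNat 0⟩

theorem ok : IsoT.Ok (-11) (-3) AM BM m2 g (4) (17714700) (1620) Fl n n1 h h1 a1 a2 W W2 T1 n2 n3 h2 h4 h6 nh A B where
  k1 := by decide +kernel
  k2 := by decide +kernel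
  k3 := by decide +kernel
  k4 := by decide +kernel
  k5 := by decide +kernel
  k6 := by decide +kernel
  k7 := by decide +kernel
  k8 := by decide +kernel
  k9 := by decide +kernel
  k10 := by decide +kernel
  k11 := by decide +kernel
  k12 := by decide +kernel
  k13 := by decide +kernel
  k14 := by decide +kernel
  k15 := by decide +kernel
  k16 := by decide +kernel
  k17 := by decide +kernel

end Pool.Agent.H546.I11
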