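import Pool.Agent.H546.PL
import Pool.Agent.H546.Dat

set_option autoImplicit false

/-!
# Isogenies of the cubic family from verified lists
-/

namespace Pool.Agent.H546

open Polynomial

namespace IsoT

def q2 : Q4 := ⟨2, 0, 0, 0⟩
def qm2 : Q4 := ⟨-2, 0, 0, 0⟩

/-- an integer as a quadruple -/
def qi (n : Int) : Q4 := ⟨n, 0, 0, 0⟩

/-- the value of the list at three -/
def lev : List Q4 → Q4
  | [] => Q4.z0
  | a :: as => a.add ((lev as).add ((lev as).add (lev as)))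

section

variable {O : Type*} [CommRing O] (s r : O)

theorem e4_q2 : e4 s r q2 = 2 := by simp [e4, q2]
theorem e4_qm2 : e4 s r qm2 = -2 := by simp [e4, qm2]
theorem e4_qi (n : Int) : e4 s r (qi n) = n := by simp [e4, qi]

theorem ev_lev (p : List Q4) : (ev s r p).eval 3 = e4 s r (lev p) := by
  induction p with
  | nil => simp [ev, lev, e4_z0]
  | cons a as ih =>
    rw [ev, eval_add, eval_C, eval_mul, eval_X, ih, lev, e4_add, e4_add, e4_add]
    ring

end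

/-- the list data of an isogeny: all the checks -/
structure Ok (D E : Int) (AM BM m2 g : Q4) (KF R G : Int)
    (Fl n n1 h h1 a1 a2 W W2 T1 n2 n3 h2 h4 h6 nh A B : List Q4) : Prop where
  k1 : leq (lder n) n1 = true
  k2 : leq (lder h) h1 = true
  k3 : leq (lmul D E n1 h) a1 = true
  k4 : leq (lmul D E n h1) a2 = true
  k5 : leq (ladd a1 (lsm D E qm2 a2)) W = true
  k6 : leq (lmul D E W W) W2 = true
  k7 : leq (lmul D E Fl W2) T1 = true
  k8 : leq (lmul D E n n) n2 = true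
  k9 : leq (lmul D E n2 n) n3 = true
  k10 : leq (lmul D E h h) h2 = true
  k11 : leq (lmul D E h2 h2) h4 = true
  k12 : leq (lmul D E h4 h2) h6 = true
  k13 : leq (lmul D E n h4) nh = true
  k14 : leq (ladd (ladd (lsm D E (qi KF) n3) (lsm D E AM nh)) (lsm D E BM h6)) T1 = true
  k15 : leq (ladd (lmul D E A n) (lmul D E B h)) [qi R] = true
  k16 : (Q4.mul D E q2 (lev n)).beq (Q4.mul D E (qi 3) (Q4.mul D E m2 (Q4.mul D E (lev h) (lev h)))) = true
  k17 : (Q4.mul D E (lev h) g).beq (qi G) = true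

section

variable {O : Type*} [CommRing O] [IsDomain O] {s r : O} {D E : Int} {AM BM m2 g : Q4} {KF R G : Int}
  {Fl n n1 h h1 a1 a2 W W2 T1 n2 n3 h2 h4 h6 nh A B : List Q4}

theorem Ok.ode (ok : Ok D E AM BM m2 g KF R G Fl n n1 h h1 a1 a2 W W2 T1 n2 n3 h2 h4 h6 nh A B)
    (hs : s ^ 2 = D) (hr : r ^ 2 = E) {a1' b1' a b m : O} (hKF : (KF : O) ≠ 0)
    (hF : ev s r Fl = C (KF : O) * cub a1' b1') (hA : e4 s r AM = KF * (a * m ^ 4))
    (hB : e4 s r BM = KF * (b * m ^ 6)) :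
    cub a1' b1' * C 1 * (derivative (ev s r n) * ev s r h - 2 * ev s r n * derivative (ev s r h)) ^ 2 =
      ev s r n ^ 3 + C (a * m ^ 4) * C 1 ^ 2 * ev s r n * ev s r h ^ 4 +
        C (b * m ^ 6) * C 1 ^ 3 * ev s r h ^ 6 := by
  have e1 := ev_eq s r _ _ ok.k1
  have e2 := ev_eq s r _ _ ok.k2
  have e3 := ev_eq s r _ _ ok.k3
  have e4' := ev_eq s r _ _ ok.k4
  have e5 := ev_eq s r _ _ ok.k5
  have e6 := ev_eq s r _ _ ok.k6
  have e7 := ev_eq s r _ _ ok.k7
  have e8 := ev_eq s r _ _ ok.k8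
  have e9 := ev_eq s r _ _ ok.k9
  have e10 := ev_eq s r _ _ ok.k10
  have e11 := ev_eq s r _ _ ok.k11
  have e12 := ev_eq s r _ _ ok.k12
  have e13 := ev_eq s r _ _ ok.k13
  have e14 := ev_eq s r _ _ ok.k14
  simp only [ev_add, ev_der, ev_mul hs hr, ev_sm hs hr, e4_qm2, e4_qi] at e1 e2 e3 e4' e5 e6 e7 e8 e9 e10 e11 e12 e13 e14
  rw [hA, hB] at e14
  rw [hF] at e7
  have hC : (C (KF : O) : O[X]) ≠ 0 := C_ne_zero.mpr hKF
  apply mul_left_cancel₀ hC
  have hW : derivative (ev s r n) * ev s r h - 2 * ev s r n * derivative (ev s r h) = ev s r W := by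
    rw [← e5, ← e3, ← e4', e1, e2]
    simp only [C_neg, map_ofNat]
    ring
  rw [hW]
  have h6' : ev s r h ^ 6 = ev s r h6 := by
    rw [← e12, ← e11, ← e10]; ring
  have hn3 : ev s r n ^ 3 = ev s r n3 := by
    rw [← e9, ← e8]; ring
  have hnh : ev s r n * ev s r h ^ 4 = ev s r nh := by
    rw [← e13, ← e11, ← e10]; ring
  have hT : C (KF : O) * cub a1' b1' * ev s r W ^ 2 = ev s r T1 := by
    rw [← e7, ← e6]; ring
  simp only [C_mul, C_1] at e14 ⊢
  rw [h6', hn3]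
  linear_combination hT - e14 - C (KF : O) * (C a * C (m ^ 4)) * hnh

theorem Ok.bez (ok : Ok D E AM BM m2 g KF R G Fl n n1 h h1 a1 a2 W W2 T1 n2 n3 h2 h4 h6 nh A B)
    (hs : s ^ 2 = D) (hr : r ^ 2 = E) : ev s r A * ev s r n + ev s r B * ev s r h = C (R : O) := by
  have e15 := ev_eq s r _ _ ok.k15
  simp only [ev_add, ev_mul hs hr, ev, e4_qi] at e15
  rw [e15]; ring

theorem Ok.three (ok : Ok D E AM BM m2 g KF R G Fl n n1 h h1 a1 a2 W W2 T1 n2 n3 h2 h4 h6 nh A B)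
    (hs : s ^ 2 = D) (hr : r ^ 2 = E) :
    2 * (ev s r n).eval 3 = 3 * (e4 s r m2 * (ev s r h).eval 3 ^ 2) := by
  have e16 := congrArg (e4 s r) (Q4.eq_of_beq ok.k16)
  simp only [e4_mul hs hr, e4_q2, e4_qi] at e16
  rw [ev_lev, ev_lev, e16]
  push_cast
  ring

theorem Ok.unit (ok : Ok D E AM BM m2 g KF R G Fl n n1 h h1 a1 a2 W W2 T1 n2 n3 h2 h4 h6 nh A B)
    (hs : s ^ 2 = D) (hr : r ^ 2 = E) : (ev s r h).eval 3 * e4 s r g = (G : O) := by
  have e17 := congrArg (e4 s r) (Q4.eq_of_beq ok.k17)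
  simp only [e4_mul hs hr, e4_qi] at e17
  rw [ev_lev, e17]

end

end IsoT

end Pool.Agent.H546
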