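import Pool.Agent.H546.QKey

set_option autoImplicit false

/-!
# Uniqueness of the solution of the differential equation of the quartic family
-/

namespace Pool.Agent.H546

section uniq

open PowerSeries

variable {O : Type*} [CommRing O] [IsDomain O]

/-- the differential equation -/
def Ode4 (z z' c : O) (R : O⟦X⟧) : Prop :=
  X * (1 - 4 * X + C (4 * z) * X ^ 2) * (d⁄dX O R) ^ 2 = C c * (R * (1 - 4 * R + C (4 * z') * R ^ 2))

omit [IsDomain O] in
theorem der_Xpow (m : ℕ) (F : O⟦X⟧) : d⁄dX O (X ^ (m + 1) * F) = X ^ m * (((m + 1 : ℕ) : O⟦X⟧) * F + X * d⁄dX O F) := by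
  rw [Derivation.leibniz, derivative_pow, derivative_X, smul_eq_mul, smul_eq_mul, Nat.add_sub_cancel]
  push_cast
  ring

omit [IsDomain O] in
theorem exists_fac (f : O⟦X⟧) (hf : f ≠ 0) : ∃ (m : ℕ) (F : O⟦X⟧), f = X ^ m * F ∧ constantCoeff F ≠ 0 :=
  ⟨f.order.toNat, divXPowOrder f, X_pow_order_mul_divXPowOrder.symm, fun h =>
    hf (constantCoeff_divXPowOrder_eq_zero_iff.mp h)⟩

theorem Xpow_cancel (m : ℕ) {f g : O⟦X⟧} (h : X ^ m * f = X ^ m * g) : f = g :=
  mul_left_cancel₀ (pow_ne_zero m X_ne_zero) h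

theorem ode_one {z z' c : O} (hc : c ≠ 0) {R : O⟦X⟧} (h : Ode4 z z' c R) (hR : R ≠ 0)
    (h0 : constantCoeff R = 0) : coeff 1 R = c := by
  obtain ⟨m, F, rfl, hF⟩ := exists_fac R hR
  rcases m with _ | m
  · rw [pow_zero, one_mul] at h0; exact absurd h0 hF
  unfold Ode4 at h
  rw [der_Xpow] at h
  rcases m with _ | m
  · have h1 : X ^ 1 * ((1 - 4 * X + C (4 * z) * X ^ 2) * (((0 + 1 : ℕ) : O⟦X⟧) * F + X * d⁄dX O F) ^ 2) =
        X ^ 1 * (C c * F * (1 - 4 * (X ^ (0 + 1) * F) + C (4 * z') * (X ^ (0 + 1) * F) ^ 2)) := by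
      linear_combination h
    have h2 := congrArg constantCoeff (Xpow_cancel 1 h1)
    simp at h2
    have h3 : constantCoeff F = c := by
      apply mul_right_cancel₀ hF
      rw [← pow_two, h2]
    rw [zero_add, pow_one, show (1 : ℕ) = 0 + 1 from rfl, coeff_succ_X_mul, coeff_zero_eq_constantCoeff_apply, h3]
  · exfalso
    have h1 : X ^ (m + 1 + 1) * (X ^ (m + 1) * ((1 - 4 * X + C (4 * z) * X ^ 2) *
        (((m + 1 + 1 : ℕ) : O⟦X⟧) * F + X * d⁄dX O F) ^ 2)) =
        X ^ (m + 1 + 1) * (C c * F * (1 - 4 * (X ^ (m + 1 + 1) * F) + C (4 * z') * (X ^ (m + 1 + 1) * F) ^ 2)) := by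
      linear_combination h
    have h2 := congrArg constantCoeff (Xpow_cancel _ h1)
    simp at h2
    rcases h2 with h2 | h2
    · exact hc h2
    · exact hF h2

theorem ode_uniq [CharZero O] {z z' c : O} (hc : c ≠ 0) {R T : O⟦X⟧} (h : Ode4 z z' c R) (h' : Ode4 z z' c T)
    (hR : R ≠ 0) (hT : T ≠ 0) (hR0 : constantCoeff R = 0) (hT0 : constantCoeff T = 0) : R = T := by
  by_contra hne
  have hf : R - T ≠ 0 := sub_ne_zero.mpr hne
  have hR1 := ode_one hc h hR hR0
  have hT1 := ode_one hc h' hT hT0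
  obtain ⟨m, F, hF, hF0⟩ := exists_fac _ hf
  rcases m with _ | _ | m
  · rw [pow_zero, one_mul] at hF
    rw [← hF, map_sub, hR0, hT0, sub_zero] at hF0
    exact hF0 rfl
  · have h2 := congrArg (coeff 1) hF
    rw [map_sub, hR1, hT1, sub_self, zero_add, pow_one, show (1 : ℕ) = 0 + 1 from rfl, coeff_succ_X_mul,
      coeff_zero_eq_constantCoeff_apply] at h2
    exact hF0 h2.symm
  · have hd : d⁄dX O R - d⁄dX O T = X ^ (m + 1) * (((m + 1 + 1 : ℕ) : O⟦X⟧) * F + X * d⁄dX O F) := by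
      rw [← map_sub, hF, der_Xpow]
    unfold Ode4 at h h'
    have h1 : X ^ (m + 1 + 1) * ((1 - 4 * X + C (4 * z) * X ^ 2) *
        (((m + 1 + 1 : ℕ) : O⟦X⟧) * F + X * d⁄dX O F) * (d⁄dX O R + d⁄dX O T)) =
        X ^ (m + 1 + 1) * (C c * F * (1 - 4 * (R + T) + C (4 * z') * (R ^ 2 + R * T + T ^ 2))) := by
      linear_combination h - h' - (X * (1 - 4 * X + C (4 * z) * X ^ 2) * (d⁄dX O R + d⁄dX O T)) * hd +
        (C c * (1 - 4 * (R + T) + C (4 * z') * (R ^ 2 + R * T + T ^ 2))) * hF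
    have h2 := congrArg constantCoeff (Xpow_cancel _ h1)
    have e1 : constantCoeff (d⁄dX O R) = c := by
      rw [← coeff_zero_eq_constantCoeff_apply, coeff_derivative, zero_add, hR1]; simp
    have e2 : constantCoeff (d⁄dX O T) = c := by
      rw [← coeff_zero_eq_constantCoeff_apply, coeff_derivative, zero_add, hT1]; simp
    simp only [map_mul, map_add, map_sub, map_one, map_pow, constantCoeff_C, constantCoeff_X, hR0, hT0, e1, e2,
      map_natCast, mul_zero, zero_mul, sub_zero, add_zero, map_ofNat] at h2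
    have h3 : ((2 * m + 3 : ℕ) : O) * (c * constantCoeff F) = 0 := by
      push_cast at h2 ⊢
      linear_combination h2
    have h4 : ((2 * m + 3 : ℕ) : O) ≠ 0 := by exact_mod_cast (by omega : 2 * m + 3 ≠ 0)
    exact (mul_ne_zero h4 (mul_ne_zero hc hF0)) h3

omit [IsDomain O] in
theorem ode_frac {z z' κ μ : O} {n d m i : O⟦X⟧} (hi : i * d = 1)
    (hw : d⁄dX O n * d - n * d⁄dX O d = C κ * m)
    (ode : X * (1 - 4 * X + C (4 * z) * X ^ 2) * m ^ 2 =
      C μ * (n * d * (d ^ 2 - 4 * d * n + C (4 * z') * n ^ 2))) :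
    Ode4 z z' (κ ^ 2 * μ) (n * i) := by
  have hi' : d⁄dX O i = - i ^ 2 * d⁄dX O d := by
    have h := congrArg (d⁄dX O) hi
    rw [Derivation.leibniz, derivative_one, smul_eq_mul, smul_eq_mul] at h
    linear_combination i * h - (d⁄dX O i) * hi
  have hR : d⁄dX O (n * i) = C κ * m * i ^ 2 := by
    rw [Derivation.leibniz, smul_eq_mul, smul_eq_mul, hi']
    linear_combination i ^ 2 * hw - i * (d⁄dX O n) * hi
  have e : (C (κ ^ 2 * μ) : O⟦X⟧) = C κ ^ 2 * C μ := by rw [map_mul, map_pow]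
  unfold Ode4
  rw [hR, e]
  linear_combination (i ^ 4 * C κ ^ 2) * ode +
    (C κ ^ 2 * C μ * n * i * (((i * d) ^ 2 + i * d + 1) - 4 * n * i * (i * d + 1) + C (4 * z') * n ^ 2 * i ^ 2)) * hi

end uniq

end Pool.Agent.H546
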