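import Pool.Agent.H546.K2a

set_option autoImplicit false

/-!
# The coefficient of the square root series of the quartic family modulo `p²`
-/

namespace Pool.Agent.H546

open Polynomial

variable {O K k : Type*} [CommRing O] [IsDomain O] [Field K] [Algebra O K] [Field k]
  (S : DV O K k)

/-- passage to the parameter `U = 1/V` -/
theorem to_uv' {p : ℕ} [hp : Fact p.Prime] [CharP k p] (hp2 : p ≠ 2) {z z' w : O} (hz' : S.red z' ≠ 0)
    (hw : S.red w ≠ 0) {N D M : O[X]} (hN : N.map S.red = X ^ p) (hD : D.map S.red = 1)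
    (hNd : N.natDegree ≤ p) (hDd : D.natDegree < p) (hwr : wr N D = C S.q * M)
    (ode : gv z * M ^ 2 = C w ^ 2 * tv z' N D) :
    (reflect p D).map S.red = X ^ p ∧ (reflect p N).map S.red = 1 ∧ (reflect p D).natDegree ≤ p ∧
      (reflect p N).natDegree < p ∧ (reflect p D).coeff 0 = 0 ∧
      wr (reflect p D) (reflect p N) = C S.q * reflect (2 * p - 2) M ∧
      X * gu z * (reflect (2 * p - 2) M) ^ 2 =
        C w ^ 2 * (reflect p D * reflect p N * ((reflect p N) ^ 2 - 4 * reflect p N * reflect p D +
          C (4 * z') * (reflect p D) ^ 2)) := by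
  unfold gu
  have hN0 := v_origin S hp2 hz' hw hN hD ode
  have hp0 := hp.out.pos
  have hp2' := hp.out.two_le
  have hqC : (C S.q : O[X]) ≠ 0 := C_ne_zero.mpr S.q_ne
  have hMd : M.natDegree ≤ 2 * p - 2 := by
    rw [← natDegree_C_mul S.q_ne, ← hwr, wr]
    refine (natDegree_sub_le _ _).trans (max_le ?_ ?_)
    · refine natDegree_mul_le.trans ?_
      have := natDegree_derivative_le N
      omega
    · refine natDegree_mul_le.trans ?_
      have := natDegree_derivative_le D
      omega
  have hm : ∀ (m : ℕ) (P : O[X]), (reflect m P).map S.red = reflect m (P.map S.red) := by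
    intro m P
    ext i; simp [coeff_reflect]
  have hdeg : ∀ P : O[X], P.natDegree ≤ p → (reflect p P).natDegree ≤ p := by
    intro P hP
    rw [natDegree_le_iff_coeff_eq_zero]
    intro i hi
    rw [coeff_reflect, revAt_eq_self_of_lt hi, coeff_eq_zero_of_natDegree_lt (lt_of_le_of_lt hP hi)]
  have hX : reflect p (X ^ p : k[X]) = 1 := by
    have := reflect_C_mul_X_pow p p (c := (1 : k))
    rw [C_1, one_mul, one_mul, revAt_le le_rfl, Nat.sub_self, pow_zero] at this
    exact this
  have h1 : reflect p (1 : k[X]) = X ^ p := by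
    have := reflect_C_mul_X_pow p 0 (c := (1 : k))
    rw [C_1, one_mul, one_mul, pow_zero, revAt_le (Nat.zero_le _), Nat.sub_zero] at this
    exact this
  refine ⟨?_, ?_, hdeg D hDd.le, ?_, ?_, ?_, ?_⟩
  · rw [hm, hD, h1]
  · rw [hm, hN, hX]
  · have h := hdeg N hNd
    have hc : (reflect p N).coeff p = 0 := by
      rw [coeff_reflect, revAt_le le_rfl, Nat.sub_self, hN0]
    rcases h.lt_or_eq with h2 | h2
    · exact h2
    · have h3 : (reflect p N).leadingCoeff = 0 := by rw [leadingCoeff, h2, hc]
      rw [leadingCoeff_eq_zero] at h3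
      rw [h3, natDegree_zero]; exact hp0
  · rw [coeff_reflect, revAt_le (Nat.zero_le _), Nat.sub_zero]
    exact coeff_eq_zero_of_natDegree_lt hDd
  · exact wr_reflect hp0 hNd hDd.le hMd hwr
  · have hgd : (gv z).natDegree ≤ 4 := by
      unfold gv; compute_degree!
    have hM2 : (M ^ 2).natDegree ≤ (2 * p - 2) + (2 * p - 2) := by
      rw [pow_two]
      exact natDegree_mul_le.trans (by omega)
    have l1 := reflect_mul (gv z) (M ^ 2) hgd hM2
    have l2 := reflect_mul M M hMd hMd
    rw [← pow_two] at l2
    rw [l2, gv_reflect] at l1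
    -- the right side
    have hDp : D.natDegree ≤ p := hDd.le
    have r1 := reflect_mul N N hNd hNd
    have d1 : (N * N).natDegree ≤ p + p := natDegree_mul_le.trans (by omega)
    have r2 := reflect_mul (N * N) N d1 hNd
    have r3 := reflect_mul (N * N) D d1 hDp
    have r4 := reflect_mul N D hNd hDp
    have d2 : (N * D).natDegree ≤ p + p := natDegree_mul_le.trans (by omega)
    have r5 := reflect_mul (N * D) D d2 hDp
    have d3 : (N * N * N - C 4 * (N * N * D) + C (4 * z') * (N * D * D)).natDegree ≤ p + p + p := by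
      have a1 : (N * N * N).natDegree ≤ p + p + p := natDegree_mul_le.trans (by omega)
      have a2 : (N * N * D).natDegree ≤ p + p + p := natDegree_mul_le.trans (by omega)
      have a3 : (N * D * D).natDegree ≤ p + p + p := natDegree_mul_le.trans (by omega)
      refine (natDegree_add_le _ _).trans (max_le ((natDegree_sub_le _ _).trans (max_le a1 ?_)) ?_)
      · exact (natDegree_C_mul_le _ _).trans a2
      · exact (natDegree_C_mul_le _ _).trans a3
    have r6 := reflect_mul D _ hDp d3
    have r7 : reflect (p + p + p) (N * N * N - C 4 * (N * N * D) + C (4 * z') * (N * D * D)) =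
        reflect (p + p + p) (N * N * N) - C 4 * reflect (p + p + p) (N * N * D) +
          C (4 * z') * reflect (p + p + p) (N * D * D) := by
      rw [← reflect_C_mul, ← reflect_C_mul]
      ext i; simp [coeff_reflect]
    rw [r7, r2, r3, r5, r1, r4] at r6
    have hw2 : (C w ^ 2 : O[X]) = C (w ^ 2) := by rw [C_pow]
    have e1 : gv z * M ^ 2 = C (w ^ 2) * (D * (N * N * N - C 4 * (N * N * D) + C (4 * z') * (N * D * D))) := by
      rw [ode, hw2]
      unfold tv
      have : (C 4 : O[X]) = 4 := map_ofNat C 4
      rw [this]; ring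
    rw [e1, reflect_C_mul, show 4 + (2 * p - 2 + (2 * p - 2)) = p + (p + p + p) by omega, r6] at l1
    rw [hw2]
    have : (C 4 : O[X]) = 4 := map_ofNat C 4
    rw [this] at l1
    linear_combination -l1



end Pool.Agent.H546
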