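import Pool.Agent.H546.K2b
import Pool.Agent.H546.Lin

set_option autoImplicit false

/-!
# The symmetry of the isogeny
-/

namespace Pool.Agent.H546

variable {O K k : Type*} [CommRing O] [IsDomain O] [Field K] [Algebra O K] [Field k]
  (S : DV O K k)

section rel

open Polynomial

omit [IsDomain O] in
theorem wr_scale (c : O) (n d : O[X]) :
    wr (n.comp (C c * X)) (d.comp (C c * X)) = C c * (wr n d).comp (C c * X) := by
  simp only [wr, derivative_comp, sub_comp, mul_comp]
  have : derivative (C c * X : O[X]) = C c := by simp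
  rw [this]; ring

/-- the two descriptions of the isogeny in the parameter at the point of order two agree -/
theorem vu_rel {p : ℕ} [hp : Fact p.Prime] [CharP k p] (hp2 : p ≠ 2) (hq : S.q = (p : O)) {z z' w : O}
    (hz : S.red z ≠ 0) (hz' : S.red z' ≠ 0)
    (hw : S.red w ≠ 0) {N D M : O[X]} (hN : N.map S.red = X ^ p) (hD : D.map S.red = 1)
    (hNd : N.natDegree ≤ p) (hDd : D.natDegree < p) (hwr : wr N D = C S.q * M)
    (ode : gv z * M ^ 2 = C w ^ 2 * tv z' N D) :
    C (4 * z') * (reflect p D * D.comp (C (4 * z) * X)) = reflect p N * N.comp (C (4 * z) * X) := by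
  have := charZero_O S (p := p) hq
  have hp0 := hp.out.pos
  have hN0 := v_origin S hp2 hz' hw hN hD ode
  obtain ⟨u1, u2, u3, u4, u5, u6, u7⟩ := to_uv' S hp2 hz' hw hN hD hNd hDd hwr ode
  have h2k : (2 : k) ≠ 0 := by
    intro h2
    have : ((2 : ℕ) : k) = 0 := by exact_mod_cast h2
    rw [CharP.cast_eq_zero_iff k p] at this
    exact hp2 ((Nat.prime_dvd_prime_iff_eq hp.out (by norm_num)).mp this)
  have h4k : (4 : k) ≠ 0 := by
    have : (4 : k) = 2 * 2 := by norm_num
    rw [this]; exact mul_ne_zero h2k h2k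
  have h4z : S.red (4 * z) ≠ 0 := by rw [map_mul, map_ofNat]; exact mul_ne_zero h4k hz
  have h4z' : S.red (4 * z') ≠ 0 := by rw [map_mul, map_ofNat]; exact mul_ne_zero h4k hz'
  set al : O[X] →+* PowerSeries O := Polynomial.coeToPowerSeries.ringHom with hal
  have alC : ∀ c : O, al (C c) = PowerSeries.C c := fun c => by simp [hal]
  have alX : al X = PowerSeries.X := by simp [hal]
  have alc : ∀ P : O[X], PowerSeries.constantCoeff (al P) = P.coeff 0 := fun P => by
    rw [← PowerSeries.coeff_zero_eq_constantCoeff_apply]; simp [hal]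
  have alD : ∀ P : O[X], PowerSeries.derivative O (al P) = al (Polynomial.derivative P) := by
    intro P; simp [hal, PowerSeries.derivative_coe]
  have alinj : Function.Injective al := Polynomial.coe_injective O
  have alg : ∀ c : O, al (X * (1 - 4 * X + C c * X ^ 2)) =
      PowerSeries.X * (1 - 4 * PowerSeries.X + PowerSeries.C c * PowerSeries.X ^ 2) := by
    intro c
    simp only [map_mul, map_add, map_sub, map_pow, map_one, map_ofNat, alX, alC]
  have alw : ∀ (a b P1 P2 P3 P4 P5 : O[X]) , P1 * P2 - P3 * P4 = a * (b * P5) →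
      al P1 * al P2 - al P3 * al P4 = al a * (al b * al P5) := by
    intro a b P1 P2 P3 P4 P5 h
    rw [← map_mul, ← map_mul, ← map_mul, ← map_mul, ← map_sub, h]
  have alne : ∀ P : O[X], P ≠ 0 → al P ≠ 0 := fun P hP h => hP (alinj (by rw [h, map_zero]))
  -- first description
  have c1 : PowerSeries.constantCoeff (al (reflect p N)) = N.coeff p := by
    rw [alc, coeff_reflect, revAt_le (Nat.zero_le _), Nat.sub_zero]
  have hNp : S.red (N.coeff p) = 1 := by
    rw [← coeff_map, hN, coeff_X_pow, if_pos rfl]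
  have hu1 : IsUnit (al (reflect p N)) := by
    rw [PowerSeries.isUnit_iff_constantCoeff, c1]
    apply S.unit_of_red; rw [hNp]; exact one_ne_zero
  obtain ⟨i1, hi1⟩ := hu1.exists_left_inv
  have o1 : Ode4 z z' (S.q ^ 2 * w ^ 2) (al (reflect p D) * i1) := by
    refine ode_frac (m := al (reflect (2 * p - 2) M)) hi1 ?_ ?_
    · rw [alD, alD, ← alC, ← map_mul, ← map_mul, ← map_mul, ← map_sub, ← u6, wr]
    · have h := congrArg al u7
      have e1 : (C w ^ 2 : O[X]) = C (w ^ 2) := by rw [C_pow]
      rw [e1] at h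
      have e2 : PowerSeries.X * (1 - 4 * PowerSeries.X + PowerSeries.C (4 * z) * PowerSeries.X ^ 2) = al (X * gu z) :=
        (alg _).symm
      rw [e2, ← alC, ← alC, ← map_pow, ← map_mul, h]
      generalize (4 * z') = c4
      simp only [map_mul, map_add, map_sub, map_pow, map_ofNat]
  -- second description
  set L : O[X] := C (4 * z) * X with hL
  have hL0 : ∀ P : O[X], (P.comp L).coeff 0 = P.coeff 0 := by
    intro P
    rw [hL, comp_C_mul_X_coeff, pow_zero, mul_one]
  have hD0 : S.red (D.coeff 0) = 1 := by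
    rw [← coeff_map, hD, coeff_one_zero]
  have hu2 : IsUnit (PowerSeries.C (4 * z') * al (D.comp L)) := by
    rw [PowerSeries.isUnit_iff_constantCoeff, map_mul, PowerSeries.constantCoeff_C, alc, hL0]
    apply S.unit_of_red
    rw [map_mul, hD0, mul_one]; exact h4z'
  obtain ⟨i2, hi2⟩ := hu2.exists_left_inv
  have o2 : Ode4 z z' (S.q ^ 2 * w ^ 2) (al (N.comp L) * i2) := by
    refine ode_frac (m := PowerSeries.C (16 * z * z') * al (M.comp L)) hi2 ?_ ?_
    · have h1 := wr_scale (4 * z) N D
      rw [← hL, hwr, mul_comp, C_comp] at h1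
      have h2 := alw _ _ _ _ _ _ _ h1
      rw [alC, alC] at h2
      have e : PowerSeries.derivative O (PowerSeries.C (4 * z') * al (D.comp L)) =
          PowerSeries.C (4 * z') * al (derivative (D.comp L)) := by
        rw [Derivation.leibniz, PowerSeries.derivative_C, smul_zero, add_zero, smul_eq_mul, alD]
      rw [e, alD]
      have e3 : (PowerSeries.C (16 * z * z') : PowerSeries O) = PowerSeries.C (4 * z) * PowerSeries.C (4 * z') := by
        rw [← map_mul]; congr 1; ring
      rw [e3]
      linear_combination (PowerSeries.C (4 * z')) * h2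
    · have h := congrArg (fun P => P.comp L) ode
      simp only [mul_comp, pow_comp, C_comp] at h
      have e1 : (gv z).comp L = C (16 * z ^ 2) * (X * gu z) := by
        unfold gv gu
        rw [hL]
        simp only [sub_comp, add_comp, mul_comp, pow_comp, X_comp, C_comp, ofNat_comp, C_mul, C_pow, map_ofNat]
        ring
      have e2 : (tv z' N D).comp L = N.comp L * D.comp L * (N.comp L ^ 2 - 4 * D.comp L * N.comp L +
          C (4 * z') * D.comp L ^ 2) := by
        unfold tv
        simp only [sub_comp, add_comp, mul_comp, pow_comp, C_comp, ofNat_comp]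
        ring
      rw [e1, e2] at h
      have e3 : (C w ^ 2 : O[X]) = C (w ^ 2) := by rw [C_pow]
      rw [e3] at h
      have h2 : ∀ c1 c2 c3 c4 : O, C c1 * (X * (1 - 4 * X + C c4 * X ^ 2)) * (M.comp L) ^ 2 = C c2 * (N.comp L * D.comp L * (N.comp L ^ 2 - 4 * D.comp L * N.comp L +
          C c3 * D.comp L ^ 2)) → PowerSeries.C c1 * (PowerSeries.X * (1 - 4 * PowerSeries.X + PowerSeries.C c4 * PowerSeries.X ^ 2)) *
          al (M.comp L) ^ 2 = PowerSeries.C c2 * (al (N.comp L) * al (D.comp L) * (al (N.comp L) ^ 2 - 4 * al (D.comp L) *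
            al (N.comp L) + PowerSeries.C c3 * al (D.comp L) ^ 2)) := by
        intro c1 c2 c3 c4 h
        have := congrArg al h
        simpa only [map_mul, map_add, map_sub, map_pow, map_ofNat, alC, alX, map_one] using this
      have h2 := h2 _ _ _ _ h
      have e5 : (PowerSeries.C (16 * z * z') : PowerSeries O) ^ 2 = PowerSeries.C (16 * z ^ 2) * PowerSeries.C (4 * z') ^ 2 := by
        rw [← map_pow, ← map_pow, ← map_mul]; congr 1; ring
      rw [mul_pow, e5]
      linear_combination (PowerSeries.C (4 * z')) ^ 2 * h2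
  have hq0 := S.q_ne
  have hw0 : w ≠ 0 := by rintro rfl; exact hw (map_zero _)
  have hrD0 : reflect p D ≠ 0 := by
    intro h0; rw [h0, Polynomial.map_zero] at u1
    exact pow_ne_zero p X_ne_zero u1.symm
  have hNL : N.comp L ≠ 0 := by
    intro h0
    have := congrArg (fun P => P.coeff p) h0
    rw [hL, comp_C_mul_X_coeff, coeff_zero] at this
    have h1 := congrArg S.red this
    rw [map_mul, hNp, map_pow, one_mul, map_zero] at h1
    exact pow_ne_zero p h4z h1
  have hi1ne : i1 ≠ 0 := by rintro rfl; rw [zero_mul] at hi1; exact zero_ne_one hi1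
  have hi2ne : i2 ≠ 0 := by rintro rfl; rw [zero_mul] at hi2; exact zero_ne_one hi2
  have heq := ode_uniq (mul_ne_zero (pow_ne_zero 2 hq0) (pow_ne_zero 2 hw0)) o1 o2
    (mul_ne_zero (alne _ hrD0) hi1ne) (mul_ne_zero (alne _ hNL) hi2ne)
    (by rw [map_mul, alc, u5, zero_mul]) (by rw [map_mul, alc, hL0, hN0, zero_mul])
  apply alinj
  rw [map_mul al (C (4 * z')), map_mul al (reflect p D), map_mul al (reflect p N), alC]
  linear_combination (al (reflect p N) * (PowerSeries.C (4 * z') * al (D.comp L))) * heq -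
    (al (reflect p D) * PowerSeries.C (4 * z') * al (D.comp L)) * hi1 + (al (reflect p N) * al (N.comp L)) * hi2

/-- the leading coefficients of the isogeny modulo `q²` -/
theorem lead_sq {p : ℕ} [hp : Fact p.Prime] [CharP k p] (hp2 : p ≠ 2) (hq : S.q = (p : O)) {z z' w : O}
    (hz : S.red z ≠ 0) (hz' : S.red z' ≠ 0)
    (hw : S.red w ≠ 0) {N D M : O[X]} (hN : N.map S.red = X ^ p) (hD : D.map S.red = 1)
    (hNd : N.natDegree ≤ p) (hDd : D.natDegree < p) (hwr : wr N D = C S.q * M)
    (ode : gv z * M ^ 2 = C w ^ 2 * tv z' N D) :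
    S.q ^ 2 ∣ 4 * z' * D.coeff 0 ^ 2 - N.coeff p ^ 2 * (4 * z) ^ p := by
  have h : (C (4 * z') * (reflect p D * D.comp (C (4 * z) * X))).coeff p = (reflect p N * N.comp (C (4 * z) * X)).coeff p :=
    congrArg (fun P => P.coeff p) (vu_rel S hp2 hq hz hz' hw hN hD hNd hDd hwr ode)
  rw [coeff_C_mul, coeff_mul, coeff_mul] at h
  rw [Finset.Nat.sum_antidiagonal_eq_sum_range_succ_mk, Finset.Nat.sum_antidiagonal_eq_sum_range_succ_mk] at h
  simp only [Nat.succ_eq_add_one] at h
  have e : ∀ P : O[X], ∀ i ∈ Finset.range (p + 1), (reflect p P).coeff i * (P.comp (C (4 * z) * X)).coeff (p - i) =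
      P.coeff (p - i) ^ 2 * (4 * z) ^ (p - i) := by
    intro P i hi
    rw [coeff_reflect, revAt_le (by have := Finset.mem_range.mp hi; omega), comp_C_mul_X_coeff]
    ring
  have e' : ∑ i ∈ Finset.range (p + 1), (reflect p N).coeff i * (N.comp (C (4 * z) * X)).coeff (p - i) =
      ∑ i ∈ Finset.range (p + 1), N.coeff (p - i) ^ 2 * (4 * z) ^ (p - i) := Finset.sum_congr rfl (e N)
  have e'' : ∑ i ∈ Finset.range (p + 1), (reflect p D).coeff i * (D.comp (C (4 * z) * X)).coeff (p - i) =
      ∑ i ∈ Finset.range (p + 1), D.coeff (p - i) ^ 2 * (4 * z) ^ (p - i) := Finset.sum_congr rfl (e D)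
  rw [e', e'', Finset.sum_range_succ, Finset.sum_range_succ'] at h
  simp only [Nat.sub_self, pow_zero, mul_one, Nat.sub_zero] at h
  have d1 : S.q ^ 2 ∣ ∑ x ∈ Finset.range p, D.coeff (p - x) ^ 2 * (4 * z) ^ (p - x) := by
    refine Finset.dvd_sum fun i hi => Dvd.dvd.mul_right (pow_dvd_pow_of_dvd ?_ 2) _
    have hi' := Finset.mem_range.mp hi
    exact (S.red_iff _).mp (by rw [← coeff_map, hD, coeff_one, if_neg (by have := Finset.mem_range.mp hi; omega)])
  have d2 : S.q ^ 2 ∣ ∑ x ∈ Finset.range p, N.coeff (p - (x + 1)) ^ 2 * (4 * z) ^ (p - (x + 1)) := by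
    refine Finset.dvd_sum fun i hi => Dvd.dvd.mul_right (pow_dvd_pow_of_dvd ?_ 2) _
    have hi' := Finset.mem_range.mp hi
    exact (S.red_iff _).mp (by rw [← coeff_map, hN, coeff_X_pow, if_neg (by have := Finset.mem_range.mp hi; omega)])
  have : 4 * z' * D.coeff 0 ^ 2 - N.coeff p ^ 2 * (4 * z) ^ p =
      ∑ x ∈ Finset.range p, N.coeff (p - (x + 1)) ^ 2 * (4 * z) ^ (p - (x + 1)) -
      4 * z' * ∑ x ∈ Finset.range p, D.coeff (p - x) ^ 2 * (4 * z) ^ (p - x) := by
    linear_combination h
  rw [this]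
  exact dvd_sub d2 (Dvd.dvd.mul_left d1 _)

end rel

end Pool.Agent.H546
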