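import Pool.Agent.H546.K2c

set_option autoImplicit false

/-!
# The coefficient of the square root series modulo `p²`
-/

namespace Pool.Agent.H546

open PowerSeries

variable {O K k : Type*} [CommRing O] [IsDomain O] [Field K] [Algebra O K] [Field k]
  (S : DV O K k)

set_option maxHeartbeats 1000000 in
/-- The coefficient of the square root series. -/
theorem key2 {p : ℕ} [hp : Fact p.Prime] [CharP k p] (hp2 : p ≠ 2) (hq : S.q = (p : O))
    {z z' w : O} (hw : S.red w ≠ 0)
    {N D M : Polynomial O} (hN : N.map S.red = Polynomial.X ^ p) (hD : D.map S.red = 1)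
    (hN0 : N.coeff 0 = 0) (hwr : wr N D = Polynomial.C S.q * M)
    (ode : Polynomial.X * gu z * M ^ 2 =
      Polynomial.C w ^ 2 * (N * D * (D ^ 2 - 4 * D * N + Polynomial.C (4 * z') * N ^ 2)))
    {c : O⟦X⟧} (hc2 : c ^ 2 * (1 - 4 * X ^ 2 + C (4 * z) * X ^ 4) = 1) (hc0 : constantCoeff c = 1) :
    ∃ ε : O, (ε = 1 ∨ ε = -1) ∧ S.red (M.coeff ((p - 1) / 2)) = S.red (ε * w) ∧
      S.q ^ 2 ∣ 2 * (ε * w * coeff (p - 1) c) - 2 - (N.coeff p - D.coeff 0) := by
  obtain ⟨e, he⟩ := hp.out.odd_of_ne_two hp2
  have hp0 := hp.out.pos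
  have hp2' := hp.out.two_le
  set q := S.q with hqd
  have hq0 : q ≠ 0 := S.q_ne
  have hrq : S.red q = 0 := S.red_q
  have h2k : (2 : k) ≠ 0 := by
    intro h2
    have : ((2 : ℕ) : k) = 0 := by exact_mod_cast h2
    rw [CharP.cast_eq_zero_iff k p] at this
    exact hp2 ((Nat.prime_dvd_prime_iff_eq hp.out (by norm_num)).mp this)
  have h2u : IsUnit (2 : O) := S.unit_of_red (by rw [map_ofNat]; exact h2k)
  have h2O : (2 : O) ≠ 0 := h2u.ne_zero
  have hCq : (C q : O⟦X⟧) ≠ 0 := fun h => hq0 (by
    have := congrArg constantCoeff h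
    simpa using this)
  obtain ⟨T, hT⟩ := S.dvd_of_map (P := N - Polynomial.X ^ p * D) (by
    rw [Polynomial.map_sub, Polynomial.map_mul, Polynomial.map_pow, Polynomial.map_X, hN, hD, mul_one, sub_self])
  have hNT : N = Polynomial.X ^ p * D + Polynomial.C q * T := by rw [← hT]; ring
  -- names
  set al := Polynomial.aeval (R := O) ((X : O⟦X⟧) ^ 2) with hal
  have alC : ∀ c : O, al (Polynomial.C c) = C c := fun c => by
    rw [hal, Polynomial.aeval_C]; rfl
  have alX : al Polynomial.X = X ^ 2 := Polynomial.aeval_X _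
  have hY2d : d⁄dX O ((X : O⟦X⟧) ^ 2) = 2 * X := by
    rw [derivative_pow, derivative_X]; push_cast; ring
  have alD : ∀ P : Polynomial O, d⁄dX O (al P) = al (Polynomial.derivative P) * (2 * X) := by
    rw [← hY2d, hal]
    generalize (X : O⟦X⟧) ^ 2 = Y2
    intro P
    induction P using Polynomial.induction_on' with
    | add P Q h1 h2 => rw [map_add, map_add, map_add, map_add, h1, h2]; ring
    | monomial n a =>
      have aC : ∀ c : O, Polynomial.aeval Y2 (Polynomial.C c) = C c := fun c => by
        rw [Polynomial.aeval_C]; rfl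
      rw [← Polynomial.C_mul_X_pow_eq_monomial, map_mul, map_pow, aC, Polynomial.aeval_X, Derivation.leibniz,
        derivative_C, derivative_pow, Polynomial.derivative_C_mul, Polynomial.derivative_X_pow,
        map_mul, map_mul, map_pow, aC, Polynomial.aeval_X, smul_eq_mul, smul_eq_mul, map_natCast, map_natCast]
      ring
  obtain ⟨D1, hD1⟩ := S.dvd_of_map (P := D - 1) (by
    rw [Polynomial.map_sub, hD, Polynomial.map_one, sub_self])
  have hDe : al D = 1 + C q * al D1 := by
    have : D = 1 + Polynomial.C q * D1 := by rw [← hD1]; ring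
    conv_lhs => rw [this]
    rw [map_add, map_one, map_mul, alC]
  have hDu : IsUnit (al D) := by
    rw [PowerSeries.isUnit_iff_constantCoeff]
    apply S.unit_of_red
    rw [hDe, map_add, map_mul, map_one, constantCoeff_C, map_add, map_mul, map_one, hrq]
    simp
  obtain ⟨iD, hiD⟩ := hDu.exists_left_inv
  set U := al N * iD with hU
  set U1 := al M * (2 * X) * iD ^ 2 with hU1
  set v : O⟦X⟧ := X ^ p with hv
  set η := al T * iD with hη
  have hUv : U = v ^ 2 + C q * η := by
    rw [hU, hNT, map_add, map_mul, map_mul, map_pow, alC, alX]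
    rw [hv]
    linear_combination ((X : O⟦X⟧) ^ 2) ^ p * hiD
  -- derivative of U
  have hiD' : d⁄dX O iD = - iD ^ 2 * (al (Polynomial.derivative D) * (2 * X)) := by
    have h := congrArg (d⁄dX O) hiD
    rw [Derivation.leibniz, derivative_one, smul_eq_mul, smul_eq_mul, alD] at h
    linear_combination iD * h - (d⁄dX O iD) * hiD
  have hdU : d⁄dX O U = C q * U1 := by
    have hw' : al (Polynomial.derivative N) * al D - al N * al (Polynomial.derivative D) = C q * al M := by
      rw [← alC, ← map_mul al (Polynomial.C q), ← hwr, wr, map_sub, map_mul, map_mul]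
    rw [hU, Derivation.leibniz, smul_eq_mul, smul_eq_mul, alD, hiD', hU1]
    linear_combination (2 * X) * iD ^ 2 * hw' - (2 * X) * iD * al (Polynomial.derivative N) * hiD
  set v1 : O⟦X⟧ := X ^ (p - 1) with hv1
  have hCp : (C q : O⟦X⟧) = (p : O⟦X⟧) := by rw [hq, map_natCast]
  have hdv : d⁄dX O v = C q * v1 := by
    rw [hv, derivative_pow, hCp, hv1, derivative_X]; ring
  have alg : ∀ c : O, al (1 - 4 * Polynomial.X + Polynomial.C c * Polynomial.X ^ 2) = 1 - 4 * X ^ 2 + C c * X ^ 4 := by
    intro c
    simp only [map_add, map_sub, map_mul, map_pow, map_one, map_ofNat, alC, alX]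
    ring
  have hgu : al (gu z) = 1 - 4 * X ^ 2 + C (4 * z) * X ^ 4 := alg _
  have hode := congrArg al ode
  rw [map_mul, map_mul, map_pow, map_mul, map_pow, alC, hgu, alX] at hode
  have htu : ∀ c : O, al (N * D * (D ^ 2 - 4 * D * N + Polynomial.C c * N ^ 2)) =
      al N * al D * (al D ^ 2 - 4 * al D * al N + C c * al N ^ 2) := by
    intro c
    simp only [map_mul, map_add, map_sub, map_pow, alC, map_ofNat]
  rw [htu] at hode
  have hde : U1 ^ 2 = 4 * C w ^ 2 * c ^ 2 * (U * (1 - 4 * U + C (4 * z') * U ^ 2)) := by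
    have e2 : U * (1 - 4 * U + C (4 * z') * U ^ 2) =
        iD ^ 4 * (al N * al D * (al D ^ 2 - 4 * al D * al N + C (4 * z') * al N ^ 2)) := by
      rw [hU]
      linear_combination (-(al N * iD * (1 + iD * al D + (iD * al D) ^ 2)) +
        4 * al N ^ 2 * iD ^ 2 * (1 + iD * al D) - C (4 * z') * al N ^ 3 * iD ^ 3) * hiD
    rw [e2, hU1]
    linear_combination (4 * iD ^ 4 * c ^ 2) * hode - (4 * X ^ 2 * al M ^ 2 * iD ^ 4) * hc2
  -- constant terms
  have hal0 : ∀ P : Polynomial O, constantCoeff (al P) = P.coeff 0 := by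
    intro P
    induction P using Polynomial.induction_on' with
    | add P Q h1 h2 => rw [map_add, map_add, h1, h2, Polynomial.coeff_add]
    | monomial n a =>
      rw [← Polynomial.C_mul_X_pow_eq_monomial, map_mul, map_pow, alC, alX, map_mul, constantCoeff_C,
        map_pow, map_pow, constantCoeff_X, Polynomial.coeff_C_mul, Polynomial.coeff_X_pow]
      rcases n with _ | n
      · simp
      · simp
  have hU0 : constantCoeff U = 0 := by rw [hU, map_mul, hal0, hN0, zero_mul]
  -- the square root of the last factor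
  set t := U - C z' * U ^ 2 with ht
  obtain ⟨B, hB⟩ := exists_cat t (by rw [ht]; simp [hU0])
  set s := 1 - 2 * t * B with hs
  have h4z : (C (4 * z') : O⟦X⟧) = 4 * C z' := by rw [map_mul, map_ofNat]
  have hs2 : s ^ 2 = 1 - 4 * U + C (4 * z') * U ^ 2 := by
    have : (1 - 4 * U + C (4 * z') * U ^ 2) = 1 - 4 * t := by rw [ht, h4z]; ring
    rw [this, hs]
    linear_combination (-4 * t) * hB
  have hs0 : constantCoeff s = 1 := by
    rw [hs, ht]; simp [hU0]
  have hsu : IsUnit s := by
    rw [PowerSeries.isUnit_iff_constantCoeff, hs0]; exact isUnit_one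
  obtain ⟨is, his⟩ := hsu.exists_left_inv
  have hwcu : IsUnit (2 * C w * c) := by
    rw [PowerSeries.isUnit_iff_constantCoeff]
    apply S.unit_of_red
    simp only [map_mul, constantCoeff_C, hc0, map_ofNat, mul_one]
    exact mul_ne_zero h2k hw
  obtain ⟨iw, hiw⟩ := hwcu.exists_left_inv
  -- the coordinate
  set Z := U1 * iw * is with hZ
  have hZs : 2 * C w * c * (Z * s) = U1 := by
    rw [hZ]
    linear_combination (U1 * is * s) * hiw + U1 * his
  have hZ2 : Z ^ 2 = U := by
    have h1 : (2 * C w * c * (Z * s)) ^ 2 = 4 * C w ^ 2 * c ^ 2 * (U * s ^ 2) := by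
      rw [hZs, hde, hs2]
    have h2 : IsUnit ((2 * C w * c) ^ 2 * s ^ 2) := (hwcu.pow 2).mul (hsu.pow 2)
    apply h2.mul_left_cancel
    linear_combination h1
  -- the sign
  have hbq : PowerSeries.map S.red (C q) = 0 := by
    rw [PowerSeries.map_C, hrq, map_zero]
  have hZv : (PowerSeries.map S.red Z) ^ 2 = (PowerSeries.map S.red v) ^ 2 := by
    rw [← map_pow, hZ2, hUv, map_add, map_pow, map_mul, hbq, zero_mul, add_zero]
  obtain ⟨ε, hε1, hεs⟩ : ∃ ε : O, (ε = 1 ∨ ε = -1) ∧ PowerSeries.map S.red (Z - C ε * v) = 0 := by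
    rcases sq_eq_sq_iff_eq_or_eq_neg.mp hZv with h | h
    · exact ⟨1, Or.inl rfl, by rw [map_one, one_mul, map_sub, h, sub_self]⟩
    · refine ⟨-1, Or.inr rfl, ?_⟩
      have : (C (-1 : O)) = (-1 : O⟦X⟧) := by simp
      rw [this, map_sub, h, map_mul, map_neg, map_one]; ring
  have hε : ε ^ 2 = 1 := by rcases hε1 with h | h <;> rw [h] <;> ring
  have hCε : (C ε : O⟦X⟧) ^ 2 = 1 := by rw [← map_pow, hε, map_one]
  obtain ⟨ζ0, hζ0⟩ := S.dvd_ps hεs
  rw [← hqd] at hζ0
  set ζ := C ε * ζ0 with hζ
  have hZe : Z = C ε * (v + C q * ζ) := by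
    rw [hζ]
    linear_combination hζ0 - (C q * ζ0) * hCε
  clear_value ζ
  refine ⟨ε, hε1, ?_, ?_⟩
  · -- the sign
    have hbD : PowerSeries.map S.red (al D) = 1 := by
      rw [hDe, map_add, map_one, map_mul, hbq, zero_mul, add_zero]
    have hbiD : PowerSeries.map S.red iD = 1 := by
      have := congrArg (PowerSeries.map S.red) hiD
      rw [map_mul, hbD, mul_one, map_one] at this
      exact this
    have halco : ∀ P : Polynomial O, coeff (2 * e) (al P) = P.coeff e := by
      intro P
      induction P using Polynomial.induction_on' with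
      | add P Q h1 h2 => rw [map_add, map_add, h1, h2, Polynomial.coeff_add]
      | monomial n a =>
        rw [← Polynomial.C_mul_X_pow_eq_monomial, map_mul, map_pow, alC, alX, coeff_C_mul, ← pow_mul, coeff_X_pow,
          Polynomial.coeff_C_mul, Polynomial.coeff_X_pow]
        by_cases h : e = n
        · rw [if_pos (by rw [h]), if_pos h]
        · rw [if_neg (by omega), if_neg h]
    have h1 : 2 * C w * c * (C ε * (v + C q * ζ) * s) = al M * (2 * X) * iD ^ 2 := by
      rw [← hZe, hZs]
    have h2 := congrArg (PowerSeries.map S.red) h1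
    simp only [map_mul, map_add, map_pow, map_ofNat, PowerSeries.map_C, hrq, map_zero, zero_mul, add_zero, hbiD,
      one_pow, mul_one, PowerSeries.map_X] at h2
    have hvX : PowerSeries.map S.red v = X ^ (2 * e) * X := by
      rw [hv, map_pow, PowerSeries.map_X, he, pow_succ]
    rw [hvX] at h2
    have h3 : C (S.red ε * S.red w) * (X ^ (2 * e) * (PowerSeries.map S.red c * PowerSeries.map S.red s)) =
        PowerSeries.map S.red (al M) := by
      have h2ps : (2 : k⟦X⟧) ≠ 0 := by
        have : (2 : k⟦X⟧) = C 2 := (map_ofNat C 2).symm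
        rw [this]
        intro h0
        apply h2k
        have := congrArg constantCoeff h0
        simpa using this
      apply mul_left_cancel₀ (mul_ne_zero h2ps X_ne_zero)
      rw [map_mul C]
      linear_combination h2
    have h4 := congrArg (coeff (2 * e)) h3
    rw [coeff_C_mul, PowerSeries.coeff_map, halco] at h4
    have h5 : coeff (2 * e) (X ^ (2 * e) * (PowerSeries.map S.red c * PowerSeries.map S.red s)) = 1 := by
      have := coeff_X_pow_mul (PowerSeries.map S.red c * PowerSeries.map S.red s) (2 * e) 0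
      rw [zero_add] at this
      rw [this, coeff_zero_eq_constantCoeff_apply, map_mul]
      have e1 : ∀ f : O⟦X⟧, constantCoeff (PowerSeries.map S.red f) = S.red (constantCoeff f) := by
        intro f
        rw [← coeff_zero_eq_constantCoeff_apply, PowerSeries.coeff_map, coeff_zero_eq_constantCoeff_apply]
      rw [e1, e1, hc0, hs0, map_one, mul_one]
    rw [h5, mul_one] at h4
    rw [show (p - 1) / 2 = e by omega, map_mul, h4]
  -- the derivative of the coordinate
  have hvr : PowerSeries.map S.red v = X ^ p := by rw [hv, map_pow, PowerSeries.map_X]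
  have hvr0 : (X : k⟦X⟧) ^ p ≠ 0 := pow_ne_zero p X_ne_zero
  have hZ0 : Z ≠ 0 := by
    intro h0
    rw [h0, map_zero, zero_pow two_ne_zero] at hZv
    exact pow_ne_zero 2 (by rw [hvr]; exact hvr0) hZv.symm
  have h2ps : (2 : O⟦X⟧) ≠ 0 := by
    have : (2 : O⟦X⟧) = C 2 := (map_ofNat C 2).symm
    rw [this]
    intro h0
    apply h2O
    have := congrArg constantCoeff h0
    simpa using this
  have hdZ : d⁄dX O Z = C q * (C w * c * s) := by
    have h1 := congrArg (d⁄dX O) hZ2
    rw [hdU, derivative_pow, ← hZs] at h1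
    push_cast at h1
    apply mul_left_cancel₀ (mul_ne_zero h2ps hZ0)
    linear_combination h1
  have hex : C (ε * w) * c * s = v1 + d⁄dX O ζ := by
    apply mul_left_cancel₀ hCq
    have h1 := congrArg (d⁄dX O) hZe
    rw [hdZ, Derivation.leibniz, derivative_C, map_add, hdv, Derivation.leibniz, derivative_C] at h1
    simp only [smul_eq_mul, mul_zero, add_zero] at h1
    rw [map_mul]
    linear_combination (C ε) * h1 + (C q * (v1 + d⁄dX O ζ)) * hCε
  -- modulo the ideal
  set I := idn p q with hI
  have hvI : v ∈ I := X_memn p q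
  have hUe : U = v ^ 2 + 2 * C q * v * ζ + C q ^ 2 * ζ ^ 2 := by
    rw [← hZ2, hZe]; linear_combination ((v + C q * ζ) ^ 2) * hCε
  have hUI : U ∈ I := by
    have : U = v * (v + 2 * C q * ζ) + C q ^ 2 * ζ ^ 2 := by rw [hUe]; ring
    rw [this]
    exact I.add_mem (I.mul_mem_right _ hvI) (I.mul_mem_right _ (q2_memn _ q))
  have hsI : s - 1 ∈ I := by
    have : s - 1 = U * (-2 * (1 - C z' * U) * B) := by rw [hs, ht]; ring
    rw [this]
    exact I.mul_mem_right _ hUI
  have hfin : C (ε * w) * c - (v1 + d⁄dX O ζ) ∈ I := by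
    have : C (ε * w) * c - (v1 + d⁄dX O ζ) = (s - 1) * (-(C (ε * w) * c)) := by
      rw [← hex]; ring
    rw [this]
    exact I.mul_mem_right _ hsI
  have h3 := idn_coeff hfin (m := p - 1) (by omega)
  have cpN : (((p - 1 : ℕ) : O) + 1) = q := by
    rw [hq]
    have := Nat.cast_succ (R := O) (p - 1)
    rw [show (p - 1).succ = p by omega] at this
    rw [← this]
  rw [map_sub, map_add, coeff_C_mul, coeff_derivative, cpN, show p - 1 + 1 = p by omega, hv1, coeff_X_pow,
    if_pos rfl] at h3
  -- the coefficient of order `p`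
  have hζη : 2 * v * ζ + C q * ζ ^ 2 = η := by
    apply mul_left_cancel₀ hCq
    linear_combination hUv - hUe
  have hbD : PowerSeries.map S.red (al D) = 1 := by
    rw [hDe, map_add, map_one, map_mul, hbq, zero_mul, add_zero]
  have hbiD : PowerSeries.map S.red iD = 1 := by
    have := congrArg (PowerSeries.map S.red) hiD
    rw [map_mul, hbD, mul_one, map_one] at this
    exact this
  have halco : ∀ P : Polynomial O, coeff (2 * p) (al P) = P.coeff p := by
    intro P
    induction P using Polynomial.induction_on' with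
    | add P Q h1 h2 => rw [map_add, map_add, h1, h2, Polynomial.coeff_add]
    | monomial n a =>
      rw [← Polynomial.C_mul_X_pow_eq_monomial, map_mul, map_pow, alC, alX, coeff_C_mul, ← pow_mul, coeff_X_pow,
        Polynomial.coeff_C_mul, Polynomial.coeff_X_pow]
      by_cases h : p = n
      · rw [if_pos (by rw [h]), if_pos h]
      · rw [if_neg (by omega), if_neg h]
  have hζp : S.red (2 * coeff p ζ - T.coeff p) = 0 := by
    have h1 := congrArg (PowerSeries.map S.red) hζη
    rw [map_add, map_mul, map_mul (PowerSeries.map S.red) (C q), hbq, zero_mul, add_zero, hη,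
      map_mul (PowerSeries.map S.red) (al T), hbiD, mul_one] at h1
    have h2 := congrArg (coeff (2 * p)) h1
    rw [PowerSeries.coeff_map, halco] at h2
    have e1 : PowerSeries.map S.red (2 * v) * PowerSeries.map S.red ζ = X ^ p * (C 2 * PowerSeries.map S.red ζ) := by
      rw [map_mul, hvr, map_ofNat, map_ofNat]; ring
    rw [e1, show 2 * p = p + p by ring, coeff_X_pow_mul, coeff_C_mul, PowerSeries.coeff_map] at h2
    rw [map_sub, map_mul, map_ofNat, h2, sub_self]
  obtain ⟨y, hy⟩ := (S.red_iff _).mp hζp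
  rw [← hqd] at hy
  have hNp : N.coeff p = D.coeff 0 + q * T.coeff p := by
    conv_lhs => rw [hNT]
    rw [Polynomial.coeff_add, Polynomial.coeff_X_pow_mul', if_pos le_rfl, Nat.sub_self, Polynomial.coeff_C_mul]
  obtain ⟨d, hd⟩ := h3
  refine ⟨2 * d + y, ?_⟩
  rw [hNp]
  linear_combination 2 * hd + q * hy

end Pool.Agent.H546
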