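import Pool.Agent.H546.UModel

set_option autoImplicit false

/-!
# The kernel of the reduction of the points at a place of the base
-/

namespace Pool.Agent.H546

open Polynomial WeierstrassCurve WeierstrassCurve.Affine WithZero
open Pool.Agent.Q267.MW (SW io io_inj io_ne eqn negY_SW add_quad two_ne_K)

variable {F : Type*} [Field F]

section val

variable (v : Valuation (RatFunc F) ℤᵐ⁰) (hv : ∀ c : F, v (io (C c)) ≤ 1)

include hv in
theorem vc_unit {c : F} (hc : c ≠ 0) : v (io (C c)) = 1 := by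
  refine le_antisymm (hv c) ?_
  have h1 : v (io (C c)) * v (io (C c⁻¹)) = 1 := by
    rw [← map_mul, ← map_mul, ← C_mul, mul_inv_cancel₀ hc, C_1, map_one, map_one]
  by_contra hlt
  push Not at hlt
  have : v (io (C c)) * v (io (C c⁻¹)) < 1 :=
    calc v (io (C c)) * v (io (C c⁻¹)) ≤ v (io (C c)) * 1 := mul_le_mul' le_rfl (hv _)
      _ = v (io (C c)) := mul_one _
      _ < 1 := hlt
  rw [h1] at this
  exact lt_irrefl _ this

include hv in
theorem kpos_add (a b : F) {X1 X2 X3 : RatFunc F} (h1 : 1 < v X1) (h2 : 1 < v X2)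
    (h : (X1 - X2) ^ 2 * X3 ^ 2 - (2 * ((X1 + X2) * (X1 * X2 + io (C a)) + 2 * io (C b))) * X3
      + ((X1 * X2 - io (C a)) ^ 2 - 4 * io (C b) * (X1 + X2)) = 0) : 1 < v X3 := by
  by_contra hc
  push Not at hc
  set p := v X1 with hp
  set q := v X2 with hq
  have p0 : 0 < p := lt_trans zero_lt_one h1
  have q0 : 0 < q := lt_trans zero_lt_one h2
  have hpq1 : p < p * q := lt_mul_of_one_lt_right p0 h2
  have hpq2 : q < p * q := lt_mul_of_one_lt_left q0 h1
  have hpq : 1 < p * q := lt_trans h1 hpq1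
  have pq0 : 0 < p * q := lt_trans zero_lt_one hpq
  have hM : max p q < p * q := max_lt hpq1 hpq2
  have v2 : v 2 ≤ 1 := by
    have : (2 : RatFunc F) = io (C 2) := by rw [map_ofNat, map_ofNat]
    rw [this]; exact hv 2
  have v4 : v 4 ≤ 1 := by
    have : (4 : RatFunc F) = io (C 4) := by rw [map_ofNat, map_ofNat]
    rw [this]; exact hv 4
  have va : v (io (C a)) ≤ 1 := hv a
  have vb : v (io (C b)) ≤ 1 := hv b
  have vs : v (X1 + X2) ≤ max p q := v.map_add X1 X2
  have vd : v (X1 - X2) ≤ max p q := v.map_sub X1 X2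
  have vm : v (X1 * X2 + io (C a)) ≤ p * q := by
    refine v.map_add_le ?_ (va.trans hpq.le)
    rw [map_mul]
  have vm' : v (X1 * X2 - io (C a)) = p * q := by
    rw [v.map_sub_eq_of_lt_left]
    · rw [map_mul]
    · rw [map_mul]; exact lt_of_le_of_lt va hpq
  have vG2 : v ((X1 * X2 - io (C a)) ^ 2 - 4 * io (C b) * (X1 + X2)) = (p * q) * (p * q) := by
    rw [v.map_sub_eq_of_lt_left]
    · rw [map_pow, vm', sq]
    · rw [map_pow, vm', map_mul, map_mul]
      calc v 4 * v (io (C b)) * v (X1 + X2) ≤ 1 * 1 * max p q :=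
            mul_le_mul' (mul_le_mul' v4 vb) vs
        _ = max p q := by rw [one_mul, one_mul]
        _ < p * q := hM
        _ < (p * q) * (p * q) := lt_mul_of_one_lt_right pq0 hpq
        _ = (p * q) ^ 2 := by rw [sq]
  have vG1 : v ((2 * ((X1 + X2) * (X1 * X2 + io (C a)) + 2 * io (C b))) * X3) < (p * q) * (p * q) := by
    rw [map_mul, map_mul]
    have k : v ((X1 + X2) * (X1 * X2 + io (C a)) + 2 * io (C b)) ≤ max p q * (p * q) := by
      refine v.map_add_le ?_ ?_
      · rw [map_mul]; exact mul_le_mul' vs vm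
      · rw [map_mul]
        calc v 2 * v (io (C b)) ≤ 1 * 1 := mul_le_mul' v2 vb
          _ ≤ max p q * (p * q) := mul_le_mul' (h1.le.trans (le_max_left _ _)) hpq.le
    calc v 2 * v ((X1 + X2) * (X1 * X2 + io (C a)) + 2 * io (C b)) * v X3
        ≤ 1 * (max p q * (p * q)) * 1 := mul_le_mul' (mul_le_mul' v2 k) hc
      _ = max p q * (p * q) := by rw [one_mul, mul_one]
      _ < (p * q) * (p * q) := mul_lt_mul_of_pos_right hM pq0
  have vG0 : v ((X1 - X2) ^ 2 * X3 ^ 2) < (p * q) * (p * q) := by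
    rw [map_mul, map_pow, map_pow]
    calc v (X1 - X2) ^ 2 * v X3 ^ 2 ≤ (max p q) ^ 2 * 1 ^ 2 :=
          mul_le_mul' (pow_le_pow_left' vd 2) (pow_le_pow_left' hc 2)
      _ = max p q * max p q := by rw [one_pow, mul_one, sq]
      _ < (p * q) * (p * q) := mul_lt_mul'' hM hM zero_le zero_le
  have e : (X1 * X2 - io (C a)) ^ 2 - 4 * io (C b) * (X1 + X2) =
      (2 * ((X1 + X2) * (X1 * X2 + io (C a)) + 2 * io (C b))) * X3 - (X1 - X2) ^ 2 * X3 ^ 2 := by
    linear_combination h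
  have := v.map_sub_lt vG1 vG0
  rw [← e, vG2] at this
  exact lt_irrefl _ this

include hv in
theorem kpos_cub (a b : F) {X1 : RatFunc F} (h1 : 1 < v X1) :
    v (X1 ^ 3 + io (C a) * X1 + io (C b)) = v X1 ^ 3 := by
  set p := v X1 with hp
  have p0 : 0 < p := lt_trans zero_lt_one h1
  have va : v (io (C a)) ≤ 1 := hv a
  have vb : v (io (C b)) ≤ 1 := hv b
  have h2 : p < p * p := lt_mul_of_one_lt_right p0 h1
  have h3 : p * p < p * p * p := lt_mul_of_one_lt_right (mul_pos p0 p0) h1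
  have e1 : v (X1 ^ 3 + io (C a) * X1) = p ^ 3 := by
    rw [v.map_add_eq_of_lt_left]
    · rw [map_pow]
    · rw [map_pow, map_mul]
      calc v (io (C a)) * v X1 ≤ 1 * p := mul_le_mul' va le_rfl
        _ = p := one_mul _
        _ < p ^ 3 := by rw [pow_succ, sq]; exact lt_trans h2 h3
  rw [v.map_add_eq_of_lt_left]
  · exact e1
  · rw [e1]
    calc v (io (C b)) ≤ 1 := vb
      _ < p := h1
      _ < p ^ 3 := by rw [pow_succ, sq]; exact lt_trans h2 h3

include hv in
theorem kpos_dbl (a b : F) (h2 : (2 : F) ≠ 0) {X1 X3 : RatFunc F} (h1 : 1 < v X1)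
    (h : X3 * (4 * (X1 ^ 3 + io (C a) * X1 + io (C b))) =
      (X1 ^ 2 - io (C a)) ^ 2 - 8 * io (C b) * X1) : 1 < v X3 := by
  set p := v X1 with hp
  have p0 : 0 < p := lt_trans zero_lt_one h1
  have va : v (io (C a)) ≤ 1 := hv a
  have vb : v (io (C b)) ≤ 1 := hv b
  have v8 : v 8 ≤ 1 := by
    have : (8 : RatFunc F) = io (C 8) := by rw [map_ofNat, map_ofNat]
    rw [this]; exact hv 8
  have v4 : v 4 = 1 := by
    have : (4 : RatFunc F) = io (C 4) := by rw [map_ofNat, map_ofNat]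
    rw [this]
    refine vc_unit v hv ?_
    have : (4 : F) = 2 * 2 := by norm_num
    rw [this]; exact mul_ne_zero h2 h2
  have hpp : 1 < p * p := lt_trans h1 (lt_mul_of_one_lt_right p0 h1)
  have hp2 : p < p * p := lt_mul_of_one_lt_right p0 h1
  have e1 : v (X1 ^ 2 - io (C a)) = p * p := by
    rw [v.map_sub_eq_of_lt_left]
    · rw [map_pow, sq]
    · rw [map_pow, sq]; exact lt_of_le_of_lt va hpp
  have e2 : v ((X1 ^ 2 - io (C a)) ^ 2 - 8 * io (C b) * X1) = (p * p) ^ 2 := by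
    rw [v.map_sub_eq_of_lt_left]
    · rw [map_pow, e1]
    · rw [map_pow, e1, map_mul, map_mul]
      calc v 8 * v (io (C b)) * v X1 ≤ 1 * 1 * p := mul_le_mul' (mul_le_mul' v8 vb) le_rfl
        _ = p := by rw [one_mul, one_mul]
        _ < p * p := hp2
        _ < (p * p) * (p * p) := lt_mul_of_one_lt_right (mul_pos p0 p0) hpp
        _ = (p * p) ^ 2 := by rw [sq]
  have e3 := congrArg v h
  rw [e2, map_mul, map_mul, v4, kpos_cub v hv a b h1, one_mul] at e3
  have e4 : v X3 = p := by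
    have hp3 : p ^ 3 ≠ 0 := pow_ne_zero _ p0.ne'
    apply mul_right_cancel₀ hp3
    rw [e3, ← sq, ← pow_mul, ← pow_succ']
  rw [e4]
  exact h1


end val

/-- normalised coordinates of a point -/
def Pt {f : F[X]} {a b : F} (P : (TWf f a b).Point) (X Y : RatFunc F) : Prop :=
  ∃ h : (TWf f a b).Nonsingular (io f * X) (io f ^ 2 * Y), P = Point.some (io f * X) (io f ^ 2 * Y) h

theorem Pt.of_some {f : F[X]} {a b : F} (hf0 : f ≠ 0) {x y : RatFunc F} (h : (TWf f a b).Nonsingular x y) :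
    Pt (Point.some x y h) (x / io f) (y / io f ^ 2) := by
  have hf := io_ne hf0
  have e1 : io f * (x / io f) = x := by field_simp
  have e2 : io f ^ 2 * (y / io f ^ 2) = y := by field_simp
  refine ⟨by rw [e1, e2]; exact h, ?_⟩
  simp only [e1, e2]

theorem Pt.eqn {f : F[X]} {a b : F} (hf0 : f ≠ 0) {P : (TWf f a b).Point} {X Y : RatFunc F} (h : Pt P X Y) :
    io f * Y ^ 2 = X ^ 3 + io (C a) * X + io (C b) := by
  obtain ⟨h, -⟩ := h
  have hf := io_ne hf0
  have := tw_eqn hf0 h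
  have e1 : io f * X / io f = X := by field_simp
  have e2 : io f ^ 2 * Y / io f ^ 2 = Y := by field_simp
  rw [e1, e2] at this
  exact this

theorem Pt.neg {f : F[X]} {a b : F} {P : (TWf f a b).Point} {X Y : RatFunc F} (h : Pt P X Y) :
    Pt (-P) X (-Y) := by
  obtain ⟨h, rfl⟩ := h
  rw [Point.neg_some]
  have e : (TWf f a b).negY (io f * X) (io f ^ 2 * Y) = io f ^ 2 * (-Y) := by rw [negY_SW]; ring
  refine ⟨?_, ?_⟩
  · rw [← e]; exact (nonsingular_neg _ _).mpr h
  · simp only [e]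

open Classical in
theorem Pt.add_zero' {f : F[X]} {a b : F} {P Q : (TWf f a b).Point} {X Y : RatFunc F} (h : Pt P X Y)
    (h' : Pt Q X (-Y)) : P + Q = 0 := by
  obtain ⟨h, rfl⟩ := h
  obtain ⟨h', rfl⟩ := h'
  rw [Point.add_of_Y_eq rfl]
  rw [negY_SW]; ring

open Classical in
theorem Pt.add {f : F[X]} {a b : F} (hf0 : f ≠ 0) {P Q : (TWf f a b).Point} {X1 Y1 X2 Y2 : RatFunc F}
    (h1 : Pt P X1 Y1) (h2 : Pt Q X2 Y2) (hne : X1 ≠ X2) :
    Pt (P + Q) (io f * ((Y1 - Y2) / (X1 - X2)) ^ 2 - X1 - X2)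
      (-(((Y1 - Y2) / (X1 - X2)) * ((io f * ((Y1 - Y2) / (X1 - X2)) ^ 2 - X1 - X2) - X1) + Y1)) := by
  have hf := io_ne hf0
  obtain ⟨h1, rfl⟩ := h1
  obtain ⟨h2, rfl⟩ := h2
  have hx : io f * X1 ≠ io f * X2 := fun h => hne (mul_left_cancel₀ hf h)
  have hd : X1 - X2 ≠ 0 := sub_ne_zero.mpr hne
  rw [Point.add_of_X_ne hx]
  have hxd : io f * X1 - io f * X2 ≠ 0 := sub_ne_zero.mpr hx
  have eX3 : (TWf f a b).addX (io f * X1) (io f * X2) ((TWf f a b).slope (io f * X1) (io f * X2) (io f ^ 2 * Y1) (io f ^ 2 * Y2)) =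
      io f * (io f * ((Y1 - Y2) / (X1 - X2)) ^ 2 - X1 - X2) := by
    rw [slope_of_X_ne hx]
    simp only [addX]
    rw [← mul_sub, ← mul_sub]
    field_simp
    ring
  have eY3 : (TWf f a b).addY (io f * X1) (io f * X2) (io f ^ 2 * Y1) ((TWf f a b).slope (io f * X1) (io f * X2) (io f ^ 2 * Y1) (io f ^ 2 * Y2)) =
      io f ^ 2 * (-(((Y1 - Y2) / (X1 - X2)) *
        ((io f * ((Y1 - Y2) / (X1 - X2)) ^ 2 - X1 - X2) - X1) + Y1)) := by
    rw [slope_of_X_ne hx]
    simp only [addY, negAddY, addX, negY]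
    rw [← mul_sub, ← mul_sub]
    field_simp
    ring
  refine ⟨?_, ?_⟩
  · rw [← eX3, ← eY3]
    exact nonsingular_add h1 h2 (fun h => absurd h.1 hx)
  · simp only [eX3, eY3]

open Classical in
theorem Pt.dbl {f : F[X]} {a b : F} (hf0 : f ≠ 0) (h2 : (2 : F) ≠ 0) {P : (TWf f a b).Point} {X Y : RatFunc F}
    (h : Pt P X Y) (hY : Y ≠ 0) :
    Pt (P + P) (io f * ((3 * X ^ 2 + io (C a)) / (2 * io f * Y)) ^ 2 - 2 * X)
      (-(((3 * X ^ 2 + io (C a)) / (2 * io f * Y)) *
        ((io f * ((3 * X ^ 2 + io (C a)) / (2 * io f * Y)) ^ 2 - 2 * X) - X) + Y)) := by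
  have hf := io_ne hf0
  have h2K := two_ne_K h2
  obtain ⟨h, rfl⟩ := h
  have hy0 : io f ^ 2 * Y ≠ 0 := mul_ne_zero (pow_ne_zero 2 hf) hY
  have hy : io f ^ 2 * Y ≠ (TWf f a b).negY (io f * X) (io f ^ 2 * Y) := by
    rw [negY_SW]
    intro h0
    have : (2 : RatFunc F) * (io f ^ 2 * Y) = 0 := by linear_combination h0
    exact (mul_ne_zero h2K hy0) this
  rw [Point.add_self_of_Y_ne hy]
  have hsl : (TWf f a b).slope (io f * X) (io f * X) (io f ^ 2 * Y) (io f ^ 2 * Y) =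
      (3 * (io f * X) ^ 2 + io (C a) * io f ^ 2) / (2 * (io f ^ 2 * Y)) := by
    rw [slope_of_Y_ne rfl hy, negY_SW]
    congr 1
    · simp
    · ring
  have eX3 : (TWf f a b).addX (io f * X) (io f * X) ((TWf f a b).slope (io f * X) (io f * X) (io f ^ 2 * Y) (io f ^ 2 * Y)) =
      io f * (io f * ((3 * X ^ 2 + io (C a)) / (2 * io f * Y)) ^ 2 - 2 * X) := by
    rw [hsl]
    simp only [addX]
    field_simp
    ring
  have eY3 : (TWf f a b).addY (io f * X) (io f * X) (io f ^ 2 * Y) ((TWf f a b).slope (io f * X) (io f * X) (io f ^ 2 * Y) (io f ^ 2 * Y)) =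
      io f ^ 2 * (-(((3 * X ^ 2 + io (C a)) / (2 * io f * Y)) *
        ((io f * ((3 * X ^ 2 + io (C a)) / (2 * io f * Y)) ^ 2 - 2 * X) - X) + Y)) := by
    rw [hsl]
    simp only [addY, negAddY, addX, negY]
    field_simp
    ring
  refine ⟨?_, ?_⟩
  · rw [← eX3, ← eY3]
    exact nonsingular_add h h (fun h0 => absurd h0.2 hy)
  · simp only [eX3, eY3]

theorem Pt.unique {f : F[X]} {a b : F} (hf0 : f ≠ 0) {P : (TWf f a b).Point} {X Y X' Y' : RatFunc F}
    (h : Pt P X Y) (h' : Pt P X' Y') : X = X' ∧ Y = Y' := by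
  have hf := io_ne hf0
  obtain ⟨h1, rfl⟩ := h
  obtain ⟨h2, e⟩ := h'
  simp only [Point.some.injEq] at e
  exact ⟨mul_left_cancel₀ hf e.1, mul_left_cancel₀ (pow_ne_zero 2 hf) e.2⟩

theorem pt_cases {f : F[X]} {a b : F} (hf0 : f ≠ 0) (P : (TWf f a b).Point) : P = 0 ∨ ∃ X Y, Pt P X Y := by
  cases P with
  | zero => exact Or.inl rfl
  | some x y h => exact Or.inr ⟨_, _, Pt.of_some hf0 h⟩

section ker

variable (v : Valuation (RatFunc F) ℤᵐ⁰)

/-- the kernel of reduction -/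
def Ker {f : F[X]} {a b : F} (P : (TWf f a b).Point) : Prop :=
  P = 0 ∨ ∃ X Y, Pt P X Y ∧ 1 < v X

theorem ker_iff {f : F[X]} {a b : F} (hf0 : f ≠ 0) {P : (TWf f a b).Point} {X Y : RatFunc F} (h : Pt P X Y) :
    Ker v P ↔ 1 < v X := by
  constructor
  · rintro (h0 | ⟨X', Y', h', hv'⟩)
    · obtain ⟨h1, h2⟩ := h
      rw [h0] at h2
      exact absurd h2 (by simp [Point.zero_def])
    · rw [(h.unique hf0 h').1]; exact hv'
  · intro h1
    exact Or.inr ⟨X, Y, h, h1⟩

theorem ker_neg {f : F[X]} {a b : F} {P : (TWf f a b).Point} (h : Ker v P) : Ker v (-P) := by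
  rcases h with h | ⟨X, Y, h, hv'⟩
  · left; rw [h]; rfl
  · exact Or.inr ⟨X, -Y, h.neg, hv'⟩

variable (hv : ∀ c : F, v (io (C c)) ≤ 1)

include hv in
open Classical in
theorem ker_add {f : F[X]} {a b : F} (hf0 : f ≠ 0) (h2 : (2 : F) ≠ 0) {P Q : (TWf f a b).Point} (hP : Ker v P)
    (hQ : Ker v Q) : Ker v (P + Q) := by
  have hf := io_ne hf0
  have h2K := two_ne_K h2
  rcases hP with rfl | ⟨X1, Y1, h1, v1⟩
  · rw [zero_add]; exact hQ
  rcases hQ with rfl | ⟨X2, Y2, h2', v2⟩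
  · rw [add_zero]; exact Or.inr ⟨X1, Y1, h1, v1⟩
  have E1 := h1.eqn hf0
  have E2 := h2'.eqn hf0
  by_cases hx : X1 = X2
  · subst hx
    have hyy : (Y1 - Y2) * (Y1 + Y2) = 0 := by
      apply mul_left_cancel₀ hf
      linear_combination E1 - E2
    have hY1 : Y1 ≠ 0 := by
      intro h0
      have hc := kpos_cub v hv a b v1
      rw [← E1, h0] at hc
      simp only [ne_eq, OfNat.ofNat_ne_zero, not_false_eq_true, zero_pow, mul_zero, map_zero] at hc
      exact pow_ne_zero 3 (lt_trans zero_lt_one v1).ne' hc.symm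
    rcases mul_eq_zero.mp hyy with h | h
    · have : Y2 = Y1 := (sub_eq_zero.mp h).symm
      subst this
      have hPQ : P = Q := by
        obtain ⟨_, rfl⟩ := h1
        obtain ⟨_, rfl⟩ := h2'
        rfl
      subst hPQ
      refine Or.inr ⟨_, _, h1.dbl hf0 h2 hY1, ?_⟩
      apply kpos_dbl v hv a b h2 v1
      rw [← E1]
      have hB : io (C b) = io f * Y2 ^ 2 - X1 ^ 3 - io (C a) * X1 := by
        linear_combination -E1
      rw [hB]
      field_simp
      ring
    · left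
      have : Y2 = -Y1 := by linear_combination h
      rw [this] at h2'
      exact h1.add_zero' h2'
  · refine Or.inr ⟨_, _, h1.add hf0 h2' hx, ?_⟩
    apply kpos_add v hv a b v1 v2
    exact add_quad _ _ _ _ _ _ _ _ (sub_ne_zero.mpr hx) E1 E2 rfl

include hv in
open Classical in
theorem ker_nsmul {f : F[X]} {a b : F} (hf0 : f ≠ 0) (h2 : (2 : F) ≠ 0) {P : (TWf f a b).Point} (hP : Ker v P)
    (n : ℕ) : Ker v (n • P) := by
  induction n with
  | zero => rw [zero_nsmul]; exact Or.inl rfl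
  | succ n ih => rw [succ_nsmul]; exact ker_add v hv hf0 h2 ih hP

include hv in
open Classical in
theorem ker_zsmul {f : F[X]} {a b : F} (hf0 : f ≠ 0) (h2 : (2 : F) ≠ 0) {P : (TWf f a b).Point} (hP : Ker v P)
    (n : ℤ) : Ker v (n • P) := by
  rcases Int.eq_nat_or_neg n with ⟨k, rfl | rfl⟩
  · rw [natCast_zsmul]; exact ker_nsmul v hv hf0 h2 hP k
  · rw [neg_smul, natCast_zsmul]; exact ker_neg v (ker_nsmul v hv hf0 h2 hP k)

include hv in
open Classical in
/-- points with the same reduction have the same second coordinate -/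
theorem ker_sub {f : F[X]} {a b : F} (hf0 : f ≠ 0) (h2 : (2 : F) ≠ 0) (hvf : v (io f) = 1)
    {P Q : (TWf f a b).Point} {X1 Y1 X2 Y2 : RatFunc F} (h1 : Pt P X1 Y1) (h2' : Pt Q X2 Y2)
    (v1 : v X1 ≤ 1) (v2 : v X2 ≤ 1) (w1 : v Y1 = 1) (w2 : v Y2 = 1) (hk : Ker v (P - Q)) :
    v (Y1 - Y2) < 1 := by
  have hf := io_ne hf0
  have h2K := two_ne_K h2
  have E1 := h1.eqn hf0
  have E2 := h2'.eqn hf0
  have vv2 : v 2 = 1 := by
    have : (2 : RatFunc F) = io (C 2) := by rw [map_ofNat, map_ofNat]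
    rw [this]; exact vc_unit v hv h2
  have vv3 : v 3 ≤ 1 := by
    have : (3 : RatFunc F) = io (C 3) := by rw [map_ofNat, map_ofNat]
    rw [this]; exact hv 3
  rw [sub_eq_add_neg] at hk
  have hn := h2'.neg
  by_cases hx : X1 = X2
  · subst hx
    have hyy : (Y1 - Y2) * (Y1 + Y2) = 0 := by
      apply mul_left_cancel₀ hf
      linear_combination E1 - E2
    rcases mul_eq_zero.mp hyy with h | h
    · rw [h, map_zero]; exact zero_lt_one
    · exfalso
      have hY : -Y2 = Y1 := by linear_combination -h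
      rw [hY] at hn
      have hPQ : P = -Q := by
        obtain ⟨_, e1⟩ := h1
        obtain ⟨_, e2⟩ := hn
        rw [e1, e2]
      rw [← hPQ] at hk
      have hY1 : Y1 ≠ 0 := by intro h0; rw [h0, map_zero] at w1; exact zero_ne_one w1
      have hd := h1.dbl hf0 h2 hY1
      rw [ker_iff v hf0 hd] at hk
      have hnum : v ((3 * X1 ^ 2 + io (C a)) / (2 * io f * Y1)) ≤ 1 := by
        rw [map_div₀, map_mul, map_mul, vv2, hvf, w1, one_mul, one_mul, div_one]
        refine v.map_add_le ?_ (hv a)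
        rw [map_mul, map_pow]
        exact mul_le_one' vv3 (pow_le_one' v1 2)
      have : v (io f * ((3 * X1 ^ 2 + io (C a)) / (2 * io f * Y1)) ^ 2 - 2 * X1) ≤ 1 := by
        refine v.map_sub_le ?_ ?_
        · rw [map_mul, map_pow, hvf, one_mul]; exact pow_le_one' hnum 2
        · rw [map_mul, vv2, one_mul]; exact v1
      exact absurd hk (not_lt.mpr this)
  · have hd := h1.add hf0 hn hx
    rw [ker_iff v hf0 hd] at hk
    by_contra hcon
    push Not at hcon
    have hY12 : Y1 - Y2 ≠ 0 := by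
      intro h0; rw [h0, map_zero] at hcon; exact absurd hcon (not_le.mpr zero_lt_one)
    have hle : v (Y1 - Y2) ≤ 1 := v.map_sub_le w1.le w2.le
    have hv12 : v (Y1 - Y2) = 1 := le_antisymm hle hcon
    have hxd : X1 - X2 ≠ 0 := sub_ne_zero.mpr hx
    have e : (Y1 - -Y2) / (X1 - X2) = (X1 ^ 2 + X1 * X2 + X2 ^ 2 + io (C a)) / (io f * (Y1 - Y2)) := by
      rw [div_eq_div_iff hxd (mul_ne_zero hf hY12)]
      linear_combination E1 - E2
    have hs : v ((Y1 - -Y2) / (X1 - X2)) ≤ 1 := by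
      rw [e, map_div₀, map_mul, hvf, hv12, one_mul, div_one]
      refine v.map_add_le (v.map_add_le (v.map_add_le ?_ ?_) ?_) (hv a)
      · rw [map_pow]; exact pow_le_one' v1 2
      · rw [map_mul]; exact mul_le_one' v1 v2
      · rw [map_pow]; exact pow_le_one' v2 2
    have : v (io f * ((Y1 - -Y2) / (X1 - X2)) ^ 2 - X1 - X2) ≤ 1 := by
      refine v.map_sub_le (v.map_sub_le ?_ v1) v2
      rw [map_mul, map_pow, hvf, one_mul]; exact pow_le_one' hs 2
    exact absurd hk (not_lt.mpr this)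

open Classical in
theorem ker_of_close {f : F[X]} {a b : F} (hf0 : f ≠ 0) (hvf : v (io f) = 1)
    {P Q : (TWf f a b).Point} {X1 Y1 X2 Y2 : RatFunc F} (h1 : Pt P X1 Y1) (h2' : Pt Q X2 Y2)
    (v1 : v X1 ≤ 1) (v2 : v X2 ≤ 1) (hx1 : v (X1 - X2) < 1) (hy1 : v (Y1 - Y2) = 1) : Ker v (P + Q) := by
  have hf := io_ne hf0
  have E1 := h1.eqn hf0
  have E2 := h2'.eqn hf0
  by_cases hx : X1 = X2
  · subst hx
    have hyy : (Y1 - Y2) * (Y1 + Y2) = 0 := by
      apply mul_left_cancel₀ hf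
      linear_combination E1 - E2
    rcases mul_eq_zero.mp hyy with h | h
    · rw [h, map_zero] at hy1; exact absurd hy1 zero_ne_one
    · left
      have : Y2 = -Y1 := by linear_combination h
      rw [this] at h2'
      exact h1.add_zero' h2'
  · have hd := h1.add hf0 h2' hx
    rw [ker_iff v hf0 hd]
    have hxd : X1 - X2 ≠ 0 := sub_ne_zero.mpr hx
    have hvx : v (X1 - X2) ≠ 0 := by rw [Valuation.ne_zero_iff]; exact hxd
    have hl : 1 < v ((Y1 - Y2) / (X1 - X2)) := by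
      rw [map_div₀, hy1, one_div]
      exact (one_lt_inv₀ (zero_lt_iff.mpr hvx)).mpr hx1
    have hl2 : 1 < v (io f * ((Y1 - Y2) / (X1 - X2)) ^ 2) := by
      rw [map_mul, map_pow, hvf, one_mul]
      exact one_lt_pow₀ hl two_ne_zero
    rw [sub_sub, v.map_sub_eq_of_lt_left]
    · exact hl2
    · exact lt_of_le_of_lt (v.map_add_le v1 v2) hl2

include hv in
open Classical in
/-- a point reducing to the point of order three with abscissa `3` -/
theorem ker_three {f : F[X]} {A : F} (hf0 : f ≠ 0) (h2 : (2 : F) ≠ 0) (hvf : v (io f) = 1)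
    {P : (TWf f (ca A) (cb A)).Point} {X Y : RatFunc F} (h : Pt P X Y)
    (hX : v (X - 3) < 1) (hY : v Y = 1) : Ker v ((3 : ℤ) • P) := by
  have hf := io_ne hf0
  have h2K := two_ne_K h2
  have E := h.eqn hf0
  have vv2 : v 2 = 1 := by
    have : (2 : RatFunc F) = io (C 2) := by rw [map_ofNat, map_ofNat]
    rw [this]; exact vc_unit v hv h2
  have vn : ∀ n : ℕ, v (n : RatFunc F) ≤ 1 := by
    intro n
    have : (n : RatFunc F) = io (C (n : F)) := by rw [map_natCast, map_natCast]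
    rw [this]; exact hv _
  have vv3 : v 3 ≤ 1 := by exact_mod_cast vn 3
  have vX : v X ≤ 1 := by
    have : X = (X - 3) + 3 := by ring
    rw [this]
    exact v.map_add_le hX.le vv3
  have hY0 : Y ≠ 0 := by intro h0; rw [h0, map_zero] at hY; exact zero_ne_one hY
  set l := (3 * X ^ 2 + io (C (ca A))) / (2 * io f * Y) with hl
  have hd := h.dbl hf0 h2 hY0
  rw [← hl] at hd
  have vl : v l ≤ 1 := by
    rw [hl, map_div₀, map_mul, map_mul, vv2, hvf, hY, one_mul, one_mul, div_one]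
    refine v.map_add_le ?_ (hv _)
    rw [map_mul, map_pow]
    exact mul_le_one' vv3 (pow_le_one' vX 2)
  have hX3 : v ((io f * l ^ 2 - 2 * X) - X) < 1 := by
    have e : (io f * l ^ 2 - 2 * X) - X = (X - 3) * (-3 * X ^ 3 - 9 * X ^ 2 - io (C (27 + 6 * ca A)) * X -
        io (C (81 + 18 * ca A + 12 * cb A))) / (2 ^ 2 * io f * Y ^ 2) := by
      have h4K : (2 : RatFunc F) ^ 2 ≠ 0 := pow_ne_zero 2 h2K
      have hl' : l * (2 * io f * Y) = 3 * X ^ 2 + io (C (ca A)) := by
        rw [hl, div_mul_cancel₀]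
        exact mul_ne_zero (mul_ne_zero h2K hf) hY0
      rw [eq_div_iff (mul_ne_zero (mul_ne_zero h4K hf) (pow_ne_zero 2 hY0))]
      simp only [ca, cb, C_sub, C_add, C_mul, C_pow, map_sub, map_add, map_mul, map_pow, map_ofNat] at E hl' ⊢
      linear_combination (l * (2 * io f * Y) + (3 * X ^ 2 + (6 * io (C A) - 27))) * hl' - 12 * X * E
    rw [e, map_div₀, map_mul, map_mul, map_mul, map_pow, map_pow, vv2, hvf, hY]
    simp only [one_pow, one_mul, div_one]
    have hc : v (-3 * X ^ 3 - 9 * X ^ 2 - io (C (27 + 6 * ca A)) * X - io (C (81 + 18 * ca A + 12 * cb A))) ≤ 1 := by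
      refine v.map_sub_le (v.map_sub_le (v.map_sub_le ?_ ?_) ?_) (hv _)
      · rw [map_mul, map_pow, Valuation.map_neg]; exact mul_le_one' vv3 (pow_le_one' vX 3)
      · rw [map_mul, map_pow]; exact mul_le_one' (by exact_mod_cast vn 9) (pow_le_one' vX 2)
      · rw [map_mul]; exact mul_le_one' (hv _) vX
    calc v (X - 3) * v (-3 * X ^ 3 - 9 * X ^ 2 - io (C (27 + 6 * ca A)) * X - io (C (81 + 18 * ca A + 12 * cb A)))
        ≤ v (X - 3) * 1 := mul_le_mul' le_rfl hc
      _ = v (X - 3) := mul_one _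
      _ < 1 := hX
  have hX3' : v (io f * l ^ 2 - 2 * X) ≤ 1 := by
    have : io f * l ^ 2 - 2 * X = ((io f * l ^ 2 - 2 * X) - X) + X := by ring
    rw [this]
    exact v.map_add_le hX3.le vX
  have hY3 : v (-(l * ((io f * l ^ 2 - 2 * X) - X) + Y) - Y) = 1 := by
    have e : -(l * ((io f * l ^ 2 - 2 * X) - X) + Y) - Y = -(2 * Y + l * ((io f * l ^ 2 - 2 * X) - X)) := by ring
    rw [e, Valuation.map_neg, v.map_add_eq_of_lt_left]
    · rw [map_mul, vv2, hY, one_mul]
    · rw [map_mul, map_mul, vv2, hY, one_mul]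
      calc v l * v ((io f * l ^ 2 - 2 * X) - X) ≤ 1 * v ((io f * l ^ 2 - 2 * X) - X) := mul_le_mul' vl le_rfl
        _ = v ((io f * l ^ 2 - 2 * X) - X) := one_mul _
        _ < 1 := hX3
  have e3 : (3 : ℤ) • P = (P + P) + P := by
    have : (3 : ℤ) = 1 + 1 + 1 := by norm_num
    rw [this, add_zsmul, add_zsmul, one_zsmul]
  rw [e3]
  exact ker_of_close v hf0 hvf hd h hX3' vX hX3 hY3

include hv in
open Classical in
/-- **The second coordinate of a combination at the place.** -/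
theorem ker_comb {f : F[X]} {A : F} (hf0 : f ≠ 0) (h2 : (2 : F) ≠ 0) (hvf : v (io f) = 1)
    {P Q : (TWf f (ca A) (cb A)).Point} {X Y X' Y' : RatFunc F} (h : Pt P X Y)
    (hX : v (X - 3) < 1) (hY : v Y = 1) (hQ : Ker v Q) (r s ε : ℤ) (hε : ε = 1 ∨ ε = -1) (hr : (3 : ℤ) ∣ r - ε)
    (h' : Pt (r • P + s • Q) X' Y') (hX' : v X' ≤ 1) (hY' : v Y' = 1) : v (Y' - (ε : RatFunc F) * Y) < 1 := by
  have vv3 : v 3 ≤ 1 := by
    have : (3 : RatFunc F) = io (C 3) := by rw [map_ofNat, map_ofNat]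
    rw [this]; exact hv 3
  have vX : v X ≤ 1 := by
    have : X = (X - 3) + 3 := by ring
    rw [this]
    exact v.map_add_le hX.le vv3
  obtain ⟨c, hc⟩ := hr
  have hk3 := ker_three v hv hf0 h2 hvf h hX hY
  have hk : Ker v ((r • P + s • Q) - ε • P) := by
    have e : (r • P + s • Q) - ε • P = c • ((3 : ℤ) • P) + s • Q := by
      have : r = ε + c * 3 := by linarith
      rw [this, add_zsmul, mul_zsmul]
      abel
    rw [e]
    exact ker_add v hv hf0 h2 (ker_zsmul v hv hf0 h2 hk3 c) (ker_zsmul v hv hf0 h2 hQ s)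
  rcases hε with rfl | rfl
  · rw [one_zsmul] at hk
    have := ker_sub v hv hf0 h2 hvf h' h hX' vX hY' hY hk
    simpa using this
  · rw [neg_zsmul, one_zsmul] at hk
    have hYn : v (-Y) = 1 := by rw [Valuation.map_neg]; exact hY
    have := ker_sub v hv hf0 h2 hvf h' h.neg hX' vX hY' hYn hk
    simpa using this

end ker

end Pool.Agent.H546
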