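import Mathlib

set_option autoImplicit false

/-!
# The series `u = z/(1-z)²` and some binomial congruences
-/

namespace Pool.Agent.H546

open PowerSeries Finset

section ser

variable (R : Type*) [CommRing R]

/-- the geometric series -/
noncomputable def g1 : R⟦X⟧ := PowerSeries.mk 1

/-- the series `z/(1-z)²` -/
noncomputable def us : R⟦X⟧ := X * g1 R ^ 2

theorem g1_mul : g1 R * (1 - X) = 1 := PowerSeries.mk_one_mul_one_sub_eq_one R

theorem g1_der : d⁄dX R (g1 R) = g1 R ^ 2 := by
  have h := congrArg (d⁄dX R) (g1_mul R)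
  rw [Derivation.leibniz, map_sub, derivative_one, derivative_X, smul_eq_mul, smul_eq_mul] at h
  have h2 := g1_mul R
  linear_combination g1 R * h - (d⁄dX R (g1 R)) * h2

theorem us_der : d⁄dX R (us R) = g1 R ^ 3 * (1 + X) := by
  unfold us
  rw [Derivation.leibniz, derivative_X, smul_eq_mul, smul_eq_mul, derivative_pow, g1_der]
  have h2 := g1_mul R
  push_cast
  linear_combination (-g1 R ^ 2) * h2

theorem us_three : 3 * us R + 1 = g1 R ^ 2 * (1 + X + X ^ 2) := by
  have h2 := g1_mul R
  unfold us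
  linear_combination (-(g1 R * (1 - X)) - 1) * h2

theorem coeff_us_pow (i m : ℕ) (hi : 1 ≤ i) :
    coeff m (us R ^ i) = (((m + i - 1).choose (2 * i - 1) : ℕ) : R) := by
  obtain ⟨j, rfl⟩ : ∃ j, i = j + 1 := ⟨i - 1, by omega⟩
  have e : us R ^ (j + 1) = X ^ (j + 1) * (PowerSeries.mk 1 : R⟦X⟧) ^ ((2 * j + 1) + 1) := by
    unfold us g1
    rw [mul_pow, ← pow_mul]
    congr 2
  rw [e, mk_one_pow_eq_mk_choose_add, coeff_X_pow_mul', show 2 * (j + 1) - 1 = 2 * j + 1 by omega]
  split_ifs with h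
  · rw [coeff_mk]
    congr 2
    omega
  · rw [Nat.choose_eq_zero_of_lt (by omega), Nat.cast_zero]

end ser

section binom

variable {p : ℕ} [hp : Fact p.Prime]

theorem lucas (a b c d : ℕ) (hb : b < p) (hd : d < p) :
    ((a * p + b).choose (c * p + d)) ≡ (b.choose d) * (a.choose c) [MOD p] := by
  have h := Choose.choose_modEq_choose_mod_mul_choose_div_nat (n := a * p + b) (k := c * p + d) (p := p)
  have hp0 := hp.out.pos
  have e1 : (a * p + b) % p = b := by
    rw [Nat.add_mod, Nat.mul_mod_left, zero_add, Nat.mod_mod, Nat.mod_eq_of_lt hb]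
  have e2 : (a * p + b) / p = a := by
    rw [add_comm, Nat.add_mul_div_right _ _ hp0, Nat.div_eq_of_lt hb, zero_add]
  have e3 : (c * p + d) % p = d := by
    rw [Nat.add_mod, Nat.mul_mod_left, zero_add, Nat.mod_mod, Nat.mod_eq_of_lt hd]
  have e4 : (c * p + d) / p = c := by
    rw [add_comm, Nat.add_mul_div_right _ _ hp0, Nat.div_eq_of_lt hd, zero_add]
  rw [e1, e2, e3, e4] at h
  exact h

theorem b1 (j : ℕ) (h1 : p < j) (h2 : j < 2 * p) : p ∣ (j + p - 1).choose (2 * p - 1) := by
  have hp0 := hp.out.pos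
  have h := lucas (p := p) 2 (j - p - 1) 1 (p - 1) (by omega) (by omega)
  rw [Nat.choose_eq_zero_of_lt (show j - p - 1 < p - 1 by omega), zero_mul] at h
  rw [show 2 * p + (j - p - 1) = j + p - 1 by omega, show 1 * p + (p - 1) = 2 * p - 1 by omega] at h
  exact (Nat.modEq_zero_iff_dvd).mp h

theorem b3 (i : ℕ) (h1 : 1 ≤ i) (h2 : 2 * i + 1 ≤ 3 * p) :
    ((2 * p + i - 1).choose (2 * i - 1)) ≡ 2 * ((p + i - 1).choose (2 * i - 1)) [MOD p] := by
  have hp0 := hp.out.pos
  rcases lt_or_ge (2 * i - 1) p with hc | hc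
  · have h := lucas (p := p) 2 (i - 1) 0 (2 * i - 1) (by omega) hc
    have h' := lucas (p := p) 1 (i - 1) 0 (2 * i - 1) (by omega) hc
    rw [Nat.choose_eq_zero_of_lt (show i - 1 < 2 * i - 1 by omega), zero_mul, zero_mul, zero_add] at h h'
    rw [show 2 * p + (i - 1) = 2 * p + i - 1 by omega] at h
    rw [show 1 * p + (i - 1) = p + i - 1 by omega] at h'
    exact h.trans (by simpa using (h'.mul_left 2).symm)
  · rcases le_or_gt i p with hc2 | hc2
    · have h := lucas (p := p) 2 (i - 1) 1 (2 * i - 1 - p) (by omega) (by omega)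
      have h' := lucas (p := p) 1 (i - 1) 1 (2 * i - 1 - p) (by omega) (by omega)
      rw [show 2 * p + (i - 1) = 2 * p + i - 1 by omega, show 1 * p + (2 * i - 1 - p) = 2 * i - 1 by omega] at h
      rw [show 1 * p + (i - 1) = p + i - 1 by omega, show 1 * p + (2 * i - 1 - p) = 2 * i - 1 by omega] at h'
      refine h.trans ?_
      have := (h'.mul_left 2).symm
      refine Nat.ModEq.trans ?_ this
      have : (i - 1).choose (2 * i - 1 - p) * Nat.choose 2 1 =
        2 * ((i - 1).choose (2 * i - 1 - p) * Nat.choose 1 1) := by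
        simp; ring
      rw [this]
    · have h := lucas (p := p) 3 (i - 1 - p) 2 (2 * i - 1 - 2 * p) (by omega) (by omega)
      rw [Nat.choose_eq_zero_of_lt (show i - 1 - p < 2 * i - 1 - 2 * p by omega), zero_mul,
        show 3 * p + (i - 1 - p) = 2 * p + i - 1 by omega,
        show 2 * p + (2 * i - 1 - 2 * p) = 2 * i - 1 by omega] at h
      rw [Nat.choose_eq_zero_of_lt (show p + i - 1 < 2 * i - 1 by omega), mul_zero]
      exact h

theorem choose_p (j : ℕ) (h0 : 0 < j) (h1 : j < p) : p ∣ p.choose j :=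
  hp.out.dvd_choose_self (by omega) h1

theorem choose_2p (j : ℕ) (h0 : 0 < j) (h1 : j < p) : p ∣ (2 * p).choose j := by
  have h := lucas (p := p) 2 0 0 j hp.out.pos h1
  rw [Nat.choose_eq_zero_of_lt h0, zero_mul, zero_mul, zero_add, add_zero] at h
  exact (Nat.modEq_zero_iff_dvd).mp h

theorem vander (a : ℕ) (ha : ∀ j, 0 < j → j < p → p ∣ a.choose j) :
    (a + p).choose p ≡ a.choose p + 1 [MOD p ^ 2] := by
  have hp0 := hp.out.pos
  rw [Nat.add_choose_eq, Finset.Nat.sum_antidiagonal_eq_sum_range_succ_mk, sum_range_succ]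
  obtain ⟨m, hm⟩ : ∃ m, p = m + 1 := ⟨p - 1, by omega⟩
  have hz : ∑ x ∈ range p, a.choose x * p.choose (p - x) ≡ 1 [MOD p ^ 2] := by
    rw [show range p = range (m + 1) by rw [← hm], sum_range_succ', Nat.choose_zero_right, one_mul,
      Nat.sub_zero, Nat.choose_self]
    have : ∑ k ∈ range m, a.choose (k + 1) * p.choose (p - (k + 1)) ≡ 0 [MOD p ^ 2] := by
      rw [Nat.modEq_zero_iff_dvd]
      apply Finset.dvd_sum
      intro k hk
      have hk' := mem_range.mp hk
      rw [pow_two]
      exact mul_dvd_mul (ha _ (by omega) (by omega)) (choose_p _ (by omega) (by omega))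
    simpa using this.add_right 1
  simp only [Nat.sub_self, Nat.choose_zero_right, mul_one]
  rw [add_comm (a.choose p)]
  exact hz.add_right _

theorem b2 (hp3 : p ≠ 3) : (3 * p - 1).choose (2 * p - 1) ≡ 2 [MOD p ^ 2] := by
  have hp0 := hp.out.pos
  have h1 := vander (p := p) p (fun j h0 h1 => choose_p j h0 h1)
  rw [Nat.choose_self, ← two_mul] at h1
  have h2 := vander (p := p) (2 * p) (fun j h0 h1 => choose_2p j h0 h1)
  have h3 : (2 * p + p).choose p ≡ 3 [MOD p ^ 2] := h2.trans (h1.add_right 1)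
  rw [show 2 * p + p = 3 * p by ring] at h3
  obtain ⟨m, hm⟩ : ∃ m, p = m + 1 := ⟨p - 1, by omega⟩
  have e1 : (3 * p - 1).choose (2 * p - 1) = (3 * p - 1).choose p := by
    rw [← Nat.choose_symm (by omega)]
    congr 1
    omega
  have e2 : (3 * p).choose p = (3 * p - 1).choose (p - 1) + (3 * p - 1).choose p := by
    have := Nat.choose_succ_succ (3 * p - 1) (p - 1)
    rw [show (3 * p - 1).succ = 3 * p by omega, show (p - 1).succ = p by omega] at this
    exact this
  have e3 : (3 * p).choose p = 3 * (3 * p - 1).choose (p - 1) := by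
    have := Nat.add_one_mul_choose_eq (3 * p - 1) (p - 1)
    rw [show 3 * p - 1 + 1 = 3 * p by omega, show p - 1 + 1 = p by omega] at this
    apply Nat.eq_of_mul_eq_mul_right hp0
    rw [← this]
    ring
  have e4 : 3 * (3 * p - 1).choose p = 2 * (3 * p).choose p := by omega
  rw [e1]
  have h4 : 3 * (3 * p - 1).choose p ≡ 3 * 2 [MOD p ^ 2] := by
    rw [e4]
    exact h3.mul_left 2
  have hcop : Nat.Coprime (p ^ 2) 3 := by
    apply Nat.Coprime.pow_left
    rw [Nat.coprime_primes hp.out (by norm_num)]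
    exact hp3
  exact Nat.ModEq.cancel_left_of_coprime (c := 3) (by
    rw [Nat.Coprime] at hcop; exact hcop) h4

end binom

end Pool.Agent.H546
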