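import Pool.Agent.H546.UModel
import Pool.Agent.H546.Ser
import Pool.Agent.H546.Leg

set_option autoImplicit false

/-!
# The unit root modulo `p²` for the cubic family
-/

namespace Pool.Agent.H546

open PowerSeries

section low

variable {R : Type*} [CommRing R]

theorem us_pow_eq (n : ℕ) : us R ^ n = X ^ n * g1 R ^ (2 * n) := by
  unfold us
  rw [mul_pow, ← pow_mul]

theorem g1_const : constantCoeff (g1 R) = 1 := by
  unfold g1
  simp

theorem coeff_low (n : ℕ) (f : R⟦X⟧) : coeff n (X ^ n * f) = constantCoeff f := by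
  have := coeff_X_pow_mul f n 0
  rw [zero_add] at this
  rw [this, coeff_zero_eq_constantCoeff]

theorem us_der_const : constantCoeff (d⁄dX R (us R)) = 1 := by
  rw [us_der]
  simp [g1_const]

theorem coeff_uu (n : ℕ) : coeff n (us R ^ n * d⁄dX R (us R)) = 1 := by
  rw [us_pow_eq, mul_assoc, coeff_low, map_mul, map_pow, g1_const, us_der_const]
  simp

theorem coeff_X_dvd {n m : ℕ} (h : m < n) (f : R⟦X⟧) : coeff m (X ^ n * f) = 0 := by
  rw [coeff_X_pow_mul', if_neg (by omega)]

theorem us_const : constantCoeff (us R) = 0 := by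
  unfold us
  simp

end low

variable {O K k : Type*} [CommRing O] [IsDomain O] [Field K] [Algebra O K] [Field k]
  (S : DV O K k)

/-- the relation between the two coefficients of the correction -/
theorem corr_coeff {p : ℕ} [hp : Fact p.Prime] [CharP k p] (T : Polynomial O)
    (hT : ∀ i, 3 * p < 2 * i + 1 → S.red (T.coeff i) = 0) :
    S.red (coeff (2 * p) (Polynomial.aeval (us O) T)) = 2 * S.red (coeff p (Polynomial.aeval (us O) T)) := by
  have hp0 := hp.out.pos
  rw [Polynomial.aeval_eq_sum_range, map_sum, map_sum, map_sum, map_sum, Finset.mul_sum]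
  refine Finset.sum_congr rfl fun i _ => ?_
  rw [coeff_smul, coeff_smul, smul_eq_mul, smul_eq_mul, map_mul, map_mul]
  by_cases hi : 3 * p < 2 * i + 1
  · rw [hT i hi]; ring
  · rcases Nat.eq_zero_or_pos i with h0 | h0
    · subst h0
      rw [pow_zero, coeff_one, coeff_one, if_neg (by omega), if_neg (by omega), map_zero]; ring
    · rw [coeff_us_pow _ _ _ h0, coeff_us_pow _ _ _ h0, map_natCast, map_natCast]
      have h := b3 (p := p) i h0 (by omega)
      have h' : (((2 * p + i - 1).choose (2 * i - 1) : ℕ) : k) =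
          ((2 * (p + i - 1).choose (2 * i - 1) : ℕ) : k) := by
        rw [CharP.cast_eq_iff_mod_eq k p]
        exact h
      rw [h']
      push_cast
      ring

section main

variable {S}

/-- congruence modulo `(q², X^(2p))` -/
noncomputable def idl (p : ℕ) (q : O) : Ideal (O⟦X⟧) := Ideal.span {C q ^ 2, X ^ (2 * p)}

theorem idl_coeff {p : ℕ} {q : O} {f : O⟦X⟧} (hf : f ∈ idl p q) {m : ℕ} (hm : m < 2 * p) :
    q ^ 2 ∣ coeff m f := by
  unfold idl at hf
  rw [Ideal.mem_span_pair] at hf
  obtain ⟨a, b, rfl⟩ := hf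
  rw [map_add, mul_comm b, coeff_X_dvd hm, add_zero, mul_comm, ← map_pow, coeff_C_mul]
  exact dvd_mul_right _ _

theorem q2_mem (p : ℕ) (q : O) : (C q ^ 2 : O⟦X⟧) ∈ idl p q :=
  Ideal.subset_span (by simp)

theorem X2_mem (p : ℕ) (q : O) : (X ^ (2 * p) : O⟦X⟧) ∈ idl p q :=
  Ideal.subset_span (by simp)

variable (S)

/-- the algebra of the family -/
theorem fam_alg (z : O) : Polynomial.aeval (us O) (wu (4 * z)) =
    g1 O ^ 6 * ((1 - X ^ 3) ^ 2 + 4 * C z * X ^ 3) := by
  have h1 := g1_mul O
  have h3 := us_three O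
  have e : Polynomial.aeval (us O) (wu (4 * z)) = C (4 * z) * us O ^ 3 + (3 * us O + 1) ^ 2 := by
    simp only [wu, map_add, map_mul, map_pow, map_one, Polynomial.aeval_X, Polynomial.aeval_C,
      map_ofNat]
    rfl
  rw [e, h3, map_mul, map_ofNat]
  unfold us
  linear_combination (-(g1 O ^ 4) * (1 + X + X ^ 2) ^ 2 * (g1 O * (1 - X) + 1)) * h1

/-- **The unit root modulo `p²` for the cubic family.** -/
theorem key3 {p : ℕ} [hp : Fact p.Prime] [CharP k p] (hp2 : p ≠ 2) (hp3 : p ≠ 3) (hq : S.q = (p : O))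
    {z A' w : O} (hz : S.red (4 * z) ≠ 0) (hA' : S.red A' = S.red (4 * z) ^ p) (hw : S.red w ≠ 0)
    {N D M : Polynomial O} (hN : N.map S.red = Polynomial.X ^ p) (hD : D.map S.red = 1)
    (hNd : N.natDegree ≤ p) (hDd : D.natDegree < p) (hwr : wr N D = Polynomial.C S.q * M)
    (ode : wu (4 * z) * M ^ 2 = Polynomial.C w ^ 2 * tu A' N D) :
    ∃ ε : O, ε ^ 2 = 1 ∧ S.q ^ 2 ∣ ε * w * (2 * lg (p / 3) z + lg (2 * p / 3) z) - 3 := by
  have hp0 := hp.out.pos
  have hp2' := hp.out.two_le
  obtain ⟨T, hNT, -, hTc⟩ := corr S hp2 hq hz hA' hw hN hD hNd hDd hwr ode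
  have htt := corr_coeff S T hTc
  set q := S.q with hqd
  have hq0 : q ≠ 0 := S.q_ne
  have hCq : (C q : O⟦X⟧) ≠ 0 := fun h => hq0 (by
    have := congrArg constantCoeff h
    simpa using this)
  -- names
  set al := Polynomial.aeval (R := O) (us O) with hal
  have alC : ∀ c : O, al (Polynomial.C c) = C c := fun c => by
    rw [hal, Polynomial.aeval_C]; rfl
  have alX : al Polynomial.X = us O := Polynomial.aeval_X _
  have alD : ∀ P : Polynomial O, d⁄dX O (al P) = al (Polynomial.derivative P) * d⁄dX O (us O) := by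
    intro P
    induction P using Polynomial.induction_on' with
    | add P Q h1 h2 => rw [map_add, map_add, map_add, map_add, h1, h2]; ring
    | monomial n a =>
      rw [← Polynomial.C_mul_X_pow_eq_monomial, map_mul, map_pow, alC, alX, Derivation.leibniz,
        derivative_C, derivative_pow, Polynomial.derivative_C_mul, Polynomial.derivative_X_pow,
        map_mul, map_mul, map_pow, alC, alX, smul_eq_mul, smul_eq_mul, map_natCast, map_natCast]
      ring
  obtain ⟨D1, hD1⟩ := S.dvd_of_map (P := D - 1) (by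
    rw [Polynomial.map_sub, hD, Polynomial.map_one, sub_self])
  have hDe : al D = 1 + C q * al D1 := by
    have : D = 1 + Polynomial.C q * D1 := by rw [← hD1]; ring
    conv_lhs => rw [this]
    rw [map_add, map_one, map_mul, alC]
  have hDu : IsUnit (al D) := by
    rw [PowerSeries.isUnit_iff_constantCoeff]
    apply S.unit_of_red
    rw [hDe, map_add, map_mul, map_one, constantCoeff_C, map_add, map_mul, map_one, S.red_q]
    simp
  obtain ⟨iD, hiD⟩ := hDu.exists_left_inv
  set us' := d⁄dX O (us O) with hus'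
  have hus'e : us' = g1 O ^ 3 * (1 + X) := us_der O
  set U := al N * iD with hU
  set U1 := al M * us' * iD ^ 2 with hU1
  set v := us O ^ p with hv
  set η := al T * iD with hη
  have hUv : U = v + C q * η := by
    rw [hU, hNT, map_add, map_mul, map_mul, map_pow, alC, alX]
    linear_combination v * hiD
  -- derivative of U
  have hiD' : d⁄dX O iD = - iD ^ 2 * (al (Polynomial.derivative D) * us') := by
    have h := congrArg (d⁄dX O) hiD
    rw [Derivation.leibniz, derivative_one, smul_eq_mul, smul_eq_mul, alD] at h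
    linear_combination iD * h - (d⁄dX O iD) * hiD
  have hdU : d⁄dX O U = C q * U1 := by
    have hw' : al (Polynomial.derivative N) * al D - al N * al (Polynomial.derivative D) = C q * al M := by
      rw [← alC, ← map_mul al (Polynomial.C q), ← hwr, wr, map_sub, map_mul, map_mul]
    rw [hU, Derivation.leibniz, smul_eq_mul, smul_eq_mul, alD, hiD', hU1]
    linear_combination us' * iD ^ 2 * hw' - us' * iD * al (Polynomial.derivative N) * hiD
  set v1 := us O ^ (p - 1) * us' with hv1
  have hCp : (C q : O⟦X⟧) = (p : O⟦X⟧) := by rw [hq, map_natCast]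
  have hdv : d⁄dX O v = C q * v1 := by
    rw [hv, derivative_pow, hCp, hv1]; ring
  have hU1e : U1 = v1 + d⁄dX O η := by
    apply mul_left_cancel₀ hCq
    rw [← hdU, hUv, map_add, hdv, Derivation.leibniz, derivative_C, smul_eq_mul, smul_eq_mul]
    ring
  -- the differential equation
  have hps := ps3_sq z
  set y2 : O⟦X⟧ := (1 - X ^ 3) ^ 2 + 4 * C z * X ^ 3 with hy2
  have hfam := fam_alg z
  rw [← hal, ← hy2] at hfam
  have hode := congrArg al ode
  rw [map_mul, map_mul, map_pow, map_pow, alC, hfam] at hode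
  have htu : al (tu A' N D) = al D * (C A' * al N ^ 3 + (3 * al N + al D) ^ 2 * al D) := by
    simp only [tu, map_mul, map_add, map_pow, alC, map_ofNat]
  rw [htu] at hode
  set c := cs3 z with hc
  have hc2 : c ^ 2 * y2 = (1 + X) ^ 2 := by
    rw [hc, cs3]; linear_combination (1 + X) ^ 2 * hps
  have hde : U1 ^ 2 = C w ^ 2 * c ^ 2 * (C A' * U ^ 3 + (3 * U + 1) ^ 2) := by
    have e1 : U1 ^ 2 * y2 = C w ^ 2 * (1 + X) ^ 2 * (C A' * U ^ 3 + (3 * U + 1) ^ 2) := by
      have e2 : C A' * U ^ 3 + (3 * U + 1) ^ 2 =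
          iD ^ 4 * (al D * (C A' * al N ^ 3 + (3 * al N + al D) ^ 2 * al D)) := by
        rw [hU]
        have h3 : (3 * (al N * iD) + 1) = iD * (3 * al N + al D) := by
          linear_combination -hiD
        rw [h3]
        linear_combination (-(C A' * al N ^ 3 * iD ^ 3) - (iD * (3 * al N + al D)) ^ 2 * (iD * al D + 1)) * hiD
      rw [e2, hU1, hus'e]
      linear_combination (1 + X) ^ 2 * iD ^ 4 * hode
    have hps2 := hps
    calc U1 ^ 2 = ps3 z ^ 2 * (U1 ^ 2 * y2) := by linear_combination (-U1 ^ 2) * hps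
      _ = _ := by rw [e1, hc, cs3]; ring
  -- modulo the ideal
  set I := idl p q with hI
  have hv2 : v ^ 2 ∈ I := by
    have : v ^ 2 = X ^ (2 * p) * (g1 O ^ (2 * p)) ^ 2 := by
      rw [hv, us_pow_eq]; ring
    rw [this]
    exact I.mul_mem_right _ (X2_mem p q)
  have hU3 : U ^ 3 ∈ I := by
    have : U ^ 3 = v ^ 2 * (v + 3 * C q * η) + C q ^ 2 * (3 * v * η ^ 2 + C q * η ^ 3) := by
      rw [hUv]; ring
    rw [this]
    exact I.add_mem (I.mul_mem_right _ hv2) (I.mul_mem_right _ (q2_mem p q))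
  set B := C w * c * (3 * U + 1) with hB
  have hsq : U1 ^ 2 - B ^ 2 ∈ I := by
    have : U1 ^ 2 - B ^ 2 = U ^ 3 * (C w ^ 2 * c ^ 2 * C A') := by
      rw [hde, hB]; ring
    rw [this]
    exact I.mul_mem_right _ hU3
  -- the sign
  have hv0 : constantCoeff v = 0 := by
    rw [hv, map_pow, us_const, zero_pow hp.out.ne_zero]
  have hc0 : constantCoeff c = 1 := by
    have := cs3_coeff z 1 (by norm_num)
    rw [hc, ← coeff_zero_eq_constantCoeff]
    simpa [lg_zero] using this
  have hB0 : S.red (constantCoeff B) = S.red w := by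
    rw [hB, hUv]
    simp only [map_mul, map_add, constantCoeff_C, hc0, hv0, map_one, map_zero]
    have hrq : S.red q = 0 := S.red_q
    rw [hrq]
    ring
  have hs2 : S.red (constantCoeff U1) ^ 2 = S.red w ^ 2 := by
    have h1 := idl_coeff hsq (m := 0) (by omega)
    rw [coeff_zero_eq_constantCoeff] at h1
    have h2 : S.red (constantCoeff (U1 ^ 2 - B ^ 2)) = 0 := by
      rw [S.red_iff]
      exact (dvd_pow_self _ two_ne_zero).trans h1
    rw [map_sub, map_pow, map_pow, map_sub, map_pow, map_pow, hB0] at h2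
    linear_combination h2
  obtain ⟨ε, hε, hεs⟩ : ∃ ε : O, ε ^ 2 = 1 ∧ S.red (constantCoeff U1) = S.red ε * S.red w := by
    rcases sq_eq_sq_iff_eq_or_eq_neg.mp hs2 with h | h
    · exact ⟨1, by ring, by rw [h, map_one, one_mul]⟩
    · exact ⟨-1, by ring, by rw [h, map_neg, map_one]; ring⟩
  have h2k : (2 : k) ≠ 0 := by
    intro h2
    have : ((2 : ℕ) : k) = 0 := by exact_mod_cast h2
    rw [CharP.cast_eq_zero_iff k p] at this
    exact hp2 ((Nat.prime_dvd_prime_iff_eq hp.out (by norm_num)).mp this)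
  have hεr : S.red ε ≠ 0 := by
    intro h0
    have := congrArg S.red hε
    rw [map_pow, h0, map_one] at this
    simp at this
  have hunit : IsUnit (U1 + C ε * B) := by
    rw [PowerSeries.isUnit_iff_constantCoeff]
    apply S.unit_of_red
    simp only [map_add, map_mul, constantCoeff_C, hB0, hεs]
    have : S.red ε * S.red w + S.red ε * S.red w = 2 * (S.red ε * S.red w) := by ring
    rw [this]
    exact mul_ne_zero h2k (mul_ne_zero hεr hw)
  have hlin : U1 - C ε * B ∈ I := by
    obtain ⟨iu, hiu⟩ := hunit.exists_left_inv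
    have hCε : (C ε : O⟦X⟧) ^ 2 = 1 := by rw [← map_pow, hε, map_one]
    have : U1 - C ε * B = (U1 ^ 2 - B ^ 2) * iu := by
      linear_combination (-(U1 - C ε * B)) * hiu + (-iu * B ^ 2) * hCε
    rw [this]
    exact I.mul_mem_right _ hsq
  -- the auxiliary series
  have h3v : IsUnit (1 + 3 * v) := by
    rw [PowerSeries.isUnit_iff_constantCoeff, map_add, map_mul, hv0]
    simp
  obtain ⟨E, hE⟩ := h3v.exists_left_inv
  set ζ := η * E with hζ
  have hηζ : η = ζ * (1 + 3 * v) := by rw [hζ]; linear_combination (-η) * hE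
  have hdη : d⁄dX O η = d⁄dX O ζ * (1 + 3 * v) + 3 * C q * ζ * v1 := by
    conv_lhs => rw [hηζ]
    have h3 : d⁄dX O (3 : O⟦X⟧) = 0 := by
      have : (3 : O⟦X⟧) = C 3 := (map_ofNat C 3).symm
      rw [this, derivative_C]
    rw [Derivation.leibniz, map_add, derivative_one, Derivation.leibniz, h3, hdv]
    simp only [smul_eq_mul]
    ring
  have hfin : C (ε * w) * c - (v1 * E + d⁄dX O ζ * (1 - 3 * C q * ζ)) ∈ I := by
    have hCε : (C ε : O⟦X⟧) ^ 2 = 1 := by rw [← map_pow, hε, map_one]
    have h1 : U1 - C ε * B = (v1 * (1 + 3 * C q * ζ) + d⁄dX O ζ * (1 + 3 * v)) -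
        C ε * C w * c * ((1 + 3 * v) * (1 + 3 * C q * ζ)) := by
      rw [hU1e, hdη, hB, hUv, hηζ]; ring
    have h2 : C (ε * w) * c - (v1 * E + d⁄dX O ζ * (1 - 3 * C q * ζ)) =
        (-(E * (1 - 3 * C q * ζ))) * (U1 - C ε * B) +
        C q ^ 2 * (9 * ζ ^ 2 * (C ε * C w * c - v1 * E)) := by
      rw [h1, map_mul]
      linear_combination (-(C ε * C w * c) * (1 + 3 * C q * ζ) * (1 - 3 * C q * ζ) +
        (1 - 3 * C q * ζ) * d⁄dX O ζ) * hE
    rw [h2]
    exact I.add_mem (I.mul_mem_left _ hlin) (I.mul_mem_right _ (q2_mem p q))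
  have hE1 : E = 1 - 3 * v + 9 * v ^ 2 * E := by linear_combination (1 - 3 * v) * hE
  -- coefficients of the leading part
  have hvE : v1 * E = v1 - C 3 * (us O ^ (2 * p - 1) * us') +
      X ^ (3 * p - 1) * (9 * g1 O ^ (2 * (3 * p - 1)) * us' * E) := by
    have e1 : us O ^ (2 * p - 1) = v * us O ^ (p - 1) := by
      rw [hv, ← pow_add]; congr 1; omega
    have e2 : X ^ (3 * p - 1) * g1 O ^ (2 * (3 * p - 1)) = v ^ 2 * us O ^ (p - 1) := by
      rw [← us_pow_eq, hv, ← pow_mul, ← pow_add]; congr 1; omega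
    have e3 : X ^ (3 * p - 1) * (9 * g1 O ^ (2 * (3 * p - 1)) * us' * E) =
        9 * (v ^ 2 * us O ^ (p - 1)) * us' * E := by rw [← e2]; ring
    rw [e1, e3, map_ofNat]
    conv_lhs => rw [hE1]
    rw [hv1]; ring
  have a1 : coeff (p - 1) v1 = 1 := coeff_uu (p - 1)
  have a2 : coeff (2 * p - 1) (us O ^ (2 * p - 1) * us') = 1 := coeff_uu (2 * p - 1)
  have a3 : coeff (p - 1) (us O ^ (2 * p - 1) * us') = 0 := by
    rw [us_pow_eq, mul_assoc]
    exact coeff_X_dvd (by omega) _
  have cp1 : (((p - 1 : ℕ) : O) + 1) = q := by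
    rw [hq]
    have := Nat.cast_succ (R := O) (p - 1)
    rw [show (p - 1).succ = p by omega] at this
    exact this.symm
  have cp2 : (((2 * p - 1 : ℕ) : O) + 1) = 2 * q := by
    rw [hq]
    have := Nat.cast_succ (R := O) (2 * p - 1)
    rw [show (2 * p - 1).succ = 2 * p by omega] at this
    rw [← this]; push_cast; ring
  have a4 : coeff (2 * p - 1) v1 = 2 * coeff (2 * p) v := by
    have h := congrArg (coeff (2 * p - 1)) hdv
    rw [coeff_C_mul, coeff_derivative, show 2 * p - 1 + 1 = 2 * p by omega] at h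
    rw [cp2] at h
    apply mul_left_cancel₀ hq0
    linear_combination -h
  have a5 : q ^ 2 ∣ coeff (2 * p) v - 2 := by
    rw [hv, coeff_us_pow _ _ _ (by omega : 1 ≤ p), show 2 * p + p - 1 = 3 * p - 1 by omega]
    have h := b2 (p := p) hp3
    have h' := (Nat.modEq_iff_dvd.mp h.symm)
    obtain ⟨e, he⟩ := h'
    refine ⟨(e : O), ?_⟩
    have := congrArg (Int.cast : ℤ → O) he
    push_cast at this
    rw [hq]
    linear_combination this
  have b1' : coeff (p - 1) (v1 * E) = 1 := by
    rw [hvE, map_add, map_sub, coeff_C_mul, a1, a3, coeff_X_dvd (by omega)]; ring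
  have b2' : coeff (2 * p - 1) (v1 * E) = 2 * coeff (2 * p) v - 3 := by
    rw [hvE, map_add, map_sub, coeff_C_mul, a2, a4, coeff_X_dvd (by omega)]; ring
  -- the derivative part
  have hz2 : 2 * (d⁄dX O ζ * ζ) = d⁄dX O (ζ ^ 2) := by
    rw [derivative_pow]; push_cast; ring
  have c1 : 2 * coeff (p - 1) (d⁄dX O ζ * ζ) = coeff p (ζ ^ 2) * q := by
    have h := congrArg (coeff (p - 1)) hz2
    have h2 : (2 : O⟦X⟧) = C 2 := (map_ofNat C 2).symm
    rw [h2, coeff_C_mul, coeff_derivative, show p - 1 + 1 = p by omega] at h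
    rw [h, cp1]
  have c2 : 2 * coeff (2 * p - 1) (d⁄dX O ζ * ζ) = coeff (2 * p) (ζ ^ 2) * (2 * q) := by
    have h := congrArg (coeff (2 * p - 1)) hz2
    have h2 : (2 : O⟦X⟧) = C 2 := (map_ofNat C 2).symm
    rw [h2, coeff_C_mul, coeff_derivative, show 2 * p - 1 + 1 = 2 * p by omega] at h
    rw [h, cp2]
  have d1 : coeff (p - 1) (d⁄dX O ζ) = coeff p ζ * q := by
    rw [coeff_derivative, show p - 1 + 1 = p by omega, cp1]
  have d2 : coeff (2 * p - 1) (d⁄dX O ζ) = coeff (2 * p) ζ * (2 * q) := by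
    rw [coeff_derivative, show 2 * p - 1 + 1 = 2 * p by omega, cp2]
  have hsplit : C (ε * w) * c - (v1 * E + d⁄dX O ζ * (1 - 3 * C q * ζ)) =
      C (ε * w) * c - v1 * E - d⁄dX O ζ + C (3 * q) * (d⁄dX O ζ * ζ) := by
    rw [map_mul C 3 q, map_ofNat]; ring
  rw [hsplit] at hfin
  have f1 := idl_coeff hfin (m := p - 1) (by omega)
  have f2 := idl_coeff hfin (m := 2 * p - 1) (by omega)
  have p3 : p % 3 ≠ 0 := by
    intro h
    exact hp3 ((Nat.prime_dvd_prime_iff_eq (by norm_num) hp.out).mp (Nat.dvd_of_mod_eq_zero h)).symm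
  have l1 : coeff (p - 1) c = lg (p / 3) z := cs3_coeff z p p3
  have l2 : coeff (2 * p - 1) c = lg (2 * p / 3) z := cs3_coeff z (2 * p) (by omega)
  rw [map_add, map_sub, map_sub, coeff_C_mul, coeff_C_mul, l1, b1', d1] at f1
  rw [map_add, map_sub, map_sub, coeff_C_mul, coeff_C_mul, l2, b2', d2] at f2
  -- the residue computation
  have hζr : S.red (coeff p ζ + coeff (2 * p) ζ) = 0 := by
    have hbq : PowerSeries.map S.red (C q) = 0 := by
      rw [PowerSeries.map_C]
      have hrq : S.red q = 0 := S.red_q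
      rw [hrq, map_zero]
    have hbD : PowerSeries.map S.red (al D) = 1 := by
      rw [hDe, map_add, map_one, map_mul, hbq, zero_mul, add_zero]
    have hbiD : PowerSeries.map S.red iD = 1 := by
      have := congrArg (PowerSeries.map S.red) hiD
      rw [map_mul, hbD, mul_one, map_one] at this
      exact this
    set τ := PowerSeries.map S.red (al T) with hτ
    set vb := PowerSeries.map S.red v with hvb
    set Eb := PowerSeries.map S.red E with hEb
    have husb : PowerSeries.map S.red (us O) = us k := by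
      unfold us g1
      rw [map_mul, map_pow, PowerSeries.map_X]
      congr 2
      ext n
      simp
    have hvbe : vb = us k ^ p := by rw [hvb, hv, map_pow, husb]
    have hEb1 : Eb = 1 - 3 * vb + 9 * vb ^ 2 * Eb := by
      have := congrArg (PowerSeries.map S.red) hE1
      simpa only [map_add, map_sub, map_mul, map_pow, map_one, map_ofNat] using this
    have hζb : PowerSeries.map S.red ζ = τ - C 3 * (vb * τ) + vb ^ 2 * (9 * τ * Eb) := by
      rw [hζ, map_mul, hη, map_mul, hbiD, mul_one, ← hτ, ← hEb, map_ofNat]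
      conv_lhs => rw [hEb1]
      ring
    have t0 : coeff p (vb * τ) = constantCoeff τ := by
      rw [hvbe, us_pow_eq, mul_assoc, coeff_low, map_mul, map_pow, g1_const, one_pow, one_mul]
    have hvb2 : X ^ (2 * p + 1) ∣ vb - (X ^ p + C 2 * X ^ (2 * p)) := by
      rw [X_pow_dvd_iff]
      intro m hm
      rw [map_sub, map_add, coeff_C_mul, coeff_X_pow, coeff_X_pow, hvbe, coeff_us_pow _ _ _ (by omega : 1 ≤ p)]
      rcases lt_trichotomy m p with h | h | h
      · rw [Nat.choose_eq_zero_of_lt (by omega), if_neg (by omega), if_neg (by omega)]; simp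
      · subst h
        rw [show m + m - 1 = 2 * m - 1 by omega, Nat.choose_self, if_pos rfl, if_neg (by omega)]; simp
      · rcases Nat.lt_or_ge m (2 * p) with h' | h'
        · have := b1 (p := p) m h h'
          rw [← CharP.cast_eq_zero_iff k p] at this
          rw [this, if_neg (by omega), if_neg (by omega)]; simp
        · have hm2 : m = 2 * p := by omega
          subst hm2
          rw [if_neg (by omega), if_pos rfl, show 2 * p + p - 1 = 3 * p - 1 by omega]
          have h := (b2 (p := p) hp3).of_dvd (dvd_pow_self p two_ne_zero)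
          have h' : (((3 * p - 1).choose (2 * p - 1) : ℕ) : k) = ((2 : ℕ) : k) := by
            rw [CharP.cast_eq_iff_mod_eq k p]
            exact h
          rw [h']; push_cast; ring
    obtain ⟨r, hr⟩ := hvb2
    have t1 : coeff (2 * p) (vb * τ) = coeff p τ + 2 * constantCoeff τ := by
      have e : vb * τ = X ^ p * τ + C 2 * (X ^ (2 * p) * τ) + X ^ (2 * p + 1) * (r * τ) := by
        linear_combination τ * hr
      have e1 : coeff (2 * p) (X ^ p * τ) = coeff p τ := by
        have := coeff_X_pow_mul τ p p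
        rw [← two_mul] at this
        exact this
      rw [e, map_add, map_add, coeff_C_mul, e1, coeff_low, coeff_X_dvd (by omega)]
      ring
    have t2 : coeff p (vb ^ 2 * (9 * τ * Eb)) = 0 := by
      rw [hvbe, us_pow_eq, mul_pow, ← pow_mul, mul_comm p 2, mul_assoc]
      exact coeff_X_dvd (by omega) _
    have hEb0 : constantCoeff Eb = 1 := by
      have := congrArg (PowerSeries.map S.red) hE
      have h2 := congrArg constantCoeff this
      rw [map_mul, map_mul, ← hEb, map_add, map_mul, ← hvb, map_one, map_add, map_mul, hvbe] at h2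
      simp only [map_pow, us_const, map_one] at h2
      rw [zero_pow hp.out.ne_zero] at h2
      simpa using h2
    have t3 : coeff (2 * p) (vb ^ 2 * (9 * τ * Eb)) = 9 * constantCoeff τ := by
      rw [hvbe, us_pow_eq, mul_pow, ← pow_mul, mul_comm p 2, mul_assoc, coeff_low]
      simp only [map_mul, map_pow, g1_const, one_pow, hEb0, one_mul, mul_one, map_ofNat]
    have r1 : S.red (coeff p ζ) = coeff p (PowerSeries.map S.red ζ) := by rw [PowerSeries.coeff_map]
    have r2 : S.red (coeff (2 * p) ζ) = coeff (2 * p) (PowerSeries.map S.red ζ) := by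
      rw [PowerSeries.coeff_map]
    have r3 : coeff (2 * p) τ = 2 * coeff p τ := by
      rw [hτ, PowerSeries.coeff_map, PowerSeries.coeff_map]
      exact htt
    rw [map_add, r1, r2, hζb, map_add, map_add, map_sub, map_sub, coeff_C_mul, coeff_C_mul, t0, t1, t2,
      t3, r3]
    ring
  obtain ⟨e, he⟩ := (S.red_iff _).mp hζr
  obtain ⟨e1, he1⟩ := f1
  obtain ⟨e2, he2⟩ := f2
  obtain ⟨e5, he5⟩ := a5
  refine ⟨ε, hε, ?_⟩
  have h2u : IsUnit (2 : O) := S.unit_of_red (by rw [map_ofNat]; exact h2k)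
  obtain ⟨i2, hi2⟩ := h2u.exists_left_inv
  refine ⟨i2 * (2 * (2 * e1 + e2) + 4 * e5 + 4 * e - 6 * coeff p (ζ ^ 2) - 6 * coeff (2 * p) (ζ ^ 2)), ?_⟩
  have he' : coeff p ζ + coeff (2 * p) ζ = q * e := he
  have goal2 : 2 * (ε * w * (2 * lg (p / 3) z + lg (2 * p / 3) z) - 3) =
      q ^ 2 * (2 * (2 * e1 + e2) + 4 * e5 + 4 * e - 6 * coeff p (ζ ^ 2) - 6 * coeff (2 * p) (ζ ^ 2)) := by
    linear_combination 4 * he1 + 2 * he2 + 4 * he5 + 4 * q * he' - 6 * q * c1 - 3 * q * c2
  linear_combination i2 * goal2 - (ε * w * (2 * lg (p / 3) z + lg (2 * p / 3) z) - 3) * hi2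

end main

end Pool.Agent.H546
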