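import Pool.Agent.H546.Good

set_option autoImplicit false

/-!
# Points with good reduction: the reduced representatives reduce to coprime pairs of full height
-/

namespace Pool.Agent.H546

open Polynomial WeierstrassCurve WeierstrassCurve.Affine
open Pool.Agent.Q267.MW (SW io io_inj io_ne Prim3 mh mh3 xr as_main G0 G1 G2 G_mh G_prim prim_pair mh_pair prop_eq g0 g1 g2 eqn negY_SW two_ne_K)

/-- a discrete valuation ring with prescribed uniformiser, fraction field and residue map -/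
structure DV (O K k : Type*) [CommRing O] [IsDomain O] [Field K] [Algebra O K] [Field k] where
  red : O →+* k
  q : O
  red_iff : ∀ x, red x = 0 ↔ q ∣ x
  q_ne : q ≠ 0
  inj : Function.Injective (algebraMap O K)
  frac : ∀ x : K, x ≠ 0 → ∃ (u : O) (n : ℤ), IsUnit u ∧ x = algebraMap O K u * (algebraMap O K q) ^ n

variable {O K k : Type*} [CommRing O] [IsDomain O] [Field K] [Algebra O K] [Field k]
  (S : DV O K k)

namespace DV

theorem aq_ne : algebraMap O K S.q ≠ 0 := fun h => S.q_ne (S.inj (by rw [h, map_zero]))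

theorem red_q : S.red S.q = 0 := (S.red_iff _).mpr dvd_rfl

include S in
theorem mapinj {n d : O[X]} (h : n.map (algebraMap O K) = d.map (algebraMap O K)) : n = d :=
  Polynomial.map_injective _ S.inj h

/-- scaling a pair of polynomials -/
theorem scale (n d : K[X]) (h : n ≠ 0 ∨ d ≠ 0) : ∃ (N D : O[X]) (l : K), l ≠ 0 ∧
    N.map (algebraMap O K) = C l * n ∧ D.map (algebraMap O K) = C l * d ∧
    (N.map S.red ≠ 0 ∨ D.map S.red ≠ 0) := by
  classical
  choose! u v hu huv using S.frac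
  set s : Finset ℤ := n.support.image (fun i => v (n.coeff i)) ∪ d.support.image (fun i => v (d.coeff i))
    with hs
  have hne : s.Nonempty := by
    rcases h with h | h
    · obtain ⟨i, hi⟩ := nonempty_support_iff.mpr h
      exact ⟨_, Finset.mem_union_left _ (Finset.mem_image_of_mem _ hi)⟩
    · obtain ⟨i, hi⟩ := nonempty_support_iff.mpr h
      exact ⟨_, Finset.mem_union_right _ (Finset.mem_image_of_mem _ hi)⟩
  set m := s.min' hne with hm
  set q := algebraMap O K S.q with hq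
  have hq0 : q ≠ 0 := S.aq_ne
  have key : ∀ x : K, x ≠ 0 → v x ∈ s → ∃ y : O, algebraMap O K y = q ^ (-m) * x := by
    intro x hx hv
    have h1 : m ≤ v x := Finset.min'_le _ _ hv
    refine ⟨u x * S.q ^ (v x - m).toNat, ?_⟩
    conv_rhs => rw [huv x hx]
    rw [map_mul, map_pow, ← hq]
    have : q ^ (v x - m).toNat = q ^ (v x - m) := by
      rw [← zpow_natCast, Int.toNat_of_nonneg (by omega)]
    rw [this, sub_eq_add_neg, zpow_add₀ hq0]
    ring
  have lift : ∀ w : K[X], (∀ i, w.coeff i ≠ 0 → v (w.coeff i) ∈ s) →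
      ∃ W : O[X], W.map (algebraMap O K) = C (q ^ (-m)) * w := by
    intro w hw
    have : C (q ^ (-m)) * w ∈ Polynomial.lifts (algebraMap O K) := by
      rw [Polynomial.lifts_iff_coeff_lifts]
      intro i
      rw [coeff_C_mul]
      by_cases h0 : w.coeff i = 0
      · exact ⟨0, by rw [map_zero, h0, mul_zero]⟩
      · obtain ⟨y, hy⟩ := key _ h0 (hw i h0)
        exact ⟨y, hy⟩
    obtain ⟨W, hW⟩ := (Polynomial.mem_lifts _).mp this
    exact ⟨W, hW⟩
  obtain ⟨N, hN⟩ := lift n (fun i hi => Finset.mem_union_left _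
    (Finset.mem_image_of_mem _ (mem_support_iff.mpr hi)))
  obtain ⟨D, hD⟩ := lift d (fun i hi => Finset.mem_union_right _
    (Finset.mem_image_of_mem _ (mem_support_iff.mpr hi)))
  refine ⟨N, D, q ^ (-m), zpow_ne_zero _ hq0, hN, hD, ?_⟩
  have unit_case : ∀ (w : K[X]) (W : O[X]), W.map (algebraMap O K) = C (q ^ (-m)) * w →
      (∃ i, w.coeff i ≠ 0 ∧ v (w.coeff i) = m) → W.map S.red ≠ 0 := by
    intro w W hW hi h0
    obtain ⟨i, hi0, hvi⟩ := hi
    have e := congrArg (fun P => P.coeff i) hW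
    simp only [coeff_map, coeff_C_mul] at e
    have e2 := congrArg (fun P => P.coeff i) h0
    simp only [coeff_map, coeff_zero] at e2
    have e3 : W.coeff i = u (w.coeff i) := by
      apply S.inj
      rw [e]
      conv_lhs => rw [huv _ hi0]
      rw [hvi]
      rw [mul_comm (algebraMap O K _), ← mul_assoc, ← zpow_add₀ hq0, neg_add_cancel, zpow_zero, one_mul]
    rw [e3] at e2
    exact ((hu _ hi0).map S.red).ne_zero e2
  have hmm := Finset.min'_mem s hne
  rw [← hm] at hmm
  rcases Finset.mem_union.mp hmm with h' | h'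
  · obtain ⟨i, hi, hvi⟩ := Finset.mem_image.mp h'
    exact Or.inl (unit_case n N hN ⟨i, mem_support_iff.mp hi, hvi⟩)
  · obtain ⟨i, hi, hvi⟩ := Finset.mem_image.mp h'
    exact Or.inr (unit_case d D hD ⟨i, mem_support_iff.mp hi, hvi⟩)

/-- a constant ratio of two primitive triples is a unit -/
theorem ratio (t s : Fin 3 → O[X]) (c : K) (hc : c ≠ 0)
    (h : ∀ i, (t i).map (algebraMap O K) = C c * (s i).map (algebraMap O K))
    (ht : ∃ i, (t i).map S.red ≠ 0) (hs : ∃ i, (s i).map S.red ≠ 0) :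
    ∃ u : O, IsUnit u ∧ ∀ i, t i = C u * s i := by
  obtain ⟨u, n, hu, hun⟩ := S.frac c hc
  have hq0 := S.aq_ne
  rcases lt_trichotomy n 0 with hn | hn | hn
  · exfalso
    obtain ⟨m, hm⟩ : ∃ m : ℕ, n = -((m : ℤ) + 1) := ⟨(-n - 1).toNat, by omega⟩
    obtain ⟨i, hi⟩ := hs
    apply hi
    have e : C (S.q ^ (m + 1)) * t i = C u * s i := by
      apply S.mapinj
      rw [Polynomial.map_mul, Polynomial.map_mul, map_C, map_C, h i, hun, hm, map_pow, ← mul_assoc, ← C_mul]
      congr 2
      rw [zpow_neg]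
      have : (algebraMap O K S.q) ^ ((m : ℤ) + 1) = (algebraMap O K S.q) ^ (m + 1) := by
        rw [← zpow_natCast]; push_cast; rfl
      rw [this]
      field_simp
    have e2 := congrArg (Polynomial.map S.red) e
    rw [Polynomial.map_mul, Polynomial.map_mul, map_C, map_C, map_pow, S.red_q, zero_pow (by omega), C_0,
      zero_mul] at e2
    exact (mul_eq_zero.mp e2.symm).resolve_left (fun h0 =>
      (hu.map S.red).ne_zero (C_eq_zero.mp h0))
  · refine ⟨u, hu, fun i => ?_⟩
    apply S.mapinj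
    rw [h i, hun, hn, zpow_zero, mul_one, Polynomial.map_mul, map_C]
  · exfalso
    obtain ⟨m, hm⟩ : ∃ m : ℕ, n = (m : ℤ) + 1 := ⟨(n - 1).toNat, by omega⟩
    obtain ⟨i, hi⟩ := ht
    apply hi
    have e : t i = C (u * S.q ^ (m + 1)) * s i := by
      apply S.mapinj
      have hz : (algebraMap O K S.q) ^ ((m : ℤ) + 1) = (algebraMap O K S.q) ^ (m + 1) := by
        rw [← zpow_natCast]; push_cast; rfl
      rw [Polynomial.map_mul, map_C, h i, hun, hm, hz, (algebraMap O K).map_mul,
        (algebraMap O K).map_pow]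
    rw [e, Polynomial.map_mul, map_C, map_mul, map_pow, S.red_q, zero_pow (by omega), mul_zero, C_0,
      zero_mul]

end DV

section forms

variable {R : Type*} [CommRing R]

noncomputable def H0 (u0 u1 u2 : R[X]) : R[X] := u1 ^ 2 - 4 * u0 * u2

noncomputable def H1 (a b : R) (u0 u1 u2 : R[X]) : R[X] :=
  2 * u1 * u2 + C (2 * a) * u0 * u1 + C (4 * b) * u0 ^ 2

noncomputable def H2 (a b : R) (u0 u1 u2 : R[X]) : R[X] :=
  (u2 - C a * u0) ^ 2 - C (4 * b) * u0 * u1

end forms

theorem H0_map {R T : Type*} [CommRing R] [Field T] (g : R →+* T) (u0 u1 u2 : R[X]) :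
    (H0 u0 u1 u2).map g = G0 (u0.map g) (u1.map g) (u2.map g) := by
  simp [H0, G0]

theorem H1_map {R T : Type*} [CommRing R] [Field T] (g : R →+* T) (a b : R) (u0 u1 u2 : R[X]) :
    (H1 a b u0 u1 u2).map g = G1 (g a) (g b) (u0.map g) (u1.map g) (u2.map g) := by
  simp [H1, G1, map_ofNat]

theorem H2_map {R T : Type*} [CommRing R] [Field T] (g : R →+* T) (a b : R) (u0 u1 u2 : R[X]) :
    (H2 a b u0 u1 u2).map g = G2 (g a) (g b) (u0.map g) (u1.map g) (u2.map g) := by
  simp [H2, G2, map_ofNat]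

/-- the point has a representative with good reduction -/
def Nice {f : K[X]} {a b : K} (P : (TWf f a b).Point) : Prop :=
  ∃ (n d : O[X]) (l : K), l ≠ 0 ∧ n.map (algebraMap O K) = C l * (rep P).1 ∧
    d.map (algebraMap O K) = C l * (rep P).2 ∧ IsCoprime (n.map S.red) (d.map S.red) ∧
    mh (n.map S.red) (d.map S.red) = hgt P

theorem nice_neg {f : K[X]} {a b : K} {P : (TWf f a b).Point} (h : Nice S P) : Nice S (-P) := by
  unfold Nice at h ⊢
  rw [rep_neg, hgt_neg]
  exact h

theorem nice_zero {f : K[X]} {a b : K} : Nice S (0 : (TWf f a b).Point) := by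
  refine ⟨1, 0, 1, one_ne_zero, ?_, ?_, ?_, ?_⟩
  · rw [rep_zero]; simp
  · rw [rep_zero]; simp
  · simp only [Polynomial.map_one, Polynomial.map_zero]
    exact isCoprime_one_left
  · rw [hgt_zero]; simp [mh]

theorem prop_const {u0 u1 u2 v0 v1 v2 : K[X]} (hu : Prim3 u0 u1 u2) (hv : Prim3 v0 v1 v2)
    (h01 : u0 * v1 = u1 * v0) (h02 : u0 * v2 = u2 * v0) (h12 : u1 * v2 = u2 * v1) :
    ∃ c : K, c ≠ 0 ∧ u0 = C c * v0 ∧ u1 = C c * v1 ∧ u2 = C c * v2 := by
  obtain ⟨a, b, c, habc⟩ := hu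
  obtain ⟨a', b', c', hv'⟩ := hv
  set w := a * v0 + b * v1 + c * v2 with hw
  set w' := a' * u0 + b' * u1 + c' * u2 with hw'
  have e0 : v0 = u0 * w := by
    rw [hw]; linear_combination (-v0) * habc - b * h01 - c * h02
  have e1 : v1 = u1 * w := by
    rw [hw]; linear_combination (-v1) * habc + a * h01 - c * h12
  have e2 : v2 = u2 * w := by
    rw [hw]; linear_combination (-v2) * habc + a * h02 + b * h12
  have f0 : u0 = v0 * w' := by
    rw [hw']; linear_combination (-u0) * hv' + b' * h01 + c' * h02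
  have f1 : u1 = v1 * w' := by
    rw [hw']; linear_combination (-u1) * hv' - a' * h01 + c' * h12
  have f2 : u2 = v2 * w' := by
    rw [hw']; linear_combination (-u2) * hv' - a' * h02 - b' * h12
  have hww : w' * w = 1 := by
    have : w' * w = w * (a' * u0 + b' * u1 + c' * u2) := by rw [← hw', mul_comm]
    rw [this]
    calc w * (a' * u0 + b' * u1 + c' * u2) = a' * (u0 * w) + b' * (u1 * w) + c' * (u2 * w) := by ring
      _ = 1 := by rw [← e0, ← e1, ← e2]; exact hv'
  have hwu : IsUnit w' := IsUnit.of_mul_eq_one _ hww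
  obtain ⟨r, hr, hrw⟩ := isUnit_iff.mp hwu
  refine ⟨r, hr.ne_zero, ?_, ?_, ?_⟩
  · rw [hrw, mul_comm]; exact f0
  · rw [hrw, mul_comm]; exact f1
  · rw [hrw, mul_comm]; exact f2

open Classical in
/-- the addition-subtraction relation between reduced representatives -/
theorem rep_rel {f : K[X]} {a b : K} (hf0 : f ≠ 0) (h2 : (2 : K) ≠ 0) (hΔ : 4 * a ^ 3 + 27 * b ^ 2 ≠ 0)
    (P Q : (TWf f a b).Point) : ∃ c : K, c ≠ 0 ∧
    (rep (P + Q)).2 * (rep (P - Q)).2 = C c * G0 ((rep P).2 * (rep Q).2)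
      ((rep P).1 * (rep Q).2 + (rep Q).1 * (rep P).2) ((rep P).1 * (rep Q).1) ∧
    (rep (P + Q)).1 * (rep (P - Q)).2 + (rep (P - Q)).1 * (rep (P + Q)).2 =
      C c * G1 a b ((rep P).2 * (rep Q).2)
      ((rep P).1 * (rep Q).2 + (rep Q).1 * (rep P).2) ((rep P).1 * (rep Q).1) ∧
    (rep (P + Q)).1 * (rep (P - Q)).1 = C c * G2 a b ((rep P).2 * (rep Q).2)
      ((rep P).1 * (rep Q).2 + (rep Q).1 * (rep P).2) ((rep P).1 * (rep Q).1) := by
  have h2K : (2 : RatFunc K) ≠ 0 := two_ne_K h2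
  have hf := io_ne hf0
  have has := as_main P Q h2K
  obtain ⟨c1, hc1, e1, d1⟩ := rep_xr hf0 P
  obtain ⟨c2, hc2, e2, d2⟩ := rep_xr hf0 Q
  obtain ⟨c3, hc3, e3, d3⟩ := rep_xr hf0 (P + Q)
  obtain ⟨c4, hc4, e4, d4⟩ := rep_xr hf0 (P - Q)
  have n1 : io (rep P).1 = c1 * (xr P).1 / io f := by rw [← e1]; field_simp
  have n2 : io (rep Q).1 = c2 * (xr Q).1 / io f := by rw [← e2]; field_simp
  have n3 : io (rep (P + Q)).1 = c3 * (xr (P + Q)).1 / io f := by rw [← e3]; field_simp
  have n4 : io (rep (P - Q)).1 = c4 * (xr (P - Q)).1 / io f := by rw [← e4]; field_simp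
  apply prop_const (prim_pair (rep_cop _) (rep_cop _))
    (G_prim a b h2 hΔ (prim_pair (rep_cop _) (rep_cop _)))
  · obtain ⟨t1, -, -⟩ := has
    apply io_inj
    simp only [G0, G1, g0, g1, map_add, map_mul, map_sub, map_pow, map_ofNat] at t1 ⊢
    rw [d1, d2, d3, d4, n1, n2, n3, n4]
    field_simp
    linear_combination t1
  · obtain ⟨-, t1, -⟩ := has
    apply io_inj
    simp only [G0, G2, g0, g2, map_add, map_mul, map_sub, map_pow, map_ofNat] at t1 ⊢
    rw [d1, d2, d3, d4, n1, n2, n3, n4]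
    field_simp
    linear_combination t1
  · obtain ⟨-, -, t1⟩ := has
    apply io_inj
    simp only [G1, G2, g1, g2, map_add, map_mul, map_sub, map_pow, map_ofNat] at t1 ⊢
    rw [d1, d2, d3, d4, n1, n2, n3, n4]
    field_simp
    linear_combination t1

open Classical in
theorem nice_add {f : K[X]} {a b : O} (hf0 : f ≠ 0) (h2 : (2 : k) ≠ 0)
    (hΔ : S.red (4 * a ^ 3 + 27 * b ^ 2) ≠ 0)
    {P Q : (TWf f (algebraMap O K a) (algebraMap O K b)).Point} (hP : Nice S P) (hQ : Nice S Q) :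
    Nice S (P + Q) := by
  have hΔk : 4 * (S.red a) ^ 3 + 27 * (S.red b) ^ 2 ≠ 0 := by simpa [map_ofNat] using hΔ
  have hΔK : 4 * (algebraMap O K a) ^ 3 + 27 * (algebraMap O K b) ^ 2 ≠ 0 := by
    intro h
    apply hΔ
    have : (4 * a ^ 3 + 27 * b ^ 2 : O) = 0 := by
      apply S.inj
      simpa [map_ofNat] using h
    rw [this, map_zero]
  have h2K : (2 : K) ≠ 0 := by
    intro h
    apply h2
    have : (2 : O) = 0 := by
      apply S.inj
      simpa [map_ofNat] using h
    have := congrArg S.red this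
    simpa [map_ofNat] using this
  obtain ⟨n1, d1, l1, hl1, en1, ed1, cop1, m1⟩ := hP
  obtain ⟨n2, d2, l2, hl2, en2, ed2, cop2, m2⟩ := hQ
  obtain ⟨n3, d3, l3, hl3, en3, ed3, p3⟩ := S.scale _ _ (rep_ne (P + Q))
  obtain ⟨n4, d4, l4, hl4, en4, ed4, p4⟩ := S.scale _ _ (rep_ne (P - Q))
  obtain ⟨c, hc, r0, r1, r2⟩ := rep_rel hf0 h2K hΔK P Q
  have hpar := par hf0 h2K hΔK P Q
  set Pi := n1 * n2
  set Pm := n1 * d2 + n2 * d1
  set Pd := d1 * d2
  have hPd : Pd.map (algebraMap O K) = C (l1 * l2) * ((rep P).2 * (rep Q).2) := by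
    rw [Polynomial.map_mul, ed1, ed2, C_mul]; ring
  have hPm : Pm.map (algebraMap O K) =
      C (l1 * l2) * ((rep P).1 * (rep Q).2 + (rep Q).1 * (rep P).2) := by
    rw [Polynomial.map_add, Polynomial.map_mul, Polynomial.map_mul, en1, en2, ed1, ed2, C_mul]; ring
  have hPi : Pi.map (algebraMap O K) = C (l1 * l2) * ((rep P).1 * (rep Q).1) := by
    rw [Polynomial.map_mul, en1, en2, C_mul]; ring
  -- triples
  let t : Fin 3 → O[X] := ![d3 * d4, n3 * d4 + n4 * d3, n3 * n4]
  let s : Fin 3 → O[X] := ![H0 Pd Pm Pi, H1 a b Pd Pm Pi, H2 a b Pd Pm Pi]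
  have hcl : l3 * l4 * c / (l1 * l2) ^ 2 ≠ 0 := by
    apply div_ne_zero
    · exact mul_ne_zero (mul_ne_zero hl3 hl4) hc
    · exact pow_ne_zero _ (mul_ne_zero hl1 hl2)
  have hll : (l1 * l2) ≠ 0 := mul_ne_zero hl1 hl2
  have hCC : C (l3 * l4 * c / (l1 * l2) ^ 2) * C (l1 * l2) ^ 2 = C l3 * C l4 * C c := by
    rw [← C_pow, ← C_mul, ← C_mul, ← C_mul]
    congr 1
    field_simp
  have hts : ∀ i, (t i).map (algebraMap O K) =
      C (l3 * l4 * c / (l1 * l2) ^ 2) * (s i).map (algebraMap O K) := by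
    intro i
    fin_cases i
    · show (d3 * d4).map _ = _ * (H0 Pd Pm Pi).map _
      rw [H0_map, hPd, hPm, hPi, Polynomial.map_mul, ed3, ed4]
      simp only [G0] at r0 ⊢
      linear_combination C l3 * C l4 * r0 - (((rep P).1 * (rep Q).2 + (rep Q).1 * (rep P).2) ^ 2 -
        4 * ((rep P).2 * (rep Q).2) * ((rep P).1 * (rep Q).1)) * hCC
    · show (n3 * d4 + n4 * d3).map _ = _ * (H1 a b Pd Pm Pi).map _
      rw [H1_map, hPd, hPm, hPi, Polynomial.map_add, Polynomial.map_mul, Polynomial.map_mul, ed3, ed4,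
        en3, en4]
      have e : G1 ((algebraMap O K) a) ((algebraMap O K) b) (C (l1 * l2) * ((rep P).2 * (rep Q).2))
        (C (l1 * l2) * ((rep P).1 * (rep Q).2 + (rep Q).1 * (rep P).2))
        (C (l1 * l2) * ((rep P).1 * (rep Q).1)) = C (l1 * l2) ^ 2 *
        G1 ((algebraMap O K) a) ((algebraMap O K) b) (((rep P).2 * (rep Q).2))
        (((rep P).1 * (rep Q).2 + (rep Q).1 * (rep P).2))
        (((rep P).1 * (rep Q).1)) := by
        simp only [G1]; ring
      rw [e]
      linear_combination C l3 * C l4 * r1 - G1 ((algebraMap O K) a) ((algebraMap O K) b)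
        (((rep P).2 * (rep Q).2)) (((rep P).1 * (rep Q).2 + (rep Q).1 * (rep P).2))
        (((rep P).1 * (rep Q).1)) * hCC
    · show (n3 * n4).map _ = _ * (H2 a b Pd Pm Pi).map _
      rw [H2_map, hPd, hPm, hPi, Polynomial.map_mul, en3, en4]
      have e : G2 ((algebraMap O K) a) ((algebraMap O K) b) (C (l1 * l2) * ((rep P).2 * (rep Q).2))
        (C (l1 * l2) * ((rep P).1 * (rep Q).2 + (rep Q).1 * (rep P).2))
        (C (l1 * l2) * ((rep P).1 * (rep Q).1)) = C (l1 * l2) ^ 2 *
        G2 ((algebraMap O K) a) ((algebraMap O K) b) (((rep P).2 * (rep Q).2))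
        (((rep P).1 * (rep Q).2 + (rep Q).1 * (rep P).2))
        (((rep P).1 * (rep Q).1)) := by
        simp only [G2]; ring
      rw [e]
      linear_combination C l3 * C l4 * r2 - G2 ((algebraMap O K) a) ((algebraMap O K) b)
        (((rep P).2 * (rep Q).2)) (((rep P).1 * (rep Q).2 + (rep Q).1 * (rep P).2))
        (((rep P).1 * (rep Q).1)) * hCC
  -- primitive triple on the right in the residue field
  have prs : Prim3 ((s 0).map S.red) ((s 1).map S.red) ((s 2).map S.red) := by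
    show Prim3 ((H0 Pd Pm Pi).map _) ((H1 a b Pd Pm Pi).map _) ((H2 a b Pd Pm Pi).map _)
    rw [H0_map, H1_map, H2_map]
    apply G_prim _ _ h2 hΔk
    simp only [Pi, Pm, Pd, Polynomial.map_mul, Polynomial.map_add]
    exact prim_pair cop1 cop2
  have hs : ∃ i, (s i).map S.red ≠ 0 := by
    by_contra hcon
    push Not at hcon
    obtain ⟨a', b', c', h'⟩ := prs
    rw [hcon 0, hcon 1, hcon 2] at h'
    simp at h'
  have ht : ∃ i, (t i).map S.red ≠ 0 := by
    by_contra hcon
    push Not at hcon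
    have z0 : d3.map S.red * d4.map S.red = 0 := by
      rw [← Polynomial.map_mul]; exact hcon 0
    have z1 : n3.map S.red * d4.map S.red + n4.map S.red * d3.map S.red = 0 := by
      rw [← Polynomial.map_mul, ← Polynomial.map_mul, ← Polynomial.map_add]; exact hcon 1
    have z2 : n3.map S.red * n4.map S.red = 0 := by
      rw [← Polynomial.map_mul]; exact hcon 2
    rcases mul_eq_zero.mp z0 with h | h
    · have hn3 : n3.map S.red ≠ 0 := p3.resolve_right (by simp [h])
      have hn4 : n4.map S.red = 0 := (mul_eq_zero.mp z2).resolve_left hn3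
      have hd4 : d4.map S.red ≠ 0 := p4.resolve_left (by simp [hn4])
      rw [h, mul_zero, add_zero] at z1
      exact (mul_ne_zero hn3 hd4) z1
    · have hn4 : n4.map S.red ≠ 0 := p4.resolve_right (by simp [h])
      have hn3 : n3.map S.red = 0 := (mul_eq_zero.mp z2).resolve_right hn4
      have hd3 : d3.map S.red ≠ 0 := p3.resolve_left (by simp [hn3])
      rw [h, mul_zero, zero_add] at z1
      exact (mul_ne_zero hn4 hd3) z1
  obtain ⟨u, hu, hus⟩ := S.ratio t s _ hcl hts ht hs
  have hub : S.red u ≠ 0 := (hu.map S.red).ne_zero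
  -- heights
  have e0 : d3.map S.red * d4.map S.red = C (S.red u) * (s 0).map S.red := by
    rw [← Polynomial.map_mul, ← map_C S.red, ← Polynomial.map_mul, ← hus 0]; rfl
  have e1 : n3.map S.red * d4.map S.red + n4.map S.red * d3.map S.red =
      C (S.red u) * (s 1).map S.red := by
    rw [← Polynomial.map_mul, ← Polynomial.map_mul, ← Polynomial.map_add, ← map_C S.red,
      ← Polynomial.map_mul, ← hus 1]; rfl
  have e2 : n3.map S.red * n4.map S.red = C (S.red u) * (s 2).map S.red := by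
    rw [← Polynomial.map_mul, ← map_C S.red, ← Polynomial.map_mul, ← hus 2]; rfl
  have hmt : mh3 (d3.map S.red * d4.map S.red)
      (n3.map S.red * d4.map S.red + n4.map S.red * d3.map S.red) (n3.map S.red * n4.map S.red) =
      mh3 ((s 0).map S.red) ((s 1).map S.red) ((s 2).map S.red) := by
    rw [e0, e1, e2]
    unfold mh3
    rw [natDegree_C_mul hub, natDegree_C_mul hub, natDegree_C_mul hub]
  rw [mh_pair p3 p4] at hmt
  have hms : mh3 ((s 0).map S.red) ((s 1).map S.red) ((s 2).map S.red) = 2 * (hgt P + hgt Q) := by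
    show mh3 ((H0 Pd Pm Pi).map _) ((H1 a b Pd Pm Pi).map _) ((H2 a b Pd Pm Pi).map _) = _
    rw [H0_map, H1_map, H2_map, G_mh _ _ h2 hΔk]
    simp only [Pi, Pm, Pd, Polynomial.map_mul, Polynomial.map_add]
    have ne1 : n1.map S.red ≠ 0 ∨ d1.map S.red ≠ 0 := by
      by_contra hcon
      push Not at hcon
      rw [hcon.1, hcon.2] at cop1
      exact not_isCoprime_zero_zero cop1
    have ne2 : n2.map S.red ≠ 0 ∨ d2.map S.red ≠ 0 := by
      by_contra hcon
      push Not at hcon
      rw [hcon.1, hcon.2] at cop2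
      exact not_isCoprime_zero_zero cop2
    rw [mh_pair ne1 ne2, m1, m2]
  have hle : ∀ (n d : O[X]) (l : K) (R : (TWf f (algebraMap O K a) (algebraMap O K b)).Point), l ≠ 0 →
      n.map (algebraMap O K) = C l * (rep R).1 → d.map (algebraMap O K) = C l * (rep R).2 →
      mh (n.map S.red) (d.map S.red) ≤ hgt R := by
    intro n d l R hl hn hd
    unfold hgt mh
    have h1 : (rep R).1.natDegree = n.natDegree := by
      rw [← natDegree_C_mul hl, ← hn, natDegree_map_eq_of_injective S.inj]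
    have h2 : (rep R).2.natDegree = d.natDegree := by
      rw [← natDegree_C_mul hl, ← hd, natDegree_map_eq_of_injective S.inj]
    rw [h1, h2]
    exact max_le_max natDegree_map_le natDegree_map_le
  have h3 := hle n3 d3 l3 _ hl3 en3 ed3
  have h4 := hle n4 d4 l4 _ hl4 en4 ed4
  refine ⟨n3, d3, l3, hl3, en3, ed3, ?_, by omega⟩
  obtain ⟨a', b', c', h'⟩ := prs
  obtain ⟨ui, hui⟩ : ∃ ui : k, ui * S.red u = 1 := ⟨(S.red u)⁻¹, inv_mul_cancel₀ hub⟩
  have hC : C ui * C (S.red u) = 1 := by rw [← C_mul, hui, C_1]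
  refine ⟨C ui * (b' * d4.map S.red + c' * n4.map S.red),
    C ui * (a' * d4.map S.red + b' * n4.map S.red), ?_⟩
  linear_combination C ui * a' * e0 + C ui * b' * e1 + C ui * c' * e2 + C ui * C (S.red u) * h' + hC

end Pool.Agent.H546
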