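import Mathlib

set_option autoImplicit false

/-!
# Verified arithmetic with lists of quadruples of integers

A quadruple `(a,b,c,d)` stands for `a + b s + c r + d s r` with `s² = D`, `r² = E`; a list of
quadruples stands for a polynomial.
-/

namespace Pool.Agent.H546

/-- quadruples of integers -/
structure Q4 where
  a : Int
  b : Int
  c : Int
  d : Int

namespace Q4

def add (x y : Q4) : Q4 := ⟨x.a + y.a, x.b + y.b, x.c + y.c, x.d + y.d⟩

def mul (D E : Int) (x y : Q4) : Q4 :=
  ⟨x.a * y.a + D * (x.b * y.b) + E * (x.c * y.c + D * (x.d * y.d)),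
   x.a * y.b + x.b * y.a + E * (x.c * y.d + x.d * y.c),
   x.a * y.c + x.c * y.a + D * (x.b * y.d + x.d * y.b),
   x.a * y.d + x.d * y.a + (x.b * y.c + x.c * y.b)⟩

def beq (x y : Q4) : Bool := x.a == y.a && (x.b == y.b && (x.c == y.c && x.d == y.d))

theorem eq_of_beq {x y : Q4} (h : beq x y = true) : x = y := by
  unfold beq at h
  simp only [Bool.and_eq_true, beq_iff_eq] at h
  obtain ⟨h1, h2, h3, h4⟩ := h
  cases x; cases y
  simp_all

/-- zero -/
def z0 : Q4 := ⟨0, 0, 0, 0⟩

end Q4

def ladd : List Q4 → List Q4 → List Q4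
  | [], b => b
  | a :: as, [] => a :: as
  | a :: as, b :: bs => a.add b :: ladd as bs

def lsm (D E : Int) (c : Q4) : List Q4 → List Q4
  | [] => []
  | a :: as => Q4.mul D E c a :: lsm D E c as

def lmul (D E : Int) : List Q4 → List Q4 → List Q4
  | [], _ => []
  | a :: as, b => ladd (lsm D E a b) (Q4.z0 :: lmul D E as b)

def lder : List Q4 → List Q4
  | [] => []
  | _ :: as => ladd as (Q4.z0 :: lder as)

def lz : List Q4 → Bool
  | [] => true
  | b :: bs => b.beq Q4.z0 && lz bs

def leq : List Q4 → List Q4 → Bool
  | [], q => lz q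
  | a :: as, [] => a.beq Q4.z0 && leq as []
  | a :: as, b :: bs => a.beq b && leq as bs

section ev

variable {O : Type*} [CommRing O] (s r : O)

/-- the value of a quadruple -/
def e4 (x : Q4) : O := (x.a : O) + x.b * s + x.c * r + x.d * (s * r)

theorem e4_add (x y : Q4) : e4 s r (x.add y) = e4 s r x + e4 s r y := by
  simp only [e4, Q4.add]; push_cast; ring

variable {s r}

theorem e4_mul {D E : Int} (hs : s ^ 2 = D) (hr : r ^ 2 = E) (x y : Q4) :
    e4 s r (Q4.mul D E x y) = e4 s r x * e4 s r y := by
  simp only [e4, Q4.mul]; push_cast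
  rw [← hs, ← hr]; ring

variable (s r)

theorem e4_z0 : e4 s r Q4.z0 = 0 := by simp [e4, Q4.z0]

open Polynomial

/-- the polynomial of a list -/
noncomputable def ev : List Q4 → O[X]
  | [] => 0
  | a :: as => C (e4 s r a) + X * ev as

theorem ev_add (p q : List Q4) : ev s r (ladd p q) = ev s r p + ev s r q := by
  induction p generalizing q with
  | nil => simp [ladd, ev]
  | cons a as ih =>
    cases q with
    | nil => simp [ladd, ev]
    | cons b bs => simp only [ladd, ev, ih, e4_add, C_add]; ring

variable {s r}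

theorem ev_sm {D E : Int} (hs : s ^ 2 = D) (hr : r ^ 2 = E) (c : Q4) (p : List Q4) :
    ev s r (lsm D E c p) = C (e4 s r c) * ev s r p := by
  induction p with
  | nil => simp [lsm, ev]
  | cons a as ih => simp only [lsm, ev, ih, e4_mul hs hr, C_mul]; ring

theorem ev_mul {D E : Int} (hs : s ^ 2 = D) (hr : r ^ 2 = E) (p q : List Q4) :
    ev s r (lmul D E p q) = ev s r p * ev s r q := by
  induction p with
  | nil => simp [lmul, ev]
  | cons a as ih => simp only [lmul, ev, ev_add, ev_sm hs hr, ih, e4_z0, C_0]; ring

variable (s r)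

theorem ev_der (p : List Q4) : ev s r (lder p) = derivative (ev s r p) := by
  induction p with
  | nil => simp [lder, ev]
  | cons a as ih =>
    simp only [lder, ev, ev_add, ih, e4_z0, C_0, derivative_add, derivative_C, derivative_mul,
      derivative_X]
    ring

theorem ev_lz (q : List Q4) (h : lz q = true) : ev s r q = 0 := by
  induction q with
  | nil => rfl
  | cons b bs ih =>
    simp only [lz, Bool.and_eq_true] at h
    have h1 := Q4.eq_of_beq h.1
    simp only [ev]
    rw [ih h.2, h1, e4_z0, C_0]; ring

theorem ev_eq (p q : List Q4) (h : leq p q = true) : ev s r p = ev s r q := by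
  induction p generalizing q with
  | nil =>
    simp only [leq] at h
    rw [ev_lz s r q h]; rfl
  | cons a as ih =>
    cases q with
    | nil =>
      simp only [leq, Bool.and_eq_true] at h
      have h1 := Q4.eq_of_beq h.1
      have h2 := ih _ h.2
      simp only [ev] at h2 ⊢
      rw [h2, h1, e4_z0, C_0]; ring
    | cons b bs =>
      simp only [leq, Bool.and_eq_true] at h
      have h1 := Q4.eq_of_beq h.1
      rw [ev, ev, ih _ h.2, h1]

theorem ev_coeff (p : List Q4) (i : ℕ) : (ev s r p).coeff i = e4 s r (p.getD i Q4.z0) := by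
  induction p generalizing i with
  | nil => simp [ev, e4_z0]
  | cons a as ih =>
    rcases i with _ | i
    · simp [ev]
    · rw [ev, coeff_add, coeff_X_mul, ih, coeff_C_succ, zero_add]
      simp

theorem ev_deg (p : List Q4) (n : ℕ) (h : p.length ≤ n + 1) : (ev s r p).natDegree ≤ n := by
  rw [natDegree_le_iff_coeff_eq_zero]
  intro i hi
  rw [ev_coeff, List.getD_eq_default _ _ (by omega), e4_z0]

end ev

end Pool.Agent.H546
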