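import Pool.Graph.R_pool_sql_team_seeded_3997aac3.Q267.MW.Der
import Pool.Graph.R_pool_sql_team_seeded_3997aac3.Q267.MW.QF
import Pool.Graph.R_pool_sql_team_seeded_3997aac3.Q267.MW.Good

set_option autoImplicit false

/-!
# The parallelogram law for the degree on the twist `f(t) Y² = X³ + a X + b`
-/

namespace Pool.Agent.H546

open Polynomial WeierstrassCurve WeierstrassCurve.Affine
open Pool.Agent.Q267.MW (SW io io_inj io_ne Prim3 mh mh3 xr as_main G0 G1 G2 G_mh G_prim prim_pair mh_pair prop_eq g0 g1 g2 eqn negY_SW rd rd_div rd_io rd_add rd_mul rd_const rd_neg rd_sub rd_sq rd_cube vi vi_const vi_unit rd_quot add_der dbl_der add_quad pos_add pos_cub pos_dbl two_ne_K)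

variable {F : Type*} [Field F]

noncomputable section

/-- the twist by `f`, in Weierstrass form -/
abbrev TWf (f : F[X]) (a b : F) : WeierstrassCurve.Affine (RatFunc F) :=
  SW (io (C a) * io f ^ 2) (io (C b) * io f ^ 3)

/-- reduced representatives -/
def rep {f : F[X]} {a b : F} : (TWf f a b).Point → F[X] × F[X]
  | .zero => (1, 0)
  | .some x _ _ => ((x / io f).num, (x / io f).denom)

theorem rep_zero {f : F[X]} {a b : F} : rep (0 : (TWf f a b).Point) = (1, 0) := rfl

theorem rep_some {f : F[X]} {a b : F} {x y : RatFunc F} (h : (TWf f a b).Nonsingular x y) :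
    rep (Point.some x y h) = ((x / io f).num, (x / io f).denom) := rfl

theorem rep_cop {f : F[X]} {a b : F} (P : (TWf f a b).Point) : IsCoprime (rep P).1 (rep P).2 := by
  cases P with
  | zero => exact isCoprime_one_left
  | some x y h => exact RatFunc.isCoprime_num_denom _

theorem rep_ne {f : F[X]} {a b : F} (P : (TWf f a b).Point) : (rep P).1 ≠ 0 ∨ (rep P).2 ≠ 0 := by
  cases P with
  | zero => exact Or.inl one_ne_zero
  | some x y h => exact Or.inr (RatFunc.denom_ne_zero _)

theorem rep_xr {f : F[X]} {a b : F} (hf0 : f ≠ 0) (P : (TWf f a b).Point) : ∃ c : RatFunc F, c ≠ 0 ∧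
    io f * io (rep P).1 = c * (xr P).1 ∧ io (rep P).2 = c * (xr P).2 := by
  have hf := io_ne hf0
  cases P with
  | zero =>
    refine ⟨io f, hf, ?_, ?_⟩
    · show io f * io 1 = io f * 1
      rw [map_one]
    · show io 0 = io f * 0
      rw [map_zero, mul_zero]
  | some x y h =>
    have hd : io (x / io f).denom ≠ 0 := by
      intro h0
      exact RatFunc.denom_ne_zero (x / io f) (io_inj (by rw [h0, map_zero]))
    refine ⟨io (x / io f).denom, hd, ?_, ?_⟩
    · show io f * io (x / io f).num = io (x / io f).denom * x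
      have := RatFunc.num_div_denom (x / io f)
      rw [div_eq_iff hd] at this
      rw [show algebraMap F[X] (RatFunc F) (x / io f).num = io (x / io f).num from rfl]
        at this
      rw [this]
      field_simp
    · show io (x / io f).denom = io (x / io f).denom * 1
      rw [mul_one]

/-- the degree of a point -/
def hgt {f : F[X]} {a b : F} (P : (TWf f a b).Point) : ℕ := mh (rep P).1 (rep P).2

theorem hgt_zero {f : F[X]} {a b : F} : hgt (0 : (TWf f a b).Point) = 0 := by
  simp [hgt, rep_zero, mh]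

theorem rep_neg {f : F[X]} {a b : F} (P : (TWf f a b).Point) : rep (-P) = rep P := by
  cases P with
  | zero => rfl
  | some x y h => rfl

theorem hgt_neg {f : F[X]} {a b : F} (P : (TWf f a b).Point) : hgt (-P) = hgt P := by
  rw [hgt, rep_neg, hgt]

open Classical in
theorem par {f : F[X]} {a b : F} (hf0 : f ≠ 0) (h2 : (2 : F) ≠ 0) (hΔ : 4 * a ^ 3 + 27 * b ^ 2 ≠ 0)
    (P Q : (TWf f a b).Point) : hgt (P + Q) + hgt (P - Q) = 2 * (hgt P + hgt Q) := by
  have h2K : (2 : RatFunc F) ≠ 0 := by
    intro h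
    apply h2
    have h' : io (C (2 : F)) = 0 := by rw [map_ofNat, map_ofNat]; exact h
    rw [← map_zero (io (F := F))] at h'
    have := io_inj h'
    rwa [C_eq_zero] at this
  have hf := io_ne hf0
  have has := as_main P Q h2K
  obtain ⟨c1, hc1, e1, d1⟩ := rep_xr hf0 P
  obtain ⟨c2, hc2, e2, d2⟩ := rep_xr hf0 Q
  obtain ⟨c3, hc3, e3, d3⟩ := rep_xr hf0 (P + Q)
  obtain ⟨c4, hc4, e4, d4⟩ := rep_xr hf0 (P - Q)
  have n1 : io (rep P).1 = c1 * (xr P).1 / io f := by rw [← e1]; field_simp
  have n2 : io (rep Q).1 = c2 * (xr Q).1 / io f := by rw [← e2]; field_simp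
  have n3 : io (rep (P + Q)).1 = c3 * (xr (P + Q)).1 / io f := by rw [← e3]; field_simp
  have n4 : io (rep (P - Q)).1 = c4 * (xr (P - Q)).1 / io f := by rw [← e4]; field_simp
  unfold hgt
  rw [← mh_pair (rep_ne (P + Q)) (rep_ne (P - Q)), ← mh_pair (rep_ne P) (rep_ne Q),
    ← G_mh a b h2 hΔ]
  refine prop_eq (prim_pair (rep_cop _) (rep_cop _))
    (G_prim a b h2 hΔ (prim_pair (rep_cop _) (rep_cop _))) ?_ ?_ ?_
  · obtain ⟨t1, -, -⟩ := has
    apply io_inj
    simp only [G0, G1, g0, g1, map_add, map_mul, map_sub, map_pow, map_ofNat, C_mul] at t1 ⊢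
    rw [d1, d2, d3, d4, n1, n2, n3, n4]
    field_simp
    linear_combination t1
  · obtain ⟨-, t1, -⟩ := has
    apply io_inj
    simp only [G0, G2, g0, g2, map_add, map_mul, map_sub, map_pow, map_ofNat, C_mul] at t1 ⊢
    rw [d1, d2, d3, d4, n1, n2, n3, n4]
    field_simp
    linear_combination t1
  · obtain ⟨-, -, t1⟩ := has
    apply io_inj
    simp only [G1, G2, g1, g2, map_add, map_mul, map_sub, map_pow, map_ofNat, C_mul] at t1 ⊢
    rw [d1, d2, d3, d4, n1, n2, n3, n4]
    field_simp
    linear_combination t1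

end

end Pool.Agent.H546
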