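import Pool.Agent.H546.Leg

set_option autoImplicit false

/-!
# Legendre polynomials as truncated hypergeometric sums in `4 z (1 - z)`
-/

namespace Pool.Agent.H546

open Finset

section ring

variable {A : Type*} [CommRing A]

/-- the ascending product -/
def pch (u : A) (k : ℕ) : A := ∏ i ∈ range k, (u + i)

theorem pch_zero (u : A) : pch u 0 = 1 := by simp [pch]

theorem pch_succ (u : A) (k : ℕ) : pch u (k + 1) = pch u k * (u + k) := by
  rw [pch, prod_range_succ]; rfl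

theorem pch_succ' (u : A) (k : ℕ) : pch u (k + 1) = u * pch (u + 1) k := by
  rw [pch, prod_range_succ', pch, mul_comm]
  congr 1
  · simp
  · refine prod_congr rfl fun i _ => ?_
    push_cast; ring

theorem pch_map {B : Type*} [CommRing B] (f : A →+* B) (u : A) (k : ℕ) : f (pch u k) = pch (f u) k := by
  simp [pch]

/-- the product of inverses -/
def Jf (iv : ℕ → A) (k : ℕ) : A := ∏ i ∈ range k, iv (i + 1)

theorem Jf_zero (iv : ℕ → A) : Jf iv 0 = 1 := by simp [Jf]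

theorem Jf_succ (iv : ℕ → A) (k : ℕ) : Jf iv (k + 1) = Jf iv k * iv (k + 1) := by
  rw [Jf, prod_range_succ]; rfl

/-- the truncated sum -/
def hyp (iv : ℕ → A) (N : ℕ) (u v t : A) : A := ∑ k ∈ range N, pch u k * pch v k * Jf iv k ^ 2 * t ^ k

theorem hyp_comm (iv : ℕ → A) (N : ℕ) (u v t : A) : hyp iv N u v t = hyp iv N v u t := by
  unfold hyp
  refine sum_congr rfl fun k _ => ?_
  ring

/-- the expansion in a parameter -/
theorem pch_exp (u v : A) : ∃ b : ℕ → A, ∀ (δ : A) (k : ℕ), ∃ e : A,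
    pch (u + δ) k * pch (v - δ) k = pch u k * pch v k + δ * b k + δ ^ 2 * e := by
  refine ⟨fun k => Nat.rec (motive := fun _ => A) 0 (fun k b => b * ((u + k) * (v + k)) + pch u k * pch v k * (v - u)) k,
    fun δ k => ?_⟩
  induction k with
  | zero => exact ⟨0, by simp [pch_zero]⟩
  | succ k ih =>
    obtain ⟨e, he⟩ := ih
    rw [pch_succ, pch_succ, pch_succ, pch_succ]
    set b := (Nat.rec (motive := fun _ => A) 0 (fun k b => b * ((u + k) * (v + k)) + pch u k * pch v k * (v - u)) k : A)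
    refine ⟨e * ((u + δ + k) * (v - δ + k)) - pch u k * pch v k + b * ((v - u) - δ), ?_⟩
    show _ = _ + δ * (b * ((u + k) * (v + k)) + pch u k * pch v k * (v - u)) + _
    linear_combination ((u + δ + k) * (v - δ + k)) * he

theorem hyp_exp (iv : ℕ → A) (N : ℕ) (u v t : A) : ∃ B : A, ∀ δ : A, ∃ E : A,
    hyp iv N (u + δ) (v - δ) t = hyp iv N u v t + δ * B + δ ^ 2 * E := by
  obtain ⟨b, hb⟩ := pch_exp u v
  refine ⟨∑ k ∈ range N, b k * Jf iv k ^ 2 * t ^ k, fun δ => ?_⟩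
  choose e he using hb δ
  refine ⟨∑ k ∈ range N, e k * Jf iv k ^ 2 * t ^ k, ?_⟩
  unfold hyp
  rw [mul_sum, mul_sum, ← sum_add_distrib, ← sum_add_distrib]
  refine sum_congr rfl fun k _ => ?_
  linear_combination (Jf iv k ^ 2 * t ^ k) * he k

theorem pch_neg (m k : ℕ) (h : m < k) : pch (-(m : A)) k = 0 := by
  unfold pch
  apply prod_eq_zero (mem_range.mpr h)
  ring

variable (iv : ℕ → A)

theorem hyp_shift (N : ℕ) (u v t : A) : hyp iv (N + 1) u v t =
    1 + ∑ k ∈ range N, pch u (k + 1) * pch v (k + 1) * Jf iv (k + 1) ^ 2 * t ^ (k + 1) := by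
  unfold hyp
  rw [sum_range_succ', add_comm]
  congr 1
  simp [pch_zero, Jf_zero]

theorem t_hyp (N m : ℕ) (v t : A) (hm : m < N) : t * hyp iv (N + 1) (-(m : A)) v t =
    ∑ k ∈ range N, pch (-(m : A)) k * pch v k * Jf iv k ^ 2 * t ^ (k + 1) := by
  unfold hyp
  rw [sum_range_succ, pch_neg m N hm, mul_add, mul_sum]
  simp only [zero_mul, mul_zero, add_zero]
  refine sum_congr rfl fun k _ => ?_
  rw [pow_succ]; ring

theorem hyp_R1 (N m : ℕ) (h : A) (hh : 2 * h = 1) (t : A) (hm : m < N)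
    (hiv : ∀ k, k < N → ((k : A) + 1) * iv (k + 1) = 1) :
    (2 * (m : A) + 2) * hyp iv (N + 1) (-((m + 1 : ℕ) : A)) ((m + 1 : ℕ) + h) t =
      (4 * (m : A) + 3) * ((1 - t) * hyp iv (N + 1) (-(m : A)) (m + 3 * h) t) -
        (2 * (m : A) + 1) * hyp iv (N + 1) (-(m : A)) (m + h) t := by
  have e1 := t_hyp iv N m (m + 3 * h) t hm
  have e2 := hyp_shift iv N (-(m : A)) (m + 3 * h) t
  have e3 := hyp_shift iv N (-(m : A)) (m + h) t
  have e4 := hyp_shift iv N (-((m + 1 : ℕ) : A)) ((m + 1 : ℕ) + h) t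
  have key : ∑ k ∈ range N, ((2 * (m : A) + 2) * (pch (-((m + 1 : ℕ) : A)) (k + 1) *
        pch (((m + 1 : ℕ) : A) + h) (k + 1) * Jf iv (k + 1) ^ 2 * t ^ (k + 1)) -
      (4 * (m : A) + 3) * (pch (-(m : A)) (k + 1) * pch (m + 3 * h) (k + 1) * Jf iv (k + 1) ^ 2 * t ^ (k + 1)) +
      (4 * (m : A) + 3) * (pch (-(m : A)) k * pch (m + 3 * h) k * Jf iv k ^ 2 * t ^ (k + 1)) +
      (2 * (m : A) + 1) * (pch (-(m : A)) (k + 1) * pch (m + h) (k + 1) * Jf iv (k + 1) ^ 2 * t ^ (k + 1))) = 0 := by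
    refine sum_eq_zero fun k hk => ?_
    have hi := hiv k (mem_range.mp hk)
    have a1 : pch (-((m + 1 : ℕ) : A)) (k + 1) = -((m : A) + 1) * pch (-(m : A)) k := by
      rw [pch_succ']; push_cast
      have : -((m : A) + 1) + 1 = -(m : A) := by ring
      rw [this]
    have a2 : (((m + 1 : ℕ) : A) + h) = m + 3 * h := by push_cast; linear_combination -hh
    have a3 : pch (m + h) (k + 1) = (m + h) * pch (m + 3 * h) k := by
      rw [pch_succ']
      have : (m : A) + h + 1 = m + 3 * h := by linear_combination -hh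
      rw [this]
    rw [a1, a2, a3, pch_succ (m + 3 * h), pch_succ (-(m : A)), Jf_succ]
    set P := pch (-(m : A)) k
    set Q := pch ((m : A) + 3 * h) k
    set J := Jf iv k
    set i := iv (k + 1)
    linear_combination (-(4 * (m : A) + 3) * P * Q * J ^ 2 * t ^ (k + 1) * (((k : A) + 1) * i + 1)) * hi
      - (P * Q * J ^ 2 * t ^ (k + 1) * i ^ 2 * (3 * ((m : A) + 1) ^ 2 + ((k : A) - m) * (5 * m + 4))) * hh
  rw [sum_add_distrib, sum_add_distrib, sum_sub_distrib, ← mul_sum, ← mul_sum, ← mul_sum, ← mul_sum] at key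
  rw [sub_mul, one_mul, e1, e2, e3, e4]
  linear_combination key

theorem hyp_R2 (N m : ℕ) (h : A) (hh : 2 * h = 1) (t : A)  :
    (2 * (m : A) + 3) * hyp iv (N + 1) (-((m + 1 : ℕ) : A)) ((m + 1 : ℕ) + 3 * h) t =
      (4 * (m : A) + 5) * hyp iv (N + 1) (-((m + 1 : ℕ) : A)) ((m + 1 : ℕ) + h) t -
        (2 * (m : A) + 2) * hyp iv (N + 1) (-(m : A)) (m + 3 * h) t := by
  have e2 := hyp_shift iv N (-(m : A)) (m + 3 * h) t
  have e3 := hyp_shift iv N (-((m + 1 : ℕ) : A)) ((m + 1 : ℕ) + 3 * h) t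
  have e4 := hyp_shift iv N (-((m + 1 : ℕ) : A)) ((m + 1 : ℕ) + h) t
  have key : ∑ k ∈ range N, ((2 * (m : A) + 3) * (pch (-((m + 1 : ℕ) : A)) (k + 1) *
        pch (((m + 1 : ℕ) : A) + 3 * h) (k + 1) * Jf iv (k + 1) ^ 2 * t ^ (k + 1)) -
      (4 * (m : A) + 5) * (pch (-((m + 1 : ℕ) : A)) (k + 1) * pch (((m + 1 : ℕ) : A) + h) (k + 1) * Jf iv (k + 1) ^ 2 * t ^ (k + 1)) +
      (2 * (m : A) + 2) * (pch (-(m : A)) (k + 1) * pch (m + 3 * h) (k + 1) * Jf iv (k + 1) ^ 2 * t ^ (k + 1))) = 0 := by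
    refine sum_eq_zero fun k hk => ?_
    have a1 : pch (-((m + 1 : ℕ) : A)) (k + 1) = -((m : A) + 1) * pch (-(m : A)) k := by
      rw [pch_succ']; push_cast
      have : -((m : A) + 1) + 1 = -(m : A) := by ring
      rw [this]
    have a2 : pch (((m + 1 : ℕ) : A) + h) (k + 1) = (((m + 1 : ℕ) : A) + h) * pch (((m + 1 : ℕ) : A) + 3 * h) k := by
      rw [pch_succ']
      have : ((m + 1 : ℕ) : A) + h + 1 = ((m + 1 : ℕ) : A) + 3 * h := by linear_combination -hh
      rw [this]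
    have a3 : pch (m + 3 * h) (k + 1) = (m + 3 * h) * pch (((m + 1 : ℕ) : A) + 3 * h) k := by
      rw [pch_succ']
      have : (m : A) + 3 * h + 1 = ((m + 1 : ℕ) : A) + 3 * h := by push_cast; ring
      rw [this]
    rw [a1, a2, a3, pch_succ (((m + 1 : ℕ) : A) + 3 * h), pch_succ (-(m : A)), Jf_succ]
    set P := pch (-(m : A)) k
    set Q := pch (((m + 1 : ℕ) : A) + 3 * h) k
    set J := Jf iv k
    set i := iv (k + 1)
    push_cast
    linear_combination (P * Q * J ^ 2 * t ^ (k + 1) * i ^ 2 * ((m : A) + 1) * (3 * k - 4 * m - 2)) * hh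
  rw [sum_add_distrib, sum_sub_distrib, ← mul_sum, ← mul_sum, ← mul_sum] at key
  rw [e2, e3, e4]
  linear_combination key

theorem hyp_zero (N : ℕ) (v t : A) : hyp iv (N + 1) 0 v t = 1 := by
  rw [hyp_shift]
  have : ∀ k ∈ range N, pch (0 : A) (k + 1) * pch v (k + 1) * Jf iv (k + 1) ^ 2 * t ^ (k + 1) = 0 := by
    intro k _
    rw [pch_succ']; ring
  rw [sum_eq_zero this, add_zero]

/-- **Legendre polynomials and truncated hypergeometric sums.** -/
theorem lg_hyp [IsDomain A] [CharZero A] (N : ℕ) (h : A) (hh : 2 * h = 1) (z : A)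
    (hiv : ∀ k, k < N → ((k : A) + 1) * iv (k + 1) = 1) (m : ℕ) (hm : m ≤ N) :
    lg (2 * m) z = hyp iv (N + 1) (-(m : A)) (m + h) (4 * z * (1 - z)) ∧
      lg (2 * m + 1) z = (1 - 2 * z) * hyp iv (N + 1) (-(m : A)) (m + 3 * h) (4 * z * (1 - z)) := by
  induction m with
  | zero =>
    refine ⟨?_, ?_⟩
    · rw [Nat.cast_zero, neg_zero, hyp_zero, mul_zero, lg_zero]
    · rw [Nat.cast_zero, neg_zero, hyp_zero, mul_zero, zero_add, lg_one, mul_one]
  | succ m ih =>
    obtain ⟨h1, h2⟩ := ih (by omega)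
    have r1 := lg_rec (2 * m) z
    have r2 := lg_rec (2 * m + 1) z
    push_cast at r1 r2
    have R1 := hyp_R1 iv N m h hh (4 * z * (1 - z)) (by omega) hiv
    have R2 := hyp_R2 iv N m h hh (4 * z * (1 - z))
    have c1 : (2 * (m : A) + 2) ≠ 0 := by
      have : (2 * (m : A) + 2) = ((2 * m + 2 : ℕ) : A) := by push_cast; ring
      rw [this]; exact Nat.cast_ne_zero.mpr (by omega)
    have c2 : (2 * (m : A) + 3) ≠ 0 := by
      have : (2 * (m : A) + 3) = ((2 * m + 3 : ℕ) : A) := by push_cast; ring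
      rw [this]; exact Nat.cast_ne_zero.mpr (by omega)
    have g1 : lg (2 * (m + 1)) z = hyp iv (N + 1) (-((m + 1 : ℕ) : A)) ((m + 1 : ℕ) + h) (4 * z * (1 - z)) := by
      apply mul_left_cancel₀ c1
      rw [R1, show 2 * (m + 1) = 2 * m + 2 by ring]
      linear_combination r1 + (2 * (2 * (m : A)) + 3) * (1 - 2 * z) * h2 - (2 * (m : A) + 1) * h1
    refine ⟨g1, ?_⟩
    apply mul_left_cancel₀ c2
    rw [show 2 * (m + 1) + 1 = 2 * m + 1 + 2 by ring]
    rw [show 2 * (m + 1) = 2 * m + 1 + 1 by ring] at g1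
    linear_combination r2 + (4 * (m : A) + 5) * (1 - 2 * z) * g1 - (2 * (m : A) + 2) * h2 - (1 - 2 * z) * R2

end ring

end Pool.Agent.H546
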