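import Pool.Agent.H546.Poch

set_option autoImplicit false

/-!
# The combinations of Legendre polynomials modulo `p²`
-/

namespace Pool.Agent.H546

open Finset

variable {A : Type*} [CommRing A] [IsDomain A] [CharZero A] (iv : ℕ → A)

theorem comb1 {p : ℕ} (hp : p % 6 = 1) {i6 : A} (h6 : 6 * i6 = 1) (z : A)
    (hiv : ∀ k, k + 1 < p → ((k : A) + 1) * iv (k + 1) = 1) :
    ((p : A) ^ 2 ∣ 2 * lg (p / 3) z + lg (2 * p / 3) z - 3 * hyp iv p (2 * i6) i6 (4 * z * (1 - z))) ∧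
    ((p : A) ^ 2 ∣ 5 * lg (4 * p / 3) z + 4 * lg (5 * p / 3) z -
      9 * ((1 - 2 * z) * hyp iv p (4 * i6) (5 * i6) (4 * z * (1 - z)))) := by
  obtain ⟨μ, hμ⟩ : ∃ μ, p = 6 * μ + 1 := ⟨p / 6, by omega⟩
  obtain ⟨N, hN⟩ : ∃ N, p = N + 1 := ⟨6 * μ, hμ⟩
  have hpA : (p : A) = 6 * μ + 1 := by rw [hμ]; push_cast; ring
  have hh : 2 * (3 * i6) = 1 := by linear_combination h6
  have L := lg_hyp iv N (3 * i6) hh z (fun k hk => hiv k (by omega))
  rw [← hN] at L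
  obtain ⟨B1, hB1⟩ := hyp_exp iv p (2 * i6) i6 (4 * z * (1 - z))
  obtain ⟨B2, hB2⟩ := hyp_exp iv p (4 * i6) (5 * i6) (4 * z * (1 - z))
  have e1 : lg (p / 3) z = hyp iv p (2 * i6 + p * i6) (i6 - p * i6) (4 * z * (1 - z)) := by
    have h1 : p / 3 = 2 * μ := by omega
    rw [h1, (L μ (by omega)).1, hyp_comm]
    congr 1
    · rw [hpA]; linear_combination (-μ : A) * h6
    · rw [hpA]; linear_combination (μ : A) * h6
  have e2 : lg (2 * p / 3) z = hyp iv p (2 * i6 + (p * (-2 * i6))) (i6 - (p * (-2 * i6))) (4 * z * (1 - z)) := by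
    have h1 : 2 * p / 3 = 2 * (2 * μ) := by omega
    rw [h1, (L (2 * μ) (by omega)).1]
    congr 1
    · rw [hpA]; push_cast; linear_combination (2 * μ : A) * h6
    · rw [hpA]; push_cast; linear_combination (-2 * μ : A) * h6
  have e4 : lg (4 * p / 3) z = (1 - 2 * z) * hyp iv p (4 * i6 + (p * (-4 * i6))) (5 * i6 - (p * (-4 * i6))) (4 * z * (1 - z)) := by
    have h1 : 4 * p / 3 = 2 * (4 * μ) + 1 := by omega
    rw [h1, (L (4 * μ) (by omega)).2]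
    congr 2
    · rw [hpA]; push_cast; linear_combination (4 * μ : A) * h6
    · rw [hpA]; push_cast; linear_combination (-4 * μ : A) * h6
  have e5 : lg (5 * p / 3) z = (1 - 2 * z) * hyp iv p (4 * i6 + (p * (5 * i6))) (5 * i6 - (p * (5 * i6))) (4 * z * (1 - z)) := by
    have h1 : 5 * p / 3 = 2 * (5 * μ) + 1 := by omega
    rw [h1, (L (5 * μ) (by omega)).2, hyp_comm]
    congr 2
    · rw [hpA]; push_cast; linear_combination (-5 * μ : A) * h6
    · rw [hpA]; push_cast; linear_combination (5 * μ : A) * h6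
  obtain ⟨E1, hE1⟩ := hB1 (p * i6)
  obtain ⟨E2, hE2⟩ := hB1 (p * (-2 * i6))
  obtain ⟨E4, hE4⟩ := hB2 (p * (-4 * i6))
  obtain ⟨E5, hE5⟩ := hB2 (p * (5 * i6))
  rw [e1, e2, e4, e5, hE1, hE2, hE4, hE5]
  refine ⟨⟨2 * i6 ^ 2 * E1 + 4 * i6 ^ 2 * E2, ?_⟩, ⟨(1 - 2 * z) * (80 * i6 ^ 2 * E4 + 100 * i6 ^ 2 * E5), ?_⟩⟩
  · ring
  · ring

theorem comb2 {p : ℕ} (hp : p % 6 = 5) {i6 : A} (h6 : 6 * i6 = 1) (z : A)
    (hiv : ∀ k, k + 1 < p → ((k : A) + 1) * iv (k + 1) = 1) :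
    ((p : A) ^ 2 ∣ 2 * lg (p / 3) z + lg (2 * p / 3) z -
      3 * ((1 - 2 * z) * hyp iv p (4 * i6) (5 * i6) (4 * z * (1 - z)))) ∧
    ((p : A) ^ 2 ∣ 5 * lg (4 * p / 3) z + 4 * lg (5 * p / 3) z - 9 * hyp iv p (2 * i6) i6 (4 * z * (1 - z))) := by
  obtain ⟨μ, hμ⟩ : ∃ μ, p = 6 * μ + 5 := ⟨p / 6, by omega⟩
  obtain ⟨N, hN⟩ : ∃ N, p = N + 1 := ⟨6 * μ + 4, hμ⟩
  have hpA : (p : A) = 6 * μ + 5 := by rw [hμ]; push_cast; ring
  have hh : 2 * (3 * i6) = 1 := by linear_combination h6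
  have L := lg_hyp iv N (3 * i6) hh z (fun k hk => hiv k (by omega))
  rw [← hN] at L
  obtain ⟨B1, hB1⟩ := hyp_exp iv p (2 * i6) i6 (4 * z * (1 - z))
  obtain ⟨B2, hB2⟩ := hyp_exp iv p (4 * i6) (5 * i6) (4 * z * (1 - z))
  have e1 : lg (p / 3) z = (1 - 2 * z) * hyp iv p (4 * i6 + p * i6) (5 * i6 - p * i6) (4 * z * (1 - z)) := by
    have h1 : p / 3 = 2 * μ + 1 := by omega
    rw [h1, (L μ (by omega)).2, hyp_comm]
    congr 2
    · rw [hpA]; linear_combination (-μ : A) * h6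
    · rw [hpA]; linear_combination (μ : A) * h6
  have e2 : lg (2 * p / 3) z = (1 - 2 * z) * hyp iv p (4 * i6 + (p * (-2 * i6))) (5 * i6 - (p * (-2 * i6))) (4 * z * (1 - z)) := by
    have h1 : 2 * p / 3 = 2 * (2 * μ + 1) + 1 := by omega
    rw [h1, (L (2 * μ + 1) (by omega)).2]
    congr 2
    · rw [hpA]; push_cast; linear_combination (2 * μ + 1: A) * h6
    · rw [hpA]; push_cast; linear_combination (-2 * μ - 1 : A) * h6
  have e4 : lg (4 * p / 3) z = hyp iv p (2 * i6 + (p * (-4 * i6))) (i6 - (p * (-4 * i6))) (4 * z * (1 - z)) := by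
    have h1 : 4 * p / 3 = 2 * (4 * μ + 3) := by omega
    rw [h1, (L (4 * μ + 3) (by omega)).1]
    congr 1
    · rw [hpA]; push_cast; linear_combination (4 * μ + 3 : A) * h6
    · rw [hpA]; push_cast; linear_combination (-4 * μ - 3 : A) * h6
  have e5 : lg (5 * p / 3) z = hyp iv p (2 * i6 + (p * (5 * i6))) (i6 - (p * (5 * i6))) (4 * z * (1 - z)) := by
    have h1 : 5 * p / 3 = 2 * (5 * μ + 4) := by omega
    rw [h1, (L (5 * μ + 4) (by omega)).1, hyp_comm]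
    congr 1
    · rw [hpA]; push_cast; linear_combination (-5 * μ - 4 : A) * h6
    · rw [hpA]; push_cast; linear_combination (5 * μ + 4 : A) * h6
  obtain ⟨E1, hE1⟩ := hB2 (p * i6)
  obtain ⟨E2, hE2⟩ := hB2 (p * (-2 * i6))
  obtain ⟨E4, hE4⟩ := hB1 (p * (-4 * i6))
  obtain ⟨E5, hE5⟩ := hB1 (p * (5 * i6))
  rw [e1, e2, e4, e5, hE1, hE2, hE4, hE5]
  refine ⟨⟨(1 - 2 * z) * (2 * i6 ^ 2 * E1 + 4 * i6 ^ 2 * E2), ?_⟩, ⟨80 * i6 ^ 2 * E4 + 100 * i6 ^ 2 * E5, ?_⟩⟩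
  · ring
  · ring

/-- the individual congruences modulo `p` -/
theorem comb1_p {p : ℕ} (hp : p % 6 = 1) {i6 : A} (h6 : 6 * i6 = 1) (z : A)
    (hiv : ∀ k, k + 1 < p → ((k : A) + 1) * iv (k + 1) = 1) :
    ((p : A) ∣ lg (p / 3) z - hyp iv p (2 * i6) i6 (4 * z * (1 - z))) ∧
    ((p : A) ∣ lg (4 * p / 3) z - (1 - 2 * z) * hyp iv p (4 * i6) (5 * i6) (4 * z * (1 - z))) := by
  obtain ⟨μ, hμ⟩ : ∃ μ, p = 6 * μ + 1 := ⟨p / 6, by omega⟩
  obtain ⟨N, hN⟩ : ∃ N, p = N + 1 := ⟨6 * μ, hμ⟩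
  have hpA : (p : A) = 6 * μ + 1 := by rw [hμ]; push_cast; ring
  have hh : 2 * (3 * i6) = 1 := by linear_combination h6
  have L := lg_hyp iv N (3 * i6) hh z (fun k hk => hiv k (by omega))
  rw [← hN] at L
  obtain ⟨B1, hB1⟩ := hyp_exp iv p (2 * i6) i6 (4 * z * (1 - z))
  obtain ⟨B2, hB2⟩ := hyp_exp iv p (4 * i6) (5 * i6) (4 * z * (1 - z))
  have e1 : lg (p / 3) z = hyp iv p (2 * i6 + p * i6) (i6 - p * i6) (4 * z * (1 - z)) := by
    have h1 : p / 3 = 2 * μ := by omega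
    rw [h1, (L μ (by omega)).1, hyp_comm]
    congr 1
    · rw [hpA]; linear_combination (-μ : A) * h6
    · rw [hpA]; linear_combination (μ : A) * h6
  have e4 : lg (4 * p / 3) z = (1 - 2 * z) * hyp iv p (4 * i6 + (p * (-4 * i6))) (5 * i6 - (p * (-4 * i6))) (4 * z * (1 - z)) := by
    have h1 : 4 * p / 3 = 2 * (4 * μ) + 1 := by omega
    rw [h1, (L (4 * μ) (by omega)).2]
    congr 2
    · rw [hpA]; push_cast; linear_combination (4 * μ : A) * h6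
    · rw [hpA]; push_cast; linear_combination (-4 * μ : A) * h6
  obtain ⟨E1, hE1⟩ := hB1 (p * i6)
  obtain ⟨E4, hE4⟩ := hB2 (p * (-4 * i6))
  rw [e1, e4, hE1, hE4]
  refine ⟨⟨i6 * B1 + p * i6 ^ 2 * E1, ?_⟩, ⟨(1 - 2 * z) * (-4 * i6 * B2 + 16 * p * i6 ^ 2 * E4), ?_⟩⟩
  · ring
  · ring

theorem comb2_p {p : ℕ} (hp : p % 6 = 5) {i6 : A} (h6 : 6 * i6 = 1) (z : A)
    (hiv : ∀ k, k + 1 < p → ((k : A) + 1) * iv (k + 1) = 1) :
    ((p : A) ∣ lg (p / 3) z - (1 - 2 * z) * hyp iv p (4 * i6) (5 * i6) (4 * z * (1 - z))) ∧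
    ((p : A) ∣ lg (4 * p / 3) z - hyp iv p (2 * i6) i6 (4 * z * (1 - z))) := by
  obtain ⟨μ, hμ⟩ : ∃ μ, p = 6 * μ + 5 := ⟨p / 6, by omega⟩
  obtain ⟨N, hN⟩ : ∃ N, p = N + 1 := ⟨6 * μ + 4, hμ⟩
  have hpA : (p : A) = 6 * μ + 5 := by rw [hμ]; push_cast; ring
  have hh : 2 * (3 * i6) = 1 := by linear_combination h6
  have L := lg_hyp iv N (3 * i6) hh z (fun k hk => hiv k (by omega))
  rw [← hN] at L
  obtain ⟨B1, hB1⟩ := hyp_exp iv p (2 * i6) i6 (4 * z * (1 - z))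
  obtain ⟨B2, hB2⟩ := hyp_exp iv p (4 * i6) (5 * i6) (4 * z * (1 - z))
  have e1 : lg (p / 3) z = (1 - 2 * z) * hyp iv p (4 * i6 + p * i6) (5 * i6 - p * i6) (4 * z * (1 - z)) := by
    have h1 : p / 3 = 2 * μ + 1 := by omega
    rw [h1, (L μ (by omega)).2, hyp_comm]
    congr 2
    · rw [hpA]; linear_combination (-μ : A) * h6
    · rw [hpA]; linear_combination (μ : A) * h6
  have e4 : lg (4 * p / 3) z = hyp iv p (2 * i6 + (p * (-4 * i6))) (i6 - (p * (-4 * i6))) (4 * z * (1 - z)) := by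
    have h1 : 4 * p / 3 = 2 * (4 * μ + 3) := by omega
    rw [h1, (L (4 * μ + 3) (by omega)).1]
    congr 1
    · rw [hpA]; push_cast; linear_combination (4 * μ + 3 : A) * h6
    · rw [hpA]; push_cast; linear_combination (-4 * μ - 3 : A) * h6
  obtain ⟨E1, hE1⟩ := hB2 (p * i6)
  obtain ⟨E4, hE4⟩ := hB1 (p * (-4 * i6))
  rw [e1, e4, hE1, hE4]
  refine ⟨⟨(1 - 2 * z) * (i6 * B2 + p * i6 ^ 2 * E1), ?_⟩, ⟨(-4 * i6 * B1 + 16 * p * i6 ^ 2 * E4), ?_⟩⟩
  · ring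
  · ring

/-- the Schur congruence for Legendre polynomials -/
theorem lg_schur {k : Type*} [Field k] {p : ℕ} [hp : Fact p.Prime] [CharP k p] (z : k) (j : ℕ) (hj : j < p) :
    lg (p + j) z = lg p z * lg j z := by
  have hp2 := hp.out.two_le
  have hpk : (p : k) = 0 := CharP.cast_eq_zero k p
  induction j using Nat.strong_induction_on with
  | _ j ih =>
    rcases j with _ | _ | j
    · rw [lg_zero, mul_one, add_zero]
    · rw [lg_one]
      obtain ⟨m, hm⟩ : ∃ m, p = m + 1 := ⟨p - 1, by omega⟩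
      have h := lg_rec m z
      have hm' : (m : k) + 1 = 0 := by rw [← hpk, hm]; push_cast; ring
      rw [show m + 2 = p + 1 by omega, show m + 1 = p by omega] at h
      linear_combination h - (lg (p + 1) z - 2 * (1 - 2 * z) * lg p z + lg m z) * hm'
    · have i1 := ih j (by omega) (by omega)
      have i2 := ih (j + 1) (by omega) (by omega)
      have h := lg_rec (p + j) z
      have h' := lg_rec j z
      have hne : ((j : k) + 2) ≠ 0 := by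
        intro h0
        have h4 : ((j + 2 : ℕ) : k) = 0 := by push_cast; exact h0
        rw [CharP.cast_eq_zero_iff k p] at h4
        exact absurd (Nat.le_of_dvd (by omega) h4) (by omega)
      apply mul_left_cancel₀ hne
      rw [show p + (j + 1 + 1) = p + j + 2 by ring]
      rw [show p + (j + 1) = p + j + 1 by ring] at i2
      push_cast at h
      rw [hpk] at h
      rw [i1, i2] at h
      linear_combination h - lg p z * h'

end Pool.Agent.H546
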