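import Pool.Agent.H546.UtilG
import Pool.Agent.H546.SVdat

set_option autoImplicit false
set_option maxHeartbeats 1000000
set_option maxRecDepth 100000

/-!
# The sums with `t = -1/80` (discriminant `-75`)
-/

namespace Pool.Agent.H546

open Finset

section sv

variable {O K k : Type*} [CommRing O] [IsDomain O] [Field K] [Algebra O K] [Field k]
  (S : DV O K k) {p : ℕ} [hp : Fact p.Prime] [CharP k p]

/-- the powers of the multiplier -/
theorem sv_mu (hp2 : p ≠ 2) {ρ μ : O} (hρ : ρ ^ 2 = -3) (hμ : 2 * μ = 5 - ρ) :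
    2 * μ ^ 2 = 11 - 5 * ρ ∧ μ ^ 3 = 10 - 9 * ρ ∧ 2 * μ ^ 4 = 23 - 55 * ρ ∧ S.red 2 ≠ 0 := by
  have r2 := S.two_ne hp2
  have h2O : (2 : O) ≠ 0 := by intro h0; rw [h0, map_zero] at r2; exact r2 rfl
  have h2 : 2 * μ ^ 2 = 11 - 5 * ρ := by
    apply mul_left_cancel₀ h2O
    linear_combination (2 * μ + 5 - ρ) * hμ + hρ
  refine ⟨h2, ?_, ?_, r2⟩
  · apply mul_left_cancel₀ h2O
    apply mul_left_cancel₀ h2O
    linear_combination (2 * μ) * h2 + (11 - 5 * ρ) * hμ + 5 * hρ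
  · apply mul_left_cancel₀ h2O
    linear_combination (2 * μ ^ 2 + 11 - 5 * ρ) * h2 + 25 * hρ

/-- the isogeny of degree `7` -/
theorem sv_psi (h7 : 7 < p) {σ ρ z μ : O} (hσ : σ ^ 2 = 5) (hρ : ρ ^ 2 = -3) (hz : 40 * z = 20 - 9 * σ)
    (hμ : 2 * μ = 5 - ρ) : DatT S (4 * z) (4 * (1 - z)) μ 7 1 := by
  have nd : ∀ {n : ℕ} {l : List ℕ}, (∀ q ∈ l, q.Prime) → l.prod = n → (∀ q ∈ l, p ≠ q) → ¬ (p : ℤ) ∣ (n : ℤ) :=
    fun a b c => ndvd_of_primes p a b c
  obtain ⟨hμ2, hμ3, hμ4, r2⟩ := sv_mu S (p := p) (by omega) hρ hμ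
  have h2O : (2 : O) ≠ 0 := by intro h0; rw [h0, map_zero] at r2; exact r2 rfl
  have hz1 : 40 * (1 - z) = 20 + 9 * σ := by linear_combination -hz
  have hμr : S.red μ ≠ 0 := by
    refine S.ne_mul (y := 2 * (2 * μ) * (11 + 5 * ρ)) (n := 392) ?_ ?_
    · push_cast
      linear_combination (2 * (11 + 5 * ρ)) * hμ2 - 50 * hρ
    · have := nd (n := 392) (l := [2, 2, 2, 7, 7]) (by simp; norm_num) (by norm_num) (by simp; omega)
      exact_mod_cast this
  have r20 : S.red 20 ≠ 0 := by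
    have := S.int_ne (p := p) (n := 20) (by
      have := nd (n := 20) (l := [2, 2, 5]) (by simp; norm_num) (by norm_num) (by simp; omega)
      exact_mod_cast this)
    exact_mod_cast this
  have h20O : (20 : O) ≠ 0 := by intro h0; rw [h0, map_zero] at r20; exact r20 rfl
  have h20 : (20 : Polynomial O) ≠ 0 := by
    have : (20 : Polynomial O) = Polynomial.C 20 := (map_ofNat _ _).symm
    rw [this]; exact Polynomial.C_ne_zero.mpr h20O
  have hh3 : S.red ((svh (Polynomial.C σ) (Polynomial.C ρ) (Polynomial.X)).eval 3) ≠ 0 := by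
    rw [svh_eval]
    refine S.ne_mul (n := 56) (by push_cast; exact sv_h3 hσ hρ) ?_
    have := nd (n := 56) (l := [2, 2, 2, 7]) (by simp; norm_num) (by norm_num) (by simp; omega)
    exact_mod_cast this
  have hσC : (Polynomial.C σ : Polynomial O) ^ 2 = 5 := by
    rw [← Polynomial.C_pow, hσ, map_ofNat]
  have hρC : (Polynomial.C ρ : Polynomial O) ^ 2 = -3 := by
    rw [← Polynomial.C_pow, hρ, Polynomial.C_neg, map_ofNat]
  have ha : 20 * ca (4 * z) = -108 * σ - 300 := by simp only [ca]; linear_combination 12 * hz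
  have hb : 20 * cb (4 * z) = 252 * σ + 521 := by
    apply mul_left_cancel₀ h20O
    simp only [cb]
    linear_combination (4 * (40 * z) + 4 * (20 - 9 * σ) - 720) * hz + 324 * hσ
  have ha' : 10 * ca (4 * (1 - z)) = 54 * σ - 150 := by simp only [ca]; linear_combination 6 * hz1
  have hb' : 20 * cb (4 * (1 - z)) = 521 - 252 * σ := by
    apply mul_left_cancel₀ h20O
    simp only [cb]
    linear_combination (4 * (40 * (1 - z)) + 4 * (20 + 9 * σ) - 720) * hz1 + 324 * hσ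
  have hode : cub (ca (4 * z)) (cb (4 * z)) *
        (Polynomial.derivative (svN (Polynomial.C σ) (Polynomial.C ρ) Polynomial.X) *
          svh (Polynomial.C σ) (Polynomial.C ρ) Polynomial.X - 2 *
          svN (Polynomial.C σ) (Polynomial.C ρ) Polynomial.X *
          Polynomial.derivative (svh (Polynomial.C σ) (Polynomial.C ρ) Polynomial.X)) ^ 2 =
      svN (Polynomial.C σ) (Polynomial.C ρ) Polynomial.X ^ 3 +
        Polynomial.C (ca (4 * (1 - z)) * μ ^ 4) *
          svN (Polynomial.C σ) (Polynomial.C ρ) Polynomial.X *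
          svh (Polynomial.C σ) (Polynomial.C ρ) Polynomial.X ^ 4 +
        Polynomial.C (cb (4 * (1 - z)) * μ ^ 6) *
          svh (Polynomial.C σ) (Polynomial.C ρ) Polynomial.X ^ 6 := by
    have key := sv_alg (X := (Polynomial.X : Polynomial O)) hσC hρC
    rw [← svN_der, ← svh_der] at key
    have eF : svF (Polynomial.C σ) (Polynomial.C ρ) (Polynomial.X : Polynomial O) =
        20 * cub (ca (4 * z)) (cb (4 * z)) := by
      have h1 := congrArg (Polynomial.C : O → Polynomial O) ha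
      have h2 := congrArg (Polynomial.C : O → Polynomial O) hb
      simp only [Polynomial.C_mul, Polynomial.C_sub, Polynomial.C_add, Polynomial.C_neg, map_ofNat] at h1 h2
      simp only [svF, cub]
      linear_combination (-Polynomial.X) * h1 - h2
    have eA : 10 * Polynomial.C (ca (4 * (1 - z)) * μ ^ 4) =
        svAM (Polynomial.C σ) (Polynomial.C ρ) (Polynomial.X : Polynomial O) := by
      have : 10 * (ca (4 * (1 - z)) * μ ^ 4) = -1485 * σ * ρ + 621 * σ + 4125 * ρ - 1725 := by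
        apply mul_left_cancel₀ h2O
        linear_combination (2 * μ ^ 4) * ha' + (54 * σ - 150) * hμ4
      have e10 : (10 : Polynomial O) = Polynomial.C 10 := (map_ofNat _ _).symm
      rw [e10, ← Polynomial.C_mul, this]
      simp only [svAM, Polynomial.C_mul, Polynomial.C_sub, Polynomial.C_add, Polynomial.C_neg, map_ofNat]
    have eB : 20 * Polynomial.C (cb (4 * (1 - z)) * μ ^ 6) =
        svBM (Polynomial.C σ) (Polynomial.C ρ) (Polynomial.X : Polynomial O) := by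
      have : 20 * (cb (4 * (1 - z)) * μ ^ 6) = 45360 * σ * ρ + 36036 * σ - 93780 * ρ - 74503 := by
        linear_combination (μ ^ 6) * hb' + (521 - 252 * σ) * (μ ^ 3 + 10 - 9 * ρ) * hμ3 + 81 * (521 - 252 * σ) * hρ
      have e20 : (20 : Polynomial O) = Polynomial.C 20 := (map_ofNat _ _).symm
      rw [e20, ← Polynomial.C_mul, this]
      simp only [svBM, Polynomial.C_mul, Polynomial.C_sub, Polynomial.C_add, Polynomial.C_neg, map_ofNat]
    rw [eF, ← eA, ← eB] at key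
    apply mul_left_cancel₀ h20
    linear_combination key
  have hmono : (svN (Polynomial.C σ) (Polynomial.C ρ) (Polynomial.X : Polynomial O)).coeff 7 = 19600 := svN_lc σ ρ
  have hlr : S.red (19600 : O) ≠ 0 := by
    have := S.int_ne (p := p) (n := 19600) (by
      have := nd (n := 19600) (l := [2, 2, 2, 2, 5, 5, 7, 7]) (by simp; norm_num) (by norm_num) (by simp; omega)
      exact_mod_cast this)
    exact_mod_cast this
  have hdn : (svN (Polynomial.C σ) (Polynomial.C ρ) (Polynomial.X : Polynomial O)).natDegree = 7 := by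
    refine le_antisymm (svN_deg σ ρ) (Polynomial.le_natDegree_of_ne_zero ?_)
    rw [hmono]
    intro h0; rw [h0, map_zero] at hlr; exact hlr rfl
  have bez := sv_bez (X := (Polynomial.X : Polynomial O)) hσC hρC
  have e4 : (381024 : Polynomial O) = Polynomial.C 381024 := (map_ofNat _ _).symm
  rw [e4] at bez
  refine DatT.of_sq S hode hμr ?_ hdn ?_ bez ?_ hh3 ?_ ?_
  · rw [hdn]
    have := svh_deg σ ρ
    omega
  · rw [Polynomial.leadingCoeff, hdn, hmono]; exact hlr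
  · have := nd (n := 381024) (l := [2, 2, 2, 2, 2, 3, 3, 3, 3, 3, 7, 7])
      (by simp; norm_num) (by norm_num) (by simp; omega)
    have := S.int_ne (n := 381024) (by exact_mod_cast this)
    exact_mod_cast this
  · rw [svN_eval, svh_eval]
    have h3 := sv_three (s := σ) (r := ρ) hσ hρ
    simp only [svM2] at h3
    apply mul_left_cancel₀ h2O
    linear_combination h3 - 3 * svh σ ρ 3 ^ 2 * hμ2
  · rw [svN_der, svh_der, svN_eval, svh_eval]
    have e1 : (svN1 (Polynomial.C σ) (Polynomial.C ρ) (Polynomial.X : Polynomial O)).eval 3 = svN1 σ ρ 3 := by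
      simp [svN1]
    have e2 : (svh1 (Polynomial.C σ) (Polynomial.C ρ) (Polynomial.X : Polynomial O)).eval 3 = svh1 σ ρ 3 := by
      simp [svh1]
    rw [e1, e2]
    have hW := sv_W (s := σ) (r := ρ) (X := (3 : O)) hσ hρ
    have hT := sv_T (s := σ) (r := ρ) hσ hρ
    have hA : 10 * (4 * z) = svAA σ ρ 3 := by simp only [svAA]; linear_combination hz
    have hAP : 10 * (4 * (1 - z)) = svAP σ ρ 3 := by simp only [svAP]; linear_combination hz1
    have hM3 : μ ^ 3 = svM3 σ ρ 3 := by simp only [svM3]; linear_combination hμ3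
    apply mul_left_cancel₀ h20O
    rw [hW]
    push_cast
    rw [hM3]
    linear_combination (2 * svW σ ρ 3) * hA - (2 * svM3 σ ρ 3 * svh σ ρ 3 ^ 3) * hAP + 2 * hT

/-- the Frobenius on a quadratic element -/
theorem DV.frob_quad (hp2 : p ≠ 2) {n a b d : ℤ} {z σ : O} (h : (n : O) * z = a + b * σ) (hσ : σ ^ 2 = (d : O)) :
    (n : k) * S.red z ^ p = a + b * ((legendreSym p d : k) * S.red σ) := by
  have h1 := congrArg (fun t => frobenius k p (S.red t)) h
  simp only [map_mul, map_add, map_intCast] at h1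
  rw [frobenius_def, frobenius_def, S.frob_sq hp2 hσ] at h1
  exact h1

theorem sv_z (h7 : 7 < p) {σ z t : O} (hσ : σ ^ 2 = 5) (hz : 40 * z = 20 - 9 * σ) (ht : 80 * t = -1) :
    4 * z * (1 - z) = t ∧ S.red z ≠ 0 ∧ S.red (1 - z) ≠ 0 ∧ S.red (1 - 2 * z) ≠ 0 ∧
    (legendreSym p 5 = 1 → S.red z = S.red z ^ p) ∧ (legendreSym p 5 = -1 → S.red (1 - z) = S.red z ^ p) := by
  have nd : ∀ {n : ℕ} {l : List ℕ}, (∀ q ∈ l, q.Prime) → l.prod = n → (∀ q ∈ l, p ≠ q) → ¬ (p : ℤ) ∣ (n : ℤ) :=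
    fun a b c => ndvd_of_primes p a b c
  have n1 : ¬ (p : ℤ) ∣ 1 := by
    have := nd (n := 1) (l := []) (by simp) (by norm_num) (by simp)
    exact_mod_cast this
  have n40 : ¬ (p : ℤ) ∣ 40 := by
    have := nd (n := 40) (l := [2, 2, 2, 5]) (by simp; norm_num) (by norm_num) (by simp; omega)
    exact_mod_cast this
  have r40 : S.red 40 ≠ 0 := by
    have := S.int_ne (p := p) (n := 40) n40
    exact_mod_cast this
  have h40O : (40 : O) ≠ 0 := by intro h0; rw [h0, map_zero] at r40; exact r40 rfl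
  have hz1 : 40 * (1 - z) = 20 + 9 * σ := by linear_combination -hz
  have hzz : 320 * (z * (1 - z)) = -1 := by
    apply mul_left_cancel₀ h40O
    apply mul_left_cancel₀ h40O
    linear_combination (320 * (40 * (1 - z))) * hz + 320 * (20 - 9 * σ) * hz1 - 25920 * hσ
  refine ⟨?_, ?_, ?_, ?_, ?_, ?_⟩
  · apply mul_left_cancel₀ h40O
    apply mul_left_cancel₀ h40O
    linear_combination 20 * hzz - 20 * ht
  · refine S.ne_mul (y := -320 * (1 - z)) (n := 1) ?_ n1
    push_cast; linear_combination -hzz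
  · refine S.ne_mul (y := -320 * z) (n := 1) ?_ n1
    push_cast; linear_combination -hzz
  · refine S.ne_mul (y := 1600 * (1 - 2 * z)) (n := 1620) ?_ ?_
    · push_cast; linear_combination (-20) * hzz
    · have := nd (n := 1620) (l := [2, 2, 3, 3, 3, 3, 5]) (by simp; norm_num) (by norm_num) (by simp; omega)
      exact_mod_cast this
  · intro h
    have h1 := S.frob_quad (p := p) (by omega) (n := 40) (a := 20) (b := -9) (d := 5) (z := z) (σ := σ)
      (by push_cast; linear_combination hz) (by push_cast; exact hσ)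
    have h2 := congrArg S.red hz
    simp only [map_mul, map_sub, map_ofNat] at h2
    rw [h] at h1
    push_cast at h1
    have h40k : (40 : k) ≠ 0 := by rw [map_ofNat] at r40; exact r40
    apply mul_left_cancel₀ h40k
    linear_combination h2 - h1
  · intro h
    have h1 := S.frob_quad (p := p) (by omega) (n := 40) (a := 20) (b := -9) (d := 5) (z := z) (σ := σ)
      (by push_cast; linear_combination hz) (by push_cast; exact hσ)
    have h2 := congrArg S.red hz1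
    simp only [map_mul, map_add, map_ofNat] at h2
    rw [h] at h1
    push_cast at h1
    have h40k : (40 : k) ≠ 0 := by rw [map_ofNat] at r40; exact r40
    apply mul_left_cancel₀ h40k
    linear_combination h2 - h1

theorem sv_ab (h19 : 18 < p) (hc3 : p % 3 = 1) {σ z : O} (hσ : σ ^ 2 = 5) (hz : 40 * z = 20 - 9 * σ) :
    S.red (ca (4 * z)) ≠ 0 ∧ S.red (cb (4 * z)) ≠ 0 ∧ S.red (4 * z) ≠ 0 ∧ S.red (4 * (1 - z)) ≠ 0 := by
  have nd : ∀ {n : ℕ} {l : List ℕ}, (∀ q ∈ l, q.Prime) → l.prod = n → (∀ q ∈ l, p ≠ q) → ¬ (p : ℤ) ∣ (n : ℤ) :=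
    fun a b c => ndvd_of_primes p a b c
  have r20 : S.red 20 ≠ 0 := by
    have := S.int_ne (p := p) (n := 20) (by
      have := nd (n := 20) (l := [2, 2, 5]) (by simp; norm_num) (by norm_num) (by simp; omega)
      exact_mod_cast this)
    exact_mod_cast this
  have h20O : (20 : O) ≠ 0 := by intro h0; rw [h0, map_zero] at r20; exact r20 rfl
  have ha : 20 * ca (4 * z) = -108 * σ - 300 := by simp only [ca]; linear_combination 12 * hz
  have hb : 20 * cb (4 * z) = 252 * σ + 521 := by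
    apply mul_left_cancel₀ h20O
    simp only [cb]
    linear_combination (4 * (40 * z) + 4 * (20 - 9 * σ) - 720) * hz + 324 * hσ
  have hz1 : 40 * (1 - z) = 20 + 9 * σ := by linear_combination -hz
  have h31 : ¬ (p : ℤ) ∣ 31680 := by
    have := nd (n := 31680) (l := [2, 2, 2, 2, 2, 2, 3, 3, 5, 11]) (by simp; norm_num) (by norm_num) (by simp; omega)
    exact_mod_cast this
  have h5 : ¬ (p : ℤ) ∣ 5 := by
    have := nd (n := 5) (l := [5]) (by simp; norm_num) (by norm_num) (by simp; omega)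
    exact_mod_cast this
  refine ⟨?_, ?_, ?_, ?_⟩
  · refine S.ne_mul (y := 20 * (108 * σ - 300)) (n := 31680) ?_ h31
    push_cast; linear_combination (108 * σ - 300) * ha - 11664 * hσ
  · refine S.ne_mul (y := -(20 * (521 - 252 * σ))) (n := 46079) ?_ ?_
    · push_cast; linear_combination (-(521 - 252 * σ)) * hb + 63504 * hσ
    · have := nd (n := 46079) (l := [11, 59, 71]) (by simp; norm_num) (by norm_num) (by simp; omega)
      exact_mod_cast this
  · refine S.ne_mul (y := -(10 * (20 + 9 * σ))) (n := 5) ?_ h5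
    push_cast; linear_combination (-(20 + 9 * σ)) * hz + 81 * hσ
  · refine S.ne_mul (y := -(10 * (20 - 9 * σ))) (n := 5) ?_ h5
    push_cast; linear_combination (-(20 - 9 * σ)) * hz1 + 81 * hσ

/-- the classes `1, 19` modulo `30` -/
theorem sv_case1 [IsAlgClosed k] (hq : S.q = (p : O)) (h19 : 18 < p) (hc3 : p % 3 = 1) (hc5 : legendreSym p 5 = 1)
    {σ ρ v z t : O} (hσ : σ ^ 2 = 5) (hρ : ρ ^ 2 = -3) (hv : 2 * v = 1) (hz : 40 * z = 20 - 9 * σ)
    (ht : 80 * t = -1) {iv : ℕ → O} (hiv : ∀ n, n + 1 < p → ((n : O) + 1) * iv (n + 1) = 1)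
    {i6 : O} (h6 : 6 * i6 = 1) (r s : ℤ) (hr : (3 : ℤ) ∣ r - 1) (hp' : (p : ℤ) = r ^ 2 + 3 * r * s + 21 * s ^ 2) :
      (p : O) ^ 2 ∣ ((2 * r + 3 * s : ℤ) : O) * hyp iv p (2 * i6) i6 t - (((2 * r + 3 * s) ^ 2 - p : ℤ) : O) ∧
      (p : O) ^ 2 ∣ ((2 * r + 3 * s : ℤ) : O) * hyp iv p (4 * i6) (5 * i6) t - (((2 * r + 3 * s) ^ 2 - p : ℤ) : O) := by
  have nd : ∀ {n : ℕ} {l : List ℕ}, (∀ q ∈ l, q.Prime) → l.prod = n → (∀ q ∈ l, p ≠ q) → ¬ (p : ℤ) ∣ (n : ℤ) :=
    fun a b c => ndvd_of_primes p a b c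
  have n1 : ¬ (p : ℤ) ∣ ((1 : ℕ) : ℤ) := nd (n := 1) (l := []) (by simp) (by norm_num) (by simp)
  have n21 : ¬ (p : ℤ) ∣ ((3 * 7 : ℕ) : ℤ) :=
    nd (n := 3 * 7) (l := [3, 7]) (by simp; norm_num) (by norm_num) (by simp; omega)
  have r2 := S.two_ne (p := p) (by omega)
  have r3 := S.three_ne (p := p) (by omega)
  have r2' : (2 : k) ≠ 0 := by rw [map_ofNat] at r2; exact r2
  have r3' : (3 : k) ≠ 0 := by rw [map_ofNat] at r3; exact r3
  have h2O : (2 : O) ≠ 0 := by intro h0; rw [h0, map_zero] at r2; exact r2 rfl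
  have u3 : IsUnit (3 : O) := S.unit_of_red r3
  have : CharZero O := charZero_O S hq
  obtain ⟨htz, hzr, hz1r, hxr, fr1, -⟩ := sv_z S (by omega) hσ hz ht
  obtain ⟨ha0, hb0, h4z, h4z1⟩ := sv_ab S h19 hc3 hσ hz
  have ux : IsUnit (1 - 2 * z) := S.unit_of_red hxr
  have c3 : ∀ a : O, (p : O) ^ 2 ∣ 3 * a → (p : O) ^ 2 ∣ a := fun a h => (u3.dvd_mul_left).mp h
  have cx : ∀ a : O, (p : O) ^ 2 ∣ (1 - 2 * z) * a → (p : O) ^ 2 ∣ a := fun a h => (ux.dvd_mul_left).mp h
  have hodd : p % 2 = 1 := by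
    rcases hp.out.eq_two_or_odd with h | h
    · omega
    · exact h
  have hpO : (p : O) = r ^ 2 + 3 * r * s + 21 * s ^ 2 := by
    have := congrArg (Int.cast : ℤ → O) hp'
    push_cast at this; exact this
  have key : ∀ ρ μ : O, ρ ^ 2 = -3 → 2 * μ = 5 - ρ → S.red ((r : O) * 1 + (s : O) * (μ * ρ)) = 0 →
      (p : O) ^ 2 ∣ ((2 * r + 3 * s : ℤ) : O) * hyp iv p (2 * i6) i6 t - (((2 * r + 3 * s) ^ 2 - p : ℤ) : O) ∧
      (p : O) ^ 2 ∣ ((2 * r + 3 * s : ℤ) : O) * hyp iv p (4 * i6) (5 * i6) t - (((2 * r + 3 * s) ^ 2 - p : ℤ) : O) := by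
    intro ρ μ hρ hμ hred
    have hpsi := sv_psi S (p := p) (by omega) hσ hρ hz hμ
    have d2 := DatT.nu S (r := ρ) hpsi r2' r3' h4z1 hρ
    have e4 : 4 - 4 * (1 - z) = 4 * z := by ring
    rw [e4] at d2
    have hω : (μ * ρ) ^ 2 - 3 * (μ * ρ) + 21 = 0 := by
      apply mul_left_cancel₀ h2O
      apply mul_left_cancel₀ h2O
      linear_combination (ρ ^ 2 * (2 * μ + 5 - ρ) - 6 * ρ) * hμ + ((5 - ρ) ^ 2 + 3) * hρ
    have hne : μ * ρ ≠ 0 := by
      intro h0; rw [h0] at hω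
      have h3' : (21 : O) = 0 := by linear_combination hω
      have := congrArg S.red h3'
      rw [map_zero] at this
      have h21 := S.int_ne (p := p) n21
      apply h21
      push_cast
      exact this
    obtain ⟨k1, k2⟩ := lin3 S (by omega) hq hzr hz1r (fr1 hc5) ha0 hb0 one_ne_zero hne
      (Or.inl rfl) (DatT.id S _) d2 r s 3 1 (Or.inl rfl) hr (by rw [hp']; push_cast; ring)
      n1 n21 (by norm_num) (by nlinarith) (al := (r : O) * 1 + (s : O) * (μ * ρ))
      (τ := ((2 * r + 3 * s : ℤ) : O)) (c := 1) rfl hred (by norm_num)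
      (by push_cast; linear_combination (-(s : O) ^ 2) * hω - hpO)
    obtain ⟨g1, g2⟩ := comb1 iv (p := p) (by omega) h6 z hiv
    rw [htz] at g1 g2
    refine ⟨c3 _ ?_, c3 _ (c3 _ (cx _ ?_))⟩
    · have e := dvd_sub k1 (g1.mul_left ((2 * r + 3 * s : ℤ) : O))
      convert e using 1
      push_cast; ring
    · have e := dvd_sub k2 (g2.mul_left ((2 * r + 3 * s : ℤ) : O))
      convert e using 1
      push_cast; ring
  obtain ⟨μ, hμ⟩ : ∃ μ, μ = v * (5 - ρ) := ⟨_, rfl⟩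
  obtain ⟨μ', hμ'⟩ : ∃ μ, μ = v * (5 - -ρ) := ⟨_, rfl⟩
  have hμ2 : 2 * μ = 5 - ρ := by rw [hμ]; linear_combination (5 - ρ) * hv
  have hμ2' : 2 * μ' = 5 - -ρ := by rw [hμ']; linear_combination (5 - -ρ) * hv
  have h0 : S.red ((r : O) * 1 + (s : O) * (μ * ρ)) * S.red ((r : O) * 1 + (s : O) * (μ' * -ρ)) = 0 := by
    rw [← map_mul]
    have : ((r : O) * 1 + (s : O) * (μ * ρ)) * ((r : O) * 1 + (s : O) * (μ' * -ρ)) = S.q := by
      rw [hq, hpO]
      apply mul_left_cancel₀ h2O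
      apply mul_left_cancel₀ h2O
      linear_combination (2 * r * s * ρ - 2 * s ^ 2 * ρ ^ 2 * μ') * hμ2 + (-2 * r * s * ρ - s ^ 2 * ρ ^ 2 * (5 - ρ)) * hμ2' +
        (-4 * r * s - s ^ 2 * (5 - ρ) * (5 + ρ) - 3 * s ^ 2) * hρ
    rw [this, S.red_q]
  rcases mul_eq_zero.mp h0 with h | h
  · exact key ρ μ hρ hμ2 h
  · exact key (-ρ) μ' (by rw [neg_sq]; exact hρ) hμ2' h

/-- the classes `7, 13` modulo `30` -/
theorem sv_case2 [IsAlgClosed k] (hq : S.q = (p : O)) (h19 : 18 < p) (hc3 : p % 3 = 1) (hc5 : legendreSym p 5 = -1)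
    {σ ρ v z t : O} (hσ : σ ^ 2 = 5) (hρ : ρ ^ 2 = -3) (hv : 2 * v = 1) (hz : 40 * z = 20 - 9 * σ)
    (ht : 80 * t = -1) {iv : ℕ → O} (hiv : ∀ n, n + 1 < p → ((n : O) + 1) * iv (n + 1) = 1)
    {i6 : O} (h6 : 6 * i6 = 1) (r s : ℤ) (hr : (3 : ℤ) ∣ r - 1) (hp' : (p : ℤ) = 7 * r ^ 2 - 3 * r * s + 3 * s ^ 2) :
      (p : O) ^ 2 ∣ ((5 * r : ℤ) : O) * hyp iv p (2 * i6) i6 t - (((5 * r) ^ 2 - p : ℤ) : O) ∧
      (p : O) ^ 2 ∣ ((5 * r : ℤ) : O) * -hyp iv p (4 * i6) (5 * i6) t - (((5 * r) ^ 2 - p : ℤ) : O) := by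
  have nd : ∀ {n : ℕ} {l : List ℕ}, (∀ q ∈ l, q.Prime) → l.prod = n → (∀ q ∈ l, p ≠ q) → ¬ (p : ℤ) ∣ (n : ℤ) :=
    fun a b c => ndvd_of_primes p a b c
  have n7 : ¬ (p : ℤ) ∣ ((7 : ℕ) : ℤ) :=
    nd (n := 7) (l := [7]) (by simp; norm_num) (by norm_num) (by simp; omega)
  have n3 : ¬ (p : ℤ) ∣ ((3 * 1 : ℕ) : ℤ) :=
    nd (n := 3 * 1) (l := [3]) (by simp; norm_num) (by norm_num) (by simp; omega)
  have r2 := S.two_ne (p := p) (by omega)
  have r3 := S.three_ne (p := p) (by omega)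
  have r2' : (2 : k) ≠ 0 := by rw [map_ofNat] at r2; exact r2
  have r3' : (3 : k) ≠ 0 := by rw [map_ofNat] at r3; exact r3
  have h2O : (2 : O) ≠ 0 := by intro h0; rw [h0, map_zero] at r2; exact r2 rfl
  have u3 : IsUnit (3 : O) := S.unit_of_red r3
  have : CharZero O := charZero_O S hq
  obtain ⟨htz, hzr, hz1r, hxr, -, fr2⟩ := sv_z S (by omega) hσ hz ht
  obtain ⟨ha0, hb0, h4z, h4z1⟩ := sv_ab S h19 hc3 hσ hz
  have ux : IsUnit (1 - 2 * z) := S.unit_of_red hxr
  have c3 : ∀ a : O, (p : O) ^ 2 ∣ 3 * a → (p : O) ^ 2 ∣ a := fun a h => (u3.dvd_mul_left).mp h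
  have cx : ∀ a : O, (p : O) ^ 2 ∣ (1 - 2 * z) * a → (p : O) ^ 2 ∣ a := fun a h => (ux.dvd_mul_left).mp h
  have hodd : p % 2 = 1 := by
    rcases hp.out.eq_two_or_odd with h | h
    · omega
    · exact h
  have hpO : (p : O) = 7 * r ^ 2 - 3 * r * s + 3 * s ^ 2 := by
    have := congrArg (Int.cast : ℤ → O) hp'
    push_cast at this; exact this
  have key : ∀ ρ μ : O, ρ ^ 2 = -3 → 2 * μ = 5 - ρ → S.red ((r : O) * μ + (s : O) * (1 * ρ)) = 0 →
      (p : O) ^ 2 ∣ ((5 * r : ℤ) : O) * hyp iv p (2 * i6) i6 t - (((5 * r) ^ 2 - p : ℤ) : O) ∧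
      (p : O) ^ 2 ∣ ((5 * r : ℤ) : O) * -hyp iv p (4 * i6) (5 * i6) t - (((5 * r) ^ 2 - p : ℤ) : O) := by
    intro ρ μ hρ hμ hred
    have hpsi := sv_psi S (p := p) (by omega) hσ hρ hz hμ
    have d2 := DatT.nu S (r := ρ) (DatT.id S (4 * z)) r2' r3' h4z hρ
    have e4 : 4 - 4 * z = 4 * (1 - z) := by ring
    rw [e4] at d2
    have hμ7 : μ * (5 - μ) = 7 := by
      apply mul_left_cancel₀ h2O
      apply mul_left_cancel₀ h2O
      linear_combination (5 + ρ - 2 * μ + 0) * hμ - hρ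
    have hμ0 : μ ≠ 0 := by
      intro h0; rw [h0] at hμ7
      have h7' : (7 : O) = 0 := by linear_combination -hμ7
      have := congrArg S.red h7'
      rw [map_zero] at this
      have h21 := S.int_ne (p := p) n7
      apply h21
      push_cast
      exact this
    have hρ0 : 1 * ρ ≠ 0 := by
      intro h0
      apply r3
      have : (3 : O) = 0 := by linear_combination hρ - ρ * h0
      rw [this, map_zero]
    obtain ⟨k1, k2⟩ := lin3 S (by omega) hq hzr hz1r (fr2 hc5) ha0 hb0 hμ0 hρ0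
      (Or.inl rfl) hpsi d2 r s (-3) 1 (Or.inl rfl) hr (by rw [hp']; push_cast; ring)
      n7 n3 (by norm_num) (by nlinarith) (al := (r : O) * μ + (s : O) * (1 * ρ))
      (τ := ((5 * r : ℤ) : O)) (c := 1) rfl hred (by norm_num)
      (by push_cast; linear_combination ((r : O) ^ 2) * hμ7 - (s : O) * r * ρ * hμ + ((s : O) * r - (s : O) ^ 2) * hρ - hpO)
    obtain ⟨g1, g2⟩ := comb1 iv (p := p) (by omega) h6 z hiv
    rw [htz] at g1 g2
    refine ⟨c3 _ ?_, c3 _ (c3 _ (cx _ ?_))⟩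
    · have e := dvd_sub k1 (g1.mul_left ((5 * r : ℤ) : O))
      convert e using 1
      push_cast; ring
    · have e := dvd_sub k2 (g2.mul_left ((5 * r : ℤ) : O))
      have e' := dvd_neg.mpr e
      convert e' using 1
      push_cast; ring
  obtain ⟨μ, hμ⟩ : ∃ μ, μ = v * (5 - ρ) := ⟨_, rfl⟩
  obtain ⟨μ', hμ'⟩ : ∃ μ, μ = v * (5 - -ρ) := ⟨_, rfl⟩
  have hμ2 : 2 * μ = 5 - ρ := by rw [hμ]; linear_combination (5 - ρ) * hv
  have hμ2' : 2 * μ' = 5 - -ρ := by rw [hμ']; linear_combination (5 - -ρ) * hv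
  have h0 : S.red ((r : O) * μ + (s : O) * (1 * ρ)) * S.red ((r : O) * μ' + (s : O) * (1 * -ρ)) = 0 := by
    rw [← map_mul]
    have : ((r : O) * μ + (s : O) * (1 * ρ)) * ((r : O) * μ' + (s : O) * (1 * -ρ)) = S.q := by
      rw [hq, hpO]
      apply mul_left_cancel₀ h2O
      apply mul_left_cancel₀ h2O
      linear_combination (2 * r ^ 2 * μ' - 2 * r * s * ρ) * hμ2 + (r ^ 2 * (5 - ρ) + 2 * r * s * ρ) * hμ2' +
        (-r ^ 2 + 4 * r * s - 4 * s ^ 2) * hρ
    rw [this, S.red_q]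
  rcases mul_eq_zero.mp h0 with h | h
  · exact key ρ μ hρ hμ2 h
  · exact key (-ρ) μ' (by rw [neg_sq]; exact hρ) hμ2' h

/-- the supersingular classes -/
theorem sv_zero (hq : S.q = (p : O)) (h7 : 7 < p) (hc3 : p % 3 = 2) (hc5 : legendreSym p 5 = -1)
    {σ ρ v z t : O} (hσ : σ ^ 2 = 5) (hρ : ρ ^ 2 = -3) (hv : 2 * v = 1) (hz : 40 * z = 20 - 9 * σ)
    (ht : 80 * t = -1) {iv : ℕ → O} (hiv : ∀ n, n + 1 < p → ((n : O) + 1) * iv (n + 1) = 1)
    {i6 : O} (h6 : 6 * i6 = 1) (hleg : legendreSym p (-3) = -1) :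
    S.red (hyp iv p (2 * i6) i6 t) = 0 ∧ S.red (hyp iv p (4 * i6) (5 * i6) t) = 0 := by
  have nd : ∀ {n : ℕ} {l : List ℕ}, (∀ q ∈ l, q.Prime) → l.prod = n → (∀ q ∈ l, p ≠ q) → ¬ (p : ℤ) ∣ (n : ℤ) :=
    fun a b c => ndvd_of_primes p a b c
  have n5 : ¬ (p : ℤ) ∣ 5 := by
    have := nd (n := 5) (l := [5]) (by simp; norm_num) (by norm_num) (by simp; omega)
    exact_mod_cast this
  have hodd : p % 2 = 1 := by
    rcases hp.out.eq_two_or_odd with h | h
    · omega
    · exact h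
  have r2 := S.two_ne (p := p) (by omega)
  have r2' : (2 : k) ≠ 0 := by rw [map_ofNat] at r2; exact r2
  obtain ⟨htz, hzr, hz1r, hxr, -, fr2⟩ := sv_z S (by omega) hσ hz ht
  obtain ⟨μ, hμ⟩ : ∃ μ, μ = v * (5 - ρ) := ⟨_, rfl⟩
  have hμ2 : 2 * μ = 5 - ρ := by rw [hμ]; linear_combination (5 - ρ) * hv
  have hpsi := sv_psi S (p := p) (by omega) hσ hρ hz hμ2
  have hμr : S.red μ ≠ 0 := by
    refine S.ne_mul (y := 2 * (5 + ρ)) (n := 28) ?_ ?_
    · push_cast; linear_combination (5 + ρ) * hμ2 - hρ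
    · have := nd (n := 28) (l := [2, 2, 7]) (by simp; norm_num) (by norm_num) (by simp; omega)
      exact_mod_cast this
  have hF := S.frob_quad (p := p) (by omega) (n := 2) (a := 5) (b := -1) (d := -3) (z := μ) (σ := ρ)
      (by push_cast; linear_combination hμ2) (by push_cast; exact hρ)
  rw [hleg] at hF
  push_cast at hF
  have hμk : 2 * S.red μ = 5 - S.red ρ := by
    have := congrArg S.red hμ2
    simpa only [map_mul, map_sub, map_ofNat] using this
  have hss := ss3 S (p := p) (by omega) hz1r hμr hpsi (by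
    rw [Odd.neg_one_pow (Nat.odd_iff.mpr (by omega))]
    intro h0
    have h5k : (5 : k) = 0 := by
      apply mul_left_cancel₀ r2'
      linear_combination 2 * h0 - hμk - hF
    have h5' := S.int_ne (p := p) n5
    apply h5'
    push_cast
    rw [map_ofNat]
    exact h5k)
  have hss4 : lg (4 * p / 3) (S.red z) = 0 := by
    have e : 4 * p / 3 = p + p / 3 := by omega
    rw [e, lg_schur (p := p) _ _ (by omega), hss, mul_zero]
  have : CharZero O := charZero_O S hq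
  obtain ⟨g1, g2⟩ := comb2_p iv (p := p) (by omega) h6 z hiv
  rw [← hq, ← S.red_iff, map_sub, sub_eq_zero, lg_cast, htz] at g1 g2
  rw [hss, map_mul] at g1
  rw [hss4] at g2
  exact ⟨g2.symm, (mul_eq_zero.mp g1.symm).resolve_left hxr⟩

end sv

end Pool.Agent.H546
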