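import Pool.Agent.H546.Key3

set_option autoImplicit false

/-!
# More binomial congruences
-/

namespace Pool.Agent.H546

open PowerSeries Finset

section binom

variable {p : ℕ} [hp : Fact p.Prime]

theorem choose_mul_ne (a j : ℕ) (hj : ¬ p ∣ j) : p ∣ (a * p).choose j := by
  have hp0 := hp.out.pos
  have h := lucas (p := p) a 0 (j / p) (j % p) hp0 (Nat.mod_lt _ hp0)
  have h1 : 0 < j % p := Nat.pos_of_ne_zero (fun h0 => hj (Nat.dvd_of_mod_eq_zero h0))
  rw [Nat.choose_eq_zero_of_lt h1, zero_mul, add_zero, Nat.div_add_mod'] at h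
  exact (Nat.modEq_zero_iff_dvd).mp h

/-- `C(ap, bp) ≡ C(a, b)` modulo `p²` -/
theorem choose_pp (a b : ℕ) : (a * p).choose (b * p) ≡ a.choose b [MOD p ^ 2] := by
  have hp0 := hp.out.pos
  induction a generalizing b with
  | zero =>
    rcases Nat.eq_zero_or_pos b with h | h
    · subst h; simp; rfl
    · rw [Nat.choose_eq_zero_of_lt (show 0 * p < b * p by rw [zero_mul]; exact Nat.mul_pos h hp0),
        Nat.choose_eq_zero_of_lt h]
  | succ a ih =>
    rcases Nat.eq_zero_or_pos b with h | h
    · subst h; simp; rfl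
    obtain ⟨c, rfl⟩ : ∃ c, b = c + 1 := ⟨b - 1, by omega⟩
    rw [show (a + 1) * p = p + a * p by ring, Nat.add_choose_eq,
      Finset.Nat.sum_antidiagonal_eq_sum_range_succ_mk]
    have hsub : ∑ k ∈ range ((c + 1) * p).succ, p.choose k * (a * p).choose ((c + 1) * p - k) =
        ∑ k ∈ range (p + 1), p.choose k * (a * p).choose ((c + 1) * p - k) := by
      symm
      refine sum_subset (fun k hk => ?_) (fun k _ hk => ?_)
      · rw [mem_range] at hk ⊢
        have : p ≤ (c + 1) * p := Nat.le_mul_of_pos_left p (Nat.succ_pos c)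
        omega
      · rw [mem_range, not_lt] at hk
        rw [Nat.choose_eq_zero_of_lt (by omega), zero_mul]
    simp only at hsub ⊢
    rw [hsub, sum_range_succ, Nat.choose_self, one_mul]
    have e1 : (c + 1) * p - p = c * p := by rw [Nat.add_mul, one_mul, Nat.add_sub_cancel]
    rw [e1]
    obtain ⟨m, hm⟩ : ∃ m, p = m + 1 := ⟨p - 1, by omega⟩
    have hz : ∑ k ∈ range p, p.choose k * (a * p).choose ((c + 1) * p - k) ≡
        (a * p).choose ((c + 1) * p) [MOD p ^ 2] := by
      rw [show range p = range (m + 1) by rw [← hm], sum_range_succ', Nat.choose_zero_right, one_mul,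
        Nat.sub_zero]
      have : ∑ k ∈ range m, p.choose (k + 1) * (a * p).choose ((c + 1) * p - (k + 1)) ≡ 0 [MOD p ^ 2] := by
        rw [Nat.modEq_zero_iff_dvd]
        apply Finset.dvd_sum
        intro k hk
        have hk' := mem_range.mp hk
        rw [pow_two]
        refine mul_dvd_mul (choose_p _ (by omega) (by omega)) (choose_mul_ne a _ ?_)
        intro hd
        have h2 : p ∣ (c + 1) * p := Dvd.intro_left _ rfl
        have h3 : p ≤ (c + 1) * p := Nat.le_mul_of_pos_left p (Nat.succ_pos c)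
        have h4 : p ∣ k + 1 := by
          have := (Nat.dvd_sub h2 hd)
          rwa [Nat.sub_sub_self (by omega)] at this
        have := Nat.le_of_dvd (by omega) h4
        omega
      simpa using this.add_right ((a * p).choose ((c + 1) * p))
    refine (hz.add_right _).trans ?_
    have h1 := (ih (c + 1)).add (ih c)
    rw [Nat.choose_succ_succ, Nat.succ_eq_add_one, add_comm (a.choose c)]
    exact h1

/-- multiples of `p` in the coefficients of powers of `u` -/
theorem b3m (m i : ℕ) (h1 : 1 ≤ i) (h2 : 2 * i + 1 ≤ 3 * p) :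
    ((m * p + i - 1).choose (2 * i - 1)) ≡ m * ((p + i - 1).choose (2 * i - 1)) [MOD p] := by
  have hp0 := hp.out.pos
  rcases lt_or_ge (2 * i - 1) p with hc | hc
  · have h := lucas (p := p) m (i - 1) 0 (2 * i - 1) (by omega) hc
    have h' := lucas (p := p) 1 (i - 1) 0 (2 * i - 1) (by omega) hc
    rw [Nat.choose_eq_zero_of_lt (show i - 1 < 2 * i - 1 by omega), zero_mul, zero_mul, zero_add] at h h'
    rw [show m * p + (i - 1) = m * p + i - 1 by omega] at h
    rw [show 1 * p + (i - 1) = p + i - 1 by omega] at h'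
    exact h.trans (by simpa using (h'.mul_left m).symm)
  · rcases le_or_gt i p with hc2 | hc2
    · have h := lucas (p := p) m (i - 1) 1 (2 * i - 1 - p) (by omega) (by omega)
      have h' := lucas (p := p) 1 (i - 1) 1 (2 * i - 1 - p) (by omega) (by omega)
      rw [show m * p + (i - 1) = m * p + i - 1 by omega, show 1 * p + (2 * i - 1 - p) = 2 * i - 1 by omega] at h
      rw [show 1 * p + (i - 1) = p + i - 1 by omega, show 1 * p + (2 * i - 1 - p) = 2 * i - 1 by omega] at h'
      refine h.trans ?_
      have := (h'.mul_left m).symm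
      refine Nat.ModEq.trans ?_ this
      have : (i - 1).choose (2 * i - 1 - p) * Nat.choose m 1 =
        m * ((i - 1).choose (2 * i - 1 - p) * Nat.choose 1 1) := by
        simp; ring
      rw [this]
    · have h := lucas (p := p) (m + 1) (i - 1 - p) 2 (2 * i - 1 - 2 * p) (by omega) (by omega)
      rw [Nat.choose_eq_zero_of_lt (show i - 1 - p < 2 * i - 1 - 2 * p by omega), zero_mul,
        show (m + 1) * p + (i - 1 - p) = m * p + i - 1 by rw [Nat.add_mul]; omega,
        show 2 * p + (2 * i - 1 - 2 * p) = 2 * i - 1 by omega] at h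
      rw [Nat.choose_eq_zero_of_lt (show p + i - 1 < 2 * i - 1 by omega), mul_zero]
      exact h

end binom

section coef

variable {O K k : Type*} [CommRing O] [IsDomain O] [Field K] [Algebra O K] [Field k]
  (S : DV O K k)

theorem corr_coeffm {p : ℕ} [hp : Fact p.Prime] [CharP k p] (T : Polynomial O)
    (hT : ∀ i, 3 * p < 2 * i + 1 → S.red (T.coeff i) = 0) (m : ℕ) (hm : 1 ≤ m) :
    S.red (coeff (m * p) (Polynomial.aeval (us O) T)) = m * S.red (coeff p (Polynomial.aeval (us O) T)) := by
  have hp0 := hp.out.pos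
  rw [Polynomial.aeval_eq_sum_range, map_sum, map_sum, map_sum, map_sum, Finset.mul_sum]
  refine Finset.sum_congr rfl fun i _ => ?_
  rw [coeff_smul, coeff_smul, smul_eq_mul, smul_eq_mul, map_mul, map_mul]
  by_cases hi : 3 * p < 2 * i + 1
  · rw [hT i hi]; ring
  · rcases Nat.eq_zero_or_pos i with h0 | h0
    · subst h0
      have : m * p ≠ 0 := Nat.mul_ne_zero (by omega) hp0.ne'
      rw [pow_zero, coeff_one, coeff_one, if_neg this, if_neg (by omega), map_zero]; ring
    · rw [coeff_us_pow _ _ _ h0, coeff_us_pow _ _ _ h0, map_natCast, map_natCast]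
      have h := b3m (p := p) m i h0 (by omega)
      have h' : (((m * p + i - 1).choose (2 * i - 1) : ℕ) : k) =
          ((m * (p + i - 1).choose (2 * i - 1) : ℕ) : k) := by
        rw [CharP.cast_eq_iff_mod_eq k p]
        exact h
      rw [h']
      push_cast
      ring

theorem cNj {p : ℕ} [hp : Fact p.Prime] [CharP k p] (hq : S.q = (p : O)) (N j v : ℕ) (hN : 1 ≤ N) (hj : 1 ≤ j)
    (hNj : N + j < p) (hv : (N + j) * v = 2 * N * (N + j).choose (2 * j)) :
    S.q ^ 2 ∣ coeff (N * p - 1) (us O ^ (j * p - 1) * d⁄dX O (us O)) - v := by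
  have hp0 := hp.out.pos
  have hpO : (p : O) ≠ 0 := by rw [← hq]; exact S.q_ne
  have hNp : 1 ≤ N * p := Nat.mul_pos hN hp0
  have hjp : 1 ≤ j * p := Nat.mul_pos hj hp0
  set c := coeff (N * p - 1) (us O ^ (j * p - 1) * d⁄dX O (us O)) with hc
  have hjO : (j : O) ≠ 0 := by
    intro h0
    have := congrArg S.red h0
    rw [map_natCast, map_zero] at this
    exact small_ne' (by omega) (by omega) this
  have e1 : (j : O) * c = N * (((N * p + j * p - 1).choose (2 * (j * p) - 1) : ℕ) : O) := by
    apply mul_left_cancel₀ hpO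
    have h1 := congrArg (coeff (N * p - 1)) (derivative_pow (us O) (j * p) : d⁄dX O (us O ^ (j * p)) = _)
    rw [coeff_derivative, show N * p - 1 + 1 = N * p by omega, coeff_us_pow _ _ _ hjp] at h1
    have h2 : (((j * p : ℕ) : O⟦X⟧)) * us O ^ (j * p - 1) * d⁄dX O (us O) =
      C (((j * p : ℕ) : O)) * (us O ^ (j * p - 1) * d⁄dX O (us O)) := by
      rw [map_natCast]; ring
    rw [h2, coeff_C_mul, ← hc] at h1
    have h3 : ((N * p - 1 : ℕ) : O) + 1 = N * p := by
      have := Nat.cast_succ (R := O) (N * p - 1)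
      rw [show (N * p - 1).succ = N * p by omega] at this
      rw [← this]; push_cast; ring
    rw [h3] at h1
    push_cast at h1
    linear_combination -h1
  have e2 : ((N + j : ℕ) : O) * (((N * p + j * p - 1).choose (2 * (j * p) - 1) : ℕ) : O) =
      2 * j * ((((N + j) * p).choose (2 * j * p) : ℕ) : O) := by
    have h1 := Nat.add_one_mul_choose_eq (N * p + j * p - 1) (2 * (j * p) - 1)
    rw [show N * p + j * p - 1 + 1 = (N + j) * p by rw [Nat.add_mul]; omega,
      show 2 * (j * p) - 1 + 1 = 2 * j * p by rw [Nat.mul_assoc]; omega] at h1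
    apply mul_left_cancel₀ hpO
    have h2 := congrArg (Nat.cast : ℕ → O) h1
    push_cast at h2 ⊢
    linear_combination h2
  obtain ⟨d, hd⟩ := (Nat.modEq_iff_dvd).mp (choose_pp (p := p) (N + j) (2 * j)).symm
  have e3 : ((((N + j) * p).choose (2 * j * p) : ℕ) : O) = (((N + j).choose (2 * j) : ℕ) : O) + (p : O) ^ 2 * d := by
    have := congrArg (Int.cast : ℤ → O) hd
    push_cast at this
    linear_combination this
  have e4 : ((N + j : ℕ) : O) * (c - v) = (p : O) ^ 2 * (2 * N * d) := by
    apply mul_left_cancel₀ hjO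
    have hv' := congrArg (Nat.cast : ℕ → O) hv
    push_cast at hv' e2 ⊢
    rw [e3] at e2
    linear_combination ((N : O) + j) * e1 + N * e2 - j * hv'
  have hu : IsUnit ((N + j : ℕ) : O) := by
    apply S.unit_of_red
    rw [map_natCast]
    exact small_ne' (by omega) hNj
  obtain ⟨i, hi⟩ := hu.exists_left_inv
  refine ⟨i * (2 * N * d), ?_⟩
  rw [hq]
  linear_combination i * e4 - (c - v) * hi
where
  small_ne' {n : ℕ} {k : Type _} [Field k] {p : ℕ} [CharP k p] (h0 : 0 < n) (h : n < p) : (n : k) ≠ 0 := by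
    intro h1
    rw [CharP.cast_eq_zero_iff k p] at h1
    exact absurd (Nat.le_of_dvd h0 h1) (by omega)

end coef

end Pool.Agent.H546
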