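import Pool.Agent.H546.Ker
import Pool.Agent.H546.Dat

set_option autoImplicit false

/-!
# Variants of earlier structure theorems, keeping track of representatives
-/

namespace Pool.Agent.H546

open Polynomial WeierstrassCurve WeierstrassCurve.Affine WithZero
open Pool.Agent.Q267.MW (SW io io_inj io_ne Prim3 mh mh3 xr eqn negY_SW rd rd_div rd_const vi vi_io deg_of_vi fp_sep fp bez two_ne_K qf)

variable {O K k : Type*} [CommRing O] [IsDomain O] [Field K] [Algebra O K] [Field k]
  (S : DV O K k)


section place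

variable (F : Type*) [Field F] (e : F)

/-- the place `X = e` -/
noncomputable def plc : IsDedekindDomain.HeightOneSpectrum F[X] where
  asIdeal := Ideal.span {X - C e}
  isPrime := (Ideal.span_singleton_prime (X_sub_C_ne_zero e)).mpr (prime_X_sub_C e)
  ne_bot := by
    intro h
    rw [Ideal.span_singleton_eq_bot] at h
    exact X_sub_C_ne_zero e h

/-- its valuation -/
noncomputable def ve : Valuation (RatFunc F) ℤᵐ⁰ := (plc F e).valuation (RatFunc F)

theorem ve_le (g : F[X]) : ve F e (io g) ≤ 1 := (plc F e).valuation_le_one g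

theorem ve_lt_iff (g : F[X]) : ve F e (io g) < 1 ↔ g.eval e = 0 := by
  have h := (plc F e).valuation_lt_one_iff_mem (K := RatFunc F) g
  have h2 : g ∈ (plc F e).asIdeal ↔ g.eval e = 0 := by
    show g ∈ Ideal.span {X - C e} ↔ _
    rw [Ideal.mem_span_singleton, dvd_iff_isRoot]
    rfl
  exact h.trans h2

theorem ve_one {g : F[X]} (h : g.eval e ≠ 0) : ve F e (io g) = 1 := by
  refine le_antisymm (ve_le F e g) ?_
  by_contra hlt
  push Not at hlt
  exact h ((ve_lt_iff F e g).mp hlt)

theorem ve_C (c : F) : ve F e (io (C c)) ≤ 1 := ve_le F e _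

variable {F e}

theorem ve_frac {n d : F[X]} (hd : d.eval e ≠ 0) (c : F) :
    ve F e (io n / io d - io (C c)) < 1 ↔ n.eval e = c * d.eval e := by
  have hd0 : d ≠ 0 := by rintro rfl; simp at hd
  have hio := io_ne hd0
  have e1 : io n / io d - io (C c) = io (n - C c * d) / io d := by
    rw [map_sub, map_mul]; field_simp
  rw [e1, map_div₀, ve_one F e hd, div_one, ve_lt_iff, eval_sub, eval_mul, eval_C, sub_eq_zero]

theorem ve_frac_le {n d : F[X]} (hd : d.eval e ≠ 0) : ve F e (io n / io d) ≤ 1 := by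
  rw [map_div₀, ve_one F e hd, div_one]; exact ve_le F e n

theorem ve_frac_one {n d : F[X]} (hn : n.eval e ≠ 0) (hd : d.eval e ≠ 0) : ve F e (io n / io d) = 1 := by
  rw [map_div₀, ve_one F e hd, div_one]; exact ve_one F e hn

theorem ve_frac_gt {n d : F[X]} (hn : n.eval e ≠ 0) (hd : d.eval e = 0) (hd0 : d ≠ 0) : 1 < ve F e (io n / io d) := by
  rw [map_div₀, ve_one F e hn, one_div]
  have h1 := (ve_lt_iff F e d).mpr hd
  have h2 : ve F e (io d) ≠ 0 := by rw [Valuation.ne_zero_iff]; exact io_ne hd0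
  exact (one_lt_inv₀ (zero_lt_iff.mpr h2)).mpr h1

/-- coordinates from a representative -/
theorem pt_of_rep {f : F[X]} (hf0 : f ≠ 0) {a b c : F} (hc : c ≠ 0) {v : (TWf f a b).Point} (hg : Good c v)
    (hv : v ≠ 0) {n d : F[X]} {l : F} (hl : l ≠ 0) (hn : n = C l * (rep v).1) (hd : d = C l * (rep v).2) :
    d ≠ 0 ∧ Pt v (io n / io d) (io (wr n d) / io (C c * d ^ 2)) := by
  cases v with
  | zero => exact absurd rfl hv
  | some x y h =>
    obtain ⟨h1, h2⟩ := (good_some h).mp hg
    rw [rep_some] at hn hd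
    have hden : (x / io f).denom ≠ 0 := RatFunc.denom_ne_zero _
    have hCl : (C l : F[X]) ≠ 0 := C_ne_zero.mpr hl
    have hd0 : d ≠ 0 := by rw [hd]; exact mul_ne_zero hCl hden
    have hiod := io_ne hden
    have hiol := io_ne hCl
    have hioc : io (C c : F[X]) ≠ 0 := io_ne (C_ne_zero.mpr hc)
    have hX : x / io f = io (x / io f).num / io (x / io f).denom := (RatFunc.num_div_denom _).symm
    have h3 : rd (x / io f) = (io (derivative (x / io f).num) * io (x / io f).denom -
        io (x / io f).num * io (derivative (x / io f).denom)) / io (x / io f).denom ^ 2 := by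
      conv_lhs => rw [hX]
      exact rd_div _ _ hden
    have e1 : io n / io d = x / io f := by
      rw [hn, hd]
      simp only [map_mul]
      conv_rhs => rw [hX]
      field_simp
    have e2 : io (wr n d) / io (C c * d ^ 2) = y / io f ^ 2 := by
      have h4 : y / io f ^ 2 = rd (x / io f) / io (C c) := by
        rw [h2]; field_simp
      rw [h4, h3, hn, hd, wr_C]
      simp only [map_mul, map_pow, wr, map_sub]
      field_simp
    refine ⟨hd0, ?_⟩
    rw [e1, e2]
    exact Pt.of_some hf0 h

end place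

/-- **Structure of a point of degree `p` with multiplier divisible by `p`.** -/
theorem frob_struct2 {p : ℕ} [hp : Fact p.Prime] [CharP k p] [IsAlgClosed k] (hp2 : p ≠ 2) (hp3 : p ≠ 3)
    {a1 b1 a2 b2 w : O} (ha : S.red a2 = S.red a1 ^ p) (hb : S.red b2 = S.red b1 ^ p)
    (ha0 : S.red a1 ≠ 0) (hb0 : S.red b1 ≠ 0) (hΔ : S.red (4 * a1 ^ 3 + 27 * b1 ^ 2) ≠ 0)
    {v : (TWf ((cub a1 b1).map (algebraMap O K)) (algebraMap O K a2) (algebraMap O K b2)).Point}
    (hN : Nice S v) (hg : Good (algebraMap O K (S.q * w)) v) (hh : hgt v = p) (hw : S.red w ≠ 0) :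
    ∃ n d M : O[X], n.map S.red = X ^ p ∧ d.map S.red = 1 ∧ n.natDegree ≤ p ∧ d.natDegree < p ∧
      wr n d = C S.q * M ∧ cub a1 b1 * M ^ 2 = C w ^ 2 * tgt a2 b2 n d ∧
      ∃ l : K, l ≠ 0 ∧ n.map (algebraMap O K) = C l * (rep v).1 ∧ d.map (algebraMap O K) = C l * (rep v).2 := by
  have hp0 := hp.out.pos
  have hpne := hp.out.ne_zero
  have hv : v ≠ 0 := by
    rintro rfl
    rw [hgt_zero] at hh
    omega
  obtain ⟨n, d, l, hl, hn, hd, cop, hm⟩ := hN
  obtain ⟨ode, hdeg⟩ := good_poly S.inj (cub_ne a1 b1) hg hv hl hn hd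
  have hnp : n.natDegree = p := by
    have h1 : (rep v).1.natDegree = n.natDegree := by
      rw [← natDegree_C_mul hl, ← hn, natDegree_map_eq_of_injective S.inj]
    have h2 : (rep v).2.natDegree = d.natDegree := by
      rw [← natDegree_C_mul hl, ← hd, natDegree_map_eq_of_injective S.inj]
    rw [← hh]
    unfold hgt mh
    rw [h1, h2, max_eq_left hdeg.le]
  rw [hnp] at hdeg
  -- reduction
  have hΔk : 4 * (S.red a1) ^ 3 + 27 * (S.red b1) ^ 2 ≠ 0 := by simpa [map_ofNat] using hΔ
  have hf := cub_ne (S.red a1) (S.red b1)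
  have hw0 : wr (n.map S.red) (d.map S.red) = 0 := by
    have := congrArg (Polynomial.map S.red) ode
    rw [Polynomial.map_mul, Polynomial.map_pow, Polynomial.map_mul, Polynomial.map_pow, map_C,
      map_mul, S.red_q, zero_mul, C_0, zero_pow two_ne_zero, zero_mul, cub_map, wr_map] at this
    exact pow_eq_zero_iff two_ne_zero |>.mp ((mul_eq_zero.mp this).resolve_left hf)
  have hd0 : d.map S.red ≠ 0 := by
    intro h0
    rw [h0, isCoprime_zero_right] at cop
    have e1 := natDegree_eq_zero_of_isUnit cop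
    rw [hh] at hm
    unfold mh at hm
    rw [e1, h0, natDegree_zero, max_self] at hm
    omega
  have hw1 : derivative (n.map S.red) * d.map S.red = n.map S.red * derivative (d.map S.red) := by
    unfold wr at hw0
    exact sub_eq_zero.mp hw0
  have hdd : d.map S.red ∣ derivative (d.map S.red) := by
    apply (cop.symm).dvd_of_dvd_mul_left
    rw [← hw1]
    exact dvd_mul_left _ _
  have hd' : derivative (d.map S.red) = 0 := by
    by_contra hne
    have h1 := natDegree_le_of_dvd hdd hne
    have h2 : (d.map S.red).natDegree ≠ 0 := by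
      intro h0
      rw [natDegree_eq_zero] at h0
      obtain ⟨c, hc⟩ := h0
      rw [← hc, derivative_C] at hne
      exact hne rfl
    have h3 := natDegree_derivative_lt h2
    omega
  have hn' : derivative (n.map S.red) = 0 := by
    rw [hd', mul_zero] at hw1
    exact (mul_eq_zero.mp hw1).resolve_right hd0
  have hdl : (d.map S.red).natDegree < p := lt_of_le_of_lt natDegree_map_le hdeg
  have hdc : d.map S.red = C ((d.map S.red).coeff 0) := by
    have := der_zero hd' hdl.le
    rw [coeff_eq_zero_of_natDegree_lt hdl, C_0, zero_mul, zero_add] at this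
    exact this
  have hnl : (n.map S.red).natDegree ≤ p := by rw [← hnp]; exact natDegree_map_le
  have hnc := der_zero hn' hnl
  -- rescale
  have hδ : S.red (d.coeff 0) ≠ 0 := by
    rw [← coeff_map]
    intro h0
    rw [h0, C_0] at hdc
    exact hd0 hdc
  obtain ⟨e, he⟩ := (S.unit_of_red hδ).exists_left_inv
  have hed : (C e * d).map S.red = 1 := by
    rw [Polynomial.map_mul, map_C, hdc, coeff_map, ← C_mul, ← map_mul, he, map_one, C_1]
  set al := S.red e * (n.map S.red).coeff p with hal
  set be := S.red e * (n.map S.red).coeff 0 with hbe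
  have hen : (C e * n).map S.red = C al * X ^ p + C be := by
    rw [Polynomial.map_mul, map_C, hal, hbe]
    conv_lhs => rw [hnc]
    simp only [C_mul]
    ring
  have hre : S.red e ≠ 0 := by
    intro h0
    have := congrArg S.red he
    rw [map_mul, h0, zero_mul, map_one] at this
    exact zero_ne_one this
  have hal0 : al ≠ 0 := by
    intro h0
    have h1 : (n.map S.red).coeff p = 0 := (mul_eq_zero.mp h0).resolve_left hre
    rw [h1, C_0, zero_mul, zero_add] at hnc
    rw [hh] at hm
    unfold mh at hm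
    rw [hnc, hdc, natDegree_C, natDegree_C, max_self] at hm
    omega
  have ode1 : cub a1 b1 * wr (C e * n) (C e * d) ^ 2 = C (S.q * w) ^ 2 * tgt a2 b2 (C e * n) (C e * d) := by
    rw [wr_C, tgt_C]
    linear_combination C e ^ 4 * ode
  obtain ⟨M, hM⟩ := S.dvd_of_map (P := wr (C e * n) (C e * d)) (by
    rw [wr_map, hed, hen, wr]
    simp [derivative_X_pow])
  have ode2 : cub a1 b1 * M ^ 2 = C w ^ 2 * tgt a2 b2 (C e * n) (C e * d) := by
    rw [hM, C_mul] at ode1
    have hq : (C S.q : O[X]) ^ 2 ≠ 0 := pow_ne_zero _ (C_ne_zero.mpr S.q_ne)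
    apply mul_left_cancel₀ hq
    linear_combination ode1
  -- the divisibility
  have hsq : Squarefree (cub (S.red a1) (S.red b1)) := (fp_sep hΔk).squarefree
  have hdiv1 : cub (S.red a1) (S.red b1) ∣
      (C al * X ^ p + C be) ^ 3 + C (S.red a2) * (C al * X ^ p + C be) + C (S.red b2) := by
    have := congrArg (Polynomial.map S.red) ode2
    rw [Polynomial.map_mul, Polynomial.map_pow, Polynomial.map_mul, Polynomial.map_pow, map_C,
      cub_map, tgt_map, hed, hen, tgt] at this
    have hC : C (S.red w)⁻¹ * C (S.red w) = (1 : k[X]) := by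
      rw [← C_mul, inv_mul_cancel₀ hw, C_1]
    refine ⟨C (S.red w)⁻¹ ^ 2 * M.map S.red ^ 2, ?_⟩
    linear_combination (-C (S.red w)⁻¹ ^ 2) * this - (C (S.red w)⁻¹ * C (S.red w) + 1) *
      ((C al * X ^ p + C be) ^ 3 + C (S.red a2) * (C al * X ^ p + C be) + C (S.red b2)) * hC
  have hdiv2 : cub (S.red a1) (S.red b1) ∣ (X ^ p) ^ 3 + C (S.red a2) * X ^ p + C (S.red b2) := by
    have : (X ^ p) ^ 3 + C (S.red a2) * X ^ p + C (S.red b2) = cub (S.red a1) (S.red b1) ^ p := by
      unfold cub
      rw [add_pow_char, add_pow_char, mul_pow, ← C_pow, ← C_pow, ha, hb, ← pow_mul, ← pow_mul,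
        mul_comm p 3]
    rw [this]
    exact dvd_pow_self _ hpne
  obtain ⟨s2, hs2⟩ := IsAlgClosed.exists_pow_nat_eq (3 * al ^ 2 * be) hp0
  obtain ⟨s1, hs1⟩ := IsAlgClosed.exists_pow_nat_eq (3 * al * be ^ 2 + S.red a2 * al - al ^ 3 * S.red a2) hp0
  obtain ⟨s0, hs0⟩ := IsAlgClosed.exists_pow_nat_eq
    (be ^ 3 + S.red a2 * be + S.red b2 - al ^ 3 * S.red b2) hp0
  have hr : cub (S.red a1) (S.red b1) ∣ (C s2 * X ^ 2 + C s1 * X + C s0) ^ p := by
    have : (C s2 * X ^ 2 + C s1 * X + C s0 : k[X]) ^ p =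
        ((C al * X ^ p + C be) ^ 3 + C (S.red a2) * (C al * X ^ p + C be) + C (S.red b2)) -
        C al ^ 3 * ((X ^ p) ^ 3 + C (S.red a2) * X ^ p + C (S.red b2)) := by
      rw [add_pow_char, add_pow_char, mul_pow, mul_pow, ← C_pow, ← C_pow, ← C_pow, hs2, hs1, hs0,
        ← pow_mul, mul_comm 2 p, pow_mul]
      simp only [C_mul, C_add, C_sub, C_pow, map_ofNat]
      ring
    rw [this]
    exact dvd_sub hdiv1 (hdiv2.mul_left _)
  have hr2 : cub (S.red a1) (S.red b1) ∣ (C s2 * X ^ 2 + C s1 * X + C s0) :=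
    (hsq.dvd_pow_iff_dvd hpne).mp hr
  have hr0 : (C s2 * X ^ 2 + C s1 * X + C s0 : k[X]) = 0 := by
    by_contra hne
    have h1 := natDegree_le_of_dvd hr2 hne
    have h2 : (cub (S.red a1) (S.red b1)).natDegree = 3 := by
      unfold cub
      compute_degree!
    have h3 : (C s2 * X ^ 2 + C s1 * X + C s0 : k[X]).natDegree ≤ 2 := by compute_degree
    omega
  have z2 : s2 = 0 := by
    have := congrArg (fun Q => Q.coeff 2) hr0
    simpa [coeff_X, coeff_C] using this
  have z1 : s1 = 0 := by
    have := congrArg (fun Q => Q.coeff 1) hr0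
    simpa [coeff_X, coeff_C] using this
  have z0 : s0 = 0 := by
    have := congrArg (fun Q => Q.coeff 0) hr0
    simpa [coeff_X, coeff_C] using this
  rw [z2, zero_pow hpne] at hs2
  rw [z1, zero_pow hpne] at hs1
  rw [z0, zero_pow hpne] at hs0
  have h3k : (3 : k) ≠ 0 := by
    intro h3
    have : ((3 : ℕ) : k) = 0 := by exact_mod_cast h3
    rw [CharP.cast_eq_zero_iff k p] at this
    exact hp3 ((Nat.prime_dvd_prime_iff_eq hp.out (by norm_num)).mp this)
  have hbe0 : be = 0 := by
    have := hs2.symm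
    rcases mul_eq_zero.mp this with h | h
    · exact absurd h (mul_ne_zero h3k (pow_ne_zero _ hal0))
    · exact h
  have ha2 : S.red a2 ≠ 0 := by rw [ha]; exact pow_ne_zero _ ha0
  have hb2 : S.red b2 ≠ 0 := by rw [hb]; exact pow_ne_zero _ hb0
  rw [hbe0] at hs1 hs0
  have q2 : al ^ 2 = 1 := by
    have : S.red a2 * al * (1 - al ^ 2) = 0 := by linear_combination -hs1
    have := (mul_eq_zero.mp this).resolve_left (mul_ne_zero ha2 hal0)
    linear_combination -this
  have q3 : al ^ 3 = 1 := by
    have : S.red b2 * (1 - al ^ 3) = 0 := by linear_combination -hs0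
    have := (mul_eq_zero.mp this).resolve_left hb2
    linear_combination -this
  have q1 : al = 1 := by linear_combination q3 - al * q2
  have heK : algebraMap O K e ≠ 0 := by
    intro h0
    have h1 : e = 0 := S.inj (by rw [h0, map_zero])
    rw [h1, map_zero] at hre
    exact hre rfl
  refine ⟨C e * n, C e * d, M, ?_, hed, ?_, ?_, hM, ode2, algebraMap O K e * l, mul_ne_zero heK hl, ?_, ?_⟩
  · rw [hen, q1, hbe0]; simp
  · refine (natDegree_C_mul_le _ _).trans (by omega)
  · exact lt_of_le_of_lt (natDegree_C_mul_le _ _) hdeg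
  · rw [Polynomial.map_mul, map_C, hn, C_mul]; ring
  · rw [Polynomial.map_mul, map_C, hd, C_mul]; ring

/-- a point from explicit polynomials -/
theorem mk_point2 {f : O[X]} (hf : f ≠ 0) {a b m : O} (h2 : (2 : k) ≠ 0)
    (hΔ : S.red (4 * a ^ 3 + 27 * b ^ 2) ≠ 0) {N D : O[X]}
    (ode : f * wr N D ^ 2 = C m ^ 2 * tgt a b N D) (hm : m ≠ 0) (hD : D ≠ 0)
    (hdeg : D.natDegree < N.natDegree)
    (copK : IsCoprime (N.map (algebraMap O K)) (D.map (algebraMap O K)))
    (copk : IsCoprime (N.map S.red) (D.map S.red)) (hlead : (N.map S.red).natDegree = N.natDegree) :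
    ∃ v : (TWf (f.map (algebraMap O K)) (algebraMap O K a) (algebraMap O K b)).Point,
      Good (algebraMap O K m) v ∧ Nice S v ∧ hgt v = N.natDegree ∧
      ∃ l : K, l ≠ 0 ∧ N.map (algebraMap O K) = C l * (rep v).1 ∧ D.map (algebraMap O K) = C l * (rep v).2 := by
  have hinj := S.inj
  set F := f.map (algebraMap O K) with hFd
  have hF : F ≠ 0 := fun h => hf (by
    apply Polynomial.map_injective _ hinj; rw [← hFd, h, Polynomial.map_zero])
  set NK := N.map (algebraMap O K) with hNK
  set DK := D.map (algebraMap O K) with hDK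
  have hN0 : N ≠ 0 := by rintro rfl; simp at hdeg
  have hNK0 : NK ≠ 0 := fun h => hN0 (by
    apply Polynomial.map_injective _ hinj; rw [← hNK, h, Polynomial.map_zero])
  have hDK0 : DK ≠ 0 := fun h => hD (by
    apply Polynomial.map_injective _ hinj; rw [← hDK, h, Polynomial.map_zero])
  have hmK : algebraMap O K m ≠ 0 := fun h => hm (hinj (by rw [h, map_zero]))
  have odeK : F * wr NK DK ^ 2 = C (algebraMap O K m) ^ 2 * tgt (algebraMap O K a) (algebraMap O K b) NK DK := by
    rw [hFd, hNK, hDK, ← wr_map, ← tgt_map, ← Polynomial.map_pow, ← Polynomial.map_mul, ode,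
      Polynomial.map_mul, Polynomial.map_pow, map_C]
  have ioD := io_ne hDK0
  have iom : io (C (algebraMap O K m)) ≠ 0 := io_ne (C_ne_zero.mpr hmK)
  have heq : io F * (io (wr NK DK) / (io (C (algebraMap O K m)) * io DK ^ 2)) ^ 2 =
      (io NK / io DK) ^ 3 + io (C (algebraMap O K a)) * (io NK / io DK) + io (C (algebraMap O K b)) := by
    have := congrArg io odeK
    simp only [tgt, map_mul, map_pow, map_add] at this
    field_simp
    linear_combination this
  have h2K := twoK S h2
  refine ⟨Point.some _ _ (ptf_ns hF h2K (ΔK S hΔ) heq), ?_, ?_, ?_, ?_⟩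
  · rw [good_some]
    have hf' := io_ne hF
    have e1 : io F * (io NK / io DK) / io F = io NK / io DK := by field_simp
    have e2 : io F ^ 2 * (io (wr NK DK) / (io (C (algebraMap O K m)) * io DK ^ 2)) / io F ^ 2 =
      io (wr NK DK) / (io (C (algebraMap O K m)) * io DK ^ 2) := by field_simp
    rw [e1, e2]
    refine ⟨vi_pos hDK0 ?_, ?_⟩
    · rw [hNK, hDK, natDegree_map_eq_of_injective hinj, natDegree_map_eq_of_injective hinj]
      exact hdeg
    · rw [rd_div _ _ hDK0]
      simp only [wr, map_sub, map_mul]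
      field_simp
  · obtain ⟨l, hl, h1, h2'⟩ := same_frac hNK0 hDK0 copK
    have e1 : io F * (io NK / io DK) / io F = io NK / io DK := by
      have hf' := io_ne hF
      field_simp
    refine ⟨N, D, l, hl, ?_, ?_, copk, ?_⟩
    · rw [rep_some, e1]; exact h1
    · rw [rep_some, e1]; exact h2'
    · unfold hgt
      rw [rep_some, e1]
      unfold mh
      have g1 : (io NK / io DK : RatFunc K).num.natDegree = N.natDegree := by
        rw [← natDegree_C_mul hl, ← h1, hNK, natDegree_map_eq_of_injective hinj]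
      have g2 : (io NK / io DK : RatFunc K).denom.natDegree = D.natDegree := by
        rw [← natDegree_C_mul hl, ← h2', hDK, natDegree_map_eq_of_injective hinj]
      simp only [g1, g2, hlead]
      rw [max_eq_left hdeg.le, max_eq_left (natDegree_map_le.trans hdeg.le)]
  · obtain ⟨l, hl, h1, h2'⟩ := same_frac hNK0 hDK0 copK
    have e1 : io F * (io NK / io DK) / io F = io NK / io DK := by
      have hf' := io_ne hF
      field_simp
    unfold hgt
    rw [rep_some, e1]
    unfold mh
    have g1 : (io NK / io DK : RatFunc K).num.natDegree = N.natDegree := by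
      rw [← natDegree_C_mul hl, ← h1, hNK, natDegree_map_eq_of_injective hinj]
    have g2 : (io NK / io DK : RatFunc K).denom.natDegree = D.natDegree := by
      rw [← natDegree_C_mul hl, ← h2', hDK, natDegree_map_eq_of_injective hinj]
    simp only [g1, g2]
    rw [max_eq_left hdeg.le]
  · obtain ⟨l, hl, h1, h2'⟩ := same_frac hNK0 hDK0 copK
    have e1 : io F * (io NK / io DK) / io F = io NK / io DK := by
      have hf' := io_ne hF
      field_simp
    refine ⟨l, hl, ?_, ?_⟩
    · rw [rep_some, e1]; exact h1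
    · rw [rep_some, e1]; exact h2'

/-- passage to the `u`-model -/
theorem to_u2 {p : ℕ} [hp : Fact p.Prime] [CharP k p] {A A' w : O} (hA : S.red A ≠ 0)
    (hA' : S.red A' = S.red A ^ p) {n d M : O[X]} (hn : n.map S.red = X ^ p) (hd : d.map S.red = 1)
    (hnd : n.natDegree ≤ p) (hdd : d.natDegree < p) (hwr : wr n d = C S.q * M)
    (ode : cub (ca A) (cb A) * M ^ 2 = C w ^ 2 * tgt (ca A') (cb A') n d) :
    ∃ N D M' : O[X], N.map S.red = X ^ p ∧ D.map S.red = 1 ∧ N.natDegree ≤ p ∧ D.natDegree < p ∧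
      wr N D = C S.q * M' ∧ wu A * M' ^ 2 = C w ^ 2 * tu A' N D ∧ A' * M'.coeff 0 = A * M.eval 3 := by
  have hp0 := hp.out.pos
  have hA'0 : S.red A' ≠ 0 := by rw [hA']; exact pow_ne_zero _ hA
  obtain ⟨e, he⟩ := (S.unit_of_red hA'0).exists_left_inv
  have hdl : (C A * X + 3 : O[X]).natDegree ≤ 1 := by compute_degree
  set n1 := n.comp (C A * X + 3) with hn1
  set D := d.comp (C A * X + 3) with hD
  have hn1d : n1.natDegree ≤ p := by
    rw [hn1]
    refine natDegree_comp_le.trans ?_
    calc n.natDegree * (C A * X + 3 : O[X]).natDegree ≤ p * 1 := Nat.mul_le_mul hnd hdl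
      _ = p := mul_one p
  have hDd : D.natDegree < p := by
    rw [hD]
    refine lt_of_le_of_lt natDegree_comp_le ?_
    calc d.natDegree * (C A * X + 3 : O[X]).natDegree ≤ d.natDegree * 1 := Nat.mul_le_mul le_rfl hdl
      _ < p := by rw [mul_one]; exact hdd
  have h3p : (3 : k[X]) ^ p = 3 := by
    have h := frobenius_def (R := k[X]) p 3
    have h' : (frobenius k[X] p) 3 = 3 := map_ofNat _ 3
    rw [← h, h']
  have hDr : D.map S.red = 1 := by
    rw [hD, Polynomial.map_comp, hd]; simp
  have hn1r : n1.map S.red = C (S.red A') * X ^ p + 3 := by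
    rw [hn1, Polynomial.map_comp, hn, pow_comp, X_comp, Polynomial.map_add, Polynomial.map_mul,
      map_C, map_X, Polynomial.map_ofNat, add_pow_char, mul_pow, ← C_pow, ← hA', h3p]
  refine ⟨C e * (n1 - C 3 * D), D, C (e * A) * M.comp (C A * X + 3), ?_, hDr, ?_, hDd, ?_, ?_, ?_⟩
  · rw [Polynomial.map_mul, Polynomial.map_sub, Polynomial.map_mul, map_C, map_C, hn1r, hDr]
    have h1 : C (S.red e) * C (S.red A') = (1 : k[X]) := by
      rw [← C_mul, ← map_mul, he, map_one, C_1]
    have h3 : (C (S.red 3) : k[X]) = 3 := by simp [map_ofNat]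
    rw [h3]
    linear_combination X ^ p * h1
  · refine (natDegree_C_mul_le _ _).trans ?_
    refine (natDegree_sub_le _ _).trans (max_le hn1d ?_)
    exact (natDegree_C_mul_le _ _).trans hDd.le
  · rw [wr_sub, hn1, hD, wr_comp, hwr, mul_comp, C_comp]
    simp only [C_mul]
    ring
  · have hcomp := congrArg (fun P => P.comp (C A * X + 3)) ode
    simp only [mul_comp, pow_comp, C_comp, cub_comp] at hcomp
    have ht : (tgt (ca A') (cb A') n d).comp (C A * X + 3) =
        tgt (ca A') (cb A') (C A' * (C e * (n1 - C 3 * D)) + 3 * D) D := by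
      have he' : C e * C A' = (1 : O[X]) := by rw [← C_mul, he, C_1]
      have : C A' * (C e * (n1 - C 3 * D)) + 3 * D = n1 := by
        have h3 : (C 3 : O[X]) = 3 := map_ofNat C 3
        rw [h3]
        linear_combination (n1 - 3 * D) * he'
      rw [this, hn1, hD]
      simp only [tgt, mul_comp, add_comp, pow_comp, C_comp]
    rw [ht, tgt_tu] at hcomp
    have he' : C e * C A' = (1 : O[X]) := by rw [← C_mul, he, C_1]
    simp only [C_mul]
    linear_combination C e ^ 2 * hcomp + C w ^ 2 * tu A' (C e * (n1 - C 3 * D)) D * (C e * C A' + 1) * he'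
  · rw [coeff_C_mul, coeff_zero_eq_eval_zero, eval_comp]
    have : eval 0 (C A * X + 3 : O[X]) = 3 := by simp
    rw [this]
    linear_combination A * M.eval 3 * he

end Pool.Agent.H546
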