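import Pool.Agent.H546.Sign2
import Pool.Agent.H546.Poch2
import Pool.Agent.H546.Util

set_option autoImplicit false

/-!
# Linear combinations modulo `p²`, the supersingular case, and constructors of isogenies
-/

namespace Pool.Agent.H546

open Polynomial

variable {O K k : Type*} [CommRing O] [IsDomain O] [Field K] [Algebra O K] [Field k]
  (S : DV O K k)

/-- an isogeny from normalised data -/
theorem DatE.of_nd {a1 b1 a b m : O} {N D : O[X]} {l : ℕ}
    (ode : cub a1 b1 * wr N D ^ 2 = D * (N ^ 3 + C (a * m ^ 4) * N * D ^ 2 + C (b * m ^ 6) * D ^ 3))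
    (hm : S.red m ≠ 0) (hD : D ≠ 0) (hdeg : D.natDegree < N.natDegree) (hN : N.natDegree = l)
    (hnl : S.red N.leadingCoeff ≠ 0)
    (copK : IsCoprime (N.map (algebraMap O K)) (D.map (algebraMap O K)))
    (copk : IsCoprime (N.map S.red) (D.map S.red)) :
    DatE S (cub a1 b1) a b m l N (C (m ^ 2) * D) := by
  have hmc : S.red (m ^ 2) ≠ 0 := by rw [map_pow]; exact pow_ne_zero 2 hm
  have hmc0 : m ^ 2 ≠ 0 := by intro h0; rw [h0, map_zero] at hmc; exact hmc rfl
  have hmK : algebraMap O K (m ^ 2) ≠ 0 := fun h0 => hmc0 (S.inj (by rw [h0, map_zero]))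
  have uK : IsUnit (C (algebraMap O K (m ^ 2)) : K[X]) := isUnit_C.mpr (isUnit_iff_ne_zero.mpr hmK)
  have uk : IsUnit (C (S.red (m ^ 2)) : k[X]) := isUnit_C.mpr (isUnit_iff_ne_zero.mpr hmc)
  refine ⟨?_, mul_ne_zero (C_ne_zero.mpr hmc0) hD, ?_, hN, ?_, ?_, natDegree_map_of_leadingCoeff_ne_zero _ hnl⟩
  · have e1 : wr N (C (m ^ 2) * D) = C (m ^ 2) * wr N D := by
      simp only [wr, derivative_mul, derivative_C]; ring
    rw [e1]
    simp only [tgt]
    simp only [C_mul, C_pow] at ode ⊢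
    linear_combination (C m ^ 4) * ode
  · rw [natDegree_C_mul hmc0]; exact hdeg
  · rw [Polynomial.map_mul, map_C, isCoprime_mul_unit_left_right uK]; exact copK
  · rw [Polynomial.map_mul, map_C, isCoprime_mul_unit_left_right uk]; exact copk

theorem cop_of_bez {N h U V : O[X]} {r : O} (bez : U * N + V * h = C r) (hr : S.red r ≠ 0) :
    IsCoprime (N.map (algebraMap O K)) (h.map (algebraMap O K)) ∧ IsCoprime (N.map S.red) (h.map S.red) := by
  have hrK : algebraMap O K r ≠ 0 := by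
    intro h0
    apply hr
    have : r = 0 := S.inj (by rw [h0, map_zero])
    rw [this, map_zero]
  constructor
  · refine ⟨C (algebraMap O K r)⁻¹ * U.map (algebraMap O K), C (algebraMap O K r)⁻¹ * V.map (algebraMap O K), ?_⟩
    have := congrArg (Polynomial.map (algebraMap O K)) bez
    rw [Polynomial.map_add, Polynomial.map_mul, Polynomial.map_mul, map_C] at this
    have h1 : (C (algebraMap O K r)⁻¹ : K[X]) * C (algebraMap O K r) = 1 := by
      rw [← C_mul, inv_mul_cancel₀ hrK, C_1]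
    linear_combination C (algebraMap O K r)⁻¹ * this + h1
  · refine ⟨C (S.red r)⁻¹ * U.map S.red, C (S.red r)⁻¹ * V.map S.red, ?_⟩
    have := congrArg (Polynomial.map S.red) bez
    rw [Polynomial.map_add, Polynomial.map_mul, Polynomial.map_mul, map_C] at this
    have h1 : (C (S.red r)⁻¹ : k[X]) * C (S.red r) = 1 := by
      rw [← C_mul, inv_mul_cancel₀ hr, C_1]
    linear_combination C (S.red r)⁻¹ * this + h1

/-- a `T`-isogeny of odd degree from its kernel polynomial -/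
theorem DatT.of_sq {A A' m : O} {N h U V : O[X]} {l : ℕ} {κ : ℤ} {r : O}
    (ode : cub (ca A) (cb A) * (derivative N * h - 2 * N * derivative h) ^ 2 =
      N ^ 3 + C (ca A' * m ^ 4) * N * h ^ 4 + C (cb A' * m ^ 6) * h ^ 6)
    (hm : S.red m ≠ 0) (hdeg : 2 * h.natDegree < N.natDegree) (hN : N.natDegree = l)
    (hnl : S.red N.leadingCoeff ≠ 0) (bez : U * N + V * h = C r) (hr : S.red r ≠ 0)
    (hh3 : S.red (h.eval 3) ≠ 0) (hN3 : N.eval 3 = 3 * (m ^ 2 * h.eval 3 ^ 2))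
    (hT : ((derivative N).eval 3 * h.eval 3 - 2 * N.eval 3 * (derivative h).eval 3) * A =
      κ * m ^ 3 * h.eval 3 ^ 3 * A') :
    DatT S A A' m l κ := by
  have hh : h ≠ 0 := by rintro rfl; rw [eval_zero, map_zero] at hh3; exact hh3 rfl
  obtain ⟨c1, c2⟩ := cop_of_bez S bez hr
  have hw : wr N (h ^ 2) = h * (derivative N * h - 2 * N * derivative h) := by
    simp only [wr, derivative_pow]; push_cast; simp only [map_ofNat]; ring
  refine ⟨N, C (m ^ 2) * h ^ 2, DatE.of_nd S ?_ hm (pow_ne_zero 2 hh) ?_ hN hnl ?_ ?_, ?_, ?_, ?_⟩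
  · rw [hw]; linear_combination h ^ 2 * ode
  · rw [natDegree_pow]; exact hdeg
  · rw [Polynomial.map_pow]; exact c1.pow_right
  · rw [Polynomial.map_pow]; exact c2.pow_right
  · rw [eval_mul, eval_C, eval_pow, map_mul, map_pow, map_pow]
    exact mul_ne_zero (pow_ne_zero 2 hm) (pow_ne_zero 2 hh3)
  · rw [eval_mul, eval_C, eval_pow, hN3]
  · have e1 : wr N (C (m ^ 2) * h ^ 2) = C (m ^ 2) * (h * (derivative N * h - 2 * N * derivative h)) := by
      rw [← hw]; simp only [wr, derivative_mul, derivative_C]; ring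
    rw [e1]
    simp only [eval_mul, eval_sub, eval_C, eval_pow, eval_ofNat]
    linear_combination (m ^ 2 * h.eval 3) * hT

/-- a `T`-isogeny from normalised data -/
theorem DatT.of_nd {A A' m : O} {N D U V : O[X]} {l : ℕ} {κ : ℤ} {r : O}
    (ode : cub (ca A) (cb A) * wr N D ^ 2 = D * (N ^ 3 + C (ca A' * m ^ 4) * N * D ^ 2 + C (cb A' * m ^ 6) * D ^ 3))
    (hm : S.red m ≠ 0) (hdeg : D.natDegree < N.natDegree) (hN : N.natDegree = l)
    (hnl : S.red N.leadingCoeff ≠ 0) (bez : U * N + V * D = C r) (hr : S.red r ≠ 0)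
    (hD3 : S.red (D.eval 3) ≠ 0) (hN3 : N.eval 3 = 3 * (m ^ 2 * D.eval 3))
    (hT : ((derivative N).eval 3 * D.eval 3 - N.eval 3 * (derivative D).eval 3) * A =
      κ * m ^ 3 * D.eval 3 ^ 2 * A') :
    DatT S A A' m l κ := by
  have hD : D ≠ 0 := by rintro rfl; rw [eval_zero, map_zero] at hD3; exact hD3 rfl
  obtain ⟨c1, c2⟩ := cop_of_bez S bez hr
  refine ⟨N, C (m ^ 2) * D, DatE.of_nd S ode hm hD hdeg hN hnl c1 c2, ?_, ?_, ?_⟩
  · rw [eval_mul, eval_C, map_mul, map_pow]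
    exact mul_ne_zero (pow_ne_zero 2 hm) hD3
  · rw [eval_mul, eval_C, hN3]
  · have e1 : wr N (C (m ^ 2) * D) = C (m ^ 2) * (derivative N * D - N * derivative D) := by
      simp only [wr, derivative_mul, derivative_C]; ring
    rw [e1]
    simp only [eval_mul, eval_sub, eval_C]
    linear_combination (m ^ 2) * hT

/-- **The combinations of Legendre polynomials from two isogenies.** -/
theorem lin3 {p : ℕ} [hp : Fact p.Prime] [CharP k p] [IsAlgClosed k] (hp11 : 10 < p) (hq : S.q = (p : O))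
    {z z' : O} (hz : S.red z ≠ 0) (hz1 : S.red (1 - z) ≠ 0) (hz' : S.red z' = S.red z ^ p)
    (ha0 : S.red (ca (4 * z)) ≠ 0) (hb0 : S.red (cb (4 * z)) ≠ 0) {m1 m2 : O} {l1 l2 : ℕ} {κ : ℤ}
    (hm1 : m1 ≠ 0) (hm2 : m2 ≠ 0) (hκ : κ = 1 ∨ κ = -1)
    (d1 : DatT S (4 * z) (4 * z') m1 l1 κ) (d2 : DatK S (4 * z) (4 * z') m2 l2)
    (r s t0 ε : ℤ) (hε : ε = 1 ∨ ε = -1) (h3r : (3 : ℤ) ∣ r - ε)
    (hform : (p : ℤ) = r ^ 2 * l1 + r * s * t0 + s ^ 2 * l2)
    (hl1 : ¬ (p : ℤ) ∣ l1) (hl2 : ¬ (p : ℤ) ∣ l2) (ht0 : t0 ^ 2 ≤ 4 * l1 * l2)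
    (hbig : 16 * (l1 * l2) < p ^ 2) {al τ : O} {c : ℤ} (hal : (r : O) * m1 + (s : O) * m2 = al)
    (hred : S.red al = 0) (hc : c ^ 2 = 1) (hprod : al * (τ - al) = c * p) :
    (p : O) ^ 2 ∣ τ * (2 * lg (p / 3) z + lg (2 * p / 3) z) - 3 * ((ε * κ : ℤ) : O) * (c * τ ^ 2 - p) ∧
    (p : O) ^ 2 ∣ τ * (5 * lg (4 * p / 3) z + 4 * lg (5 * p / 3) z) -
      9 * (1 - 2 * z') * ((ε * κ : ℤ) : O) * (c * τ ^ 2 - p) := by
  have hp0 : (p : O) ≠ 0 := by rw [← hq]; exact S.q_ne
  obtain ⟨w, hw⟩ := (S.red_iff _).mp hred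
  rw [hq] at hw
  have hw1 : w * (τ - al) = c := by
    apply mul_left_cancel₀ hp0
    rw [hw] at hprod ⊢
    linear_combination hprod
  have hcO : (c : O) ^ 2 = 1 := by
    rw [← Int.cast_pow, hc, Int.cast_one]
  have hwr : S.red w ≠ 0 := by
    intro h0
    have h1 := congrArg S.red hw1
    rw [map_mul, h0, zero_mul] at h1
    have h2 := congrArg S.red hcO
    rw [map_pow, ← h1, map_one] at h2
    simp at h2
  obtain ⟨k1, k2⟩ := lift3b S hp11 hq hz hz1 hz' ha0 hb0 hm1 hm2 hκ d1 d2 r s t0 ε hε h3r hform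
    (form_ndvd hform hl2) (form_ndvd (r := s) (s := r) (t0 := t0) (l1 := l2) (l2 := l1)
      (by rw [hform]; ring) hl1) ht0 hbig (w := w) (by rw [hal, hw]) hwr
  have h3 : p % 3 ≠ 0 := by
    intro h0
    have := (Nat.prime_dvd_prime_iff_eq Nat.prime_three hp.out).mp (Nat.dvd_of_mod_eq_zero h0)
    omega
  rw [cs3_coeff z (1 * p) (by omega), cs3_coeff z (2 * p) (by omega), one_mul] at k1
  rw [cs3_coeff z (4 * p) (by omega), cs3_coeff z (5 * p) (by omega)] at k2
  have he2 : ((ε * κ : ℤ) : O) ^ 2 = 1 := by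
    rw [← Int.cast_pow]
    have : (ε * κ) ^ 2 = 1 := by rcases hε with rfl | rfl <;> rcases hκ with rfl | rfl <;> norm_num
    rw [this, Int.cast_one]
  set e := ((ε * κ : ℤ) : O)
  obtain ⟨q1, hq1⟩ := k1
  obtain ⟨q2, hq2⟩ := k2
  have hwτ : w * τ = c + p * w ^ 2 := by rw [hw] at hw1; linear_combination hw1
  set L1 := 2 * lg (p / 3) z + lg (2 * p / 3) z
  set L2 := 5 * lg (4 * p / 3) z + 4 * lg (5 * p / 3) z
  constructor
  · refine ⟨τ * (e * c * (τ - al)) * q1 - 3 * e * c * w ^ 2, ?_⟩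
    have h1 : L1 - 3 * e * c * (τ - al) = p ^ 2 * ((e * c * (τ - al)) * q1) := by
      linear_combination (e * c * (τ - al)) * hq1 - (e ^ 2 * c * L1) * hw1 - c ^ 2 * L1 * he2 - L1 * hcO
    rw [hw] at h1 ⊢
    linear_combination τ * h1 - (3 * e * c * p) * hwτ - 3 * e * p * hcO
  · refine ⟨τ * (e * c * (τ - al)) * q2 - 9 * (1 - 2 * z') * e * c * w ^ 2, ?_⟩
    have h1 : L2 - 9 * (1 - 2 * z') * e * c * (τ - al) = p ^ 2 * ((e * c * (τ - al)) * q2) := by
      linear_combination (e * c * (τ - al)) * hq2 - (e ^ 2 * c * L2) * hw1 - c ^ 2 * L2 * he2 - L2 * hcO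
    rw [hw] at h1 ⊢
    linear_combination τ * h1 - (9 * (1 - 2 * z') * e * c * p) * hwτ - 9 * (1 - 2 * z') * e * p * hcO

/-- **The supersingular case.** -/
theorem ss3 {p : ℕ} [hp : Fact p.Prime] [CharP k p] (hp5 : 5 ≤ p) {z m : O} {l : ℕ} {κ : ℤ}
    (hz1 : S.red (1 - z) ≠ 0) (hm : S.red m ≠ 0)
    (d : DatT S (4 * z) (4 * (1 - z)) m l κ) (hne : S.red m ≠ (-1) ^ (p / 3) * S.red m ^ p) :
    lg (p / 3) (S.red z) = 0 := by
  have h4 : (4 : k) ≠ 0 := by
    have := small_ne (k := k) (p := p) (n := 4) (by norm_num) (by omega)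
    exact_mod_cast this
  obtain ⟨n, d, ⟨ode, -⟩, hd, hn, -⟩ := d
  have e3 : (3 : k) = S.red 3 := (map_ofNat S.red 3).symm
  have key : S.red m * hs p (S.red (4 * z)) = S.red m ^ p * hs p (S.red (4 * (1 - z))) := by
    refine hasse_w (p := p) (by omega) (n := n.map S.red) (d := d.map S.red) ?_ ?_ ?_ hm ?_
    · rw [map_mul, map_ofNat]; exact mul_ne_zero h4 hz1
    · rw [e3, Polynomial.eval_map_apply, Polynomial.eval_map_apply, hn, ← map_mul]
    · rw [e3, Polynomial.eval_map_apply]; exact hd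
    · have e2 := congrArg (Polynomial.map S.red) ode
      rw [Polynomial.map_mul, Polynomial.map_mul, Polynomial.map_pow, Polynomial.map_pow, cub_map, wr_map,
        tgt_map, ca_map, cb_map, ca_map, cb_map, Polynomial.map_C] at e2
      exact e2
  rw [map_mul, map_mul, map_ofNat, map_sub, map_one, hs_lg (by omega) (by omega), hs_lg (by omega) (by omega),
    lg_neg] at key
  have h5 : (S.red m - (-1) ^ (p / 3) * S.red m ^ p) * lg (p / 3) (S.red z) = 0 := by
    linear_combination key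
  exact (mul_eq_zero.mp h5).resolve_left (sub_ne_zero.mpr hne)

end Pool.Agent.H546
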