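import Pool.Agent.H546.Util
import Pool.Agent.H546.UtilH
import Pool.Agent.H546.Hasse
import Pool.Agent.H546.QCM
import Pool.Agent.H546.I11

set_option autoImplicit false
set_option maxHeartbeats 4000000

/-!
# The cubic sum with denominator `64` (discriminant `-11`)
-/

namespace Pool.Agent.H546

open Finset
open Pool.Agent.Q267.CDE (R)
open Pool.Agent.Q267.MW (u3)

/-- reciprocity for `-q`, `q` a prime `3 mod 4` -/
theorem legm' {p : ℕ} [hp : Fact p.Prime] {q : ℕ} [hq : Fact q.Prime] (hq4 : q % 4 = 3) (hp2 : p ≠ 2) :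
    legendreSym p (-(q : ℤ)) = legendreSym q p := by
  have hm : legendreSym p (-(q : ℤ)) = legendreSym p (-1) * legendreSym p q := by
    rw [← legendreSym.mul]; norm_num
  rw [hm, legendreSym.at_neg_one hp2]
  have hodd : p % 2 = 1 := by
    rcases hp.out.eq_two_or_odd with h | h
    · exact absurd h hp2
    · exact h
  have : p % 4 = 1 ∨ p % 4 = 3 := by omega
  rcases this with h | h
  · rw [ZMod.χ₄_nat_one_mod_four h, one_mul]
    exact (legendreSym.quadratic_reciprocity_one_mod_four h (by rintro rfl; norm_num at hq4)).symm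
  · rw [ZMod.χ₄_nat_three_mod_four h,
      legendreSym.quadratic_reciprocity_three_mod_four (p := p) (q := q) h hq4]
    ring

/-- the supersingular case from an endomorphism -/
theorem sum_end_zero {O K k : Type*} [CommRing O] [IsDomain O] [Field K] [Algebra O K] [Field k]
    (S : DV O K k) {p : ℕ} [hp : Fact p.Prime] [CharP k p] (hp5 : 5 ≤ p) (hq : S.q = (p : O))
    {z m c : O} {M : ℤ} (hMz : (M : O) * (z * (1 - z)) = 27)
    (hz : S.red z ≠ 0) (hz1 : S.red (1 - z) ≠ 0) {n h : Polynomial O}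
    (ode : cub (ca (4 * z)) (cb (4 * z)) * Polynomial.C c *
        (Polynomial.derivative n * h - 2 * n * Polynomial.derivative h) ^ 2 =
      n ^ 3 + Polynomial.C (ca (4 * z) * m ^ 4) * Polynomial.C c ^ 2 * n * h ^ 4 +
        Polynomial.C (cb (4 * z) * m ^ 6) * Polynomial.C c ^ 3 * h ^ 6)
    (hm : S.red m ≠ 0) (hc : S.red c ≠ 0) (hh : S.red (h.eval 3) ≠ 0)
    (hn : n.eval 3 = 3 * (c * m ^ 2 * h.eval 3 ^ 2))
    (hne : S.red m ≠ S.red m ^ p)
    {wi : R p} (hwi : (M : R p) * wi = 1) :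
    ∑ k ∈ range p, (k.centralBinom : R p) * ((u3 k : ℕ) : R p) * wi ^ k = 0 := by
  refine sum_zero S hp5 hq hMz hwi ?_
  rw [lg_cast]
  have h4 : (4 : k) ≠ 0 := by
    have := small_ne (k := k) (p := p) (n := 4) (by norm_num) (by omega)
    exact_mod_cast this
  have key : S.red m * hs p (S.red (4 * z)) = S.red m ^ p * hs p (S.red (4 * z)) := by
    refine hasse_w (p := p) (by omega) (n := n.map S.red) (d := (Polynomial.C (c * m ^ 2) * h ^ 2).map S.red)
      ?_ ?_ ?_ hm ?_
    · rw [map_mul, map_ofNat]; exact mul_ne_zero h4 hz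
    · have e3 : (3 : k) = S.red 3 := (map_ofNat S.red 3).symm
      rw [e3, Polynomial.eval_map_apply, Polynomial.eval_map_apply, hn, Polynomial.eval_mul,
        Polynomial.eval_C, Polynomial.eval_pow, ← map_mul]
    · have e3 : (3 : k) = S.red 3 := (map_ofNat S.red 3).symm
      rw [e3, Polynomial.eval_map_apply, Polynomial.eval_mul, Polynomial.eval_C, Polynomial.eval_pow,
        map_mul, map_mul, map_pow, map_pow]
      exact mul_ne_zero (mul_ne_zero hc (pow_ne_zero _ hm)) (pow_ne_zero _ hh)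
    · have e1 : cub (ca (4 * z)) (cb (4 * z)) * wr n (Polynomial.C (c * m ^ 2) * h ^ 2) ^ 2 =
          Polynomial.C m ^ 2 * tgt (ca (4 * z)) (cb (4 * z)) n (Polynomial.C (c * m ^ 2) * h ^ 2) := by
        have e1 : wr n (Polynomial.C (c * m ^ 2) * h ^ 2) = Polynomial.C (c * m ^ 2) * h *
            (Polynomial.derivative n * h - 2 * n * Polynomial.derivative h) := by
          simp only [wr, Polynomial.derivative_mul, Polynomial.derivative_C, Polynomial.derivative_pow]
          push_cast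
          simp only [map_ofNat]
          ring
        rw [e1]
        simp only [tgt]
        simp only [Polynomial.C_mul, Polynomial.C_pow] at ode ⊢
        linear_combination (Polynomial.C m ^ 4 * Polynomial.C c * h ^ 2) * ode
      have e2 := congrArg (Polynomial.map S.red) e1
      rw [Polynomial.map_mul, Polynomial.map_mul, Polynomial.map_pow, Polynomial.map_pow, cub_map, wr_map,
        tgt_map, ca_map, cb_map, Polynomial.map_C] at e2
      exact e2
  rw [map_mul, map_ofNat, hs_lg (by omega) (by omega)] at key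
  have h5 : (S.red m - S.red m ^ p) * lg (p / 3) (S.red z) = 0 := by
    linear_combination key
  exact (mul_eq_zero.mp h5).resolve_left (sub_ne_zero.mpr hne)

section t11

local instance fact11' : Fact (Nat.Prime 11) := ⟨by norm_num⟩

variable (p : ℕ) [hp : Fact p.Prime]

theorem t11_main (h5 : 5 < p) (h11 : p ≠ 11) {wi : R p}
    (hwi : ((64 : ℤ) : R p) * wi = 1) :
    (∀ x y : ℤ, legendreSym 11 p = 1 → 4 * (p : ℤ) = x ^ 2 + 11 * y ^ 2 →
      ∑ k ∈ range p, (k.centralBinom : R p) * ((u3 k : ℕ) : R p) * wi ^ k = ((x ^ 2 - 2 * p : ℤ) : R p)) ∧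
    (legendreSym 11 p = -1 →
      ∑ k ∈ range p, (k.centralBinom : R p) * ((u3 k : ℕ) : R p) * wi ^ k = 0) := by
  have hp2 : p ≠ 2 := by omega
  have hp3 : p ≠ 3 := by omega
  have hp5' : p ≠ 5 := by omega
  have hp5 : 5 ≤ p := by omega
  have nd : ∀ {n : ℤ} (l : List (ℕ × ℕ)), (∀ q ∈ l, q.1.Prime ∧ p ≠ q.1) →
      n.natAbs = (l.map fun q => q.1 ^ q.2).prod → ¬ (p : ℤ) ∣ n := fun l hl hn => ndvd_fac l hl hn
  have n3 : ¬ (p : ℤ) ∣ 3 := nd [(3, 1)] (by simp; exact ⟨by norm_num, hp3⟩) (by norm_num)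
  have nm3 : ¬ (p : ℤ) ∣ -3 := nd [(3, 1)] (by simp; exact ⟨by norm_num, hp3⟩) (by norm_num)
  have nm11 : ¬ (p : ℤ) ∣ -11 := nd [(11, 1)] (by simp; exact ⟨by norm_num, h11⟩) (by norm_num)
  have hpz : Prime (p : ℤ) := Nat.prime_iff_prime_int.mp hp.out
  have r2 : (SW p).red 2 ≠ 0 := (SW p).two_ne (p := p) hp2
  have r2' : (2 : kb p) ≠ 0 := by rw [map_ofNat] at r2; exact r2
  obtain ⟨v, hv⟩ := ((SW p).unit_of_red r2).exists_right_inv
  obtain ⟨σ, hσ⟩ := wo_isqrt p hp2 nm11
  obtain ⟨ρ, hρ⟩ := wo_isqrt p hp2 nm3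
  have hσD : σ ^ 2 = ((-11 : ℤ) : WO p) := hσ
  have hρD : ρ ^ 2 = ((-3 : ℤ) : WO p) := hρ
  push_cast at hσ hρ
  have h2O : (2 : WO p) ≠ 0 := by intro h0; rw [h0, map_zero] at r2; exact r2 rfl
  have h4O : (4 : WO p) ≠ 0 := by
    have : (4 : WO p) = 2 * 2 := by norm_num
    rw [this]; exact mul_ne_zero h2O h2O
  have h8O : (8 : WO p) ≠ 0 := by
    have : (8 : WO p) = 2 * 2 * 2 := by norm_num
    rw [this]; exact mul_ne_zero (mul_ne_zero h2O h2O) h2O
  obtain ⟨z, hz⟩ : ∃ z, z = v ^ 3 * (4 - σ) := ⟨_, rfl⟩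
  have h8v : 8 * v ^ 3 = 1 := by linear_combination (4 * v ^ 2 + 2 * v + 1) * hv
  have h8z : 8 * z = 4 - σ := by rw [hz]; linear_combination (4 - σ) * h8v
  have h8z1 : 8 * (1 - z) = 4 + σ := by linear_combination -h8z
  have hMz : ((64 : ℤ) : WO p) * (z * (1 - z)) = 27 := by
    push_cast
    linear_combination (8 * (1 - z)) * h8z + (4 - σ) * h8z1 - hσ
  have hzr : (SW p).red z ≠ 0 := by
    refine red_ne_mul (y := 64 * (1 - z)) (n := 27) ?_ ?_
    · push_cast at hMz ⊢; linear_combination hMz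
    · exact nd [(3, 3)] (by simp; exact ⟨by norm_num, hp3⟩) (by norm_num)
  have hz1r : (SW p).red (1 - z) ≠ 0 := by
    refine red_ne_mul (y := 64 * z) (n := 27) ?_ ?_
    · push_cast at hMz ⊢; linear_combination hMz
    · exact nd [(3, 3)] (by simp; exact ⟨by norm_num, hp3⟩) (by norm_num)
  have hM : ¬ (p : ℤ) ∣ 64 := nd [(2, 6)] (by simp; exact ⟨by norm_num, hp2⟩) (by norm_num)
  -- the multiplier
  obtain ⟨m, hm⟩ : ∃ m, m = v * (3 - σ) := ⟨_, rfl⟩
  have h2m : 2 * m = 3 - σ := by rw [hm]; linear_combination (3 - σ) * hv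
  have hm2 : 2 * m ^ 2 = -1 - 3 * σ := by
    apply mul_left_cancel₀ h2O
    linear_combination (2 * m + (3 - σ)) * h2m + hσ
  have hm4 : 2 * m ^ 4 = -49 + 3 * σ := by
    apply mul_left_cancel₀ h2O
    linear_combination (2 * m ^ 2 + (-1 - 3 * σ)) * hm2 + 9 * hσ
  have hm6 : m ^ 6 = 37 + 36 * σ := by
    apply mul_left_cancel₀ h4O
    linear_combination 2 * m ^ 4 * hm2 + (-1 - 3 * σ) * hm4 - 9 * hσ
  have hmr : (SW p).red m ≠ 0 := by
    refine red_ne_mul (y := 3 + σ) (n := 10) ?_ ?_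
    · push_cast; linear_combination (3 + σ) * hm - v * hσ + 10 * hv
    · exact nd [(2, 1), (5, 1)] (by simp; exact ⟨⟨by norm_num, hp2⟩, ⟨by norm_num, hp5'⟩⟩) (by norm_num)
  have hKF : (((4 : ℤ)) : WO p) ≠ 0 := by push_cast; exact h4O
  have hca : 4 * ca (4 * z) = -60 - 12 * σ := by
    simp only [ca]; linear_combination 12 * h8z
  have hcb : 4 * cb (4 * z) = 77 + 28 * σ := by
    simp only [cb]; linear_combination (8 * z + (4 - σ) - 36) * h8z + hσ
  have hF : ev σ ρ I11.Fl = Polynomial.C (((4 : ℤ)) : WO p) * cub (ca (4 * z)) (cb (4 * z)) := by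
    have e1 : Polynomial.C (4 * cb (4 * z)) = Polynomial.C (77 + 28 * σ) := by rw [hcb]
    have e2 : Polynomial.C (4 * ca (4 * z)) = Polynomial.C (-60 - 12 * σ) := by rw [hca]
    simp only [I11.Fl, ev, e4, cub]
    push_cast
    simp only [Polynomial.C_mul, Polynomial.C_add, Polynomial.C_sub, Polynomial.C_neg, map_ofNat, Polynomial.C_1,
      Polynomial.C_0] at e1 e2 ⊢
    linear_combination (-1 : Polynomial (WO p)) * e1 - Polynomial.X * e2
  have hA : e4 σ ρ I11.AM = (((4 : ℤ)) : WO p) * (ca (4 * z) * m ^ 4) := by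
    simp only [I11.AM, e4]
    push_cast
    linear_combination (-(m ^ 4)) * hca + (30 + 6 * σ) * hm4 + 18 * hσ
  have hB : e4 σ ρ I11.BM = (((4 : ℤ)) : WO p) * (cb (4 * z) * m ^ 6) := by
    simp only [I11.BM, e4]
    push_cast
    linear_combination (-(m ^ 6)) * hcb - (77 + 28 * σ) * hm6 - 1008 * hσ
  have hode := I11.ok.ode hσD hρD hKF hF hA hB
  have hh3 : (SW p).red ((ev σ ρ I11.h).eval 3) ≠ 0 := by
    refine red_ne_mul (n := 1620) (I11.ok.unit hσD hρD) ?_
    exact nd [(2, 2), (3, 4), (5, 1)]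
      (by simp; exact ⟨⟨by norm_num, hp2⟩, ⟨by norm_num, hp3⟩, ⟨by norm_num, hp5'⟩⟩) (by norm_num)
  have hlc : (ev σ ρ I11.n).coeff 5 = 100 := by
    rw [ev_coeff]
    simp only [I11.n, List.getD_cons_succ, List.getD_cons_zero, e4]
    push_cast
    ring
  have hlcr : (SW p).red (100 : WO p) ≠ 0 := by
    have := red_int_ne (p := p) (n := 100)
      (nd [(2, 2), (5, 2)] (by simp; exact ⟨⟨by norm_num, hp2⟩, ⟨by norm_num, hp5'⟩⟩) (by norm_num))
    exact_mod_cast this
  have hdn : (ev σ ρ I11.n).natDegree = 5 := by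
    refine le_antisymm (ev_deg σ ρ _ 5 (by decide)) (Polynomial.le_natDegree_of_ne_zero ?_)
    rw [hlc]
    intro h0; rw [h0, map_zero] at hlcr; exact hlcr rfl
  have hpsi : Dat (SW p) (cub (ca (4 * z)) (cb (4 * z))) (ca (4 * z)) (cb (4 * z)) m 5 := by
    refine Dat.of_sq (SW p) (c := 1) hode ?_ hmr ?_ ?_ hdn ?_ (I11.ok.bez hσD hρD) ?_
    · rw [map_one]; exact one_ne_zero
    · intro h0; rw [h0, Polynomial.eval_zero, map_zero] at hh3; exact hh3 rfl
    · rw [hdn]
      have := ev_deg σ ρ I11.h 2 (by decide)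
      omega
    · rw [Polynomial.leadingCoeff, hdn, hlc]; exact hlcr
    · exact red_int_ne (nd [(2, 2), (3, 11), (5, 2)]
        (by simp; exact ⟨⟨by norm_num, hp2⟩, ⟨by norm_num, hp3⟩, ⟨by norm_num, hp5'⟩⟩) (by norm_num))
  -- Frobenius
  have hleg : legendreSym p (-11) = legendreSym 11 p := by
    have := legm' (p := p) (q := 11) (by norm_num) hp2
    exact_mod_cast this
  have hFz := (SW p).frobq (p := p) hp2 (n := 8) (a := 4) (b := -1) (d := -11) (z := z) (σ := σ)
    (by push_cast; linear_combination h8z) hσD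
  have hFm := (SW p).frobq (p := p) hp2 (n := 2) (a := 3) (b := -1) (d := -11) (z := m) (σ := σ)
    (by push_cast; linear_combination h2m) hσD
  rw [hleg] at hFz hFm
  have k8 : (8 : kb p) ≠ 0 := by
    have : (8 : kb p) = 2 * 2 * 2 := by norm_num
    rw [this]; exact mul_ne_zero (mul_ne_zero r2' r2') r2'
  have h8zk : 8 * (SW p).red z = 4 - (SW p).red σ := by
    have := congrArg (SW p).red h8z
    simpa only [map_mul, map_sub, map_ofNat] using this
  have h2mk : 2 * (SW p).red m = 3 - (SW p).red σ := by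
    have := congrArg (SW p).red h2m
    simpa only [map_mul, map_sub, map_ofNat] using this
  have hcop5 : ¬ (p : ℤ) ∣ ((5 : ℕ) : ℤ) := nd [(5, 1)] (by simp; exact ⟨by norm_num, hp5'⟩) (by norm_num)
  have hcop1 : ¬ (p : ℤ) ∣ ((1 : ℕ) : ℤ) := by
    intro h; exact hpz.not_unit (isUnit_of_dvd_one (by exact_mod_cast h))
  have hm0 : m ≠ 0 := by intro h0; rw [h0, map_zero] at hmr; exact hmr rfl
  refine ⟨?_, ?_⟩
  · intro x y hc hxy
    have hp7 : p ≠ 7 := by
      rintro rfl
      have : legendreSym 11 ((7 : ℕ) : ℤ) = -1 := by decide +kernel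
      rw [this] at hc
      norm_num at hc
    have h9 : 9 ≤ p := by
      have h6 : p ≠ 6 := by rintro rfl; exact absurd hp.out (by norm_num)
      have h8 : p ≠ 8 := by rintro rfl; exact absurd hp.out (by norm_num)
      omega
    rw [hc] at hFz
    push_cast at hFz
    have hz' : (SW p).red z = (SW p).red z ^ p := by
      apply mul_left_cancel₀ k8
      linear_combination h8zk - hFz
    have ha0 : (SW p).red (ca (4 * z)) ≠ 0 := by
      refine red_ne_mul (y := 4 * (-60 + 12 * σ)) (n := 5184) ?_ ?_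
      · push_cast
        linear_combination (-60 + 12 * σ) * hca - 144 * hσ
      · exact nd [(2, 6), (3, 4)] (by simp; exact ⟨⟨by norm_num, hp2⟩, ⟨by norm_num, hp3⟩⟩) (by norm_num)
    have hb0 : (SW p).red (cb (4 * z)) ≠ 0 := by
      refine red_ne_mul (y := 4 * (77 - 28 * σ)) (n := 14553) ?_ ?_
      · push_cast
        linear_combination (77 - 28 * σ) * hcb - 784 * hσ
      · exact nd [(3, 3), (7, 2), (11, 1)]
          (by simp; exact ⟨⟨by norm_num, hp3⟩, ⟨by norm_num, hp7⟩, ⟨by norm_num, h11⟩⟩) (by norm_num)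
    obtain ⟨r, hr⟩ : ∃ r, x = 2 * r + 3 * y := by
      have h2 : (x - 3 * y) % 2 = 0 := by
        rcases Int.even_or_odd' x with ⟨a, ha | ha⟩ <;> rcases Int.even_or_odd' y with ⟨b, hb | hb⟩
        · omega
        · exfalso
          rw [ha, hb] at hxy
          ring_nf at hxy
          omega
        · exfalso
          rw [ha, hb] at hxy
          ring_nf at hxy
          omega
        · omega
      exact ⟨(x - 3 * y) / 2, by omega⟩
    have := sum_form_half (SW p) hp5 (SW_q p) (z := z) (z' := z) (M := 64) hM hMz hzr hz1r hz'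
      ha0 hb0 one_ne_zero hm0 (Dat.id (SW p) _ _) hpsi
      (κ := -σ) (e := 3) (D' := 11) (c := 1) (by norm_num) (by push_cast; ring)
      (by push_cast; linear_combination h2m) (by push_cast; linear_combination hσ)
      (by norm_num) x y r (by rw [hxy]; push_cast; ring) hr hcop1 hcop5 (by norm_num) (by nlinarith) hwi
    rw [this]
    congr 1
    push_cast
    ring
  · intro hc
    refine sum_end_zero (SW p) hp5 (SW_q p) (m := m) (c := 1) (M := 64) hMz hzr hz1r
      (n := ev σ ρ I11.n) (h := ev σ ρ I11.h) hode hmr ?_ hh3 ?_ ?_ hwi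
    · rw [map_one]; exact one_ne_zero
    · have h3 := I11.ok.three hσD hρD
      apply mul_left_cancel₀ h2O
      rw [h3]
      simp only [I11.m2, e4]
      push_cast
      linear_combination (-3 * ((ev σ ρ I11.h).eval 3) ^ 2) * hm2
    · intro he
      rw [hc] at hFm
      push_cast at hFm
      have hσ0 : (SW p).red σ = 0 := by
        apply mul_left_cancel₀ r2'
        linear_combination h2mk - hFm - 2 * he
      have hσr : (SW p).red σ ≠ 0 := by
        refine red_ne_mul (y := σ) (n := -11) ?_ nm11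
        push_cast; linear_combination hσ
      exact hσr hσ0

end t11

end Pool.Agent.H546
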