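import Pool.Agent.H546.Util

set_option autoImplicit false

/-!
# Two small primes
-/

namespace Pool.Agent.H546

open Finset
open Pool.Agent.Q267.MW (u3)

theorem t11_3 (wi : ZMod (3 ^ 2)) (hwi : ((64 : ℤ) : ZMod (3 ^ 2)) * wi = 1) :
    ∑ k ∈ range 3, (k.centralBinom : ZMod (3 ^ 2)) * ((u3 k : ℕ) : ZMod (3 ^ 2)) * wi ^ k = ((-5 : ℤ) : ZMod (3 ^ 2)) := by
  have h : wi = 1 := by
    have e : (64 * 1 : ZMod (3 ^ 2)) = 1 := by decide
    push_cast at hwi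
    linear_combination 1 * hwi - wi * e
  subst h
  have h0 : ∀ k ∈ range 3, ((k.centralBinom : ZMod (3 ^ 2)) * ((u3 k : ℕ) : ZMod (3 ^ 2)) * 1 ^ k) =
    (((k.centralBinom * u3 k * 1 ^ k : ℕ)) : ZMod (3 ^ 2)) := by intro k _; push_cast; rfl
  rw [sum_congr rfl h0, ← Nat.cast_sum]
  have : (∑ k ∈ range 3, k.centralBinom * u3 k * 1 ^ k) % 9 = 4 % 9 := by
    simp only [sum_range_succ, sum_range_zero, u3, Nat.centralBinom]
    norm_num [Nat.choose]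
  have h2 := (ZMod.natCast_eq_natCast_iff' (∑ k ∈ range 3, k.centralBinom * u3 k * 1 ^ k) 4 (3 ^ 2)).mpr (by
    norm_num only at this ⊢; exact this)
  rw [h2]; rfl

theorem t11_5 (wi : ZMod (5 ^ 2)) (hwi : ((64 : ℤ) : ZMod (5 ^ 2)) * wi = 1) :
    ∑ k ∈ range 5, (k.centralBinom : ZMod (5 ^ 2)) * ((u3 k : ℕ) : ZMod (5 ^ 2)) * wi ^ k = ((-1 : ℤ) : ZMod (5 ^ 2)) := by
  have h : wi = 9 := by
    have e : (64 * 9 : ZMod (5 ^ 2)) = 1 := by decide
    push_cast at hwi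
    linear_combination 9 * hwi - wi * e
  subst h
  have h0 : ∀ k ∈ range 5, ((k.centralBinom : ZMod (5 ^ 2)) * ((u3 k : ℕ) : ZMod (5 ^ 2)) * 9 ^ k) =
    (((k.centralBinom * u3 k * 9 ^ k : ℕ)) : ZMod (5 ^ 2)) := by intro k _; push_cast; rfl
  rw [sum_congr rfl h0, ← Nat.cast_sum]
  have : (∑ k ∈ range 5, k.centralBinom * u3 k * 9 ^ k) % 25 = 24 % 25 := by
    simp only [sum_range_succ, sum_range_zero, u3, Nat.centralBinom]
    norm_num [Nat.choose]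
  have h2 := (ZMod.natCast_eq_natCast_iff' (∑ k ∈ range 5, k.centralBinom * u3 k * 9 ^ k) 24 (5 ^ 2)).mpr (by
    norm_num only at this ⊢; exact this)
  rw [h2]; rfl

end Pool.Agent.H546
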