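import Pool.Agent.H546.Util
import Pool.Agent.H546.Hasse
import Pool.Agent.H546.QCM
import Pool.Agent.H546.I123

set_option autoImplicit false
set_option maxHeartbeats 4000000

/-!
# The sum with `(-48)³`
-/

namespace Pool.Agent.H546

open Finset
open Pool.Agent.Q267.CDE (R)
open Pool.Agent.Q267.MW (u3)

section t123

local instance fact41' : Fact (Nat.Prime 41) := ⟨by norm_num⟩

variable (p : ℕ) [hp : Fact p.Prime]

theorem t123_main (h3 : 3 < p) (h11 : p ≠ 11) (h41 : p ≠ 41) {wi : R p}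
    (hwi : ((-110592 : ℤ) : R p) * wi = 1) :
    (∀ x y : ℤ, 23 ≤ p → p % 3 = 1 → legendreSym 41 p = 1 → 4 * (p : ℤ) = x ^ 2 + 123 * y ^ 2 →
      ∑ k ∈ range p, (k.centralBinom : R p) * ((u3 k : ℕ) : R p) * wi ^ k = ((x ^ 2 - 2 * p : ℤ) : R p)) ∧
    (∀ x y : ℤ, 23 ≤ p → p % 3 = 2 → legendreSym 41 p = -1 → 4 * (p : ℤ) = 3 * x ^ 2 + 41 * y ^ 2 →
      ∑ k ∈ range p, (k.centralBinom : R p) * ((u3 k : ℕ) : R p) * wi ^ k = ((2 * p - 3 * x ^ 2 : ℤ) : R p)) ∧
    ((p % 3 = 1 ∧ legendreSym 41 p = -1) ∨ (p % 3 = 2 ∧ legendreSym 41 p = 1) →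
      ∑ k ∈ range p, (k.centralBinom : R p) * ((u3 k : ℕ) : R p) * wi ^ k = 0) := by
  have hp2 : p ≠ 2 := by omega
  have hp3 : p ≠ 3 := by omega
  have hp5 : 5 ≤ p := by
    have : p ≠ 4 := by rintro rfl; exact absurd hp.out (by norm_num)
    omega
  have nd : ∀ {n : ℤ} (l : List (ℕ × ℕ)), (∀ q ∈ l, q.1.Prime ∧ p ≠ q.1) →
      n.natAbs = (l.map fun q => q.1 ^ q.2).prod → ¬ (p : ℤ) ∣ n := fun l hl hn => ndvd_fac l hl hn
  have n2 : ¬ (p : ℤ) ∣ 2 := nd [(2, 1)] (by simp; exact ⟨by norm_num, hp2⟩) (by norm_num)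
  have n3 : ¬ (p : ℤ) ∣ 3 := nd [(3, 1)] (by simp; exact ⟨by norm_num, hp3⟩) (by norm_num)
  have n11 : ¬ (p : ℤ) ∣ 11 := nd [(11, 1)] (by simp; exact ⟨by norm_num, h11⟩) (by norm_num)
  have n41 : ¬ (p : ℤ) ∣ 41 := nd [(41, 1)] (by simp; exact ⟨by norm_num, h41⟩) (by norm_num)
  have hpz : Prime (p : ℤ) := Nat.prime_iff_prime_int.mp hp.out
  have r2 := red_int_ne n2
  have r3 := red_int_ne n3
  rw [Int.cast_ofNat] at r2 r3
  have r2' : (2 : kb p) ≠ 0 := by rw [map_ofNat] at r2; exact r2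
  have r3' : (3 : kb p) ≠ 0 := by rw [map_ofNat] at r3; exact r3
  obtain ⟨v, hv⟩ := ((SW p).unit_of_red r2).exists_right_inv
  obtain ⟨σ, hσ⟩ := wo_isqrt p hp2 n41
  obtain ⟨ρ, hρ⟩ := wo_isqrt p hp2 (d := -3) (by rwa [dvd_neg])
  have hσD : σ ^ 2 = ((41 : ℤ) : WO p) := hσ
  have hρD : ρ ^ 2 = ((-3 : ℤ) : WO p) := hρ
  push_cast at hσ hρ
  have h2O : (2 : WO p) ≠ 0 := by intro h0; rw [h0, map_zero] at r2; exact r2 rfl
  have h4O : (4 : WO p) ≠ 0 := by
    have : (4 : WO p) = 2 * 2 := by norm_num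
    rw [this]; exact mul_ne_zero h2O h2O
  have h64O : (64 : WO p) ≠ 0 := by
    have : (64 : WO p) = 4 * 4 * 4 := by norm_num
    rw [this]; exact mul_ne_zero (mul_ne_zero h4O h4O) h4O
  obtain ⟨z, hz⟩ : ∃ z, z = v * (1 - 5 * σ * v ^ 5) := ⟨_, rfl⟩
  have h32v : 32 * v ^ 5 = 1 := by
    linear_combination (16 * v ^ 4 + 8 * v ^ 3 + 4 * v ^ 2 + 2 * v + 1) * hv
  have h64z : 64 * z = 32 - 5 * σ := by
    rw [hz]
    linear_combination (32 - 5 * σ * (32 * v ^ 5)) * hv - 5 * σ * h32v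
  have h64z1 : 64 * (1 - z) = 32 + 5 * σ := by linear_combination -h64z
  have hMz : ((-110592 : ℤ) : WO p) * (z * (1 - z)) = 27 := by
    apply mul_left_cancel₀ h64O
    apply mul_left_cancel₀ h64O
    push_cast
    linear_combination (-110592 * (64 * (1 - z))) * h64z - 110592 * (32 - 5 * σ) * h64z1 + 110592 * 25 * hσ
  have hzr : (SW p).red z ≠ 0 := by
    refine red_ne_mul (y := -110592 * (1 - z)) (n := 27) ?_ ?_
    · push_cast at hMz ⊢; linear_combination hMz
    · exact nd [(3, 3)] (by simp; exact ⟨by norm_num, hp3⟩) (by norm_num)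
  have hz1r : (SW p).red (1 - z) ≠ 0 := by
    refine red_ne_mul (y := -110592 * z) (n := 27) ?_ ?_
    · push_cast at hMz ⊢; linear_combination hMz
    · exact nd [(3, 3)] (by simp; exact ⟨by norm_num, hp3⟩) (by norm_num)
  have hM : ¬ (p : ℤ) ∣ -110592 :=
    nd [(2, 12), (3, 3)] (by simp; exact ⟨⟨by norm_num, hp2⟩, ⟨by norm_num, hp3⟩⟩) (by norm_num)
  -- the multiplier
  obtain ⟨m, hm⟩ : ∃ m, m = v * (σ - ρ) := ⟨_, rfl⟩
  have h2m : 2 * m = σ - ρ := by rw [hm]; linear_combination (σ - ρ) * hv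
  have hm2 : 2 * m ^ 2 = 19 - σ * ρ := by
    apply mul_left_cancel₀ h2O
    linear_combination (2 * m + (σ - ρ)) * h2m + hσ + hρ
  have hm4 : 2 * m ^ 4 = 119 - 19 * (σ * ρ) := by
    apply mul_left_cancel₀ h2O
    linear_combination (2 * m ^ 2 + (19 - σ * ρ)) * hm2 + σ ^ 2 * hρ - 3 * hσ
  have hm6 : m ^ 6 = -19 - 120 * (σ * ρ) := by
    apply mul_left_cancel₀ h4O
    linear_combination 2 * m ^ 4 * hm2 + (19 - σ * ρ) * hm4 + 19 * σ ^ 2 * hρ - 57 * hσ
  have hmr : (SW p).red m ≠ 0 := by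
    refine red_ne_mul (y := σ + ρ) (n := 22) ?_ ?_
    · push_cast; linear_combination (σ + ρ) * hm + v * hσ - v * hρ + 22 * hv
    · exact nd [(2, 1), (11, 1)] (by simp; exact ⟨⟨by norm_num, hp2⟩, ⟨by norm_num, h11⟩⟩) (by norm_num)
  have hKF : (((256 : ℤ)) : WO p) ≠ 0 := by
    push_cast
    have : (256 : WO p) = 4 * 4 * 4 * 4 := by norm_num
    rw [this]; exact mul_ne_zero (mul_ne_zero (mul_ne_zero h4O h4O) h4O) h4O
  have hca : 64 * ca (4 * z) = -960 - 120 * σ := by
    simp only [ca]; linear_combination 24 * h64z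
  have hca1 : 64 * ca (4 * (1 - z)) = -960 + 120 * σ := by
    simp only [ca]; linear_combination 24 * h64z1
  have hcb : 256 * cb (4 * z) = 6657 + 1120 * σ := by
    apply mul_left_cancel₀ h4O
    apply mul_left_cancel₀ h4O
    simp only [cb]
    linear_combination (16 * (64 * z) + 16 * (32 - 5 * σ) - 4608) * h64z + 400 * hσ
  have hcb1 : 256 * cb (4 * (1 - z)) = 6657 - 1120 * σ := by
    apply mul_left_cancel₀ h4O
    apply mul_left_cancel₀ h4O
    simp only [cb]
    linear_combination (16 * (64 * (1 - z)) + 16 * (32 + 5 * σ) - 4608) * h64z1 + 400 * hσ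
  have hF : ev σ ρ I123.Fl = Polynomial.C (((256 : ℤ)) : WO p) * cub (ca (4 * z)) (cb (4 * z)) := by
    have e1 : Polynomial.C (256 * cb (4 * z)) = Polynomial.C (6657 + 1120 * σ) := by rw [hcb]
    have e2 : Polynomial.C (256 * ca (4 * z)) = Polynomial.C (-3840 - 480 * σ) := by
      have : 256 * ca (4 * z) = -3840 - 480 * σ := by linear_combination 4 * hca
      rw [this]
    simp only [I123.Fl, ev, e4, cub]
    push_cast
    simp only [Polynomial.C_mul, Polynomial.C_add, Polynomial.C_sub, Polynomial.C_neg, map_ofNat, Polynomial.C_1,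
      Polynomial.C_0] at e1 e2 ⊢
    linear_combination (-1 : Polynomial (WO p)) * e1 - Polynomial.X * e2
  have hA : e4 σ ρ I123.AM = (((256 : ℤ)) : WO p) * (ca (4 * (1 - z)) * m ^ 4) := by
    simp only [I123.AM, e4]
    push_cast
    linear_combination (-(4 * m ^ 4)) * hca1 - 2 * (-960 + 120 * σ) * hm4 + 4560 * ρ * hσ
  have hB : e4 σ ρ I123.BM = (((256 : ℤ)) : WO p) * (cb (4 * (1 - z)) * m ^ 6) := by
    simp only [I123.BM, e4]
    push_cast
    linear_combination (-(m ^ 6)) * hcb1 - (6657 - 1120 * σ) * hm6 - 134400 * ρ * hσ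
  have hode := I123.ok.ode hσD hρD hKF hF hA hB
  have hh3 : (SW p).red ((ev σ ρ I123.h).eval 3) ≠ 0 := by
    refine red_ne_mul (n := 176) (I123.ok.unit hσD hρD) ?_
    exact nd [(2, 4), (11, 1)] (by simp; exact ⟨⟨by norm_num, hp2⟩, ⟨by norm_num, h11⟩⟩) (by norm_num)
  have hlc : (ev σ ρ I123.n).coeff 11 = 2030043136 := by
    rw [ev_coeff]
    simp only [I123.n, List.getD_cons_succ, List.getD_cons_zero, e4]
    push_cast
    ring
  have hlcr : (SW p).red (2030043136 : WO p) ≠ 0 := by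
    have := red_int_ne (p := p) (n := 2030043136)
      (nd [(2, 24), (11, 2)] (by simp; exact ⟨⟨by norm_num, hp2⟩, ⟨by norm_num, h11⟩⟩) (by norm_num))
    exact_mod_cast this
  have hdn : (ev σ ρ I123.n).natDegree = 11 := by
    refine le_antisymm (ev_deg σ ρ _ 11 (by decide)) (Polynomial.le_natDegree_of_ne_zero ?_)
    rw [hlc]
    intro h0; rw [h0, map_zero] at hlcr; exact hlcr rfl
  have hpsi : Dat (SW p) (cub (ca (4 * z)) (cb (4 * z))) (ca (4 * (1 - z))) (cb (4 * (1 - z))) m 11 := by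
    refine Dat.of_sq (SW p) (c := 1) hode ?_ hmr ?_ ?_ hdn ?_ (I123.ok.bez hσD hρD) ?_
    · rw [map_one]; exact one_ne_zero
    · intro h0; rw [h0, Polynomial.eval_zero, map_zero] at hh3; exact hh3 rfl
    · rw [hdn]
      have := ev_deg σ ρ I123.h 5 (by decide)
      omega
    · rw [Polynomial.leadingCoeff, hdn, hlc]; exact hlcr
    · exact red_int_ne (nd [(2, 4), (3, 8), (11, 2)]
        (by simp; exact ⟨⟨by norm_num, hp2⟩, ⟨by norm_num, hp3⟩, ⟨by norm_num, h11⟩⟩) (by norm_num))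
  -- Frobenius
  set F := frobenius (kb p) p with hFdef
  have hFσ : F ((SW p).red σ) = (legendreSym p 41 : kb p) * (SW p).red σ := by
    refine frob_sqrt hp2 (d := 41) ?_
    rw [← map_pow, hσ]; push_cast; exact map_ofNat _ _
  have hFρ : F ((SW p).red ρ) = (legendreSym p (-3) : kb p) * (SW p).red ρ := by
    refine frob_sqrt hp2 (d := -3) ?_
    rw [← map_pow, hρ]; push_cast; rw [map_neg, map_ofNat]
  have hrec : legendreSym p 41 = legendreSym 41 p := by
    have := leg_rec (p := p) (q := 41) (by norm_num) hp2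
    exact_mod_cast this
  rw [hrec] at hFσ
  rw [legm3 hp2 hp3] at hFρ
  have hFv : F ((SW p).red v) = (SW p).red v := by
    have h1 : (2 : kb p) * (SW p).red v = 1 := by
      have := congrArg (SW p).red hv
      rwa [map_mul, map_ofNat, map_one] at this
    have h2 := congrArg F h1
    rw [map_mul, map_ofNat, map_one] at h2
    apply mul_left_cancel₀ r2'
    rw [h1, h2]
  have hzred : (SW p).red z = (SW p).red v * (1 - 5 * (SW p).red σ * (SW p).red v ^ 5) := by
    rw [hz, map_mul, map_sub, map_one, map_mul, map_mul, map_pow, map_ofNat]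
  have hFz : (SW p).red z ^ p = (SW p).red v * (1 - 5 * F ((SW p).red σ) * (SW p).red v ^ 5) := by
    have h1 : (SW p).red z ^ p = F ((SW p).red z) := rfl
    rw [h1, hzred, map_mul, hFv, map_sub, map_one, map_mul, map_mul, map_pow, hFv, map_ofNat]
  have hcl : (p % 3 = 1 ∧ legendreSym 41 p = 1) ∨ (p % 3 = 2 ∧ legendreSym 41 p = -1) →
      p ≠ 5 ∧ p ≠ 7 ∧ p ≠ 23 ∧ p ≠ 59 ∧ p ≠ 107 := by
    intro hc
    refine ⟨?_, ?_, ?_, ?_, ?_⟩
    · rintro rfl
      have : legendreSym 41 ((5 : ℕ) : ℤ) = 1 := by decide +kernel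
      rw [this] at hc
      omega
    · rintro rfl
      have : legendreSym 41 ((7 : ℕ) : ℤ) = -1 := by decide +kernel
      rw [this] at hc
      omega
    · rintro rfl
      have : legendreSym 41 ((23 : ℕ) : ℤ) = 1 := by decide +kernel
      rw [this] at hc
      omega
    · rintro rfl
      have : legendreSym 41 ((59 : ℕ) : ℤ) = 1 := by decide +kernel
      rw [this] at hc
      omega
    · rintro rfl
      have : legendreSym 41 ((107 : ℕ) : ℤ) = 1 := by decide +kernel
      rw [this] at hc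
      omega
  have ha0 : p ≠ 5 ∧ p ≠ 7 ∧ p ≠ 23 ∧ p ≠ 59 ∧ p ≠ 107 → (SW p).red (ca (4 * z)) ≠ 0 := by
    intro hc
    refine red_ne_mul (y := 4096 * ca (4 * (1 - z))) (n := 331200) ?_ ?_
    · push_cast
      linear_combination (64 * ca (4 * (1 - z))) * hca + (-960 - 120 * σ) * hca1 - 14400 * hσ
    · exact nd [(2, 6), (3, 2), (5, 2), (23, 1)] (by
        simp
        exact ⟨⟨by norm_num, hp2⟩, ⟨by norm_num, hp3⟩, ⟨by norm_num, hc.1⟩, ⟨by norm_num, hc.2.2.1⟩⟩)
        (by norm_num)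
  have hb0 : p ≠ 5 ∧ p ≠ 7 ∧ p ≠ 23 ∧ p ≠ 59 ∧ p ≠ 107 → (SW p).red (cb (4 * z)) ≠ 0 := by
    intro hc
    refine red_ne_mul (y := 65536 * cb (4 * (1 - z))) (n := -7114751) ?_ ?_
    · push_cast
      linear_combination (256 * cb (4 * (1 - z))) * hcb + (6657 + 1120 * σ) * hcb1 - 1254400 * hσ
    · exact nd [(7, 2), (23, 1), (59, 1), (107, 1)] (by
        simp
        exact ⟨⟨by norm_num, hc.2.1⟩, ⟨by norm_num, hc.2.2.1⟩, ⟨by norm_num, hc.2.2.2.1⟩,
          ⟨by norm_num, hc.2.2.2.2⟩⟩) (by norm_num)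
  have hcop33 : ¬ (p : ℤ) ∣ ((3 * 11 : ℕ) : ℤ) :=
    nd [(3, 1), (11, 1)] (by simp; exact ⟨⟨by norm_num, hp3⟩, ⟨by norm_num, h11⟩⟩) (by norm_num)
  have hcop1 : ¬ (p : ℤ) ∣ ((1 : ℕ) : ℤ) := by
    intro h; exact hpz.not_unit (isUnit_of_dvd_one (by exact_mod_cast h))
  have h4r : (SW p).red (4 * z) ≠ 0 ∧ (SW p).red (4 * (1 - z)) ≠ 0 := by
    have h4 : (SW p).red 4 ≠ 0 := by
      have := red_int_ne (p := p) (n := 4) (nd [(2, 2)] (by simp; exact ⟨by norm_num, hp2⟩) (by norm_num))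
      exact_mod_cast this
    rw [map_mul, map_mul]
    exact ⟨mul_ne_zero h4 hzr, mul_ne_zero h4 hz1r⟩
  have hm0 : m ≠ 0 := by intro h0; rw [h0, map_zero] at hmr; exact hmr rfl
  have hρ0 : ρ ≠ 0 := by
    intro h0
    rw [h0] at hρ
    apply r3
    have : (3 : WO p) = 0 := by linear_combination hρ
    rw [this, map_zero]
  refine ⟨?_, ?_, ?_⟩
  · intro x y h16 hc3 hc41 hxy
    have hz' : (SW p).red z = (SW p).red z ^ p := by
      rw [hFz, hFσ, hc41, hzred]; push_cast; ring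
    have d2 := Dat.nu (SW p) (r := ρ) hpsi r2' r3' h4r.2 hρ
    have e4' : 4 - 4 * (1 - z) = 4 * z := by ring
    rw [e4'] at d2
    obtain ⟨r, hr⟩ : ∃ r, x = 2 * r + 3 * y := by
      have h2 : (x - 3 * y) % 2 = 0 := by
        rcases Int.even_or_odd' x with ⟨a, ha | ha⟩ <;> rcases Int.even_or_odd' y with ⟨b, hb | hb⟩
        · omega
        · exfalso
          rw [ha, hb] at hxy
          ring_nf at hxy
          omega
        · exfalso
          rw [ha, hb] at hxy
          ring_nf at hxy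
          omega
        · omega
      exact ⟨(x - 3 * y) / 2, by omega⟩
    have := sum_form_half (SW p) hp5 (SW_q p) (z := z) (z' := z) (M := -110592) hM hMz hzr hz1r hz'
      (ha0 (hcl (Or.inl ⟨hc3, hc41⟩)))
      (hb0 (hcl (Or.inl ⟨hc3, hc41⟩))) one_ne_zero (mul_ne_zero hm0 hρ0) (Dat.id (SW p) _ _) d2
      (κ := σ * ρ) (e := 3) (D' := 123) (c := 1) (by norm_num) (by push_cast; ring)
      (by push_cast; linear_combination ρ * h2m - hρ) (by push_cast; linear_combination ρ ^ 2 * hσ + 41 * hρ)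
      (by norm_num) x y r (by rw [hxy]; push_cast; ring) hr hcop1 hcop33 (by norm_num) (by nlinarith) hwi
    rw [this]
    congr 1
    push_cast
    ring
  · intro x y h16 hc3 hc41 hxy
    have hz' : (SW p).red (1 - z) = (SW p).red z ^ p := by
      have h1 : 1 - z = v * (1 + 5 * σ * v ^ 5) := by rw [hz]; linear_combination -hv
      rw [hFz, hFσ, hc41, h1, map_mul, map_add, map_one, map_mul, map_mul, map_pow, map_ofNat]; push_cast; ring
    have d1 := Dat.nu (SW p) (r := ρ) (Dat.id (SW p) (ca (4 * z)) (cb (4 * z))) r2' r3' h4r.1 hρ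
    have e4' : 4 - 4 * z = 4 * (1 - z) := by ring
    rw [e4'] at d1
    obtain ⟨r, hr⟩ : ∃ r, x = 2 * r + (-1) * y := by
      have h2 : (x + y) % 2 = 0 := by
        rcases Int.even_or_odd' x with ⟨a, ha | ha⟩ <;> rcases Int.even_or_odd' y with ⟨b, hb | hb⟩
        · omega
        · exfalso
          rw [ha, hb] at hxy
          ring_nf at hxy
          omega
        · exfalso
          rw [ha, hb] at hxy
          ring_nf at hxy
          omega
        · omega
      exact ⟨(x + y) / 2, by omega⟩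
    have := sum_form_half (SW p) hp5 (SW_q p) (z := z) (z' := 1 - z) (M := -110592) hM hMz hzr hz1r hz'
      (ha0 (hcl (Or.inr ⟨hc3, hc41⟩)))
      (hb0 (hcl (Or.inr ⟨hc3, hc41⟩))) (mul_ne_zero one_ne_zero hρ0) hm0 d1 hpsi
      (κ := σ) (e := -1) (D' := 41) (c := -1) (by norm_num) (by push_cast; linear_combination hρ)
      (by push_cast; linear_combination h2m) (by push_cast; linear_combination hσ)
      (by norm_num) x y r (by rw [hxy]; push_cast; ring) hr (by exact_mod_cast n3) (by exact_mod_cast n11)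
      (by norm_num) (by nlinarith) hwi
    rw [this]
    congr 1
    push_cast
    ring
  · intro hc
    refine sum_form_zero (SW p) hp5 (SW_q p) (m := m) (c := 1) (M := -110592) hMz hz1r
      (n := ev σ ρ I123.n) (h := ev σ ρ I123.h) hode hmr ?_ hh3 ?_ ?_ hwi
    · rw [map_one]; exact one_ne_zero
    · have h3 := I123.ok.three hσD hρD
      apply mul_left_cancel₀ h2O
      rw [h3]
      simp only [I123.m2, e4]
      push_cast
      linear_combination (-3 * ((ev σ ρ I123.h).eval 3) ^ 2) * hm2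
    · have hmm : (SW p).red m = (SW p).red v * ((SW p).red σ - (SW p).red ρ) := by
        rw [hm, map_mul, map_sub]
      have hFm : (SW p).red m ^ p = (SW p).red v * (F ((SW p).red σ) - F ((SW p).red ρ)) := by
        have h1 : (SW p).red m ^ p = F ((SW p).red m) := rfl
        rw [h1, hmm, map_mul, hFv, map_sub]
      have hσr : (SW p).red σ ≠ 0 := by
        refine red_ne_mul (y := σ) (n := 41) ?_ n41
        push_cast; linear_combination hσ
      have hvv : 2 * (SW p).red v = 1 := by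
        have := congrArg (SW p).red hv
        rwa [map_mul, map_ofNat, map_one] at this
      rw [hFm, par3 (by omega) hp2, hFσ, hFρ, hmm]
      rcases hc with ⟨h, h'⟩ | ⟨h, h'⟩
      · rw [if_pos h, if_pos h, h']
        intro h0; apply hσr; push_cast at h0
        linear_combination h0 - (SW p).red σ * hvv
      · rw [if_neg (by omega), if_neg (by omega), h']
        intro h0; apply hσr; push_cast at h0
        linear_combination h0 - (SW p).red σ * hvv

end t123

end Pool.Agent.H546
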