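import Pool.Agent.H546.Util
import Pool.Agent.H546.UtilH
import Pool.Agent.H546.Hasse
import Pool.Agent.H546.QCM
import Pool.Agent.H546.SV

set_option autoImplicit false
set_option maxHeartbeats 4000000

/-!
# The cubic sum with denominator `-8640` (discriminant `-75`)
-/

namespace Pool.Agent.H546

open Finset
open Pool.Agent.Q267.CDE (R)
open Pool.Agent.Q267.MW (u3)

variable (p : ℕ) [hp : Fact p.Prime]

theorem t75_main (h7 : 7 < p) {wi : R p} (hwi : ((-8640 : ℤ) : R p) * wi = 1) :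
    (∀ x y : ℤ, 18 < p → p % 3 = 1 → 4 * (p : ℤ) = x ^ 2 + 75 * y ^ 2 →
      ∑ k ∈ range p, (k.centralBinom : R p) * ((u3 k : ℕ) : R p) * wi ^ k = ((x ^ 2 - 2 * p : ℤ) : R p)) ∧
    (∀ x y : ℤ, 18 < p → p % 3 = 1 → 4 * (p : ℤ) = 3 * x ^ 2 + 25 * y ^ 2 →
      ∑ k ∈ range p, (k.centralBinom : R p) * ((u3 k : ℕ) : R p) * wi ^ k = ((2 * p - 3 * x ^ 2 : ℤ) : R p)) ∧
    (p % 3 = 2 →
      ∑ k ∈ range p, (k.centralBinom : R p) * ((u3 k : ℕ) : R p) * wi ^ k = 0) := by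
  have hp2 : p ≠ 2 := by omega
  have hp3 : p ≠ 3 := by omega
  have hp5' : p ≠ 5 := by omega
  have hp7 : p ≠ 7 := by omega
  have hp5 : 5 ≤ p := by omega
  have nd : ∀ {n : ℤ} (l : List (ℕ × ℕ)), (∀ q ∈ l, q.1.Prime ∧ p ≠ q.1) →
      n.natAbs = (l.map fun q => q.1 ^ q.2).prod → ¬ (p : ℤ) ∣ n := fun l hl hn => ndvd_fac l hl hn
  have n3 : ¬ (p : ℤ) ∣ ((3 : ℕ) : ℤ) := nd [(3, 1)] (by simp; exact ⟨by norm_num, hp3⟩) (by norm_num)
  have n7 : ¬ (p : ℤ) ∣ ((7 : ℕ) : ℤ) := nd [(7, 1)] (by simp; exact ⟨by norm_num, hp7⟩) (by norm_num)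
  have n5 : ¬ (p : ℤ) ∣ 5 := nd [(5, 1)] (by simp; exact ⟨by norm_num, hp5'⟩) (by norm_num)
  have n21 : ¬ (p : ℤ) ∣ ((3 * 7 : ℕ) : ℤ) :=
    nd [(3, 1), (7, 1)] (by simp; exact ⟨⟨by norm_num, hp3⟩, ⟨by norm_num, hp7⟩⟩) (by norm_num)
  have nm3 : ¬ (p : ℤ) ∣ -3 := nd [(3, 1)] (by simp; exact ⟨by norm_num, hp3⟩) (by norm_num)
  have hpz : Prime (p : ℤ) := Nat.prime_iff_prime_int.mp hp.out
  have hcop1 : ¬ (p : ℤ) ∣ ((1 : ℕ) : ℤ) := by
    intro h; exact hpz.not_unit (isUnit_of_dvd_one (by exact_mod_cast h))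
  have r2 : (SW p).red 2 ≠ 0 := (SW p).two_ne (p := p) hp2
  have r2' : (2 : kb p) ≠ 0 := by rw [map_ofNat] at r2; exact r2
  have r3 : (SW p).red 3 ≠ 0 := (SW p).three_ne (p := p) hp3
  have r3' : (3 : kb p) ≠ 0 := by rw [map_ofNat] at r3; exact r3
  obtain ⟨v, hv⟩ := ((SW p).unit_of_red r2).exists_right_inv
  have r5 : (SW p).red (5 : WO p) ≠ 0 := by
    have := (SW p).int_ne (p := p) n5
    exact_mod_cast this
  obtain ⟨w, hw⟩ := ((SW p).unit_of_red r5).exists_right_inv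
  obtain ⟨σ, hσ⟩ := wo_isqrt p hp2 (d := 5) n5
  obtain ⟨ρ, hρ⟩ := wo_isqrt p hp2 nm3
  push_cast at hσ hρ
  have h2O : (2 : WO p) ≠ 0 := by intro h0; rw [h0, map_zero] at r2; exact r2 rfl
  have h5O : (5 : WO p) ≠ 0 := by intro h0; rw [h0, map_zero] at r5; exact r5 rfl
  have h40O : (40 : WO p) ≠ 0 := by
    have : (40 : WO p) = 2 * 2 * 2 * 5 := by norm_num
    rw [this]; exact mul_ne_zero (mul_ne_zero (mul_ne_zero h2O h2O) h2O) h5O
  have h40v : 40 * (v ^ 3 * w) = 1 := by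
    linear_combination (5 * w) * (4 * v ^ 2 + 2 * v + 1) * hv + hw
  obtain ⟨z, hz⟩ : ∃ z, z = v ^ 3 * w * (20 - 9 * σ) := ⟨_, rfl⟩
  have hz40 : 40 * z = 20 - 9 * σ := by rw [hz]; linear_combination (20 - 9 * σ) * h40v
  obtain ⟨t, ht⟩ : ∃ t, t = -(v ^ 4 * w) := ⟨_, rfl⟩
  have ht80 : 80 * t = -1 := by rw [ht]; linear_combination (-(40 * (v ^ 3 * w))) * hv - h40v
  obtain ⟨htz, hzr, hz1r, hxr, fr1, fr2⟩ := sv_z (SW p) (p := p) h7 hσ hz40 ht80
  have hMz : ((-8640 : ℤ) : WO p) * (z * (1 - z)) = 27 := by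
    push_cast
    linear_combination (-2160) * htz - 27 * ht80
  have hM : ¬ (p : ℤ) ∣ -8640 := nd [(2, 6), (3, 3), (5, 1)]
    (by simp; exact ⟨⟨by norm_num, hp2⟩, ⟨by norm_num, hp3⟩, ⟨by norm_num, hp5'⟩⟩) (by norm_num)
  obtain ⟨μ, hμ⟩ : ∃ μ, μ = v * (5 - ρ) := ⟨_, rfl⟩
  have hμ2 : 2 * μ = 5 - ρ := by rw [hμ]; linear_combination (5 - ρ) * hv
  have hpsi := sv_psi (SW p) (p := p) h7 hσ hρ hz40 hμ2
  have hμr : (SW p).red μ ≠ 0 := by
    refine (SW p).ne_mul (p := p) (y := 2 * (5 + ρ)) (n := 28) ?_ ?_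
    · push_cast; linear_combination (5 + ρ) * hμ2 - hρ
    · exact nd [(2, 2), (7, 1)] (by simp; exact ⟨⟨by norm_num, hp2⟩, ⟨by norm_num, hp7⟩⟩) (by norm_num)
  have hμ0 : μ ≠ 0 := by intro h0; rw [h0, map_zero] at hμr; exact hμr rfl
  have hρ0 : ρ ≠ 0 := by
    intro h0
    rw [h0] at hρ
    apply r3
    have : (3 : WO p) = 0 := by linear_combination hρ
    rw [this, map_zero]
  refine ⟨?_, ?_, ?_⟩
  · intro x y h19 hc3 hxy
    have hc5 : legendreSym p 5 = 1 := by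
      rw [leg5 (p := p) (by omega)]
      have h5x : x % 5 ≠ 0 := by
        intro h0
        obtain ⟨c, hc⟩ := Int.dvd_of_emod_eq_zero h0
        have h1 : (p : ℤ) % 5 = 0 := by
          have : 4 * (p : ℤ) = 5 * (5 * c ^ 2 + 15 * y ^ 2) := by rw [hxy, hc]; ring
          omega
        have h2 : p % 5 = 0 := by omega
        have := (Nat.prime_dvd_prime_iff_eq Nat.prime_five hp.out).mp (Nat.dvd_of_mod_eq_zero h2)
        omega
      have h1 : (4 * (p : ℤ)) % 5 = x ^ 2 % 5 := by rw [hxy]; omega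
      have h2 : x ^ 2 % 5 = (x % 5) ^ 2 % 5 := (Int.ModEq.pow 2 (Int.mod_modEq x 5)).symm
      have h3 : x % 5 = 1 ∨ x % 5 = 2 ∨ x % 5 = 3 ∨ x % 5 = 4 := by omega
      rw [if_pos]
      rcases h3 with h | h | h | h <;> rw [h] at h2 <;> norm_num at h2 <;> omega
    obtain ⟨ha0, hb0, h4z, h4z1⟩ := sv_ab (SW p) (p := p) h19 hc3 hσ hz40
    have d2 := Dat.nu (SW p) (r := ρ) hpsi.dat r2' r3' h4z1 hρ
    have e4' : 4 - 4 * (1 - z) = 4 * z := by ring
    rw [e4'] at d2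
    obtain ⟨r, hr⟩ : ∃ r, x = 2 * r + 3 * y := by
      have h2 : (x - 3 * y) % 2 = 0 := by
        rcases Int.even_or_odd' x with ⟨a, ha | ha⟩ <;> rcases Int.even_or_odd' y with ⟨b, hb | hb⟩
        · omega
        · exfalso
          rw [ha, hb] at hxy
          ring_nf at hxy
          omega
        · exfalso
          rw [ha, hb] at hxy
          ring_nf at hxy
          omega
        · omega
      exact ⟨(x - 3 * y) / 2, by omega⟩
    have := sum_form_half (SW p) hp5 (SW_q p) (z := z) (z' := z) (M := -8640) hM hMz hzr hz1r (fr1 hc5)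
      ha0 hb0 one_ne_zero (mul_ne_zero hμ0 hρ0) (Dat.id (SW p) _ _) d2
      (κ := 5 * ρ) (e := 3) (D' := 75) (c := 1) (by norm_num) (by push_cast; ring)
      (by push_cast; linear_combination ρ * hμ2 - hρ) (by push_cast; linear_combination 25 * hρ)
      (by norm_num) x y r (by rw [hxy]; push_cast; ring) hr hcop1 n21 (by norm_num) (by nlinarith) hwi
    rw [this]
    congr 1
    push_cast
    ring
  · intro x y h19 hc3 hxy
    have hc5 : legendreSym p 5 = -1 := by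
      rw [leg5 (p := p) (by omega)]
      have h5x : x % 5 ≠ 0 := by
        intro h0
        obtain ⟨c, hc⟩ := Int.dvd_of_emod_eq_zero h0
        have h1 : (p : ℤ) % 5 = 0 := by
          have : 4 * (p : ℤ) = 5 * (15 * c ^ 2 + 5 * y ^ 2) := by rw [hxy, hc]; ring
          omega
        have h2 : p % 5 = 0 := by omega
        have := (Nat.prime_dvd_prime_iff_eq Nat.prime_five hp.out).mp (Nat.dvd_of_mod_eq_zero h2)
        omega
      have h1 : (4 * (p : ℤ)) % 5 = (3 * x ^ 2) % 5 := by rw [hxy]; omega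
      have h2 : x ^ 2 % 5 = (x % 5) ^ 2 % 5 := (Int.ModEq.pow 2 (Int.mod_modEq x 5)).symm
      have h3 : x % 5 = 1 ∨ x % 5 = 2 ∨ x % 5 = 3 ∨ x % 5 = 4 := by omega
      rw [if_neg]
      rcases h3 with h | h | h | h <;> rw [h] at h2 <;> norm_num at h2 <;> omega
    obtain ⟨ha0, hb0, h4z, h4z1⟩ := sv_ab (SW p) (p := p) h19 hc3 hσ hz40
    have d1 := Dat.nu (SW p) (r := ρ) (Dat.id (SW p) (ca (4 * z)) (cb (4 * z))) r2' r3' h4z hρ
    have e4' : 4 - 4 * z = 4 * (1 - z) := by ring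
    rw [e4'] at d1
    obtain ⟨r, hr⟩ : ∃ r, x = 2 * r + (-1) * y := by
      have h2 : (x + y) % 2 = 0 := by
        rcases Int.even_or_odd' x with ⟨a, ha | ha⟩ <;> rcases Int.even_or_odd' y with ⟨b, hb | hb⟩
        · omega
        · exfalso
          rw [ha, hb] at hxy
          ring_nf at hxy
          omega
        · exfalso
          rw [ha, hb] at hxy
          ring_nf at hxy
          omega
        · omega
      exact ⟨(x + y) / 2, by omega⟩
    have := sum_form_half (SW p) hp5 (SW_q p) (z := z) (z' := 1 - z) (M := -8640) hM hMz hzr hz1r (fr2 hc5)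
      ha0 hb0 (mul_ne_zero one_ne_zero hρ0) hμ0 d1 hpsi.dat
      (κ := 5) (e := -1) (D' := 25) (c := -1) (by norm_num) (by push_cast; linear_combination hρ)
      (by push_cast; linear_combination hμ2) (by push_cast; norm_num)
      (by norm_num) x y r (by rw [hxy]; push_cast; ring) hr n3 n7
      (by norm_num) (by nlinarith) hwi
    rw [this]
    congr 1
    push_cast
    ring
  · intro hc3
    refine sum_ss (SW p) hp5 (SW_q p) (M := -8640) hMz hz1r hμr hpsi ?_ hwi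
    have hF := (SW p).frobq (p := p) hp2 (n := 2) (a := 5) (b := -1) (d := -3) (z := μ) (σ := ρ)
      (by push_cast; linear_combination hμ2) (by push_cast; exact hρ)
    rw [legm3 (p := p) hp2 hp3, if_neg (by omega)] at hF
    push_cast at hF
    have hμk : 2 * (SW p).red μ = 5 - (SW p).red ρ := by
      have := congrArg (SW p).red hμ2
      simpa only [map_mul, map_sub, map_ofNat] using this
    rw [par3 (p := p) (by omega) hp2, if_neg (by omega)]
    intro he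
    have h5k : (5 : kb p) = 0 := by
      apply mul_left_cancel₀ r2'
      linear_combination 2 * he - hμk - hF
    apply r5
    rw [map_ofNat]
    exact h5k

end Pool.Agent.H546
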