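import Pool.Agent.H546.Util

set_option autoImplicit false

/-!
# Two small primes
-/

namespace Pool.Agent.H546

open Finset
open Pool.Agent.Q267.MW (u3)

theorem t75_7 (wi : ZMod (7 ^ 2)) (hwi : ((-8640 : ℤ) : ZMod (7 ^ 2)) * wi = 1) :
    ∑ k ∈ range 7, (k.centralBinom : ZMod (7 ^ 2)) * ((u3 k : ℕ) : ZMod (7 ^ 2)) * wi ^ k = ((11 : ℤ) : ZMod (7 ^ 2)) := by
  have h : wi = 3 := by
    have e : (-8640 * 3 : ZMod (7 ^ 2)) = 1 := by decide
    push_cast at hwi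
    linear_combination 3 * hwi - wi * e
  subst h
  have h0 : ∀ k ∈ range 7, ((k.centralBinom : ZMod (7 ^ 2)) * ((u3 k : ℕ) : ZMod (7 ^ 2)) * 3 ^ k) =
    (((k.centralBinom * u3 k * 3 ^ k : ℕ)) : ZMod (7 ^ 2)) := by intro k _; push_cast; rfl
  rw [sum_congr rfl h0, ← Nat.cast_sum]
  have : (∑ k ∈ range 7, k.centralBinom * u3 k * 3 ^ k) % 49 = 11 % 49 := by
    simp only [sum_range_succ, sum_range_zero, u3, Nat.centralBinom]
    norm_num [Nat.choose]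
  have h2 := (ZMod.natCast_eq_natCast_iff' (∑ k ∈ range 7, k.centralBinom * u3 k * 3 ^ k) 11 (7 ^ 2)).mpr (by
    norm_num only at this ⊢; exact this)
  rw [h2]; rfl

theorem t75_13 (wi : ZMod (13 ^ 2)) (hwi : ((-8640 : ℤ) : ZMod (13 ^ 2)) * wi = 1) :
    ∑ k ∈ range 13, (k.centralBinom : ZMod (13 ^ 2)) * ((u3 k : ℕ) : ZMod (13 ^ 2)) * wi ^ k = ((-1 : ℤ) : ZMod (13 ^ 2)) := by
  have h : wi = 8 := by
    have e : (-8640 * 8 : ZMod (13 ^ 2)) = 1 := by decide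
    push_cast at hwi
    linear_combination 8 * hwi - wi * e
  subst h
  have h0 : ∀ k ∈ range 13, ((k.centralBinom : ZMod (13 ^ 2)) * ((u3 k : ℕ) : ZMod (13 ^ 2)) * 8 ^ k) =
    (((k.centralBinom * u3 k * 8 ^ k : ℕ)) : ZMod (13 ^ 2)) := by intro k _; push_cast; rfl
  rw [sum_congr rfl h0, ← Nat.cast_sum]
  have : (∑ k ∈ range 13, k.centralBinom * u3 k * 8 ^ k) % 169 = 168 % 169 := by
    simp only [sum_range_succ, sum_range_zero, u3, Nat.centralBinom]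
    norm_num [Nat.choose]
  have h2 := (ZMod.natCast_eq_natCast_iff' (∑ k ∈ range 13, k.centralBinom * u3 k * 8 ^ k) 168 (13 ^ 2)).mpr (by
    norm_num only at this ⊢; exact this)
  rw [h2]; rfl

end Pool.Agent.H546
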