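import Pool.Agent.H546.T75
import Pool.Agent.H546.T75small

set_option autoImplicit false
set_option maxHeartbeats 4000000

/-!
# The cubic sum with denominator `-8640`: the value, and its reduction
-/

namespace Pool.Agent.H546

open Finset
open Pool.Agent.Q267.CDE (R)
open Pool.Agent.Q267.MW (u3)

section red

variable {O K k : Type*} [CommRing O] [IsDomain O] [Field K] [Algebra O K] [Field k]
  (S : DV O K k) {p : ℕ} [hp : Fact p.Prime] [CharP k p]

include S in
/-- the sum modulo `p` -/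
theorem sum_red (hp5 : 5 ≤ p) (hq : S.q = (p : O)) {z : O} {m : ℤ}
    (hmz : (m : O) * (z * (1 - z)) = 27) {wi : R p} (hwi : (m : R p) * wi = 1) :
    ZMod.castHom (dvd_pow_self p two_ne_zero) k
      (∑ k ∈ range p, (k.centralBinom : R p) * ((u3 k : ℕ) : R p) * wi ^ k) = lg (p / 3) (S.red z) ^ 2 := by
  have hlg : lg (2 * p / 3) (S.red z) = lg (p / 3) (S.red z) := by
    have := charQ S (p := p) hq
    set th : R p →+* QO O p := ZMod.castHom (dvd_refl _) (QO O p) with hth
    set mk := Ideal.Quotient.mk (Ideal.span {(p : O) ^ 2}) with hmk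
    have hmu : IsUnit ((m : R p)) := IsUnit.of_mul_eq_one _ hwi
    have hmu' : IsUnit (th (m : R p)) := hmu.map th
    have hz : mk z * (1 - mk z) = th (27 * wi) := by
      apply hmu'.mul_left_cancel
      rw [← map_mul th]
      have e : (m : R p) * (27 * wi) = 27 := by linear_combination 27 * hwi
      rw [e, map_ofNat, map_intCast]
      have := congrArg mk hmz
      rw [map_mul, map_intCast, map_mul, map_sub, map_one, map_ofNat] at this
      exact this
    obtain ⟨-, hP⟩ := sum_sq (p := p) hp5 th (mk z) wi hz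
    have h1 : ((p : ℕ) : QO O p) = mk (p : O) := (map_natCast mk p).symm
    rw [h1, ← lg_cast, ← lg_cast, ← map_mul, ← map_mul, Ideal.Quotient.mk_eq_mk_iff_sub_mem,
      Ideal.mem_span_singleton] at hP
    obtain ⟨c, hc⟩ := hP
    have hp0 : (p : O) ≠ 0 := by rw [← hq]; exact S.q_ne
    have h2 : lg (p / 3) z - lg (2 * p / 3) z = (p : O) * c := by
      apply mul_left_cancel₀ hp0
      linear_combination hc
    have h3 : S.red (lg (p / 3) z - lg (2 * p / 3) z) = 0 := by
      rw [S.red_iff, hq]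
      exact ⟨c, h2⟩
    rw [map_sub, lg_cast, lg_cast] at h3
    exact (sub_eq_zero.mp h3).symm
  have hz : S.red z * (1 - S.red z) = ZMod.castHom (dvd_pow_self p two_ne_zero) k (27 * wi) := by
    have hmu : IsUnit ((m : R p)) := IsUnit.of_mul_eq_one _ hwi
    have hmu' := hmu.map (ZMod.castHom (dvd_pow_self p two_ne_zero) k)
    apply hmu'.mul_left_cancel
    rw [← map_mul]
    have e : (m : R p) * (27 * wi) = 27 := by linear_combination 27 * hwi
    rw [e, map_ofNat, map_intCast]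
    have := congrArg S.red hmz
    rw [map_mul, map_intCast, map_mul, map_sub, map_one, map_ofNat] at this
    exact this
  obtain ⟨h9, -⟩ := sum_sq (p := p) hp5 (ZMod.castHom (dvd_pow_self p two_ne_zero) k) (S.red z) wi hz
  rw [hlg] at h9
  have h3 : (3 : k) ≠ 0 := by
    have := small_ne (k := k) (p := p) (n := 3) (by norm_num) (by omega)
    exact_mod_cast this
  have h9' : (9 : k) ≠ 0 := by
    have : (9 : k) = 3 * 3 := by norm_num
    rw [this]; exact mul_ne_zero h3 h3
  apply mul_left_cancel₀ h9'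
  rw [h9]
  ring

end red

section main

variable (p : ℕ) [hp : Fact p.Prime]

theorem nab {p : ℕ} (hp : p.Prime) (h5 : 5 < p) {a b : ℤ} (h : 4 * (p : ℤ) = a ^ 2 + 3 * b ^ 2) :
    ¬ (p : ℤ) ∣ a ∧ ¬ (p : ℤ) ∣ b := by
  have hpz : Prime (p : ℤ) := Nat.prime_iff_prime_int.mp hp
  have key : (p : ℤ) ∣ a → (p : ℤ) ∣ b → False := by
    rintro ⟨c, hc⟩ ⟨d, hd⟩
    rw [hc, hd] at h
    have h1 : (p : ℤ) * (p * (c ^ 2 + 3 * d ^ 2)) = p * 4 := by linear_combination -h
    have h2 : (p : ℤ) * (c ^ 2 + 3 * d ^ 2) = 4 := mul_left_cancel₀ hpz.ne_zero h1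
    have h3 := Int.le_of_dvd (by norm_num) (Dvd.intro _ h2)
    omega
  constructor
  · intro ha
    apply key ha
    have h1 : (p : ℤ) ∣ 3 * b ^ 2 := by
      have : 3 * b ^ 2 = 4 * (p : ℤ) - a ^ 2 := by linarith
      rw [this]
      exact dvd_sub (Dvd.intro_left _ rfl) (ha.trans (dvd_pow_self a two_ne_zero))
    rcases hpz.dvd_or_dvd h1 with h2 | h2
    · have := Int.le_of_dvd (by norm_num) h2
      omega
    · exact hpz.dvd_of_dvd_pow h2
  · intro hb
    refine key ?_ hb
    have h1 : (p : ℤ) ∣ a ^ 2 := by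
      have : a ^ 2 = 4 * (p : ℤ) - 3 * b ^ 2 := by linarith
      rw [this]
      exact dvd_sub (Dvd.intro_left _ rfl) (Dvd.dvd.mul_left (hb.trans (dvd_pow_self b two_ne_zero)) 3)
    exact hpz.dvd_of_dvd_pow h1

/-- the value of the sum for `p = 1 mod 3` -/
theorem e75 (h5 : 5 < p) (hc3 : p % 3 = 1) {wi : R p} (hwi : ((-8640 : ℤ) : R p) * wi = 1) {a b : ℤ}
    (h : 4 * (p : ℤ) = a ^ 2 + 3 * b ^ 2) (hab : (5 : ℤ) ∣ a * b) :
    ∑ k ∈ range p, (k.centralBinom : R p) * ((u3 k : ℕ) : R p) * wi ^ k = ((a ^ 2 - 2 * p : ℤ) : R p) := by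
  have p5 : Prime (5 : ℤ) := by norm_num
  by_cases h19 : 18 < p
  · obtain ⟨m1, m2, -⟩ := t75_main p (by omega) hwi
    rcases p5.dvd_or_dvd hab with ⟨c, hc⟩ | ⟨c, hc⟩
    · have := m2 b c h19 hc3 (by rw [h, hc]; ring)
      rw [this]
      congr 1
      linarith
    · exact m1 a c h19 hc3 (by rw [h, hc]; ring)
  · have hpp : p = 7 ∨ p = 13 := by
      have hpne : ∀ n : ℕ, ¬ n.Prime → p ≠ n := by
        rintro n hn rfl
        exact hn hp.out
      have := hpne 10 (by norm_num)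
      have := hpne 16 (by norm_num)
      omega
    rcases hpp with rfl | rfl
    · have ha : a ^ 2 = 25 := by
        push_cast at h
        have h1 : b < 4 := by nlinarith [sq_nonneg a]
        have h2 : -4 < b := by nlinarith [sq_nonneg a]
        have h3 : a < 6 := by nlinarith [sq_nonneg b]
        have h4 : -6 < a := by nlinarith [sq_nonneg b]
        interval_cases a <;> interval_cases b <;> omega
      rw [ha, t75_7 wi hwi]
      rfl
    · have ha : a ^ 2 = 25 := by
        push_cast at h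
        have h1 : b < 5 := by nlinarith [sq_nonneg a]
        have h2 : -5 < b := by nlinarith [sq_nonneg a]
        have h3 : a < 8 := by nlinarith [sq_nonneg b]
        have h4 : -8 < a := by nlinarith [sq_nonneg b]
        interval_cases a <;> interval_cases b <;> omega
      rw [ha, t75_13 wi hwi]
      rfl

theorem ty75 (x y : ℤ) : (5 : ℤ) ∣ (2 * x) * (2 * y) ∨ (5 : ℤ) ∣ (x + 3 * y) * (x - y) ∨
    (5 : ℤ) ∣ (x - 3 * y) * (x + y) := by
  have key : ∀ a b : ZMod 5, (2 * a) * (2 * b) = 0 ∨ (a + 3 * b) * (a - b) = 0 ∨ (a - 3 * b) * (a + b) = 0 := by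
    decide
  have c : ∀ n : ℤ, ((n : ℤ) : ZMod 5) = 0 → (5 : ℤ) ∣ n := fun n hn => by
    exact_mod_cast (ZMod.intCast_zmod_eq_zero_iff_dvd n 5).mp hn
  rcases key x y with h | h | h
  · left; apply c; push_cast; exact h
  · right; left; apply c; push_cast; exact h
  · right; right; apply c; push_cast; exact h

/-- the reduction of the sum -/
theorem t75_red (h7 : 5 < p) {wi : R p} (hwi : ((-8640 : ℤ) : R p) * wi = 1) :
    ∃ s z : kb p, s ^ 2 = 5 ∧ 40 * z = 20 - 9 * s ∧
      ZMod.castHom (dvd_pow_self p two_ne_zero) (kb p)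
      (∑ k ∈ range p, (k.centralBinom : R p) * ((u3 k : ℕ) : R p) * wi ^ k) = lg (p / 3) z ^ 2 := by
  have hp2 : p ≠ 2 := by omega
  have hp5' : p ≠ 5 := by omega
  have nd : ∀ {n : ℤ} (l : List (ℕ × ℕ)), (∀ q ∈ l, q.1.Prime ∧ p ≠ q.1) →
      n.natAbs = (l.map fun q => q.1 ^ q.2).prod → ¬ (p : ℤ) ∣ n := fun l hl hn => ndvd_fac l hl hn
  have n5 : ¬ (p : ℤ) ∣ 5 := nd [(5, 1)] (by simp; exact ⟨by norm_num, hp5'⟩) (by norm_num)
  have r2 : (SW p).red 2 ≠ 0 := (SW p).two_ne (p := p) hp2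
  have r5 : (SW p).red (5 : WO p) ≠ 0 := by
    have := (SW p).int_ne (p := p) n5
    exact_mod_cast this
  obtain ⟨v, hv⟩ := ((SW p).unit_of_red r2).exists_right_inv
  obtain ⟨w, hw⟩ := ((SW p).unit_of_red r5).exists_right_inv
  obtain ⟨σ, hσ⟩ := wo_isqrt p hp2 (d := 5) n5
  push_cast at hσ
  have h40v : 40 * (v ^ 3 * w) = 1 := by
    linear_combination (5 * w) * (4 * v ^ 2 + 2 * v + 1) * hv + hw
  obtain ⟨z, hz⟩ : ∃ z, z = v ^ 3 * w * (20 - 9 * σ) := ⟨_, rfl⟩
  have hz40 : 40 * z = 20 - 9 * σ := by rw [hz]; linear_combination (20 - 9 * σ) * h40v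
  have h2O : (2 : WO p) ≠ 0 := by intro h0; rw [h0, map_zero] at r2; exact r2 rfl
  have h5O : (5 : WO p) ≠ 0 := by intro h0; rw [h0, map_zero] at r5; exact r5 rfl
  have h40O : (40 : WO p) ≠ 0 := by
    have : (40 : WO p) = 2 * 2 * 2 * 5 := by norm_num
    rw [this]; exact mul_ne_zero (mul_ne_zero (mul_ne_zero h2O h2O) h2O) h5O
  have hMz : ((-8640 : ℤ) : WO p) * (z * (1 - z)) = 27 := by
    apply mul_left_cancel₀ h40O
    apply mul_left_cancel₀ h40O
    push_cast
    linear_combination (-8640 * (40 * (1 - z))) * hz40 + 8640 * (20 - 9 * σ) * hz40 + 8640 * 81 * hσ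
  refine ⟨(SW p).red σ, (SW p).red z, ?_, ?_, sum_red (SW p) (by omega) (SW_q p) hMz hwi⟩
  · rw [← map_pow, hσ, map_ofNat]
  · have := congrArg (SW p).red hz40
    simpa only [map_mul, map_sub, map_ofNat] using this

end main

end Pool.Agent.H546
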