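import Pool.Agent.H546.Hasse

set_option autoImplicit false
set_option maxHeartbeats 4000000
set_option maxRecDepth 100000

/-!
# An explicit isogeny of degree 5
-/

namespace Pool.Agent.H546

def tfN {T : Type*} [CommRing T] (s r X : T) : T :=
  -100 * s * X ^ 4 - 1500 * s * X ^ 3 + 5500 * s * X ^ 2 - 24900 * s * X + 45000 * s + 25 * X ^ 5 + 2250 * X ^ 3 + 12000 * X ^ 2 - 54875 * X + 57000

def tfh {T : Type*} [CommRing T] (s r X : T) : T :=
  -10 * s * X + 6 * s + 5 * X ^ 2 - 5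

def tfN1 {T : Type*} [CommRing T] (s r X : T) : T :=
  -400 * s * X ^ 3 - 4500 * s * X ^ 2 + 11000 * s * X - 24900 * s + 125 * X ^ 4 + 6750 * X ^ 2 + 24000 * X - 54875

def tfh1 {T : Type*} [CommRing T] (s r X : T) : T :=
  -10 * s + 10 * X

def tfF {T : Type*} [CommRing T] (s r X : T) : T :=
  -12 * s * X + 28 * s + X ^ 3 - 15 * X + 42

def tfAM {T : Type*} [CommRing T] (s r X : T) : T :=
  300 * s - 375

def tfBM {T : Type*} [CommRing T] (s r X : T) : T :=
  -3500 * s + 5250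

def tfW {T : Type*} [CommRing T] (s r X : T) : T :=
  -750 * s * X ^ 5 + 8250 * s * X ^ 4 - 75500 * s * X ^ 3 + 436500 * s * X ^ 2 - 1359750 * s * X + 935250 * s + 125 * X ^ 6 - 1875 * X ^ 4 - 57000 * X ^ 3 + 654375 * X ^ 2 - 2175000 * X + 4027375

theorem tf_W {T : Type*} [CommRing T] {s r X : T} (hs : s ^ 2 = 5) : tfN1 s r X * tfh s r X - 2 * tfN s r X * tfh1 s r X = tfW s r X := by
  simp only [tfN1, tfh, tfN, tfh1, tfW]
  linear_combination (2000 * X ^ 4 + 12600 * X ^ 3 - 27000 * X ^ 2 - 183000 * X + 750600) * hs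

def tfW2 {T : Type*} [CommRing T] (s r X : T) : T :=
  -187500 * s * X ^ 11 + 2062500 * s * X ^ 10 - 16062500 * s * X ^ 9 + 163687500 * s * X ^ 8 - 1978875000 * s * X ^ 7 + 21263625000 * s * X ^ 6 - 185401125000 * s * X ^ 5 + 1117650375000 * s * X ^ 4 - 4393099937500 * s * X ^ 3 + 10654819312500 * s * X ^ 2 - 15020783812500 * s * X + 7533204937500 * s + 15625 * X ^ 12 + 2343750 * X ^ 10 - 76125000 * X ^ 9 + 1073671875 * X ^ 8 - 9832500000 * X ^ 7 + 76512562500 * X ^ 6 - 515193750000 * X ^ 5 + 2717484609375 * X ^ 4 - 9947074500000 * X ^ 3 + 23328418593750 * X ^ 2 - 30236143125000 * X + 20593212203125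

theorem tf_W2 {T : Type*} [CommRing T] {s r X : T} (hs : s ^ 2 = 5) : tfW s r X * tfW s r X = tfW2 s r X := by
  simp only [tfW, tfW2]
  linear_combination (562500 * X ^ 10 - 12375000 * X ^ 9 + 181312500 * X ^ 8 - 1900500000 * X ^ 7 + 14942125000 * X ^ 6 - 89750250000 * X ^ 5 + 411286125000 * X ^ 4 - 1328284500000 * X ^ 3 + 2665393312500 * X ^ 2 - 2543412375000 * X + 874692562500) * hs

def tfFW {T : Type*} [CommRing T] (s r X : T) : T :=
  -187500 * s * X ^ 14 + 1875000 * s * X ^ 13 - 12812500 * s * X ^ 12 + 96750000 * s * X ^ 11 - 672187500 * s * X ^ 10 + 3118125000 * s * X ^ 9 - 790312500 * s * X ^ 8 - 477877500000 * s * X ^ 7 + 7605665937500 * s * X ^ 6 - 60932023875000 * s * X ^ 5 + 293271494062500 * s * X ^ 4 - 895258391250000 * s * X ^ 3 + 1688843606437500 * s * X ^ 2 - 1837601548125000 * s * X + 893004549062500 * s + 15625 * X ^ 15 + 2109375 * X ^ 13 - 64218750 * X ^ 12 + 888515625 * X ^ 11 - 7339687500 * X ^ 10 + 45140234375 * X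 ^ 9 - 180963281250 * X ^ 8 - 396028828125 * X ^ 7 + 15095334375000 * X ^ 6 - 132087168046875 * X ^ 5 + 653161376718750 * X ^ 4 - 2001433345703125 * X ^ 3 + 3826257460312500 * X ^ 2 - 4133718224296875 * X + 1919563603781250

theorem tf_FW {T : Type*} [CommRing T] {s r X : T} (hs : s ^ 2 = 5) : tfF s r X * tfW2 s r X = tfFW s r X := by
  simp only [tfF, tfW2, tfFW]
  linear_combination (2250000 * X ^ 12 - 30000000 * X ^ 11 + 250500000 * X ^ 10 - 2414000000 * X ^ 9 + 28329750000 * X ^ 8 - 310572000000 * X ^ 7 + 2820195000000 * X ^ 6 - 18603036000000 * X ^ 5 + 84011409750000 * X ^ 4 - 250864630000000 * X ^ 3 + 478584346500000 * X ^ 2 - 510980406000000 * X + 210929738250000) * hs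

def tfN2 {T : Type*} [CommRing T] (s r X : T) : T :=
  -5000 * s * X ^ 9 - 75000 * s * X ^ 8 - 175000 * s * X ^ 7 - 10395000 * s * X ^ 6 + 1975000 * s * X ^ 5 + 173175000 * s * X ^ 4 - 1169725000 * s * X ^ 3 + 4439775000 * s * X ^ 2 - 7777350000 * s * X + 5130000000 * s + 625 * X ^ 10 + 162500 * X ^ 8 + 2100000 * X ^ 7 + 8068750 * X ^ 6 - 750000 * X ^ 5 + 376812500 * X ^ 4 - 3105000000 * X ^ 3 + 9954315625 * X ^ 2 - 17460750000 * X + 13374000000

theorem tf_N2 {T : Type*} [CommRing T] {s r X : T} (hs : s ^ 2 = 5) : tfN s r X * tfN s r X = tfN2 s r X := by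
  simp only [tfN, tfN2]
  linear_combination (10000 * X ^ 8 + 300000 * X ^ 7 + 1150000 * X ^ 6 - 11520000 * X ^ 5 + 95950000 * X ^ 4 - 408900000 * X ^ 3 + 1115010000 * X ^ 2 - 2241000000 * X + 2025000000) * hs

def tfN3 {T : Type*} [CommRing T] (s r X : T) : T :=
  -187500 * s * X ^ 14 - 2812500 * s * X ^ 13 - 28437500 * s * X ^ 12 - 957937500 * s * X ^ 11 - 4005000000 * s * X ^ 10 - 21853125000 * s * X ^ 9 - 181366875000 * s * X ^ 8 + 719533125000 * s * X ^ 7 + 4667197812500 * s * X ^ 6 - 52988639062500 * s * X ^ 5 + 283711420312500 * s * X ^ 4 - 895775262187500 * s * X ^ 3 + 1697683134375000 * s * X ^ 2 - 1843564050000000 * s * X + 894240000000000 * s + 15625 * X ^ 15 + 7968750 * X ^ 13 + 135000000 * X ^ 12 + 1045546875 * X ^ 11 + 11761875000 * X ^ 10 + 124232812500 * X ^ 9 - 470812500000 * X ^ 8 + 1359778359375 * X ^ 7 + 6330656250000 * X ^ 6 - 117941763281250 * X ^ 5 + 634484362500000 * X ^ 4 - 1970957807421875 * X ^ 3 + 3794347096875000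 * X ^ 2 - 4117749750000000 * X + 1916568000000000

theorem tf_N3 {T : Type*} [CommRing T] {s r X : T} (hs : s ^ 2 = 5) : tfN2 s r X * tfN s r X = tfN3 s r X := by
  simp only [tfN2, tfN, tfN3]
  linear_combination (500000 * X ^ 13 + 15000000 * X ^ 12 + 102500000 * X ^ 11 + 1014000000 * X ^ 10 + 16075000000 * X ^ 9 - 76470000000 * X ^ 8 + 119033000000 * X ^ 7 + 1746120000000 * X ^ 6 - 16538597500000 * X ^ 5 + 72490815000000 * X ^ 4 - 213658447500000 * X ^ 3 + 421660890000000 * X ^ 2 - 477717750000000 * X + 230850000000000) * hs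

def tfH2 {T : Type*} [CommRing T] (s r X : T) : T :=
  -100 * s * X ^ 3 + 60 * s * X ^ 2 + 100 * s * X - 60 * s + 25 * X ^ 4 + 450 * X ^ 2 - 600 * X + 205

theorem tf_H2 {T : Type*} [CommRing T] {s r X : T} (hs : s ^ 2 = 5) : tfh s r X * tfh s r X = tfH2 s r X := by
  simp only [tfh, tfH2]
  linear_combination (100 * X ^ 2 - 120 * X + 36) * hs

def tfH4 {T : Type*} [CommRing T] (s r X : T) : T :=
  -5000 * s * X ^ 7 + 3000 * s * X ^ 6 - 85000 * s * X ^ 5 + 171000 * s * X ^ 4 - 23000 * s * X ^ 3 - 149400 * s * X ^ 2 + 113000 * s * X - 24600 * s + 625 * X ^ 8 + 72500 * X ^ 6 - 90000 * X ^ 5 + 130750 * X ^ 4 - 420000 * X ^ 3 + 558500 * X ^ 2 - 306000 * X + 60025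

theorem tf_H4 {T : Type*} [CommRing T] {s r X : T} (hs : s ^ 2 = 5) : tfH2 s r X * tfH2 s r X = tfH4 s r X := by
  simp only [tfH2, tfH4]
  linear_combination (10000 * X ^ 6 - 12000 * X ^ 5 - 16400 * X ^ 4 + 24000 * X ^ 3 + 2800 * X ^ 2 - 12000 * X + 3600) * hs

def tfH6 {T : Type*} [CommRing T] (s r X : T) : T :=
  -187500 * s * X ^ 11 + 112500 * s * X ^ 10 - 11562500 * s * X ^ 9 + 21937500 * s * X ^ 8 - 52875000 * s * X ^ 7 + 161325000 * s * X ^ 6 - 190125000 * s * X ^ 5 - 4725000 * s * X ^ 4 + 192462500 * s * X ^ 3 - 170005500 * s * X ^ 2 + 62287500 * s * X - 8644500 * s + 15625 * X ^ 12 + 4593750 * X ^ 10 - 5625000 * X ^ 9 + 76921875 * X ^ 8 - 202500000 * X ^ 7 + 161062500 * X ^ 6 - 114750000 * X ^ 5 + 367509375 * X ^ 4 - 580500000 * X ^ 3 + 419043750 * X ^ 2 - 144945000 * X + 19685125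

theorem tf_H6 {T : Type*} [CommRing T] {s r X : T} (hs : s ^ 2 = 5) : tfH4 s r X * tfH2 s r X = tfH6 s r X := by
  simp only [tfH4, tfH2, tfH6]
  linear_combination (500000 * X ^ 10 - 600000 * X ^ 9 + 8180000 * X ^ 8 - 21600000 * X ^ 7 + 3880000 * X ^ 6 + 35760000 * X ^ 5 - 32824000 * X ^ 4 - 4320000 * X ^ 3 + 18788000 * X ^ 2 - 9240000 * X + 1476000) * hs

def tfNH {T : Type*} [CommRing T] (s r X : T) : T :=
  -187500 * s * X ^ 12 - 862500 * s * X ^ 11 - 17187500 * s * X ^ 10 - 164287500 * s * X ^ 9 + 667350000 * s * X ^ 8 - 3542985000 * s * X ^ 7 + 13635225000 * s * X ^ 6 - 25264215000 * s * X ^ 5 + 29337072500 * s * X ^ 4 - 26391712500 * s * X ^ 3 + 18070162500 * s * X ^ 2 - 7473697500 * s * X + 1298925000 * s + 15625 * X ^ 13 + 5718750 * X ^ 11 + 41250000 * X ^ 10 + 14596875 * X ^ 9 + 1949625000 * X ^ 8 - 9857287500 * X ^ 7 + 25894800000 * X ^ 6 - 56069780625 * X ^ 5 + 72908550000 * X ^ 4 - 41407331250 * X ^ 3 + 986550000 * X ^ 2 + 7751828125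 * X - 2113575000

theorem tf_NH {T : Type*} [CommRing T] {s r X : T} (hs : s ^ 2 = 5) : tfN s r X * tfH4 s r X = tfNH s r X := by
  simp only [tfN, tfH4, tfNH]
  linear_combination (500000 * X ^ 11 + 7200000 * X ^ 10 - 23500000 * X ^ 9 + 251400000 * X ^ 8 - 1021400000 * X ^ 7 + 3241440000 * X ^ 6 - 7996600000 * X ^ 5 + 7278960000 * X ^ 4 + 3343460000 * X ^ 3 - 9672000000 * X ^ 2 + 5697540000 * X - 1107000000) * hs

def tfANH {T : Type*} [CommRing T] (s r X : T) : T :=
  4687500 * s * X ^ 13 + 70312500 * s * X ^ 12 + 2039062500 * s * X ^ 11 + 18820312500 * s * X ^ 10 + 65986875000 * s * X ^ 9 + 334631250000 * s * X ^ 8 - 1628566875000 * s * X ^ 7 + 2655230625000 * s * X ^ 6 - 7346853562500 * s * X ^ 5 + 10871162812500 * s * X ^ 4 - 2525307187500 * s * X ^ 3 - 6480345937500 * s * X ^ 2 + 5128185000000 * s * X - 1121169375000 * s - 5859375 * X ^ 13 - 281250000 * X ^ 12 - 3438281250 * X ^ 11 - 41250000000 * X ^ 10 - 251905078125 * X ^ 9 + 269915625000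 * X ^ 8 - 1617994687500 * X ^ 7 + 10742287500000 * X ^ 6 - 16870154765625 * X ^ 5 + 16664902500000 * X ^ 4 - 24059819531250 * X ^ 3 + 26735287500000 * X ^ 2 - 14117481796875 * X + 2740978125000

theorem tf_ANH {T : Type*} [CommRing T] {s r X : T} (hs : s ^ 2 = 5) : tfAM s r X * tfNH s r X = tfANH s r X := by
  simp only [tfAM, tfNH, tfANH]
  linear_combination (-56250000 * X ^ 12 - 258750000 * X ^ 11 - 5156250000 * X ^ 10 - 49286250000 * X ^ 9 + 200205000000 * X ^ 8 - 1062895500000 * X ^ 7 + 4090567500000 * X ^ 6 - 7579264500000 * X ^ 5 + 8801121750000 * X ^ 4 - 7917513750000 * X ^ 3 + 5421048750000 * X ^ 2 - 2242109250000 * X + 389677500000) * hs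

def tfBH {T : Type*} [CommRing T] (s r X : T) : T :=
  -54687500 * s * X ^ 12 - 984375000 * s * X ^ 11 - 15487500000 * s * X ^ 10 - 41015625000 * s * X ^ 9 - 154054687500 * s * X ^ 8 + 431156250000 * s * X ^ 7 + 283237500000 * s * X ^ 6 - 596531250000 * s * X ^ 5 - 1311089062500 * s * X ^ 4 + 3042178125000 * s * X ^ 3 - 2359182000000 * s * X ^ 2 + 834316875000 * s * X - 114281562500 * s + 82031250 * X ^ 12 + 3281250000 * X ^ 11 + 22148437500 * X ^ 10 + 172812500000 * X ^ 9 + 19933593750 * X ^ 8 - 137812500000 * X ^ 7 - 1977609375000 * X ^ 6 + 2724750000000 * X ^ 5 + 2012111718750 * X ^ 4 - 6415718750000 * X ^ 3 + 5175075937500 * X ^ 2 - 1850992500000 * X + 254625656250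

theorem tf_BH {T : Type*} [CommRing T] {s r X : T} (hs : s ^ 2 = 5) : tfBM s r X * tfH6 s r X = tfBH s r X := by
  simp only [tfBM, tfH6, tfBH]
  linear_combination (656250000 * X ^ 11 - 393750000 * X ^ 10 + 40468750000 * X ^ 9 - 76781250000 * X ^ 8 + 185062500000 * X ^ 7 - 564637500000 * X ^ 6 + 665437500000 * X ^ 5 + 16537500000 * X ^ 4 - 673618750000 * X ^ 3 + 595019250000 * X ^ 2 - 218006250000 * X + 30255750000) * hs

theorem tf_lin {T : Type*} [CommRing T] {s r X : T} : 1 * tfFW s r X = 1 * tfN3 s r X + 1 * tfANH s r X + 1 * tfBH s r X := by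
  simp only [tfFW, tfN3, tfANH, tfBH]
  ring

/-- the differential equation of the isogeny -/
theorem tf_alg {T : Type*} [CommRing T] {s r X : T} (hs : s ^ 2 = 5) :
    1 * (tfF s r X * (tfN1 s r X * tfh s r X - 2 * tfN s r X * tfh1 s r X) ^ 2) =
      1 * tfN s r X ^ 3 + 1 * (tfAM s r X * (tfN s r X * tfh s r X ^ 4)) + 1 * (tfBM s r X * tfh s r X ^ 6) := by
  have e1 := tf_W (r := r) (X := X) hs
  have e2 := tf_W2 (r := r) (X := X) hs
  have e3 := tf_FW (r := r) (X := X) hs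
  have e4 := tf_N2 (r := r) (X := X) hs
  have e5 := tf_N3 (r := r) (X := X) hs
  have e6 := tf_H2 (r := r) (X := X) hs
  have e7 := tf_H4 (r := r) (X := X) hs
  have e8 := tf_H6 (r := r) (X := X) hs
  have e9 := tf_NH (r := r) (X := X) hs
  have e10 := tf_ANH (r := r) (X := X) hs
  have e11 := tf_BH (r := r) (X := X) hs
  have e12 := tf_lin (s := s) (r := r) (X := X)
  have f1 : tfN s r X ^ 3 = tfN3 s r X := by linear_combination tfN s r X * e4 + e5
  have f2 : tfh s r X ^ 2 = tfH2 s r X := by linear_combination e6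
  have f3 : tfh s r X ^ 4 = tfH4 s r X := by
    have : tfh s r X ^ 4 = (tfh s r X ^ 2) * (tfh s r X ^ 2) := by ring
    rw [this, f2, e7]
  have f4 : tfh s r X ^ 6 = tfH6 s r X := by
    have : tfh s r X ^ 6 = (tfh s r X ^ 4) * (tfh s r X ^ 2) := by ring
    rw [this, f3, f2, e8]
  rw [e1, sq, e2, e3, f1, f3, f4, e9, e10, e11, e12]

def tfU {T : Type*} [CommRing T] (s r X : T) : T :=
  31 * s * X - 5 * s + 65 * X - 35

def tfV {T : Type*} [CommRing T] (s r X : T) : T :=
  -155 * s * X ^ 4 + 675 * s * X ^ 3 + 8535 * s * X ^ 2 - 107335 * s * X + 223584 * s - 325 * X ^ 4 + 1725 * X ^ 3 + 24105 * X ^ 2 - 235225 * X + 496320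

theorem tf_bez {T : Type*} [CommRing T] {s r X : T} (hs : s ^ 2 = 5) : tfU s r X * tfN s r X + tfV s r X * tfh s r X = 1105920 := by
  simp only [tfU, tfN, tfV, tfh]
  linear_combination (-1550 * X ^ 5 - 53680 * X ^ 4 + 96700 * X ^ 3 + 325160 * X ^ 2 - 1360350 * X + 1116504) * hs

def tfM2 {T : Type*} [CommRing T] (s r X : T) : T :=
  5

theorem tf_three {T : Type*} [CommRing T] {s r : T} (hs : s ^ 2 = 5) : 1 * tfN s r 3 = 3 * (tfM2 s r 3 * tfh s r 3 ^ 2) := by
  simp only [tfM2, tfN, tfh]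
  linear_combination (-8640) * hs

theorem tf_h3 {T : Type*} [CommRing T] {s r : T} (hs : s ^ 2 = 5) : tfh s r 3 * (-3 * s - 5) = 160 := by
  simp only [tfh]
  linear_combination (72) * hs

def tfM3 {T : Type*} [CommRing T] (s r X : T) : T :=
  5 * s

def tfAA {T : Type*} [CommRing T] (s r X : T) : T :=
  -2 * s + 2

def tfAP {T : Type*} [CommRing T] (s r X : T) : T :=
  2 * s + 2

theorem tf_T {T : Type*} [CommRing T] {s r : T} (hs : s ^ 2 = 5) : 1 * (tfAA s r 3 * tfW s r 3) = (tfM3 s r 3 * tfh s r 3 ^ 3 * tfAP s r 3) := by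
  simp only [tfM3, tfW, tfh, tfAA, tfAP]
  linear_combination (138240 * s ^ 3 - 552960 * s ^ 2 + 1152000 * s - 716800) * hs

open Polynomial in
theorem tfN_poly {R : Type*} [CommRing R] (s r : R) : tfN (C s) (C r) (X : R[X]) = C 25 * X ^ 5 + (C (-100 * s) * X ^ 4 + C (-1500 * s + 2250) * X ^ 3 + C (5500 * s + 12000) * X ^ 2 + C (-24900 * s - 54875) * X ^ 1 + C (45000 * s + 57000) * X ^ 0) := by
  simp only [tfN, C_add, C_sub, C_mul, C_neg, C_pow, map_ofNat, C_1]
  ring

open Polynomial in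
theorem tfh_poly {R : Type*} [CommRing R] (s r : R) : tfh (C s) (C r) (X : R[X]) = C (5) * X ^ 2 + C (-10 * s) * X ^ 1 + C (6 * s - 5) * X ^ 0 := by
  simp only [tfh, C_add, C_sub, C_mul, C_neg, C_pow, map_ofNat, C_1]
  ring

open Polynomial in
theorem tfN_deg {R : Type*} [CommRing R] (s r : R) : (tfN (C s) (C r) (X : R[X])).natDegree ≤ 5 := by
  rw [tfN_poly]; compute_degree

open Polynomial in
theorem tfh_deg {R : Type*} [CommRing R] (s r : R) : (tfh (C s) (C r) (X : R[X])).natDegree ≤ 2 := by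
  rw [tfh_poly]; compute_degree

open Polynomial in
theorem tfN_lc {R : Type*} [CommRing R] (s r : R) : (tfN (C s) (C r) (X : R[X])).coeff 5 = 25 := by
  rw [tfN_poly]
  simp only [coeff_add, coeff_C_mul, coeff_X_pow]
  norm_num

open Polynomial in
theorem tfN_der {R : Type*} [CommRing R] (s r : R) : derivative (tfN (C s) (C r) (X : R[X])) = tfN1 (C s) (C r) X := by
  simp only [tfN, tfN1, derivative_add, derivative_sub, derivative_neg, derivative_mul, derivative_pow,
    derivative_C, derivative_X, derivative_ofNat, derivative_one]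
  push_cast
  simp only [map_ofNat]
  ring

open Polynomial in
theorem tfh_der {R : Type*} [CommRing R] (s r : R) : derivative (tfh (C s) (C r) (X : R[X])) = tfh1 (C s) (C r) X := by
  simp only [tfh, tfh1, derivative_add, derivative_sub, derivative_neg, derivative_mul, derivative_pow,
    derivative_C, derivative_X, derivative_ofNat, derivative_one]
  push_cast
  simp only [map_ofNat]
  ring

open Polynomial in
theorem tfN_eval {R : Type*} [CommRing R] (s r e : R) : (tfN (C s) (C r) (X : R[X])).eval e = tfN s r e := by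
  simp [tfN]

open Polynomial in
theorem tfh_eval {R : Type*} [CommRing R] (s r e : R) : (tfh (C s) (C r) (X : R[X])).eval e = tfh s r e := by
  simp [tfh]

end Pool.Agent.H546
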