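import Pool.Agent.H546.UtilG
import Pool.Agent.H546.TFdat

set_option autoImplicit false
set_option maxHeartbeats 1000000

/-!
# The sums with `t = -4` (discriminant `-60`)
-/

namespace Pool.Agent.H546

open Finset

section tf

variable {O K k : Type*} [CommRing O] [IsDomain O] [Field K] [Algebra O K] [Field k]
  (S : DV O K k) {p : ℕ} [hp : Fact p.Prime] [CharP k p]

/-- the isogeny of degree `5` -/
theorem tf_psi (h5 : 5 < p) {σ z : O} (hσ : σ ^ 2 = 5) (h2z : 2 * z = 1 - σ) :
    DatT S (4 * z) (4 * (1 - z)) σ 5 1 := by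
  have nd : ∀ {n : ℕ} {l : List ℕ}, (∀ q ∈ l, q.Prime) → l.prod = n → (∀ q ∈ l, p ≠ q) → ¬ (p : ℤ) ∣ (n : ℤ) :=
    fun a b c => ndvd_of_primes p a b c
  have n5 : ¬ (p : ℤ) ∣ 5 := by
    have := nd (n := 5) (l := [5]) (by simp; norm_num) (by norm_num) (by simp; omega)
    exact_mod_cast this
  have h2z1 : 2 * (1 - z) = 1 + σ := by linear_combination -h2z
  have hσr : S.red σ ≠ 0 := by
    refine S.ne_mul (y := σ) (n := 5) ?_ n5
    push_cast; linear_combination hσ
  have hh3 : S.red ((tfh (Polynomial.C σ) (Polynomial.C σ) (Polynomial.X)).eval 3) ≠ 0 := by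
    rw [tfh_eval]
    refine S.ne_mul (n := 160) (by push_cast; exact tf_h3 hσ) ?_
    have := nd (n := 160) (l := [2, 2, 2, 2, 2, 5]) (by simp; norm_num) (by norm_num) (by simp; omega)
    exact_mod_cast this
  have hσC : (Polynomial.C σ : Polynomial O) ^ 2 = 5 := by
    rw [← Polynomial.C_pow, hσ, map_ofNat]
  have hode : cub (ca (4 * z)) (cb (4 * z)) *
        (Polynomial.derivative (tfN (Polynomial.C σ) (Polynomial.C σ) Polynomial.X) *
          tfh (Polynomial.C σ) (Polynomial.C σ) Polynomial.X - 2 *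
          tfN (Polynomial.C σ) (Polynomial.C σ) Polynomial.X *
          Polynomial.derivative (tfh (Polynomial.C σ) (Polynomial.C σ) Polynomial.X)) ^ 2 =
      tfN (Polynomial.C σ) (Polynomial.C σ) Polynomial.X ^ 3 +
        Polynomial.C (ca (4 * (1 - z)) * σ ^ 4) *
          tfN (Polynomial.C σ) (Polynomial.C σ) Polynomial.X *
          tfh (Polynomial.C σ) (Polynomial.C σ) Polynomial.X ^ 4 +
        Polynomial.C (cb (4 * (1 - z)) * σ ^ 6) *
          tfh (Polynomial.C σ) (Polynomial.C σ) Polynomial.X ^ 6 := by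
    have key := tf_alg (r := Polynomial.C σ) (X := (Polynomial.X : Polynomial O)) hσC
    rw [← tfN_der, ← tfh_der] at key
    have eF : tfF (Polynomial.C σ) (Polynomial.C σ) (Polynomial.X : Polynomial O) =
        cub (ca (4 * z)) (cb (4 * z)) := by
      have h1 : ca (4 * z) = -12 * σ - 15 := by simp only [ca]; linear_combination 12 * h2z
      have h2 : cb (4 * z) = 28 * σ + 42 := by
        simp only [cb]; linear_combination (4 * (2 * z) + 4 * (1 - σ) - 36) * h2z + 4 * hσ
      rw [h1, h2]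
      simp only [tfF, cub, Polynomial.C_mul, Polynomial.C_sub, Polynomial.C_add, Polynomial.C_neg,
        map_ofNat]
      ring
    have eA : Polynomial.C (ca (4 * (1 - z)) * σ ^ 4) = tfAM (Polynomial.C σ) (Polynomial.C σ) (Polynomial.X : Polynomial O) := by
      have : ca (4 * (1 - z)) * σ ^ 4 = 300 * σ - 375 := by
        simp only [ca]
        linear_combination (12 * σ ^ 4) * h2z1 + ((12 * σ - 15) * (σ ^ 2 + 5)) * hσ
      rw [this]
      simp only [tfAM, Polynomial.C_mul, Polynomial.C_sub, map_ofNat]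
    have eB : Polynomial.C (cb (4 * (1 - z)) * σ ^ 6) = tfBM (Polynomial.C σ) (Polynomial.C σ) (Polynomial.X : Polynomial O) := by
      have : cb (4 * (1 - z)) * σ ^ 6 = -3500 * σ + 5250 := by
        have hb : cb (4 * (1 - z)) = 42 - 28 * σ := by
          simp only [cb]
          linear_combination (4 * (2 * (1 - z)) + 4 * (1 + σ) - 36) * h2z1 + 4 * hσ
        rw [hb]
        linear_combination ((42 - 28 * σ) * (σ ^ 4 + 5 * σ ^ 2 + 25)) * hσ
      rw [this]
      simp only [tfBM, Polynomial.C_mul, Polynomial.C_add, Polynomial.C_neg, map_ofNat]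
    rw [eF, ← eA, ← eB] at key
    linear_combination key
  have hmono : (tfN (Polynomial.C σ) (Polynomial.C σ) (Polynomial.X : Polynomial O)).coeff 5 = 25 := tfN_lc σ σ
  have h25 : S.red (25 : O) ≠ 0 := by
    have := S.int_ne (p := p) (n := 25) (by
      have := nd (n := 25) (l := [5, 5]) (by simp; norm_num) (by norm_num) (by simp; omega)
      exact_mod_cast this)
    exact_mod_cast this
  have hdn : (tfN (Polynomial.C σ) (Polynomial.C σ) (Polynomial.X : Polynomial O)).natDegree = 5 := by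
    refine le_antisymm (tfN_deg σ σ) (Polynomial.le_natDegree_of_ne_zero ?_)
    rw [hmono]
    intro h0; rw [h0, map_zero] at h25; exact h25 rfl
  have bez := tf_bez (r := Polynomial.C σ) (X := (Polynomial.X : Polynomial O)) hσC
  have e4 : (1105920 : Polynomial O) = Polynomial.C 1105920 := (map_ofNat _ _).symm
  rw [e4] at bez
  refine DatT.of_sq S hode hσr ?_ hdn ?_ bez ?_ hh3 ?_ ?_
  · rw [hdn]
    have := tfh_deg σ σ
    omega
  · rw [Polynomial.leadingCoeff, hdn, hmono]; exact h25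
  · have := nd (n := 1105920) (l := [2, 2, 2, 2, 2, 2, 2, 2, 2, 2, 2, 2, 2, 3, 3, 3, 5])
      (by simp; norm_num) (by norm_num) (by simp; omega)
    have := S.int_ne (n := 1105920) (by exact_mod_cast this)
    exact_mod_cast this
  · rw [tfN_eval, tfh_eval]
    have h3 := tf_three (r := σ) hσ
    simp only [tfM2] at h3
    linear_combination h3 - 3 * tfh σ σ 3 ^ 2 * hσ
  · rw [tfN_der, tfh_der, tfN_eval, tfh_eval]
    have e1 : (tfN1 (Polynomial.C σ) (Polynomial.C σ) (Polynomial.X : Polynomial O)).eval 3 = tfN1 σ σ 3 := by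
      simp [tfN1]
    have e2 : (tfh1 (Polynomial.C σ) (Polynomial.C σ) (Polynomial.X : Polynomial O)).eval 3 = tfh1 σ σ 3 := by
      simp [tfh1]
    rw [e1, e2]
    have hW := tf_W (r := σ) (X := (3 : O)) hσ
    have hT := tf_T (r := σ) hσ
    have hA : 4 * z = tfAA σ σ 3 := by simp only [tfAA]; linear_combination 2 * h2z
    have hAP : 4 * (1 - z) = tfAP σ σ 3 := by simp only [tfAP]; linear_combination 2 * h2z1
    have hM3 : σ ^ 3 = tfM3 σ σ 3 := by simp only [tfM3]; linear_combination σ * hσ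
    rw [hA, hAP, hM3, hW]
    push_cast
    linear_combination hT

theorem tf_main [IsAlgClosed k] (hq : S.q = (p : O)) (h16 : 16 ≤ p) {σ ρ v : O} (hσ : σ ^ 2 = 5) (hρ : ρ ^ 2 = -3)
    (hv : 2 * v = 1) {iv : ℕ → O} (hiv : ∀ n, n + 1 < p → ((n : O) + 1) * iv (n + 1) = 1)
    {i6 : O} (h6 : 6 * i6 = 1) (x y ε : ℤ) (hε : ε = 1 ∨ ε = -1) (h3x : (3 : ℤ) ∣ x - ε) :
    (p % 3 = 1 → legendreSym p 5 = 1 → (p : ℤ) = x ^ 2 + 15 * y ^ 2 →
      (p : O) ^ 2 ∣ ((2 * x : ℤ) : O) * hyp iv p (2 * i6) i6 (-4) - ((ε * (4 * x ^ 2 - p) : ℤ) : O) ∧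
      (p : O) ^ 2 ∣ ((2 * x : ℤ) : O) * hyp iv p (4 * i6) (5 * i6) (-4) - ((ε * (4 * x ^ 2 - p) : ℤ) : O)) ∧
    (p % 3 = 2 → legendreSym p 5 = -1 → (p : ℤ) = 5 * x ^ 2 + 3 * y ^ 2 →
      (p : O) ^ 2 ∣ ((2 * x : ℤ) : O) * hyp iv p (2 * i6) i6 (-4) - ((-(ε * (20 * x ^ 2 - p)) : ℤ) : O) ∧
      (p : O) ^ 2 ∣ ((2 * x : ℤ) : O) * (-5 * hyp iv p (4 * i6) (5 * i6) (-4)) -
        ((-(ε * (20 * x ^ 2 - p)) : ℤ) : O)) := by
  have hp2 : p ≠ 2 := by omega
  have hp3 : p ≠ 3 := by omega
  have nd : ∀ {n : ℕ} {l : List ℕ}, (∀ q ∈ l, q.Prime) → l.prod = n → (∀ q ∈ l, p ≠ q) → ¬ (p : ℤ) ∣ (n : ℤ) :=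
    fun a b c => ndvd_of_primes p a b c
  have n1 : ¬ (p : ℤ) ∣ 1 := by
    have := nd (n := 1) (l := []) (by simp) (by norm_num) (by simp)
    exact_mod_cast this
  have n2 : ¬ (p : ℤ) ∣ 2 := by
    have := nd (n := 2) (l := [2]) (by simp; norm_num) (by norm_num) (by simp; omega)
    exact_mod_cast this
  have n3 : ¬ (p : ℤ) ∣ 3 := by
    have := nd (n := 3) (l := [3]) (by simp; norm_num) (by norm_num) (by simp; omega)
    exact_mod_cast this
  have n5 : ¬ (p : ℤ) ∣ 5 := by
    have := nd (n := 5) (l := [5]) (by simp; norm_num) (by norm_num) (by simp; omega)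
    exact_mod_cast this
  have r2 := S.two_ne hp2
  have r3 := S.three_ne hp3
  have r2' : (2 : k) ≠ 0 := by rw [map_ofNat] at r2; exact r2
  have r3' : (3 : k) ≠ 0 := by rw [map_ofNat] at r3; exact r3
  have h2O : (2 : O) ≠ 0 := by intro h0; rw [h0, map_zero] at r2; exact r2 rfl
  obtain ⟨z, hz⟩ : ∃ z, z = v * (1 - σ) := ⟨_, rfl⟩
  have h2z : 2 * z = 1 - σ := by rw [hz]; linear_combination (1 - σ) * hv
  have h2z1 : 2 * (1 - z) = 1 + σ := by linear_combination -h2z
  have hzz : z * (1 - z) = -1 := by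
    apply mul_left_cancel₀ h2O
    apply mul_left_cancel₀ h2O
    linear_combination (2 * (1 - z)) * h2z + (1 - σ) * h2z1 - hσ
  have hzr : S.red z ≠ 0 := by
    refine S.ne_mul (y := -(1 - z)) (n := 1) ?_ n1
    push_cast; linear_combination -hzz
  have hz1r : S.red (1 - z) ≠ 0 := by
    refine S.ne_mul (y := -z) (n := 1) ?_ n1
    push_cast; linear_combination -hzz
  have hσr : S.red σ ≠ 0 := by
    refine S.ne_mul (y := σ) (n := 5) ?_ n5
    push_cast; linear_combination hσ
  have hpsi := tf_psi S (p := p) (by omega) hσ h2z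
  -- Frobenius
  have hFσ : S.red σ ^ p = (legendreSym p 5 : k) * S.red σ :=
    S.frob_sq hp2 (d := 5) (by push_cast; exact hσ)
  have hFv : S.red v ^ p = S.red v := S.frob_inv (n := 2) (by push_cast; exact hv) n2
  have hFz : S.red z ^ p = S.red v * (1 - S.red σ ^ p) := by
    rw [hz, map_mul, mul_pow, hFv, map_sub, map_one]
    congr 1
    have := map_sub (frobenius k p) 1 (S.red σ)
    rw [map_one] at this
    exact this
  have ha0 : ((p : ℤ) = x ^ 2 + 15 * y ^ 2 ∨ (p : ℤ) = 5 * x ^ 2 + 3 * y ^ 2) → S.red (ca (4 * z)) ≠ 0 := by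
    intro hor
    refine S.ne_mul (y := ca (4 * (1 - z))) (n := -495) ?_ ?_
    · have h1 : ca (4 * z) = -12 * σ - 15 := by simp only [ca]; linear_combination 12 * h2z
      have h2 : ca (4 * (1 - z)) = 12 * σ - 15 := by simp only [ca]; linear_combination 12 * h2z1
      rw [h1, h2]; push_cast
      linear_combination (-144) * hσ
    · rw [dvd_neg]
      have := nd (n := 495) (l := [3, 3, 5, 11]) (by simp; norm_num) (by norm_num) (by simp; omega)
      exact_mod_cast this
  have hb0 : S.red (cb (4 * z)) ≠ 0 := by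
    refine S.ne_mul (y := cb (4 * (1 - z))) (n := -2156) ?_ ?_
    · have hb : cb (4 * (1 - z)) = 42 - 28 * σ := by
        simp only [cb]
        linear_combination (4 * (2 * (1 - z)) + 4 * (1 + σ) - 36) * h2z1 + 4 * hσ
      have hb' : cb (4 * z) = 28 * σ + 42 := by
        simp only [cb]; linear_combination (4 * (2 * z) + 4 * (1 - σ) - 36) * h2z + 4 * hσ
      rw [hb, hb']
      push_cast
      linear_combination (-784) * hσ
    · rw [dvd_neg]
      have := nd (n := 2156) (l := [2, 2, 7, 7, 11]) (by simp; norm_num) (by norm_num)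
        (by simp; omega)
      exact_mod_cast this
  have h4r : S.red (4 * z) ≠ 0 ∧ S.red (4 * (1 - z)) ≠ 0 := by
    have h4 : S.red 4 ≠ 0 := by
      have := S.int_ne (p := p) (n := 4) (by
        have := nd (n := 4) (l := [2, 2]) (by simp; norm_num) (by norm_num) (by simp; omega)
        exact_mod_cast this)
      exact_mod_cast this
    rw [map_mul, map_mul]
    exact ⟨mul_ne_zero h4 hzr, mul_ne_zero h4 hz1r⟩
  have hσ0 : σ ≠ 0 := by intro h0; rw [h0, map_zero] at hσr; exact hσr rfl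
  have hρ0 : ρ ≠ 0 := by
    intro h0
    rw [h0] at hρ
    apply r3
    have : (3 : O) = 0 := by linear_combination hρ
    rw [this, map_zero]
  have ht : 4 * z * (1 - z) = -4 := by linear_combination 4 * hzz
  have h12z : 1 - 2 * z = σ := by linear_combination -h2z
  have n15 : ¬ (p : ℤ) ∣ ((15 : ℕ) : ℤ) :=
    nd (n := 15) (l := [3, 5]) (by simp; norm_num) (by norm_num) (by simp; omega)
  have u3 : IsUnit (3 : O) := S.unit_of_red r3
  have uσ : IsUnit σ := S.unit_of_red hσr
  have c3 : ∀ a : O, (p : O) ^ 2 ∣ 3 * a → (p : O) ^ 2 ∣ a := fun a h => (u3.dvd_mul_left).mp h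
  have cσ : ∀ a : O, (p : O) ^ 2 ∣ σ * a → (p : O) ^ 2 ∣ a := fun a h => (uσ.dvd_mul_left).mp h
  have hodd : p % 2 = 1 := by
    rcases hp.out.eq_two_or_odd with h | h
    · exact absurd h hp2
    · exact h
  have : CharZero O := charZero_O S hq
  refine ⟨fun hc3 hc5 hxy => ?_, fun hc3 hc5 hxy => ?_⟩
  · have hz' : S.red z = S.red z ^ p := by
      rw [hFz, hFσ, hc5, hz, map_mul, map_sub, map_one]; push_cast; ring
    have d2 := DatT.nu S (r := ρ) hpsi r2' r3' h4r.2 hρ
    have e4 : 4 - 4 * (1 - z) = 4 * z := by ring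
    rw [e4] at d2
    obtain ⟨k1, k2⟩ := lin3_diag S (by omega) hq hzr hz1r hz' (ha0 (Or.inl hxy)) hb0 one_ne_zero (mul_ne_zero hσ0 hρ0)
      (Or.inl rfl) (DatT.id S _) d2 x y ε hε h3x (by rw [hxy]; push_cast; ring)
      (by exact_mod_cast n1) (by exact_mod_cast n15) (by nlinarith) (c := 1) (by norm_num) (by push_cast; ring)
      (by push_cast; linear_combination ρ ^ 2 * hσ + 5 * hρ)
    obtain ⟨g1, g2⟩ := comb1 iv (p := p) (by omega) h6 z hiv
    rw [ht] at g1 g2
    rw [h12z] at k2 g2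
    refine ⟨c3 _ ?_, c3 _ (c3 _ (cσ _ ?_))⟩
    · have e := dvd_sub k1 (g1.mul_left (2 * (x : O)))
      convert e using 1
      push_cast; ring
    · have e := dvd_sub k2 (g2.mul_left (2 * (x : O)))
      convert e using 1
      push_cast; ring
  · have hz' : S.red (1 - z) = S.red z ^ p := by
      have h1 : 1 - z = v * (1 + σ) := by rw [hz]; linear_combination -hv
      rw [hFz, hFσ, hc5, h1, map_mul, map_add, map_one]; push_cast; ring
    have d2 := DatT.nu S (r := ρ) (DatT.id S (4 * z)) r2' r3' h4r.1 hρ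
    have e4 : 4 - 4 * z = 4 * (1 - z) := by ring
    rw [e4] at d2
    obtain ⟨k1, k2⟩ := lin3_diag S (by omega) hq hzr hz1r hz' (ha0 (Or.inr hxy)) hb0 hσ0 (mul_ne_zero one_ne_zero hρ0)
      (Or.inl rfl) hpsi d2 x y ε hε h3x (by rw [hxy]; push_cast; ring)
      (by exact_mod_cast n5) (by exact_mod_cast n3) (by nlinarith) (c := 1) (by norm_num) (by push_cast; linear_combination hσ)
      (by push_cast; linear_combination hρ)
    obtain ⟨g1, g2⟩ := comb2 iv (p := p) (by omega) h6 z hiv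
    rw [ht] at g1 g2
    rw [h12z] at g1
    have h12z' : 1 - 2 * (1 - z) = -σ := by linear_combination h2z
    rw [h12z'] at k2
    refine ⟨c3 _ (c3 _ (cσ _ ?_)), c3 _ ?_⟩
    · have e := dvd_sub k2 (g2.mul_left (2 * (x : O) * σ))
      convert e using 1
      push_cast; ring
    · have e := dvd_sub k1 (g1.mul_left (2 * (x : O) * σ))
      have e' := dvd_neg.mpr e
      convert e' using 1
      push_cast
      linear_combination (6 * (x : O) * hyp iv p (4 * i6) (5 * i6) (-4)) * hσ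

end tf

end Pool.Agent.H546
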