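import Pool.Agent.H546.UtilG

set_option autoImplicit false
set_option maxHeartbeats 1000000
set_option maxRecDepth 100000

/-!
# The sums with `t = 1/2` (discriminant `-24`)
-/

namespace Pool.Agent.H546

open Finset

section tg

variable {O K k : Type*} [CommRing O] [IsDomain O] [Field K] [Algebra O K] [Field k]
  (S : DV O K k) {p : ℕ} [hp : Fact p.Prime] [CharP k p]

open Polynomial in
/-- the isogeny of degree `2` -/
theorem tg_psi (h3 : 3 < p) {σ z : O} (hσ : σ ^ 2 = 2) (h4z : 4 * z = 2 - σ) :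
    DatT S (4 * z) (4 * (1 - z)) σ 2 (-1) := by
  have nd : ∀ {n : ℕ} {l : List ℕ}, (∀ q ∈ l, q.Prime) → l.prod = n → (∀ q ∈ l, p ≠ q) → ¬ (p : ℤ) ∣ (n : ℤ) :=
    fun a b c => ndvd_of_primes p a b c
  have n1 : ¬ (p : ℤ) ∣ 1 := by
    have := nd (n := 1) (l := []) (by simp) (by norm_num) (by simp)
    exact_mod_cast this
  have n2 : ¬ (p : ℤ) ∣ 2 := by
    have := nd (n := 2) (l := [2]) (by simp; norm_num) (by norm_num) (by simp; omega)
    exact_mod_cast this
  have h4z1 : 4 * (1 - z) = 2 + σ := by linear_combination -h4z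
  have hσr : S.red σ ≠ 0 := by
    refine S.ne_mul (y := σ) (n := 2) ?_ n2
    push_cast; linear_combination hσ
  have hσC : (C σ : O[X]) ^ 2 = 2 := by
    rw [← C_pow, hσ, map_ofNat]
  have hdN : (X ^ 2 + (C (-(2 * σ)) * X + C (9 - 6 * σ)) : O[X]).natDegree = 2 := by compute_degree!
  have hdD : (X - C (2 * σ) : O[X]).natDegree = 1 := natDegree_X_sub_C _
  have hlN : (X ^ 2 + (C (-(2 * σ)) * X + C (9 - 6 * σ)) : O[X]).leadingCoeff = 1 := by
    rw [leadingCoeff, hdN]; simp [coeff_X, coeff_C]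
  have h1 : ca (4 * z) = -15 - 6 * σ := by rw [h4z]; simp only [ca]; ring
  have h2 : cb (4 * z) = 24 + 14 * σ := by rw [h4z]; simp only [cb]; linear_combination hσ
  have h1' : ca (4 * (1 - z)) = -15 + 6 * σ := by rw [h4z1]; simp only [ca]; ring
  have h2' : cb (4 * (1 - z)) = 24 - 14 * σ := by rw [h4z1]; simp only [cb]; linear_combination hσ
  refine DatT.of_nd S (N := X ^ 2 + (C (-(2 * σ)) * X + C (9 - 6 * σ))) (D := X - C (2 * σ)) (U := 1) (V := -X)
    (r := 9 - 6 * σ) ?_ hσr (by rw [hdN, hdD]; norm_num) hdN ?_ ?_ ?_ ?_ ?_ ?_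
  · have e1 : ca (4 * (1 - z)) * σ ^ 4 = 24 * σ - 60 := by
      rw [h1']; linear_combination ((-15 + 6 * σ) * (σ ^ 2 + 2)) * hσ
    have e2 : cb (4 * (1 - z)) * σ ^ 6 = 192 - 112 * σ := by
      rw [h2']; linear_combination ((24 - 14 * σ) * (σ ^ 4 + 2 * σ ^ 2 + 4)) * hσ
    rw [e1, e2, h1, h2]
    simp only [wr, cub, derivative_add, derivative_sub, derivative_mul, derivative_C, derivative_X, derivative_X_pow]
    push_cast
    simp only [C_add, C_sub, C_mul, C_neg, map_ofNat]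
    linear_combination (-480 * C σ ^ 3 * X + 864 * C σ ^ 3 + 816 * C σ ^ 2 * X ^ 2 - 2304 * C σ ^ 2 * X + 2160 * C σ ^ 2 -
      456 * C σ * X ^ 3 + 1656 * C σ * X ^ 2 - 2160 * C σ * X + 84 * X ^ 4 - 324 * X ^ 3 + 216 * X ^ 2 + 972 * X - 972) * hσC
  · rw [hlN, map_one]; exact one_ne_zero
  · simp only [C_neg, C_sub, C_mul, map_ofNat]; ring
  · refine S.ne_mul (y := 9 + 6 * σ) (n := 9) ?_ ?_
    · push_cast; linear_combination (-36) * hσ
    · have := nd (n := 9) (l := [3, 3]) (by simp; norm_num) (by norm_num) (by simp; omega)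
      exact_mod_cast this
  · refine S.ne_mul (y := 3 + 2 * σ) (n := 1) ?_ n1
    simp only [eval_sub, eval_X, eval_C]
    push_cast; linear_combination (-4) * hσ
  · simp only [eval_sub, eval_X, eval_C, eval_add, eval_mul, eval_pow]
    linear_combination (-9 + 6 * σ) * hσ
  · simp only [eval_sub, eval_X, eval_C, eval_add, eval_mul, eval_pow, derivative_add, derivative_sub, derivative_mul,
      derivative_C, derivative_X, derivative_X_pow]
    rw [h4z, h4z1]
    simp only [eval_zero, eval_one, eval_natCast]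
    push_cast
    linear_combination ((4 * σ ^ 3 * (2 + σ) - 4 * σ ^ 2 * (4 + σ) + 2 * σ * 3 + 1) - 8 * σ ^ 3 + 9 * σ ^ 2 - 1) * hσ

theorem tg_z (h3 : 3 < p) {σ v : O} (hσ : σ ^ 2 = 2) (hv : 2 * v = 1) {z : O} (hz : z = v * v * (2 - σ)) :
    4 * z = 2 - σ ∧ 4 * z * (1 - z) = v ∧ 1 - 2 * z = σ * v ∧ S.red z ≠ 0 ∧ S.red (1 - z) ≠ 0 := by
  have nd : ∀ {n : ℕ} {l : List ℕ}, (∀ q ∈ l, q.Prime) → l.prod = n → (∀ q ∈ l, p ≠ q) → ¬ (p : ℤ) ∣ (n : ℤ) :=
    fun a b c => ndvd_of_primes p a b c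
  have n1 : ¬ (p : ℤ) ∣ 1 := by
    have := nd (n := 1) (l := []) (by simp) (by norm_num) (by simp)
    exact_mod_cast this
  have r2 := S.two_ne (p := p) (by omega)
  have h2O : (2 : O) ≠ 0 := by intro h0; rw [h0, map_zero] at r2; exact r2 rfl
  have h4z : 4 * z = 2 - σ := by rw [hz]; linear_combination ((2 * v + 1) * (2 - σ)) * hv
  have h8 : 8 * (z * (1 - z)) = 1 := by
    apply mul_left_cancel₀ h2O
    linear_combination (4 * (1 - z)) * h4z - (2 - σ) * h4z - hσ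
  refine ⟨h4z, ?_, ?_, ?_, ?_⟩
  · linear_combination v * h8 - 4 * z * (1 - z) * hv
  · rw [hz]; linear_combination (-v * (2 - σ) - 1) * hv
  · refine S.ne_mul (y := 8 * (1 - z)) (n := 1) ?_ n1
    push_cast; linear_combination h8
  · refine S.ne_mul (y := 8 * z) (n := 1) ?_ n1
    push_cast; linear_combination h8

theorem tg_frob (h3 : 3 < p) {σ v : O} (hσ : σ ^ 2 = 2) (hv : 2 * v = 1) {z : O} (hz : z = v * v * (2 - σ)) :
    (legendreSym p 2 = 1 → S.red z = S.red z ^ p) ∧ (legendreSym p 2 = -1 → S.red (1 - z) = S.red z ^ p) := by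
  have nd : ∀ {n : ℕ} {l : List ℕ}, (∀ q ∈ l, q.Prime) → l.prod = n → (∀ q ∈ l, p ≠ q) → ¬ (p : ℤ) ∣ (n : ℤ) :=
    fun a b c => ndvd_of_primes p a b c
  have n2 : ¬ (p : ℤ) ∣ 2 := by
    have := nd (n := 2) (l := [2]) (by simp; norm_num) (by norm_num) (by simp; omega)
    exact_mod_cast this
  have hFσ : S.red σ ^ p = (legendreSym p 2 : k) * S.red σ :=
    S.frob_sq (by omega) (d := 2) (by push_cast; exact hσ)
  have hFv : S.red v ^ p = S.red v := S.frob_inv (n := 2) (by push_cast; exact hv) n2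
  have hFz : S.red z ^ p = S.red v * S.red v * (2 - S.red σ ^ p) := by
    rw [hz, map_mul, map_mul, mul_pow, mul_pow, hFv, map_sub, map_ofNat]
    congr 1
    have := map_sub (frobenius k p) 2 (S.red σ)
    rw [map_ofNat] at this
    exact this
  have hz2 : S.red z = S.red v * S.red v * (2 - S.red σ) := by
    rw [hz, map_mul, map_mul, map_sub, map_ofNat]
  have hv2 : 2 * S.red v = 1 := by
    have := congrArg S.red hv
    rwa [map_mul, map_ofNat, map_one] at this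
  constructor
  · intro h
    rw [hFz, hFσ, h, hz2]; push_cast; ring
  · intro h
    rw [hFz, hFσ, h, map_sub, map_one, hz2]; push_cast
    linear_combination (-(2 * S.red v + 1)) * hv2

theorem tg_main [IsAlgClosed k] (hq : S.q = (p : O)) (h11 : 10 < p) (h17 : p ≠ 17) (h23 : p ≠ 23)
    {σ ρ v : O} (hσ : σ ^ 2 = 2) (hρ : ρ ^ 2 = -3)
    (hv : 2 * v = 1) {iv : ℕ → O} (hiv : ∀ n, n + 1 < p → ((n : O) + 1) * iv (n + 1) = 1)
    {i6 : O} (h6 : 6 * i6 = 1) (x y ε : ℤ) (hε : ε = 1 ∨ ε = -1) (h3x : (3 : ℤ) ∣ x - ε) :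
    (p % 3 = 1 → legendreSym p 2 = 1 → (p : ℤ) = x ^ 2 + 6 * y ^ 2 →
      (p : O) ^ 2 ∣ ((2 * x : ℤ) : O) * hyp iv p (2 * i6) i6 v - ((ε * (4 * x ^ 2 - p) : ℤ) : O) ∧
      (p : O) ^ 2 ∣ ((2 * x : ℤ) : O) * hyp iv p (4 * i6) (5 * i6) v - ((ε * (4 * x ^ 2 - p) : ℤ) : O)) ∧
    (p % 3 = 2 → legendreSym p 2 = -1 → (p : ℤ) = 2 * x ^ 2 + 3 * y ^ 2 →
      (p : O) ^ 2 ∣ ((4 * x : ℤ) : O) * hyp iv p (2 * i6) i6 v - ((ε * (8 * x ^ 2 - p) : ℤ) : O) ∧
      (p : O) ^ 2 ∣ ((4 * x : ℤ) : O) * (-v * hyp iv p (4 * i6) (5 * i6) v) - ((ε * (8 * x ^ 2 - p) : ℤ) : O)) := by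
  have hp2 : p ≠ 2 := by omega
  have hp3 : p ≠ 3 := by omega
  have nd : ∀ {n : ℕ} {l : List ℕ}, (∀ q ∈ l, q.Prime) → l.prod = n → (∀ q ∈ l, p ≠ q) → ¬ (p : ℤ) ∣ (n : ℤ) :=
    fun a b c => ndvd_of_primes p a b c
  have n1 : ¬ (p : ℤ) ∣ 1 := by
    have := nd (n := 1) (l := []) (by simp) (by norm_num) (by simp)
    exact_mod_cast this
  have n2 : ¬ (p : ℤ) ∣ 2 := by
    have := nd (n := 2) (l := [2]) (by simp; norm_num) (by norm_num) (by simp; omega)
    exact_mod_cast this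
  have n3 : ¬ (p : ℤ) ∣ 3 := by
    have := nd (n := 3) (l := [3]) (by simp; norm_num) (by norm_num) (by simp; omega)
    exact_mod_cast this
  have r2 := S.two_ne hp2
  have r3 := S.three_ne hp3
  have r2' : (2 : k) ≠ 0 := by rw [map_ofNat] at r2; exact r2
  have r3' : (3 : k) ≠ 0 := by rw [map_ofNat] at r3; exact r3
  obtain ⟨z, hz⟩ : ∃ z, z = v * v * (2 - σ) := ⟨_, rfl⟩
  obtain ⟨h4z, ht, h12z, hzr, hz1r⟩ := tg_z S (by omega) hσ hv hz
  obtain ⟨fr1, fr2⟩ := tg_frob S (by omega) hσ hv hz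
  have h4z1 : 4 * (1 - z) = 2 + σ := by linear_combination -h4z
  have hσr : S.red σ ≠ 0 := by
    refine S.ne_mul (y := σ) (n := 2) ?_ n2
    push_cast; linear_combination hσ
  have hpsi := tg_psi S (p := p) (by omega) hσ h4z
  have h1 : ca (4 * z) = -15 - 6 * σ := by rw [h4z]; simp only [ca]; ring
  have h2 : cb (4 * z) = 24 + 14 * σ := by rw [h4z]; simp only [cb]; linear_combination hσ
  have ha0 : S.red (ca (4 * z)) ≠ 0 := by
    refine S.ne_mul (y := -15 + 6 * σ) (n := 153) ?_ ?_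
    · rw [h1]; push_cast; linear_combination (-36) * hσ
    · have := nd (n := 153) (l := [3, 3, 17]) (by simp; norm_num) (by norm_num) (by simp; omega)
      exact_mod_cast this
  have hb0 : S.red (cb (4 * z)) ≠ 0 := by
    refine S.ne_mul (y := 24 - 14 * σ) (n := 184) ?_ ?_
    · rw [h2]; push_cast; linear_combination (-196) * hσ
    · have := nd (n := 184) (l := [2, 2, 2, 23]) (by simp; norm_num) (by norm_num) (by simp; omega)
      exact_mod_cast this
  have h4r : S.red (4 * z) ≠ 0 ∧ S.red (4 * (1 - z)) ≠ 0 := by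
    have h4 : S.red 4 ≠ 0 := by
      have := S.int_ne (p := p) (n := 4) (by
        have := nd (n := 4) (l := [2, 2]) (by simp; norm_num) (by norm_num) (by simp; omega)
        exact_mod_cast this)
      exact_mod_cast this
    rw [map_mul, map_mul]
    exact ⟨mul_ne_zero h4 hzr, mul_ne_zero h4 hz1r⟩
  have hσ0 : σ ≠ 0 := by intro h0; rw [h0, map_zero] at hσr; exact hσr rfl
  have hρ0 : ρ ≠ 0 := by
    intro h0
    rw [h0] at hρ
    apply r3
    have : (3 : O) = 0 := by linear_combination hρ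
    rw [this, map_zero]
  have n6 : ¬ (p : ℤ) ∣ ((6 : ℕ) : ℤ) :=
    nd (n := 6) (l := [2, 3]) (by simp; norm_num) (by norm_num) (by simp; omega)
  have hv0r : S.red v ≠ 0 := by
    refine S.ne_mul (y := 2) (n := 1) ?_ n1
    push_cast; linear_combination hv
  have u3 : IsUnit (3 : O) := S.unit_of_red r3
  have uσ : IsUnit σ := S.unit_of_red hσr
  have uv : IsUnit v := S.unit_of_red hv0r
  have c3 : ∀ a : O, (p : O) ^ 2 ∣ 3 * a → (p : O) ^ 2 ∣ a := fun a h => (u3.dvd_mul_left).mp h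
  have cσ : ∀ a : O, (p : O) ^ 2 ∣ σ * a → (p : O) ^ 2 ∣ a := fun a h => (uσ.dvd_mul_left).mp h
  have cv : ∀ a : O, (p : O) ^ 2 ∣ v * a → (p : O) ^ 2 ∣ a := fun a h => (uv.dvd_mul_left).mp h
  have hodd : p % 2 = 1 := by
    rcases hp.out.eq_two_or_odd with h | h
    · exact absurd h hp2
    · exact h
  have : CharZero O := charZero_O S hq
  refine ⟨fun hc3 hc5 hxy => ?_, fun hc3 hc5 hxy => ?_⟩
  · have hz' := fr1 hc5
    have d2 := DatT.nu S (r := ρ) hpsi r2' r3' h4r.2 hρ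
    have e4 : 4 - 4 * (1 - z) = 4 * z := by ring
    rw [e4] at d2
    obtain ⟨k1, k2⟩ := lin3_diag S (by omega) hq hzr hz1r hz' ha0 hb0 one_ne_zero (mul_ne_zero hσ0 hρ0)
      (Or.inl rfl) (DatT.id S _) d2 x y ε hε h3x (by rw [hxy]; push_cast; ring)
      (by exact_mod_cast n1) (by exact_mod_cast n6) (by nlinarith) (c := 1) (by norm_num) (by push_cast; ring)
      (by push_cast; linear_combination ρ ^ 2 * hσ + 2 * hρ)
    obtain ⟨g1, g2⟩ := comb1 iv (p := p) (by omega) h6 z hiv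
    rw [ht] at g1 g2
    rw [h12z] at k2 g2
    refine ⟨c3 _ ?_, c3 _ (c3 _ (cσ _ (cv _ ?_)))⟩
    · have e := dvd_sub k1 (g1.mul_left (2 * (x : O)))
      convert e using 1
      push_cast; ring
    · have e := dvd_sub k2 (g2.mul_left (2 * (x : O)))
      convert e using 1
      push_cast; ring
  · have hz' := fr2 hc5
    have d2 := DatT.nu S (r := ρ) (DatT.id S (4 * z)) r2' r3' h4r.1 hρ
    have e4 : 4 - 4 * z = 4 * (1 - z) := by ring
    rw [e4] at d2
    obtain ⟨k1, k2⟩ := lin3_diag S (by omega) hq hzr hz1r hz' ha0 hb0 hσ0 (mul_ne_zero one_ne_zero hρ0)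
      (Or.inr rfl) hpsi d2 x y ε hε h3x (by rw [hxy]; push_cast; ring)
      (by exact_mod_cast n2) (by exact_mod_cast n3) (by nlinarith) (c := 1) (by norm_num) (by push_cast; linear_combination hσ)
      (by push_cast; linear_combination hρ)
    obtain ⟨g1, g2⟩ := comb2 iv (p := p) (by omega) h6 z hiv
    rw [ht] at g1 g2
    rw [h12z] at g1
    have h12z' : 1 - 2 * (1 - z) = -(σ * v) := by linear_combination -h12z
    rw [h12z'] at k2
    refine ⟨c3 _ (c3 _ (cσ _ (cv _ ?_))), c3 _ ?_⟩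
    · have e := dvd_sub k2 (g2.mul_left (2 * (x : O) * σ))
      convert e using 1
      push_cast
      linear_combination (18 * (x : O) * σ * hyp iv p (2 * i6) i6 v) * hv
    · have e := dvd_sub k1 (g1.mul_left (2 * (x : O) * σ))
      have e' := dvd_neg.mpr e
      convert e' using 1
      push_cast
      linear_combination (6 * (x : O) * v * hyp iv p (4 * i6) (5 * i6) v) * hσ

theorem tg_zero (hq : S.q = (p : O)) (h3 : 3 < p)
    {σ v : O} (hσ : σ ^ 2 = 2)
    (hv : 2 * v = 1) {iv : ℕ → O} (hiv : ∀ n, n + 1 < p → ((n : O) + 1) * iv (n + 1) = 1)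
    {i6 : O} (h6 : 6 * i6 = 1) (hc3 : p % 3 = 1) (hc2 : legendreSym p 2 = -1) :
    S.red (hyp iv p (2 * i6) i6 v) = 0 ∧ S.red (hyp iv p (4 * i6) (5 * i6) v) = 0 := by
  have hp2 : p ≠ 2 := by omega
  have hp3 : p ≠ 3 := by omega
  have nd : ∀ {n : ℕ} {l : List ℕ}, (∀ q ∈ l, q.Prime) → l.prod = n → (∀ q ∈ l, p ≠ q) → ¬ (p : ℤ) ∣ (n : ℤ) :=
    fun a b c => ndvd_of_primes p a b c
  have n1 : ¬ (p : ℤ) ∣ 1 := by
    have := nd (n := 1) (l := []) (by simp) (by norm_num) (by simp)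
    exact_mod_cast this
  have n2 : ¬ (p : ℤ) ∣ 2 := by
    have := nd (n := 2) (l := [2]) (by simp; norm_num) (by norm_num) (by simp; omega)
    exact_mod_cast this
  have hodd : p % 2 = 1 := by
    rcases hp.out.eq_two_or_odd with h | h
    · exact absurd h hp2
    · exact h
  have r2 := S.two_ne hp2
  have r2' : (2 : k) ≠ 0 := by rw [map_ofNat] at r2; exact r2
  obtain ⟨z, hz⟩ : ∃ z, z = v * v * (2 - σ) := ⟨_, rfl⟩
  obtain ⟨h4z, ht, h12z, hzr, hz1r⟩ := tg_z S (by omega) hσ hv hz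
  have hσr : S.red σ ≠ 0 := by
    refine S.ne_mul (y := σ) (n := 2) ?_ n2
    push_cast; linear_combination hσ
  have hpsi := tg_psi S (p := p) (by omega) hσ h4z
  have hFσ : S.red σ ^ p = (legendreSym p 2 : k) * S.red σ :=
    S.frob_sq (by omega) (d := 2) (by push_cast; exact hσ)
  have hss := ss3 S (p := p) (by
    have : p ≠ 4 := by rintro rfl; exact absurd hp.out (by norm_num)
    omega) hz1r hσr hpsi (by
    rw [hFσ, hc2, Even.neg_one_pow (Nat.even_iff.mpr (by omega))]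
    push_cast
    intro h0
    have : 2 * S.red σ = 0 := by linear_combination h0
    exact mul_ne_zero r2' hσr this)
  have hss4 : lg (4 * p / 3) (S.red z) = 0 := by
    have e : 4 * p / 3 = p + p / 3 := by omega
    rw [e, lg_schur (p := p) _ _ (by omega), hss, mul_zero]
  have : CharZero O := charZero_O S hq
  obtain ⟨g1, g2⟩ := comb1_p iv (p := p) (by omega) h6 z hiv
  rw [← hq, ← S.red_iff, map_sub, sub_eq_zero, lg_cast, ht] at g1 g2
  rw [hss] at g1
  rw [hss4, map_mul, h12z] at g2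
  refine ⟨g1.symm, ?_⟩
  have hv0r : S.red v ≠ 0 := by
    refine S.ne_mul (y := 2) (n := 1) ?_ n1
    push_cast; linear_combination hv
  refine (mul_eq_zero.mp g2.symm).resolve_left ?_
  rw [map_mul]
  exact mul_ne_zero hσr hv0r

end tg

end Pool.Agent.H546
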