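import Pool.Agent.H546.Util
import Pool.Agent.H546.TNdat

set_option autoImplicit false

/-!
# The sum with `(-12)³`
-/

namespace Pool.Agent.H546

open Finset
open Pool.Agent.Q267.CDE (R)
open Pool.Agent.Q267.MW (u3)

section tn

local instance fact17' : Fact (Nat.Prime 17) := ⟨by norm_num⟩

variable (p : ℕ) [hp : Fact p.Prime]

theorem tn_main (h5 : 5 < p) (h17 : p ≠ 17) {wi : R p} (hwi : ((-1728 : ℤ) : R p) * wi = 1) :
    (∀ x y : ℤ, 16 ≤ p → p % 3 = 1 → legendreSym 17 p = 1 → 4 * (p : ℤ) = x ^ 2 + 51 * y ^ 2 →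
      ∑ k ∈ range p, (k.centralBinom : R p) * ((u3 k : ℕ) : R p) * wi ^ k = ((x ^ 2 - 2 * p : ℤ) : R p)) ∧
    (∀ x y : ℤ, 16 ≤ p → p % 3 = 2 → legendreSym 17 p = -1 → 4 * (p : ℤ) = 3 * x ^ 2 + 17 * y ^ 2 →
      ∑ k ∈ range p, (k.centralBinom : R p) * ((u3 k : ℕ) : R p) * wi ^ k = ((2 * p - 3 * x ^ 2 : ℤ) : R p)) ∧
    ((p % 3 = 1 ∧ legendreSym 17 p = -1) ∨ (p % 3 = 2 ∧ legendreSym 17 p = 1) →
      ∑ k ∈ range p, (k.centralBinom : R p) * ((u3 k : ℕ) : R p) * wi ^ k = 0) := by
  have hp2 : p ≠ 2 := by omega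
  have hp3 : p ≠ 3 := by omega
  have n2 : ¬ (p : ℤ) ∣ 2 := by
    have := ndvd_of_primes p (n := 2) (l := [2]) (by simp; norm_num) (by norm_num) (by simp; omega)
    exact_mod_cast this
  have n3 : ¬ (p : ℤ) ∣ 3 := by
    have := ndvd_of_primes p (n := 3) (l := [3]) (by simp; norm_num) (by norm_num) (by simp; omega)
    exact_mod_cast this
  have n5 : ¬ (p : ℤ) ∣ 5 := by
    have := ndvd_of_primes p (n := 5) (l := [5]) (by simp; norm_num) (by norm_num) (by simp; omega)
    exact_mod_cast this
  have n17 : ¬ (p : ℤ) ∣ 17 := by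
    have := ndvd_of_primes p (n := 17) (l := [17]) (by simp; norm_num) (by norm_num) (by simp; omega)
    exact_mod_cast this
  have hpz : Prime (p : ℤ) := Nat.prime_iff_prime_int.mp hp.out
  have r2 := red_int_ne n2
  have r3 := red_int_ne n3
  have r17 := red_int_ne n17
  rw [Int.cast_ofNat] at r2 r3 r17
  have r2' : (2 : kb p) ≠ 0 := by rw [map_ofNat] at r2; exact r2
  have r3' : (3 : kb p) ≠ 0 := by rw [map_ofNat] at r3; exact r3
  obtain ⟨v, hv⟩ := ((SW p).unit_of_red r2).exists_right_inv
  obtain ⟨σ, hσ⟩ := wo_isqrt p hp2 n17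
  obtain ⟨ρ, hρ⟩ := wo_isqrt p hp2 (d := -3) (by rwa [dvd_neg])
  push_cast at hσ hρ
  have h2O : (2 : WO p) ≠ 0 := by intro h0; rw [h0, map_zero] at r2; exact r2 rfl
  have h4O : (4 : WO p) ≠ 0 := by
    have : (4 : WO p) = 2 * 2 := by norm_num
    rw [this]; exact mul_ne_zero h2O h2O
  have h16O : (16 : WO p) ≠ 0 := by
    have : (16 : WO p) = 4 * 4 := by norm_num
    rw [this]; exact mul_ne_zero h4O h4O
  obtain ⟨z, hz⟩ : ∃ z, z = v * (1 - σ * v ^ 2) := ⟨_, rfl⟩
  have h4v : 4 * v ^ 2 = 1 := by linear_combination (2 * v + 1) * hv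
  have h8z : 8 * z = 4 - σ := by rw [hz]; linear_combination (4 - 4 * σ * v ^ 2) * hv - σ * h4v
  have h8z1 : 8 * (1 - z) = 4 + σ := by linear_combination -h8z
  have hMz : ((-1728 : ℤ) : WO p) * (z * (1 - z)) = 27 := by
    apply mul_left_cancel₀ h4O
    apply mul_left_cancel₀ h16O
    push_cast
    linear_combination (-1728 * (8 * (1 - z))) * h8z - 1728 * (4 - σ) * h8z1 + 1728 * hσ
  have hzr : (SW p).red z ≠ 0 := by
    refine red_ne_mul (y := -1728 * (1 - z)) (n := 27) ?_ ?_
    · push_cast at hMz ⊢; linear_combination hMz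
    · have := ndvd_of_primes p (n := 27) (l := [3, 3, 3]) (by simp; norm_num) (by norm_num) (by simp; omega)
      exact_mod_cast this
  have hz1r : (SW p).red (1 - z) ≠ 0 := by
    refine red_ne_mul (y := -1728 * z) (n := 27) ?_ ?_
    · push_cast at hMz ⊢; linear_combination hMz
    · have := ndvd_of_primes p (n := 27) (l := [3, 3, 3]) (by simp; norm_num) (by norm_num) (by simp; omega)
      exact_mod_cast this
  have hM : ¬ (p : ℤ) ∣ -1728 := by
    rw [dvd_neg]
    have := ndvd_of_primes p (n := 1728) (l := [2, 2, 2, 2, 2, 2, 3, 3, 3]) (by simp; norm_num) (by norm_num)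
      (by simp; omega)
    exact_mod_cast this
  -- the multiplier
  obtain ⟨m, hm⟩ : ∃ m, m = v * (σ - ρ) := ⟨_, rfl⟩
  have h2m : 2 * m = σ - ρ := by rw [hm]; linear_combination (σ - ρ) * hv
  have hm2 : 2 * m ^ 2 = 7 - σ * ρ := by
    apply mul_left_cancel₀ h2O
    linear_combination (2 * m + (σ - ρ)) * h2m + hσ + hρ
  have hm4 : 2 * m ^ 4 = -1 - 7 * (σ * ρ) := by
    apply mul_left_cancel₀ h2O
    linear_combination (2 * m ^ 2 + (7 - σ * ρ)) * hm2 + σ ^ 2 * hρ - 3 * hσ
  have hm6 : m ^ 6 = -91 - 12 * (σ * ρ) := by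
    apply mul_left_cancel₀ h4O
    linear_combination 2 * m ^ 4 * hm2 + (7 - σ * ρ) * hm4 + 7 * σ ^ 2 * hρ - 21 * hσ
  have hmr : (SW p).red m ≠ 0 := by
    refine red_ne_mul (y := 2 * (σ + ρ)) (n := 20) ?_ ?_
    · push_cast; linear_combination (σ + ρ) * h2m + hσ - hρ
    · have := ndvd_of_primes p (n := 20) (l := [2, 2, 5]) (by simp; norm_num) (by norm_num) (by simp; omega)
      exact_mod_cast this
  have hh3 : (SW p).red ((tnh (Polynomial.C σ) (Polynomial.C ρ) (Polynomial.X)).eval 3) ≠ 0 := by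
    rw [tnh_eval]
    refine red_ne_mul (n := 80) (by push_cast; exact tn_h3 hσ hρ) ?_
    have := ndvd_of_primes p (n := 80) (l := [2, 2, 2, 2, 5]) (by simp; norm_num) (by norm_num) (by simp; omega)
    exact_mod_cast this
  have hode : cub (ca (4 * z)) (cb (4 * z)) * Polynomial.C 1 *
        (Polynomial.derivative (tnN (Polynomial.C σ) (Polynomial.C ρ) Polynomial.X) *
          tnh (Polynomial.C σ) (Polynomial.C ρ) Polynomial.X - 2 *
          tnN (Polynomial.C σ) (Polynomial.C ρ) Polynomial.X *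
          Polynomial.derivative (tnh (Polynomial.C σ) (Polynomial.C ρ) Polynomial.X)) ^ 2 =
      tnN (Polynomial.C σ) (Polynomial.C ρ) Polynomial.X ^ 3 +
        Polynomial.C (ca (4 * (1 - z)) * m ^ 4) * Polynomial.C 1 ^ 2 *
          tnN (Polynomial.C σ) (Polynomial.C ρ) Polynomial.X *
          tnh (Polynomial.C σ) (Polynomial.C ρ) Polynomial.X ^ 4 +
        Polynomial.C (cb (4 * (1 - z)) * m ^ 6) * Polynomial.C 1 ^ 3 *
          tnh (Polynomial.C σ) (Polynomial.C ρ) Polynomial.X ^ 6 := by
    have hσC : (Polynomial.C σ : Polynomial (WO p)) ^ 2 = 17 := by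
      rw [← Polynomial.C_pow, hσ, map_ofNat]
    have hρC : (Polynomial.C ρ : Polynomial (WO p)) ^ 2 = -3 := by
      rw [← Polynomial.C_pow, hρ, Polynomial.C_neg, map_ofNat]
    have key := tn_alg (X := (Polynomial.X : Polynomial (WO p))) hσC hρC
    rw [← tnN_der, ← tnh_der] at key
    have eF : tnF (Polynomial.C σ) (Polynomial.C ρ) (Polynomial.X : Polynomial (WO p)) =
        4 * cub (ca (4 * z)) (cb (4 * z)) := by
      have hzC : 8 * (Polynomial.C z : Polynomial (WO p)) = 4 - Polynomial.C σ := by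
        have := congrArg (Polynomial.C : WO p → Polynomial (WO p)) h8z
        simpa only [Polynomial.C_mul, Polynomial.C_sub, map_ofNat] using this
      simp only [tnF, cub, ca, cb, Polynomial.C_mul, Polynomial.C_sub, Polynomial.C_add, Polynomial.C_pow,
        map_ofNat]
      linear_combination (-(12 * Polynomial.X + (8 * Polynomial.C z + (4 - Polynomial.C σ)) - 36)) * hzC - hσC
    have eA : 2 * Polynomial.C (ca (4 * (1 - z)) * m ^ 4) = tnAM (Polynomial.C σ) (Polynomial.C ρ) (Polynomial.X : Polynomial (WO p)) := by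
      have : 2 * (ca (4 * (1 - z)) * m ^ 4) = 105 * σ * ρ - 3 * σ - 357 * ρ + 15 := by
        simp only [ca]
        linear_combination (24 * (1 - z) - 27) * hm4 + (-1 - 7 * (σ * ρ)) * 3 * h8z1 - 21 * ρ * hσ
      have h := congrArg (Polynomial.C : WO p → Polynomial (WO p)) this
      simpa only [Polynomial.C_mul, Polynomial.C_sub, Polynomial.C_add, map_ofNat, tnAM] using h
    have eB : 4 * Polynomial.C (cb (4 * (1 - z)) * m ^ 6) = tnBM (Polynomial.C σ) (Polynomial.C ρ) (Polynomial.X : Polynomial (WO p)) := by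
      have : 4 * (cb (4 * (1 - z)) * m ^ 6) = -(1260 * σ * ρ) + 2548 * σ + 5712 * ρ - 9555 := by
        have hb : 4 * cb (4 * (1 - z)) = 105 - 28 * σ := by
          simp only [cb]
          linear_combination (8 * (1 - z) + (4 + σ) - 36) * h8z1 + hσ
        linear_combination (m ^ 6) * hb + (105 - 28 * σ) * hm6 + 336 * ρ * hσ
      have h := congrArg (Polynomial.C : WO p → Polynomial (WO p)) this
      have e : (tnBM (Polynomial.C σ) (Polynomial.C ρ) (Polynomial.X : Polynomial (WO p))) =
        Polynomial.C (-(1260 * σ * ρ) + 2548 * σ + 5712 * ρ - 9555) := by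
        simp only [Polynomial.C_mul, Polynomial.C_sub, Polynomial.C_add, Polynomial.C_neg, map_ofNat, tnBM]
        ring
      rw [e, ← h]
      simp only [Polynomial.C_mul, map_ofNat]
    have h4C : (4 : Polynomial (WO p)) ≠ 0 := by
      have : (4 : Polynomial (WO p)) = Polynomial.C 4 := (map_ofNat _ 4).symm
      rw [this]; exact Polynomial.C_ne_zero.mpr h4O
    apply mul_left_cancel₀ h4C
    rw [eF, ← eA, ← eB] at key
    rw [Polynomial.C_1]
    linear_combination key
  have hmono : (tnN (Polynomial.C σ) (Polynomial.C ρ) (Polynomial.X : Polynomial (WO p))).coeff 5 = 400 := tnN_lc σ ρ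
  have h400 : (SW p).red (400 : WO p) ≠ 0 := by
    have := red_int_ne (p := p) (n := 400) (by
      have := ndvd_of_primes p (n := 400) (l := [2, 2, 2, 2, 5, 5]) (by simp; norm_num) (by norm_num)
        (by simp; omega)
      exact_mod_cast this)
    exact_mod_cast this
  have hdn : (tnN (Polynomial.C σ) (Polynomial.C ρ) (Polynomial.X : Polynomial (WO p))).natDegree = 5 := by
    refine le_antisymm (tnN_deg σ ρ) (Polynomial.le_natDegree_of_ne_zero ?_)
    rw [hmono]
    intro h0; rw [h0, map_zero] at h400; exact h400 rfl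
  have hpsi : Dat (SW p) (cub (ca (4 * z)) (cb (4 * z))) (ca (4 * (1 - z))) (cb (4 * (1 - z))) m 5 := by
    have hσC : (Polynomial.C σ : Polynomial (WO p)) ^ 2 = 17 := by
      rw [← Polynomial.C_pow, hσ, map_ofNat]
    have hρC : (Polynomial.C ρ : Polynomial (WO p)) ^ 2 = -3 := by
      rw [← Polynomial.C_pow, hρ, Polynomial.C_neg, map_ofNat]
    have bez := tn_bez (X := (Polynomial.X : Polynomial (WO p))) hσC hρC
    have e4 : (43200 : Polynomial (WO p)) = Polynomial.C 43200 := (map_ofNat _ _).symm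
    rw [e4] at bez
    refine Dat.of_sq (SW p) (c := 1) hode ?_ hmr ?_ ?_ hdn ?_ bez ?_
    · rw [map_one]; exact one_ne_zero
    · rintro h0; rw [h0, Polynomial.eval_zero, map_zero] at hh3; exact hh3 rfl
    · rw [hdn]
      have := tnh_deg σ ρ
      omega
    · rw [Polynomial.leadingCoeff, hdn, hmono]; exact h400
    · have := ndvd_of_primes p (n := 43200) (l := [2, 2, 2, 2, 2, 2, 3, 3, 3, 5, 5])
        (by simp; norm_num) (by norm_num) (by simp; omega)
      have := red_int_ne (n := 43200) (by exact_mod_cast this)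
      exact_mod_cast this
  -- Frobenius
  set F := frobenius (kb p) p with hF
  have hFσ : F ((SW p).red σ) = (legendreSym p 17 : kb p) * (SW p).red σ := by
    refine frob_sqrt hp2 (d := 17) ?_
    rw [← map_pow, hσ]; push_cast; exact map_ofNat _ _
  have hFρ : F ((SW p).red ρ) = (legendreSym p (-3) : kb p) * (SW p).red ρ := by
    refine frob_sqrt hp2 (d := -3) ?_
    rw [← map_pow, hρ]; push_cast; rw [map_neg, map_ofNat]
  have hrec : legendreSym p 17 = legendreSym 17 p := by
    have := leg_rec (p := p) (q := 17) (by norm_num) hp2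
    exact_mod_cast this
  rw [hrec] at hFσ
  rw [legm3 hp2 hp3] at hFρ
  have hFv : F ((SW p).red v) = (SW p).red v := by
    have h1 : (2 : kb p) * (SW p).red v = 1 := by
      have := congrArg (SW p).red hv
      rwa [map_mul, map_ofNat, map_one] at this
    have h2 := congrArg F h1
    rw [map_mul, map_ofNat, map_one] at h2
    apply mul_left_cancel₀ r2'
    rw [h1, h2]
  have hFz : (SW p).red z ^ p = (SW p).red v * (1 - F ((SW p).red σ) * (SW p).red v ^ 2) := by
    have h1 : (SW p).red z ^ p = F ((SW p).red z) := rfl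
    have h2 : (SW p).red z = (SW p).red v * (1 - (SW p).red σ * (SW p).red v ^ 2) := by
      rw [hz, map_mul, map_sub, map_one, map_mul, map_pow]
    rw [h1, h2, map_mul, hFv, map_sub, map_one, map_mul, map_pow, hFv]
  have hcl : ∀ ε : ℤ, (p % 3 = 1 ∧ legendreSym 17 p = 1) ∨ (p % 3 = 2 ∧ legendreSym 17 p = -1) →
      p ≠ 7 ∧ p ≠ 47 := by
    intro _ hc
    constructor
    · rintro rfl
      have : legendreSym 17 ((7 : ℕ) : ℤ) = -1 := by decide
      rw [this] at hc
      omega
    · rintro rfl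
      have : legendreSym 17 ((47 : ℕ) : ℤ) = 1 := by decide
      rw [this] at hc
      omega
  have ha0 : (SW p).red (ca (4 * z)) ≠ 0 := by
    refine red_ne_mul (y := ca (4 * (1 - z))) (n := 72) ?_ ?_
    · simp only [ca]; push_cast
      linear_combination (3 * (24 * (1 - z) - 27)) * h8z + (12 - 3 * σ - 27) * 3 * h8z1 - 9 * hσ
    · have := ndvd_of_primes p (n := 72) (l := [2, 2, 2, 3, 3]) (by simp; norm_num) (by norm_num)
        (by simp; omega)
      exact_mod_cast this
  have hb0 : p ≠ 7 ∧ p ≠ 47 → (SW p).red (cb (4 * z)) ≠ 0 := by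
    intro hc
    refine red_ne_mul (y := 16 * cb (4 * (1 - z))) (n := -2303) ?_ ?_
    · have hb : 4 * cb (4 * (1 - z)) = 105 - 28 * σ := by
        simp only [cb]
        linear_combination (8 * (1 - z) + (4 + σ) - 36) * h8z1 + hσ
      have hb' : 4 * cb (4 * z) = 105 + 28 * σ := by
        simp only [cb]
        linear_combination (8 * z + (4 - σ) - 36) * h8z + hσ
      push_cast
      linear_combination (4 * cb (4 * (1 - z))) * hb' + (105 + 28 * σ) * hb - 784 * hσ
    · rw [dvd_neg]
      have := ndvd_of_primes p (n := 2303) (l := [7, 7, 47]) (by simp; norm_num) (by norm_num)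
        (by simp; omega)
      exact_mod_cast this
  have hp5 : 5 ≤ p := by omega
  have hcop15 : ¬ (p : ℤ) ∣ ((3 * 5 : ℕ) : ℤ) := by
    have := ndvd_of_primes p (n := 15) (l := [3, 5]) (by simp; norm_num) (by norm_num) (by simp; omega)
    exact_mod_cast this
  have hcop1 : ¬ (p : ℤ) ∣ ((1 : ℕ) : ℤ) := by
    intro h; exact hpz.not_unit (isUnit_of_dvd_one (by exact_mod_cast h))
  have h4r : (SW p).red (4 * z) ≠ 0 ∧ (SW p).red (4 * (1 - z)) ≠ 0 := by
    have h4 : (SW p).red 4 ≠ 0 := by
      have := red_int_ne (p := p) (n := 4) (by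
        have := ndvd_of_primes p (n := 4) (l := [2, 2]) (by simp; norm_num) (by norm_num) (by simp; omega)
        exact_mod_cast this)
      exact_mod_cast this
    rw [map_mul, map_mul]
    exact ⟨mul_ne_zero h4 hzr, mul_ne_zero h4 hz1r⟩
  have hm0 : m ≠ 0 := by intro h0; rw [h0, map_zero] at hmr; exact hmr rfl
  have hρ0 : ρ ≠ 0 := by
    intro h0
    rw [h0] at hρ
    apply r3
    have : (3 : WO p) = 0 := by linear_combination hρ
    rw [this, map_zero]
  refine ⟨?_, ?_, ?_⟩
  · intro x y h16 hc3 hc17 hxy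
    have hz' : (SW p).red z = (SW p).red z ^ p := by
      rw [hFz, hFσ, hc17, hz, map_mul, map_sub, map_one, map_mul, map_pow]; push_cast; ring
    have d2 := Dat.nu (SW p) (r := ρ) hpsi r2' r3' h4r.2 hρ
    have e4 : 4 - 4 * (1 - z) = 4 * z := by ring
    rw [e4] at d2
    obtain ⟨r, hr⟩ : ∃ r, x = 2 * r + 3 * y := by
      have h2 : (x - 3 * y) % 2 = 0 := by
        rcases Int.even_or_odd' x with ⟨a, ha | ha⟩ <;> rcases Int.even_or_odd' y with ⟨b, hb | hb⟩
        · omega
        · exfalso
          rw [ha, hb] at hxy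
          ring_nf at hxy
          omega
        · exfalso
          rw [ha, hb] at hxy
          ring_nf at hxy
          omega
        · omega
      exact ⟨(x - 3 * y) / 2, by omega⟩
    have := sum_form_half (SW p) hp5 (SW_q p) (z := z) (z' := z) (M := -1728) hM hMz hzr hz1r hz' ha0
      (hb0 (hcl 1 (Or.inl ⟨hc3, hc17⟩))) one_ne_zero (mul_ne_zero hm0 hρ0) (Dat.id (SW p) _ _) d2
      (κ := σ * ρ) (e := 3) (D' := 51) (c := 1) (by norm_num) (by push_cast; ring)
      (by push_cast; linear_combination ρ * h2m - hρ) (by push_cast; linear_combination ρ ^ 2 * hσ + 17 * hρ)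
      (by norm_num) x y r (by rw [hxy]; push_cast; ring) hr hcop1 hcop15 (by norm_num) (by nlinarith) hwi
    rw [this]
    congr 1
    push_cast
    ring
  · intro x y h16 hc3 hc17 hxy
    have hz' : (SW p).red (1 - z) = (SW p).red z ^ p := by
      have h1 : 1 - z = v * (1 + σ * v ^ 2) := by rw [hz]; linear_combination -hv
      rw [hFz, hFσ, hc17, h1, map_mul, map_add, map_one, map_mul, map_pow]; push_cast; ring
    have d1 := Dat.nu (SW p) (r := ρ) (Dat.id (SW p) (ca (4 * z)) (cb (4 * z))) r2' r3' h4r.1 hρ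
    have e4 : 4 - 4 * z = 4 * (1 - z) := by ring
    rw [e4] at d1
    obtain ⟨r, hr⟩ : ∃ r, x = 2 * r + (-1) * y := by
      have h2 : (x + y) % 2 = 0 := by
        rcases Int.even_or_odd' x with ⟨a, ha | ha⟩ <;> rcases Int.even_or_odd' y with ⟨b, hb | hb⟩
        · omega
        · exfalso
          rw [ha, hb] at hxy
          ring_nf at hxy
          omega
        · exfalso
          rw [ha, hb] at hxy
          ring_nf at hxy
          omega
        · omega
      exact ⟨(x + y) / 2, by omega⟩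
    have := sum_form_half (SW p) hp5 (SW_q p) (z := z) (z' := 1 - z) (M := -1728) hM hMz hzr hz1r hz' ha0
      (hb0 (hcl 1 (Or.inr ⟨hc3, hc17⟩))) (mul_ne_zero one_ne_zero hρ0) hm0 d1 hpsi
      (κ := σ) (e := -1) (D' := 17) (c := -1) (by norm_num) (by push_cast; linear_combination hρ)
      (by push_cast; linear_combination h2m) (by push_cast; linear_combination hσ)
      (by norm_num) x y r (by rw [hxy]; push_cast; ring) hr (by exact_mod_cast n3) (by exact_mod_cast n5)
      (by norm_num) (by nlinarith) hwi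
    rw [this]
    congr 1
    push_cast
    ring
  · intro hc
    refine sum_form_zero (SW p) hp5 (SW_q p) (m := m) (c := 1) (M := -1728) hMz hz1r
      (n := tnN (Polynomial.C σ) (Polynomial.C ρ) Polynomial.X)
      (h := tnh (Polynomial.C σ) (Polynomial.C ρ) Polynomial.X)
      hode hmr ?_ hh3 ?_ ?_ hwi
    · rw [map_one]; exact one_ne_zero
    · rw [tnN_eval, tnh_eval]
      have h3 := tn_three hσ hρ
      apply mul_left_cancel₀ h2O
      rw [h3]
      simp only [tnM2]
      linear_combination (-3 * tnh σ ρ 3 ^ 2) * hm2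
    · have hmm : (SW p).red m = (SW p).red v * ((SW p).red σ - (SW p).red ρ) := by
        rw [hm, map_mul, map_sub]
      have hFm : (SW p).red m ^ p = (SW p).red v * (F ((SW p).red σ) - F ((SW p).red ρ)) := by
        have h1 : (SW p).red m ^ p = F ((SW p).red m) := rfl
        rw [h1, hmm, map_mul, hFv, map_sub]
      have hσr : (SW p).red σ ≠ 0 := by
        refine red_ne_mul (y := σ) (n := 17) ?_ n17
        push_cast; linear_combination hσ
      have hvv : 2 * (SW p).red v = 1 := by
        have := congrArg (SW p).red hv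
        rwa [map_mul, map_ofNat, map_one] at this
      rw [hFm, par3 (by omega) hp2, hFσ, hFρ, hmm]
      rcases hc with ⟨h, h'⟩ | ⟨h, h'⟩
      · rw [if_pos h, if_pos h, h']
        intro h0; apply hσr; push_cast at h0
        linear_combination h0 - (SW p).red σ * hvv
      · rw [if_neg (by omega), if_neg (by omega), h']
        intro h0; apply hσr; push_cast at h0
        linear_combination h0 - (SW p).red σ * hvv

end tn

end Pool.Agent.H546
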