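import Pool.Agent.H546.Form

set_option autoImplicit false

/-!
# The model `W² = A u³ + (3u+1)²` of the cubic family
-/

namespace Pool.Agent.H546

open Polynomial

section ring

variable {R : Type*} [CommRing R]

/-- coefficients of the short Weierstrass form -/
def ca (A : R) : R := 6 * A - 27
def cb (A : R) : R := A ^ 2 - 18 * A + 54

/-- the right hand side of the `u`-model -/
noncomputable def wu (A : R) : R[X] := C A * X ^ 3 + (3 * X + 1) ^ 2

/-- the homogenised right hand side -/
noncomputable def tu (A : R) (n d : R[X]) : R[X] := d * (C A * n ^ 3 + (3 * n + d) ^ 2 * d)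

theorem ca_map {T : Type*} [CommRing T] (g : R →+* T) (A : R) : g (ca A) = ca (g A) := by
  simp [ca, map_ofNat]

theorem cb_map {T : Type*} [CommRing T] (g : R →+* T) (A : R) : g (cb A) = cb (g A) := by
  simp [cb, map_ofNat]

theorem cub_comp (A : R) : (cub (ca A) (cb A)).comp (C A * X + 3) = C A ^ 2 * wu A := by
  simp only [cub, ca, cb, wu, add_comp, mul_comp, pow_comp, X_comp, C_comp, C_add, C_sub, C_mul, C_pow,
    map_ofNat, sub_comp, ofNat_comp]
  ring

theorem tgt_tu (A : R) (N D : R[X]) :
    tgt (ca A) (cb A) (C A * N + 3 * D) D = C A ^ 2 * tu A N D := by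
  simp only [tgt, ca, cb, tu, C_add, C_sub, C_mul, C_pow, map_ofNat]
  ring

theorem wr_comp (n d : R[X]) (A : R) :
    wr (n.comp (C A * X + 3)) (d.comp (C A * X + 3)) = C A * (wr n d).comp (C A * X + 3) := by
  simp only [wr, derivative_comp, sub_comp, mul_comp]
  have : derivative (C A * X + 3 : R[X]) = C A := by
    simp
  rw [this]
  ring

theorem wr_sub (n d : R[X]) (c e : R) : wr (C e * (n - C c * d)) d = C e * wr n d := by
  simp only [wr, derivative_mul, derivative_C, derivative_sub]; ring

end ring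

variable {O K k : Type*} [CommRing O] [IsDomain O] [Field K] [Algebra O K] [Field k]
  (S : DV O K k)

theorem disc_ne (A : O) : 4 * (ca A) ^ 3 + 27 * (cb A) ^ 2 = 27 * A ^ 3 * (A - 4) := by
  simp only [ca, cb]; ring

/-- passage to the `u`-model -/
theorem to_u {p : ℕ} [hp : Fact p.Prime] [CharP k p] {A A' w : O} (hA : S.red A ≠ 0)
    (hA' : S.red A' = S.red A ^ p) {n d M : O[X]} (hn : n.map S.red = X ^ p) (hd : d.map S.red = 1)
    (hnd : n.natDegree ≤ p) (hdd : d.natDegree < p) (hwr : wr n d = C S.q * M)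
    (ode : cub (ca A) (cb A) * M ^ 2 = C w ^ 2 * tgt (ca A') (cb A') n d) :
    ∃ N D M' : O[X], N.map S.red = X ^ p ∧ D.map S.red = 1 ∧ N.natDegree ≤ p ∧ D.natDegree < p ∧
      wr N D = C S.q * M' ∧ wu A * M' ^ 2 = C w ^ 2 * tu A' N D := by
  have hp0 := hp.out.pos
  have hA'0 : S.red A' ≠ 0 := by rw [hA']; exact pow_ne_zero _ hA
  obtain ⟨e, he⟩ := (S.unit_of_red hA'0).exists_left_inv
  have hdl : (C A * X + 3 : O[X]).natDegree ≤ 1 := by compute_degree
  set n1 := n.comp (C A * X + 3) with hn1
  set D := d.comp (C A * X + 3) with hD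
  have hn1d : n1.natDegree ≤ p := by
    rw [hn1]
    refine natDegree_comp_le.trans ?_
    calc n.natDegree * (C A * X + 3 : O[X]).natDegree ≤ p * 1 := Nat.mul_le_mul hnd hdl
      _ = p := mul_one p
  have hDd : D.natDegree < p := by
    rw [hD]
    refine lt_of_le_of_lt natDegree_comp_le ?_
    calc d.natDegree * (C A * X + 3 : O[X]).natDegree ≤ d.natDegree * 1 := Nat.mul_le_mul le_rfl hdl
      _ < p := by rw [mul_one]; exact hdd
  have h3p : (3 : k[X]) ^ p = 3 := by
    have h := frobenius_def (R := k[X]) p 3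
    have h' : (frobenius k[X] p) 3 = 3 := map_ofNat _ 3
    rw [← h, h']
  have hDr : D.map S.red = 1 := by
    rw [hD, Polynomial.map_comp, hd]; simp
  have hn1r : n1.map S.red = C (S.red A') * X ^ p + 3 := by
    rw [hn1, Polynomial.map_comp, hn, pow_comp, X_comp, Polynomial.map_add, Polynomial.map_mul,
      map_C, map_X, Polynomial.map_ofNat, add_pow_char, mul_pow, ← C_pow, ← hA', h3p]
  refine ⟨C e * (n1 - C 3 * D), D, C (e * A) * M.comp (C A * X + 3), ?_, hDr, ?_, hDd, ?_, ?_⟩
  · rw [Polynomial.map_mul, Polynomial.map_sub, Polynomial.map_mul, map_C, map_C, hn1r, hDr]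
    have h1 : C (S.red e) * C (S.red A') = (1 : k[X]) := by
      rw [← C_mul, ← map_mul, he, map_one, C_1]
    have h3 : (C (S.red 3) : k[X]) = 3 := by simp [map_ofNat]
    rw [h3]
    linear_combination X ^ p * h1
  · refine (natDegree_C_mul_le _ _).trans ?_
    refine (natDegree_sub_le _ _).trans (max_le hn1d ?_)
    exact (natDegree_C_mul_le _ _).trans hDd.le
  · rw [wr_sub, hn1, hD, wr_comp, hwr, mul_comp, C_comp]
    simp only [C_mul]
    ring
  · have hcomp := congrArg (fun P => P.comp (C A * X + 3)) ode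
    simp only [mul_comp, pow_comp, C_comp, cub_comp] at hcomp
    have ht : (tgt (ca A') (cb A') n d).comp (C A * X + 3) =
        tgt (ca A') (cb A') (C A' * (C e * (n1 - C 3 * D)) + 3 * D) D := by
      have he' : C e * C A' = (1 : O[X]) := by rw [← C_mul, he, C_1]
      have : C A' * (C e * (n1 - C 3 * D)) + 3 * D = n1 := by
        have h3 : (C 3 : O[X]) = 3 := map_ofNat C 3
        rw [h3]
        linear_combination (n1 - 3 * D) * he'
      rw [this, hn1, hD]
      simp only [tgt, mul_comp, add_comp, pow_comp, C_comp]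
    rw [ht, tgt_tu] at hcomp
    have he' : C e * C A' = (1 : O[X]) := by rw [← C_mul, he, C_1]
    simp only [C_mul]
    linear_combination C e ^ 2 * hcomp + C w ^ 2 * tu A' (C e * (n1 - C 3 * D)) D * (C e * C A' + 1) * he'

/-- the shape of the correction polynomial -/
theorem corr {p : ℕ} [hp : Fact p.Prime] [CharP k p] (hp2 : p ≠ 2) (hq : S.q = (p : O)) {A A' w : O}
    (hA : S.red A ≠ 0) (hA' : S.red A' = S.red A ^ p) (hw : S.red w ≠ 0) {N D M : O[X]}
    (hN : N.map S.red = X ^ p) (hD : D.map S.red = 1) (hNd : N.natDegree ≤ p) (hDd : D.natDegree < p)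
    (hwr : wr N D = C S.q * M) (ode : wu A * M ^ 2 = C w ^ 2 * tu A' N D) :
    ∃ T : O[X], N = X ^ p * D + C S.q * T ∧ T.natDegree ≤ 2 * p - 1 ∧
      (∀ i, 3 * p < 2 * i + 1 → S.red (T.coeff i) = 0) := by
  have hp0 := hp.out.pos
  have hqC : (C S.q : O[X]) ≠ 0 := C_ne_zero.mpr S.q_ne
  obtain ⟨T, hT⟩ := S.dvd_of_map (P := N - X ^ p * D) (by
    rw [Polynomial.map_sub, Polynomial.map_mul, Polynomial.map_pow, map_X, hN, hD, mul_one, sub_self])
  have hNT : N = X ^ p * D + C S.q * T := by rw [← hT]; ring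
  have hTd : T.natDegree ≤ 2 * p - 1 := by
    rw [← natDegree_C_mul S.q_ne, ← hT]
    refine (natDegree_sub_le _ _).trans (max_le (by omega) ?_)
    refine natDegree_mul_le.trans ?_
    rw [natDegree_X_pow]
    omega
  have hM : M = X ^ (p - 1) * D ^ 2 + wr T D := by
    apply mul_left_cancel₀ hqC
    rw [← hwr, hNT]
    have : (C S.q : O[X]) = (p : O[X]) := by rw [hq]; simp
    simp only [wr, derivative_add, derivative_mul, derivative_X_pow, derivative_C, zero_mul, zero_add]
    rw [this]
    simp only [map_natCast]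
    ring
  refine ⟨T, hNT, hTd, ?_⟩
  -- reduce the equation
  have h1 := congrArg (Polynomial.map S.red) ode
  rw [Polynomial.map_mul, Polynomial.map_pow, Polynomial.map_mul, Polynomial.map_pow, map_C] at h1
  have e1 : (wu A).map S.red = wu (S.red A) := by simp [wu]
  have e2 : (tu A' N D).map S.red = wu (S.red A) ^ p := by
    have h3p : (3 : k[X]) ^ p = 3 := by
      have h := frobenius_def (R := k[X]) p 3
      have h' : (frobenius k[X] p) 3 = 3 := map_ofNat _ 3
      rw [← h, h']
    have hpp : (wu (S.red A)) ^ p = C (S.red A') * (X ^ p) ^ 3 + (3 * X ^ p + 1) ^ 2 := by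
      unfold wu
      rw [add_pow_char, mul_pow, ← C_pow, ← hA', ← pow_mul, ← pow_mul, ← pow_mul, mul_comm 2 p, pow_mul (3 * X + 1),
        add_pow_char, mul_pow, h3p, one_pow, mul_comm 3 p]
    rw [hpp]
    simp [tu, hN, hD]
  rw [e1, e2] at h1
  have hf : wu (S.red A) ≠ 0 := by
    intro h0
    have := congrArg (fun Q => Q.coeff 3) h0
    have e : (wu (S.red A)).coeff 3 = S.red A := by
      have : wu (S.red A) = C (S.red A) * X ^ 3 + C 9 * X ^ 2 + C 6 * X + C 1 := by
        simp only [wu, map_ofNat, map_one]; ring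
      rw [this]
      simp [coeff_X, coeff_one]
    simp only [coeff_zero, e] at this
    exact hA this
  have hfd : (wu (S.red A)).natDegree = 3 := by
    have : wu (S.red A) = C (S.red A) * X ^ 3 + C 9 * X ^ 2 + C 6 * X + C 1 := by
      simp only [wu, map_ofNat, map_one]; ring
    rw [this]
    compute_degree!
  have hMk : M.map S.red ≠ 0 := by
    intro h0
    rw [h0, zero_pow two_ne_zero, mul_zero] at h1
    exact mul_ne_zero (pow_ne_zero 2 (C_ne_zero.mpr hw)) (pow_ne_zero p hf) h1.symm
  have hdM : 3 + 2 * (M.map S.red).natDegree = 3 * p := by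
    have := congrArg natDegree h1
    rw [natDegree_mul hf (pow_ne_zero 2 hMk), natDegree_pow, hfd, ← C_pow,
      natDegree_C_mul (pow_ne_zero 2 hw), natDegree_pow, hfd] at this
    omega
  have hMr : M.map S.red = X ^ (p - 1) + derivative (T.map S.red) := by
    rw [hM, Polynomial.map_add, Polynomial.map_mul, Polynomial.map_pow, Polynomial.map_pow, map_X, hD,
      wr_map, hD]
    simp [wr]
  intro i hi
  have hi1 : 1 ≤ i := by omega
  obtain ⟨j, rfl⟩ : ∃ j, i = j + 1 := ⟨i - 1, by omega⟩
  have hc := congrArg (fun Q => Q.coeff j) hMr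
  simp only [coeff_add, coeff_X_pow, coeff_derivative, coeff_map] at hc
  have hz : (M.map S.red).coeff j = 0 := coeff_eq_zero_of_natDegree_lt (by omega)
  rw [coeff_map] at hz
  rw [hz, if_neg (by omega), zero_add] at hc
  by_cases hj : 2 * p ≤ j + 1
  · rw [coeff_eq_zero_of_natDegree_lt (by omega), map_zero]
  · have hne : ((j : k) + 1) ≠ 0 := by
      intro h0
      have h4 : ((j + 1 : ℕ) : k) = 0 := by push_cast; exact h0
      rw [CharP.cast_eq_zero_iff k p] at h4
      obtain ⟨c, hc'⟩ := h4
      rcases c with _ | _ | c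
      · omega
      · omega
      · have : p * (c + 1 + 1) = 2 * p + p * c := by ring
        omega
    exact (mul_eq_zero.mp hc.symm).resolve_right hne


end Pool.Agent.H546
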