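import Pool.Agent.H546.W9

set_option autoImplicit false
set_option maxHeartbeats 1000000

/-!
# The sums twisted by Fibonacci and Lucas numbers modulo `p²`
-/

namespace Pool.Agent.H546

open Finset

/-- the Lucas numbers -/
def luc : ℕ → ℕ
  | 0 => 2
  | 1 => 1
  | (n + 2) => luc (n + 1) + luc n

section bin

variable {O : Type*} [CommRing O]

theorem binet {σ v : O} (hσ : σ ^ 2 = 5) (hv : 2 * v = 1) (n : ℕ) :
    σ * (Nat.fib n : O) = (v * (1 + σ)) ^ n - (v * (1 - σ)) ^ n ∧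
    (luc n : O) = (v * (1 + σ)) ^ n + (v * (1 - σ)) ^ n := by
  have h1 : (v * (1 + σ)) ^ 2 = v * (1 + σ) + 1 := by
    linear_combination v ^ 2 * hσ + (v * (1 + σ) * 1 + 2 * v + 1) * hv - (v * (1 + σ) * 0) * hv
  have h2 : (v * (1 - σ)) ^ 2 = v * (1 - σ) + 1 := by
    linear_combination v ^ 2 * hσ + (v * (1 - σ) * 1 + 2 * v + 1) * hv
  induction n using Nat.strong_induction_on with
  | _ n ih =>
    rcases n with _ | _ | n
    · simp [luc]; norm_num
    · refine ⟨?_, ?_⟩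
      · simp only [zero_add, Nat.fib_one, Nat.cast_one, pow_one]
        linear_combination (-σ) * hv
      · simp only [zero_add, luc, Nat.cast_one, pow_one]
        linear_combination (-1 : O) * hv
    · obtain ⟨a1, a2⟩ := ih n (by omega)
      obtain ⟨b1, b2⟩ := ih (n + 1) (by omega)
      refine ⟨?_, ?_⟩
      · rw [show n + 1 + 1 = n + 2 by rfl, Nat.fib_add_two]
        push_cast
        rw [pow_succ] at b1
        rw [pow_add, pow_add, h1, h2]
        linear_combination a1 + b1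
      · rw [show n + 1 + 1 = n + 2 by rfl, luc]
        push_cast
        rw [pow_succ] at b2
        rw [pow_add, pow_add, h1, h2]
        linear_combination a2 + b2

/-- the sum of `a_k G_k` -/
def sg (a : ℕ → O) (p : ℕ) (G : ℕ → ℕ) : O := ∑ k ∈ range p, a k * (G k : O)
/-- the sum of `k a_k G_k` -/
def sg1 (a : ℕ → O) (p : ℕ) (G : ℕ → ℕ) : O := ∑ k ∈ range p, k * (a k * (G k : O))

open Polynomial in
theorem sums_bin {σ v : O} (hσ : σ ^ 2 = 5) (hv : 2 * v = 1) (a : ℕ → O) (p : ℕ) :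
    σ * sg a p Nat.fib = (PF a p).eval (v * (1 + σ)) - (PF a p).eval (v * (1 - σ)) ∧
    sg a p luc = (PF a p).eval (v * (1 + σ)) + (PF a p).eval (v * (1 - σ)) ∧
    σ * sg1 a p Nat.fib = v * (1 + σ) * (derivative (PF a p)).eval (v * (1 + σ)) -
      v * (1 - σ) * (derivative (PF a p)).eval (v * (1 - σ)) ∧
    sg1 a p luc = v * (1 + σ) * (derivative (PF a p)).eval (v * (1 + σ)) +
      v * (1 - σ) * (derivative (PF a p)).eval (v * (1 - σ)) := by
  have h := fun n => (binet hσ hv n).1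
  have h' := fun n => (binet hσ hv n).2
  refine ⟨?_, ?_, ?_, ?_⟩
  · rw [PFe, PFe, sg, mul_sum, ← sum_sub_distrib]
    refine sum_congr rfl fun k _ => ?_
    linear_combination (a k) * h k
  · rw [PFe, PFe, sg, ← sum_add_distrib]
    refine sum_congr rfl fun k _ => ?_
    linear_combination (a k) * h' k
  · rw [PFze, PFze, sg1, mul_sum, ← sum_sub_distrib]
    refine sum_congr rfl fun k _ => ?_
    linear_combination (k * a k) * h k
  · rw [PFze, PFze, sg1, ← sum_add_distrib]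
    refine sum_congr rfl fun k _ => ?_
    linear_combination (k * a k) * h' k

end bin

section tf

variable {O K k : Type*} [CommRing O] [IsDomain O] [Field K] [Algebra O K] [Field k]
  (S : DV O K k) {p : ℕ} [hp : Fact p.Prime] [CharP k p]

open Polynomial in
theorem d15_main [IsAlgClosed k] (hq : S.q = (p : O)) (h16 : 16 ≤ p) {σ ρ v : O} (hσ : σ ^ 2 = 5) (hρ : ρ ^ 2 = -3)
    (hv : 2 * v = 1) (Q : QD O) (hQ : Q.v = v) {iv : ℕ → O} (hiv : ∀ n, n + 1 < p → ((n : O) + 1) * iv (n + 1) = 1)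
    {i3 i27 : O} (h3 : 3 * i3 = 1) (h27 : 27 * i27 = 1) (x y : ℤ) (h3x : (3 : ℤ) ∣ x - 1) (hpx : ¬ (p : ℤ) ∣ x) :
    (p % 3 = 1 → legendreSym p 5 = 1 → (p : ℤ) = x ^ 2 + 15 * y ^ 2 →
      (p : O) ^ 2 ∣ (15 * x) * sg1 (a3 i27) p Nat.fib - (2 * p - 4 * x ^ 2) ∧
      (p : O) ^ 2 ∣ x * sg (a3 i27) p luc - (4 * x ^ 2 - p) ∧
      (p : O) ^ 2 ∣ x * (3 * sg1 (a3 i27) p luc + 2 * sg (a3 i27) p luc) - (4 * x ^ 2)) ∧
    (p % 3 = 2 → legendreSym p 5 = -1 → (p : ℤ) = 5 * x ^ 2 + 3 * y ^ 2 →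
      (p : O) ^ 2 ∣ (5 * x) * sg (a3 i27) p Nat.fib - (p - 20 * x ^ 2) ∧
      (p : O) ^ 2 ∣ 3 * sg1 (a3 i27) p Nat.fib - 4 * x ∧
      (p : O) ^ 2 ∣ 3 * sg1 (a3 i27) p luc - 4 * x) := by
  have hp2 : p ≠ 2 := by omega
  have hp3 : p ≠ 3 := by omega
  have hodd : p % 2 = 1 := by
    rcases hp.out.eq_two_or_odd with h | h
    · exact absurd h hp2
    · exact h
  have hp33 : p % 3 ≠ 0 := by
    intro h0
    have := (Nat.prime_dvd_prime_iff_eq Nat.prime_three hp.out).mp (Nat.dvd_of_mod_eq_zero h0)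
    omega
  have r2 := S.two_ne hp2
  have r3 := S.three_ne hp3
  have r5 : S.red 5 ≠ 0 := by
    have := S.int_ne (p := p) (n := 5) (by
      have := ndvd_of_primes p (n := 5) (l := [5]) (by simp; norm_num) (by norm_num) (by simp; omega)
      exact_mod_cast this)
    exact_mod_cast this
  have rx : S.red (x : O) ≠ 0 := S.int_ne hpx
  have u2 : IsUnit (2 : O) := S.unit_of_red r2
  have u3 : IsUnit (3 : O) := S.unit_of_red r3
  have u5 : IsUnit (5 : O) := S.unit_of_red r5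
  have ux : IsUnit (x : O) := S.unit_of_red rx
  have rσ : S.red σ ≠ 0 := by
    intro h0
    apply r5
    rw [← hσ, map_pow, h0]; ring
  have uσ : IsUnit σ := S.unit_of_red rσ
  obtain ⟨m1, m2⟩ := tf_lg S hq h16 hσ hρ hv x y 1 (Or.inl rfl) h3x
  obtain ⟨s1, s2, s3, s4⟩ := sums_bin hσ hv (a3 i27) p
  set A := (PF (a3 i27) p).eval (v * (1 + σ)) with hA
  set B := (PF (a3 i27) p).eval (v * (1 - σ)) with hB
  set A' := (derivative (PF (a3 i27) p)).eval (v * (1 + σ)) with hA'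
  set B' := (derivative (PF (a3 i27) p)).eval (v * (1 - σ)) with hB'
  obtain ⟨L, hL⟩ := PF_lg iv (p := p) (by omega) h27 h3 hiv
  have hL' := congrArg (fun f => f.eval (v * (1 - σ))) hL
  simp only [eval_add, eval_mul, eval_C] at hL'
  have el : ∀ n, (lg n (X : O[X])).eval (v * (1 - σ)) = lg n (v * (1 - σ)) := by
    intro n
    have := lg_cast (Polynomial.evalRingHom (v * (1 - σ))) n X
    rw [Polynomial.coe_evalRingHom, eval_X] at this
    exact this
  have e3 : (3 : O[X]).eval (v * (1 - σ)) = 3 := by simp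
  have e2 : (2 : O[X]).eval (v * (1 - σ)) = 2 := by simp
  rw [el, el, e3, e2, ← hB] at hL'
  have sym : ∀ ε : O, ((p % 6 = 1 ∧ ε = 1) ∨ (p % 6 = 5 ∧ ε = -1)) →
      (p : O) ^ 2 ∣ B - ε * A ∧ (p : O) ^ 2 ∣ B' + ε * A' := by
    intro ε hε
    obtain ⟨M, hM⟩ := PF_sym iv (p := p) (by omega) h27 h3 hiv hε
    have hM' := congrArg derivative hM
    rw [derivative_comp, derivative_add, derivative_C_mul, derivative_C_mul, derivative_sub, derivative_one,
      derivative_X, zero_sub] at hM'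
    have g1 := congrArg (fun f => f.eval (v * (1 + σ))) hM
    have g2 := congrArg (fun f => f.eval (v * (1 + σ))) hM'
    simp only [eval_add, eval_mul, eval_C, eval_comp, eval_sub, eval_one, eval_X, eval_neg] at g1 g2
    have e1 : 1 - v * (1 + σ) = v * (1 - σ) := by linear_combination -hv
    rw [e1, ← hB, ← hA] at g1
    rw [e1, ← hB', ← hA'] at g2
    refine ⟨⟨M.eval (v * (1 + σ)), by linear_combination g1⟩,
      ⟨-(derivative M).eval (v * (1 + σ)), by linear_combination -g2⟩⟩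
  refine ⟨fun hc3 hc5 hxy => ?_, fun hc3 hc5 hxy => ?_⟩
  · obtain ⟨d1, d2⟩ := sym 1 (Or.inl ⟨by omega, rfl⟩)
    have hw := wr_fin S hq (by omega) hσ hρ hv Q hQ h27 (ε := 1) (by norm_num) hA hB hA' hB' d1 d2
    have hm := m1 hc3 hc5 hxy
    obtain ⟨b, hb⟩ := d1
    obtain ⟨b', hb'⟩ := d2
    obtain ⟨ω, hω⟩ := hw
    obtain ⟨u, hu⟩ : ∃ u, u = 4 * (x : O) ^ 2 - p := ⟨_, rfl⟩
    obtain ⟨β, hβ⟩ : ∃ β, 2 * (x : O) * B = u + (p : O) ^ 2 * β := by
      have h1 : (p : O) ^ 2 ∣ 3 * (2 * x * B - u) := by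
        obtain ⟨c, hc⟩ := hm
        refine ⟨c + 2 * x * L.eval (v * (1 - σ)), ?_⟩
        rw [hu]
        push_cast at hc
        linear_combination hc + 2 * x * hL'
      obtain ⟨c, hc⟩ := (u3.dvd_mul_left).mp h1
      exact ⟨c, by linear_combination hc⟩
    have hru : IsUnit u := by
      apply S.unit_of_red
      rw [hu, map_sub, ← hq, S.red_q, sub_zero, map_mul, map_pow]
      have h4 : S.red (4 : O) = S.red 2 * S.red 2 := by rw [← map_mul]; norm_num
      rw [h4]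
      exact mul_ne_zero (mul_ne_zero r2 r2) (pow_ne_zero 2 rx)
    obtain ⟨W, hW⟩ : ∃ W, W = 3 * σ * A' := ⟨_, rfl⟩
    have E1 : A * (2 * A + W) = 2 * p + (p : O) ^ 2 * ω := by rw [hW]; linear_combination hω
    obtain ⟨γ, hγ⟩ : ∃ γ, γ = β - 2 * x * b := ⟨_, rfl⟩
    have E2 : 2 * (x : O) * A = u + (p : O) ^ 2 * γ := by rw [hγ]; linear_combination hβ - 2 * x * hb
    have k1 : (p : O) ^ 2 ∣ (2 * u) * (u + x * W - p) := by
      refine ⟨2 + 4 * x ^ 2 * ω - 4 * u * γ - 2 * p ^ 2 * γ ^ 2 - 2 * x * W * γ, ?_⟩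
      have e : (p : O) = 4 * x ^ 2 - u := by rw [hu]; ring
      linear_combination (4 * x ^ 2) * E1 - (2 * (2 * x * A + u + p ^ 2 * γ) + 2 * x * W) * E2 - 2 * p * hu
    obtain ⟨δ, hδ⟩ := ((u2.mul hru).dvd_mul_left).mp k1
    refine ⟨⟨δ - 3 * x * σ * (v * (1 - σ)) * b', ?_⟩, ⟨β - x * b, ?_⟩,
      ⟨δ + 3 * x * (v * (1 - σ)) * b' + 2 * β - 2 * x * b, ?_⟩⟩
    · linear_combination (-3 * x * sg1 (a3 i27) p Nat.fib) * hσ + (3 * x * σ) * s3 + hδ - x * hW - hu -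
        3 * x * σ * (v * (1 - σ)) * hb' + (3 * x * σ * A') * hv
    · rw [s2]; linear_combination hβ - x * hb + hu
    · rw [s2, s4]
      linear_combination hδ - x * hW + hu + 2 * hβ - 2 * x * hb + 3 * x * (v * (1 - σ)) * hb' + (3 * x * σ * A') * hv
  · obtain ⟨d1, d2⟩ := sym (-1) (Or.inr ⟨by omega, rfl⟩)
    have hw := wr_fin S hq (by omega) hσ hρ hv Q hQ h27 (ε := -1) (by norm_num) hA hB hA' hB' d1 d2
    have hm := m2 hc3 hc5 hxy
    obtain ⟨b, hb⟩ := d1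
    obtain ⟨b', hb'⟩ := d2
    obtain ⟨ω, hω⟩ := hw
    obtain ⟨u, hu⟩ : ∃ u, u = 20 * (x : O) ^ 2 - p := ⟨_, rfl⟩
    obtain ⟨β, hβ⟩ : ∃ β, 2 * (x : O) * σ * B = u + (p : O) ^ 2 * β := by
      have h1 : (p : O) ^ 2 ∣ 3 * (2 * x * σ * B - u) := by
        obtain ⟨c, hc⟩ := hm
        refine ⟨c + 2 * x * σ * L.eval (v * (1 - σ)), ?_⟩
        rw [hu]
        push_cast at hc
        linear_combination hc + 2 * x * σ * hL'
      obtain ⟨c, hc⟩ := (u3.dvd_mul_left).mp h1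
      exact ⟨c, by linear_combination hc⟩
    have hru : IsUnit u := by
      apply S.unit_of_red
      rw [hu, map_sub, ← hq, S.red_q, sub_zero, map_mul, map_pow]
      have h4 : S.red (20 : O) = S.red 2 * S.red 2 * S.red 5 := by rw [← map_mul, ← map_mul]; norm_num
      rw [h4]
      exact mul_ne_zero (mul_ne_zero (mul_ne_zero r2 r2) r5) (pow_ne_zero 2 rx)
    have E1 : A * (2 * A + 3 * σ * A') = -2 * p + (p : O) ^ 2 * ω := by linear_combination hω
    obtain ⟨γ, hγ⟩ : ∃ γ, γ = 2 * x * σ * b - β := ⟨_, rfl⟩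
    have E2 : 2 * (x : O) * σ * A = -u + (p : O) ^ 2 * γ := by rw [hγ]; linear_combination 2 * x * σ * hb - hβ
    have k1 : (p : O) ^ 2 ∣ (2 * u * (5 * x)) * (3 * A' - 4 * x) := by
      refine ⟨-4 * u * γ + 2 * p ^ 2 * γ ^ 2 + γ * (30 * x * A') + 2 - 20 * x ^ 2 * ω, ?_⟩
      linear_combination (-8 * x ^ 2 * A ^ 2) * hσ - (20 * x ^ 2) * E1 +
        (2 * (2 * x * σ * A - u + p ^ 2 * γ) + 30 * x * A') * E2 + (2 * u - 2 * p) * hu
    obtain ⟨δ, hδ⟩ := (((u2.mul hru).mul (u5.mul ux)).dvd_mul_left).mp k1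
    refine ⟨⟨x * σ * b - β, ?_⟩, ?_, ⟨δ + 3 * (v * (1 - σ)) * b', ?_⟩⟩
    · linear_combination (-x * sg (a3 i27) p Nat.fib) * hσ + (x * σ) * s1 + x * σ * hb - hβ - hu
    · refine (uσ.dvd_mul_left).mp ⟨σ * δ - 3 * (v * (1 - σ)) * b', ?_⟩
      linear_combination 3 * s3 + σ * hδ - 3 * (v * (1 - σ)) * hb' + (3 * σ * A') * hv
    · rw [s4]
      linear_combination hδ + 3 * (v * (1 - σ)) * hb' + (3 * A') * hv

end tf

end Pool.Agent.H546
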