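import Pool.Agent.H546.QKey

set_option autoImplicit false

/-!
# The Wronskian of the quadratic transformation of `₂F₁(1/3,2/3;1;x)`: the differential equation
-/

namespace Pool.Agent.H546

section pf

open Polynomial

variable {O : Type*} [CommRing O]

/-- truncated series -/
noncomputable def PF (a : ℕ → O) (n : ℕ) : O[X] := ∑ k ∈ Finset.range n, C (a k) * X ^ k

/-- the Euler operator -/
noncomputable def th (f : O[X]) : O[X] := X * derivative f

theorem th_add (f g : O[X]) : th (f + g) = th f + th g := by simp only [th, derivative_add]; ring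

theorem th_mon (c : O) (n : ℕ) : th (C c * X ^ n) = C (c * n) * X ^ n := by
  unfold th
  rw [derivative_C_mul, derivative_X_pow, map_mul, map_natCast]
  rcases n with _ | n
  · simp
  · rw [Nat.add_sub_cancel, pow_succ]; push_cast; ring

theorem PF_succ (a : ℕ → O) (n : ℕ) : PF a (n + 1) = PF a n + C (a n) * X ^ n := by
  unfold PF; rw [Finset.sum_range_succ]

theorem PF_ode {a : ℕ → O} (ha : ∀ k : ℕ, 9 * ((k : O) + 1) ^ 2 * a (k + 1) = (3 * k + 1) * (3 * k + 2) * a k)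
    (n : ℕ) : 9 * th (th (PF a (n + 1))) - X * (9 * th (th (PF a (n + 1))) + 9 * th (PF a (n + 1)) +
      2 * PF a (n + 1)) = - C (9 * ((n : O) + 1) ^ 2 * a (n + 1)) * X ^ (n + 1) := by
  induction n with
  | zero =>
    rw [PF_succ]
    have h0 : PF a 0 = 0 := by simp [PF]
    have h := ha 0
    rw [h0, zero_add, h, th_mon, th_mon]
    simp only [Nat.cast_zero, mul_zero, map_zero, zero_mul, zero_add, pow_zero, mul_one, map_mul, map_ofNat, map_one]
    ring
  | succ n ih =>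
    rw [PF_succ, th_add, th_add, th_mon, th_mon]
    have h := ha (n + 1)
    push_cast at h ih ⊢
    rw [h]
    simp only [map_mul, map_add, map_natCast, map_one, map_pow, map_ofNat, map_neg] at ih ⊢
    linear_combination ih

end pf

open PowerSeries

section ser

variable {O : Type*} [CommRing O]

theorem aeval_D (f : O⟦X⟧) (P : Polynomial O) : d⁄dX O (Polynomial.aeval f P) =
    Polynomial.aeval f (Polynomial.derivative P) * d⁄dX O f := by
  induction P using Polynomial.induction_on' with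
  | add P Q h1 h2 => rw [map_add, map_add, map_add, map_add, h1, h2]; ring
  | monomial n a =>
    have aC : ∀ c : O, Polynomial.aeval f (Polynomial.C c) = C c := fun c => by
      rw [Polynomial.aeval_C]; rfl
    rw [← Polynomial.C_mul_X_pow_eq_monomial, map_mul, map_pow, aC, Polynomial.aeval_X, Derivation.leibniz,
      derivative_C, derivative_pow, Polynomial.derivative_C_mul, Polynomial.derivative_X_pow,
      map_mul, map_mul, map_pow, aC, Polynomial.aeval_X, smul_eq_mul, smul_eq_mul, map_natCast, map_natCast]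
    ring

/-- the operator attached to the quadratic transformation -/
noncomputable def TT (g : O⟦X⟧) (f : O⟦X⟧) : O⟦X⟧ := g * d⁄dX O f

theorem TT_mul (g a b : O⟦X⟧) : TT g (a * b) = TT g a * b + a * TT g b := by
  unfold TT; rw [Derivation.leibniz, smul_eq_mul, smul_eq_mul]; ring

theorem TT_add (g a b : O⟦X⟧) : TT g (a + b) = TT g a + TT g b := by unfold TT; rw [map_add]; ring

theorem TT_sub (g a b : O⟦X⟧) : TT g (a - b) = TT g a - TT g b := by unfold TT; rw [map_sub]; ring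

theorem TT_one (g : O⟦X⟧) : TT g 1 = 0 := by unfold TT; rw [derivative_one, mul_zero]

theorem TT_C (g : O⟦X⟧) (c : O) : TT g (C c) = 0 := by unfold TT; rw [derivative_C, mul_zero]

theorem TT_pow (g a : O⟦X⟧) (n : ℕ) : TT g (a ^ n) = n * a ^ (n - 1) * TT g a := by
  unfold TT; rw [derivative_pow]; ring

/-- the data: `w = 1/(1+X)`, the two series `x`, `y` -/
structure QD (O : Type*) [CommRing O] where
  v : O
  w : O⟦X⟧
  hv : 2 * v = 1
  hw : (1 + X) * w = 1

namespace QD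

variable (Q : QD O)

/-- `(1-X)(X+2)X(X+3)` -/
noncomputable def G (_ : QD O) : O⟦X⟧ := (1 - X) * (X + 2) * X * (X + 3)
noncomputable def g : O⟦X⟧ := Q.G * Q.w ^ 2
noncomputable def x : O⟦X⟧ := C Q.v * (X * (3 + X) ^ 2) * Q.w ^ 3
noncomputable def y : O⟦X⟧ := C (Q.v ^ 2) * (X ^ 2 * (3 + X))

theorem CV : 2 * (C Q.v : O⟦X⟧) = 1 := by
  have h := congrArg (C : O →+* O⟦X⟧) Q.hv
  rw [map_mul, map_ofNat, map_one] at h
  exact h

theorem Dw : d⁄dX O Q.w = - Q.w ^ 2 := by
  have h := congrArg (d⁄dX O) Q.hw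
  rw [Derivation.leibniz, map_add, derivative_one, derivative_X, smul_eq_mul, smul_eq_mul, zero_add, mul_one,
    add_comm] at h
  linear_combination Q.w * h - (d⁄dX O Q.w) * Q.hw

theorem D3 : d⁄dX O (3 : O⟦X⟧) = 0 := by
  have : (3 : O⟦X⟧) = C 3 := (map_ofNat C 3).symm
  rw [this, derivative_C]

theorem D2 : d⁄dX O (2 : O⟦X⟧) = 0 := by
  have : (2 : O⟦X⟧) = C 2 := (map_ofNat C 2).symm
  rw [this, derivative_C]

theorem Dx : d⁄dX O Q.x = C Q.v * ((3 + X) ^ 2 + 2 * X * (3 + X)) * Q.w ^ 3 -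
    3 * (C Q.v * (X * (3 + X) ^ 2)) * Q.w ^ 4 := by
  unfold x
  simp only [Derivation.leibniz, derivative_pow, map_add, derivative_X, derivative_C, Dw, D3, smul_eq_mul]
  push_cast
  ring

theorem Dy : d⁄dX O Q.y = C (Q.v ^ 2) * (6 * X + 3 * X ^ 2) := by
  unfold y
  simp only [Derivation.leibniz, derivative_pow, map_add, derivative_X, derivative_C, D3, smul_eq_mul]
  push_cast
  ring

theorem DG : d⁄dX O Q.G = 6 - 2 * X - 12 * X ^ 2 - 4 * X ^ 3 := by
  unfold G
  simp only [Derivation.leibniz, map_add, map_sub, derivative_X, derivative_one, D3, D2, smul_eq_mul]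
  ring

theorem wpow (k j : ℕ) : Q.w ^ k = (1 + X) ^ j * Q.w ^ (k + j) := by
  have h : ((1 + X) * Q.w) ^ j = 1 := by rw [Q.hw, one_pow]
  rw [mul_pow] at h
  rw [pow_add]
  linear_combination (-Q.w ^ k) * h

theorem Tx : TT Q.g Q.x = 6 * Q.x * (1 - Q.x) := by
  have h1 := Q.CV
  have e3 := Q.wpow 3 3
  have e5 := Q.wpow 5 1
  unfold TT
  rw [Dx]
  unfold g G x
  set c := (C Q.v : O⟦X⟧)
  set w := Q.w
  linear_combination (c * ((1 - X) * (X + 2) * X * (X + 3)) * ((3 + X) ^ 2 + 2 * X * (3 + X))) * e5 -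
    6 * c * X * (3 + X) ^ 2 * e3 + (3 * c * X ^ 2 * (3 + X) ^ 4 * w ^ 6) * h1

theorem Ty : TT Q.g Q.y = 12 * Q.w ^ 2 * Q.y * (1 - Q.y) := by
  have h1 := Q.CV
  unfold TT
  rw [Dy]
  unfold g G y
  rw [map_pow]
  set c := (C Q.v : O⟦X⟧)
  set w := Q.w
  linear_combination (3 * c ^ 2 * w ^ 2 * X ^ 4 * (X + 3) ^ 2 * (2 * c + 1)) * h1

theorem Tg : TT Q.g Q.g + 32 * Q.w ^ 3 * Q.y * (1 - Q.y) = 8 * Q.x * (1 - Q.x) * (1 + X) := by
  have h1 := Q.CV
  have e3 := Q.wpow 3 3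
  have e4 := Q.wpow 4 2
  have e5 := Q.wpow 5 1
  have hd : d⁄dX O Q.g = (6 - 2 * X - 12 * X ^ 2 - 4 * X ^ 3) * Q.w ^ 2 - 2 * Q.G * Q.w ^ 3 := by
    unfold g
    rw [Derivation.leibniz, derivative_pow, Dw, DG, smul_eq_mul, smul_eq_mul]
    push_cast
    ring
  unfold TT
  rw [hd]
  unfold g G x y
  rw [map_pow]
  set c := (C Q.v : O⟦X⟧)
  set w := Q.w
  linear_combination ((1 - X) * (X + 2) * X * (X + 3)) * (6 - 2 * X - 12 * X ^ 2 - 4 * X ^ 3) * e4 -
    2 * ((1 - X) * (X + 2) * X * (X + 3)) ^ 2 * e5 +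
    (32 * c ^ 2 * X ^ 2 * (3 + X) - 32 * c ^ 4 * X ^ 4 * (3 + X) ^ 2 - 8 * (1 + X) * c * X * (3 + X) ^ 2) * e3 +
    (8 * X ^ 2 * (3 + X) * (1 + X) ^ 3 * w ^ 6 * (2 * c + 1) -
      2 * X ^ 4 * (3 + X) ^ 2 * (1 + X) ^ 3 * w ^ 6 * (2 * c + 1) * (4 * c ^ 2 + 1) -
      4 * (1 + X) ^ 4 * X * (3 + X) ^ 2 * w ^ 6 + 2 * (1 + X) * X ^ 2 * (3 + X) ^ 4 * w ^ 6 * (2 * c + 1)) * h1

theorem Tw : TT Q.g Q.w = - Q.g * Q.w ^ 2 := by unfold TT; rw [Dw]; ring

theorem TX : TT Q.g (1 + X) = Q.g := by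
  unfold TT; rw [map_add, derivative_one, derivative_X]; ring

/-- the operator on a polynomial in `x` -/
theorem TAx (f : Polynomial O) : TT Q.g (Polynomial.aeval Q.x f) = 6 * (1 - Q.x) * Polynomial.aeval Q.x (th f) := by
  have h := Q.Tx
  unfold TT at h ⊢
  unfold th
  rw [aeval_D, map_mul, Polynomial.aeval_X]
  linear_combination (Polynomial.aeval Q.x (Polynomial.derivative f)) * h

theorem TAy (f : Polynomial O) : TT Q.g (Polynomial.aeval Q.y f) =
    12 * Q.w ^ 2 * (1 - Q.y) * Polynomial.aeval Q.y (th f) := by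
  have h := Q.Ty
  unfold TT at h ⊢
  unfold th
  rw [aeval_D, map_mul, Polynomial.aeval_X]
  linear_combination (Polynomial.aeval Q.y (Polynomial.derivative f)) * h

/-- the series `P(x)` -/
noncomputable def A (f : Polynomial O) : O⟦X⟧ := Polynomial.aeval Q.x f
/-- the series `(1+X) P(y)` -/
noncomputable def R (f : Polynomial O) : O⟦X⟧ := (1 + X) * Polynomial.aeval Q.y f

theorem TR (f : Polynomial O) : TT Q.g (Q.R f) = Q.g * Polynomial.aeval Q.y f +
    12 * Q.w * (1 - Q.y) * Polynomial.aeval Q.y (th f) := by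
  unfold R
  rw [TT_mul, TX, TAy]
  have h := Q.hw
  linear_combination (12 * Q.w * (1 - Q.y) * Polynomial.aeval Q.y (th f)) * h

variable {f : Polynomial O} {e : O} {n : ℕ}

theorem TTA (hf : 9 * th (th f) - Polynomial.X * (9 * th (th f) + 9 * th f + 2 * f) =
    - Polynomial.C e * Polynomial.X ^ n) :
    TT Q.g (TT Q.g (Q.A f)) = 4 * (1 - Q.x) * (2 * Q.x * Q.A f - C e * Q.x ^ n) := by
  have h := congrArg (Polynomial.aeval Q.x) hf
  have aC : ∀ c : O, Polynomial.aeval Q.x (Polynomial.C c) = C c := fun c => by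
    rw [Polynomial.aeval_C]; rfl
  simp only [map_sub, map_mul, map_add, map_ofNat, Polynomial.aeval_X, map_neg, map_pow, aC] at h
  have h6 : TT Q.g (6 * (1 - Q.x)) = - 36 * Q.x * (1 - Q.x) := by
    have e6 : (6 : O⟦X⟧) = C 6 := (map_ofNat C 6).symm
    rw [TT_mul, TT_sub, TT_one, Tx, e6, TT_C, ← e6]; ring
  unfold A
  rw [TAx, TT_mul, TAx, h6]
  linear_combination (4 * (1 - Q.x)) * h

theorem TTR (hf : 9 * th (th f) - Polynomial.X * (9 * th (th f) + 9 * th f + 2 * f) =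
    - Polynomial.C e * Polynomial.X ^ n) :
    TT Q.g (TT Q.g (Q.R f)) = 8 * Q.x * (1 - Q.x) * Q.R f - 16 * Q.w ^ 3 * (1 - Q.y) * C e * Q.y ^ n := by
  have h := congrArg (Polynomial.aeval Q.y) hf
  have aC : ∀ c : O, Polynomial.aeval Q.y (Polynomial.C c) = C c := fun c => by
    rw [Polynomial.aeval_C]; rfl
  simp only [map_sub, map_mul, map_add, map_ofNat, Polynomial.aeval_X, map_neg, map_pow, aC] at h
  have e12 : (12 : O⟦X⟧) = C 12 := (map_ofNat C 12).symm
  have h12 : TT Q.g (12 : O⟦X⟧) = 0 := by rw [e12, TT_C]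
  have h3 := Q.Tg
  rw [TR, TT_add, TT_mul, TT_mul, TT_mul, TT_mul, TAy, TAy, Tw, TT_sub, TT_one, Ty, h12]
  unfold R
  set B := Polynomial.aeval Q.y f
  set B1 := Polynomial.aeval Q.y (th f)
  set B2 := Polynomial.aeval Q.y (th (th f))
  linear_combination (16 * Q.w ^ 3 * (1 - Q.y)) * h + B * h3

/-- the Wronskian -/
noncomputable def V (f : Polynomial O) : O⟦X⟧ := Q.A f * TT Q.g (Q.R f) - Q.R f * TT Q.g (Q.A f)

theorem TV (hf : 9 * th (th f) - Polynomial.X * (9 * th (th f) + 9 * th f + 2 * f) =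
    - Polynomial.C e * Polynomial.X ^ n) :
    TT Q.g (Q.V f) = C e * (4 * (1 - Q.x) * Q.x ^ n * Q.R f - 16 * Q.w ^ 3 * (1 - Q.y) * Q.y ^ n * Q.A f) := by
  unfold V
  rw [TT_sub, TT_mul, TT_mul, Q.TTA hf, Q.TTR hf]
  ring

end QD

end ser

end Pool.Agent.H546
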