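import Pool.Agent.H546.W2a
import Pool.Agent.H546.Lin

set_option autoImplicit false

/-!
# The Wronskian of the quadratic transformation: divisibility and low order terms
-/

namespace Pool.Agent.H546

open PowerSeries

section low

variable {O : Type*} [CommRing O]

namespace QD

variable (Q : QD O)

/-- the unit `g / X` -/
noncomputable def g3 : O⟦X⟧ := (1 - X) * (X + 2) * (X + 3) * Q.w ^ 2

theorem g_eq : Q.g = X * Q.g3 := by unfold g G g3; ring

theorem w0 : constantCoeff Q.w = 1 := by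
  have h := congrArg constantCoeff Q.hw
  rw [map_mul, map_add, map_one, constantCoeff_X, add_zero, one_mul] at h
  exact h

theorem g30 : constantCoeff Q.g3 = 6 := by
  unfold g3
  simp only [map_mul, map_sub, map_add, map_one, constantCoeff_X, map_pow, Q.w0]
  norm_num
  have e2 : constantCoeff (2 : O⟦X⟧) = 2 := map_ofNat _ 2
  have e3 : constantCoeff (3 : O⟦X⟧) = 3 := map_ofNat _ 3
  rw [e2, e3]; norm_num

theorem TXm (m : ℕ) (h : O⟦X⟧) : TT Q.g (X ^ m * h) = X ^ m * (Q.g3 * ((m : O⟦X⟧) * h + X * d⁄dX O h)) := by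
  rw [g_eq]
  unfold TT
  rw [Derivation.leibniz, derivative_pow, derivative_X, smul_eq_mul, smul_eq_mul]
  rcases m with _ | m
  · simp
    ring
  · rw [Nat.add_sub_cancel, pow_succ]; ring

/-- the quotient `x / X` -/
noncomputable def x1 : O⟦X⟧ := C Q.v * (3 + X) ^ 2 * Q.w ^ 3
noncomputable def y1 : O⟦X⟧ := C (Q.v ^ 2) * (3 + X)

theorem x_eq : Q.x = X * Q.x1 := by unfold x x1; ring
theorem y_eq : Q.y = X ^ 2 * Q.y1 := by unfold y y1; ring

theorem x10 : constantCoeff Q.x1 = 9 * Q.v := by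
  unfold x1
  have e3 : constantCoeff (3 : O⟦X⟧) = 3 := map_ofNat _ 3
  simp only [map_mul, map_add, map_pow, constantCoeff_C, constantCoeff_X, Q.w0, e3]
  ring

variable {a : ℕ → O} (ha : ∀ k : ℕ, 9 * ((k : O) + 1) ^ 2 * a (k + 1) = (3 * k + 1) * (3 * k + 2) * a k)

theorem aeval0 (f : O⟦X⟧) (hf : constantCoeff f = 0) (P : Polynomial O) :
    constantCoeff (Polynomial.aeval f P) = P.coeff 0 := by
  induction P using Polynomial.induction_on' with
  | add P Q h1 h2 => rw [map_add, map_add, h1, h2, Polynomial.coeff_add]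
  | monomial n b =>
    have aC : ∀ c : O, Polynomial.aeval f (Polynomial.C c) = C c := fun c => by
      rw [Polynomial.aeval_C]; rfl
    rw [← Polynomial.C_mul_X_pow_eq_monomial, map_mul, map_pow, aC, Polynomial.aeval_X, map_mul, constantCoeff_C,
      map_pow, hf, Polynomial.coeff_C_mul, Polynomial.coeff_X_pow]
    rcases n with _ | n
    · simp
    · simp

theorem PF0 (a : ℕ → O) (n : ℕ) : (PF a (n + 1)).coeff 0 = a 0 := by
  unfold PF
  rw [Polynomial.finsetSum_coeff, Finset.sum_eq_single 0]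
  · simp
  · intro k _ hk
    rw [Polynomial.coeff_C_mul, Polynomial.coeff_X_pow, if_neg (Ne.symm hk), mul_zero]
  · intro h; exact absurd (Finset.mem_range.mpr (Nat.succ_pos n)) h

theorem x0 : constantCoeff Q.x = 0 := by rw [x_eq, map_mul, constantCoeff_X, zero_mul]
theorem y0 : constantCoeff Q.y = 0 := by rw [y_eq, map_mul, map_pow, constantCoeff_X]; simp

theorem A0 (n : ℕ) : constantCoeff (Q.A (PF a (n + 1))) = a 0 := by
  unfold A; rw [aeval0 _ Q.x0, PF0]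

theorem R0 (n : ℕ) : constantCoeff (Q.R (PF a (n + 1))) = a 0 := by
  unfold R; rw [map_mul, map_add, map_one, constantCoeff_X, aeval0 _ Q.y0, PF0]; ring

include ha in
/-- **The quadratic transformation up to order `n + 1`.** -/
theorem low [IsDomain O] [CharZero O] (n m : ℕ) (hm : m ≤ n + 1) :
    X ^ m ∣ Q.A (PF a (n + 1)) - Q.R (PF a (n + 1)) := by
  set f := PF a (n + 1) with hf
  have hode := PF_ode ha n
  rw [← hf] at hode
  rw [← Polynomial.C_neg] at hode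
  have hode' : 9 * th (th f) - Polynomial.X * (9 * th (th f) + 9 * th f + 2 * f) =
      - Polynomial.C (9 * ((n : O) + 1) ^ 2 * a (n + 1)) * Polynomial.X ^ (n + 1) := by
    rw [← Polynomial.C_neg]; exact hode
  have h1 := Q.TTA hode'
  have h2 := Q.TTR hode'
  set e := (9 * ((n : O) + 1) ^ 2 * a (n + 1))
  induction m with
  | zero => rw [pow_zero]; exact one_dvd _
  | succ m ih =>
    obtain ⟨D, hD⟩ := ih (by omega)
    rcases Nat.eq_zero_or_pos m with h0 | h0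
    · subst h0
      rw [zero_add, pow_one, X_dvd_iff, map_sub, hf, Q.A0, Q.R0, sub_self]
    · have h3 : TT Q.g (TT Q.g (Q.A f - Q.R f)) = 8 * Q.x * (1 - Q.x) * (Q.A f - Q.R f) -
          4 * (1 - Q.x) * C e * Q.x ^ (n + 1) + 16 * Q.w ^ 3 * (1 - Q.y) * C e * Q.y ^ (n + 1) := by
        rw [TT_sub, TT_sub, h1, h2]; ring
      rw [hD, Q.TXm, Q.TXm] at h3
      obtain ⟨j, hj⟩ : ∃ j, n + 1 = m + 1 + j := ⟨n + 1 - (m + 1), by omega⟩
      have h4 : X ^ m * (Q.g3 * ((m : O⟦X⟧) * (Q.g3 * ((m : O⟦X⟧) * D + X * d⁄dX O D)) +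
          X * d⁄dX O (Q.g3 * ((m : O⟦X⟧) * D + X * d⁄dX O D)))) =
          X ^ m * (X * (8 * Q.x1 * (1 - Q.x) * D - 4 * (1 - Q.x) * C e * Q.x1 ^ (n + 1) * X ^ j +
            16 * Q.w ^ 3 * (1 - Q.y) * C e * Q.y1 ^ (n + 1) * X ^ (n + 1 + j))) := by
        rw [h3, show Q.x ^ (n + 1) = X ^ m * X * X ^ j * Q.x1 ^ (n + 1) by
          rw [Q.x_eq, mul_pow]; conv_lhs => rw [hj, pow_add, pow_add, pow_one]
          rw [← hj], show Q.y ^ (n + 1) = X ^ m * X * X ^ (n + 1 + j) * Q.y1 ^ (n + 1) by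
          rw [Q.y_eq, mul_pow, ← pow_mul, two_mul, ← pow_succ, ← pow_add]
          congr 2; omega]
        conv_lhs => rw [show 8 * Q.x * (1 - Q.x) * (X ^ m * D) = 8 * (X * Q.x1) * (1 - Q.x) * (X ^ m * D) by
          rw [← Q.x_eq]]
        ring
      have h5 := mul_left_cancel₀ (pow_ne_zero m X_ne_zero) h4
      have h6 := congrArg constantCoeff h5
      simp only [map_mul, map_add, constantCoeff_X, zero_mul, add_zero, Q.g30, map_natCast] at h6
      have hD0 : constantCoeff D = 0 := by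
        have h7 : (36 * (m : O) ^ 2) * constantCoeff D = 0 := by linear_combination h6
        have hm0 : (m : O) ≠ 0 := by exact_mod_cast (by omega : m ≠ 0)
        exact (mul_eq_zero.mp h7).resolve_left (mul_ne_zero (by norm_num) (pow_ne_zero 2 hm0))
      obtain ⟨D', hD'⟩ := X_dvd_iff.mpr hD0
      exact ⟨D', by rw [hD, hD', pow_succ]; ring⟩

theorem A_sub (f : Polynomial O) (c : O) (n : ℕ) : Q.A (f + Polynomial.C c * Polynomial.X ^ n) =
    Q.A f + C c * Q.x ^ n := by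
  unfold A
  have aC : Polynomial.aeval Q.x (Polynomial.C c) = C c := by
    rw [Polynomial.aeval_C]; rfl
  rw [map_add, map_mul, map_pow, aC, Polynomial.aeval_X]

theorem R_sub (f : Polynomial O) (c : O) (n : ℕ) : Q.R (f + Polynomial.C c * Polynomial.X ^ n) =
    Q.R f + C c * ((1 + X) * Q.y ^ n) := by
  unfold R
  have aC : Polynomial.aeval Q.y (Polynomial.C c) = C c := by
    rw [Polynomial.aeval_C]; rfl
  rw [map_add, map_mul, map_pow, aC, Polynomial.aeval_X]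
  ring

include ha in
theorem V_low [IsDomain O] [CharZero O] (h0 : a 0 = 1) (n : ℕ) (hn : 1 ≤ n) : ∃ Z : O⟦X⟧,
    Q.V (PF a n) = X ^ n * Z ∧ constantCoeff Z = 6 * n * a n * (9 * Q.v) ^ n := by
  obtain ⟨D, hD⟩ := Q.low ha n (n + 1) le_rfl
  obtain ⟨m, rfl⟩ : ∃ m, n = m + 1 := ⟨n - 1, by omega⟩
  have hR0 : constantCoeff (Q.R (PF a (m + 1 + 1))) = 1 := by rw [Q.R0, h0]
  have hA := Q.A_sub (PF a (m + 1)) (a (m + 1)) (m + 1)
  have hR := Q.R_sub (PF a (m + 1)) (a (m + 1)) (m + 1)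
  rw [← PF_succ] at hA hR
  set A' := Q.A (PF a (m + 1 + 1))
  set R' := Q.R (PF a (m + 1 + 1))
  set s : O⟦X⟧ := C (a (m + 1)) with hs
  set A0 := Q.A (PF a (m + 1)) with hA0
  set R0 := Q.R (PF a (m + 1)) with hR0'
  have hw := Q.hw
  have TA' : TT Q.g A' = TT Q.g R' + X ^ (m + 2) * (Q.g3 * (((m + 2 : ℕ) : O⟦X⟧) * D + X * d⁄dX O D)) := by
    have e : A' = R' + X ^ (m + 2) * D := by linear_combination hD
    rw [e, TT_add, TXm]
  set D2 := Q.g3 * (((m + 2 : ℕ) : O⟦X⟧) * D + X * d⁄dX O D)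
  obtain ⟨r, hr⟩ : ∃ r, TT Q.g R' = X * r := ⟨Q.g3 * d⁄dX O R', by unfold TT; rw [g_eq]; ring⟩
  have Ts : TT Q.g s = 0 := TT_C _ _
  have Txn : TT Q.g (Q.x ^ (m + 1)) = 6 * ((m + 1 : ℕ) : O⟦X⟧) * Q.x ^ (m + 1) * (1 - Q.x) := by
    rw [TT_pow, Tx, Nat.add_sub_cancel, pow_succ]; ring
  have Tyn : TT Q.g ((1 + X) * Q.y ^ (m + 1)) = Q.y ^ (m + 1) *
      (Q.g + 12 * ((m + 1 : ℕ) : O⟦X⟧) * Q.w * (1 - Q.y)) := by
    rw [TT_mul, TX, TT_pow, Ty, Nat.add_sub_cancel, pow_succ]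
    linear_combination (12 * ((m + 1 : ℕ) : O⟦X⟧) * Q.w * (1 - Q.y) * (Q.y ^ m * Q.y)) * hw
  set E := Q.g + 12 * ((m + 1 : ℕ) : O⟦X⟧) * Q.w * (1 - Q.y)
  have TA0 : TT Q.g A0 = TT Q.g A' - s * (6 * ((m + 1 : ℕ) : O⟦X⟧) * Q.x ^ (m + 1) * (1 - Q.x)) := by
    have e : A0 = A' - s * Q.x ^ (m + 1) := by linear_combination -hA
    rw [e, TT_sub, TT_mul, Ts, Txn]; ring
  have TR0 : TT Q.g R0 = TT Q.g R' - s * (Q.y ^ (m + 1) * E) := by
    have e : R0 = R' - s * ((1 + X) * Q.y ^ (m + 1)) := by linear_combination -hR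
    rw [e, TT_sub, TT_mul, Ts, Tyn]; ring
  have hxn : Q.x ^ (m + 1) = X ^ (m + 1) * Q.x1 ^ (m + 1) := by rw [x_eq, mul_pow]
  have hyn : Q.y ^ (m + 1) = X ^ (m + 2) * (X ^ m * Q.y1 ^ (m + 1)) := by
    rw [y_eq, mul_pow, ← pow_mul, ← mul_assoc, ← pow_add]
    congr 2; omega
  set t := X ^ m * Q.y1 ^ (m + 1)
  refine ⟨6 * s * ((m + 1 : ℕ) : O⟦X⟧) * Q.x1 ^ (m + 1) * (1 - Q.x) * R' +
    X * (-R' * s * t * E + D * (TT Q.g R' - s * Q.y ^ (m + 1) * E) - s * Q.x1 ^ (m + 1) * r +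
      s ^ 2 * Q.x1 ^ (m + 1) * X ^ (m + 1) * t * E - R' * D2 + s * (1 + X) * t * (TT Q.g R' + X ^ (m + 2) * D2 -
        6 * s * ((m + 1 : ℕ) : O⟦X⟧) * Q.x ^ (m + 1) * (1 - Q.x))), ?_, ?_⟩
  · have e1 : A0 = R' + X ^ (m + 2) * D - s * Q.x ^ (m + 1) := by linear_combination -hA + hD
    have e2 : R0 = R' - s * ((1 + X) * Q.y ^ (m + 1)) := by linear_combination -hR
    have hV : Q.V (PF a (m + 1)) = A0 * TT Q.g R0 - R0 * TT Q.g A0 := rfl
    rw [hV, TA0, TR0, TA', e1, e2, hr, hxn, hyn]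
    ring
  · have hx0 := Q.x0
    simp only [map_add, map_mul, map_sub, map_one, map_pow, map_natCast, constantCoeff_X, zero_mul, add_zero, hR0,
      Q.x10, hx0, hs, constantCoeff_C]
    have e6 : constantCoeff (6 : O⟦X⟧) = 6 := map_ofNat _ 6
    rw [e6]
    ring

end QD

end low

end Pool.Agent.H546
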