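import Pool.Agent.H546.W2b
import Pool.Agent.H546.QKey

set_option autoImplicit false

/-!
# The Wronskian of the quadratic transformation as a polynomial
-/

namespace Pool.Agent.H546

open Polynomial

section pol

variable {O : Type*} [CommRing O]

/-- the numerator of `P(x(s))` -/
noncomputable def wN (v : O) (a : ℕ → O) (p : ℕ) : O[X] :=
  ∑ k ∈ Finset.range p, C (a k) * (C v * (X * (3 + X) ^ 2)) ^ k * ((1 + X) ^ 3) ^ (p - 1 - k)

/-- `P(y(s))` -/
noncomputable def wY (v : O) (a : ℕ → O) (p : ℕ) : O[X] := (PF a p).comp (C (v ^ 2) * (X ^ 2 * (3 + X)))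

/-- the Wronskian -/
noncomputable def wH (v : O) (a : ℕ → O) (p : ℕ) : O[X] :=
  (3 * (p : O[X]) - 2) * (wN v a p * wY v a p) + (1 + X) * (wN v a p * derivative (wY v a p) -
    derivative (wN v a p) * wY v a p)

/-- the singular points -/
noncomputable def wG (O : Type*) [CommRing O] : O[X] := (1 + X) * ((1 - X) * (X + 2) * X * (X + 3))

theorem co3 : ((3 : O[X]) : PowerSeries O) = 3 := by
  have : (3 : O[X]) = C 3 := (map_ofNat C 3).symm
  rw [this, Polynomial.coe_C]; exact map_ofNat _ 3

theorem co2 : ((2 : O[X]) : PowerSeries O) = 2 := by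
  have : (2 : O[X]) = C 2 := (map_ofNat C 2).symm
  rw [this, Polynomial.coe_C]; exact map_ofNat _ 2

theorem con (n : ℕ) : ((n : O[X]) : PowerSeries O) = n := by
  have : (n : O[X]) = C (n : O) := (map_natCast C n).symm
  rw [this, Polynomial.coe_C]; exact map_natCast _ n

theorem co_sum {ι : Type*} (s : Finset ι) (f : ι → O[X]) :
    ((∑ i ∈ s, f i : O[X]) : PowerSeries O) = ∑ i ∈ s, (f i : PowerSeries O) := by
  classical
  induction s using Finset.induction_on with
  | empty => simp
  | insert a s ha ih => rw [Finset.sum_insert ha, Finset.sum_insert ha, Polynomial.coe_add, ih]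

theorem coe_wN (Q : QD O) (a : ℕ → O) (m : ℕ) : ((wN Q.v a (m + 1) : O[X]) : PowerSeries O) =
    ((1 + PowerSeries.X) ^ 3) ^ m * Q.A (PF a (m + 1)) := by
  unfold wN QD.A PF
  rw [co_sum, map_sum, Finset.mul_sum]
  refine Finset.sum_congr rfl fun k hk => ?_
  have hk' := Finset.mem_range.mp hk
  have aC : Polynomial.aeval Q.x (Polynomial.C (a k)) = PowerSeries.C (a k) := by
    rw [Polynomial.aeval_C]; rfl
  rw [map_mul, map_pow, aC, Polynomial.aeval_X]
  simp only [Polynomial.coe_mul, Polynomial.coe_pow, Polynomial.coe_add, Polynomial.coe_C, Polynomial.coe_X,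
    Polynomial.coe_one, co3]
  unfold QD.x
  have h1 : ((1 + PowerSeries.X : PowerSeries O) ^ 3) ^ m = ((1 + PowerSeries.X) ^ 3) ^ (m + 1 - 1 - k) *
      ((1 + PowerSeries.X) ^ 3) ^ k := by
    rw [← pow_add]; congr 1; omega
  rw [h1]
  have h2 : ((1 + PowerSeries.X : PowerSeries O) ^ 3) ^ k * (Q.w ^ 3) ^ k = 1 := by
    rw [← mul_pow, ← mul_pow, Q.hw, one_pow, one_pow]
  rw [mul_pow (PowerSeries.C Q.v * (PowerSeries.X * (3 + PowerSeries.X) ^ 2))]
  linear_combination (-PowerSeries.C (a k) * (PowerSeries.C Q.v * (PowerSeries.X * (3 + PowerSeries.X) ^ 2)) ^ k *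
    ((1 + PowerSeries.X) ^ 3) ^ (m + 1 - 1 - k)) * h2

theorem coe_comp (P Q : O[X]) : ((P.comp Q : O[X]) : PowerSeries O) = Polynomial.aeval (Q : PowerSeries O) P := by
  induction P using Polynomial.induction_on' with
  | add A B h1 h2 => rw [add_comp, Polynomial.coe_add, h1, h2, map_add]
  | monomial n a =>
    rw [← C_mul_X_pow_eq_monomial, mul_comp, C_comp, X_pow_comp, map_mul, map_pow, Polynomial.aeval_X,
      Polynomial.aeval_C, Polynomial.coe_mul, Polynomial.coe_pow, Polynomial.coe_C]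
    rfl

theorem coe_wY (Q : QD O) (a : ℕ → O) (n : ℕ) : ((wY Q.v a n : O[X]) : PowerSeries O) =
    Polynomial.aeval Q.y (PF a n) := by
  unfold wY
  rw [coe_comp]
  congr 1
  unfold QD.y
  simp only [Polynomial.coe_mul, Polynomial.coe_pow, Polynomial.coe_add, Polynomial.coe_C, Polynomial.coe_X, co3]

theorem coe_wGH (Q : QD O) (a : ℕ → O) (m : ℕ) : ((wG O * wH Q.v a (m + 1) : O[X]) : PowerSeries O) =
    (1 + PowerSeries.X) ^ (3 * (m + 1)) * Q.V (PF a (m + 1)) := by
  have hN := coe_wN Q a m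
  have hY := coe_wY Q a (m + 1)
  have hN' := congrArg (PowerSeries.derivative O) hN
  have hY' := congrArg (PowerSeries.derivative O) hY
  rw [PowerSeries.derivative_coe] at hN' hY'
  unfold wG wH
  simp only [Polynomial.coe_mul, Polynomial.coe_pow, Polynomial.coe_add, Polynomial.coe_sub, Polynomial.coe_C,
    Polynomial.coe_X, Polynomial.coe_one, co3, co2, con]
  rw [hN', hY', hN, hY]
  unfold QD.V TT QD.R QD.g QD.G
  set A := Q.A (PF a (m + 1))
  set Y := Polynomial.aeval Q.y (PF a (m + 1))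
  set u : PowerSeries O := 1 + PowerSeries.X with hu
  have hDu : PowerSeries.derivative O u = 1 := by
    rw [hu, map_add, PowerSeries.derivative_one, PowerSeries.derivative_X, zero_add]
  have hw := Q.hw
  rw [← hu] at hw
  have h3 : PowerSeries.derivative O ((u ^ 3) ^ m * A) = 3 * m * (u ^ 3) ^ m * Q.w * A +
      (u ^ 3) ^ m * PowerSeries.derivative O A := by
    rw [Derivation.leibniz, PowerSeries.derivative_pow, PowerSeries.derivative_pow, hDu, smul_eq_mul, smul_eq_mul]
    rcases m with _ | m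
    · simp
    · rw [Nat.add_sub_cancel, pow_succ (u ^ 3) m]
      push_cast
      linear_combination (-(A * (m + 1) * 3 * (u ^ 3) ^ m * u ^ 2)) * hw
  rw [h3, Derivation.leibniz, hDu, smul_eq_mul, smul_eq_mul]
  have e1 : u ^ (3 * (m + 1)) = (u ^ 3) ^ m * u ^ 3 := by rw [← pow_mul, ← pow_add]; congr 1
  rw [e1]
  push_cast
  clear_value u A Y
  set G : PowerSeries O := (1 - PowerSeries.X) * (PowerSeries.X + 2) * PowerSeries.X * (PowerSeries.X + 3)
  clear_value G
  generalize PowerSeries.derivative O A = A'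
  generalize PowerSeries.derivative O Y = Y'
  generalize (u ^ 3) ^ m = U
  linear_combination (-3 * m * u * G * U * A * Y - U * u * G * (A * Y + u * (A * Y' - A' * Y)) * (u * Q.w + 1)) * hw

end pol

end Pool.Agent.H546
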