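import Pool.Agent.H546.W3
import Pool.Agent.H546.UtilG
import Pool.Agent.H546.QSer

set_option autoImplicit false

/-!
# The Wronskian of the quadratic transformation modulo `p²`
-/

namespace Pool.Agent.H546

open Polynomial

section fld

variable {k : Type*} [Field k] {p : ℕ} [hp : Fact p.Prime] [CharP k p]

theorem wG_pow : (wG k) ^ p = expand k p (wG k) := by
  have hF : ∀ f : k[X], f ^ p = frobenius k[X] p f := fun f => rfl
  have h2 : frobenius k[X] p 2 = 2 := map_ofNat _ 2
  have h3 : frobenius k[X] p 3 = 3 := map_ofNat _ 3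
  have hX : frobenius k[X] p X = X ^ p := rfl
  rw [hF]
  unfold wG
  have e2 : expand k p 2 = 2 := map_ofNat _ 2
  have e3 : expand k p 3 = 3 := map_ofNat _ 3
  rw [map_mul, map_mul, map_mul, map_mul, map_add, map_add, map_add, map_sub, map_one, h2, h3, hX,
    map_mul, map_mul, map_mul, map_mul, map_add, map_add, map_add, map_sub, map_one, expand_X, e2, e3]

theorem wG_exp (R : Type*) [CommRing R] : wG R = C (-1) * X ^ 5 + (C (-5) * X ^ 4 + C (-5) * X ^ 3 + C 5 * X ^ 2 +
    C 6 * X) := by
  unfold wG
  simp only [map_neg, map_one, map_ofNat]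
  ring

theorem wG_deg (R : Type*) [CommRing R] : (wG R).natDegree ≤ 5 := by
  rw [wG_exp]; compute_degree

theorem wG_c5 (R : Type*) [CommRing R] : (wG R).coeff 5 = -1 := by
  rw [wG_exp]
  simp only [coeff_add, coeff_C_mul, coeff_X_pow, coeff_X]
  norm_num

theorem wG_c1 (R : Type*) [CommRing R] : (wG R).coeff 1 = 6 := by
  rw [wG_exp]
  simp only [coeff_add, coeff_C_mul, coeff_X_pow, coeff_X]
  norm_num

theorem wG_ne : wG k ≠ 0 := by
  intro h
  have := wG_c5 k
  rw [h, coeff_zero] at this
  have h1 : (1 : k) = 0 := by linear_combination this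
  exact one_ne_zero h1

/-- a polynomial with vanishing derivative, of small degree, and divisible by `Γ` -/
theorem frobk (hp5 : 5 ≤ p) (P : k[X]) (hP : derivative P = 0) (hdeg : P.natDegree ≤ 6 * p - 1) (hdvd : wG k ∣ P) :
    ∃ l : k, P = C l * wG k ^ p ∧ 6 * l = P.coeff p := by
  have hp0 : p ≠ 0 := hp.out.ne_zero
  set h := contract p P with hh
  have he : expand k p h = P := expand_contract p hP hp0
  have hd5 : h.natDegree ≤ 5 := by
    rw [natDegree_le_iff_coeff_eq_zero]
    intro N hN
    rw [hh, coeff_contract hp0]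
    apply coeff_eq_zero_of_natDegree_lt
    refine lt_of_le_of_lt hdeg ?_
    have : 6 * p ≤ N * p := Nat.mul_le_mul_right p hN
    have := hp.out.pos
    omega
  have hroot : ∀ i : Fin 5, h.eval (((i : ℕ) : k) - 3) = 0 := by
    intro i
    have h1 : (((i : ℕ) : k) - 3) ^ p = ((i : ℕ) : k) - 3 := by
      have h2 : frobenius k p (((i : ℕ) : k) - ((3 : ℕ) : k)) = ((i : ℕ) : k) - ((3 : ℕ) : k) := by
        rw [map_sub, map_natCast, map_natCast]
      push_cast at h2
      exact h2
    have h2 : P.eval (((i : ℕ) : k) - 3) = h.eval (((i : ℕ) : k) - 3) := by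
      rw [← he, expand_eval, h1]
    rw [← h2]
    obtain ⟨P1, rfl⟩ := hdvd
    rw [eval_mul]
    have h3 : (wG k).eval (((i : ℕ) : k) - 3) = 0 := by
      unfold wG
      simp only [eval_mul, eval_add, eval_sub, eval_one, eval_X, eval_ofNat]
      fin_cases i <;> norm_num
    rw [h3, zero_mul]
  set l := - h.coeff 5 with hl
  have h0 : h - C l * wG k = 0 := by
    refine eq_zero_of_natDegree_lt_card_of_eval_eq_zero (h - C l * wG k) (f := fun i : Fin 5 => ((i : ℕ) : k) - 3)
      ?_ ?_ ?_
    · intro i j hij
      have h1 : ((i : ℕ) : k) = ((j : ℕ) : k) := by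
        have : ((i : ℕ) : k) - 3 = ((j : ℕ) : k) - 3 := hij
        linear_combination this
      rw [CharP.cast_eq_iff_mod_eq k p] at h1
      have hi := i.isLt
      have hj := j.isLt
      rw [Nat.mod_eq_of_lt (by omega), Nat.mod_eq_of_lt (by omega)] at h1
      exact Fin.ext h1
    · intro i
      show eval (((i : ℕ) : k) - 3) (h - C l * wG k) = 0
      rw [eval_sub, hroot, eval_mul]
      have h3 : (wG k).eval (((i : ℕ) : k) - 3) = 0 := by
        unfold wG
        simp only [eval_mul, eval_add, eval_sub, eval_one, eval_X, eval_ofNat]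
        fin_cases i <;> norm_num
      rw [h3, mul_zero, sub_zero]
    · rw [Fintype.card_fin, Nat.lt_succ_iff, natDegree_le_iff_coeff_eq_zero]
      intro N hN
      rcases Nat.lt_or_ge 5 N with h5 | h5
      · rw [coeff_sub, coeff_C_mul, coeff_eq_zero_of_natDegree_lt (lt_of_le_of_lt hd5 h5),
          coeff_eq_zero_of_natDegree_lt (lt_of_le_of_lt (wG_deg k) h5), mul_zero, sub_zero]
      · have : N = 5 := by omega
        subst this
        rw [coeff_sub, coeff_C_mul, wG_c5, hl]; ring
  have h1 : h = C l * wG k := by linear_combination h0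
  refine ⟨l, ?_, ?_⟩
  · rw [← he, h1, map_mul, expand_C, wG_pow]
  · have h2 : P.coeff p = h.coeff 1 := by rw [hh, coeff_contract hp0, one_mul]
    rw [h2, h1, coeff_C_mul, wG_c1]; ring

end fld

section dv

variable {O K k : Type*} [CommRing O] [IsDomain O] [Field K] [Algebra O K] [Field k]
  (S : DV O K k) {p : ℕ} [hp : Fact p.Prime] [CharP k p]

theorem map_wG {R T : Type*} [CommRing R] [CommRing T] (f : R →+* T) : (wG R).map f = wG T := by
  unfold wG
  simp only [Polynomial.map_add, Polynomial.map_sub, Polynomial.map_mul, map_X, Polynomial.map_one,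
    Polynomial.map_ofNat]

omit [IsDomain O] in
theorem wH_deg [Nontrivial O] (v : O) (a : ℕ → O) (m : ℕ) : (wG O * wH v a (m + 1)).natDegree ≤ 6 * (m + 1) - 1 := by
  have hN : (wN v a (m + 1)).natDegree ≤ 3 * m := by
    unfold wN
    refine natDegree_sum_le_of_forall_le _ _ fun k hk => ?_
    have hk' := Finset.mem_range.mp hk
    have h1 : (C v * (X * (3 + X) ^ 2) : O[X]).natDegree ≤ 3 := by
      have : (C v * (X * (3 + X) ^ 2) : O[X]) = C v * (X * (C 3 + X) ^ 2) := by rw [map_ofNat]
      rw [this]; compute_degree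
    have h2 : ((1 + X) ^ 3 : O[X]).natDegree ≤ 3 := by compute_degree
    have h3 : ((C v * (X * (3 + X) ^ 2) : O[X]) ^ k).natDegree ≤ k * 3 :=
      natDegree_pow_le.trans (Nat.mul_le_mul_left k h1)
    have h4 : (((1 + X) ^ 3 : O[X]) ^ (m + 1 - 1 - k)).natDegree ≤ (m + 1 - 1 - k) * 3 :=
      natDegree_pow_le.trans (Nat.mul_le_mul_left _ h2)
    refine natDegree_mul_le.trans ?_
    have h5 : (C (a k) * (C v * (X * (3 + X) ^ 2)) ^ k : O[X]).natDegree ≤ k * 3 := (natDegree_C_mul_le _ _).trans h3
    omega
  have hY : (wY v a (m + 1)).natDegree ≤ 3 * m := by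
    unfold wY
    refine natDegree_comp_le.trans ?_
    have h1 : (C (v ^ 2) * (X ^ 2 * (3 + X)) : O[X]).natDegree ≤ 3 := by
      have : (C (v ^ 2) * (X ^ 2 * (3 + X)) : O[X]) = C (v ^ 2) * (X ^ 2 * (C 3 + X)) := by rw [map_ofNat]
      rw [this]; compute_degree
    have h2 : (PF a (m + 1)).natDegree ≤ m := by
      unfold PF
      refine natDegree_sum_le_of_forall_le _ _ fun k hk => ?_
      have hk' := Finset.mem_range.mp hk
      exact (natDegree_C_mul_X_pow_le _ _).trans (by omega)
    calc _ ≤ m * 3 := Nat.mul_le_mul h2 h1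
      _ = _ := by ring
  have hN' := natDegree_derivative_le (wN v a (m + 1))
  have hY' := natDegree_derivative_le (wY v a (m + 1))
  have hH : (wH v a (m + 1)).natDegree ≤ 6 * m := by
    unfold wH
    refine (natDegree_add_le _ _).trans (max_le ?_ ?_)
    · have h1 : (3 * ((m + 1 : ℕ) : O[X]) - 2).natDegree ≤ 0 := by
        have : (3 * ((m + 1 : ℕ) : O[X]) - 2) = C (3 * ((m + 1 : ℕ) : O) - 2) := by
          rw [map_sub, map_mul, map_natCast, map_ofNat, map_ofNat]
        rw [this, natDegree_C]
      refine natDegree_mul_le.trans ?_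
      have := natDegree_mul_le (p := wN v a (m + 1)) (q := wY v a (m + 1))
      omega
    · rcases Nat.eq_zero_or_pos m with h0 | h0
      · subst h0
        have e1 : derivative (wN v a (0 + 1)) = 0 := derivative_of_natDegree_zero (by omega)
        have e2 : derivative (wY v a (0 + 1)) = 0 := derivative_of_natDegree_zero (by omega)
        rw [e1, e2]; simp
      · have h1 : (1 + X : O[X]).natDegree ≤ 1 := by compute_degree
        refine natDegree_mul_le.trans ?_
        have h2 : (wN v a (m + 1) * derivative (wY v a (m + 1)) -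
            derivative (wN v a (m + 1)) * wY v a (m + 1)).natDegree ≤ 6 * m - 1 := by
          refine (natDegree_sub_le _ _).trans (max_le ?_ ?_)
          · refine natDegree_mul_le.trans ?_; omega
          · refine natDegree_mul_le.trans ?_; omega
        omega
  refine natDegree_mul_le.trans ?_
  have := wG_deg O
  omega

end dv

end Pool.Agent.H546
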