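import Pool.Agent.H546.W4

set_option autoImplicit false

/-!
# The Wronskian of the quadratic transformation modulo `p²`: the main congruence
-/

namespace Pool.Agent.H546

open Polynomial

theorem cancelX {O : Type*} [CommRing O] [IsDomain O] {c : O} (hc : c ≠ 0) {h Z : PowerSeries O}
    (e : PowerSeries.X * h = PowerSeries.C c * Z) : ∃ Z', h = PowerSeries.C c * Z' := by
  have h1 := congrArg PowerSeries.constantCoeff e
  rw [map_mul, map_mul, PowerSeries.constantCoeff_X, zero_mul, PowerSeries.constantCoeff_C] at h1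
  have h2 : PowerSeries.constantCoeff Z = 0 := (mul_eq_zero.mp h1.symm).resolve_left hc
  obtain ⟨Z', hZ'⟩ := PowerSeries.X_dvd_iff.mpr h2
  refine ⟨Z', ?_⟩
  apply mul_left_cancel₀ (PowerSeries.X_ne_zero (R := O))
  rw [e, hZ']; ring

theorem polC {O : Type*} [CommRing O] {c : O} {P : O[X]} {Z : PowerSeries O}
    (e : (P : PowerSeries O) = PowerSeries.C c * Z) : ∃ M : O[X], P = C c * M := by
  have : C c ∣ P := by
    rw [C_dvd_iff_dvd_coeff]
    intro i
    have h := congrArg (PowerSeries.coeff i) e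
    rw [Polynomial.coeff_coe, PowerSeries.coeff_C_mul] at h
    exact ⟨_, h⟩
  exact this

section dv

variable {O K k : Type*} [CommRing O] [IsDomain O] [Field K] [Algebra O K] [Field k]
  (S : DV O K k) {p : ℕ} [hp : Fact p.Prime] [CharP k p]

/-- **The Wronskian modulo `p²`.** -/
theorem wr_main (hq : S.q = (p : O)) (hp5 : 5 ≤ p) (Q : QD O) {a : ℕ → O}
    (ha : ∀ k : ℕ, 9 * ((k : O) + 1) ^ 2 * a (k + 1) = (3 * k + 1) * (3 * k + 2) * a k) (h0 : a 0 = 1)
    (hap : S.red (9 * a p) = 2) :
    ∃ M : O[X], wH Q.v a p = C (p : O) * wG O ^ (p - 1) + C ((p : O) ^ 2) * M := by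
  have : CharZero O := charZero_O S hq
  have hq0 : S.q ≠ 0 := S.q_ne
  have hp0 : (p : O) ≠ 0 := by rw [← hq]; exact hq0
  have hpk : (p : k) = 0 := CharP.cast_eq_zero k p
  have hrp : S.red (p : O) = 0 := by rw [map_natCast, hpk]
  have r2 := S.two_ne (p := p) (by omega)
  have r3 := S.three_ne (p := p) (by omega)
  rw [map_ofNat] at r2 r3
  have r6 : (6 : k) ≠ 0 := by
    have : (6 : k) = 2 * 3 := by norm_num
    rw [this]; exact mul_ne_zero r2 r3
  obtain ⟨m, hm⟩ : ∃ m, p = m + 1 := ⟨p - 1, by omega⟩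
  -- the derivative of the Wronskian
  have hode := PF_ode ha m
  rw [← hm] at hode
  have hode' : 9 * th (th (PF a p)) - X * (9 * th (th (PF a p)) + 9 * th (PF a p) + 2 * PF a p) =
      - C (9 * (p : O) ^ 2 * a p) * X ^ p := by
    rw [hode, hm]; push_cast; ring
  have hTV := Q.TV hode'
  obtain ⟨Z1, hZ1⟩ : ∃ Z1, PowerSeries.derivative O (Q.V (PF a p)) = PowerSeries.C ((p : O) ^ 2) * Z1 := by
    have hu : IsUnit Q.g3 := by
      rw [PowerSeries.isUnit_iff_constantCoeff, Q.g30]
      apply S.unit_of_red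
      rw [map_ofNat]; exact r6
    obtain ⟨ig, hig⟩ := hu.exists_left_inv
    have e1 : PowerSeries.X * (Q.g3 * PowerSeries.derivative O (Q.V (PF a p))) = PowerSeries.C ((p : O) ^ 2) *
        (9 * PowerSeries.C (a p) * (4 * (1 - Q.x) * Q.x ^ p * Q.R (PF a p) -
          16 * Q.w ^ 3 * (1 - Q.y) * Q.y ^ p * Q.A (PF a p))) := by
      have e2 : TT Q.g (Q.V (PF a p)) = PowerSeries.X * (Q.g3 * PowerSeries.derivative O (Q.V (PF a p))) := by
        unfold TT; rw [Q.g_eq]; ring
      rw [← e2, hTV]
      have e3 : (PowerSeries.C (9 * (p : O) ^ 2 * a p) : PowerSeries O) = PowerSeries.C ((p : O) ^ 2) *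
          (9 * PowerSeries.C (a p)) := by
        have : (9 : PowerSeries O) = PowerSeries.C 9 := (map_ofNat PowerSeries.C 9).symm
        rw [this, ← map_mul, ← map_mul]; congr 1; ring
      rw [e3]; ring
    obtain ⟨Z', hZ'⟩ := cancelX (pow_ne_zero 2 hp0) e1
    refine ⟨ig * Z', ?_⟩
    linear_combination ig * hZ' - (PowerSeries.derivative O (Q.V (PF a p))) * hig
  obtain ⟨Z, hZ, hZ0⟩ := Q.V_low ha h0 p (by omega)
  -- the polynomial
  set Pi := wG O * wH Q.v a p with hPi
  have hco : (Pi : PowerSeries O) = (1 + PowerSeries.X) ^ (3 * p) * Q.V (PF a p) := by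
    rw [hPi]
    have := coe_wGH Q a m
    rw [← hm] at this
    exact this
  have hdeg : Pi.natDegree ≤ 6 * p - 1 := by
    have := wH_deg Q.v a m
    rw [← hm] at this
    exact this
  obtain ⟨M0, hM0⟩ : ∃ M0 : O[X], (1 + X) * derivative Pi - 3 * C (p : O) * Pi = C ((p : O) ^ 2) * M0 := by
    have e1 : (((1 + X) * derivative Pi - 3 * C (p : O) * Pi : O[X]) : PowerSeries O) =
        PowerSeries.C ((p : O) ^ 2) * ((1 + PowerSeries.X) ^ (3 * p + 1) * Z1) := by
      simp only [Polynomial.coe_sub, Polynomial.coe_mul, Polynomial.coe_add, Polynomial.coe_one, Polynomial.coe_X,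
        Polynomial.coe_C, co3]
      rw [← PowerSeries.derivative_coe, hco, Derivation.leibniz, PowerSeries.derivative_pow, map_add,
        PowerSeries.derivative_one, PowerSeries.derivative_X, smul_eq_mul, smul_eq_mul, hZ1, map_natCast]
      obtain ⟨j, hj⟩ : ∃ j, 3 * p = j + 1 := ⟨3 * p - 1, by omega⟩
      have hjc : (3 : PowerSeries O) * (p : PowerSeries O) = (j : PowerSeries O) + 1 := by
        have := congrArg (Nat.cast : ℕ → PowerSeries O) hj
        push_cast at this; exact this
      rw [hj, Nat.add_sub_cancel, pow_succ, pow_succ]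
      push_cast
      linear_combination (-(1 + PowerSeries.X) ^ j * (1 + PowerSeries.X) * Q.V (PF a p)) * hjc
    exact polC e1
  have hcoef : Pi.coeff p = 6 * p * a p * (9 * Q.v) ^ p := by
    have h1 := congrArg (PowerSeries.coeff p) hco
    rw [Polynomial.coeff_coe, hZ, show (1 + PowerSeries.X : PowerSeries O) ^ (3 * p) * (PowerSeries.X ^ p * Z) =
      PowerSeries.X ^ p * ((1 + PowerSeries.X) ^ (3 * p) * Z) by ring, coeff_low] at h1
    rw [h1, map_mul, map_pow, map_add, map_one, PowerSeries.constantCoeff_X, hZ0]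
    ring
  have hX1 : (1 + X : k[X]) ≠ 0 := by
    intro h
    have := congrArg (fun f => coeff f 0) h
    simp at this
  -- first step
  have hPi0 : Pi.map S.red = 0 := by
    have h1 : derivative (Pi.map S.red) = 0 := by
      have h2 := congrArg (Polynomial.map S.red) hM0
      simp only [Polynomial.map_sub, Polynomial.map_mul, Polynomial.map_add, Polynomial.map_one, map_X, map_C,
        Polynomial.map_ofNat, hrp, map_pow, Polynomial.map_pow] at h2
      rw [← derivative_map] at h2
      have h3 : (1 + X) * derivative (Pi.map S.red) = 0 := by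
        rw [map_zero, zero_pow (by norm_num : (2 : ℕ) ≠ 0), zero_mul, mul_zero, zero_mul, sub_zero] at h2
        exact h2
      exact (mul_eq_zero.mp h3).resolve_left hX1
    have h2 : (Pi.map S.red).natDegree ≤ 6 * p - 1 := natDegree_map_le.trans hdeg
    obtain ⟨l, hl, hl6⟩ := frobk (p := p) hp5 (Pi.map S.red) h1 h2 (by
      rw [hPi, Polynomial.map_mul, map_wG]; exact dvd_mul_right _ _)
    rw [coeff_map, hcoef] at hl6
    have h3 : S.red (6 * p * a p * (9 * Q.v) ^ p) = 0 := by
      rw [show (6 * p * a p * (9 * Q.v) ^ p : O) = p * (6 * a p * (9 * Q.v) ^ p) by ring, map_mul, hrp, zero_mul]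
    rw [h3] at hl6
    have h4 : l = 0 := (mul_eq_zero.mp hl6).resolve_left r6
    rw [hl, h4, map_zero, zero_mul]
  have hH0 : (wH Q.v a p).map S.red = 0 := by
    rw [hPi, Polynomial.map_mul, map_wG] at hPi0
    exact (mul_eq_zero.mp hPi0).resolve_left wG_ne
  obtain ⟨H1, hH1⟩ := S.dvd_of_map hH0
  rw [hq] at hH1
  set P1 := wG O * H1 with hP1
  have hPiP : Pi = C (p : O) * P1 := by rw [hPi, hH1, hP1]; ring
  have hCp : (C (p : O) : O[X]) ≠ 0 := fun h => hp0 (C_eq_zero.mp h)
  have hP1c : P1.coeff p = 6 * a p * (9 * Q.v) ^ p := by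
    apply mul_left_cancel₀ hp0
    rw [← coeff_C_mul, ← hPiP, hcoef]; ring
  have hP1d : P1.natDegree ≤ 6 * p - 1 := by
    have := natDegree_C_mul (p := P1) (a := (p : O)) hp0
    rw [← hPiP] at this
    omega
  have hM1 : (1 + X) * derivative P1 - 3 * C (p : O) * P1 = C (p : O) * M0 := by
    apply mul_left_cancel₀ hCp
    rw [hPiP, derivative_C_mul, map_pow] at hM0
    linear_combination hM0
  have h1 : derivative (P1.map S.red) = 0 := by
    have h2 := congrArg (Polynomial.map S.red) hM1
    simp only [Polynomial.map_sub, Polynomial.map_mul, Polynomial.map_add, Polynomial.map_one, map_X, map_C,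
      Polynomial.map_ofNat, hrp] at h2
    rw [← derivative_map] at h2
    have h3 : (1 + X) * derivative (P1.map S.red) = 0 := by
      rw [map_zero, zero_mul, mul_zero, zero_mul, sub_zero] at h2
      exact h2
    exact (mul_eq_zero.mp h3).resolve_left hX1
  obtain ⟨l, hl, hl6⟩ := frobk (p := p) hp5 (P1.map S.red) h1 (natDegree_map_le.trans hP1d) (by
      rw [hP1, Polynomial.map_mul, map_wG]; exact dvd_mul_right _ _)
  have hl1 : l = 1 := by
    apply mul_left_cancel₀ r6
    rw [hl6, coeff_map, hP1c, map_mul, map_mul, map_pow, map_mul, mul_pow, map_ofNat, map_ofNat]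
    have e1 : (9 : k) ^ p = 9 := by
      have : frobenius k p 9 = 9 := map_ofNat _ 9
      exact this
    have e2 : S.red Q.v ^ p = S.red Q.v := by
      refine S.frob_inv (p := p) (n := 2) (v := Q.v) (by push_cast; exact Q.hv) ?_
      have := ndvd_of_primes p (n := 2) (l := [2]) (by simp; norm_num) (by norm_num) (by simp; omega)
      exact_mod_cast this
    have e3 : 2 * S.red Q.v = 1 := by
      have := congrArg S.red Q.hv
      rwa [map_mul, map_one, map_ofNat] at this
    rw [map_mul, map_ofNat] at hap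
    rw [e1, e2]
    linear_combination (6 * S.red Q.v) * hap + 6 * e3
  rw [hl1, map_one, one_mul, hP1, Polynomial.map_mul, map_wG] at hl
  have h2 : H1.map S.red = wG k ^ (p - 1) := by
    apply mul_left_cancel₀ (wG_ne (k := k))
    rw [hl, ← pow_succ']
    congr 1
    omega
  obtain ⟨M, hM⟩ := S.dvd_of_map (P := H1 - wG O ^ (p - 1)) (by
    rw [Polynomial.map_sub, h2, Polynomial.map_pow, map_wG, sub_self])
  rw [hq] at hM
  refine ⟨M, ?_⟩
  rw [hH1, map_pow]
  linear_combination C (p : O) * hM

end dv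

end Pool.Agent.H546
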