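import Pool.Agent.H546.W5
import Pool.Agent.H546.Poch2
import Pool.Agent.H546.Hasse
import Pool.Agent.H546.Fin3

set_option autoImplicit false

/-!
# The truncated series modulo `p²` and Legendre polynomials
-/

namespace Pool.Agent.H546

open Finset
open Pool.Agent.Q267.Seven (dl dl_succ)
open Pool.Agent.Q267.MW (u3 u3_succ)

section ring

variable {A : Type*} [CommRing A] (iv : ℕ → A)

theorem dl_pch (N n : ℕ) (hiv : ∀ k, k + 1 < N → ((k : A) + 1) * iv (k + 1) = 1) (k : ℕ) (hk : k < N) :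
    (dl n k : A) = pch (-(n : A)) k * pch ((n : A) + 1) k * Jf iv k ^ 2 := by
  induction k with
  | zero => simp [pch_zero, Jf_zero, dl]
  | succ k ih =>
    have h := congrArg (Int.cast : ℤ → A) (dl_succ n k)
    push_cast at h
    have hi := hiv k hk
    rw [pch_succ, pch_succ, Jf_succ]
    have ih' := ih (by omega)
    have e : (dl n (k + 1) : A) = (dl n (k + 1) : A) * ((k : A) + 1) ^ 2 * iv (k + 1) ^ 2 := by
      linear_combination (-(dl n (k + 1) : A) * (((k : A) + 1) * iv (k + 1) + 1)) * hi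
    rw [e, h, ih']
    ring

theorem lg_pch (N n : ℕ) (hn : n < N) (hiv : ∀ k, k + 1 < N → ((k : A) + 1) * iv (k + 1) = 1) (z : A) :
    lg n z = hyp iv N (-(n : A)) (n + 1) z := by
  rw [← lg_ext n N (by omega) z]
  unfold hyp
  refine sum_congr rfl fun k hk => ?_
  rw [dl_pch iv N n hiv k (mem_range.mp hk)]

theorem comb0 {p : ℕ} (hp : p % 6 = 1 ∨ p % 6 = 5) {i3 : A} (h3 : 3 * i3 = 1) (z : A)
    (hiv : ∀ k, k + 1 < p → ((k : A) + 1) * iv (k + 1) = 1) :
    (p : A) ^ 2 ∣ 2 * lg (p / 3) z + lg (2 * p / 3) z - 3 * hyp iv p i3 (2 * i3) z := by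
  obtain ⟨B, hB⟩ := hyp_exp iv p i3 (2 * i3) z
  rcases hp with hp | hp
  · obtain ⟨μ, hμ⟩ : ∃ μ, p = 6 * μ + 1 := ⟨p / 6, by omega⟩
    have hpA : (p : A) = 6 * μ + 1 := by rw [hμ]; push_cast; ring
    obtain ⟨E1, hE1⟩ := hB (-(p * i3))
    obtain ⟨E2, hE2⟩ := hB (2 * (p * i3))
    have e1 : lg (p / 3) z = hyp iv p (i3 + -(p * i3)) (2 * i3 - -(p * i3)) z := by
      rw [lg_pch iv p (p / 3) (by omega) hiv, show p / 3 = 2 * μ by omega]
      congr 1
      · rw [hpA]; push_cast; linear_combination (2 * μ : A) * h3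
      · rw [hpA]; push_cast; linear_combination (-2 * μ - 1 : A) * h3
    have e2 : lg (2 * p / 3) z = hyp iv p (i3 + 2 * (p * i3)) (2 * i3 - 2 * (p * i3)) z := by
      rw [lg_pch iv p (2 * p / 3) (by omega) hiv, show 2 * p / 3 = 4 * μ by omega, hyp_comm]
      congr 1
      · rw [hpA]; push_cast; linear_combination (-4 * μ - 1 : A) * h3
      · rw [hpA]; push_cast; linear_combination (4 * μ : A) * h3
    rw [e1, e2, hE1, hE2]
    exact ⟨2 * i3 ^ 2 * E1 + 4 * i3 ^ 2 * E2, by ring⟩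
  · obtain ⟨μ, hμ⟩ : ∃ μ, p = 6 * μ + 5 := ⟨p / 6, by omega⟩
    have hpA : (p : A) = 6 * μ + 5 := by rw [hμ]; push_cast; ring
    obtain ⟨E1, hE1⟩ := hB (p * i3)
    obtain ⟨E2, hE2⟩ := hB (-(2 * (p * i3)))
    have e1 : lg (p / 3) z = hyp iv p (i3 + p * i3) (2 * i3 - p * i3) z := by
      rw [lg_pch iv p (p / 3) (by omega) hiv, show p / 3 = 2 * μ + 1 by omega, hyp_comm]
      congr 1
      · rw [hpA]; push_cast; linear_combination (-2 * μ - 2 : A) * h3
      · rw [hpA]; push_cast; linear_combination (2 * μ + 1 : A) * h3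
    have e2 : lg (2 * p / 3) z = hyp iv p (i3 + -(2 * (p * i3))) (2 * i3 - -(2 * (p * i3))) z := by
      rw [lg_pch iv p (2 * p / 3) (by omega) hiv, show 2 * p / 3 = 4 * μ + 3 by omega]
      congr 1
      · rw [hpA]; push_cast; linear_combination (4 * μ + 3 : A) * h3
      · rw [hpA]; push_cast; linear_combination (-4 * μ - 4 : A) * h3
    rw [e1, e2, hE1, hE2]
    exact ⟨2 * i3 ^ 2 * E1 + 4 * i3 ^ 2 * E2, by ring⟩

/-- the coefficients -/
def a3 (i27 : A) (k : ℕ) : A := (u3 k : A) * i27 ^ k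

theorem a3_zero (i27 : A) : a3 i27 0 = 1 := by simp [a3, u3]

theorem a3_rec {i27 : A} (h27 : 27 * i27 = 1) (k : ℕ) :
    9 * ((k : A) + 1) ^ 2 * a3 i27 (k + 1) = (3 * k + 1) * (3 * k + 2) * a3 i27 k := by
  have h := congrArg (Nat.cast : ℕ → A) (u3_succ k)
  push_cast at h
  unfold a3
  rw [pow_succ]
  linear_combination (9 * i27 ^ k * i27) * h + ((3 * k + 1) * (3 * k + 2) * (u3 k : A) * i27 ^ k) * h27

theorem a3_pch {p : ℕ} {i27 i3 : A} (h27 : 27 * i27 = 1) (h3 : 3 * i3 = 1)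
    (hiv : ∀ k, k + 1 < p → ((k : A) + 1) * iv (k + 1) = 1) (k : ℕ) (hk : k < p) :
    a3 i27 k = pch i3 k * pch (2 * i3) k * Jf iv k ^ 2 := by
  induction k with
  | zero => simp [pch_zero, Jf_zero, a3_zero]
  | succ k ih =>
    have h := a3_rec h27 k
    have hi := hiv k hk
    rw [pch_succ, pch_succ, Jf_succ]
    have ih' := ih (by omega)
    have e : a3 i27 (k + 1) = (i3 ^ 2 * (9 * ((k : A) + 1) ^ 2 * a3 i27 (k + 1))) * iv (k + 1) ^ 2 := by
      linear_combination (-(a3 i27 (k + 1)) * (((k : A) + 1) * iv (k + 1) + 1)) * hi -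
        ((k : A) + 1) ^ 2 * a3 i27 (k + 1) * iv (k + 1) ^ 2 * (3 * i3 + 1) * h3
    rw [e, h, ih']
    linear_combination (pch i3 k * pch (2 * i3) k * Jf iv k ^ 2 * iv (k + 1) ^ 2 * (k ^ 2 * (3 * i3 + 1) +
      3 * k * i3)) * h3

end ring

open Polynomial

section pol

variable {O : Type*} [CommRing O] (iv : ℕ → O)

theorem PF_hyp {p : ℕ} {i27 i3 : O} (h27 : 27 * i27 = 1) (h3 : 3 * i3 = 1)
    (hiv : ∀ k, k + 1 < p → ((k : O) + 1) * iv (k + 1) = 1) :
    hyp (fun n => C (iv n)) p (C i3) (2 * C i3) X = PF (a3 i27) p := by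
  unfold hyp PF
  refine sum_congr rfl fun k hk => ?_
  rw [a3_pch iv h27 h3 hiv k (mem_range.mp hk)]
  have e2 : (2 : O[X]) * C i3 = C (2 * i3) := by rw [map_mul, map_ofNat]
  have e3 : Jf (fun n => (C (iv n) : O[X])) k = C (Jf iv k) := by simp [Jf]
  rw [e2, ← pch_map, ← pch_map, e3, map_mul, map_mul, map_pow]

theorem PF_lg {p : ℕ} (hp : p % 6 = 1 ∨ p % 6 = 5) {i27 i3 : O} (h27 : 27 * i27 = 1) (h3 : 3 * i3 = 1)
    (hiv : ∀ k, k + 1 < p → ((k : O) + 1) * iv (k + 1) = 1) : ∃ M : O[X],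
    3 * PF (a3 i27) p = 2 * lg (p / 3) X + lg (2 * p / 3) X + C ((p : O) ^ 2) * M := by
  have h3' : (3 : O[X]) * C i3 = 1 := by
    have := congrArg (C : O →+* O[X]) h3
    rwa [map_mul, map_ofNat, map_one] at this
  have hiv' : ∀ k, k + 1 < p → ((k : O[X]) + 1) * (fun n => (C (iv n) : O[X])) (k + 1) = 1 := by
    intro k hk
    have := congrArg (C : O →+* O[X]) (hiv k hk)
    rwa [map_mul, map_add, map_natCast, map_one] at this
  obtain ⟨M, hM⟩ := comb0 (A := O[X]) (fun n => C (iv n)) hp h3' X hiv'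
  rw [PF_hyp iv h27 h3 hiv] at hM
  refine ⟨-M, ?_⟩
  rw [map_pow, map_natCast]
  linear_combination -hM

theorem lg_comp (n : ℕ) : (lg n (X : O[X])).comp (1 - X) = (-1) ^ n * lg n X := by
  have h : (lg n (X : O[X])).comp (1 - X) = lg n (1 - X) := by
    have := lg_cast (Polynomial.compRingHom (1 - X : O[X])) n X
    rw [Polynomial.coe_compRingHom_apply, Polynomial.coe_compRingHom_apply, X_comp] at this
    exact this
  rw [h, lg_neg]

theorem PF_sym {p : ℕ} (hp : p % 6 = 1 ∨ p % 6 = 5) {i27 i3 : O} (h27 : 27 * i27 = 1) (h3 : 3 * i3 = 1)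
    (hiv : ∀ k, k + 1 < p → ((k : O) + 1) * iv (k + 1) = 1) {ε : O} (hε : (p % 6 = 1 ∧ ε = 1) ∨ (p % 6 = 5 ∧ ε = -1)) :
    ∃ M : O[X], (PF (a3 i27) p).comp (1 - X) = C ε * PF (a3 i27) p + C ((p : O) ^ 2) * M := by
  obtain ⟨M, hM⟩ := PF_lg iv hp h27 h3 hiv
  have h := congrArg (fun f => f.comp (1 - X)) hM
  simp only [mul_comp, add_comp, C_comp, lg_comp] at h
  have h3' : (3 : O[X]) * C i3 = 1 := by
    have := congrArg (C : O →+* O[X]) h3
    rwa [map_mul, map_ofNat, map_one] at this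
  have e3 : (3 : O[X]).comp (1 - X) = 3 := by simp
  have e2 : (2 : O[X]).comp (1 - X) = 2 := by simp
  rw [e3, e2] at h
  have e1 : ((-1 : O[X])) ^ (p / 3) = C ε ∧ ((-1 : O[X])) ^ (2 * p / 3) = C ε := by
    rcases hε with ⟨h6, h1⟩ | ⟨h6, h1⟩
    · rw [h1, map_one]
      exact ⟨Even.neg_one_pow ⟨p / 6, by omega⟩, Even.neg_one_pow ⟨2 * (p / 6), by omega⟩⟩
    · rw [h1, map_neg, map_one]
      exact ⟨Odd.neg_one_pow ⟨p / 6, by omega⟩, Odd.neg_one_pow ⟨2 * (p / 6) + 1, by omega⟩⟩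
  rw [e1.1, e1.2] at h
  refine ⟨C i3 * (M.comp (1 - X) - C ε * M), ?_⟩
  linear_combination C i3 * h - C ε * C i3 * hM - ((PF (a3 i27) p).comp (1 - X) - C ε * PF (a3 i27) p) * h3'

end pol

end Pool.Agent.H546
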