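import Pool.Agent.H546.W6

set_option autoImplicit false

/-!
# Evaluation of the Wronskian
-/

namespace Pool.Agent.H546

open Polynomial

section ev

variable {O : Type*} [CommRing O]

theorem PFe (a : ℕ → O) (p : ℕ) (z : O) : (PF a p).eval z = ∑ k ∈ Finset.range p, a k * z ^ k := by
  unfold PF
  rw [eval_finsetSum]
  refine Finset.sum_congr rfl fun k _ => ?_
  rw [eval_mul, eval_C, eval_pow, eval_X]

theorem PFde (a : ℕ → O) (p : ℕ) (z : O) : (derivative (PF a p)).eval z =
    ∑ k ∈ Finset.range p, a k * (k * z ^ (k - 1)) := by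
  unfold PF
  rw [derivative_sum, eval_finsetSum]
  refine Finset.sum_congr rfl fun k _ => ?_
  rw [derivative_C_mul, derivative_X_pow, eval_mul, eval_C, eval_mul, eval_pow, eval_X, eval_C]

theorem PFze (a : ℕ → O) (p : ℕ) (z : O) : z * (derivative (PF a p)).eval z =
    ∑ k ∈ Finset.range p, k * (a k * z ^ k) := by
  rw [PFde, Finset.mul_sum]
  refine Finset.sum_congr rfl fun k _ => ?_
  rcases k with _ | k
  · simp
  · rw [Nat.add_sub_cancel, pow_succ]; push_cast; ring

theorem wN_ev (v : O) (a : ℕ → O) (m : ℕ) {s t x : O} (ht : t = 1 + s) (hx : v * (s * (3 + s) ^ 2) = t ^ 3 * x) :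
    (wN v a (m + 1)).eval s = (t ^ 3) ^ m * (PF a (m + 1)).eval x ∧
    t ^ 3 * (derivative (wN v a (m + 1))).eval s = (t ^ 3) ^ m *
      ((v * ((3 + s) ^ 2 + 2 * s * (3 + s)) - 3 * t ^ 2 * x) * (derivative (PF a (m + 1))).eval x +
        3 * t ^ 2 * (m * (PF a (m + 1)).eval x)) := by
  have e3 : (3 : O[X]) = C 3 := (map_ofNat C 3).symm
  have h1 : ∀ k ∈ Finset.range (m + 1), (t ^ 3) ^ m = (t ^ 3) ^ k * (t ^ 3) ^ (m + 1 - 1 - k) := by
    intro k hk
    have := Finset.mem_range.mp hk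
    rw [← pow_add]; congr 1; omega
  have hA : (C v * (X * (3 + X) ^ 2) : O[X]).eval s = t ^ 3 * x := by
    rw [← hx, e3]; simp
  have hB : ((1 + X) ^ 3 : O[X]).eval s = t ^ 3 := by rw [ht]; simp
  have hA' : (derivative (C v * (X * (3 + X) ^ 2) : O[X])).eval s = v * ((3 + s) ^ 2 + 2 * s * (3 + s)) := by
    rw [e3]
    simp [derivative_mul, derivative_pow]
    ring
  have hB' : (derivative ((1 + X) ^ 3 : O[X])).eval s = 3 * t ^ 2 := by
    rw [ht]
    simp [derivative_pow]
  refine ⟨?_, ?_⟩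
  · unfold wN
    rw [eval_finsetSum, PFe, Finset.mul_sum]
    refine Finset.sum_congr rfl fun k hk => ?_
    rw [eval_mul, eval_mul, eval_pow, eval_pow, eval_C, hA, hB, h1 k hk, mul_pow]
    ring
  · have hz := PFze a (m + 1) x
    have hR : (v * ((3 + s) ^ 2 + 2 * s * (3 + s)) - 3 * t ^ 2 * x) * (derivative (PF a (m + 1))).eval x +
        3 * t ^ 2 * (m * (PF a (m + 1)).eval x) = v * ((3 + s) ^ 2 + 2 * s * (3 + s)) *
        (derivative (PF a (m + 1))).eval x + 3 * t ^ 2 * (m * (PF a (m + 1)).eval x -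
          x * (derivative (PF a (m + 1))).eval x) := by ring
    rw [hR, hz, PFe, PFde, Finset.mul_sum, Finset.mul_sum, ← Finset.sum_sub_distrib, Finset.mul_sum,
      ← Finset.sum_add_distrib, Finset.mul_sum]
    unfold wN
    rw [derivative_sum, eval_finsetSum, Finset.mul_sum]
    refine Finset.sum_congr rfl fun k hk => ?_
    have hk' := Finset.mem_range.mp hk
    rw [derivative_mul, derivative_mul, derivative_C, zero_mul, zero_add, derivative_pow, derivative_pow]
    simp only [eval_add, eval_mul, eval_pow, eval_C, hA, hB, hA', hB']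
    rw [h1 k hk]
    have hmk : (m : O) = k + ((m + 1 - 1 - k : ℕ) : O) := by
      rw [← Nat.cast_add]; congr 1; omega
    rw [hmk]
    generalize m + 1 - 1 - k = j
    rcases k with _ | k
    · rcases j with _ | j
      · simp
      · rw [Nat.add_sub_cancel, pow_succ (t ^ 3) j]; push_cast; simp; ring
    · rcases j with _ | j
      · rw [Nat.add_sub_cancel, pow_succ x, mul_pow, pow_succ (t ^ 3) k]; push_cast; simp; ring
      · rw [Nat.add_sub_cancel, Nat.add_sub_cancel, pow_succ x, mul_pow, mul_pow, pow_succ (t ^ 3) k,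
          pow_succ (t ^ 3) j, pow_succ x]; push_cast; ring

theorem wY_ev (v : O) (a : ℕ → O) (n : ℕ) {s y : O} (hy : v ^ 2 * (s ^ 2 * (3 + s)) = y) :
    (wY v a n).eval s = (PF a n).eval y ∧
    (derivative (wY v a n)).eval s = v ^ 2 * (6 * s + 3 * s ^ 2) * (derivative (PF a n)).eval y := by
  have e3 : (3 : O[X]) = C 3 := (map_ofNat C 3).symm
  have h1 : (C (v ^ 2) * (X ^ 2 * (3 + X)) : O[X]).eval s = y := by
    rw [← hy, e3]; simp
  refine ⟨?_, ?_⟩
  · unfold wY; rw [eval_comp, h1]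
  · unfold wY
    rw [derivative_comp, eval_mul, eval_comp, h1]
    congr 1
    rw [e3]
    simp [derivative_mul, derivative_pow]
    ring

theorem wH_ev (v : O) (a : ℕ → O) (m : ℕ) {s t x y : O} (ht : t = 1 + s)
    (hx : v * (s * (3 + s) ^ 2) = t ^ 3 * x) (hy : v ^ 2 * (s ^ 2 * (3 + s)) = y) :
    t ^ 2 * (wH v a (m + 1)).eval s = (t ^ 3) ^ m * (t ^ 2 * (PF a (m + 1)).eval x * (PF a (m + 1)).eval y +
      t ^ 3 * (v ^ 2 * (6 * s + 3 * s ^ 2)) * (PF a (m + 1)).eval x * (derivative (PF a (m + 1))).eval y -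
      (v * ((3 + s) ^ 2 + 2 * s * (3 + s)) - 3 * t ^ 2 * x) * (derivative (PF a (m + 1))).eval x *
        (PF a (m + 1)).eval y) := by
  obtain ⟨n1, n2⟩ := wN_ev v a m ht hx
  obtain ⟨y1, y2⟩ := wY_ev v a (m + 1) hy
  have e : (wH v a (m + 1)).eval s = (3 * ((m + 1 : ℕ) : O) - 2) * ((wN v a (m + 1)).eval s * (wY v a (m + 1)).eval s) +
      t * ((wN v a (m + 1)).eval s * (derivative (wY v a (m + 1))).eval s -
        (derivative (wN v a (m + 1))).eval s * (wY v a (m + 1)).eval s) := by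
    unfold wH
    rw [ht]
    simp
  rw [e, n1, y1, y2]
  push_cast
  linear_combination (-(PF a (m + 1)).eval y) * n2

end ev

end Pool.Agent.H546
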