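import Pool.Agent.H546.W7
import Pool.Agent.H546.TFfin

set_option autoImplicit false
set_option maxHeartbeats 1000000

/-!
# The value of the Wronskian at the point of discriminant `-15`
-/

namespace Pool.Agent.H546

open Polynomial
open Pool.Agent.Q267.MW (u3 u3_succ)

section dv

variable {O K k : Type*} [CommRing O] [IsDomain O] [Field K] [Algebra O K] [Field k]
  (S : DV O K k) {p : ℕ} [hp : Fact p.Prime] [CharP k p]

theorem a3_p (hp5 : 5 ≤ p) {i27 : O} (h27 : 27 * i27 = 1) : S.red (9 * a3 i27 p) = 2 := by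
  have hu : ((u3 p : ℕ) : k) = 6 := by
    have h1 := choose_pp (p := p) 2 1
    have h2 := choose_pp (p := p) 3 1
    have h3 : u3 p ≡ 2 * 3 [MOD p] := by
      have e : u3 p = (2 * p).choose (1 * p) * (3 * p).choose (1 * p) := by rw [one_mul]; rfl
      rw [e]
      have d : p ∣ p ^ 2 := dvd_pow_self p (by norm_num)
      exact Nat.ModEq.mul (h1.of_dvd d) (h2.of_dvd d)
    have h4 : ((u3 p : ℕ) : k) = ((2 * 3 : ℕ) : k) := by
      rw [CharP.cast_eq_iff_mod_eq k p]; exact h3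
    rw [h4]; norm_num
  have hi : S.red i27 ^ p = S.red i27 := by
    refine S.frob_inv (p := p) (n := 27) (v := i27) (by push_cast; exact h27) ?_
    have := ndvd_of_primes p (n := 27) (l := [3, 3, 3]) (by simp; norm_num) (by norm_num) (by simp; omega)
    exact_mod_cast this
  have h27k : 27 * S.red i27 = 1 := by
    have := congrArg S.red h27
    rwa [map_mul, map_one, map_ofNat] at this
  unfold a3
  rw [map_mul, map_mul, map_pow, map_natCast, map_ofNat, hu, hi]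
  linear_combination 2 * h27k

theorem four_pow (hq : S.q = (p : O)) (hp5 : 5 ≤ p) : (p : O) ∣ 4 ^ (p - 1) - 1 := by
  rw [← hq, ← S.red_iff, map_sub, map_pow, map_ofNat, map_one]
  have h4 : (4 : k) ^ p = 4 := by
    have : frobenius k p 4 = 4 := map_ofNat _ 4
    exact this
  have h0 : (4 : k) ≠ 0 := by
    have := S.int_ne (p := p) (n := 4) (by
      have := ndvd_of_primes p (n := 4) (l := [2, 2]) (by simp; norm_num) (by norm_num) (by simp; omega)
      exact_mod_cast this)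
    rw [map_intCast] at this
    exact_mod_cast this
  have h5 : (4 : k) * 4 ^ (p - 1) = 4 * 1 := by
    rw [← pow_succ', show p - 1 + 1 = p by omega, h4]; ring
  rw [mul_left_cancel₀ h0 h5]; ring

/-- the Wronskian at the point of discriminant `-15` -/
theorem wr_fin (hq : S.q = (p : O)) (hp5 : 5 ≤ p) {σ ρ v : O} (hσ : σ ^ 2 = 5) (hρ : ρ ^ 2 = -3)
    (hv : 2 * v = 1) (Q : QD O) (hQ : Q.v = v) {i27 : O} (h27 : 27 * i27 = 1) {ε : O} (hε : ε ^ 2 = 1)
    {A B A' B' : O} (hA : A = (PF (a3 i27) p).eval (v * (1 + σ))) (hB : B = (PF (a3 i27) p).eval (v * (1 - σ)))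
    (hA' : A' = (derivative (PF (a3 i27) p)).eval (v * (1 + σ)))
    (hB' : B' = (derivative (PF (a3 i27) p)).eval (v * (1 - σ)))
    (h1 : (p : O) ^ 2 ∣ B - ε * A) (h2 : (p : O) ^ 2 ∣ B' + ε * A') :
    (p : O) ^ 2 ∣ A * (2 * A + 3 * σ * A') - 2 * ε * p := by
  obtain ⟨m, hm⟩ : ∃ m, p = m + 1 := ⟨p - 1, by omega⟩
  obtain ⟨M, hM⟩ := wr_main S hq hp5 Q (a3_rec h27) (a3_zero i27) (a3_p S hp5 h27)
  rw [hQ] at hM
  set t := v * (σ + ρ) with ht
  set s := t - 1 with hs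
  have hts : t = 1 + s := by rw [hs]; ring
  have htt : t * (v * (σ - ρ)) = 2 := by
    rw [ht]
    linear_combination v ^ 2 * hσ - v ^ 2 * hρ + (4 * v + 2) * hv
  have ht2 : t ^ 2 = v * (1 + σ * ρ) := by
    rw [ht]
    linear_combination v ^ 2 * hσ + v ^ 2 * hρ + v * (1 + σ * ρ) * hv
  have ht4 : t ^ 4 = t ^ 2 - 4 := by
    have e : t ^ 4 = (t ^ 2) ^ 2 := by ring
    rw [e, ht2]
    linear_combination v ^ 2 * ρ ^ 2 * hσ + 5 * v ^ 2 * hρ + (v * ρ * σ - 7 * v - 4) * hv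
  have hx : v * (s * (3 + s) ^ 2) = t ^ 3 * (v * (1 + σ)) := by
    have e : s * (3 + s) ^ 2 = t * t ^ 2 + 3 * t ^ 2 - 4 := by rw [hs]; ring
    rw [e, show t ^ 3 = t * t ^ 2 by ring, ht2, ht]
    linear_combination (-v ^ 3 * ρ * σ - v ^ 3 * ρ ^ 2 - v ^ 3) * hσ + (-5 * v ^ 3) * hρ +
      (-3 * v ^ 2 * ρ * σ + 5 * v ^ 2 + 4 * v) * hv
  have hy : v ^ 2 * (s ^ 2 * (3 + s)) = v * (1 - σ) := by
    have e : s ^ 2 * (3 + s) = t * t ^ 2 - 3 * t + 2 := by rw [hs]; ring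
    rw [e, ht2, ht]
    linear_combination (v ^ 4 * ρ) * hσ + (v ^ 4 * σ) * hρ +
      (3 * v ^ 3 * ρ - v ^ 3 * σ - 2 * v ^ 2 * σ - v * σ + v) * hv
  have hE := wH_ev v (a3 i27) m hts hx hy
  rw [← hm, ← hA, ← hB, ← hA', ← hB', hM] at hE
  clear_value t
  have hG : (wG O).eval s = 4 * t ^ 3 := by
    have e2 : (2 : O[X]) = C 2 := (map_ofNat C 2).symm
    have e3 : (3 : O[X]) = C 3 := (map_ofNat C 3).symm
    unfold wG
    rw [e2, e3]
    simp only [eval_mul, eval_add, eval_sub, eval_one, eval_X, eval_C]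
    rw [hs]
    linear_combination (-t) * ht4
  set E := t ^ 2 * A * B + t ^ 3 * (v ^ 2 * (6 * s + 3 * s ^ 2)) * A * B' -
      (v * ((3 + s) ^ 2 + 2 * s * (3 + s)) - 3 * t ^ 2 * (v * (1 + σ))) * A' * B with hEd
  have hE2 : (t ^ 3) ^ m * (E - t ^ 2 * p * 4 ^ m) = (p : O) ^ 2 * (t ^ 2 * M.eval s) := by
    have hm1 : p - 1 = m := by omega
    rw [hm1] at hE
    simp only [eval_add, eval_mul, eval_pow, eval_C, hG, mul_pow] at hE
    linear_combination -hE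
  have r2 := S.two_ne (p := p) (by omega)
  have hut : IsUnit t := by
    apply S.unit_of_red
    intro h0
    apply r2
    rw [← htt, map_mul, h0, zero_mul]
  have hE3 : (p : O) ^ 2 ∣ E - t ^ 2 * p * 4 ^ m := by
    have hu : IsUnit ((t ^ 3) ^ m) := (hut.pow 3).pow m
    rw [← hu.dvd_mul_left, hE2]
    exact dvd_mul_right _ _
  obtain ⟨c4, hc4⟩ := four_pow S hq hp5
  have hm1 : p - 1 = m := by omega
  rw [hm1] at hc4
  have hK : t ^ 3 * (v ^ 2 * (6 * s + 3 * s ^ 2)) + (v * ((3 + s) ^ 2 + 2 * s * (3 + s)) -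
      3 * t ^ 2 * (v * (1 + σ))) = -(3 * v * σ * t ^ 2) := by
    rw [hs]
    linear_combination (3 * v ^ 2 * t) * ht4 - (6 * v * t) * hv
  obtain ⟨b, hb⟩ := h1
  obtain ⟨b', hb'⟩ := h2
  obtain ⟨c, hc⟩ := hE3
  have hfin : (p : O) ^ 2 ∣ t ^ 2 * (ε * (A ^ 2 + 3 * v * σ * A * A') - p) := by
    set K1 := t ^ 3 * (v ^ 2 * (6 * s + 3 * s ^ 2)) with hK1
    set K2 := v * ((3 + s) ^ 2 + 2 * s * (3 + s)) - 3 * t ^ 2 * (v * (1 + σ)) with hK2
    refine ⟨c + t ^ 2 * c4 - t ^ 2 * A * b - K1 * A * b' + K2 * A' * b, ?_⟩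
    rw [hEd] at hc
    linear_combination hc + t ^ 2 * p * hc4 - (t ^ 2 * A - K2 * A') * hb - K1 * A * hb' +
      (ε * A * A') * hK
  have hfin2 : (p : O) ^ 2 ∣ ε * (A ^ 2 + 3 * v * σ * A * A') - p := ((hut.pow 2).dvd_mul_left).mp hfin
  obtain ⟨d, hd⟩ := hfin2
  refine ⟨2 * ε * d, ?_⟩
  linear_combination (2 * ε) * hd - (2 * (A ^ 2 + 3 * v * σ * A * A')) * hε - (3 * σ * A * A') * hv

end dv

end Pool.Agent.H546
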